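import Pool.Agent.Q150.Adm14Defs

namespace Q150.Adm14

/-- the fourteen points -/
def SZ : Finset (ℤ × ℤ) :=
  {(10, 4), (5, 4), (5, 9), (3, 9), (3, 2), (10, 2), (8, 1), (7, 1), (7, 0), (8, 0), (0, 5),
    (1, 5), (1, 6), (0, 6)}

def emb (q : ℤ × ℤ) : ℝ × ℝ := ((q.1 : ℝ), (q.2 : ℝ))

lemma emb_inj : Function.Injective emb := by
  rintro ⟨a, b⟩ ⟨c, d⟩ h
  simp only [emb, Prod.mk.injEq, Int.cast_inj] at h
  exact Prod.ext h.1 h.2

open Classical in
noncomputable def SR : Finset (ℝ × ℝ) := SZ.image emb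

lemma key (φ : ℤ × ℤ → ℤ) (ψ : ℝ × ℝ → ℝ) (v : ℝ × ℝ) (hφ : ∀ q, ψ (emb q) = (φ q : ℝ))
    (hψ : ∀ p q : ℝ × ℝ, q ∈ lineThrough p v ↔ ψ q = ψ p)
    (hcount : ∀ q₀ ∈ SZ, (SZ.filter (fun q => φ q = φ q₀)).card = 2) (p : ℝ × ℝ) :
    (SR : Set (ℝ × ℝ)) ∩ lineThrough p v = ∅ ∨
      ((SR : Set (ℝ × ℝ)) ∩ lineThrough p v).ncard = 2 := by
  classical
  rcases Set.eq_empty_or_nonempty ((SR : Set (ℝ × ℝ)) ∩ lineThrough p v) with h | ⟨x, hx, hxl⟩
  · exact Or.inl h
  · right
    rw [Finset.mem_coe, SR, Finset.mem_image] at hx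
    obtain ⟨q₀, hq₀, rfl⟩ := hx
    have hset : (SR : Set (ℝ × ℝ)) ∩ lineThrough p v =
        (((SZ.filter (fun q => φ q = φ q₀)).image emb : Finset (ℝ × ℝ)) : Set (ℝ × ℝ)) := by
      ext y
      rw [Set.mem_inter_iff, Finset.mem_coe, Finset.mem_coe, SR, Finset.mem_image,
        Finset.mem_image]
      rw [hψ] at hxl
      constructor
      · rintro ⟨⟨q, hq, rfl⟩, hy⟩
        refine ⟨q, Finset.mem_filter.2 ⟨hq, ?_⟩, rfl⟩
        rw [hψ, ← hxl, hφ, hφ] at hy
        exact_mod_cast hy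
      · rintro ⟨q, hq, rfl⟩
        rw [Finset.mem_filter] at hq
        refine ⟨⟨q, hq.1, rfl⟩, ?_⟩
        rw [hψ, ← hxl, hφ, hφ, hq.2]
    rw [hset, Set.ncard_coe_finset, Finset.card_image_of_injective _ emb_inj, hcount q₀ hq₀]

theorem main : Admissible fourDirections 2 SR ∧ SR.card = 14 := by
  classical
  refine ⟨⟨⟨emb (10, 4), Finset.mem_image_of_mem _ (by decide)⟩, ?_⟩, ?_⟩
  · intro v hv p
    simp only [fourDirections, Set.mem_insert_iff, Set.mem_singleton_iff] at hv
    rcases hv with rfl | rfl | rfl | rfl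
    · apply key (fun q => q.2) (fun q => q.2) _ (fun q => rfl) _ (by decide)
      intro p q
      constructor
      · rintro ⟨t, rfl⟩; simp
      · intro h
        have h' : q.2 = p.2 := h
        exact ⟨q.1 - p.1, by ext <;> simp [h']⟩
    · apply key (fun q => q.1) (fun q => q.1) _ (fun q => rfl) _ (by decide)
      intro p q
      constructor
      · rintro ⟨t, rfl⟩; simp
      · intro h
        have h' : q.1 = p.1 := h
        exact ⟨q.2 - p.2, by ext <;> simp [h']⟩
    · apply key (fun q => q.1 - q.2) (fun q => q.1 - q.2) _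
        (fun q => by simp [emb]) _ (by decide)
      intro p q
      constructor
      · rintro ⟨t, rfl⟩; simp
      · intro h
        have h' : q.1 - q.2 = p.1 - p.2 := h
        refine ⟨q.1 - p.1, ?_⟩
        ext
        · simp
        · simp; linarith
    · apply key (fun q => q.1 + q.2) (fun q => q.1 + q.2) _
        (fun q => by simp [emb]) _ (by decide)
      intro p q
      constructor
      · rintro ⟨t, rfl⟩; simp; ring
      · intro h
        have h' : q.1 + q.2 = p.1 + p.2 := h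
        refine ⟨q.1 - p.1, ?_⟩
        ext
        · simp
        · simp; linarith
  · rw [SR, Finset.card_image_of_injective _ emb_inj]
    decide

end Q150.Adm14
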