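import Mathlib

/-!
# Admissible point sets for finitely many line directions: definitions
-/

namespace Q150.Adm14

/-- The line through `p` with direction `v`. -/
def lineThrough (p v : ℝ × ℝ) : Set (ℝ × ℝ) := {q | ∃ t : ℝ, q = p + t • v}

/-- `S` is admissible for the set `L` of directions and the number `r`: it is nonempty and every
line whose direction belongs to `L` either misses `S` or contains exactly `r` points of `S`. -/
def Admissible (L : Set (ℝ × ℝ)) (r : ℕ) (S : Finset (ℝ × ℝ)) : Prop :=
  S.Nonempty ∧ ∀ v ∈ L, ∀ p : ℝ × ℝ,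
    (S : Set (ℝ × ℝ)) ∩ lineThrough p v = ∅ ∨ ((S : Set (ℝ × ℝ)) ∩ lineThrough p v).ncard = r

/-- The directions of the horizontal lines, the vertical lines, the lines of slope `1` and the
lines of slope `-1`. -/
def fourDirections : Set (ℝ × ℝ) := {(1, 0), (0, 1), (1, 1), (1, -1)}

end Q150.Adm14
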