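import Pool.Agent.Q150.BalDimDefs

namespace Q150.BalDim

open Module

/-- the grid configuration -/
abbrev Pt (n : ℕ) : Type := Fin (n + 1) → Fin (n + 1)
abbrev Ln (n : ℕ) : Type := Fin (n + 1) × (Fin n → Fin (n + 1))

def Inc (n : ℕ) (p : Pt n) (l : Ln n) : Prop := l.1.removeNth p = l.2

lemma card_Pt (n : ℕ) : Fintype.card (Pt n) = (n + 1) ^ (n + 1) := by
  simp

lemma card_Ln (n : ℕ) : Fintype.card (Ln n) = (n + 1) ^ (n + 1) := by
  simp [pow_succ, mul_comm]

lemma inc_iff {n : ℕ} (p : Pt n) (l : Ln n) :
    Inc n p l ↔ ∃ t : Fin (n + 1), p = (l.1.insertNth t l.2 : Fin (n + 1) → Fin (n + 1)) := by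
  constructor
  · intro h
    refine ⟨p l.1, ?_⟩
    unfold Inc at h
    rw [← h]
    exact (Fin.insertNth_self_removeNth l.1 p).symm
  · rintro ⟨t, rfl⟩
    unfold Inc
    funext j
    simp [Fin.removeNth]

lemma linear {n : ℕ} (p p' : Pt n) (l l' : Ln n) (hne : p ≠ p') (h1 : Inc n p l)
    (h2 : Inc n p' l) (h3 : Inc n p l') (h4 : Inc n p' l') : l = l' := by
  unfold Inc at *
  have hk : ∀ (m : Ln n), m.1.removeNth p = m.2 → m.1.removeNth p' = m.2 →
      ∀ b, b ≠ m.1 → p b = p' b := by
    intro m hm hm' b hb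
    obtain ⟨i, rfl⟩ := Fin.exists_succAbove_eq hb
    have := congrFun (hm.trans hm'.symm) i
    exact this
  have ha : l.1 = l'.1 := by
    by_contra hc
    apply hne
    funext b
    by_cases hb : b = l.1
    · apply hk l' h3 h4
      rw [hb]; exact hc
    · exact hk l h1 h2 b hb
  have hb : l.2 = l'.2 := by
    rw [← h1, ← h3, ha]
  exact Prod.ext ha hb

lemma isConfig (n : ℕ) (hn : 1 ≤ n) : IsConfiguration (Inc n) (n + 1) (n + 1) where
  finite_points := inferInstance
  finite_lines := inferInstance
  two_le_q := by omega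
  two_le_k := by omega
  lines_through := by
    intro p
    have h : {l | Inc n p l} = Set.range (fun a : Fin (n + 1) => ((a, a.removeNth p) : Ln n)) := by
      ext l
      constructor
      · intro h; exact ⟨l.1, Prod.ext rfl h⟩
      · rintro ⟨a, rfl⟩; rfl
    have hinj : Function.Injective (fun a : Fin (n + 1) => ((a, a.removeNth p) : Ln n)) :=
      fun a b hab => congrArg Prod.fst hab
    rw [h, ← Set.image_univ, Set.ncard_image_of_injective _ hinj, Set.ncard_univ]
    simp
  points_on := by
    intro l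
    have h : {p | Inc n p l} =
        Set.range (fun t : Fin (n + 1) => (l.1.insertNth t l.2 : Pt n)) := by
      ext p
      rw [Set.mem_ofPred_eq, inc_iff]
      constructor
      · rintro ⟨t, ht⟩; exact ⟨t, ht.symm⟩
      · rintro ⟨t, ht⟩; exact ⟨t, ht.symm⟩
    have hinj : Function.Injective (fun t : Fin (n + 1) => (l.1.insertNth t l.2 : Pt n)) := by
      intro a b hab
      have := congrFun hab l.1
      simpa using this
    rw [h, ← Set.image_univ, Set.ncard_image_of_injective _ hinj, Set.ncard_univ]
    simp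
  linear := linear

/-- injectivity is automatic -/
lemma mk_realization {n : ℕ} (hn : 1 ≤ n) {m : ℕ} (f : Pt n → (Fin m → ℝ))
    (g : Ln n → AffineSubspace ℝ (Fin m → ℝ))
    (hl : ∀ l, (g l : Set (Fin m → ℝ)).Nonempty ∧ finrank ℝ (g l).direction = 1)
    (hi : ∀ p l, f p ∈ g l ↔ Inc n p l) : IsRealization (Inc n) f g := by
  have : Nontrivial (Fin (n + 1)) := Fin.nontrivial_iff_two_le.2 (by omega)
  refine ⟨?_, ?_, hl, hi⟩
  · intro p p' h
    by_contra hne
    have h1 : ∀ a : Fin (n + 1), Inc n p' ((a, a.removeNth p) : Ln n) := by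
      intro a
      rw [← hi, ← h, hi]; rfl
    obtain ⟨a, b, hab⟩ := exists_pair_ne (Fin (n + 1))
    have := linear p p' ((a, a.removeNth p) : Ln n) ((b, b.removeNth p) : Ln n) hne rfl (h1 a) rfl
      (h1 b)
    exact hab (congrArg Prod.fst this)
  · intro l l' h
    obtain ⟨a, b, hab⟩ := exists_pair_ne (Fin (n + 1))
    have h1 : ∀ t : Fin (n + 1), Inc n (l.1.insertNth t l.2 : Pt n) l := fun t =>
      (inc_iff _ _).2 ⟨t, rfl⟩
    have h2 : ∀ t : Fin (n + 1), Inc n (l.1.insertNth t l.2 : Pt n) l' := fun t => by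
      rw [← hi, ← h, hi]; exact h1 t
    refine linear (l.1.insertNth a l.2 : Pt n) (l.1.insertNth b l.2 : Pt n) l l' ?_ (h1 a) (h1 b)
      (h2 a) (h2 b)
    intro h3
    have := congrFun h3 l.1
    exact hab (by simpa using this)

lemma mk_realization_dual {n : ℕ} (hn : 1 ≤ n) {m : ℕ} (f : Ln n → (Fin m → ℝ))
    (g : Pt n → AffineSubspace ℝ (Fin m → ℝ))
    (hl : ∀ l, (g l : Set (Fin m → ℝ)).Nonempty ∧ finrank ℝ (g l).direction = 1)
    (hi : ∀ p l, f l ∈ g p ↔ Inc n p l) : IsRealization (dual (Inc n)) f g := by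
  have : Nontrivial (Fin (n + 1)) := Fin.nontrivial_iff_two_le.2 (by omega)
  refine ⟨?_, ?_, hl, fun l p => hi p l⟩
  · intro l l' h
    obtain ⟨a, b, hab⟩ := exists_pair_ne (Fin (n + 1))
    have h1 : ∀ t : Fin (n + 1), Inc n (l.1.insertNth t l.2 : Pt n) l := fun t =>
      (inc_iff _ _).2 ⟨t, rfl⟩
    have h2 : ∀ t : Fin (n + 1), Inc n (l.1.insertNth t l.2 : Pt n) l' := fun t => by
      rw [← hi, ← h, hi]; exact h1 t
    refine linear (l.1.insertNth a l.2 : Pt n) (l.1.insertNth b l.2 : Pt n) l l' ?_ (h1 a) (h1 b)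
      (h2 a) (h2 b)
    intro h3
    have := congrFun h3 l.1
    exact hab (by simpa using this)
  · intro p p' h
    by_contra hne
    have h1 : ∀ a : Fin (n + 1), Inc n p' ((a, a.removeNth p) : Ln n) := by
      intro a
      rw [← hi, ← h, hi]; rfl
    obtain ⟨a, b, hab⟩ := exists_pair_ne (Fin (n + 1))
    have := linear p p' ((a, a.removeNth p) : Ln n) ((b, b.removeNth p) : Ln n) hne rfl (h1 a) rfl
      (h1 b)
    exact hab (congrArg Prod.fst this)

/-! ### The realization of the grid -/

/-- enumeration of the subsets -/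
noncomputable def en (n : ℕ) : Fin (2 ^ (n + 1)) ≃ Finset (Fin (n + 1)) :=
  (Fintype.equivFinOfCardEq (by simp)).symm

/-- the multilinear map -/
noncomputable def F (n : ℕ) (c : Fin (n + 1) → ℝ) : Fin (2 ^ (n + 1)) → ℝ :=
  fun i => ∏ b ∈ en n i, c b

def toR {n : ℕ} (p : Pt n) : Fin (n + 1) → ℝ := fun b => ((p b : ℕ) : ℝ)

def toR' {n : ℕ} (h : Fin n → Fin (n + 1)) : Fin n → ℝ := fun b => ((h b : ℕ) : ℝ)

lemma F_insert (n : ℕ) (a : Fin (n + 1)) (h : Fin n → ℝ) (t : ℝ) :
    F n (a.insertNth t h : Fin (n + 1) → ℝ) = F n (a.insertNth 0 h : Fin (n + 1) → ℝ) +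
      t • (F n (a.insertNth 1 h : Fin (n + 1) → ℝ) - F n (a.insertNth 0 h : Fin (n + 1) → ℝ)) := by
  funext i
  simp only [F, Pi.add_apply, Pi.smul_apply, Pi.sub_apply, smul_eq_mul]
  have hother : ∀ s : ℝ, ∀ b ∈ (en n i).erase a,
      (a.insertNth s h : Fin (n + 1) → ℝ) b = (a.insertNth 0 h : Fin (n + 1) → ℝ) b := by
    intro s b hb
    obtain ⟨j, rfl⟩ := Fin.exists_succAbove_eq (Finset.ne_of_mem_erase hb)
    simp
  by_cases ha : a ∈ en n i
  · have h1 : ∀ s : ℝ, ∏ b ∈ en n i, (a.insertNth s h : Fin (n + 1) → ℝ) b =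
        s * ∏ b ∈ (en n i).erase a, (a.insertNth 0 h : Fin (n + 1) → ℝ) b := by
      intro s
      rw [← Finset.mul_prod_erase _ _ ha, Finset.prod_congr rfl (hother s)]
      simp
    rw [h1 t, h1 0, h1 1]
    ring
  · have h1 : ∀ s : ℝ, ∏ b ∈ en n i, (a.insertNth s h : Fin (n + 1) → ℝ) b =
        ∏ b ∈ (en n i).erase a, (a.insertNth 0 h : Fin (n + 1) → ℝ) b := by
      intro s
      rw [← Finset.prod_congr rfl (hother s), Finset.erase_eq_of_notMem ha]
    rw [h1 t, h1 0, h1 1]
    ring

/-- singleton coordinates recover the point -/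
lemma F_single (n : ℕ) (c : Fin (n + 1) → ℝ) (b : Fin (n + 1)) :
    F n c ((en n).symm {b}) = c b := by
  simp [F]

noncomputable def gl (n : ℕ) (l : Ln n) : AffineSubspace ℝ (Fin (2 ^ (n + 1)) → ℝ) :=
  AffineSubspace.mk' (F n (l.1.insertNth 0 (toR' l.2) : Fin (n + 1) → ℝ))
    (Submodule.span ℝ {F n (l.1.insertNth 1 (toR' l.2) : Fin (n + 1) → ℝ) -
      F n (l.1.insertNth 0 (toR' l.2) : Fin (n + 1) → ℝ)})

lemma toR_insert {n : ℕ} (a t : Fin (n + 1)) (h : Fin n → Fin (n + 1)) :
    toR (a.insertNth t h : Pt n) =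
      (a.insertNth ((t : ℕ) : ℝ) (toR' h) : Fin (n + 1) → ℝ) := by
  funext b
  rcases eq_or_ne b a with rfl | hb
  · simp [toR]
  · obtain ⟨j, rfl⟩ := Fin.exists_succAbove_eq hb
    simp [toR, toR']

lemma real_C (n : ℕ) (hn : 1 ≤ n) :
    IsRealization (Inc n) (fun p => F n (toR p)) (gl n) := by
  apply mk_realization hn
  · intro l
    refine ⟨⟨_, AffineSubspace.self_mem_mk' _ _⟩, ?_⟩
    rw [gl, AffineSubspace.direction_mk']
    apply finrank_span_singleton
    intro h
    have := congrFun h ((en n).symm {l.1})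
    rw [Pi.sub_apply, F_single, F_single] at this
    simp at this
  · intro p l
    rw [inc_iff]
    constructor
    · intro h
      rw [gl, AffineSubspace.mem_mk', vsub_eq_sub, Submodule.mem_span_singleton] at h
      obtain ⟨s, hs⟩ := h
      refine ⟨p l.1, ?_⟩
      funext b
      rcases eq_or_ne b l.1 with rfl | hb
      · simp
      · obtain ⟨j, rfl⟩ := Fin.exists_succAbove_eq hb
        have := congrFun hs ((en n).symm {l.1.succAbove j})
        rw [Pi.smul_apply, Pi.sub_apply, Pi.sub_apply, F_single, F_single, F_single] at this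
        simp only [Fin.insertNth_apply_succAbove, sub_self, smul_zero] at this
        have h2 : toR p (l.1.succAbove j) = toR' l.2 j := by linarith
        simp only [toR, toR', Nat.cast_inj] at h2
        rw [Fin.insertNth_apply_succAbove]
        exact Fin.ext h2
    · rintro ⟨t, rfl⟩
      have hF := F_insert n l.1 (toR' l.2) ((t : ℕ) : ℝ)
      rw [gl, AffineSubspace.mem_mk', vsub_eq_sub, toR_insert]
      refine Submodule.mem_span_singleton.2 ⟨((t : ℕ) : ℝ), ?_⟩
      rw [hF, add_sub_cancel_left]

/-! ### The realization of the dual -/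

/-- the points of the dual realization in `ℝ^{n+2}` -/
noncomputable def zz (n : ℕ) (l : Ln n) : Fin (n + 2) → ℝ :=
  Fin.cons ((l.1 : ℕ) : ℝ) (fun b : Fin (n + 1) =>
    (l.1.insertNth 0 (toR' l.2) : Fin (n + 1) → ℝ) b * (((l.1 : ℕ) : ℝ) - ((b : ℕ) : ℝ)))

noncomputable def Lam (n : ℕ) (p : Pt n) : AffineSubspace ℝ (Fin (n + 2) → ℝ) :=
  AffineSubspace.mk' (Fin.cons 0 (fun b : Fin (n + 1) => toR p b * (0 - ((b : ℕ) : ℝ))))
    (Submodule.span ℝ {(Fin.cons 1 (toR p) : Fin (n + 2) → ℝ)})

lemma real_dual (n : ℕ) (hn : 1 ≤ n) : IsRealization (dual (Inc n)) (zz n) (Lam n) := by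
  apply mk_realization_dual hn
  · intro p
    refine ⟨⟨_, AffineSubspace.self_mem_mk' _ _⟩, ?_⟩
    rw [Lam, AffineSubspace.direction_mk']
    apply finrank_span_singleton
    intro h
    have := congrFun h 0
    simp at this
  · intro p l
    rw [inc_iff, Lam, AffineSubspace.mem_mk', vsub_eq_sub, Submodule.mem_span_singleton]
    constructor
    · rintro ⟨s, hs⟩
      have h0 := congrFun hs 0
      simp only [zz, Pi.smul_apply, Pi.sub_apply, Fin.cons_zero, smul_eq_mul, mul_one,
        sub_zero] at h0
      refine ⟨p l.1, ?_⟩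
      funext b
      rcases eq_or_ne b l.1 with rfl | hb
      · simp
      · have h1 := congrFun hs b.succ
        simp only [zz, Pi.smul_apply, Pi.sub_apply, Fin.cons_succ, smul_eq_mul] at h1
        obtain ⟨j, rfl⟩ := Fin.exists_succAbove_eq hb
        rw [Fin.insertNth_apply_succAbove, h0] at h1
        have hne : (((l.1 : ℕ) : ℝ) - (((l.1.succAbove j : Fin (n + 1)) : ℕ) : ℝ)) ≠ 0 := by
          rw [sub_ne_zero]
          intro h
          apply hb
          apply Fin.ext
          exact_mod_cast h.symm
        have h2 : (toR p (l.1.succAbove j) - toR' l.2 j) *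
            (((l.1 : ℕ) : ℝ) - (((l.1.succAbove j : Fin (n + 1)) : ℕ) : ℝ)) = 0 := by
          linear_combination h1
        have h3 : toR p (l.1.succAbove j) - toR' l.2 j = 0 := by
          rcases mul_eq_zero.1 h2 with h | h
          · exact h
          · exact absurd h hne
        have h4 : toR p (l.1.succAbove j) = toR' l.2 j := by linarith
        simp only [toR, toR', Nat.cast_inj] at h4
        rw [Fin.insertNth_apply_succAbove]
        exact Fin.ext h4
    · rintro ⟨t, rfl⟩
      refine ⟨((l.1 : ℕ) : ℝ), ?_⟩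
      funext i
      refine Fin.cases ?_ (fun b => ?_) i
      · simp [zz]
      · simp only [zz, Pi.smul_apply, Pi.sub_apply, Fin.cons_succ, smul_eq_mul]
        rw [toR_insert]
        rcases eq_or_ne b l.1 with rfl | hb
        · simp
          ring
        · obtain ⟨j, rfl⟩ := Fin.exists_succAbove_eq hb
          simp only [Fin.insertNth_apply_succAbove]
          ring

/-! ### Lower bound for the dimension of the grid -/

open Classical in
/-- indicator points -/
noncomputable def ind (n : ℕ) (hn : 1 ≤ n) (B : Finset (Fin (n + 1))) : Pt n :=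
  fun b => if b ∈ B then ⟨1, by omega⟩ else 0

lemma F_ind (n : ℕ) (hn : 1 ≤ n) (B : Finset (Fin (n + 1))) (i : Fin (2 ^ (n + 1))) :
    F n (toR (ind n hn B)) i = if en n i ⊆ B then 1 else 0 := by
  classical
  simp only [F, toR, ind]
  split_ifs with h
  · apply Finset.prod_eq_one
    intro b hb
    rw [if_pos (h hb)]
    simp
  · rw [Finset.not_subset] at h
    obtain ⟨b, hb, hbB⟩ := h
    apply Finset.prod_eq_zero hb
    rw [if_neg hbB]
    simp

lemma linInd_ind (n : ℕ) (hn : 1 ≤ n) :
    LinearIndependent ℝ (fun B : Finset (Fin (n + 1)) => F n (toR (ind n hn B))) := by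
  classical
  rw [Fintype.linearIndependent_iff]
  intro c hc
  have h1 : ∀ A : Finset (Fin (n + 1)), ∑ B : Finset (Fin (n + 1)), (if A ⊆ B then c B else 0) = 0 := by
    intro A
    have := congrFun hc ((en n).symm A)
    rw [Finset.sum_apply] at this
    refine Eq.trans ?_ this
    apply Finset.sum_congr rfl
    intro B _
    rw [Pi.smul_apply, F_ind, Equiv.apply_symm_apply, smul_eq_mul]
    split_ifs <;> simp
  -- downward induction on the cardinality
  have h2 : ∀ k : ℕ, ∀ A : Finset (Fin (n + 1)), n + 1 - A.card = k → c A = 0 := by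
    intro k
    induction k using Nat.strong_induction_on with
    | _ k ih =>
      intro A hA
      have h3 := h1 A
      rw [Finset.sum_eq_single A] at h3
      · simpa using h3
      · intro B _ hB
        split_ifs with hAB
        · have hlt : A.card < B.card := Finset.card_lt_card (Finset.ssubset_iff_subset_ne.2
            ⟨hAB, hB.symm⟩)
          have hle : B.card ≤ n + 1 := by
            have := Finset.card_le_univ B
            simpa using this
          exact ih (n + 1 - B.card) (by omega) B rfl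
        · rfl
      · simp
  exact fun A => h2 _ A rfl

lemma le_dim (n : ℕ) (hn : 1 ≤ n) : 2 ^ (n + 1) - 1 ≤ dim (Inc n) := by
  classical
  have hbdd : BddAbove {d | ∃ (m : ℕ) (f : Pt n → (Fin m → ℝ))
      (g : Ln n → AffineSubspace ℝ (Fin m → ℝ)),
      IsRealization (Inc n) f g ∧ finrank ℝ (affineSpan ℝ (Set.range f)).direction = d} := by
    refine ⟨(n + 1) ^ (n + 1) - 1, ?_⟩
    rintro d ⟨m, f, g, -, rfl⟩
    rw [direction_affineSpan]
    apply finrank_vectorSpan_range_le
    rw [card_Pt]
    have : 0 < (n + 1) ^ (n + 1) := by positivity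
    omega
  refine le_trans ?_ (le_csSup hbdd ⟨_, _, _, real_C n hn, rfl⟩)
  have hli := linInd_ind n hn
  have hai : AffineIndependent ℝ (fun B : Finset (Fin (n + 1)) => F n (toR (ind n hn B))) :=
    hli.affineIndependent
  have hfr := hai.finrank_vectorSpan (n := 2 ^ (n + 1) - 1) (by
    have : 0 < 2 ^ (n + 1) := by positivity
    simp
    omega)
  rw [← hfr, direction_affineSpan]
  apply Submodule.finrank_mono
  apply vectorSpan_mono
  rintro _ ⟨B, rfl⟩
  exact ⟨_, rfl⟩

/-! ### Upper bound for the dimension of the dual -/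

/-- the grid line of direction `a` through `p` -/
def thr {n : ℕ} (p : Pt n) (a : Fin (n + 1)) : Ln n := (a, a.removeNth p)

lemma thr_inc {n : ℕ} (p : Pt n) (a : Fin (n + 1)) : Inc n p (thr p a) := rfl

lemma inc_thr {n : ℕ} {p : Pt n} {l : Ln n} (h : Inc n p l) : l = thr p l.1 := by
  unfold Inc at h
  exact Prod.ext rfl h.symm

lemma thr_update {n : ℕ} (p : Pt n) (a : Fin (n + 1)) (v : Fin (n + 1)) :
    thr (Function.update p a v) a = thr p a := by
  unfold thr
  congr 1
  funext j
  simp [Fin.removeNth]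

lemma dual_dim_le (n : ℕ) (hn : 1 ≤ n) : dim (dual (Inc n)) ≤ (n + 1) * n + 1 := by
  classical
  unfold dim
  by_cases hne : {d | ∃ (m : ℕ) (f : Ln n → (Fin m → ℝ))
      (g : Pt n → AffineSubspace ℝ (Fin m → ℝ)),
      IsRealization (dual (Inc n)) f g ∧
        finrank ℝ (affineSpan ℝ (Set.range f)).direction = d}.Nonempty
  swap
  · rw [Set.not_nonempty_iff_eq_empty] at hne
    rw [hne]; simp
  apply csSup_le hne
  rintro d ⟨m, z, Λ, hR, rfl⟩
  have hinc : ∀ p l, z l ∈ Λ p ↔ Inc n p l := fun p l => hR.incidence l p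
  -- the generating set
  let gen : Option (Option (Fin (n + 1) × Fin n)) → Ln n := fun o =>
    match o with
    | none => thr (fun _ => 0) 0
    | some none => thr (fun _ => 0) (Fin.last n)
    | some (some (a, v)) =>
        thr (Function.update (fun _ => 0) a v.succ) (if a = 0 then Fin.last n else 0)
  let A0 : AffineSubspace ℝ (Fin m → ℝ) := affineSpan ℝ (Set.range (fun o => z (gen o)))
  have hfin : finrank ℝ A0.direction ≤ (n + 1) * n + 1 := by
    rw [direction_affineSpan]
    apply finrank_vectorSpan_range_le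
    simp
  have hlast : (0 : Fin (n + 1)) ≠ Fin.last n := by
    intro h
    have := congrArg Fin.val h
    simp at this
    omega
  -- infection
  have hinf : ∀ (p : Pt n) (a b : Fin (n + 1)), a ≠ b → z (thr p a) ∈ A0 → z (thr p b) ∈ A0 →
      ∀ c, z (thr p c) ∈ A0 := by
    intro p a b hab ha hb c
    have hza : z (thr p a) ∈ Λ p := (hinc _ _).2 (thr_inc p a)
    have hzb : z (thr p b) ∈ Λ p := (hinc _ _).2 (thr_inc p b)
    have hzc : z (thr p c) ∈ Λ p := (hinc _ _).2 (thr_inc p c)
    have hne : z (thr p b) - z (thr p a) ≠ 0 := by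
      rw [sub_ne_zero]
      intro h
      have := hR.points_injective h
      exact hab (congrArg Prod.fst this).symm
    have hdir : (Λ p).direction = Submodule.span ℝ {z (thr p b) - z (thr p a)} := by
      symm
      apply Submodule.eq_of_le_of_finrank_eq
      · rw [Submodule.span_singleton_le_iff_mem]
        exact AffineSubspace.vsub_mem_direction hzb hza
      · rw [(hR.is_line p).2]
        exact finrank_span_singleton hne
    have hc : z (thr p c) - z (thr p a) ∈ (Λ p).direction :=
      AffineSubspace.vsub_mem_direction hzc hza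
    rw [hdir, Submodule.mem_span_singleton] at hc
    obtain ⟨s, hs⟩ := hc
    have h1 : z (thr p b) - z (thr p a) ∈ A0.direction :=
      AffineSubspace.vsub_mem_direction hb ha
    have h2 : z (thr p c) - z (thr p a) ∈ A0.direction := by
      rw [← hs]; exact Submodule.smul_mem _ _ h1
    have h3 := AffineSubspace.vadd_mem_of_mem_direction h2 ha
    simpa using h3
  have hgen : ∀ o, z (gen o) ∈ A0 := fun o => subset_affineSpan ℝ _ ⟨o, rfl⟩
  -- all points are infected
  have hall : ∀ k : ℕ, ∀ p : Pt n, (Finset.univ.filter (fun b => p b ≠ 0)).card = k →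
      ∀ c, z (thr p c) ∈ A0 := by
    intro k
    induction k using Nat.strong_induction_on with
    | _ k ih =>
      intro p hp
      have h0 : ∀ c, z (thr (fun _ => 0 : Pt n) c) ∈ A0 :=
        hinf _ 0 (Fin.last n) hlast (hgen none) (hgen (some none))
      rcases Nat.lt_or_ge 1 k with hk | hk
      · -- two directions in the support
        obtain ⟨a, ha, b, hb, hab⟩ := Finset.one_lt_card.1 (by rw [hp]; exact hk)
        have hstep : ∀ a, p a ≠ 0 → z (thr p a) ∈ A0 := by
          intro a ha
          have h1 : (Finset.univ.filter (fun b => (Function.update p a 0) b ≠ 0)).card < k := by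
            rw [← hp]
            apply Finset.card_lt_card
            rw [Finset.ssubset_iff_of_subset]
            · refine ⟨a, by simpa using ha, by simp⟩
            · intro b hb
              simp only [Finset.mem_filter, Finset.mem_univ, true_and] at hb ⊢
              by_cases hba : b = a
              · subst hba; exact ha
              · simpa [Function.update_of_ne hba] using hb
          have h2 := ih _ h1 (Function.update p a 0) rfl a
          rwa [thr_update] at h2
        exact hinf p a b hab (hstep a (by simpa using ha)) (hstep b (by simpa using hb))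
      · -- support of size at most one
        rcases Nat.eq_zero_or_pos k with rfl | hkpos
        · have : p = fun _ => 0 := by
            funext b
            by_contra hb
            have : b ∈ Finset.univ.filter (fun b => p b ≠ 0) := by simpa using hb
            rw [Finset.card_eq_zero.1 hp] at this
            simp at this
          rw [this]; exact h0
        · have hk1 : k = 1 := by omega
          subst hk1
          obtain ⟨a, ha⟩ := Finset.card_eq_one.1 hp
          have hpa : p a ≠ 0 := by
            have : a ∈ Finset.univ.filter (fun b => p b ≠ 0) := by rw [ha]; simp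
            simpa using this
          have hpo : ∀ b, b ≠ a → p b = 0 := by
            intro b hb
            by_contra hc
            have : b ∈ Finset.univ.filter (fun b => p b ≠ 0) := by simpa using hc
            rw [ha] at this
            exact hb (by simpa using this)
          obtain ⟨v, hv⟩ := Fin.exists_succ_eq.2 hpa
          have hpu : p = Function.update (fun _ => 0) a v.succ := by
            funext b
            by_cases hb : b = a
            · subst hb; simp [hv]
            · rw [Function.update_of_ne hb, hpo b hb]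
          have h1 : z (thr p a) ∈ A0 := by
            rw [hpu, thr_update]; exact h0 a
          have h2 := hgen (some (some (a, v)))
          simp only [gen] at h2
          rw [← hpu] at h2
          refine hinf p a _ ?_ h1 h2
          split_ifs with h
          · rw [h]; exact hlast
          · exact h
  have hsub : affineSpan ℝ (Set.range z) ≤ A0 := by
    rw [affineSpan_le]
    rintro _ ⟨l, rfl⟩
    have h1 : Inc n (l.1.insertNth 0 l.2 : Pt n) l := (inc_iff _ _).2 ⟨0, rfl⟩
    rw [inc_thr h1]
    exact hall _ _ rfl _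
  exact (Submodule.finrank_mono (AffineSubspace.direction_le hsub)).trans hfin

lemma arith (k : ℕ) (hk : 4 ≤ k) : k * (k - 1) + 1 < 2 ^ k - 1 := by
  obtain ⟨j, rfl⟩ := Nat.exists_eq_add_of_le hk
  have h : ∀ j : ℕ, (4 + j) * (3 + j) + 2 < 2 ^ (4 + j) := by
    intro j
    induction j with
    | zero => norm_num
    | succ j ih =>
      have h2 : 2 ^ (4 + (j + 1)) = 2 * 2 ^ (4 + j) := by ring
      rw [h2]
      nlinarith
  have := h j
  have h3 : 4 + j - 1 = 3 + j := by omega
  rw [h3]
  omega

theorem main (k : ℕ) (hk : 4 ≤ k) : ∃ (P L : Type) (I : P → L → Prop),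
    IsConfiguration I k k ∧ Nat.card P = Nat.card L ∧ HasRealization I ∧
      HasRealization (dual I) ∧ dim (dual I) ≤ k * (k - 1) + 1 ∧
      k * (k - 1) + 1 < 2 ^ k - 1 ∧ 2 ^ k - 1 ≤ dim I := by
  obtain ⟨n, rfl⟩ : ∃ n, k = n + 1 := ⟨k - 1, by omega⟩
  have hn : 1 ≤ n := by omega
  refine ⟨Pt n, Ln n, Inc n, isConfig n hn, ?_, ⟨_, _, _, real_C n hn⟩, ⟨_, _, _, real_dual n hn⟩,
    ?_, arith _ hk, le_dim n hn⟩
  · rw [Nat.card_eq_fintype_card, Nat.card_eq_fintype_card, card_Pt, card_Ln]
  · exact dual_dim_le n hn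

end Q150.BalDim
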