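import Mathlib

/-!
# Dimension of point-line configurations: definitions
-/

namespace Q150.BalDim

open Module

/-- `I` is the incidence relation of a combinatorial configuration with `q` lines through each
point and `k` points on each line. -/
structure IsConfiguration {P L : Type} (I : P → L → Prop) (q k : ℕ) : Prop where
  finite_points : Finite P
  finite_lines : Finite L
  two_le_q : 2 ≤ q
  two_le_k : 2 ≤ k
  lines_through : ∀ p, {l | I p l}.ncard = q
  points_on : ∀ l, {p | I p l}.ncard = k
  linear : ∀ p p' l l', p ≠ p' → I p l → I p' l → I p l' → I p' l' → l = l'

/-- The dual configuration: points and lines are interchanged. -/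
def dual {P L : Type} (I : P → L → Prop) : L → P → Prop := fun l p => I p l

/-- `f`, `g` is a geometric realization in `ℝ^m`: points go injectively to points, lines go
injectively to straight lines, and a point lies on a line iff they are incident. -/
structure IsRealization {P L : Type} (I : P → L → Prop) {m : ℕ} (f : P → (Fin m → ℝ))
    (g : L → AffineSubspace ℝ (Fin m → ℝ)) : Prop where
  points_injective : Function.Injective f
  lines_injective : Function.Injective g
  is_line : ∀ l, (g l : Set (Fin m → ℝ)).Nonempty ∧ finrank ℝ (g l).direction = 1
  incidence : ∀ p l, f p ∈ g l ↔ I p l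

/-- The configuration has a geometric realization. -/
def HasRealization {P L : Type} (I : P → L → Prop) : Prop :=
  ∃ (m : ℕ) (f : P → (Fin m → ℝ)) (g : L → AffineSubspace ℝ (Fin m → ℝ)), IsRealization I f g

/-- The dimension of a configuration: the largest dimension of the affine hull (of the points) of
a realization. -/
noncomputable def dim {P L : Type} (I : P → L → Prop) : ℕ :=
  sSup {d | ∃ (m : ℕ) (f : P → (Fin m → ℝ)) (g : L → AffineSubspace ℝ (Fin m → ℝ)),
    IsRealization I f g ∧ finrank ℝ (affineSpan ℝ (Set.range f)).direction = d}

end Q150.BalDim
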