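import Pool.Agent.Q150.BasicDefs

namespace Q150.Basic

open Finset

/-- rows of the redundancy part, as bit sets with bits `12, …, 20` -/
def rws (j : ℕ) : ℕ :=
  [2093056, 1511424, 1802240, 901120, 1499136, 749568, 372736, 184320, 1138688, 1617920,
    1855488, 925696].getD j 0

def A (j i : ℕ) : ℤ := if (rws j).testBit i then 1 else 0

lemma A_low (j i : ℕ) (hi : i < 12) : A j i = 0 := by
  have h : ∀ j < 12, ∀ i < 12, (rws j).testBit i = false := by decide
  rcases Nat.lt_or_ge j 12 with hj | hj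
  · simp [A, h j hj i hi]
  · have : rws j = 0 := by
      rw [rws, List.getD_eq_default]; simpa using hj
    simp [A, this]

lemma A_row (j i : ℕ) (hj : 12 ≤ j) : A j i = 0 := by
  have : rws j = 0 := by
    rw [rws, List.getD_eq_default]; simpa using hj
  simp [A, this]

lemma A_high (j i : ℕ) (hi : 21 ≤ i) : A j i = 0 := by
  have h : ∀ j < 12, rws j < 2 ^ 21 := by decide
  rcases Nat.lt_or_ge j 12 with hj | hj
  · have h1 : rws j < 2 ^ i := (h j hj).trans_le (Nat.pow_le_pow_right (by norm_num) hi)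
    simp [A, Nat.testBit_lt_two_pow h1]
  · exact A_row j i hj

def be (z : ℤ) : Bool := decide (z % 2 = 1)

lemma be_add (a b : ℤ) : be (a + b) = xor (be a) (be b) := by
  unfold be
  rcases Int.emod_two_eq_zero_or_one a with ha | ha <;>
  rcases Int.emod_two_eq_zero_or_one b with hb | hb <;>
  simp [ha, hb, Int.add_emod]

lemma be_two (a : ℤ) : be (2 * a) = false := by
  unfold be; simp

lemma be_sq (a : ℤ) : ((be a).toNat : ℤ) ≤ a ^ 2 := by
  unfold be
  by_cases h : a % 2 = 1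
  · have : a ≠ 0 := by rintro rfl; simp at h
    simp only [h, decide_true, Bool.toNat_true, Nat.cast_one]
    have : 0 < a ^ 2 := by positivity
    omega
  · simp [h]; positivity

/-- the minimum distance of the shortened-punctured Golay code -/
lemma code : ∀ b0 b1 b2 b3 b4 b5 b6 b7 b8 b9 b10 b11 : Bool,
    (b0 || b1 || b2 || b3 || b4 || b5 || b6 || b7 || b8 || b9 || b10 || b11) = true →
    5 ≤ b0.toNat + b1.toNat + b2.toNat + b3.toNat + b4.toNat + b5.toNat + b6.toNat + b7.toNat +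
      b8.toNat + b9.toNat + b10.toNat + b11.toNat +
      (xor b0 (xor b1 (xor b5 (xor b6 (xor b7 (xor b9 b10)))))).toNat +
      (xor b0 (xor b4 (xor b5 (xor b6 (xor b8 (xor b9 b11)))))).toNat +
      (xor b0 (xor b3 (xor b4 (xor b5 (xor b7 (xor b8 b10)))))).toNat +
      (xor b0 (xor b2 (xor b3 (xor b4 (xor b6 (xor b7 b9)))))).toNat +
      (xor b0 (xor b1 (xor b2 (xor b3 (xor b5 (xor b6 b8)))))).toNat +
      (xor b0 (xor b1 (xor b2 (xor b4 (xor b5 (xor b7 b11)))))).toNat +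
      (xor b0 (xor b1 (xor b3 (xor b4 (xor b6 (xor b10 b11)))))).toNat +
      (xor b0 (xor b2 (xor b3 (xor b5 (xor b9 (xor b10 b11)))))).toNat +
      (xor b0 (xor b1 (xor b2 (xor b4 (xor b8 (xor b9 b10)))))).toNat := by
  decide +kernel

/-- extension by zero -/
def Xn {g : ℕ} (x : Fin g → ℤ) (j : ℕ) : ℤ := if h : j < g then x ⟨j, h⟩ else 0

lemma Xn_val {g : ℕ} (x : Fin g → ℤ) (j : Fin g) : Xn x j.val = x j := by
  simp [Xn]

def yN {g : ℕ} (x : Fin g → ℤ) (n : ℕ) : ℤ :=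
  (if n < 12 then Xn x n else 2 * Xn x n) + ∑ j ∈ range 12, A j n * Xn x j

lemma yN_low {g : ℕ} (x : Fin g → ℤ) (n : ℕ) (hn : n < 12) : yN x n = Xn x n := by
  rw [yN, if_pos hn, Finset.sum_eq_zero, add_zero]
  intro j _
  rw [A_low j n hn, zero_mul]

lemma yN_high {g : ℕ} (x : Fin g → ℤ) (n : ℕ) (hn : 21 ≤ n) : yN x n = 2 * Xn x n := by
  rw [yN, if_neg (by omega), Finset.sum_eq_zero, add_zero]
  intro j _
  rw [A_high j n hn, zero_mul]

lemma five_le {g : ℕ} (x : Fin g → ℤ) (h : ∃ j < 12, Xn x j % 2 = 1) :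
    5 ≤ ∑ n ∈ range 21, (yN x n) ^ 2 := by
  have hb : (be (Xn x 0) || be (Xn x 1) || be (Xn x 2) || be (Xn x 3) || be (Xn x 4) ||
      be (Xn x 5) || be (Xn x 6) || be (Xn x 7) || be (Xn x 8) || be (Xn x 9) ||
      be (Xn x 10) || be (Xn x 11)) = true := by
    obtain ⟨j, hj, hodd⟩ := h
    have : be (Xn x j) = true := by simp [be, hodd]
    interval_cases j <;> simp [this]
  have hc := code _ _ _ _ _ _ _ _ _ _ _ _ hb
  have key : ∀ n, ((be (yN x n)).toNat : ℤ) ≤ (yN x n) ^ 2 := fun n => be_sq _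
  have hsum : ∑ n ∈ range 21, ((be (yN x n)).toNat : ℤ) ≤ ∑ n ∈ range 21, (yN x n) ^ 2 :=
    Finset.sum_le_sum (fun n _ => key n)
  refine le_trans ?_ hsum
  have e12 : be (yN x 12) = (xor (be (Xn x 0)) (xor (be (Xn x 1)) (xor (be (Xn x 5)) (xor (be (Xn x 6)) (xor (be (Xn x 7)) (xor (be (Xn x 9)) (be (Xn x 10)))))))) := by
    simp [yN, Finset.sum_range_succ, A, rws, Nat.testBit, Nat.shiftRight_eq_div_pow,
      be_add, be_two]
  have e13 : be (yN x 13) = (xor (be (Xn x 0)) (xor (be (Xn x 4)) (xor (be (Xn x 5)) (xor (be (Xn x 6)) (xor (be (Xn x 8)) (xor (be (Xn x 9)) (be (Xn x 11)))))))) := by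
    simp [yN, Finset.sum_range_succ, A, rws, Nat.testBit, Nat.shiftRight_eq_div_pow,
      be_add, be_two]
  have e14 : be (yN x 14) = (xor (be (Xn x 0)) (xor (be (Xn x 3)) (xor (be (Xn x 4)) (xor (be (Xn x 5)) (xor (be (Xn x 7)) (xor (be (Xn x 8)) (be (Xn x 10)))))))) := by
    simp [yN, Finset.sum_range_succ, A, rws, Nat.testBit, Nat.shiftRight_eq_div_pow,
      be_add, be_two]
  have e15 : be (yN x 15) = (xor (be (Xn x 0)) (xor (be (Xn x 2)) (xor (be (Xn x 3)) (xor (be (Xn x 4)) (xor (be (Xn x 6)) (xor (be (Xn x 7)) (be (Xn x 9)))))))) := by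
    simp [yN, Finset.sum_range_succ, A, rws, Nat.testBit, Nat.shiftRight_eq_div_pow,
      be_add, be_two]
  have e16 : be (yN x 16) = (xor (be (Xn x 0)) (xor (be (Xn x 1)) (xor (be (Xn x 2)) (xor (be (Xn x 3)) (xor (be (Xn x 5)) (xor (be (Xn x 6)) (be (Xn x 8)))))))) := by
    simp [yN, Finset.sum_range_succ, A, rws, Nat.testBit, Nat.shiftRight_eq_div_pow,
      be_add, be_two]
  have e17 : be (yN x 17) = (xor (be (Xn x 0)) (xor (be (Xn x 1)) (xor (be (Xn x 2)) (xor (be (Xn x 4)) (xor (be (Xn x 5)) (xor (be (Xn x 7)) (be (Xn x 11)))))))) := by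
    simp [yN, Finset.sum_range_succ, A, rws, Nat.testBit, Nat.shiftRight_eq_div_pow,
      be_add, be_two]
  have e18 : be (yN x 18) = (xor (be (Xn x 0)) (xor (be (Xn x 1)) (xor (be (Xn x 3)) (xor (be (Xn x 4)) (xor (be (Xn x 6)) (xor (be (Xn x 10)) (be (Xn x 11)))))))) := by
    simp [yN, Finset.sum_range_succ, A, rws, Nat.testBit, Nat.shiftRight_eq_div_pow,
      be_add, be_two]
  have e19 : be (yN x 19) = (xor (be (Xn x 0)) (xor (be (Xn x 2)) (xor (be (Xn x 3)) (xor (be (Xn x 5)) (xor (be (Xn x 9)) (xor (be (Xn x 10)) (be (Xn x 11)))))))) := by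
    simp [yN, Finset.sum_range_succ, A, rws, Nat.testBit, Nat.shiftRight_eq_div_pow,
      be_add, be_two]
  have e20 : be (yN x 20) = (xor (be (Xn x 0)) (xor (be (Xn x 1)) (xor (be (Xn x 2)) (xor (be (Xn x 4)) (xor (be (Xn x 8)) (xor (be (Xn x 9)) (be (Xn x 10)))))))) := by
    simp [yN, Finset.sum_range_succ, A, rws, Nat.testBit, Nat.shiftRight_eq_div_pow,
      be_add, be_two]
  have el : ∀ n < 12, be (yN x n) = be (Xn x n) := fun n hn => by rw [yN_low x n hn]
  simp only [Finset.sum_range_succ, Finset.sum_range_zero, zero_add]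
  rw [el 0 (by norm_num), el 1 (by norm_num), el 2 (by norm_num), el 3 (by norm_num),
    el 4 (by norm_num), el 5 (by norm_num), el 6 (by norm_num), el 7 (by norm_num),
    el 8 (by norm_num), el 9 (by norm_num), el 10 (by norm_num), el 11 (by norm_num),
    e12, e13, e14, e15, e16, e17, e18, e19, e20]
  exact_mod_cast hc

end Q150.Basic
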