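import Pool.Agent.Q150.BasicA

namespace Q150.Basic

open Finset

/-- the generator matrix of the lattice -/
def Bz (g : ℕ) : Matrix (Fin g) (Fin g) ℤ := fun i j =>
  (if i.val < 12 then (if i = j then 1 else 0) else (if i = j then 2 else 0)) + A j i

lemma Bz_mulVec {g : ℕ} (hg : 21 ≤ g) (x : Fin g → ℤ) (i : Fin g) :
    (Bz g).mulVec x i = yN x i := by
  have h1 : ∑ j : Fin g, A j i * x j = ∑ j ∈ range 12, A j i * Xn x j := by
    have h2 : ∑ j : Fin g, A j i * x j = ∑ j : Fin g, (fun n : ℕ => A n i * Xn x n) j := by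
      apply Finset.sum_congr rfl
      intro j _
      simp only [Xn_val]
    rw [h2, Fin.sum_univ_eq_sum_range (fun n : ℕ => A n i * Xn x n) g]
    symm
    apply Finset.sum_subset
    · intro j hj; rw [mem_range] at *; omega
    · intro j _ hj
      rw [mem_range, not_lt] at hj
      rw [A_row j i hj, zero_mul]
  rw [Matrix.mulVec, dotProduct, yN]
  simp only [Bz, add_mul, Finset.sum_add_distrib, h1]
  congr 1
  by_cases hi : i.val < 12
  · simp [hi, Xn_val]
  · simp [hi, Xn_val]

lemma sum_ge {g : ℕ} (hg : 21 ≤ g) (x : Fin g → ℤ) :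
    ∑ n ∈ range 21, (yN x n) ^ 2 ≤ ∑ i : Fin g, ((Bz g).mulVec x i) ^ 2 := by
  simp only [Bz_mulVec hg]
  rw [Fin.sum_univ_eq_sum_range (fun n : ℕ => (yN x n) ^ 2) g]
  apply Finset.sum_le_sum_of_subset_of_nonneg
  · intro j hj; rw [mem_range] at *; omega
  · intro j _ _; positivity

lemma Bz_det (g : ℕ) : (Bz g).det ≠ 0 := by
  rw [Matrix.det_of_isLowerTriangular]
  · apply Finset.prod_ne_zero_iff.2
    intro i _
    have hA : A i i = 0 := by
      rcases Nat.lt_or_ge i.val 12 with h | h
      · exact A_low _ _ h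
      · exact A_row _ _ h
    simp only [Bz, hA, add_zero, if_true]
    split_ifs <;> norm_num
  · intro i j hij
    have hij' : i < j := hij
    have hne : i ≠ j := hij'.ne
    have hA : A j i = 0 := by
      rcases Nat.lt_or_ge i.val 12 with h | h
      · exact A_low _ _ h
      · exact A_row _ _ (by have : i.val < j.val := hij'; omega)
    simp [Bz, hA, hne]

lemma Bz_inj {g : ℕ} {x y : Fin g → ℤ} (h : (Bz g).mulVec x = (Bz g).mulVec y) : x = y := by
  have h1 : (Bz g).mulVec (x - y) = 0 := by rw [Matrix.mulVec_sub, h, sub_self]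
  have h2 := Matrix.eq_zero_of_mulVec_eq_zero (Bz_det g) h1
  exact sub_eq_zero.1 h2

/-- the vectors -/
def vv (g : ℕ) (i a : Fin g) : ℤ :=
  if i.val < 12 then (if a = i then 2 else - A i a) else (if a = i then 1 else 0)

lemma Bz_vv {g : ℕ} (hg : 21 ≤ g) (i : Fin g) : (Bz g).mulVec (vv g i) = Pi.single i 2 := by
  funext a
  rw [Bz_mulVec hg, Pi.single_apply]
  rcases Nat.lt_or_ge a.val 12 with ha | ha
  · rw [yN_low _ _ ha, Xn_val, vv, A_low _ _ ha]
    by_cases hi : i.val < 12
    · simp [hi]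
    · have : a ≠ i := by rintro rfl; exact hi ha
      simp [hi, this]
  · rw [yN, if_neg (by omega), Xn_val]
    have hX : ∀ j ∈ range 12, A j a * Xn (vv g i) j = if j = i.val then A j a * 2 else 0 := by
      intro j hj
      rw [mem_range] at hj
      have hjg : j < g := by omega
      have : Xn (vv g i) j = if j = i.val then 2 else 0 := by
        rw [Xn, dif_pos hjg, vv]
        by_cases hi : i.val < 12
        · rw [if_pos hi]
          by_cases h : j = i.val
          · rw [if_pos (Fin.ext h), if_pos h]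
          · rw [if_neg (fun h' => h (congrArg Fin.val h')), if_neg h, A_low _ _ hj, neg_zero]
        · rw [if_neg hi, if_neg (fun h' => hi (by rw [← h']; exact hj)), if_neg (by omega)]
      rw [this]
      split_ifs <;> simp
    rw [Finset.sum_congr rfl hX, Finset.sum_ite_eq']
    simp only [mem_range, vv]
    by_cases hi : i.val < 12
    · have : a ≠ i := by rintro rfl; omega
      simp [hi, this]
      ring
    · simp [hi]

/-- even vectors -/
lemma even_case {g : ℕ} (hg : 21 ≤ g) (x : Fin g → ℤ) (h : ∀ j < 12, Xn x j % 2 = 0) :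
    ∃ z : Fin g → ℤ, (Bz g).mulVec x = 2 • z := by
  have h1 : ∀ i : Fin g, ∃ z : ℤ, (Bz g).mulVec x i = 2 * z := by
    intro i
    rw [Bz_mulVec hg]
    have h2 : (2 : ℤ) ∣ ∑ j ∈ range 12, A j i * Xn x j := by
      apply Finset.dvd_sum
      intro j hj
      exact Dvd.dvd.mul_left (Int.dvd_of_emod_eq_zero (h j (mem_range.1 hj))) _
    have h3 : (2 : ℤ) ∣ yN x i := by
      rw [yN]
      apply dvd_add _ h2
      split_ifs with hi
      · exact Int.dvd_of_emod_eq_zero (h _ hi)
      · exact dvd_mul_right _ _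
    exact h3
  choose z hz using h1
  refine ⟨z, ?_⟩
  funext i
  rw [hz]
  simp

/-- the norm -/
def nrm {g : ℕ} (x : Fin g → ℤ) : ℤ := ∑ i : Fin g, ((Bz g).mulVec x i) ^ 2

lemma nrm_vv {g : ℕ} (hg : 21 ≤ g) (i : Fin g) : nrm (vv g i) = 4 := by
  rw [nrm, Bz_vv hg]
  simp [Pi.single_apply]

lemma nrm_neg {g : ℕ} (x : Fin g → ℤ) : nrm (-x) = nrm x := by
  simp [nrm, Matrix.mulVec_neg]

lemma nrm_ge {g : ℕ} (hg : 21 ≤ g) (x : Fin g → ℤ) (hx : x ≠ 0) : 4 ≤ nrm x := by
  by_cases h : ∃ j < 12, Xn x j % 2 = 1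
  · have := five_le x h
    have := sum_ge hg x
    rw [nrm]
    omega
  · push Not at h
    obtain ⟨z, hz⟩ := even_case hg x (fun j hj => by
      have := h j hj
      have := Int.emod_two_eq_zero_or_one (Xn x j)
      tauto)
    have hz0 : z ≠ 0 := by
      rintro rfl
      apply hx
      apply Bz_inj
      rw [hz, Matrix.mulVec_zero, smul_zero]
    obtain ⟨i, hi⟩ := Function.ne_iff.1 hz0
    have h1 : (z i) ^ 2 ≤ ∑ j, (z j) ^ 2 :=
      Finset.single_le_sum (f := fun j => (z j) ^ 2) (fun j _ => sq_nonneg _) (mem_univ i)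
    have h2 : 0 < (z i) ^ 2 := by
      have : z i ≠ 0 := hi
      positivity
    have h3 : nrm x = 4 * ∑ j, (z j) ^ 2 := by
      rw [nrm, hz, Finset.mul_sum]
      apply Finset.sum_congr rfl
      intro j _
      simp only [Pi.smul_apply, smul_eq_mul]
      ring
    omega

lemma eq_single_of_sum_sq {g : ℕ} (z : Fin g → ℤ) (h : ∑ j, (z j) ^ 2 = 1) :
    ∃ i, z = Pi.single i 1 ∨ z = Pi.single i (-1) := by
  have hz0 : z ≠ 0 := by rintro rfl; simp at h
  obtain ⟨i, hi⟩ := Function.ne_iff.1 hz0
  have hi' : z i ≠ 0 := hi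
  have h2 : 0 < (z i) ^ 2 := by positivity
  have h3 : (z i) ^ 2 + ∑ j ∈ univ.erase i, (z j) ^ 2 = 1 := by
    rw [Finset.add_sum_erase univ (fun j => (z j) ^ 2) (mem_univ i), h]
  have h4 : 0 ≤ ∑ j ∈ univ.erase i, (z j) ^ 2 := Finset.sum_nonneg (fun j _ => sq_nonneg _)
  have h5 : (z i) ^ 2 = 1 := by omega
  have h6 : ∑ j ∈ univ.erase i, (z j) ^ 2 = 0 := by omega
  rw [Finset.sum_eq_zero_iff_of_nonneg (fun j _ => sq_nonneg _)] at h6
  have h7 : ∀ j, j ≠ i → z j = 0 := fun j hj => by
    have := h6 j (Finset.mem_erase.2 ⟨hj, mem_univ j⟩)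
    exact pow_eq_zero_iff (two_ne_zero) |>.1 this
  refine ⟨i, ?_⟩
  rcases sq_eq_one_iff.1 h5 with h8 | h8
  · left
    funext j
    by_cases hj : j = i
    · subst hj; simp [h8]
    · simp [hj, h7 j hj]
  · right
    funext j
    by_cases hj : j = i
    · subst hj; simp [h8]
    · simp [hj, h7 j hj]

lemma nrm_eq {g : ℕ} (hg : 21 ≤ g) (x : Fin g → ℤ) (hx : nrm x = 4) :
    ∃ i, x = vv g i ∨ x = - vv g i := by
  by_cases h : ∃ j < 12, Xn x j % 2 = 1
  · have := five_le x h
    have := sum_ge hg x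
    rw [nrm] at hx
    omega
  · push Not at h
    obtain ⟨z, hz⟩ := even_case hg x (fun j hj => by
      have := h j hj
      have := Int.emod_two_eq_zero_or_one (Xn x j)
      tauto)
    have h3 : nrm x = 4 * ∑ j, (z j) ^ 2 := by
      rw [nrm, hz, Finset.mul_sum]
      apply Finset.sum_congr rfl
      intro j _
      simp only [Pi.smul_apply]
      ring
    have h4 : ∑ j, (z j) ^ 2 = 1 := by omega
    obtain ⟨i, hi | hi⟩ := eq_single_of_sum_sq z h4
    · refine ⟨i, Or.inl ?_⟩
      apply Bz_inj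
      rw [hz, Bz_vv hg, hi]
      funext j
      by_cases hj : j = i
      · subst hj; simp
      · simp [hj]
    · refine ⟨i, Or.inr ?_⟩
      apply Bz_inj
      rw [hz, Matrix.mulVec_neg, Bz_vv hg, hi]
      funext j
      by_cases hj : j = i
      · subst hj; simp
      · simp [hj]

/-- real form -/
noncomputable def Br (g : ℕ) : Matrix (Fin g) (Fin g) ℝ := (Bz g).map (Int.cast : ℤ → ℝ)

noncomputable def Qr (g : ℕ) : Matrix (Fin g) (Fin g) ℝ := (Br g).conjTranspose * Br g

lemma Br_det (g : ℕ) : (Br g).det ≠ 0 := by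
  have h : (Br g).det = ((Bz g).det : ℝ) := by
    have := (Int.castRingHom ℝ).map_det (Bz g)
    simpa [Br] using this.symm
  rw [h]
  exact_mod_cast Bz_det g

lemma Qr_pos (g : ℕ) : (Qr g).PosDef := by
  apply Matrix.PosDef.conjTranspose_mul_self
  intro x y h
  have h1 : (Br g).mulVec (x - y) = 0 := by rw [Matrix.mulVec_sub]; exact sub_eq_zero.2 h
  exact sub_eq_zero.1 (Matrix.eq_zero_of_mulVec_eq_zero (Br_det g) h1)

lemma formVal_Qr {g : ℕ} (x : Fin g → ℤ) : formVal (Qr g) x = (nrm x : ℝ) := by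
  have h1 : (Br g).mulVec (fun i => (x i : ℝ)) = fun i => (((Bz g).mulVec x i : ℤ) : ℝ) := by
    funext i
    simp [Br, Matrix.mulVec, dotProduct]
  rw [formVal, Qr, ← Matrix.mulVec_mulVec, Matrix.dotProduct_mulVec, Matrix.vecMul_conjTranspose]
  simp only [star_trivial, h1]
  rw [nrm, dotProduct]
  push_cast
  apply Finset.sum_congr rfl
  intro i _
  ring

lemma generates {g : ℕ} (hg : 21 ≤ g) : GeneratesPerfectCone (vv g) := by
  refine ⟨Qr g, Qr_pos g, ?_⟩
  have hne : ∀ i, vv g i ≠ 0 := by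
    intro i h
    have := nrm_vv hg i
    rw [h] at this
    simp [nrm, Matrix.mulVec_zero] at this
  ext w
  constructor
  · rintro ⟨hw0, hw⟩
    have h1 := hw (vv g ⟨0, by omega⟩) (hne _)
    rw [formVal_Qr, formVal_Qr, nrm_vv hg] at h1
    have h2 : nrm w ≤ 4 := by exact_mod_cast h1
    exact nrm_eq hg w (le_antisymm h2 (nrm_ge hg w hw0))
  · rintro ⟨i, rfl | rfl⟩
    · refine ⟨hne i, fun w hw => ?_⟩
      rw [formVal_Qr, formVal_Qr, nrm_vv hg]
      exact_mod_cast nrm_ge hg w hw
    · refine ⟨neg_ne_zero.2 (hne i), fun w hw => ?_⟩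
      rw [formVal_Qr, formVal_Qr, nrm_neg, nrm_vv hg]
      exact_mod_cast nrm_ge hg w hw

lemma linInd {g : ℕ} (hg : 21 ≤ g) : LinearIndependent ℤ (vv g) := by
  rw [Fintype.linearIndependent_iff]
  intro c hc i
  have h1 : (Bz g).mulVec (∑ i, c i • vv g i) = 0 := by rw [hc, Matrix.mulVec_zero]
  rw [Matrix.mulVec_sum] at h1
  have h2 : ∀ i, (Bz g).mulVec (c i • vv g i) = c i • Pi.single i 2 := by
    intro i
    rw [Matrix.mulVec_smul, Bz_vv hg]
  rw [Finset.sum_congr rfl (fun i _ => h2 i)] at h1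
  have h3 := congrFun h1 i
  rw [Finset.sum_apply, Finset.sum_eq_single i] at h3
  · simpa using h3
  · intro j _ hj
    simp [Ne.symm hj]
  · simp

/-- columns of the redundancy part are orthonormal modulo two -/
lemma orth : ∀ a < 21, ∀ b < 21, 12 ≤ a → 12 ≤ b →
    ((∑ j ∈ range 12, A j a * A j b) + (if a = b then 1 else 0)) % 2 = 0 := by
  decide +kernel

lemma orth2 : ∀ a < 21, ∀ b < 21, 12 ≤ a → 12 ≤ b →
    (∑ n ∈ range 9, (if a = 12 + n then (1 : ℤ) else 0) * (if b = 12 + n then 1 else 0)) =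
      if a = b then 1 else 0 := by
  decide +kernel

/-- the vectors, indexed by naturals -/
def vN (n a : ℕ) : ℤ :=
  if n < 12 then (if a = n then 2 else - A n a) else (if a = n then 1 else 0)

lemma vv_eq {g : ℕ} (i a : Fin g) : vv g i a = vN i a := by
  unfold vv vN
  simp only [Fin.ext_iff]

lemma sum_even_nat (a b : ℕ) : (2 : ℤ) ∣ ∑ n ∈ range 21, vN n a * vN n b := by
  have hsplit : ∑ n ∈ range 21, vN n a * vN n b =
      ∑ n ∈ range 12, vN n a * vN n b + ∑ n ∈ range 9, vN (12 + n) a * vN (12 + n) b :=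
    Finset.sum_range_add (fun n => vN n a * vN n b) 12 9
  have h1 : (2 : ℤ) ∣ ∑ n ∈ range 12, vN n a * vN n b - ∑ n ∈ range 12, A n a * A n b := by
    rw [← Finset.sum_sub_distrib]
    apply Finset.dvd_sum
    intro n hn
    rw [mem_range] at hn
    simp only [vN, if_pos hn]
    by_cases ha : a = n
    · rw [if_pos ha]
      have : A n a = 0 := A_low _ _ (by omega)
      rw [this, zero_mul, sub_zero]
      exact dvd_mul_right _ _
    · by_cases hb : b = n
      · rw [if_pos hb]
        have : A n b = 0 := A_low _ _ (by omega)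
        rw [this, mul_zero, sub_zero]
        exact dvd_mul_left _ _
      · rw [if_neg ha, if_neg hb]
        simp
  have h2 : ∑ n ∈ range 9, vN (12 + n) a * vN (12 + n) b =
      ∑ n ∈ range 9, (if a = 12 + n then (1 : ℤ) else 0) * (if b = 12 + n then 1 else 0) := by
    apply Finset.sum_congr rfl
    intro n _
    have : ¬ (12 + n < 12) := by omega
    simp only [vN, if_neg this]
  have h3 : (2 : ℤ) ∣ ∑ n ∈ range 12, A n a * A n b +
      ∑ n ∈ range 9, (if a = 12 + n then (1 : ℤ) else 0) * (if b = 12 + n then 1 else 0) := by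
    by_cases ha : 12 ≤ a ∧ a < 21
    · by_cases hb : 12 ≤ b ∧ b < 21
      · rw [orth2 a ha.2 b hb.2 ha.1 hb.1]
        exact Int.dvd_of_emod_eq_zero (orth a ha.2 b hb.2 ha.1 hb.1)
      · have hA : ∀ n, A n b = 0 := by
          intro n
          rcases Nat.lt_or_ge b 12 with h | h
          · exact A_low _ _ h
          · exact A_high _ _ (by omega)
        rw [Finset.sum_eq_zero (fun n _ => by rw [hA, mul_zero]), zero_add,
          Finset.sum_eq_zero]
        · exact dvd_zero _
        · intro n hn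
          rw [mem_range] at hn
          rw [if_neg (by omega : ¬ b = 12 + n), mul_zero]
    · have hA : ∀ n, A n a = 0 := by
        intro n
        rcases Nat.lt_or_ge a 12 with h | h
        · exact A_low _ _ h
        · exact A_high _ _ (by omega)
      rw [Finset.sum_eq_zero (fun n _ => by rw [hA, zero_mul]), zero_add,
        Finset.sum_eq_zero]
      · exact dvd_zero _
      · intro n hn
        rw [mem_range] at hn
        rw [if_neg (by omega : ¬ a = 12 + n), zero_mul]
  rw [hsplit, h2]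
  have := dvd_add h1 h3
  have e : (∑ n ∈ range 12, vN n a * vN n b - ∑ n ∈ range 12, A n a * A n b) +
      (∑ n ∈ range 12, A n a * A n b +
        ∑ n ∈ range 9, (if a = 12 + n then (1 : ℤ) else 0) * (if b = 12 + n then 1 else 0)) =
      ∑ n ∈ range 12, vN n a * vN n b +
        ∑ n ∈ range 9, (if a = 12 + n then (1 : ℤ) else 0) * (if b = 12 + n then 1 else 0) := by
    ring
  rwa [e] at this

lemma sum_even {g : ℕ} (hg : 21 ≤ g) (a b : Fin g) :
    (2 : ℤ) ∣ ∑ i : Fin g, if i.val < 21 then vv g i a * vv g i b else 0 := by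
  simp only [vv_eq]
  rw [Fin.sum_univ_eq_sum_range (fun n : ℕ => if n < 21 then vN n a * vN n b else 0) g]
  have h : ∑ n ∈ range 21, (if n < 21 then vN n a * vN n b else 0) =
      ∑ n ∈ range g, (if n < 21 then vN n a * vN n b else 0) := by
    apply Finset.sum_subset
    · intro j hj; rw [mem_range] at *; omega
    · intro j _ hj
      rw [mem_range] at hj
      rw [if_neg hj]
  rw [← h, Finset.sum_congr rfl (fun n hn => if_pos (mem_range.1 hn))]
  exact sum_even_nat a b

lemma not_extends {g : ℕ} (hg : 21 ≤ g) : ¬ ExtendsToBasis (vv g) := by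
  classical
  rintro ⟨ι, b, hb⟩
  choose f hf using hb
  have hdiv := fun a c => sum_even hg a c
  choose N hN using hdiv
  have hsym : (Matrix.of N).IsSymm := by
    ext a c
    have h1 := hN a c
    have h2 := hN c a
    have h3 : ∑ i : Fin g, (if i.val < 21 then vv g i a * vv g i c else 0) =
        ∑ i : Fin g, (if i.val < 21 then vv g i c * vv g i a else 0) := by
      apply Finset.sum_congr rfl
      intro i _
      rw [mul_comm]
    show N c a = N a c
    linarith
  let NN : symLattice g := ⟨Matrix.of N, hsym⟩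
  have h0 : (∑ i : Fin g, if i.val < 21 then b (f i) else 0) = (2 : ℤ) • NN := by
    apply Subtype.ext
    rw [AddSubmonoidClass.coe_finsetSum]
    ext a c
    rw [Matrix.sum_apply]
    have h1 : ∀ i : Fin g, ((if i.val < 21 then b (f i) else 0 : symLattice g) :
        Matrix (Fin g) (Fin g) ℤ) a c = if i.val < 21 then vv g i a * vv g i c else 0 := by
      intro i
      split_ifs with h
      · rw [hf i]; rfl
      · rfl
    rw [Finset.sum_congr rfl (fun i _ => h1 i), hN a c]
    rfl
  have hinj : ∀ i, f i = f ⟨0, by omega⟩ → i = ⟨0, by omega⟩ := by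
    intro i hi
    by_contra hne
    have h1 := hf i
    rw [hi, hf] at h1
    have h2 := congrFun (congrFun h1 ⟨0, by omega⟩) ⟨0, by omega⟩
    simp only [pmat, Matrix.vecMulVec_apply] at h2
    have h3 : vv g i ⟨0, by omega⟩ = 0 := by
      unfold vv
      have hA : A i 0 = 0 := A_low _ _ (by norm_num)
      split_ifs with h4 h5 h5
      · exact absurd h5.symm hne
      · simp [hA]
      · exact absurd h5.symm hne
      · rfl
    rw [h3] at h2
    simp [vv] at h2
  have h1 := congrArg (fun m => b.coord (f ⟨0, by omega⟩) m) h0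
  simp only [map_sum, map_smul, smul_eq_mul] at h1
  rw [Finset.sum_eq_single (⟨0, by omega⟩ : Fin g)] at h1
  · simp at h1
    omega
  · intro i _ hi
    split_ifs with h
    · rw [Module.Basis.coord_apply, Module.Basis.repr_self, Finsupp.single_apply, if_neg]
      exact fun h' => hi (hinj i h')
    · exact map_zero _
  · simp

theorem main : ∀ g : ℕ, 21 ≤ g → ∃ v : Fin g → Fin g → ℤ,
    LinearIndependent ℤ v ∧ GeneratesPerfectCone v ∧ ¬ ExtendsToBasis v :=
  fun g hg => ⟨vv g, linInd hg, generates hg, not_extends hg⟩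

end Q150.Basic
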