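import Mathlib

/-!
# Perfect cones and their basicness: definitions
-/

namespace Q150.Basic

/-- The rank-one matrix `p(v) = v vᵀ`. -/
def pmat {g : ℕ} (v : Fin g → ℤ) : Matrix (Fin g) (Fin g) ℤ := Matrix.vecMulVec v v

/-- `Sym²(ℤ^g)`: the lattice of integral symmetric `g × g` matrices. -/
def symLattice (g : ℕ) : Submodule ℤ (Matrix (Fin g) (Fin g) ℤ) where
  carrier := {M | M.IsSymm}
  add_mem' := fun ha hb => ha.add hb
  zero_mem' := Matrix.isSymm_zero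
  smul_mem' := fun c _ ha => ha.smul c

/-- The value `vᵀ Q v` at an integer vector `v`. -/
def formVal {g : ℕ} (Q : Matrix (Fin g) (Fin g) ℝ) (v : Fin g → ℤ) : ℝ :=
  (fun i => (v i : ℝ)) ⬝ᵥ (Q.mulVec (fun i => (v i : ℝ)))

/-- `Min(Q)`: the nonzero integer vectors at which the form attains its minimum over
`ℤ^g \ {0}`. -/
def minVectors {g : ℕ} (Q : Matrix (Fin g) (Fin g) ℝ) : Set (Fin g → ℤ) :=
  {v | v ≠ 0 ∧ ∀ w : Fin g → ℤ, w ≠ 0 → formVal Q v ≤ formVal Q w}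

/-- `{p(v_1), …, p(v_k)}` generates a perfect cone: `Min(Q) = {±v_1, …, ±v_k}` for some positive
definite form `Q`. -/
def GeneratesPerfectCone {g k : ℕ} (v : Fin k → Fin g → ℤ) : Prop :=
  ∃ Q : Matrix (Fin g) (Fin g) ℝ, Q.PosDef ∧ minVectors Q = {w | ∃ i, w = v i ∨ w = -v i}

/-- `p(v_1), …, p(v_k)` can be extended to a `ℤ`-basis of `Sym²(ℤ^g)`: some `ℤ`-basis of
`Sym²(ℤ^g)` contains all of them. -/
def ExtendsToBasis {g k : ℕ} (v : Fin k → Fin g → ℤ) : Prop :=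
  ∃ (ι : Type) (b : Module.Basis ι ℤ (symLattice g)),
    ∀ i, ∃ j, ((b j : symLattice g) : Matrix (Fin g) (Fin g) ℤ) = pmat (v i)

end Q150.Basic
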