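import Pool.Agent.Q150.CGroupDefs

namespace Q150.CGroup

variable {G : Type*} [Group G] {r : ℕ} {ρ : Fin r → G}

lemma Elt.ext' {x y : Elt ρ} (h1 : x.typ = y.typ) (h2 : x.coset = y.coset) : x = y := by
  cases x; cases y
  simp only at h1 h2
  subst h1; subst h2
  rfl

lemma mem_rcoset_self (H : Subgroup G) (g : G) : g ∈ rcoset H g := ⟨1, H.one_mem, by simp⟩

lemma rcoset_eq {H : Subgroup G} {g a : G} (h : a ∈ rcoset H g) : rcoset H g = rcoset H a := by
  obtain ⟨k, hk, rfl⟩ := h
  ext b
  constructor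
  · rintro ⟨l, hl, rfl⟩
    exact ⟨l * k⁻¹, H.mul_mem hl (H.inv_mem hk), by group⟩
  · rintro ⟨l, hl, rfl⟩
    exact ⟨l * k, H.mul_mem hl hk, by group⟩

lemma coset_eq {x : Elt ρ} {g : G} (h : g ∈ x.coset) : x.coset = rcoset (maxPar ρ x.typ) g := by
  obtain ⟨a, ha⟩ := x.isCoset
  rw [ha] at h ⊢
  exact rcoset_eq h

lemma inc_same {x y : Elt ρ} (h : Incident x y) (ht : x.typ = y.typ) : x = y := by
  obtain ⟨g, hx, hy⟩ := h
  apply Elt.ext' ht
  rw [coset_eq hx, coset_eq hy, ht]

lemma inc_refl (x : Elt ρ) : Incident x x := by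
  obtain ⟨a, ha⟩ := x.isCoset
  refine ⟨a, ?_, ?_⟩ <;> rw [ha] <;> exact mem_rcoset_self _ _

lemma inc_symm {x y : Elt ρ} (h : Incident x y) : Incident y x := by
  unfold Incident at *; rwa [Set.inter_comm]

/-- the element of type `i` through `g` -/
def elt (ρ : Fin r → G) (i : Fin r) (g : G) : Elt ρ := ⟨i, rcoset (maxPar ρ i) g, g, rfl⟩

/-- the chamber through `g` -/
def cham (ρ : Fin r → G) (g : G) : Set (Elt ρ) := {x | g ∈ x.coset}

lemma elt_mem (i : Fin r) (g : G) : elt ρ i g ∈ cham ρ g := mem_rcoset_self _ _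

lemma cham_isChamber (g : G) : IsChamber (cham ρ g) :=
  ⟨fun _ hx _ hy => ⟨g, hx, hy⟩, fun i => ⟨elt ρ i g, elt_mem i g, rfl⟩⟩

lemma IsFlag.injOn {F : Set (Elt ρ)} (hF : IsFlag F) : Set.InjOn Elt.typ F :=
  fun x hx y hy h => inc_same (hF x hx y hy) h

lemma IsFlag.subset {F F' : Set (Elt ρ)} (hF : IsFlag F) (h : F' ⊆ F) : IsFlag F' :=
  fun x hx y hy => hF x (h hx) y (h hy)

lemma IsFlag.encard_image {F : Set (Elt ρ)} (hF : IsFlag F) :
    (Elt.typ '' F).encard = F.encard := hF.injOn.encard_image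

lemma encard_univ_fin : (Set.univ : Set (Fin r)).encard = r := by
  rw [Set.encard_univ]; simp

lemma IsFlag.encard_le {F : Set (Elt ρ)} (hF : IsFlag F) : F.encard ≤ r := by
  rw [← hF.encard_image, ← encard_univ_fin (r := r)]
  exact Set.encard_le_encard (Set.subset_univ _)

lemma IsFlag.finite {F : Set (Elt ρ)} (hF : IsFlag F) : F.Finite :=
  Set.finite_of_encard_le_coe hF.encard_le

lemma IsChamber.encard {C : Set (Elt ρ)} (hC : IsChamber C) : C.encard = r := by
  rw [← hC.1.encard_image, ← encard_univ_fin (r := r)]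
  congr 1
  ext i
  simp only [Set.mem_image, Set.mem_univ, iff_true]
  exact hC.2 i

lemma IsFlag.isChamber {F : Set (Elt ρ)} (hF : IsFlag F) (h : F.encard = r) : IsChamber F := by
  refine ⟨hF, fun i => ?_⟩
  rw [← hF.encard_image] at h
  have h1 : Elt.typ '' F = Set.univ := by
    apply Set.Finite.eq_of_subset_of_encard_le (Set.toFinite _) (Set.subset_univ _)
    rw [h, encard_univ_fin]
  have h2 : i ∈ Elt.typ '' F := by rw [h1]; trivial
  exact h2

lemma IsFlag.exists_missing {F : Set (Elt ρ)} (hF : IsFlag F) (h : F.encard < r) :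
    ∃ i, ∀ x ∈ F, x.typ ≠ i := by
  by_contra hc
  push Not at hc
  have : IsChamber F := ⟨hF, hc⟩
  rw [this.encard] at h
  exact lt_irrefl _ h

lemma isFlag_insert {F : Set (Elt ρ)} (hF : IsFlag F) {x : Elt ρ} (hx : x ∈ residue F) :
    IsFlag (insert x F) := by
  rintro a (rfl | ha) b (rfl | hb)
  · exact inc_refl _
  · exact (hx b hb).2
  · exact inc_symm (hx a ha).2
  · exact hF a ha b hb

lemma not_mem_of_residue {F : Set (Elt ρ)} {x : Elt ρ} (hx : x ∈ residue F) : x ∉ F :=
  fun h => (hx x h).1 rfl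

lemma mem_residue_of_flag {F M : Set (Elt ρ)} (hM : IsFlag M) (hFM : F ⊆ M) {x : Elt ρ}
    (hx : x ∈ M) (hxF : x ∉ F) : x ∈ residue F := by
  intro y hy
  refine ⟨fun h => hxF ?_, hM x hx y (hFM hy)⟩
  have := hM.injOn hx (hFM hy) h
  rwa [this]

lemma extend (hR : IsResiduallyConnected ρ) {F : Set (Elt ρ)} (hF : IsFlag F) :
    ∃ C, IsChamber C ∧ F ⊆ C := by
  obtain ⟨M, hFM, hMflag, hMmax⟩ := zorn_subset_nonempty {F : Set (Elt ρ) | IsFlag F} (by
    intro c hc hchain hne
    refine ⟨⋃₀ c, ?_, fun s hs => Set.subset_sUnion_of_mem hs⟩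
    rintro x ⟨s, hs, hxs⟩ y ⟨t, ht, hyt⟩
    rcases hchain.total hs ht with h | h
    · exact hc ht x (h hxs) y hyt
    · exact hc hs x hxs y (h hyt)) F hF
  have hMflag' : IsFlag M := hMflag
  have hres : residue M = ∅ := by
    rw [Set.eq_empty_iff_forall_notMem]
    intro x hx
    have h1 : insert x M ⊆ M := hMmax (isFlag_insert hMflag' hx) (Set.subset_insert _ _)
    exact not_mem_of_residue hx (h1 (Set.mem_insert _ _))
  refine ⟨M, ?_, hFM⟩
  have hle := hMflag'.encard_le
  obtain ⟨k, hk⟩ : ∃ k : ℕ, M.encard = k := by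
    refine ⟨M.ncard, ?_⟩
    rw [hMflag'.finite.cast_ncard_eq]
  rw [hk] at hle
  have hkr : k ≤ r := by exact_mod_cast hle
  rcases Nat.lt_or_ge k r with hlt | hge
  swap
  · apply hMflag'.isChamber
    rw [hk]; congr 1; omega
  rcases Nat.lt_or_ge (k + 1) r with hlt2 | hge2
  swap
  · exfalso
    have h1 : M.encard + 1 = r := by
      rw [hk]; exact_mod_cast (by omega : k + 1 = r)
    have := (hR M hMflag').2 h1
    rw [hres] at this
    exact Set.not_nonempty_empty this
  -- corank at least two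
  have key : ∀ n : ℕ, ∀ A ⊆ M, A.encard = n → residue (M \ A) = A := by
    intro n
    induction n with
    | zero =>
      intro A _ hA
      have : A = ∅ := Set.encard_eq_zero.1 (by exact_mod_cast hA)
      rw [this, Set.sdiff_empty, hres]
    | succ n ih =>
      intro A hAM hA
      have hB : IsFlag (M \ A) := hMflag'.subset Set.sdiff_subset
      have hBr : (M \ A).encard + 2 ≤ r := by
        have h1 : (M \ A).encard ≤ k := by
          rw [← hk]; exact Set.encard_le_encard Set.sdiff_subset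
        calc (M \ A).encard + 2 ≤ (k : ℕ∞) + 2 := by gcongr
          _ ≤ r := by exact_mod_cast (by omega : k + 2 ≤ r)
      have hpre := (hR _ hB).1 hBr
      have hAres : A ⊆ residue (M \ A) := fun a ha =>
        mem_residue_of_flag hMflag' Set.sdiff_subset (hAM ha) (fun h => h.2 ha)
      apply Set.Subset.antisymm _ hAres
      have hne : A.Nonempty := by
        rw [← Set.encard_ne_zero, hA]
        simp
      obtain ⟨a, ha⟩ := hne
      have hstep : ∀ y z : residue (M \ A),
          ((incidenceGraph ρ).induce (residue (M \ A))).Adj y z → (y : Elt ρ) ∈ A →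
          (z : Elt ρ) ∈ A := by
        intro y z hyz hy
        have hadj : (y : Elt ρ) ≠ z ∧ Incident (y : Elt ρ) z := hyz
        have h1 : M \ (A \ {(y : Elt ρ)}) = insert (y : Elt ρ) (M \ A) := by
          ext w
          simp only [Set.mem_sdiff, Set.mem_singleton_iff, Set.mem_insert_iff, not_and, not_not]
          constructor
          · rintro ⟨hw, h⟩
            by_cases hwA : w ∈ A
            · exact Or.inl (h hwA)
            · exact Or.inr ⟨hw, hwA⟩
          · rintro (rfl | ⟨hw, h⟩)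
            · exact ⟨hAM hy, fun _ => rfl⟩
            · exact ⟨hw, fun h' => absurd h' h⟩
        have h2 : (A \ {(y : Elt ρ)}).encard = n := by
          have := Set.encard_sdiff_singleton_add_one hy
          rw [hA] at this
          have h3 : (A \ {(y : Elt ρ)}).encard + 1 = (n : ℕ∞) + 1 := by
            rw [this]; push_cast; rfl
          exact WithTop.add_right_cancel (ENat.natCast_ne_top 1) h3
        have h4 := ih (A \ {(y : Elt ρ)}) (Set.sdiff_subset.trans hAM) h2
        have h5 : (z : Elt ρ) ∈ residue (M \ (A \ {(y : Elt ρ)})) := by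
          rw [h1]
          rintro w (rfl | hw)
          · refine ⟨fun h => hadj.1 ?_, inc_symm hadj.2⟩
            exact inc_same hadj.2 h.symm
          · exact z.2 w hw
        rw [h4] at h5
        exact h5.1
      intro z hz
      obtain ⟨p⟩ := hpre ⟨a, hAres ha⟩ ⟨z, hz⟩
      have hwalk : ∀ (u v : residue (M \ A))
          (p : ((incidenceGraph ρ).induce (residue (M \ A))).Walk u v),
          (u : Elt ρ) ∈ A → (v : Elt ρ) ∈ A := by
        intro u v p
        induction p with
        | nil => exact id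
        | cons h _ ih2 => exact fun hu => ih2 (hstep _ _ h hu)
      exact hwalk _ _ p ha
  have hfin := key k M le_rfl hk
  refine ⟨hMflag', fun i => ⟨elt ρ i 1, ?_, rfl⟩⟩
  rw [Set.sdiff_self] at hfin
  rw [← hfin]
  intro y hy
  exact absurd hy (Set.notMem_empty y)

lemma thin_step (hC : IsCGroup ρ) (hT : IsThin ρ) {F : Set (Elt ρ)} (hF : IsFlag F)
    (hcard : F.encard + 1 = r) {g : G} (hFg : F ⊆ cham ρ g) {C : Set (Elt ρ)}
    (hCh : IsChamber C) (hFC : F ⊆ C) : ∃ g', C = cham ρ g' := by
  have hlt : F.encard < r := by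
    rw [← hcard]
    have hfin : F.encard ≠ ⊤ := Set.encard_ne_top_iff.2 hF.finite
    exact ENat.lt_add_one_iff hfin |>.2 le_rfl
  obtain ⟨i, hi⟩ := hF.exists_missing hlt
  have hFg' : F ⊆ cham ρ (ρ i * g) := by
    intro x hx
    have h1 : g ∈ x.coset := hFg hx
    show ρ i * g ∈ x.coset
    rw [coset_eq h1]
    exact ⟨ρ i, Subgroup.subset_closure ⟨i, (hi x hx).symm, rfl⟩, rfl⟩
  have hne : cham ρ g ≠ cham ρ (ρ i * g) := by
    intro h
    have h1 : elt ρ i g ∈ cham ρ (ρ i * g) := by rw [← h]; exact elt_mem i g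
    obtain ⟨k, hk, hk2⟩ : ρ i * g ∈ rcoset (maxPar ρ i) g := h1
    have hk3 : ρ i = k := mul_right_cancel hk2
    have h2 : ρ i ∈ Subgroup.closure (ρ '' {i}) ⊓ Subgroup.closure (ρ '' {j | j ≠ i}) :=
      ⟨Subgroup.subset_closure ⟨i, rfl, rfl⟩, hk3 ▸ hk⟩
    rw [hC.intersection] at h2
    have h3 : ({i} ∩ {j | j ≠ i} : Set (Fin r)) = ∅ := by
      ext j; simp
    rw [h3, Set.image_empty, Subgroup.closure_empty, Subgroup.mem_bot] at h2
    exact (hC.involution i).1 h2
  obtain ⟨X, Y, hXY, hset⟩ := Set.encard_eq_two.1 (hT F hF hcard)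
  have m1 : cham ρ g ∈ ({X, Y} : Set (Set (Elt ρ))) := by
    rw [← hset]; exact ⟨cham_isChamber g, hFg⟩
  have m2 : cham ρ (ρ i * g) ∈ ({X, Y} : Set (Set (Elt ρ))) := by
    rw [← hset]; exact ⟨cham_isChamber _, hFg'⟩
  have m3 : C ∈ ({X, Y} : Set (Set (Elt ρ))) := by
    rw [← hset]; exact ⟨hCh, hFC⟩
  simp only [Set.mem_insert_iff, Set.mem_singleton_iff] at m1 m2 m3
  by_cases h : C = cham ρ g
  · exact ⟨g, h⟩
  · refine ⟨ρ i * g, ?_⟩
    rcases m1 with m1 | m1 <;> rcases m2 with m2 | m2 <;> rcases m3 with m3 | m3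
    · exact absurd (m1.trans m2.symm) hne
    · exact absurd (m1.trans m2.symm) hne
    · exact absurd (m3.trans m1.symm) h
    · rw [m3, m2]
    · rw [m3, m2]
    · exact absurd (m3.trans m1.symm) h
    · exact absurd (m1.trans m2.symm) hne
    · exact absurd (m1.trans m2.symm) hne

lemma gallery (hC : IsCGroup ρ) (hT : IsThin ρ) (hR : IsResiduallyConnected ρ) :
    ∀ n : ℕ, ∀ F : Set (Elt ρ), IsFlag F → F.encard + n = r → ∀ C C' : Set (Elt ρ),
      IsChamber C → IsChamber C' → F ⊆ C → F ⊆ C' → (∃ g, C = cham ρ g) →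
      ∃ g, C' = cham ρ g := by
  intro n
  induction n with
  | zero =>
    intro F hF hcard C C' hCc hCc' hFC hFC' h
    have h1 : F = C := by
      apply Set.Finite.eq_of_subset_of_encard_le hF.finite hFC
      rw [hCc.encard, ← hcard]; simp
    have h2 : F = C' := by
      apply Set.Finite.eq_of_subset_of_encard_le hF.finite hFC'
      rw [hCc'.encard, ← hcard]; simp
    rw [← h2, h1]; exact h
  | succ n ih =>
    intro F hF hcard C C' hCc hCc' hFC hFC' h
    rcases Nat.eq_zero_or_pos n with rfl | hn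
    · obtain ⟨g, rfl⟩ := h
      exact thin_step hC hT hF (by simpa using hcard) hFC hCc' hFC'
    · have hcard2 : F.encard + 2 ≤ r := by
        rw [← hcard]
        gcongr
        exact_mod_cast (by omega : 2 ≤ n + 1)
      have hpre := (hR F hF).1 hcard2
      have hlt : F.encard < r := by
        have hfin : F.encard ≠ ⊤ := Set.encard_ne_top_iff.2 hF.finite
        have h1 : F.encard < F.encard + 1 := ENat.lt_add_one_iff hfin |>.2 le_rfl
        refine lt_of_lt_of_le h1 (le_trans ?_ hcard2)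
        gcongr
        norm_num
      obtain ⟨i, hi⟩ := hF.exists_missing hlt
      obtain ⟨x, hxC, hxi⟩ := hCc.2 i
      obtain ⟨x', hxC', hxi'⟩ := hCc'.2 i
      have hxF : x ∉ F := fun hx => hi x hx hxi
      have hxF' : x' ∉ F := fun hx => hi x' hx hxi'
      have hxr : x ∈ residue F := mem_residue_of_flag hCc.1 hFC hxC hxF
      have hxr' : x' ∈ residue F := mem_residue_of_flag hCc'.1 hFC' hxC' hxF'
      have hins : ∀ y ∈ residue F, (insert y F).encard + n = r := by
        intro y hy
        rw [Set.encard_insert_of_notMem (not_mem_of_residue hy), ← hcard]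
        push_cast
        rw [add_assoc, add_comm 1 (n : ℕ∞)]
      let R : residue F → Prop := fun y =>
        ∀ D, IsChamber D → insert (y : Elt ρ) F ⊆ D → ∃ g, D = cham ρ g
      have hstep : ∀ y z : residue F, ((incidenceGraph ρ).induce (residue F)).Adj y z →
          R y → R z := by
        intro y z hyz hy D hD hzD
        have hadj : (y : Elt ρ) ≠ z ∧ Incident (y : Elt ρ) z := hyz
        have hflag : IsFlag (insert (y : Elt ρ) (insert (z : Elt ρ) F)) := by
          apply isFlag_insert (isFlag_insert hF z.2)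
          rintro w (rfl | hw)
          · exact ⟨fun h => hadj.1 (inc_same hadj.2 h), hadj.2⟩
          · exact y.2 w hw
        obtain ⟨E, hE, hsub⟩ := extend hR hflag
        have h1 : insert (y : Elt ρ) F ⊆ E := by
          refine Set.Subset.trans ?_ hsub
          exact Set.insert_subset_insert (Set.subset_insert _ _)
        have h2 : insert (z : Elt ρ) F ⊆ E := (Set.subset_insert _ _).trans hsub
        exact ih _ (isFlag_insert hF z.2) (hins z z.2) E D hE hD h2 hzD (hy E hE h1)
      have hwalk : ∀ (u v : residue F) (p : ((incidenceGraph ρ).induce (residue F)).Walk u v),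
          R u → R v := by
        intro u v p
        induction p with
        | nil => exact id
        | cons h _ ih2 => exact fun hu => ih2 (hstep _ _ h hu)
      obtain ⟨p⟩ := hpre ⟨x, hxr⟩ ⟨x', hxr'⟩
      have hRx : R ⟨x, hxr⟩ := by
        intro D hD hxD
        exact ih _ (isFlag_insert hF hxr) (hins x hxr) C D hCc hD
          (Set.insert_subset hxC hFC) hxD h
      exact hwalk _ _ p hRx C' hCc' (Set.insert_subset hxC' hFC')

theorem main (hC : IsCGroup ρ) (hT : IsThin ρ) (hR : IsResiduallyConnected ρ) :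
    IsFlagTransitive ρ := by
  have hall : ∀ C : Set (Elt ρ), IsChamber C → ∃ g, C = cham ρ g := by
    intro C hCc
    refine gallery hC hT hR r ∅ (by intro x hx; exact absurd hx (Set.notMem_empty x)) (by simp)
      (cham ρ 1) C (cham_isChamber 1) hCc (Set.empty_subset _) (Set.empty_subset _) ⟨1, rfl⟩
  intro C C' hCc hCc'
  obtain ⟨g, rfl⟩ := hall C hCc
  obtain ⟨g', rfl⟩ := hall C' hCc'
  refine ⟨g⁻¹ * g', ?_⟩
  ext x
  constructor
  · intro hx
    refine ⟨translate (g'⁻¹ * g) x, ?_, ?_⟩
    · show g ∈ (fun a => a * (g'⁻¹ * g)) '' x.coset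
      exact ⟨g', hx, by group⟩
    · refine Elt.ext' (by rfl) ?_
      show (fun a => a * (g⁻¹ * g')) '' ((fun a => a * (g'⁻¹ * g)) '' x.coset) = x.coset
      rw [Set.image_image]
      have : (fun a : G => a * (g'⁻¹ * g) * (g⁻¹ * g')) = id := by
        funext a; simp [mul_assoc]
      rw [this, Set.image_id]
  · rintro ⟨y, hy, rfl⟩
    show g' ∈ (fun a => a * (g⁻¹ * g')) '' y.coset
    exact ⟨g, hy, by group⟩

end Q150.CGroup
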