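import Mathlib

/-!
# Coset geometries of C-groups: definitions
-/

namespace Q150.CGroup

variable {G : Type*} [Group G] {r : ℕ}

/-- `(G, {ρ_0, …, ρ_{r-1}})` is a C-group of rank `r`: the `ρ_i` are distinct involutions
generating `G` and satisfying the intersection property. -/
structure IsCGroup (ρ : Fin r → G) : Prop where
  involution : ∀ i, ρ i ≠ 1 ∧ ρ i * ρ i = 1
  distinct : Function.Injective ρ
  generates : Subgroup.closure (Set.range ρ) = ⊤
  intersection : ∀ I J : Set (Fin r),
    Subgroup.closure (ρ '' I) ⊓ Subgroup.closure (ρ '' J) = Subgroup.closure (ρ '' (I ∩ J))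

/-- The subgroup `G_i = ⟨ρ_j : j ≠ i⟩`. -/
def maxPar (ρ : Fin r → G) (i : Fin r) : Subgroup G := Subgroup.closure (ρ '' {j | j ≠ i})

/-- The right coset `H g`. -/
def rcoset (H : Subgroup G) (g : G) : Set G := {x | ∃ h ∈ H, x = h * g}

/-- The elements of the coset geometry: an element of type `i` is a right coset `G_i g`. -/
structure Elt (ρ : Fin r → G) where
  /-- the type -/
  typ : Fin r
  /-- the coset -/
  coset : Set G
  isCoset : ∃ g, coset = rcoset (maxPar ρ typ) g

variable {ρ : Fin r → G}

/-- Two elements are incident iff the cosets meet. -/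
def Incident (x y : Elt ρ) : Prop := (x.coset ∩ y.coset).Nonempty

/-- A flag is a set of pairwise incident elements. -/
def IsFlag (F : Set (Elt ρ)) : Prop := ∀ x ∈ F, ∀ y ∈ F, Incident x y

/-- A chamber is a flag containing an element of each type. -/
def IsChamber (C : Set (Elt ρ)) : Prop := IsFlag C ∧ ∀ i : Fin r, ∃ x ∈ C, x.typ = i

/-- The residue of `F`: the elements of types not met by `F` that are incident with every element
of `F`. -/
def residue (F : Set (Elt ρ)) : Set (Elt ρ) := {x | ∀ y ∈ F, x.typ ≠ y.typ ∧ Incident x y}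

/-- The incidence graph of the coset geometry. -/
def incidenceGraph (ρ : Fin r → G) : SimpleGraph (Elt ρ) where
  Adj x y := x ≠ y ∧ Incident x y
  symm := ⟨fun _ _ h => ⟨h.1.symm, by
    have h2 := h.2; unfold Incident at h2 ⊢; rwa [Set.inter_comm]⟩⟩
  loopless := ⟨fun _ h => h.1 rfl⟩

/-- Thin: every flag with `r - 1` elements lies in exactly two chambers. -/
def IsThin (ρ : Fin r → G) : Prop :=
  ∀ F : Set (Elt ρ), IsFlag F → F.encard + 1 = r → {C | IsChamber C ∧ F ⊆ C}.encard = 2

/-- Residually connected: in the incidence graph of the residue of a flag of rank at least two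
(that is, of a flag with at most `r - 2` elements) any two vertices are joined by a path, and the
residues of rank one are nonempty. (An empty graph is not excluded here; this only makes the
condition weaker.) -/
def IsResiduallyConnected (ρ : Fin r → G) : Prop :=
  ∀ F : Set (Elt ρ), IsFlag F →
    (F.encard + 2 ≤ r → ((incidenceGraph ρ).induce (residue F)).Preconnected) ∧
    (F.encard + 1 = r → (residue F).Nonempty)

/-- Right multiplication by `g`, acting on the elements: `G_i a ↦ G_i a g`. -/
def translate (g : G) (x : Elt ρ) : Elt ρ where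
  typ := x.typ
  coset := (fun a => a * g) '' x.coset
  isCoset := by
    obtain ⟨a, ha⟩ := x.isCoset
    refine ⟨a * g, ?_⟩
    rw [ha]
    ext b
    constructor
    · rintro ⟨_, ⟨h, hh, rfl⟩, rfl⟩
      exact ⟨h, hh, mul_assoc _ _ _⟩
    · rintro ⟨h, hh, rfl⟩
      exact ⟨h * a, ⟨h, hh, rfl⟩, mul_assoc _ _ _⟩

/-- Flag-transitive: `G` acting by right multiplication is transitive on the set of chambers. -/
def IsFlagTransitive (ρ : Fin r → G) : Prop :=
  ∀ C C' : Set (Elt ρ), IsChamber C → IsChamber C' → ∃ g : G, C' = translate g '' C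

end Q150.CGroup
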