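import Mathlib

/-!
# Planar drawings and monochromatic components
-/

namespace Q150Clust

/-- A drawing of the graph `G` in the plane without crossings: distinct vertices are placed at
distinct points, every edge `uv` is drawn as a simple arc `arc u v` joining the points of `u` and
`v` and containing no other vertex, and the arcs of two distinct edges meet only in the point of a
common endpoint. -/
structure PlaneDrawing {V : Type} (G : SimpleGraph V) where
  pt : V → ℝ × ℝ
  arc : V → V → Set (ℝ × ℝ)
  pt_injective : Function.Injective pt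
  arc_symm : ∀ u v, arc u v = arc v u
  arc_path : ∀ u v, G.Adj u v → ∃ γ : ℝ → ℝ × ℝ, ContinuousOn γ (Set.Icc 0 1) ∧
    Set.InjOn γ (Set.Icc 0 1) ∧ γ 0 = pt u ∧ γ 1 = pt v ∧ γ '' Set.Icc 0 1 = arc u v
  arc_avoids : ∀ u v w, G.Adj u v → w ≠ u → w ≠ v → pt w ∉ arc u v
  arc_disjoint : ∀ u v u' v', G.Adj u v → G.Adj u' v' →
    ¬ ((u = u' ∧ v = v') ∨ (u = v' ∧ v = u')) → ∀ z ∈ arc u v, z ∈ arc u' v' →
    ∃ w, (w = u ∨ w = v) ∧ (w = u' ∨ w = v') ∧ z = pt w

/-- A graph is planar if it can be drawn in the plane without crossings. -/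
def Planar {V : Type} (G : SimpleGraph V) : Prop := Nonempty (PlaneDrawing G)

/-- The graph whose edges are the edges of `G` with both endpoints of the same colour. -/
def monoGraph {V : Type} (G : SimpleGraph V) {k : ℕ} (col : V → Fin k) : SimpleGraph V where
  Adj u v := G.Adj u v ∧ col u = col v
  symm := ⟨fun _ _ h => ⟨h.1.symm, h.2.symm⟩⟩
  loopless := ⟨fun _ h => G.loopless.irrefl _ h.1⟩

/-- The monochromatic component of the vertex `v`. -/
def monoComponent {V : Type} (G : SimpleGraph V) {k : ℕ} (col : V → Fin k) (v : V) : Set V :=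
  {w | (monoGraph G col).Reachable v w}

/-- The colouring `col` has clustering `c`: every monochromatic component has at most `c`
vertices. -/
def HasClustering {V : Type} (G : SimpleGraph V) {k : ℕ} (col : V → Fin k) (c : ℕ) : Prop :=
  ∀ v, (monoComponent G col v).ncard ≤ c

end Q150Clust
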