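import Mathlib
import Pool.Agent.Q150.ClustDefs

/-! Two-page book embeddings give plane drawings. -/

namespace Q150Clust

open Set

/-- semicircle over the segment `[a, b]` of the horizontal axis, above (`s = 1`) or below
(`s = -1`) the axis -/
def semi (s a b : ℝ) : Set (ℝ × ℝ) := {z | (z.1 - a) * (b - z.1) = z.2 ^ 2 ∧ 0 ≤ s * z.2}

theorem semi_symm (s a b : ℝ) : semi s a b = semi s b a := by
  ext z
  simp only [semi, Set.mem_ofPred_eq]
  rw [show (z.1 - a) * (b - z.1) = (z.1 - b) * (a - z.1) by ring]

theorem semi_path (s a b : ℝ) (hs : s = 1 ∨ s = -1) (hab : a ≠ b) :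
    ∃ γ : ℝ → ℝ × ℝ, ContinuousOn γ (Icc 0 1) ∧ InjOn γ (Icc 0 1) ∧ γ 0 = (a, 0) ∧
      γ 1 = (b, 0) ∧ γ '' Icc 0 1 = semi s a b := by
  have hs2 : s * s = 1 := by rcases hs with rfl | rfl <;> norm_num
  refine ⟨fun t => (a + (b - a) * t, s * |b - a| * √(t * (1 - t))), ?_, ?_, ?_, ?_, ?_⟩
  · apply Continuous.continuousOn
    fun_prop
  · intro t _ t' _ h
    have h1 := congrArg Prod.fst h
    simp only at h1
    have h2 : (b - a) * t = (b - a) * t' := by linarith
    exact mul_left_cancel₀ (sub_ne_zero.mpr hab.symm) h2
  · simp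
  · simp
  · ext ⟨x, y⟩
    simp only [semi, Set.mem_image, Set.mem_ofPred_eq, Prod.mk.injEq]
    constructor
    · rintro ⟨t, ⟨h0, h1⟩, rfl, rfl⟩
      have ht : 0 ≤ t * (1 - t) := mul_nonneg h0 (by linarith)
      constructor
      · have e1 : (s * |b - a| * √(t * (1 - t))) ^ 2 = (s * s) * (|b - a| ^ 2) *
            (√(t * (1 - t)) ^ 2) := by ring
        rw [e1, hs2, Real.sq_sqrt ht, sq_abs]
        ring
      · have : s * (s * |b - a| * √(t * (1 - t))) = (s * s) * (|b - a| * √(t * (1 - t))) := by ring
        rw [this, hs2, one_mul]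
        positivity
    · rintro ⟨h1, h2⟩
      have hba : b - a ≠ 0 := sub_ne_zero.mpr hab.symm
      have hsq : 0 < (b - a) ^ 2 := by positivity
      have hy : 0 ≤ (x - a) * (b - x) := by rw [h1]; positivity
      have key : (x - a) / (b - a) * (1 - (x - a) / (b - a)) = y ^ 2 / (b - a) ^ 2 := by
        rw [← h1]; field_simp; ring
      have hnn : 0 ≤ (x - a) / (b - a) * (1 - (x - a) / (b - a)) := by
        rw [key]; positivity
      have h01 : 0 ≤ (x - a) / (b - a) ∧ (x - a) / (b - a) ≤ 1 := by
        constructor
        · by_contra hlt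
          push Not at hlt
          nlinarith
        · by_contra hlt
          push Not at hlt
          nlinarith
      refine ⟨(x - a) / (b - a), ⟨h01.1, h01.2⟩, ?_, ?_⟩
      · field_simp; ring
      · rw [key, Real.sqrt_div (sq_nonneg y), Real.sqrt_sq_eq_abs, Real.sqrt_sq_eq_abs]
        have hab' : |b - a| ≠ 0 := abs_ne_zero.mpr hba
        have : s * |b - a| * (|y| / |b - a|) = s * |y| := by field_simp
        rw [this]
        rcases hs with rfl | rfl
        · rw [one_mul] at h2 ⊢
          exact abs_of_nonneg h2
        · have : y ≤ 0 := by linarith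
          rw [abs_of_nonpos this]; ring

/-- Noncrossing semicircles over intervals `a < b`, `a' < b'` on the same side. -/
theorem semi_inter {s a b a' b' x y : ℝ} (hab : a < b) (hab' : a' < b')
    (h1 : ¬ (a < a' ∧ a' < b ∧ b < b')) (h2 : ¬ (a' < a ∧ a < b' ∧ b' < b))
    (hy : y ≠ 0) (hz : (x, y) ∈ semi s a b) (hz' : (x, y) ∈ semi s a' b') : a = a' ∧ b = b' := by
  obtain ⟨e1, -⟩ := hz
  obtain ⟨e2, -⟩ := hz'
  simp only at e1 e2
  have hp : 0 < y ^ 2 := by positivity
  have p1 : 0 < (x - a) * (b - x) := by rw [e1]; exact hp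
  have p2 : 0 < (x - a') * (b' - x) := by rw [e2]; exact hp
  have ax : a < x ∧ x < b := by
    rcases pos_and_pos_or_neg_and_neg_of_mul_pos p1 with h | h <;> constructor <;> linarith
  have ax' : a' < x ∧ x < b' := by
    rcases pos_and_pos_or_neg_and_neg_of_mul_pos p2 with h | h <;> constructor <;> linarith
  rcases lt_trichotomy a a' with h | h | h
  · have hb : b' ≤ b := by
      by_contra hlt
      push Not at hlt
      exact h1 ⟨h, by linarith, hlt⟩
    exfalso
    have : (x - a') * (b' - x) < (x - a) * (b - x) := by
      apply mul_lt_mul <;> linarith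
    linarith
  · subst h
    refine ⟨rfl, ?_⟩
    have : (x - a) * (b - x) = (x - a) * (b' - x) := by rw [e1, e2]
    have := mul_left_cancel₀ (by linarith : x - a ≠ 0) this
    linarith
  · have hb : b ≤ b' := by
      by_contra hlt
      push Not at hlt
      exact h2 ⟨h, by linarith, hlt⟩
    exfalso
    have : (x - a) * (b - x) < (x - a') * (b' - x) := by
      apply mul_lt_mul <;> linarith
    linarith

/-- A graph with a two-page book embedding (spine order given by an injective map to a linear
order, noncrossing pages) is planar. -/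
theorem planar_of_book {V : Type} [Fintype V] (G : SimpleGraph V) {α : Type} [LinearOrder α]
    (pos : V → α) (hpos : Function.Injective pos) (page : V → V → Bool)
    (page_symm : ∀ u v, page u v = page v u)
    (hnc : ∀ u v u' v', G.Adj u v → G.Adj u' v' → page u v = page u' v' → pos u < pos u' →
      pos u' < pos v → pos v < pos v' → False) : Planar G := by
  classical
  -- real positions
  set P : V → ℝ := fun v => ((Finset.univ.filter (fun w => pos w < pos v)).card : ℝ) with hP
  have hlt : ∀ {u v}, pos u < pos v → P u < P v := by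
    intro u v h
    simp only [hP]
    norm_cast
    apply Finset.card_lt_card
    rw [Finset.ssubset_iff_of_subset]
    · exact ⟨u, by simp [h], by simp⟩
    · intro w hw
      simp only [Finset.mem_filter, Finset.mem_univ, true_and] at hw ⊢
      exact hw.trans h
  have hlt' : ∀ {u v}, P u < P v → pos u < pos v := by
    intro u v h
    rcases lt_trichotomy (pos u) (pos v) with h' | h' | h'
    · exact h'
    · rw [hpos h'] at h; exact absurd h (lt_irrefl _)
    · exact absurd (hlt h') (not_lt.mpr h.le)
  have hPinj : Function.Injective P := by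
    intro u v h
    rcases lt_trichotomy (pos u) (pos v) with h' | h' | h'
    · exact absurd (hlt h') (by rw [h]; exact lt_irrefl _)
    · exact hpos h'
    · exact absurd (hlt h') (by rw [h]; exact lt_irrefl _)
  set sg : Bool → ℝ := fun b => if b then 1 else -1 with hsg
  have hsg' : ∀ b, sg b = 1 ∨ sg b = -1 := by
    intro b; cases b <;> simp [hsg]
  refine ⟨{ pt := fun v => (P v, 0), arc := fun u v => semi (sg (page u v)) (P u) (P v),
            pt_injective := ?_, arc_symm := ?_, arc_path := ?_, arc_avoids := ?_,
            arc_disjoint := ?_ }⟩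
  · intro u v h
    exact hPinj (congrArg Prod.fst h)
  · intro u v
    rw [semi_symm, page_symm]
  · intro u v huv
    exact semi_path _ _ _ (hsg' _) (fun h => huv.ne (hPinj h))
  · intro u v w huv hwu hwv hmem
    obtain ⟨h1, -⟩ := hmem
    simp only at h1
    have h0 : (P w - P u) * (P v - P w) = 0 := by rw [h1]; ring
    rcases mul_eq_zero.mp h0 with h | h
    · exact hwu (hPinj (by linarith))
    · exact hwv (hPinj (by linarith))
  · intro u v u' v' huv huv' hne z hz hz'
    obtain ⟨x, y⟩ := z
    by_cases hy : y = 0
    · subst hy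
      obtain ⟨h1, -⟩ := hz
      obtain ⟨h2, -⟩ := hz'
      simp only at h1 h2
      have h1' : (x - P u) * (P v - x) = 0 := by rw [h1]; ring
      have h2' : (x - P u') * (P v' - x) = 0 := by rw [h2]; ring
      rcases mul_eq_zero.mp h1' with h | h <;> rcases mul_eq_zero.mp h2' with h' | h'
      · have hx : x = P u := by linarith
        have : u = u' := hPinj (by linarith)
        exact ⟨u, Or.inl rfl, Or.inl this, by rw [hx]⟩
      · have hx : x = P u := by linarith
        have : u = v' := hPinj (by linarith)
        exact ⟨u, Or.inl rfl, Or.inr this, by rw [hx]⟩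
      · have hx : x = P v := by linarith
        have : v = u' := hPinj (by linarith)
        exact ⟨v, Or.inr rfl, Or.inl this, by rw [hx]⟩
      · have hx : x = P v := by linarith
        have : v = v' := hPinj (by linarith)
        exact ⟨v, Or.inr rfl, Or.inr this, by rw [hx]⟩
    · exfalso
      have hpage : page u v = page u' v' := by
        obtain ⟨-, h1⟩ := hz
        obtain ⟨-, h2⟩ := hz'
        simp only at h1 h2
        cases hp : page u v <;> cases hp' : page u' v' <;> simp only [hp, hp', hsg] at h1 h2 ⊢
        · simp only [Bool.false_eq_true, if_false, if_true] at h1 h2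
          exact absurd (show y = 0 by linarith) hy
        · simp only [Bool.false_eq_true, if_false, if_true] at h1 h2
          exact absurd (show y = 0 by linarith) hy
      rw [← hpage] at hz'
      -- reduce to u < v and u' < v'
      have main : ∀ u v u' v', G.Adj u v → G.Adj u' v' → page u v = page u' v' → P u < P v →
          P u' < P v' → (x, y) ∈ semi (sg (page u v)) (P u) (P v) →
          (x, y) ∈ semi (sg (page u v)) (P u') (P v') → u = u' ∧ v = v' := by
        intro u v u' v' h1 h2 hp hl hl' m m'
        obtain ⟨e1, e2⟩ := semi_inter hl hl' (fun h => hnc u v u' v' h1 h2 hp (hlt' h.1)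
          (hlt' h.2.1) (hlt' h.2.2)) (fun h => hnc u' v' u v h2 h1 hp.symm (hlt' h.1)
          (hlt' h.2.1) (hlt' h.2.2)) hy m m'
        exact ⟨hPinj e1, hPinj e2⟩
      rcases lt_or_gt_of_ne (fun h => huv.ne (hPinj h) : P u ≠ P v) with a1 | a1 <;>
        rcases lt_or_gt_of_ne (fun h => huv'.ne (hPinj h) : P u' ≠ P v') with a2 | a2
      · exact hne (Or.inl (main u v u' v' huv huv' hpage a1 a2 hz hz'))
      · rw [semi_symm] at hz'
        obtain ⟨h, h'⟩ := main u v v' u' huv huv'.symm (by rw [hpage, page_symm]) a1 a2 hz hz'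
        exact hne (Or.inr ⟨h, h'⟩)
      · rw [semi_symm, page_symm] at hz
        rw [page_symm] at hz'
        obtain ⟨h, h'⟩ := main v u u' v' huv.symm huv' (by rw [page_symm, hpage]) a1 a2 hz hz'
        exact hne (Or.inr ⟨h', h⟩)
      · rw [semi_symm, page_symm] at hz
        rw [semi_symm, page_symm] at hz'
        obtain ⟨h, h'⟩ := main v u v' u' huv.symm huv'.symm
          (by rw [page_symm v u, hpage, page_symm]) a1 a2 hz hz'
        exact hne (Or.inl ⟨h', h⟩)

end Q150Clust
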