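import Mathlib
import Pool.Agent.Q150.ClustBook

/-! The graph with three apex vertices. -/

namespace Q150Clust

/-- Adjacency (directed form) between the places `(g, n)` of the basic planar graph: `(g, 0)` is
the hub `g`, the places `(g, 1), …, (g, m)` form a path, the odd ones are joined to the hub `g`,
the even ones to the hub `g + 1` (mod 3). -/
def nd (g n g' n' : ℕ) : Prop :=
  (g = g' ∧ n = 0 ∧ n' % 2 = 1) ∨ (g = g' ∧ 1 ≤ n ∧ n' = n + 1) ∨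
    (n = 0 ∧ 1 ≤ n' ∧ n' % 2 = 0 ∧ g = (g' + 1) % 3)

/-- classes of a proper 3-colouring of the basic planar graph -/
def ncls (g n : ℕ) : ℕ := if n = 0 then g else if n % 2 = 1 then (g + 1) % 3 else g

/-- adjacency (directed form) inside the copies: `r = 0` are the places, `r ≥ 1` the pendant
vertices of a place -/
def nrel (κ g n r κ' g' n' r' : ℕ) : Prop :=
  κ = κ' ∧ ((r = 0 ∧ r' = 0 ∧ nd g n g' n') ∨ (g = g' ∧ n = n' ∧ r = 0 ∧ 1 ≤ r'))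

/-- adjacency of the apex vertex `t` -/
def nap (t κ g n r : ℕ) : Prop :=
  (κ % 4 = 3 ∧ r = 0 ∧ ncls g n = t) ∨
    (κ % 4 < 3 ∧ 1 ≤ r ∧ (t = κ % 4 ∨ t = (κ % 4 + 1) % 3))

/-- vertices: three apex vertices, and `K` copies of the basic graph with `N` pendant vertices at
every place -/
abbrev Vtx (K m N : ℕ) : Type := Fin 3 ⊕ (Fin K × Fin 3 × Fin (m + 1) × Fin (N + 1))

def rel (K m N : ℕ) : Vtx K m N → Vtx K m N → Prop
  | Sum.inr (κ, g, n, r), Sum.inr (κ', g', n', r') => nrel κ g n r κ' g' n' r'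
  | Sum.inl t, Sum.inr (κ, g, n, r) => nap t κ g n r
  | _, Sum.inl _ => False

/-- the graph -/
def Gr (K m N : ℕ) : SimpleGraph (Vtx K m N) := SimpleGraph.fromRel (rel K m N)

theorem nd_tri (a x b y c z : ℕ) (h1 : nd a x b y ∨ nd b y a x)
    (h2 : nd b y c z ∨ nd c z b y) (h3 : nd a x c z ∨ nd c z a x) : False := by
  unfold nd at *
  rcases h1 with (h1 | h1 | h1) | (h1 | h1 | h1) <;> rcases h2 with (h2 | h2 | h2) | (h2 | h2 | h2)
    <;> rcases h3 with (h3 | h3 | h3) | (h3 | h3 | h3) <;> omega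

theorem ncls_ne (g n g' n' : ℕ) (_hg : g < 3) (_hg' : g' < 3) (h : nd g n g' n') :
    ncls g n ≠ ncls g' n' := by
  unfold nd at h
  unfold ncls
  rcases h with h | h | h <;> (split_ifs <;> omega)

theorem rel_irrefl (K m N : ℕ) (v : Vtx K m N) : ¬ rel K m N v v := by
  rcases v with t | ⟨κ, g, n, r⟩
  · simp [rel]
  · simp only [rel, nrel, nd]; omega

theorem adj_iff (K m N : ℕ) (u v : Vtx K m N) :
    (Gr K m N).Adj u v ↔ rel K m N u v ∨ rel K m N v u := by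
  rw [Gr, SimpleGraph.fromRel_adj]
  constructor
  · exact fun h => h.2
  · intro h
    refine ⟨?_, h⟩
    rintro rfl
    rcases h with h | h <;> exact rel_irrefl _ _ _ _ h

theorem tri3 {a x r b y s c z t κ1 κ2 κ3 : ℕ}
    (h1 : nrel κ1 a x r κ2 b y s ∨ nrel κ2 b y s κ1 a x r)
    (h2 : nrel κ2 b y s κ3 c z t ∨ nrel κ3 c z t κ2 b y s)
    (h3 : nrel κ1 a x r κ3 c z t ∨ nrel κ3 c z t κ1 a x r) : False := by
  unfold nrel at *
  by_cases hr : r = 0 <;> by_cases hs : s = 0 <;> by_cases ht : t = 0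
  · apply nd_tri a x b y c z
    · rcases h1 with ⟨-, h | h⟩ | ⟨-, h | h⟩
      · exact Or.inl h.2.2
      · omega
      · exact Or.inr h.2.2
      · omega
    · rcases h2 with ⟨-, h | h⟩ | ⟨-, h | h⟩
      · exact Or.inl h.2.2
      · omega
      · exact Or.inr h.2.2
      · omega
    · rcases h3 with ⟨-, h | h⟩ | ⟨-, h | h⟩
      · exact Or.inl h.2.2
      · omega
      · exact Or.inr h.2.2
      · omega
  all_goals
    unfold nd at *
    rcases h1 with ⟨-, h1 | h1⟩ | ⟨-, h1 | h1⟩ <;> rcases h2 with ⟨-, h2 | h2⟩ | ⟨-, h2 | h2⟩ <;>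
      rcases h3 with ⟨-, h3 | h3⟩ | ⟨-, h3 | h3⟩ <;> omega

theorem tri2 {u κ a x r κ' b y s : ℕ} (ha : a < 3) (hb : b < 3) (h1 : nap u κ a x r)
    (h2 : nap u κ' b y s) (h3 : nrel κ a x r κ' b y s) : False := by
  unfold nrel at h3
  obtain ⟨rfl, h3⟩ := h3
  unfold nap at h1 h2
  rcases h3 with ⟨hr, hs, h⟩ | h
  · rcases h1 with ⟨-, -, h1⟩ | h1
    · rcases h2 with ⟨-, -, h2⟩ | h2
      · exact ncls_ne a x b y ha hb h (h1.trans h2.symm)
      · omega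
    · omega
  · omega

theorem cliqueFree (K m N : ℕ) : (Gr K m N).CliqueFree 3 := by
  intro s hs
  rw [SimpleGraph.is3Clique_iff] at hs
  obtain ⟨a, b, c, hab, hac, hbc, -⟩ := hs
  rw [adj_iff] at hab hac hbc
  rcases a with t | ⟨κ, g, n, r⟩ <;> rcases b with t' | ⟨κ', g', n', r'⟩ <;>
    rcases c with t'' | ⟨κ'', g'', n'', r''⟩ <;> simp only [rel, or_false, false_or] at hab hac hbc
  · rcases hbc with h | h
    · exact tri2 g'.2 g''.2 hab hac h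
    · exact tri2 g''.2 g'.2 hac hab h
  · rcases hac with h | h
    · exact tri2 g.2 g''.2 hab hbc h
    · exact tri2 g''.2 g.2 hbc hab h
  · rcases hab with h | h
    · exact tri2 g.2 g'.2 hac hbc h
    · exact tri2 g'.2 g.2 hbc hac h
  · exact tri3 hab hbc hac

/-- noncrossing for the edges between places -/
theorem nc_places {m g1 n1 g2 n2 g3 n3 g4 n4 : ℕ} (hg1 : g1 < 3) (hg2 : g2 < 3) (hg3 : g3 < 3)
    (hg4 : g4 < 3) (hn1 : n1 ≤ m) (hn2 : n2 ≤ m) (hn3 : n3 ≤ m) (hn4 : n4 ≤ m)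
    (h12 : nd g1 n1 g2 n2 ∨ nd g2 n2 g1 n1) (h34 : nd g3 n3 g4 n4 ∨ nd g4 n4 g3 n3)
    (hp : g1 = g2 ↔ g3 = g4) (l1 : g1 * (m + 1) + n1 < g3 * (m + 1) + n3)
    (l2 : g3 * (m + 1) + n3 < g2 * (m + 1) + n2) (l3 : g2 * (m + 1) + n2 < g4 * (m + 1) + n4) :
    False := by
  unfold nd at h12 h34
  interval_cases g1 <;> interval_cases g2 <;> interval_cases g3 <;> interval_cases g4 <;> omega

/-- the places and pendant vertices, with the lexicographic order of (copy, place, pendant) -/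
theorem nc_all {m κ1 g1 n1 r1 κ2 g2 n2 r2 κ3 g3 n3 r3 κ4 g4 n4 r4 : ℕ} (hg1 : g1 < 3)
    (hg2 : g2 < 3) (hg3 : g3 < 3) (hg4 : g4 < 3) (hn1 : n1 ≤ m) (hn2 : n2 ≤ m) (hn3 : n3 ≤ m)
    (hn4 : n4 ≤ m)
    (h12 : nrel κ1 g1 n1 r1 κ2 g2 n2 r2 ∨ nrel κ2 g2 n2 r2 κ1 g1 n1 r1)
    (h34 : nrel κ3 g3 n3 r3 κ4 g4 n4 r4 ∨ nrel κ4 g4 n4 r4 κ3 g3 n3 r3)
    (hp : g1 = g2 ↔ g3 = g4) {p1 p2 p3 p4 : ℕ} (e1 : p1 = g1 * (m + 1) + n1)
    (e2 : p2 = g2 * (m + 1) + n2) (e3 : p3 = g3 * (m + 1) + n3) (e4 : p4 = g4 * (m + 1) + n4)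
    (l1 : κ1 < κ3 ∨ (κ1 = κ3 ∧ (p1 < p3 ∨ (p1 = p3 ∧ r1 < r3))))
    (l2 : κ3 < κ2 ∨ (κ3 = κ2 ∧ (p3 < p2 ∨ (p3 = p2 ∧ r3 < r2))))
    (l3 : κ2 < κ4 ∨ (κ2 = κ4 ∧ (p2 < p4 ∨ (p2 = p4 ∧ r2 < r4)))) : False := by
  have k12 : κ1 = κ2 := by
    rcases h12 with h | h
    · exact h.1
    · exact h.1.symm
  have k34 : κ3 = κ4 := by
    rcases h34 with h | h
    · exact h.1
    · exact h.1.symm
  have hk : κ1 = κ3 ∧ κ3 = κ2 ∧ κ2 = κ4 := by omega
  obtain ⟨hk1, hk2, hk3⟩ := hk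
  have l1' : p1 < p3 ∨ (p1 = p3 ∧ r1 < r3) := by omega
  have l2' : p3 < p2 ∨ (p3 = p2 ∧ r3 < r2) := by omega
  have l3' : p2 < p4 ∨ (p2 = p4 ∧ r2 < r4) := by omega
  clear l1 l2 l3
  -- edge 12: either a pendant edge or an edge between places
  have c12 : (r1 = 0 ∧ r2 = 0 ∧ (nd g1 n1 g2 n2 ∨ nd g2 n2 g1 n1)) ∨
      (p1 = p2 ∧ (r1 = 0 ∨ r2 = 0)) := by
    rcases h12 with ⟨-, h | h⟩ | ⟨-, h | h⟩
    · exact Or.inl ⟨h.1, h.2.1, Or.inl h.2.2⟩
    · right; rw [e1, e2, h.1, h.2.1]; exact ⟨rfl, Or.inl h.2.2.1⟩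
    · exact Or.inl ⟨h.2.1, h.1, Or.inr h.2.2⟩
    · right; rw [e1, e2, h.1, h.2.1]; exact ⟨rfl, Or.inr h.2.2.1⟩
  have c34 : (r3 = 0 ∧ r4 = 0 ∧ (nd g3 n3 g4 n4 ∨ nd g4 n4 g3 n3)) ∨
      (p3 = p4 ∧ (r3 = 0 ∨ r4 = 0)) := by
    rcases h34 with ⟨-, h | h⟩ | ⟨-, h | h⟩
    · exact Or.inl ⟨h.1, h.2.1, Or.inl h.2.2⟩
    · right; rw [e3, e4, h.1, h.2.1]; exact ⟨rfl, Or.inl h.2.2.1⟩
    · exact Or.inl ⟨h.2.1, h.1, Or.inr h.2.2⟩
    · right; rw [e3, e4, h.1, h.2.1]; exact ⟨rfl, Or.inr h.2.2.1⟩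
  rcases c12 with ⟨a1, a2, a3⟩ | ⟨a1, a2⟩
  · rcases c34 with ⟨b1, b2, b3⟩ | ⟨b1, b2⟩
    · have q1 : p1 < p3 := by omega
      have q2 : p3 < p2 := by omega
      have q3 : p2 < p4 := by omega
      rw [e1, e3] at q1
      rw [e3, e2] at q2
      rw [e2, e4] at q3
      exact nc_places hg1 hg2 hg3 hg4 hn1 hn2 hn3 hn4 a3 b3 hp q1 q2 q3
    · omega
  · omega

/-- spine order -/
def pos (K m N : ℕ) (A : Finset (Vtx K m N)) : {v : Vtx K m N // v ∉ A} → ℕ ×ₗ (ℕ ×ₗ ℕ)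
  | ⟨Sum.inl _, _⟩ => toLex (0, toLex (0, 0))
  | ⟨Sum.inr (κ, g, n, r), _⟩ => toLex (κ.val, toLex (g.val * (m + 1) + n.val, r.val))

/-- page assignment -/
def page (K m N : ℕ) (A : Finset (Vtx K m N)) (u v : {v : Vtx K m N // v ∉ A}) : Bool :=
  match u.1, v.1 with
  | Sum.inr (_, g, _, _), Sum.inr (_, g', _, _) => decide (g = g')
  | _, _ => true

theorem planar_minus (K m N : ℕ) :
    Planar ((Gr K m N).induce {v | v ∉ (Finset.univ.image Sum.inl : Finset (Vtx K m N))}) := by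
  set A : Finset (Vtx K m N) := Finset.univ.image Sum.inl with hA
  have hAl : ∀ t, (Sum.inl t : Vtx K m N) ∈ A := by
    intro t; rw [hA]; simp
  refine planar_of_book (V := {v : Vtx K m N // v ∉ A}) _ (pos K m N A) ?_ (page K m N A) ?_ ?_
  · rintro ⟨u, hu⟩ ⟨v, hv⟩ h
    rcases u with t | ⟨κ, g, n, r⟩
    · exact absurd (hAl t) hu
    rcases v with t' | ⟨κ', g', n', r'⟩
    · exact absurd (hAl t') hv
    simp only [pos] at h
    have h1 := congrArg (fun z => (ofLex z).1) h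
    have h2 := congrArg (fun z => (ofLex (ofLex z).2).1) h
    have h3 := congrArg (fun z => (ofLex (ofLex z).2).2) h
    simp only [ofLex_toLex] at h1 h2 h3
    have hn := n.2
    have hn' := n'.2
    have hg : g.val = g'.val := by
      have a1 := g.2
      have a2 := g'.2
      generalize g.val = G at *
      generalize g'.val = G' at *
      interval_cases G <;> interval_cases G' <;> omega
    have hnn : n.val = n'.val := by
      rw [hg] at h2; omega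
    have : κ = κ' := Fin.ext h1
    have : g = g' := Fin.ext hg
    have : n = n' := Fin.ext hnn
    have : r = r' := Fin.ext h3
    subst_vars
    rfl
  · rintro ⟨u, hu⟩ ⟨v, hv⟩
    rcases u with t | ⟨κ, g, n, r⟩
    · exact absurd (hAl t) hu
    rcases v with t' | ⟨κ', g', n', r'⟩
    · exact absurd (hAl t') hv
    simp only [page, eq_comm]
  · rintro ⟨u, hu⟩ ⟨v, hv⟩ ⟨u', hu'⟩ ⟨v', hv'⟩ a1 a2 hp l1 l2 l3
    rcases u with t | ⟨κ1, g1, n1, r1⟩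
    · exact absurd (hAl t) hu
    rcases v with t | ⟨κ2, g2, n2, r2⟩
    · exact absurd (hAl t) hv
    rcases u' with t | ⟨κ3, g3, n3, r3⟩
    · exact absurd (hAl t) hu'
    rcases v' with t | ⟨κ4, g4, n4, r4⟩
    · exact absurd (hAl t) hv'
    simp only [SimpleGraph.comap_adj, Function.Embedding.subtype_apply, adj_iff, rel] at a1 a2
    simp only [page, decide_eq_decide] at hp
    simp only [pos, Prod.Lex.toLex_lt_toLex] at l1 l2 l3
    exact nc_all g1.2 g2.2 g3.2 g4.2 (Nat.lt_succ_iff.mp n1.2) (Nat.lt_succ_iff.mp n2.2)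
      (Nat.lt_succ_iff.mp n3.2) (Nat.lt_succ_iff.mp n4.2) a1 a2
      (by rw [← Fin.ext_iff, ← Fin.ext_iff]; exact hp) rfl rfl rfl rfl l1 l2 l3

end Q150Clust
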