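import Mathlib
import Pool.Agent.Q150.ClustGraph

/-! No 3-colouring of the graph has clustering `c`. -/

namespace Q150Clust

open Finset

section

variable {V : Type} [Fintype V] {G : SimpleGraph V} {c : ℕ} {col : V → Fin 3}

theorem comp_card (hc : HasClustering G col c) (v : V) (T : Finset V)
    (hT : ∀ w ∈ T, (monoGraph G col).Reachable v w) : T.card ≤ c := by
  have h := hc v
  have hsub : (T : Set V) ⊆ monoComponent G col v := fun w hw => hT w hw
  have := Set.ncard_le_ncard hsub (Set.toFinite _)
  rw [Set.ncard_coe_finset] at this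
  exact this.trans h

theorem star_card (hc : HasClustering G col c) (v : V) (T : Finset V)
    (hT : ∀ w ∈ T, G.Adj v w ∧ col v = col w) : T.card ≤ c :=
  comp_card hc v T (fun w hw => SimpleGraph.Adj.reachable (G := monoGraph G col) (hT w hw))

end

theorem third_col : ∀ a b x y : Fin 3, a ≠ b → x ≠ a → x ≠ b → y ≠ a → y ≠ b → x = y := by
  decide

theorem two_of_three : ∀ γ a b d : Fin 3, a ≠ γ → b ≠ γ → d ≠ γ → a = b ∨ b = d ∨ d = a := by
  decide

variable {K m N c : ℕ}

/-- the place `(g, n)` of the copy `κ` -/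
def node (κ : Fin K) (g : Fin 3) (n : ℕ) (hn : n < m + 1) : Vtx K m N :=
  Sum.inr (κ, g, ⟨n, hn⟩, 0)

theorem node_inj {κ : Fin K} {g g' : Fin 3} {n n' : ℕ} {hn : n < m + 1} {hn' : n' < m + 1}
    (h : (node κ g n hn : Vtx K m N) = node κ g' n' hn') : g = g' ∧ n = n' := by
  unfold node at h
  simp only [Sum.inr.injEq, Prod.mk.injEq, Fin.mk.injEq, true_and, and_true] at h
  exact h

theorem adj_hub_odd (κ : Fin K) (g : Fin 3) (n : ℕ) (hn : n < m + 1) (ho : n % 2 = 1) :
    (Gr K m N).Adj (node κ g 0 (Nat.succ_pos m)) (node κ g n hn) := by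
  rw [adj_iff]
  left
  simp only [node, rel, nrel, nd]
  simp
  omega

theorem adj_hub_even (κ : Fin K) (g : Fin 3) (n : ℕ) (hn : n < m + 1) (h1 : 1 ≤ n)
    (he : n % 2 = 0) :
    (Gr K m N).Adj (node κ (g + 1) 0 (Nat.succ_pos m)) (node κ g n hn) := by
  rw [adj_iff]
  left
  simp only [node, rel, nrel, nd]
  refine ⟨trivial, Or.inl ⟨rfl, rfl, Or.inr (Or.inr ⟨trivial, h1, he, ?_⟩)⟩⟩
  rw [Fin.val_add]; rfl

theorem adj_path (κ : Fin K) (g : Fin 3) (n : ℕ) (hn : n < m + 1) (hn' : n + 1 < m + 1)
    (h1 : 1 ≤ n) : (Gr K m N).Adj (node κ g n hn) (node κ g (n + 1) hn') := by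
  rw [adj_iff]
  left
  simp only [node, rel, nrel, nd]
  simp
  omega

/-- A copy whose places avoid one colour is impossible. -/
theorem copy_false (hm : (2 * c + 1) * (c + 1) ≤ m) {col : Vtx K m N → Fin 3}
    (hc : HasClustering (Gr K m N) col c) (κ : Fin K) (γ : Fin 3)
    (hγ : ∀ g n hn, col (node κ g n hn) ≠ γ) : False := by
  -- two hubs with the same colour
  obtain ⟨g, hg⟩ : ∃ g : Fin 3, col (node κ g 0 (Nat.succ_pos m)) =
      col (node κ (g + 1) 0 (Nat.succ_pos m)) := by
    rcases two_of_three γ _ _ _ (hγ 0 0 (Nat.succ_pos m)) (hγ 1 0 (Nat.succ_pos m))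
      (hγ 2 0 (Nat.succ_pos m)) with h | h | h
    · exact ⟨0, h⟩
    · exact ⟨1, h⟩
    · exact ⟨2, h⟩
  set α := col (node κ g 0 (Nat.succ_pos m)) with hα
  have hαγ : α ≠ γ := hγ g 0 _
  -- few path vertices have colour α
  have few : ∀ T : Finset (Fin (m + 1)), (∀ n ∈ T, 1 ≤ n.val ∧ col (node κ g n.val n.2) = α) →
      T.card ≤ 2 * c := by
    intro T hT
    classical
    have h1 : (T.filter (fun n => n.val % 2 = 1)).card ≤ c := by
      rw [← Finset.card_image_of_injective (f := fun n : Fin (m + 1) =>
        (node κ g n.val n.2 : Vtx K m N)) _ (fun a b h => Fin.ext (node_inj h).2)]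
      apply star_card hc (node κ g 0 (Nat.succ_pos m))
      intro w hw
      rw [Finset.mem_image] at hw
      obtain ⟨n, hn, rfl⟩ := hw
      rw [Finset.mem_filter] at hn
      exact ⟨adj_hub_odd κ g n.val n.2 hn.2, (hT n hn.1).2.symm⟩
    have h2 : (T.filter (fun n => ¬ n.val % 2 = 1)).card ≤ c := by
      rw [← Finset.card_image_of_injective (f := fun n : Fin (m + 1) =>
        (node κ g n.val n.2 : Vtx K m N)) _ (fun a b h => Fin.ext (node_inj h).2)]
      apply star_card hc (node κ (g + 1) 0 (Nat.succ_pos m))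
      intro w hw
      rw [Finset.mem_image] at hw
      obtain ⟨n, hn, rfl⟩ := hw
      rw [Finset.mem_filter] at hn
      exact ⟨adj_hub_even κ g n.val n.2 (hT n hn.1).1 (by omega),
        hg.symm.trans (hT n hn.1).2.symm⟩
    have := Finset.card_filter_add_card_filter_not (s := T) (fun n => n.val % 2 = 1)
    omega
  -- some block of `c + 1` consecutive path vertices avoids α
  obtain ⟨i, hi, hblock⟩ : ∃ i < 2 * c + 1, ∀ j < c + 1, ∀ h : i * (c + 1) + j + 1 < m + 1,
      col (node κ g (i * (c + 1) + j + 1) h) ≠ α := by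
    by_contra hcon
    push Not at hcon
    choose! f hf h1 h2 using hcon
    set T : Finset (Fin (m + 1)) := (Finset.univ : Finset (Fin (2 * c + 1))).image
      (fun i => ⟨i.val * (c + 1) + f i.val + 1, h1 i.val i.2⟩) with hT
    have hcard : T.card = 2 * c + 1 := by
      rw [hT, Finset.card_image_of_injective, Finset.card_univ, Fintype.card_fin]
      intro a b hab
      simp only [Fin.mk.injEq] at hab
      have ha := hf a.val a.2
      have hb := hf b.val b.2
      have e : a.val * (c + 1) + f a.val = b.val * (c + 1) + f b.val := by omega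
      have q1 : (a.val * (c + 1) + f a.val) / (c + 1) = a.val := by
        rw [mul_comm, Nat.mul_add_div (Nat.succ_pos c), Nat.div_eq_of_lt ha, add_zero]
      have q2 : (b.val * (c + 1) + f b.val) / (c + 1) = b.val := by
        rw [mul_comm, Nat.mul_add_div (Nat.succ_pos c), Nat.div_eq_of_lt hb, add_zero]
      apply Fin.ext
      rw [← q1, ← q2, e]
    have := few T (by
      intro n hn
      rw [hT, Finset.mem_image] at hn
      obtain ⟨i, -, rfl⟩ := hn
      exact ⟨by simp, h2 i.val i.2⟩)
    omega
  -- the block is a monochromatic path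
  have hb : ∀ j, j < c + 1 → i * (c + 1) + j + 1 < m + 1 := by
    intro j hj
    have : i * (c + 1) + (c + 1) ≤ (2 * c + 1) * (c + 1) := by
      have : (i + 1) * (c + 1) ≤ (2 * c + 1) * (c + 1) := Nat.mul_le_mul_right _ hi
      nlinarith
    omega
  have hcol : ∀ j (hj : j < c + 1), col (node κ g (i * (c + 1) + j + 1) (hb j hj)) =
      col (node κ g (i * (c + 1) + 0 + 1) (hb 0 (Nat.succ_pos c))) := by
    intro j hj
    exact third_col α γ _ _ hαγ (hblock j hj _) (hγ _ _ _) (hblock 0 (Nat.succ_pos c) _)
      (hγ _ _ _)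
  have hreach : ∀ j (hj : j < c + 1), (monoGraph (Gr K m N) col).Reachable
      (node κ g (i * (c + 1) + 0 + 1) (hb 0 (Nat.succ_pos c)))
      (node κ g (i * (c + 1) + j + 1) (hb j hj)) := by
    intro j
    induction j with
    | zero => intro hj; exact SimpleGraph.Reachable.refl _
    | succ j ih =>
      intro hj
      have hj' : j < c + 1 := by omega
      refine (ih hj').trans ?_
      apply SimpleGraph.Adj.reachable
      refine ⟨?_, (hcol j hj').trans (hcol (j + 1) hj).symm⟩
      exact adj_path κ g (i * (c + 1) + j + 1) (hb j hj') (hb (j + 1) hj) (by omega)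
  have := comp_card hc (node κ g (i * (c + 1) + 0 + 1) (hb 0 (Nat.succ_pos c)))
    ((Finset.univ : Finset (Fin (c + 1))).image (fun j =>
      (node κ g (i * (c + 1) + j.val + 1) (hb j.val j.2) : Vtx K m N))) (by
      intro w hw
      rw [Finset.mem_image] at hw
      obtain ⟨j, -, rfl⟩ := hw
      exact hreach j.val j.2)
  rw [Finset.card_image_of_injective, Finset.card_univ, Fintype.card_fin] at this
  · omega
  · intro a b hab
    have := (node_inj hab).2
    apply Fin.ext
    omega

/-- the main lower bound -/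
theorem no_col (hm : (2 * c + 1) * (c + 1) ≤ m) (hN : c + 1 ≤ N) {M : ℕ} (hM : 3 * c + 1 ≤ M)
    (col : Vtx (4 * M) m N → Fin 3) : ¬ HasClustering (Gr (4 * M) m N) col c := by
  intro hc
  -- the three apex vertices have the same colour
  have same : ∀ t : Fin 3, col (Sum.inl t) = col (Sum.inl (t + 1)) := by
    intro t
    by_contra hne
    -- a good copy
    obtain ⟨s, hs⟩ : ∃ s : Fin M, ∀ g n (r : Fin (N + 1)), 1 ≤ r.val →
        col (Sum.inr (⟨4 * s.val + t.val, by omega⟩, g, n, r)) ≠ col (Sum.inl t) ∧
        col (Sum.inr (⟨4 * s.val + t.val, by omega⟩, g, n, r)) ≠ col (Sum.inl (t + 1)) := by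
      by_contra hcon
      push Not at hcon
      choose g n r hr hcol using hcon
      classical
      set ℓ : Fin M → Vtx (4 * M) m N := fun s =>
        Sum.inr (⟨4 * s.val + t.val, by omega⟩, g s, n s, r s) with hℓ
      have hinj : Function.Injective ℓ := by
        intro a b hab
        simp only [hℓ, Sum.inr.injEq, Prod.mk.injEq, Fin.mk.injEq] at hab
        apply Fin.ext; omega
      have hmod : ∀ s : Fin M, (4 * s.val + t.val) % 4 = t.val := by intro s; omega
      have adj1 : ∀ s, (Gr (4 * M) m N).Adj (Sum.inl t) (ℓ s) := by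
        intro s
        rw [adj_iff]; left
        simp only [hℓ, rel, nap]
        right
        refine ⟨?_, hr s, Or.inl ?_⟩
        · rw [hmod]; exact t.2
        · rw [hmod]
      have adj2 : ∀ s, (Gr (4 * M) m N).Adj (Sum.inl (t + 1)) (ℓ s) := by
        intro s
        rw [adj_iff]; left
        simp only [hℓ, rel, nap]
        right
        refine ⟨?_, hr s, Or.inr ?_⟩
        · rw [hmod]; exact t.2
        · rw [hmod, Fin.val_add]; rfl
      have h1 := star_card hc (Sum.inl t)
        ((Finset.univ.filter (fun s => col (ℓ s) = col (Sum.inl t))).image ℓ) (by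
          intro w hw
          rw [Finset.mem_image] at hw
          obtain ⟨s, hs, rfl⟩ := hw
          exact ⟨adj1 s, (Finset.mem_filter.mp hs).2.symm⟩)
      have h2 := star_card hc (Sum.inl (t + 1))
        ((Finset.univ.filter (fun s => ¬ col (ℓ s) = col (Sum.inl t))).image ℓ) (by
          intro w hw
          rw [Finset.mem_image] at hw
          obtain ⟨s, hs, rfl⟩ := hw
          exact ⟨adj2 s, (hcol s (Finset.mem_filter.mp hs).2).symm⟩)
      rw [Finset.card_image_of_injective _ hinj] at h1 h2
      have h3 := Finset.card_filter_add_card_filter_not (s := (Finset.univ : Finset (Fin M)))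
        (fun s => col (ℓ s) = col (Sum.inl t))
      rw [Finset.card_univ, Fintype.card_fin] at h3
      omega
    -- the third colour
    have hN1 : 1 < N + 1 := by omega
    set κ : Fin (4 * M) := ⟨4 * s.val + t.val, by omega⟩ with hκ
    set γ := col (Sum.inr (κ, 0, 0, ⟨1, hN1⟩)) with hγ
    have hleaf : ∀ g n (r : Fin (N + 1)), 1 ≤ r.val → col (Sum.inr (κ, g, n, r)) = γ := by
      intro g n r hr
      exact third_col _ _ _ _ hne (hs g n r hr).1 (hs g n r hr).2 (hs 0 0 ⟨1, hN1⟩ le_rfl).1
        (hs 0 0 ⟨1, hN1⟩ le_rfl).2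
    refine copy_false hm hc κ γ ?_
    intro g n hn hcol
    classical
    have := star_card hc (node κ g n hn)
      ((Finset.univ : Finset (Fin N)).image (fun r =>
        (Sum.inr (κ, g, ⟨n, hn⟩, ⟨r.val + 1, by omega⟩) : Vtx (4 * M) m N))) (by
        intro w hw
        rw [Finset.mem_image] at hw
        obtain ⟨r, -, rfl⟩ := hw
        refine ⟨?_, ?_⟩
        · rw [adj_iff]; left
          simp only [node, rel, nrel]
          exact ⟨trivial, Or.inr ⟨trivial, trivial, rfl, by simp⟩⟩
        · rw [hcol]
          exact (hleaf g ⟨n, hn⟩ ⟨r.val + 1, by omega⟩ (by simp)).symm)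
    rw [Finset.card_image_of_injective, Finset.card_univ, Fintype.card_fin] at this
    · omega
    · intro a b hab
      simp only [Sum.inr.injEq, Prod.mk.injEq, Fin.mk.injEq] at hab
      apply Fin.ext; omega
  have s01 : col (Sum.inl 0) = col (Sum.inl 1) := same 0
  have s12 : col (Sum.inl 1) = col (Sum.inl 2) := same 1
  set α := col (Sum.inl 0) with hα
  have hall : ∀ t : Fin 3, col (Sum.inl t) = α := by
    intro t
    fin_cases t
    · rfl
    · exact s01.symm
    · exact (s01.trans s12).symm
  -- a copy of the last type avoiding α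
  obtain ⟨s, hs⟩ : ∃ s : Fin M, ∀ g n hn,
      col (node (⟨4 * s.val + 3, by omega⟩ : Fin (4 * M)) g n hn) ≠ α := by
    by_contra hcon
    push Not at hcon
    choose g n hn hcol using hcon
    classical
    set ℓ : Fin M → Vtx (4 * M) m N := fun s =>
      node (⟨4 * s.val + 3, by omega⟩ : Fin (4 * M)) (g s) (n s) (hn s) with hℓ
    have hinj : Function.Injective ℓ := by
      intro a b hab
      simp only [hℓ, node, Sum.inr.injEq, Prod.mk.injEq, Fin.mk.injEq] at hab
      apply Fin.ext; omega
    have hcls : ∀ s, ncls (g s).val (n s) < 3 := by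
      intro s
      have := (g s).2
      unfold ncls
      split_ifs <;> omega
    have adj1 : ∀ s (t : Fin 3), t.val = ncls (g s).val (n s) →
        (Gr (4 * M) m N).Adj (Sum.inl t) (ℓ s) := by
      intro s t ht
      rw [adj_iff]; left
      simp only [hℓ, node, rel, nap]
      left
      refine ⟨by omega, rfl, ht.symm⟩
    have hcount : ∀ t : Fin 3,
        (Finset.univ.filter (fun s : Fin M => ncls (g s).val (n s) = t.val)).card ≤ c := by
      intro t
      have h1 := star_card hc (Sum.inl t)
        ((Finset.univ.filter (fun s : Fin M => ncls (g s).val (n s) = t.val)).image ℓ) (by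
          intro w hw
          rw [Finset.mem_image] at hw
          obtain ⟨s, hs, rfl⟩ := hw
          exact ⟨adj1 s t (Finset.mem_filter.mp hs).2.symm, by rw [hall]; exact (hcol s).symm⟩)
      rwa [Finset.card_image_of_injective _ hinj] at h1
    have h0 := hcount 0
    have h1 := hcount 1
    have h2 := hcount 2
    have hsub : (Finset.univ : Finset (Fin M)) ⊆
        (Finset.univ.filter (fun s : Fin M => ncls (g s).val (n s) = (0 : Fin 3).val)) ∪
        ((Finset.univ.filter (fun s : Fin M => ncls (g s).val (n s) = (1 : Fin 3).val)) ∪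
        (Finset.univ.filter (fun s : Fin M => ncls (g s).val (n s) = (2 : Fin 3).val))) := by
      intro s _
      have := hcls s
      simp only [Finset.mem_union, Finset.mem_filter, Finset.mem_univ, true_and]
      have e0 : (0 : Fin 3).val = 0 := rfl
      have e1 : (1 : Fin 3).val = 1 := rfl
      have e2 : (2 : Fin 3).val = 2 := rfl
      rw [e0, e1, e2]
      omega
    have hsum := Finset.card_le_card hsub
    rw [Finset.card_univ, Fintype.card_fin] at hsum
    have u1 := Finset.card_union_le
      (Finset.univ.filter (fun s : Fin M => ncls (g s).val (n s) = (0 : Fin 3).val))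
      ((Finset.univ.filter (fun s : Fin M => ncls (g s).val (n s) = (1 : Fin 3).val)) ∪
        (Finset.univ.filter (fun s : Fin M => ncls (g s).val (n s) = (2 : Fin 3).val)))
    have u2 := Finset.card_union_le
      (Finset.univ.filter (fun s : Fin M => ncls (g s).val (n s) = (1 : Fin 3).val))
      (Finset.univ.filter (fun s : Fin M => ncls (g s).val (n s) = (2 : Fin 3).val))
    omega
  exact copy_false hm hc (⟨4 * s.val + 3, by omega⟩ : Fin (4 * M)) α hs

end Q150Clust
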