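import Pool.Agent.Q150.CrumDefs

namespace Q150.Crum

open MeasureTheory

lemma poly_zero4 (p4 p2 p1 p0 t1 t2 t3 t4 : ℝ) (h1 : 0 < t1) (h2 : 0 < t2) (h3 : 0 < t3)
    (h4 : 0 < t4) (h12 : t1 ≠ t2) (h13 : t1 ≠ t3) (h14 : t1 ≠ t4) (h23 : t2 ≠ t3)
    (h24 : t2 ≠ t4) (h34 : t3 ≠ t4)
    (e1 : p4 * t1 ^ 4 + p2 * t1 ^ 2 + p1 * t1 + p0 = 0)
    (e2 : p4 * t2 ^ 4 + p2 * t2 ^ 2 + p1 * t2 + p0 = 0)
    (e3 : p4 * t3 ^ 4 + p2 * t3 ^ 2 + p1 * t3 + p0 = 0)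
    (e4 : p4 * t4 ^ 4 + p2 * t4 ^ 2 + p1 * t4 + p0 = 0) :
    p4 = 0 ∧ p2 = 0 ∧ p1 = 0 ∧ p0 = 0 := by
  have d12 : p4 * (t1 ^ 3 + t1 ^ 2 * t2 + t1 * t2 ^ 2 + t2 ^ 3) + p2 * (t1 + t2) + p1 = 0 := by
    apply mul_left_cancel₀ (sub_ne_zero.2 h12)
    linear_combination e1 - e2
  have d13 : p4 * (t1 ^ 3 + t1 ^ 2 * t3 + t1 * t3 ^ 2 + t3 ^ 3) + p2 * (t1 + t3) + p1 = 0 := by
    apply mul_left_cancel₀ (sub_ne_zero.2 h13)
    linear_combination e1 - e3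
  have d14 : p4 * (t1 ^ 3 + t1 ^ 2 * t4 + t1 * t4 ^ 2 + t4 ^ 3) + p2 * (t1 + t4) + p1 = 0 := by
    apply mul_left_cancel₀ (sub_ne_zero.2 h14)
    linear_combination e1 - e4
  have d123 : p4 * (t1 ^ 2 + t2 ^ 2 + t3 ^ 2 + t1 * t2 + t1 * t3 + t2 * t3) + p2 = 0 := by
    apply mul_left_cancel₀ (sub_ne_zero.2 h23)
    linear_combination d12 - d13
  have d124 : p4 * (t1 ^ 2 + t2 ^ 2 + t4 ^ 2 + t1 * t2 + t1 * t4 + t2 * t4) + p2 = 0 := by
    apply mul_left_cancel₀ (sub_ne_zero.2 h24)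
    linear_combination d12 - d14
  have d : p4 * (t1 + t2 + t3 + t4) = 0 := by
    apply mul_left_cancel₀ (sub_ne_zero.2 h34)
    linear_combination d123 - d124
  have hp4 : p4 = 0 := by
    rcases mul_eq_zero.1 d with h | h
    · exact h
    · linarith
  subst hp4
  have hp2 : p2 = 0 := by linarith
  subst hp2
  have hp1 : p1 = 0 := by linarith
  subst hp1
  exact ⟨rfl, rfl, rfl, by linarith⟩

lemma poly_zero5 (p4 p2 p1 p0 t1 t2 t3 t4 t5 : ℝ) (h1 : 0 < t1) (h12 : t1 < t2) (h23 : t2 < t3)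
    (h34 : t3 < t4) (h45 : t4 < t5)
    (e1 : p4 * t1 ^ 4 + p2 * t1 ^ 2 + p1 * t1 + p0 ≤ 0)
    (e2 : p4 * t2 ^ 4 + p2 * t2 ^ 2 + p1 * t2 + p0 = 0)
    (e3 : p4 * t3 ^ 4 + p2 * t3 ^ 2 + p1 * t3 + p0 ≤ 0)
    (e4 : p4 * t4 ^ 4 + p2 * t4 ^ 2 + p1 * t4 + p0 = 0)
    (e5 : p4 * t5 ^ 4 + p2 * t5 ^ 2 + p1 * t5 + p0 ≤ 0) :
    p4 = 0 ∧ p2 = 0 ∧ p1 = 0 ∧ p0 = 0 := by
  have h24 : t2 - t4 ≠ 0 := by
    apply sub_ne_zero.2; exact (h23.trans h34).ne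
  have d24 : p4 * (t2 ^ 3 + t2 ^ 2 * t4 + t2 * t4 ^ 2 + t4 ^ 3) + p2 * (t2 + t4) + p1 = 0 := by
    apply mul_left_cancel₀ h24
    linear_combination e2 - e4
  -- factorization
  set q : ℝ := p2 + p4 * (t2 ^ 2 + t2 * t4 + t4 ^ 2) with hq
  have hp1 : p1 = -(p4 * (t2 ^ 3 + t2 ^ 2 * t4 + t2 * t4 ^ 2 + t4 ^ 3) + p2 * (t2 + t4)) := by
    linarith
  have hfac : ∀ t : ℝ, p4 * t ^ 4 + p2 * t ^ 2 + p1 * t + p0 =
      (t - t2) * (t - t4) * (p4 * (t ^ 2 + (t2 + t4) * t) + q) := by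
    intro t
    have h0 : p0 = -(p4 * t2 ^ 4 + p2 * t2 ^ 2 + p1 * t2) := by linarith
    rw [h0, hp1, hq]
    ring
  rw [hfac] at e1 e3 e5
  have r1 : p4 * (t1 ^ 2 + (t2 + t4) * t1) + q ≤ 0 := by
    have : 0 < (t1 - t2) * (t1 - t4) := mul_pos_of_neg_of_neg (by linarith) (by linarith)
    by_contra hc
    push Not at hc
    have := mul_pos this hc
    linarith
  have r3 : 0 ≤ p4 * (t3 ^ 2 + (t2 + t4) * t3) + q := by
    have : (t3 - t2) * (t3 - t4) < 0 := mul_neg_of_pos_of_neg (by linarith) (by linarith)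
    by_contra hc
    push Not at hc
    have := mul_pos_of_neg_of_neg this hc
    linarith
  have r5 : p4 * (t5 ^ 2 + (t2 + t4) * t5) + q ≤ 0 := by
    have : 0 < (t5 - t2) * (t5 - t4) := mul_pos (by linarith) (by linarith)
    by_contra hc
    push Not at hc
    have := mul_pos this hc
    linarith
  have m13 : t1 ^ 2 + (t2 + t4) * t1 < t3 ^ 2 + (t2 + t4) * t3 := by nlinarith
  have m35 : t3 ^ 2 + (t2 + t4) * t3 < t5 ^ 2 + (t2 + t4) * t5 := by nlinarith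
  have hp4 : p4 = 0 := by
    rcases lt_trichotomy p4 0 with h | h | h
    · exfalso
      have := mul_lt_mul_of_neg_left m13 h
      linarith
    · exact h
    · exfalso
      have := mul_lt_mul_of_pos_left m35 h
      linarith
  have hq0 : q = 0 := by
    rw [hp4] at r1 r3
    linarith
  have hp2 : p2 = 0 := by
    rw [hp4] at hq
    linarith
  have hp1' : p1 = 0 := by
    rw [hp4, hp2] at hp1
    linarith
  refine ⟨hp4, hp2, hp1', ?_⟩
  rw [hp4, hp2, hp1'] at e2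
  linarith

/-- the curve -/
noncomputable def cv (t : ℝ) : E3 :=
  !₂[2 * t / (1 + t ^ 2 + t ^ 4), 2 * t ^ 2 / (1 + t ^ 2 + t ^ 4),
    (t ^ 2 + t ^ 4 - 1) / (1 + t ^ 2 + t ^ 4)]

lemma Dpos (t : ℝ) : 0 < 1 + t ^ 2 + t ^ 4 := by positivity

lemma cv0 (t : ℝ) : cv t 0 = 2 * t / (1 + t ^ 2 + t ^ 4) := rfl
lemma cv1 (t : ℝ) : cv t 1 = 2 * t ^ 2 / (1 + t ^ 2 + t ^ 4) := rfl
lemma cv2 (t : ℝ) : cv t 2 = (t ^ 2 + t ^ 4 - 1) / (1 + t ^ 2 + t ^ 4) := rfl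

lemma cv_inj : Set.InjOn cv (Set.Ioi 0) := by
  intro t ht u hu h
  have h0 : cv t 0 = cv u 0 := by rw [h]
  have h1 : cv t 1 = cv u 1 := by rw [h]
  rw [cv0, cv0] at h0
  rw [cv1, cv1] at h1
  have ht' : (0 : ℝ) < t := ht
  have hu' : (0 : ℝ) < u := hu
  have a1 : 2 * t ^ 2 / (1 + t ^ 2 + t ^ 4) = t * (2 * t / (1 + t ^ 2 + t ^ 4)) := by ring
  have a2 : 2 * u ^ 2 / (1 + u ^ 2 + u ^ 4) = u * (2 * u / (1 + u ^ 2 + u ^ 4)) := by ring
  rw [a1, a2, h0] at h1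
  have : 0 < 2 * u / (1 + u ^ 2 + u ^ 4) := by positivity
  exact mul_right_cancel₀ this.ne' h1

lemma cv_cont : Continuous cv := by
  unfold cv
  have hD : ∀ t : ℝ, 1 + t ^ 2 + t ^ 4 ≠ 0 := fun t => (Dpos t).ne'
  apply (EuclideanSpace.equiv (Fin 3) ℝ).symm.continuous.comp
  rw [continuous_pi_iff]
  intro i
  fin_cases i
  · show Continuous (fun t : ℝ => 2 * t / (1 + t ^ 2 + t ^ 4))
    exact Continuous.div (by fun_prop) (by fun_prop) hD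
  · show Continuous (fun t : ℝ => 2 * t ^ 2 / (1 + t ^ 2 + t ^ 4))
    exact Continuous.div (by fun_prop) (by fun_prop) hD
  · show Continuous (fun t : ℝ => (t ^ 2 + t ^ 4 - 1) / (1 + t ^ 2 + t ^ 4))
    exact Continuous.div (by fun_prop) (by fun_prop) hD

lemma inner_cv (y : E3) (t : ℝ) : inner ℝ y (cv t) * (1 + t ^ 2 + t ^ 4) =
    2 * y 0 * t + 2 * y 1 * t ^ 2 + y 2 * (t ^ 2 + t ^ 4 - 1) := by
  have hD : (1 + t ^ 2 + t ^ 4) ≠ 0 := (Dpos t).ne'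
  rw [PiLp.inner_apply, Fin.sum_univ_three]
  simp only [cv0, cv1, cv2, RCLike.inner_apply, conj_trivial]
  field_simp

lemma norm_cv (t : ℝ) : ‖cv t‖ ^ 2 = 1 := by
  have hD : (1 + t ^ 2 + t ^ 4) ≠ 0 := (Dpos t).ne'
  rw [EuclideanSpace.norm_sq_eq, Fin.sum_univ_three, cv0, cv1, cv2]
  simp only [Real.norm_eq_abs, sq_abs]
  field_simp
  ring

lemma isTwisted : IsTwistedCurve (cv '' Set.Ioi 0) := by
  refine ⟨⟨Set.Ioi 0, cv, Set.ordConnected_Ioi, ⟨1, by simp, 2, by simp, by norm_num⟩,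
    cv_cont.continuousOn, cv_inj, rfl⟩, ?_⟩
  intro T hT hcard hcop
  -- a normal vector
  have hlt : Module.finrank ℝ (vectorSpan ℝ (T : Set E3)) ≤ 2 := by
    exact hcop.finrank_le_two
  have hne : (vectorSpan ℝ (T : Set E3)) ≠ ⊤ := by
    intro h
    rw [h, finrank_top, finrank_euclideanSpace_fin] at hlt
    omega
  have hne2 : (vectorSpan ℝ (T : Set E3))ᗮ ≠ ⊥ := by
    intro h
    exact hne ((Submodule.orthogonal_eq_bot_iff).1 h)
  obtain ⟨n, hn, hn0⟩ := (Submodule.ne_bot_iff _).1 hne2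
  obtain ⟨q1, q2, q3, q4, h12, h13, h14, h23, h24, h34, rfl⟩ := Finset.card_eq_four.1 hcard
  have hmem : ∀ q ∈ ({q1, q2, q3, q4} : Finset E3), ∃ t : ℝ, 0 < t ∧ cv t = q := by
    intro q hq
    obtain ⟨t, ht, h⟩ := hT (Finset.mem_coe.2 hq)
    exact ⟨t, ht, h⟩
  obtain ⟨t1, ht1, rfl⟩ := hmem q1 (by simp)
  obtain ⟨t2, ht2, rfl⟩ := hmem q2 (by simp)
  obtain ⟨t3, ht3, rfl⟩ := hmem q3 (by simp)
  obtain ⟨t4, ht4, rfl⟩ := hmem q4 (by simp)
  have hortho : ∀ p ∈ ({cv t1, cv t2, cv t3, cv t4} : Finset E3),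
      inner ℝ n p = inner ℝ n (cv t1) := by
    intro p hp
    have h1 : p -ᵥ cv t1 ∈ vectorSpan ℝ (({cv t1, cv t2, cv t3, cv t4} : Finset E3) : Set E3) :=
      vsub_mem_vectorSpan ℝ (Finset.mem_coe.2 hp) (Finset.mem_coe.2 (by simp))
    have h2 := (Submodule.mem_orthogonal' _ n).1 hn _ h1
    rw [vsub_eq_sub, inner_sub_right, sub_eq_zero] at h2
    exact h2
  set d : ℝ := inner ℝ n (cv t1) with hd
  have hpoly : ∀ t : ℝ, inner ℝ n (cv t) = d →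
      (n 2 - d) * t ^ 4 + (2 * n 1 + n 2 - d) * t ^ 2 + (2 * n 0) * t + (-n 2 - d) = 0 := by
    intro t ht
    have := inner_cv n t
    rw [ht] at this
    linear_combination -this
  have e1 := hpoly t1 rfl
  have e2 := hpoly t2 (hortho _ (by simp))
  have e3 := hpoly t3 (hortho _ (by simp))
  have e4 := hpoly t4 (hortho _ (by simp))
  obtain ⟨k4, k2, k1, k0⟩ := poly_zero4 _ _ _ _ t1 t2 t3 t4 ht1 ht2 ht3 ht4
    (fun h => h12 (by rw [h])) (fun h => h13 (by rw [h])) (fun h => h14 (by rw [h]))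
    (fun h => h23 (by rw [h])) (fun h => h24 (by rw [h])) (fun h => h34 (by rw [h])) e1 e2 e3 e4
  apply hn0
  ext i
  fin_cases i
  · show n 0 = 0; linarith
  · show n 1 = 0; linarith
  · show n 2 = 0; linarith

lemma closure_voronoi {S : Set E3} {x y z : E3} (hz : z ∈ S)
    (hy : y ∈ closure (voronoi S x)) : dist y x ≤ dist y z := by
  by_cases hzx : z = x
  · rw [hzx]
  have hcl : IsClosed {y : E3 | dist y x ≤ dist y z} :=
    isClosed_le (by fun_prop) (by fun_prop)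
  have hsub : voronoi S x ⊆ {y : E3 | dist y x ≤ dist y z} := fun w hw => (hw z hz hzx).le
  exact closure_minimal hsub hcl hy

lemma inner_of_dist {y : E3} {t u : ℝ} (h : dist y (cv t) ≤ dist y (cv u)) :
    inner ℝ y (cv u) ≤ inner ℝ y (cv t) := by
  have h1 : ‖y - cv t‖ ^ 2 ≤ ‖y - cv u‖ ^ 2 := by
    rw [← dist_eq_norm, ← dist_eq_norm]
    exact pow_le_pow_left₀ dist_nonneg h 2
  rw [norm_sub_sq_real, norm_sub_sq_real, norm_cv, norm_cv] at h1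
  linarith

lemma inter_sub {S : Set E3} {t : Fin 5 → ℝ} (ht0 : 0 < t 0) (hmono : StrictMono t)
    (hS : ∀ i, cv (t i) ∈ S) :
    closure (voronoi S (cv (t 1))) ∩ closure (voronoi S (cv (t 3))) ⊆ {0} := by
  rintro y ⟨h1, h3⟩
  have a1 := fun i => inner_of_dist (closure_voronoi (hS i) h1)
  have a3 := fun i => inner_of_dist (closure_voronoi (hS i) h3)
  have heq : inner ℝ y (cv (t 3)) = inner ℝ y (cv (t 1)) := le_antisymm (a1 3) (a3 1)
  set M : ℝ := inner ℝ y (cv (t 1)) with hM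
  have hpoly : ∀ s : ℝ, (y 2 - M) * s ^ 4 + (2 * y 1 + y 2 - M) * s ^ 2 + (2 * y 0) * s +
      (-y 2 - M) = (inner ℝ y (cv s) - M) * (1 + s ^ 2 + s ^ 4) := by
    intro s
    have := inner_cv y s
    linear_combination -this
  have hle : ∀ i, (y 2 - M) * (t i) ^ 4 + (2 * y 1 + y 2 - M) * (t i) ^ 2 + (2 * y 0) * (t i) +
      (-y 2 - M) ≤ 0 := by
    intro i
    rw [hpoly]
    exact mul_nonpos_of_nonpos_of_nonneg (by linarith [a1 i]) (Dpos _).le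
  have e2 : (y 2 - M) * (t 1) ^ 4 + (2 * y 1 + y 2 - M) * (t 1) ^ 2 + (2 * y 0) * (t 1) +
      (-y 2 - M) = 0 := by
    rw [hpoly, ← hM, sub_self, zero_mul]
  have e4 : (y 2 - M) * (t 3) ^ 4 + (2 * y 1 + y 2 - M) * (t 3) ^ 2 + (2 * y 0) * (t 3) +
      (-y 2 - M) = 0 := by
    rw [hpoly, heq, sub_self, zero_mul]
  obtain ⟨k4, k2, k1, k0⟩ := poly_zero5 _ _ _ _ (t 0) (t 1) (t 2) (t 3) (t 4) ht0
    (hmono (by decide)) (hmono (by decide)) (hmono (by decide)) (hmono (by decide))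
    (hle 0) e2 (hle 2) e4 (hle 4)
  rw [Set.mem_singleton_iff]
  ext i
  fin_cases i
  · show y 0 = 0; linarith
  · show y 1 = 0; linarith
  · show y 2 = 0; linarith

theorem main : ∃ Γ : Set E3, IsTwistedCurve Γ ∧ ∀ S ⊆ Γ, 5 ≤ S.encard →
    ∃ x ∈ S, ∃ x' ∈ S, x ≠ x' ∧
      closure (voronoi S x) ∩ closure (voronoi S x') ⊆ {0} ∧
      μH[2] (closure (voronoi S x) ∩ closure (voronoi S x')) = 0 := by
  refine ⟨cv '' Set.Ioi 0, isTwisted, ?_⟩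
  intro S hS hcard
  -- five parameters
  obtain ⟨T, hTS, hT⟩ := Set.exists_subset_encard_eq hcard
  obtain ⟨U, hU, hUT⟩ := Set.subset_image_iff.1 (hTS.trans hS)
  have hUcard : U.encard = 5 := by
    rw [← hT, ← hUT, (cv_inj.mono hU).encard_image]
  have hUfin : U.Finite := by
    apply Set.finite_of_encard_le_coe (k := 5)
    rw [hUcard]
    rfl
  obtain ⟨P, rfl⟩ := hUfin.exists_finset_coe
  have hP : P.card = 5 := by
    rw [Set.encard_coe_eq_coe_finsetCard] at hUcard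
    exact_mod_cast hUcard
  let t : Fin 5 → ℝ := P.orderEmbOfFin hP
  have hmono : StrictMono t := (P.orderEmbOfFin hP).strictMono
  have htP : ∀ i, t i ∈ P := fun i => P.orderEmbOfFin_mem hP i
  have htpos : ∀ i, 0 < t i := fun i => hU (htP i)
  have htS : ∀ i, cv (t i) ∈ S := fun i => hTS (hUT ▸ Set.mem_image_of_mem cv (htP i))
  have hsub := inter_sub (htpos 0) hmono htS
  refine ⟨cv (t 1), htS 1, cv (t 3), htS 3, ?_, hsub, ?_⟩
  · intro h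
    have := cv_inj (htpos 1) (htpos 3) h
    exact (hmono (by decide : (1 : Fin 5) < 3)).ne this
  · have h2 : NullSingletonClass (μH[2] : Measure E3) :=
      Measure.nullSingletonClass_hausdorff E3 (by norm_num)
    exact measure_mono_null hsub (h2.measure_singleton _)

end Q150.Crum
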