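import Mathlib

/-!
# Voronoi regions of points on twisted curves: definitions
-/

namespace Q150.Crum

/-- Euclidean three-space. -/
abbrev E3 : Type := EuclideanSpace ℝ (Fin 3)

/-- A curve: the image of a continuous injective map from a (nondegenerate) interval. -/
def IsCurve (Γ : Set E3) : Prop :=
  ∃ (I : Set ℝ) (c : ℝ → E3), I.OrdConnected ∧ I.Nontrivial ∧ ContinuousOn c I ∧
    Set.InjOn c I ∧ Γ = c '' I

/-- A curve is twisted if no four distinct points of it lie in a common plane. -/
def IsTwistedCurve (Γ : Set E3) : Prop :=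
  IsCurve Γ ∧ ∀ T : Finset E3, (T : Set E3) ⊆ Γ → T.card = 4 → ¬ Coplanar ℝ (T : Set E3)

/-- The Voronoi region of `x` with respect to `S`. -/
def voronoi (S : Set E3) (x : E3) : Set E3 :=
  {y | ∀ z ∈ S, z ≠ x → dist y x < dist y z}

end Q150.Crum
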