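import Mathlib

/-! Core combinatorics for (n_3) configurations with a vector representation. -/

namespace Q150DimN3

open Finset

/-- An `(n_3)` configuration together with a homogeneous coordinate vector for every point, such
that the points are not contained in the span of any four vectors. -/
structure Model (P : Type) [Fintype P] [DecidableEq P] (V : Type) [AddCommGroup V]
    [Module ℝ V] where
  lines : Finset (Finset P)
  card3 : ∀ L ∈ lines, L.card = 3
  deg3 : ∀ p, (lines.filter (fun L => p ∈ L)).card = 3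
  pair : ∀ p q, p ≠ q → ∀ L ∈ lines, ∀ L' ∈ lines, p ∈ L → q ∈ L → p ∈ L' → q ∈ L' → L = L'
  v : P → V
  ind : ∀ p q, p ≠ q → ∀ a b : ℝ, a • v p + b • v q = 0 → a = 0 ∧ b = 0
  dep : ∀ a b c, a ≠ b → a ≠ c → b ≠ c → ({a, b, c} : Finset P) ∈ lines →
    ∃ α β : ℝ, v c = α • v a + β • v b
  off : ∀ a b c s, a ≠ b → a ≠ c → b ≠ c → ({a, b, c} : Finset P) ∈ lines →
    s ≠ a → s ≠ b → s ≠ c → ∀ α β : ℝ, v s ≠ α • v a + β • v b
  big : ∀ u1 u2 u3 u4 : V, ∃ φ : V →ₗ[ℝ] ℝ, φ u1 = 0 ∧ φ u2 = 0 ∧ φ u3 = 0 ∧ φ u4 = 0 ∧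
    ∃ p, φ (v p) ≠ 0

namespace Model

variable {P : Type} [Fintype P] [DecidableEq P] {V : Type} [AddCommGroup V] [Module ℝ V]

/-- `T a b c`: the three distinct points `a`, `b`, `c` form a line. -/
def T (M : Model P V) (a b c : P) : Prop :=
  a ≠ b ∧ a ≠ c ∧ b ≠ c ∧ ({a, b, c} : Finset P) ∈ M.lines

variable {M : Model P V}

theorem T.s12 {a b c : P} (h : M.T a b c) : M.T b a c := by
  obtain ⟨h1, h2, h3, h4⟩ := h
  refine ⟨h1.symm, h3, h2, ?_⟩
  rwa [Finset.insert_comm]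

theorem T.s23 {a b c : P} (h : M.T a b c) : M.T a c b := by
  obtain ⟨h1, h2, h3, h4⟩ := h
  refine ⟨h2, h1, h3.symm, ?_⟩
  rwa [Finset.pair_comm]

theorem T.rot {a b c : P} (h : M.T a b c) : M.T b c a := h.s12.s23
theorem T.rot' {a b c : P} (h : M.T a b c) : M.T c a b := h.s23.s12
theorem T.rev {a b c : P} (h : M.T a b c) : M.T c b a := h.s12.s23.s12

theorem T.ne12 {a b c : P} (h : M.T a b c) : a ≠ b := h.1
theorem T.ne13 {a b c : P} (h : M.T a b c) : a ≠ c := h.2.1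
theorem T.ne23 {a b c : P} (h : M.T a b c) : b ≠ c := h.2.2.1

theorem T.uniq {a b c d : P} (h : M.T a b c) (h' : M.T a b d) : c = d := by
  have e := M.pair a b h.1 _ h.2.2.2 _ h'.2.2.2 (by simp) (by simp) (by simp) (by simp)
  have hc : c ∈ ({a, b, d} : Finset P) := by rw [← e]; simp
  simp only [Finset.mem_insert, Finset.mem_singleton] at hc
  rcases hc with hc | hc | hc
  · exact absurd hc.symm h.2.1
  · exact absurd hc.symm h.2.2.1
  · exact hc

/-- The three lines through a point. -/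
theorem nbr (M : Model P V) (x : P) : ∃ p p' q q' r r' : P, M.T x p p' ∧ M.T x q q' ∧
    M.T x r r' ∧ p ≠ q ∧ p ≠ q' ∧ p ≠ r ∧ p ≠ r' ∧ p' ≠ q ∧ p' ≠ q' ∧ p' ≠ r ∧ p' ≠ r' ∧
    q ≠ r ∧ q ≠ r' ∧ q' ≠ r ∧ q' ≠ r' ∧
    ∀ a b, M.T x a b → (a = p ∧ b = p') ∨ (a = p' ∧ b = p) ∨ (a = q ∧ b = q') ∨
      (a = q' ∧ b = q) ∨ (a = r ∧ b = r') ∨ (a = r' ∧ b = r) := by
  obtain ⟨L1, L2, L3, h12, h13, h23, hL⟩ := Finset.card_eq_three.mp (M.deg3 x)
  have key : ∀ L ∈ M.lines, x ∈ L → ∃ p p', M.T x p p' ∧ L = {x, p, p'} := by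
    intro L hL hx
    obtain ⟨a, b, c, hab, hac, hbc, rfl⟩ := Finset.card_eq_three.mp (M.card3 L hL)
    simp only [Finset.mem_insert, Finset.mem_singleton] at hx
    have hT : M.T a b c := ⟨hab, hac, hbc, hL⟩
    rcases hx with rfl | rfl | rfl
    · exact ⟨b, c, hT, rfl⟩
    · exact ⟨a, c, hT.s12, Finset.insert_comm _ _ _⟩
    · refine ⟨a, b, hT.rot', ?_⟩
      ext z; simp only [Finset.mem_insert, Finset.mem_singleton]; tauto
  have m1 : L1 ∈ M.lines.filter (fun L => x ∈ L) := by rw [hL]; simp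
  have m2 : L2 ∈ M.lines.filter (fun L => x ∈ L) := by rw [hL]; simp
  have m3 : L3 ∈ M.lines.filter (fun L => x ∈ L) := by rw [hL]; simp
  rw [Finset.mem_filter] at m1 m2 m3
  obtain ⟨p, p', hp, e1⟩ := key L1 m1.1 m1.2
  obtain ⟨q, q', hq, e2⟩ := key L2 m2.1 m2.2
  obtain ⟨r, r', hr, e3⟩ := key L3 m3.1 m3.2
  have sep : ∀ {a a' b b' : P} {L L' : Finset P}, M.T x a a' → M.T x b b' → L = {x, a, a'} →
      L' = {x, b, b'} → L ≠ L' → a ≠ b := by
    intro a a' b b' L L' ha hb eL eL' hne hab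
    subst hab
    have := ha.uniq hb
    subst this
    exact hne (eL.trans eL'.symm)
  have sw : ∀ {a b : P}, ({x, a, b} : Finset P) = {x, b, a} := by
    intro a b; rw [Finset.pair_comm]
  refine ⟨p, p', q, q', r, r', hp, hq, hr, sep hp hq e1 e2 h12, ?_, sep hp hr e1 e3 h13, ?_,
    ?_, ?_, ?_, ?_, sep hq hr e2 e3 h23, ?_, ?_, ?_, ?_⟩
  · exact sep hp hq.s23 e1 (e2.trans sw) h12
  · exact sep hp hr.s23 e1 (e3.trans sw) h13
  · exact sep hp.s23 hq (e1.trans sw) e2 h12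
  · exact sep hp.s23 hq.s23 (e1.trans sw) (e2.trans sw) h12
  · exact sep hp.s23 hr (e1.trans sw) e3 h13
  · exact sep hp.s23 hr.s23 (e1.trans sw) (e3.trans sw) h13
  · exact sep hq hr.s23 e2 (e3.trans sw) h23
  · exact sep hq.s23 hr (e2.trans sw) e3 h23
  · exact sep hq.s23 hr.s23 (e2.trans sw) (e3.trans sw) h23
  · intro a b hab
    have hm : ({x, a, b} : Finset P) ∈ M.lines.filter (fun L => x ∈ L) := by
      rw [Finset.mem_filter]; exact ⟨hab.2.2.2, by simp⟩
    rw [hL] at hm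
    simp only [Finset.mem_insert, Finset.mem_singleton] at hm
    have fin : ∀ {p p' : P}, M.T x p p' → ({x, a, b} : Finset P) = {x, p, p'} →
        (a = p ∧ b = p') ∨ (a = p' ∧ b = p) := by
      intro p p' hp e
      have ha : a ∈ ({x, p, p'} : Finset P) := by rw [← e]; simp
      have hb : b ∈ ({x, p, p'} : Finset P) := by rw [← e]; simp
      simp only [Finset.mem_insert, Finset.mem_singleton] at ha hb
      have h1 := hab.1
      have h2 := hab.2.1
      have h3 := hab.2.2.1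
      rcases ha with ha | ha | ha
      · exact absurd ha.symm h1
      · rcases hb with hb | hb | hb
        · exact absurd hb.symm h2
        · exact absurd (ha.trans hb.symm) h3
        · exact Or.inl ⟨ha, hb⟩
      · rcases hb with hb | hb | hb
        · exact absurd hb.symm h2
        · exact Or.inr ⟨ha, hb⟩
        · exact absurd (ha.trans hb.symm) h3
    rcases hm with hm | hm | hm
    · rcases fin hp (hm.trans e1) with h | h
      · exact Or.inl h
      · exact Or.inr (Or.inl h)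
    · rcases fin hq (hm.trans e2) with h | h
      · exact Or.inr (Or.inr (Or.inl h))
      · exact Or.inr (Or.inr (Or.inr (Or.inl h)))
    · rcases fin hr (hm.trans e3) with h | h
      · exact Or.inr (Or.inr (Or.inr (Or.inr (Or.inl h))))
      · exact Or.inr (Or.inr (Or.inr (Or.inr (Or.inr h))))

/-- zero set of a functional -/
noncomputable def Z (M : Model P V) (φ : V →ₗ[ℝ] ℝ) : Finset P := univ.filter (fun p => φ (M.v p) = 0)

/-- support of a functional -/
noncomputable def S (M : Model P V) (φ : V →ₗ[ℝ] ℝ) : Finset P := univ.filter (fun p => φ (M.v p) ≠ 0)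

theorem mem_Z {φ : V →ₗ[ℝ] ℝ} {p : P} : p ∈ M.Z φ ↔ φ (M.v p) = 0 := by simp [Z]
theorem mem_S {φ : V →ₗ[ℝ] ℝ} {p : P} : p ∈ M.S φ ↔ φ (M.v p) ≠ 0 := by simp [S]

theorem card_ZS (M : Model P V) (φ : V →ₗ[ℝ] ℝ) : (M.Z φ).card + (M.S φ).card =
    Fintype.card P := by
  have := Finset.card_filter_add_card_filter_not (s := (univ : Finset P))
    (fun p => φ (M.v p) = 0)
  simpa [Z, S] using this

theorem v_ne (M : Model P V) (hx : ∃ x y : P, x ≠ y) (p : P) : M.v p ≠ 0 := by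
  intro h
  obtain ⟨x, y, hxy⟩ := hx
  by_cases hp : p = x
  · have := M.ind p y (hp ▸ hxy) 1 0 (by simp [h])
    simp at this
  · have := M.ind p x hp 1 0 (by simp [h])
    simp at this

theorem T.dep {a b c : P} (h : M.T a b c) : ∃ α β : ℝ, α ≠ 0 ∧ β ≠ 0 ∧
    M.v c = α • M.v a + β • M.v b := by
  obtain ⟨α, β, e⟩ := M.dep a b c h.1 h.2.1 h.2.2.1 h.2.2.2
  refine ⟨α, β, ?_, ?_, e⟩
  · rintro rfl
    have := M.ind c b h.2.2.1.symm 1 (-β) (by rw [e]; simp)
    exact one_ne_zero this.1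
  · rintro rfl
    have := M.ind c a h.2.1.symm 1 (-α) (by rw [e]; simp)
    exact one_ne_zero this.1

theorem T.zero {a b c : P} (h : M.T a b c) {φ : V →ₗ[ℝ] ℝ} (ha : φ (M.v a) = 0)
    (hb : φ (M.v b) = 0) : φ (M.v c) = 0 := by
  obtain ⟨α, β, -, -, e⟩ := h.dep
  rw [e]; simp [ha, hb]

theorem T.off {a b c s : P} (h : M.T a b c) (h1 : s ≠ a) (h2 : s ≠ b) (h3 : s ≠ c) (α β : ℝ) :
    M.v s ≠ α • M.v a + β • M.v b :=
  M.off a b c s h.1 h.2.1 h.2.2.1 h.2.2.2 h1 h2 h3 α β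

/-- Around a point of the support: every one of the three lines has another support point. -/
theorem nbrS (M : Model P V) (φ : V →ₗ[ℝ] ℝ) (x : P) (hx : φ (M.v x) ≠ 0) :
    ∃ p p' q q' r r' : P, M.T x p p' ∧ M.T x q q' ∧
    M.T x r r' ∧ p ≠ q ∧ p ≠ q' ∧ p ≠ r ∧ p ≠ r' ∧ p' ≠ q ∧ p' ≠ q' ∧ p' ≠ r ∧ p' ≠ r' ∧
    q ≠ r ∧ q ≠ r' ∧ q' ≠ r ∧ q' ≠ r' ∧
    φ (M.v p) ≠ 0 ∧ φ (M.v q) ≠ 0 ∧ φ (M.v r) ≠ 0 ∧
    ∀ a b, M.T x a b → (a = p ∧ b = p') ∨ (a = p' ∧ b = p) ∨ (a = q ∧ b = q') ∨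
      (a = q' ∧ b = q) ∨ (a = r ∧ b = r') ∨ (a = r' ∧ b = r) := by
  obtain ⟨p, p', q, q', r, r', hp, hq, hr, h1, h2, h3, h4, h5, h6, h7, h8, h9, h10, h11, h12,
    hall⟩ := M.nbr x
  have key : ∀ {a b : P}, M.T x a b → φ (M.v a) ≠ 0 ∨ φ (M.v b) ≠ 0 := by
    intro a b hab
    by_contra hcon
    push Not at hcon
    exact hx (hab.rot.zero hcon.1 hcon.2)
  rcases key hp with kp | kp <;> rcases key hq with kq | kq <;> rcases key hr with kr | kr
  · exact ⟨p, p', q, q', r, r', hp, hq, hr, h1, h2, h3, h4, h5, h6, h7, h8, h9, h10, h11, h12,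
      kp, kq, kr, hall⟩
  · exact ⟨p, p', q, q', r', r, hp, hq, hr.s23, h1, h2, h4, h3, h5, h6, h8, h7, h10, h9, h12,
      h11, kp, kq, kr, fun a b hab => by have := hall a b hab; tauto⟩
  · exact ⟨p, p', q', q, r, r', hp, hq.s23, hr, h2, h1, h3, h4, h6, h5, h7, h8, h11, h12, h9,
      h10, kp, kq, kr, fun a b hab => by have := hall a b hab; tauto⟩
  · exact ⟨p, p', q', q, r', r, hp, hq.s23, hr.s23, h2, h1, h4, h3, h6, h5, h8, h7, h12, h11,
      h10, h9, kp, kq, kr, fun a b hab => by have := hall a b hab; tauto⟩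
  · exact ⟨p', p, q, q', r, r', hp.s23, hq, hr, h5, h6, h7, h8, h1, h2, h3, h4, h9, h10, h11, h12,
      kp, kq, kr, fun a b hab => by have := hall a b hab; tauto⟩
  · exact ⟨p', p, q, q', r', r, hp.s23, hq, hr.s23, h5, h6, h8, h7, h1, h2, h4, h3, h10, h9, h12,
      h11, kp, kq, kr, fun a b hab => by have := hall a b hab; tauto⟩
  · exact ⟨p', p, q', q, r, r', hp.s23, hq.s23, hr, h6, h5, h7, h8, h2, h1, h3, h4, h11, h12, h9,
      h10, kp, kq, kr, fun a b hab => by have := hall a b hab; tauto⟩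
  · exact ⟨p', p, q', q, r', r, hp.s23, hq.s23, hr.s23, h6, h5, h8, h7, h2, h1, h4, h3, h12, h11,
      h10, h9, kp, kq, kr, fun a b hab => by have := hall a b hab; tauto⟩

/-- every nonempty support has at least four points -/
theorem four_le (M : Model P V) (φ : V →ₗ[ℝ] ℝ) (x : P) (hx : φ (M.v x) ≠ 0) :
    4 ≤ (M.S φ).card := by
  obtain ⟨p, p', q, q', r, r', hp, hq, hr, h1, h2, h3, h4, h5, h6, h7, h8, h9, h10, h11, h12,
    kp, kq, kr, hall⟩ := M.nbrS φ x hx
  have hsub : ({x, p, q, r} : Finset P) ⊆ M.S φ := by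
    intro z hz
    simp only [Finset.mem_insert, Finset.mem_singleton] at hz
    rw [mem_S]
    rcases hz with rfl | rfl | rfl | rfl <;> assumption
  have hc : ({x, p, q, r} : Finset P).card = 4 := by
    rw [Finset.card_insert_of_notMem, Finset.card_insert_of_notMem, Finset.card_insert_of_notMem,
      Finset.card_singleton]
    · simpa using h9
    · simp only [Finset.mem_insert, Finset.mem_singleton, not_or]; exact ⟨h1, h3⟩
    · simp only [Finset.mem_insert, Finset.mem_singleton, not_or]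
      exact ⟨hp.ne12, hq.ne12, hr.ne12⟩
  calc 4 = ({x, p, q, r} : Finset P).card := hc.symm
    _ ≤ _ := Finset.card_le_card hsub

end Model

end Q150DimN3
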