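import Mathlib
import Pool.Agent.Q150.DimN3Core

namespace Q150DimN3

open Finset

namespace Model

variable {P : Type} [Fintype P] [DecidableEq P] {V : Type} [AddCommGroup V] [Module ℝ V]
variable {M : Model P V}

theorem sum_inter (M : Model P V) (A : Finset P) : ∑ L ∈ M.lines, (L ∩ A).card = 3 * A.card := by
  have h : ∀ L ∈ M.lines, (L ∩ A).card = ∑ p ∈ A, if p ∈ L then 1 else 0 := by
    intro L _
    rw [Finset.card_eq_sum_ones, ← Finset.sum_filter]
    congr 1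
    ext p; simp [and_comm]
  rw [Finset.sum_congr rfl h, Finset.sum_comm]
  have h2 : ∀ p ∈ A, (∑ L ∈ M.lines, if p ∈ L then 1 else 0) = 3 := by
    intro p _
    rw [← Finset.sum_filter, ← Finset.card_eq_sum_ones, M.deg3 p]
  rw [Finset.sum_congr rfl h2]
  simp [mul_comm]

theorem exists_T (M : Model P V) {L : Finset P} (hL : L ∈ M.lines) :
    ∃ a b c, M.T a b c ∧ L = {a, b, c} := by
  obtain ⟨a, b, c, hab, hac, hbc, rfl⟩ := Finset.card_eq_three.mp (M.card3 L hL)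
  exact ⟨a, b, c, ⟨hab, hac, hbc, hL⟩, rfl⟩

theorem exists_T_of_mem (M : Model P V) {L : Finset P} (hL : L ∈ M.lines) {x : P} (hx : x ∈ L) :
    ∃ b c, M.T x b c ∧ L = {x, b, c} := by
  obtain ⟨a, b, c, hT, rfl⟩ := M.exists_T hL
  simp only [Finset.mem_insert, Finset.mem_singleton] at hx
  rcases hx with rfl | rfl | rfl
  · exact ⟨b, c, hT, rfl⟩
  · exact ⟨a, c, hT.s12, Finset.insert_comm _ _ _⟩
  · refine ⟨a, b, hT.rot', ?_⟩
    ext z; simp only [Finset.mem_insert, Finset.mem_singleton]; tauto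

theorem inter_card (φ : V →ₗ[ℝ] ℝ) {L : Finset P} (hL : L ∈ M.lines) :
    (L ∩ M.S φ).card + (L ∩ M.Z φ).card = 3 := by
  rw [← M.card3 L hL, add_comm]
  have := Finset.card_filter_add_card_filter_not (s := L) (fun p => φ (M.v p) = 0)
  have e1 : L ∩ M.Z φ = L.filter (fun p => φ (M.v p) = 0) := by
    ext p; simp [mem_Z]
  have e2 : L ∩ M.S φ = L.filter (fun p => ¬ φ (M.v p) = 0) := by
    ext p; simp [mem_S]
  rw [e1, e2]; exact this

theorem inter_S_ne_one (φ : V →ₗ[ℝ] ℝ) {L : Finset P} (hL : L ∈ M.lines) :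
    (L ∩ M.S φ).card ≠ 1 := by
  intro h
  obtain ⟨x, hx⟩ := Finset.card_eq_one.mp h
  have hxL : x ∈ L ∩ M.S φ := by rw [hx]; simp
  rw [Finset.mem_inter, mem_S] at hxL
  obtain ⟨b, c, hT, rfl⟩ := M.exists_T_of_mem hL hxL.1
  have hb : φ (M.v b) = 0 := by
    by_contra hb
    have : b ∈ ({x, b, c} : Finset P) ∩ M.S φ := by rw [Finset.mem_inter, mem_S]; simp [hb]
    rw [hx, Finset.mem_singleton] at this
    exact hT.ne12 this.symm
  have hc : φ (M.v c) = 0 := by
    by_contra hc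
    have : c ∈ ({x, b, c} : Finset P) ∩ M.S φ := by rw [Finset.mem_inter, mem_S]; simp [hc]
    rw [hx, Finset.mem_singleton] at this
    exact hT.ne13 this.symm
  exact hxL.2 (hT.rot.zero hb hc)

/-- number of lines with exactly two / three / no support points -/
noncomputable def nA (M : Model P V) (φ : V →ₗ[ℝ] ℝ) : ℕ :=
  (M.lines.filter (fun L => (L ∩ M.S φ).card = 2)).card
noncomputable def nB (M : Model P V) (φ : V →ₗ[ℝ] ℝ) : ℕ :=
  (M.lines.filter (fun L => (L ∩ M.S φ).card = 3)).card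
noncomputable def nT (M : Model P V) (φ : V →ₗ[ℝ] ℝ) : ℕ :=
  (M.lines.filter (fun L => (L ∩ M.S φ).card = 0)).card

theorem count (M : Model P V) (φ : V →ₗ[ℝ] ℝ) :
    2 * M.nA φ + 3 * M.nB φ = 3 * (M.S φ).card ∧ M.nA φ + 3 * M.nT φ = 3 * (M.Z φ).card := by
  have hS := M.sum_inter (M.S φ)
  have hZ := M.sum_inter (M.Z φ)
  have val : ∀ L ∈ M.lines, ((L ∩ M.S φ).card = 0 ∧ (L ∩ M.Z φ).card = 3) ∨
      ((L ∩ M.S φ).card = 2 ∧ (L ∩ M.Z φ).card = 1) ∨
      ((L ∩ M.S φ).card = 3 ∧ (L ∩ M.Z φ).card = 0) := by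
    intro L hL
    have h1 := inter_card (M := M) φ hL
    have h2 := inter_S_ne_one (M := M) φ hL
    omega
  constructor
  · rw [← hS]
    have : ∀ L ∈ M.lines, (L ∩ M.S φ).card = 2 * (if (L ∩ M.S φ).card = 2 then 1 else 0) +
        3 * (if (L ∩ M.S φ).card = 3 then 1 else 0) := by
      intro L hL
      rcases val L hL with h | h | h <;> simp [h.1]
    rw [Finset.sum_congr rfl this, Finset.sum_add_distrib, ← Finset.mul_sum, ← Finset.mul_sum,
      ← Finset.sum_filter, ← Finset.sum_filter, ← Finset.card_eq_sum_ones,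
      ← Finset.card_eq_sum_ones]
    rfl
  · rw [← hZ]
    have : ∀ L ∈ M.lines, (L ∩ M.Z φ).card = (if (L ∩ M.S φ).card = 2 then 1 else 0) +
        3 * (if (L ∩ M.S φ).card = 0 then 1 else 0) := by
      intro L hL
      rcases val L hL with h | h | h <;> simp [h.1, h.2]
    rw [Finset.sum_congr rfl this, Finset.sum_add_distrib, ← Finset.mul_sum,
      ← Finset.sum_filter, ← Finset.sum_filter, ← Finset.card_eq_sum_ones,
      ← Finset.card_eq_sum_ones]
    rfl

/-- the lines counted by `nB` -/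
theorem mem_nB {φ : V →ₗ[ℝ] ℝ} {L : Finset P}
    (h : L ∈ M.lines.filter (fun L => (L ∩ M.S φ).card = 3)) : ∀ p ∈ L, φ (M.v p) ≠ 0 := by
  rw [Finset.mem_filter] at h
  intro p hp
  have e : L ∩ M.S φ = L := Finset.eq_of_subset_of_card_le Finset.inter_subset_left
    (by rw [h.2, M.card3 L h.1])
  have : p ∈ L ∩ M.S φ := by rw [e]; exact hp
  exact mem_S.mp (Finset.mem_inter.mp this).2

theorem mem_nT {φ : V →ₗ[ℝ] ℝ} {L : Finset P}
    (h : L ∈ M.lines.filter (fun L => (L ∩ M.S φ).card = 0)) : ∀ p ∈ L, φ (M.v p) = 0 := by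
  rw [Finset.mem_filter, Finset.card_eq_zero] at h
  intro p hp
  by_contra hne
  have : p ∈ L ∩ M.S φ := Finset.mem_inter.mpr ⟨hp, mem_S.mpr hne⟩
  rw [h.2] at this
  simp at this

theorem mem_nT_of {φ : V →ₗ[ℝ] ℝ} {L : Finset P} (hL : L ∈ M.lines)
    (h : ∀ p ∈ L, φ (M.v p) = 0) : L ∈ M.lines.filter (fun L => (L ∩ M.S φ).card = 0) := by
  rw [Finset.mem_filter, Finset.card_eq_zero]
  refine ⟨hL, ?_⟩
  rw [Finset.eq_empty_iff_forall_notMem]
  intro p hp
  rw [Finset.mem_inter, mem_S] at hp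
  exact hp.2 (h p hp.1)

theorem exists_B (φ : V →ₗ[ℝ] ℝ) (h : 1 ≤ M.nB φ) : ∃ a b c, M.T a b c ∧ φ (M.v a) ≠ 0 ∧
    φ (M.v b) ≠ 0 ∧ φ (M.v c) ≠ 0 := by
  obtain ⟨L, hL⟩ := Finset.card_pos.mp (Nat.lt_of_succ_le h)
  have hm := mem_nB hL
  rw [Finset.mem_filter] at hL
  obtain ⟨a, b, c, hT, rfl⟩ := M.exists_T hL.1
  exact ⟨a, b, c, hT, hm a (by simp), hm b (by simp), hm c (by simp)⟩

theorem nB_zero (φ : V →ₗ[ℝ] ℝ) (h : M.nB φ = 0) {a b c : P} (hT : M.T a b c)
    (ha : φ (M.v a) ≠ 0) (hb : φ (M.v b) ≠ 0) : φ (M.v c) = 0 := by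
  by_contra hc
  unfold nB at h
  rw [Finset.card_eq_zero] at h
  have : ({a, b, c} : Finset P) ∈ M.lines.filter (fun L => (L ∩ M.S φ).card = 3) := by
    rw [Finset.mem_filter]
    refine ⟨hT.2.2.2, ?_⟩
    have e : ({a, b, c} : Finset P) ∩ M.S φ = {a, b, c} := by
      rw [Finset.inter_eq_left]
      intro z hz
      simp only [Finset.mem_insert, Finset.mem_singleton] at hz
      rw [mem_S]
      rcases hz with rfl | rfl | rfl <;> assumption
    rw [e, M.card3 _ hT.2.2.2]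
  rw [h] at this
  simp at this

/-- if the zero set contains at least four lines there is one missing a given point -/
theorem exists_T4 (φ : V →ₗ[ℝ] ℝ) (x : P) (h : 4 ≤ M.nT φ) : ∃ a b c, M.T a b c ∧ x ≠ a ∧ x ≠ b ∧
    x ≠ c ∧ φ (M.v a) = 0 ∧ φ (M.v b) = 0 ∧ φ (M.v c) = 0 := by
  by_contra hcon
  push Not at hcon
  have hsub : M.lines.filter (fun L => (L ∩ M.S φ).card = 0) ⊆
      M.lines.filter (fun L => x ∈ L) := by
    intro L hL
    have hm := mem_nT hL
    rw [Finset.mem_filter] at hL ⊢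
    refine ⟨hL.1, ?_⟩
    by_contra hx
    obtain ⟨a, b, c, hT, rfl⟩ := M.exists_T hL.1
    simp only [Finset.mem_insert, Finset.mem_singleton, not_or] at hx
    exact hcon a b c hT hx.1 hx.2.1 hx.2.2 (hm a (by simp)) (hm b (by simp)) (hm c (by simp))
  have := Finset.card_le_card hsub
  rw [M.deg3 x] at this
  unfold nT at h
  omega

end Model

end Q150DimN3
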