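import Mathlib
import Pool.Agent.Q150.DimN3Count

namespace Q150DimN3

open Finset

namespace Model

variable {P : Type} [Fintype P] [DecidableEq P] {V : Type} [AddCommGroup V] [Module ℝ V]
variable {M : Model P V}

/-- the three lines through a point, packaged -/
structure Star (M : Model P V) (x p p' q q' r r' : P) : Prop where
  t1 : M.T x p p'
  t2 : M.T x q q'
  t3 : M.T x r r'
  n1 : p ≠ q
  n2 : p ≠ q'
  n3 : p ≠ r
  n4 : p ≠ r'
  n5 : p' ≠ q
  n6 : p' ≠ q'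
  n7 : p' ≠ r
  n8 : p' ≠ r'
  n9 : q ≠ r
  n10 : q ≠ r'
  n11 : q' ≠ r
  n12 : q' ≠ r'

theorem Star.sw12 {x p p' q q' r r' : P} (h : Star M x p p' q q' r r') :
    Star M x q q' p p' r r' :=
  ⟨h.t2, h.t1, h.t3, h.n1.symm, h.n5.symm, h.n9, h.n10, h.n2.symm, h.n6.symm, h.n11, h.n12,
    h.n3, h.n4, h.n7, h.n8⟩

theorem Star.sw23 {x p p' q q' r r' : P} (h : Star M x p p' q q' r r') :
    Star M x p p' r r' q q' :=
  ⟨h.t1, h.t3, h.t2, h.n3, h.n4, h.n1, h.n2, h.n7, h.n8, h.n5, h.n6, h.n9.symm, h.n11.symm,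
    h.n10.symm, h.n12.symm⟩

theorem Star.fl1 {x p p' q q' r r' : P} (h : Star M x p p' q q' r r') :
    Star M x p' p q q' r r' :=
  ⟨h.t1.s23, h.t2, h.t3, h.n5, h.n6, h.n7, h.n8, h.n1, h.n2, h.n3, h.n4, h.n9, h.n10, h.n11,
    h.n12⟩

theorem Star.sw13 {x p p' q q' r r' : P} (h : Star M x p p' q q' r r') :
    Star M x r r' q q' p p' := h.sw12.sw23.sw12

theorem Star.fl2 {x p p' q q' r r' : P} (h : Star M x p p' q q' r r') :
    Star M x p p' q' q r r' := h.sw12.fl1.sw12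

theorem Star.fl3 {x p p' q q' r r' : P} (h : Star M x p p' q q' r r') :
    Star M x p p' q q' r' r := h.sw13.fl1.sw13

theorem exists_star (M : Model P V) (x : P) : ∃ p p' q q' r r' : P, Star M x p p' q q' r r' := by
  obtain ⟨p, p', q, q', r, r', hp, hq, hr, h1, h2, h3, h4, h5, h6, h7, h8, h9, h10, h11, h12,
    -⟩ := M.nbr x
  exact ⟨p, p', q, q', r, r', hp, hq, hr, h1, h2, h3, h4, h5, h6, h7, h8, h9, h10, h11, h12⟩

theorem Star.all {x p p' q q' r r' : P} (h : Star M x p p' q q' r r') {a b : P}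
    (hab : M.T x a b) : (a = p ∧ b = p') ∨ (a = p' ∧ b = p) ∨ (a = q ∧ b = q') ∨
      (a = q' ∧ b = q) ∨ (a = r ∧ b = r') ∨ (a = r' ∧ b = r) := by
  have hsub : ({({x, p, p'} : Finset P), {x, q, q'}, {x, r, r'}} : Finset (Finset P)) ⊆
      M.lines.filter (fun L => x ∈ L) := by
    intro L hL
    simp only [Finset.mem_insert, Finset.mem_singleton] at hL
    rw [Finset.mem_filter]
    rcases hL with rfl | rfl | rfl
    · exact ⟨h.t1.2.2.2, by simp⟩
    · exact ⟨h.t2.2.2.2, by simp⟩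
    · exact ⟨h.t3.2.2.2, by simp⟩
  have ne : ∀ {a a' b b' : P}, x ≠ a → a ≠ b → a ≠ b' → ({x, a, a'} : Finset P) ≠ {x, b, b'} := by
    intro a a' b b' h1 h2 h3 e
    have : a ∈ ({x, b, b'} : Finset P) := by rw [← e]; simp
    simp only [Finset.mem_insert, Finset.mem_singleton] at this
    rcases this with h | h | h
    · exact h1 h.symm
    · exact h2 h
    · exact h3 h
  have hcard : ({({x, p, p'} : Finset P), {x, q, q'}, {x, r, r'}} : Finset (Finset P)).card = 3 := by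
    rw [Finset.card_eq_three]
    exact ⟨_, _, _, ne h.t1.ne12 h.n1 h.n2, ne h.t1.ne12 h.n3 h.n4, ne h.t2.ne12 h.n9 h.n10, rfl⟩
  have heq := Finset.eq_of_subset_of_card_le hsub (by rw [hcard, M.deg3 x])
  have hm : ({x, a, b} : Finset P) ∈ M.lines.filter (fun L => x ∈ L) := by
    rw [Finset.mem_filter]; exact ⟨hab.2.2.2, by simp⟩
  rw [← heq] at hm
  simp only [Finset.mem_insert, Finset.mem_singleton] at hm
  have fin : ∀ {p p' : P}, M.T x p p' → ({x, a, b} : Finset P) = {x, p, p'} →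
      (a = p ∧ b = p') ∨ (a = p' ∧ b = p) := by
    intro p p' hp e
    have ha : a ∈ ({x, p, p'} : Finset P) := by rw [← e]; simp
    have hb : b ∈ ({x, p, p'} : Finset P) := by rw [← e]; simp
    simp only [Finset.mem_insert, Finset.mem_singleton] at ha hb
    have h1 := hab.1
    have h2 := hab.2.1
    have h3 := hab.2.2.1
    rcases ha with ha | ha | ha
    · exact absurd ha.symm h1
    · rcases hb with hb | hb | hb
      · exact absurd hb.symm h2
      · exact absurd (ha.trans hb.symm) h3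
      · exact Or.inl ⟨ha, hb⟩
    · rcases hb with hb | hb | hb
      · exact absurd hb.symm h2
      · exact Or.inr ⟨ha, hb⟩
      · exact absurd (ha.trans hb.symm) h3
  rcases hm with hm | hm | hm
  · rcases fin h.t1 hm with h | h
    · exact Or.inl h
    · exact Or.inr (Or.inl h)
  · rcases fin h.t2 hm with h | h
    · exact Or.inr (Or.inr (Or.inl h))
    · exact Or.inr (Or.inr (Or.inr (Or.inl h)))
  · rcases fin h.t3 hm with h | h
    · exact Or.inr (Or.inr (Or.inr (Or.inr (Or.inl h))))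
    · exact Or.inr (Or.inr (Or.inr (Or.inr (Or.inr h))))

/-- around a support point every line has another support point -/
theorem exists_starS (M : Model P V) {φ : V →ₗ[ℝ] ℝ} {x : P} (hx : φ (M.v x) ≠ 0) :
    ∃ p p' q q' r r' : P, Star M x p p' q q' r r' ∧ φ (M.v p) ≠ 0 ∧ φ (M.v q) ≠ 0 ∧
      φ (M.v r) ≠ 0 := by
  obtain ⟨p, p', q, q', r, r', hp, hq, hr, h1, h2, h3, h4, h5, h6, h7, h8, h9, h10, h11, h12,
    a, b, c, -⟩ := M.nbrS φ x hx
  exact ⟨p, p', q, q', r, r', ⟨hp, hq, hr, h1, h2, h3, h4, h5, h6, h7, h8, h9, h10, h11, h12⟩,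
    a, b, c⟩

/-- a star from three lines through a point -/
theorem star_of {x p p' q q' r r' : P} (h1 : M.T x p p') (h2 : M.T x q q') (h3 : M.T x r r')
    (a1 : p ≠ q) (a2 : p ≠ q') (a3 : p ≠ r) (a4 : p ≠ r') (a5 : q ≠ r) (a6 : q ≠ r') :
    Star M x p p' q q' r r' := by
  have sep : ∀ {a a' b b' : P}, M.T x a a' → M.T x b b' → a ≠ b → a ≠ b' → a' ≠ b ∧ a' ≠ b' := by
    intro a a' b b' ha hb hne hne'
    constructor
    · rintro rfl
      exact hne' (ha.s23.uniq hb)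
    · rintro rfl
      exact hne (ha.s23.uniq hb.s23)
  exact ⟨h1, h2, h3, a1, a2, a3, a4, (sep h1 h2 a1 a2).1, (sep h1 h2 a1 a2).2,
    (sep h1 h3 a3 a4).1, (sep h1 h3 a3 a4).2, a5, a6, (sep h2 h3 a5 a6).1, (sep h2 h3 a5 a6).2⟩

/-- maximal zero sets -/
def Max (M : Model P V) (φ : V →ₗ[ℝ] ℝ) : Prop :=
  (∃ p, φ (M.v p) ≠ 0) ∧ ∀ ψ : V →ₗ[ℝ] ℝ, (∃ p, ψ (M.v p) ≠ 0) → (M.Z ψ).card ≤ (M.Z φ).card

theorem exists_max (M : Model P V) : ∃ φ, M.Max φ := by
  let s : Set ℕ := {k | ∃ φ : V →ₗ[ℝ] ℝ, (∃ p, φ (M.v p) ≠ 0) ∧ (M.Z φ).card = k}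
  have hne : s.Nonempty := by
    obtain ⟨φ, -, -, -, -, h⟩ := M.big 0 0 0 0
    exact ⟨_, φ, h, rfl⟩
  have hbd : BddAbove s := by
    refine ⟨Fintype.card P, ?_⟩
    rintro k ⟨φ, -, rfl⟩
    exact Finset.card_le_univ _
  obtain ⟨φ, h1, h2⟩ := Nat.sSup_mem hne hbd
  refine ⟨φ, h1, fun ψ hψ => ?_⟩
  rw [h2]
  exact le_csSup hbd ⟨ψ, hψ, rfl⟩

/-- residual functionals -/
theorem Max.res {φ : V →ₗ[ℝ] ℝ} (h : M.Max φ) (u1 u2 u3 : V) : ∃ ψ : V →ₗ[ℝ] ℝ,
    ψ u1 = 0 ∧ ψ u2 = 0 ∧ ψ u3 = 0 ∧ ∃ w, φ (M.v w) = 0 ∧ ψ (M.v w) ≠ 0 := by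
  obtain ⟨⟨x, hx⟩, hmax⟩ := h
  obtain ⟨ψ, h1, h2, h3, h4, hne⟩ := M.big u1 u2 u3 (M.v x)
  refine ⟨ψ, h1, h2, h3, ?_⟩
  by_contra hcon
  push Not at hcon
  have hsub : insert x (M.Z φ) ⊆ M.Z ψ := by
    intro z hz
    rw [Finset.mem_insert] at hz
    rcases hz with rfl | hz
    · exact mem_Z.mpr h4
    · exact mem_Z.mpr (hcon z (mem_Z.mp hz))
  have hx' : x ∉ M.Z φ := by rw [mem_Z]; exact hx
  have c1 := Finset.card_le_card hsub
  rw [Finset.card_insert_of_notMem hx'] at c1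
  have c2 := hmax ψ hne
  omega

/-- Cramer's rule -/
theorem cramer {x y e e' : V} {a1 b1 a2 b2 : ℝ} (hx : x = a1 • e + b1 • e')
    (hy : y = a2 • e + b2 • e') (hind : ∀ a b : ℝ, a • x + b • y = 0 → a = 0 ∧ b = 0) :
    (∃ s t : ℝ, e = s • x + t • y) ∧ ∃ s t : ℝ, e' = s • x + t • y := by
  have hD : a1 * b2 - a2 * b1 ≠ 0 := by
    intro hD
    have h1 := hind b2 (-b1) (by
      rw [hx, hy]
      have : b2 • (a1 • e + b1 • e') + (-b1) • (a2 • e + b2 • e') = (a1 * b2 - a2 * b1) • e := by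
        module
      rw [this, hD, zero_smul])
    have h2 := hind a2 (-a1) (by
      rw [hx, hy]
      have : a2 • (a1 • e + b1 • e') + (-a1) • (a2 • e + b2 • e') = -(a1 * b2 - a2 * b1) • e' := by
        module
      rw [this, hD]; simp)
    have hb2 : b2 = 0 := h1.1
    have hb1 : b1 = 0 := by linarith [h1.2]
    have ha2 : a2 = 0 := h2.1
    have ha1 : a1 = 0 := by linarith [h2.2]
    have := hind 1 0 (by rw [hx, ha1, hb1]; simp)
    exact one_ne_zero this.1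
  constructor
  · refine ⟨(a1 * b2 - a2 * b1)⁻¹ * b2, -((a1 * b2 - a2 * b1)⁻¹ * b1), ?_⟩
    have : ((a1 * b2 - a2 * b1)⁻¹ * b2) • x + (-((a1 * b2 - a2 * b1)⁻¹ * b1)) • y =
        ((a1 * b2 - a2 * b1)⁻¹ * (a1 * b2 - a2 * b1)) • e := by
      rw [hx, hy]; module
    rw [this, inv_mul_cancel₀ hD, one_smul]
  · refine ⟨-((a1 * b2 - a2 * b1)⁻¹ * a2), (a1 * b2 - a2 * b1)⁻¹ * a1, ?_⟩
    have : (-((a1 * b2 - a2 * b1)⁻¹ * a2)) • x + ((a1 * b2 - a2 * b1)⁻¹ * a1) • y =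
        ((a1 * b2 - a2 * b1)⁻¹ * (a1 * b2 - a2 * b1)) • e' := by
      rw [hx, hy]; module
    rw [this, inv_mul_cancel₀ hD, one_smul]

/-- Fano lemma: a complete quadrangle has non-collinear diagonal points. -/
theorem fano {A B C D X Y Z : P} (h1 : M.T A B X) (h2 : M.T C D X) (h3 : M.T A C Y)
    (h4 : M.T B D Y) (h5 : M.T A D Z) (h6 : M.T B C Z) (s t : ℝ)
    (hZ : M.v Z = s • M.v X + t • M.v Y) : False := by
  obtain ⟨a1, b1, ha1, hb1, e1⟩ := h1.dep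
  obtain ⟨c1, d1, hc1, hd1, e2⟩ := h2.dep
  obtain ⟨a2, c2, ha2, hc2, e3⟩ := h3.dep
  obtain ⟨b2, d2, hb2, hd2, e4⟩ := h4.dep
  obtain ⟨a3, d3, ha3, hd3, e5⟩ := h5.dep
  obtain ⟨b3, c3, hb3, hc3, e6⟩ := h6.dep
  have hAB := M.ind A B h1.ne12
  -- independence of A, B, C
  have hind : ∀ a b c : ℝ, a • M.v A + b • M.v B + c • M.v C = 0 → a = 0 ∧ b = 0 ∧ c = 0 := by
    intro a b c h
    have hc : c = 0 := by
      by_contra hc
      have hCX : C ≠ X := h2.ne13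
      have hCA : C ≠ A := h3.ne12.symm
      have hCB : C ≠ B := h6.ne12.symm
      refine h1.off hCA hCB hCX (-(c⁻¹ * a)) (-(c⁻¹ * b)) ?_
      have h' : c⁻¹ • (a • M.v A + b • M.v B + c • M.v C) = 0 := by rw [h, smul_zero]
      have : c⁻¹ • (a • M.v A + b • M.v B + c • M.v C) = (c⁻¹ * a) • M.v A + (c⁻¹ * b) • M.v B +
          (c⁻¹ * c) • M.v C := by module
      rw [this, inv_mul_cancel₀ hc, one_smul] at h'
      rw [neg_smul, neg_smul]
      have h'' := eq_neg_of_add_eq_zero_right h'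
      rw [h'']; abel
    subst hc
    rw [zero_smul, add_zero] at h
    have := hAB a b h
    exact ⟨this.1, this.2, rfl⟩
  -- D in terms of A, B, C
  have eD : M.v D = (d1⁻¹ * a1) • M.v A + (d1⁻¹ * b1) • M.v B + (-(d1⁻¹ * c1)) • M.v C := by
    have h' : d1⁻¹ • M.v X = d1⁻¹ • M.v X := rfl
    nth_rewrite 1 [e1] at h'
    rw [e2] at h'
    have h3' : d1⁻¹ • (c1 • M.v C + d1 • M.v D) = (d1⁻¹ * c1) • M.v C + (d1⁻¹ * d1) • M.v D := by
      module
    rw [h3', inv_mul_cancel₀ hd1, one_smul] at h'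
    have h4' : M.v D = d1⁻¹ • (a1 • M.v A + b1 • M.v B) - (d1⁻¹ * c1) • M.v C := by
      rw [h']; abel
    rw [h4']; module
  set a := d1⁻¹ * a1 with ha
  set b := d1⁻¹ * b1 with hb
  set c := -(d1⁻¹ * c1) with hc
  have hane : a ≠ 0 := mul_ne_zero (inv_ne_zero hd1) ha1
  have hbne : b ≠ 0 := mul_ne_zero (inv_ne_zero hd1) hb1
  have hcne : c ≠ 0 := neg_ne_zero.mpr (mul_ne_zero (inv_ne_zero hd1) hc1)
  -- Y
  have hY := hind (d2 * a - a2) (b2 + d2 * b) (d2 * c - c2) (by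
    have : (d2 * a - a2) • M.v A + (b2 + d2 * b) • M.v B + (d2 * c - c2) • M.v C =
      (b2 • M.v B + d2 • (a • M.v A + b • M.v B + c • M.v C)) - (a2 • M.v A + c2 • M.v C) := by
      module
    rw [this, ← eD, ← e4, ← e3, sub_self])
  have hZ' := hind (a3 + d3 * a) (d3 * b - b3) (d3 * c - c3) (by
    have : (a3 + d3 * a) • M.v A + (d3 * b - b3) • M.v B + (d3 * c - c3) • M.v C =
      (a3 • M.v A + d3 • (a • M.v A + b • M.v B + c • M.v C)) - (b3 • M.v B + c3 • M.v C) := by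
      module
    rw [this, ← eD, ← e5, ← e6, sub_self])
  have hX' := hind (a1 - d1 * a) (b1 - d1 * b) (- c1 - d1 * c) (by
    have : (a1 - d1 * a) • M.v A + (b1 - d1 * b) • M.v B + (- c1 - d1 * c) • M.v C =
      (a1 • M.v A + b1 • M.v B) - (c1 • M.v C + d1 • (a • M.v A + b • M.v B + c • M.v C)) := by
      module
    rw [this, ← eD, ← e2, ← e1, sub_self])
  have hF := hind (s * a1 + t * a2) (s * b1 - b3) (t * c2 - c3) (by
    have : (s * a1 + t * a2) • M.v A + (s * b1 - b3) • M.v B + (t * c2 - c3) • M.v C =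
      (s • (a1 • M.v A + b1 • M.v B) + t • (a2 • M.v A + c2 • M.v C)) -
        (b3 • M.v B + c3 • M.v C) := by
      module
    rw [this, ← e1, ← e3, ← e6, ← hZ, sub_self])
  obtain ⟨f1, f2, f3⟩ := hF
  obtain ⟨x1, x2, x3⟩ := hX'
  obtain ⟨y1, y2, y3⟩ := hY
  obtain ⟨z1, z2, z3⟩ := hZ'
  -- b: s * d1 * b = d3 * b ; c: t * d2 * c = d3 * c ; a: s*d1*a + t*d2*a = 0
  have k1 : (s * d1 - d3) * b = 0 := by linear_combination f2 - s * x2 - z2
  have k2 : (t * d2 - d3) * c = 0 := by linear_combination f3 + t * y3 - z3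
  have k3 : (s * d1 + t * d2) * a = 0 := by linear_combination f1 - s * x1 + t * y1
  have k1' : s * d1 - d3 = 0 := (mul_eq_zero.mp k1).resolve_right hbne
  have k2' : t * d2 - d3 = 0 := (mul_eq_zero.mp k2).resolve_right hcne
  have k3' : s * d1 + t * d2 = 0 := (mul_eq_zero.mp k3).resolve_right hane
  exact hd3 (by linarith)

end Model

end Q150DimN3
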