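import Mathlib
import Pool.Agent.Q150.DimN3Lin

namespace Q150DimN3

open Finset

namespace Model

variable {P : Type} [Fintype P] [DecidableEq P] {V : Type} [AddCommGroup V] [Module ℝ V]
variable {M : Model P V}

theorem Star.card7 {x p p' q q' r r' : P} (h : Star M x p p' q q' r r') :
    ({x, p, p', q, q', r, r'} : Finset P).card = 7 := by
  rw [Finset.card_insert_of_notMem, Finset.card_insert_of_notMem, Finset.card_insert_of_notMem,
    Finset.card_insert_of_notMem, Finset.card_insert_of_notMem, Finset.card_insert_of_notMem,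
    Finset.card_singleton]
  · simpa using h.t3.ne23
  · simp only [Finset.mem_insert, Finset.mem_singleton, not_or]; exact ⟨h.n11, h.n12⟩
  · simp only [Finset.mem_insert, Finset.mem_singleton, not_or]
    exact ⟨h.t2.ne23, h.n9, h.n10⟩
  · simp only [Finset.mem_insert, Finset.mem_singleton, not_or]
    exact ⟨h.n5, h.n6, h.n7, h.n8⟩
  · simp only [Finset.mem_insert, Finset.mem_singleton, not_or]
    exact ⟨h.t1.ne23, h.n1, h.n2, h.n3, h.n4⟩
  · simp only [Finset.mem_insert, Finset.mem_singleton, not_or]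
    exact ⟨h.t1.ne12, h.t1.ne13, h.t2.ne12, h.t2.ne13, h.t3.ne12, h.t3.ne13⟩

/-- An extra line inside the neighbourhood of `x`: functionals vanishing at `x`, `a`, `b` vanish
on the whole neighbourhood. -/
theorem extra {x a a' b b' c c' : P} (hT : M.T a b c) (hxc : x ≠ c)
    (ha : M.T x a a') (hb : M.T x b b') (hc : M.T x c c') :
    Star M x a a' b b' c c' ∧ ∀ φ : V →ₗ[ℝ] ℝ, φ (M.v x) = 0 → φ (M.v a) = 0 →
      φ (M.v b) = 0 → φ (M.v a') = 0 ∧ φ (M.v b') = 0 ∧ φ (M.v c) = 0 ∧ φ (M.v c') = 0 := by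
  have hst : Star M x a a' b b' c c' := by
    refine star_of ha hb hc hT.ne12 ?_ hT.ne13 ?_ hT.ne23 ?_
    · rintro rfl
      exact hxc (hb.rot.uniq hT.s12)
    · rintro rfl
      have : M.T a c b := hT.s23
      have h2 : M.T c a x := hc.rot
      have := this.s12.uniq h2
      exact hb.ne12 this.symm
    · rintro rfl
      have h1 : M.T b c a := hT.rot
      have h2 : M.T c b x := hc.rot
      have := h1.s12.uniq h2
      exact ha.ne12 this.symm
  refine ⟨hst, fun φ h1 h2 h3 => ?_⟩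
  have hc0 : φ (M.v c) = 0 := hT.zero h2 h3
  exact ⟨ha.zero h1 h2, hb.zero h1 h3, hc0, hc.zero h1 hc0⟩

/-- If `n ≤ 14` some nonzero functional vanishes at eight points. -/
theorem eight (M : Model P V) (hn : Fintype.card P ≤ 14) : ∃ φ : V →ₗ[ℝ] ℝ,
    (∃ p, φ (M.v p) ≠ 0) ∧ 8 ≤ (M.Z φ).card := by
  obtain ⟨φ0, -, -, -, -, x, -⟩ := M.big 0 0 0 0
  obtain ⟨p, p', q, q', r, r', hs⟩ := M.exists_star x
  obtain ⟨φ, hx, hp, hq, hr, hne⟩ := M.big (M.v x) (M.v p) (M.v q) (M.v r)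
  by_cases h8 : 8 ≤ (M.Z φ).card
  · exact ⟨φ, hne, h8⟩
  have hsub : ({x, p, p', q, q', r, r'} : Finset P) ⊆ M.Z φ := by
    intro z hz
    simp only [Finset.mem_insert, Finset.mem_singleton] at hz
    rw [mem_Z]
    rcases hz with rfl | rfl | rfl | rfl | rfl | rfl | rfl
    · exact hx
    · exact hp
    · exact hs.t1.zero hx hp
    · exact hq
    · exact hs.t2.zero hx hq
    · exact hr
    · exact hs.t3.zero hx hr
  have heq := Finset.eq_of_subset_of_card_le hsub (by rw [hs.card7]; omega)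
  have hZ7 : (M.Z φ).card = 7 := by rw [← heq, hs.card7]
  have hcard := M.card_ZS φ
  obtain ⟨c1, c2⟩ := M.count φ
  have ht : 4 ≤ M.nT φ := by omega
  obtain ⟨a, b, c, hT, xa, xb, xc, ha, hb, hc⟩ := M.exists_T4 φ x ht
  have mem : ∀ z, φ (M.v z) = 0 → x ≠ z → ∃ z', M.T x z z' := by
    intro z hz hxz
    have : z ∈ ({x, p, p', q, q', r, r'} : Finset P) := by rw [heq]; exact mem_Z.mpr hz
    simp only [Finset.mem_insert, Finset.mem_singleton] at this
    rcases this with rfl | rfl | rfl | rfl | rfl | rfl | rfl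
    · exact absurd rfl hxz
    · exact ⟨_, hs.t1⟩
    · exact ⟨_, hs.t1.s23⟩
    · exact ⟨_, hs.t2⟩
    · exact ⟨_, hs.t2.s23⟩
    · exact ⟨_, hs.t3⟩
    · exact ⟨_, hs.t3.s23⟩
  obtain ⟨a', ha'⟩ := mem a ha xa
  obtain ⟨b', hb'⟩ := mem b hb xb
  obtain ⟨c', hc'⟩ := mem c hc xc
  obtain ⟨hst, hall⟩ := extra hT xc ha' hb' hc'
  obtain ⟨y, hy⟩ := hne
  obtain ⟨ψ, k1, k2, k3, k4, kne⟩ := M.big (M.v x) (M.v a) (M.v b) (M.v y)
  refine ⟨ψ, kne, ?_⟩
  obtain ⟨l1, l2, l3, l4⟩ := hall ψ k1 k2 k3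
  have hsub2 : insert y (M.Z φ) ⊆ M.Z ψ := by
    intro z hz
    rw [Finset.mem_insert] at hz
    rcases hz with rfl | hz
    · exact mem_Z.mpr k4
    · by_cases hxz : x = z
      · subst hxz; exact mem_Z.mpr k1
      obtain ⟨z', hz'⟩ := mem z (mem_Z.mp hz) hxz
      rw [mem_Z]
      rcases hst.all hz' with h | h | h | h | h | h
      · rw [h.1]; exact k2
      · rw [h.1]; exact l1
      · rw [h.1]; exact k3
      · rw [h.1]; exact l2
      · rw [h.1]; exact l3
      · rw [h.1]; exact l4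
  have := Finset.card_le_card hsub2
  rw [Finset.card_insert_of_notMem (by rw [mem_Z]; exact hy), hZ7] at this
  exact this

/-- membership in the plane spanned by two vectors -/
def In (M : Model P V) (u u' : V) (w : P) : Prop := ∃ α β : ℝ, M.v w = α • u + β • u'

theorem In.zero {u u' : V} {w : P} (h : M.In u u' w) {φ : V →ₗ[ℝ] ℝ} (h1 : φ u = 0)
    (h2 : φ u' = 0) : φ (M.v w) = 0 := by
  obtain ⟨α, β, e⟩ := h
  rw [e]; simp [h1, h2]

theorem In.line {u u' : V} {a b c : P} (ha : M.In u u' a) (hb : M.In u u' b) (h : M.T a b c) :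
    M.In u u' c := by
  obtain ⟨α, β, -, -, e⟩ := h.dep
  obtain ⟨a1, a2, ea⟩ := ha
  obtain ⟨b1, b2, eb⟩ := hb
  refine ⟨α * a1 + β * b1, α * a2 + β * b2, ?_⟩
  rw [e, ea, eb]; module

end Model

end Q150DimN3
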