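import Mathlib
import Pool.Agent.Q150.DimN3Step

namespace Q150DimN3

open Finset

namespace Model

variable {P : Type} [Fintype P] [DecidableEq P] {V : Type} [AddCommGroup V] [Module ℝ V]
variable {M : Model P V}

theorem le_card_of_list {s : Finset P} (l : List P) (hn : l.Nodup) (h : ∀ x ∈ l, x ∈ s) :
    l.length ≤ s.card := by
  rw [← List.toFinset_card_of_nodup hn]
  apply Finset.card_le_card
  intro x hx
  exact h x (List.mem_toFinset.mp hx)

theorem wstar {φ : V →ₗ[ℝ] ℝ} (hφ : M.Max φ) (u1 u2 : V)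
    (hW : ∀ w a b, φ (M.v w) = 0 → ¬ M.In u1 u2 w → M.T w a b → φ (M.v a) = 0)
    (W : Finset P) (hWd : ∀ w, w ∈ W ↔ φ (M.v w) = 0 ∧ ¬ M.In u1 u2 w) (h6 : W.card ≤ 6)
    (w : P) (hw : w ∈ W) :
    ∃ p p' q q' r r', Star M w p p' q q' r r' ∧
      (∀ z, z ∈ W ↔ z = w ∨ z = p ∨ z = p' ∨ z = q ∨ z = q' ∨ z = r) ∧ r' ∉ W := by
  obtain ⟨ψ, h1, h2, h3, w1, hw1, hne⟩ := hφ.res u1 u2 (M.v w)
  have hinW : ∀ z, φ (M.v z) = 0 → ψ (M.v z) ≠ 0 → z ∈ W := by
    intro z hz hz'
    exact (hWd z).mpr ⟨hz, fun hin => hz' (hin.zero h1 h2)⟩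
  have hw1W : w1 ∈ W := hinW w1 hw1 hne
  set S' := W.filter (fun z => ψ (M.v z) ≠ 0) with hS'
  have hS4 : 4 ≤ S'.card := by
    obtain ⟨p, p', q, q', r, r', hs, kp, kq, kr⟩ := M.exists_starS hne
    obtain ⟨f1, f2⟩ := (hWd w1).mp hw1W
    have fp := hW w1 p p' f1 f2 hs.t1
    have fq := hW w1 q q' f1 f2 hs.t2
    have fr := hW w1 r r' f1 f2 hs.t3
    have := le_card_of_list (s := S') [w1, p, q, r] (by
      have := hs.t1.ne12; have := hs.t2.ne12; have := hs.t3.ne12
      have := hs.n1; have := hs.n3; have := hs.n9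
      grind) (by
      intro x hx
      simp only [List.mem_cons, List.not_mem_nil, or_false] at hx
      rw [hS', Finset.mem_filter]
      rcases hx with rfl | rfl | rfl | rfl
      · exact ⟨hw1W, hne⟩
      · exact ⟨hinW _ fp kp, kp⟩
      · exact ⟨hinW _ fq kq, kq⟩
      · exact ⟨hinW _ fr kr, kr⟩)
    simpa using this
  obtain ⟨fw1, fw2⟩ := (hWd w).mp hw
  -- lines through w
  have lphi : ∀ {a a' : P}, M.T w a a' → φ (M.v a) = 0 := fun h => hW w _ _ fw1 fw2 h
  have lnz : ∀ {a a' : P}, M.T w a a' → ψ (M.v a) ≠ 0 → a ∈ W ∧ a' ∈ W := by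
    intro a a' h hne
    refine ⟨hinW a (lphi h) hne, hinW a' (lphi h.s23) ?_⟩
    intro h0
    exact hne (h.s23.zero h3 h0)
  have lz : ∀ {a a' : P}, M.T w a a' → a ∈ W ∨ a' ∈ W := by
    intro a a' h
    by_contra hcon
    push Not at hcon
    have ia : M.In u1 u2 a := by
      by_contra hh; exact hcon.1 ((hWd a).mpr ⟨lphi h, hh⟩)
    have ia' : M.In u1 u2 a' := by
      by_contra hh; exact hcon.2 ((hWd a').mpr ⟨lphi h.s23, hh⟩)
    exact fw2 (ia.line ia' h.rot)
  have two : ∀ {a a' b b' : P}, M.T w a a' → M.T w b b' → a ≠ b → a ≠ b' → a' ≠ b → a' ≠ b' →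
      ψ (M.v a) = 0 → ψ (M.v b) = 0 → False := by
    intro a a' b b' ha hb n1 n2 n3 n4 za zb
    have za' : ψ (M.v a') = 0 := ha.zero h3 za
    have zb' : ψ (M.v b') = 0 := hb.zero h3 zb
    have aux : ∀ z1 z2 : P, z1 ∈ W → z2 ∈ W → z1 ≠ z2 → w ≠ z1 → w ≠ z2 →
        ψ (M.v z1) = 0 → ψ (M.v z2) = 0 → False := by
      intro z1 z2 m1 m2 hn k1 k2 o1 o2
      have hsub : S' ⊆ W \ {w, z1, z2} := by
        intro z hz
        rw [hS', Finset.mem_filter] at hz
        rw [Finset.mem_sdiff]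
        refine ⟨hz.1, ?_⟩
        intro hz'
        simp only [Finset.mem_insert, Finset.mem_singleton] at hz'
        rcases hz' with rfl | rfl | rfl
        · exact hz.2 h3
        · exact hz.2 o1
        · exact hz.2 o2
      have hc := Finset.card_le_card hsub
      have hs3 : ({w, z1, z2} : Finset P) ⊆ W := by
        intro z hz
        simp only [Finset.mem_insert, Finset.mem_singleton] at hz
        rcases hz with rfl | rfl | rfl <;> assumption
      rw [Finset.card_sdiff_of_subset hs3] at hc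
      have h3c : ({w, z1, z2} : Finset P).card = 3 := by
        rw [Finset.card_eq_three]; exact ⟨w, z1, z2, k1, k2, hn, rfl⟩
      omega
    rcases lz ha with ma | ma <;> rcases lz hb with mb | mb
    · exact aux a b ma mb n1 ha.ne12 hb.ne12 za zb
    · exact aux a b' ma mb n2 ha.ne12 hb.ne13 za zb'
    · exact aux a' b ma mb n3 ha.ne13 hb.ne12 za' zb
    · exact aux a' b' ma mb n4 ha.ne13 hb.ne13 za' zb'
  have fin : ∀ {p p' q q' r r' : P}, Star M w p p' q q' r r' → ψ (M.v p) ≠ 0 →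
      ψ (M.v q) ≠ 0 → r ∈ W → ∃ p p' q q' r r', Star M w p p' q q' r r' ∧
      (∀ z, z ∈ W ↔ z = w ∨ z = p ∨ z = p' ∨ z = q ∨ z = q' ∨ z = r) ∧ r' ∉ W := by
    intro p p' q q' r r' hs hp hq hr
    have mp := lnz hs.t1 hp
    have mq := lnz hs.t2 hq
    have hsub : ({w, p, p', q, q', r} : Finset P) ⊆ W := by
      intro z hz
      simp only [Finset.mem_insert, Finset.mem_singleton] at hz
      rcases hz with rfl | rfl | rfl | rfl | rfl | rfl
      · exact hw
      · exact mp.1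
      · exact mp.2
      · exact mq.1
      · exact mq.2
      · exact hr
    have hc6 : ({w, p, p', q, q', r} : Finset P).card = 6 := by
      rw [Finset.card_insert_of_notMem, Finset.card_insert_of_notMem,
        Finset.card_insert_of_notMem, Finset.card_insert_of_notMem,
        Finset.card_insert_of_notMem, Finset.card_singleton]
      · simpa using hs.n11
      · simp only [Finset.mem_insert, Finset.mem_singleton, not_or]
        exact ⟨hs.t2.ne23, hs.n9⟩
      · simp only [Finset.mem_insert, Finset.mem_singleton, not_or]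
        exact ⟨hs.n5, hs.n6, hs.n7⟩
      · simp only [Finset.mem_insert, Finset.mem_singleton, not_or]
        exact ⟨hs.t1.ne23, hs.n1, hs.n2, hs.n3⟩
      · simp only [Finset.mem_insert, Finset.mem_singleton, not_or]
        exact ⟨hs.t1.ne12, hs.t1.ne13, hs.t2.ne12, hs.t2.ne13, hs.t3.ne12⟩
    have heq := Finset.eq_of_subset_of_card_le hsub (by rw [hc6]; exact h6)
    have hmem : ∀ z, z ∈ W ↔ z = w ∨ z = p ∨ z = p' ∨ z = q ∨ z = q' ∨ z = r := by
      intro z
      rw [← heq]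
      simp only [Finset.mem_insert, Finset.mem_singleton]
    refine ⟨p, p', q, q', r, r', hs, hmem, ?_⟩
    rw [hmem]
    rintro (h | h | h | h | h | h)
    · exact hs.t3.ne13 h.symm
    · exact hs.n4 h.symm
    · exact hs.n8 h.symm
    · exact hs.n10 h.symm
    · exact hs.n12 h.symm
    · exact hs.t3.ne23 h.symm
  have fin' : ∀ {p p' q q' r r' : P}, Star M w p p' q q' r r' → ψ (M.v p) ≠ 0 →
      ψ (M.v q) ≠ 0 → ∃ p p' q q' r r', Star M w p p' q q' r r' ∧
      (∀ z, z ∈ W ↔ z = w ∨ z = p ∨ z = p' ∨ z = q ∨ z = q' ∨ z = r) ∧ r' ∉ W := by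
    intro p p' q q' r r' hs hp hq
    rcases lz hs.t3 with h | h
    · exact fin hs hp hq h
    · exact fin hs.fl3 hp hq h
  obtain ⟨p, p', q, q', r, r', hs⟩ := M.exists_star w
  by_cases zp : ψ (M.v p) = 0
  · by_cases zq : ψ (M.v q) = 0
    · exact (two hs.t1 hs.t2 hs.n1 hs.n2 hs.n5 hs.n6 zp zq).elim
    · by_cases zr : ψ (M.v r) = 0
      · exact (two hs.t1 hs.t3 hs.n3 hs.n4 hs.n7 hs.n8 zp zr).elim
      · exact fin' hs.sw13 zr zq
  · by_cases zq : ψ (M.v q) = 0
    · by_cases zr : ψ (M.v r) = 0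
      · exact (two hs.t2 hs.t3 hs.n9 hs.n10 hs.n11 hs.n12 zq zr).elim
      · exact fin' hs.sw23 zp zr
    · exact fin' hs zp zq

theorem wlemma {φ : V →ₗ[ℝ] ℝ} (hφ : M.Max φ) (u1 u2 : V)
    (hW : ∀ w a b, φ (M.v w) = 0 → ¬ M.In u1 u2 w → M.T w a b → φ (M.v a) = 0)
    (W : Finset P) (hWd : ∀ w, w ∈ W ↔ φ (M.v w) = 0 ∧ ¬ M.In u1 u2 w) : 7 ≤ W.card := by
  by_contra hlt
  have h6 : W.card ≤ 6 := by omega
  have hstar := wstar hφ u1 u2 hW W hWd h6
  -- partner facts
  have puniq : ∀ {a b c b' c' : P}, M.T a b c → M.T a b' c' → a ∈ W → b ∈ W → c ∉ W →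
      b' ∈ W → c' ∉ W → b = b' := by
    intro a b c b' c' h h' ha hb hc hb' hc'
    obtain ⟨p, p', q, q', r, r', hs, hmem, hr'⟩ := hstar a ha
    have key : ∀ {b c : P}, M.T a b c → b ∈ W → c ∉ W → b = r := by
      intro b c h hb hc
      rcases hs.all h with e | e | e | e | e | e
      · exact absurd ((hmem c).mpr (by tauto)) hc
      · exact absurd ((hmem c).mpr (by tauto)) hc
      · exact absurd ((hmem c).mpr (by tauto)) hc
      · exact absurd ((hmem c).mpr (by tauto)) hc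
      · exact e.1
      · exact absurd (e.1 ▸ hb) hr'
    rw [key h hb hc, key h' hb' hc']
  have pex : ∀ {a : P}, a ∈ W → ∃ b c, M.T a b c ∧ b ∈ W ∧ c ∉ W := by
    intro a ha
    obtain ⟨p, p', q, q', r, r', hs, hmem, hr'⟩ := hstar a ha
    exact ⟨r, r', hs.t3, (hmem r).mpr (by tauto), hr'⟩
  have pcov : ∀ {a b c z : P}, M.T a b c → a ∈ W → b ∈ W → c ∉ W → z ∈ W → z ≠ a → z ≠ b →
      ∃ e, e ∈ W ∧ M.T a z e := by
    intro a b c z h ha hb hc hz hza hzb
    obtain ⟨p, p', q, q', r, r', hs, hmem, hr'⟩ := hstar a ha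
    have hbr : b = r := by
      rcases hs.all h with e | e | e | e | e | e
      · exact absurd ((hmem c).mpr (by tauto)) hc
      · exact absurd ((hmem c).mpr (by tauto)) hc
      · exact absurd ((hmem c).mpr (by tauto)) hc
      · exact absurd ((hmem c).mpr (by tauto)) hc
      · exact e.1
      · exact absurd (e.1 ▸ hb) hr'
    rcases (hmem z).mp hz with e | e | e | e | e | e
    · exact absurd e hza
    · exact ⟨p', (hmem p').mpr (by tauto), e ▸ hs.t1⟩
    · exact ⟨p, (hmem p).mpr (by tauto), e ▸ hs.t1.s23⟩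
    · exact ⟨q', (hmem q').mpr (by tauto), e ▸ hs.t2⟩
    · exact ⟨q, (hmem q).mpr (by tauto), e ▸ hs.t2.s23⟩
    · exact absurd (e.trans hbr.symm) hzb
  have main : ∀ {w p p' q q' r r' d : P}, w ∈ W → Star M w p p' q q' r r' →
      (∀ z, z ∈ W ↔ z = w ∨ z = p ∨ z = p' ∨ z = q ∨ z = q' ∨ z = r) → r' ∉ W →
      M.T p q d → d ∉ W → False := by
    intro w p p' q q' r r' d hw hs hmem hr' hd hdW
    have mp : p ∈ W := (hmem p).mpr (by tauto)
    have mp' : p' ∈ W := (hmem p').mpr (by tauto)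
    have mq : q ∈ W := (hmem q).mpr (by tauto)
    have mq' : q' ∈ W := (hmem q').mpr (by tauto)
    have mr : r ∈ W := (hmem r).mpr (by tauto)
    -- partner of p'
    obtain ⟨c, d', hd', hcW, hd'W⟩ := pex mp'
    have hcq' : c = q' := by
      rcases (hmem c).mp hcW with e | e | e | e | e | e
      · subst e
        exact absurd (hs.t1.rot'.uniq hd' ▸ mp) hd'W
      · subst e
        exact absurd (hs.t1.rev.uniq hd' ▸ hw) hd'W
      · exact absurd e hd'.ne12.symm
      · subst e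
        exact absurd (puniq hd.s12 hd'.s12 mq mp hdW mp' hd'W) hs.t1.ne23
      · exact e
      · subst e
        exact absurd (puniq hs.t3.s12 hd'.s12 mr hw hr' mp' hd'W) hs.t1.ne13
    subst hcq'
    -- line p r q'
    obtain ⟨e, heW, he⟩ := pcov hd mp mq hdW mr hs.n3.symm hs.n9.symm
    have heq' : e = c := by
      rcases (hmem e).mp heW with h | h | h | h | h | h
      · subst h
        exact absurd (he.s23.uniq hs.t1.s12) hs.n7.symm
      · exact absurd h he.ne13.symm
      · subst h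
        exact absurd (he.s23.uniq hs.t1.rot) hs.t3.ne12.symm
      · subst h
        exact absurd (he.s23.uniq hd ▸ mr) hdW
      · exact h
      · exact absurd h he.ne23.symm
    subst heq'
    obtain ⟨f, hfW, hf⟩ := pcov hd' mp' mq' hd'W mr hs.n7.symm hs.n11.symm
    have hfq : f = q := by
      rcases (hmem f).mp hfW with h | h | h | h | h | h
      · subst h
        exact absurd (hf.s23.uniq hs.t1.rot') hs.n3.symm
      · subst h
        exact absurd (hf.s23.uniq hs.t1.rev) hs.t3.ne12.symm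
      · exact absurd h hf.ne13.symm
      · exact h
      · subst h
        exact absurd (hf.s23.uniq hd' ▸ mr) hd'W
      · exact absurd h hf.ne23.symm
    subst hfq
    -- linear algebra
    obtain ⟨ψ, z1, z2, z3, z, hz, hzne⟩ := hφ.res (M.v w) (M.v p) (M.v f)
    have y1 : ψ (M.v p') = 0 := hs.t1.zero z1 z2
    have y2 : ψ (M.v e) = 0 := hs.t2.zero z1 z3
    have y3 : ψ (M.v r) = 0 := he.s23.zero z2 y2
    have y4 : ψ (M.v r') = 0 := hs.t3.zero z1 y3
    have y5 : ψ (M.v d) = 0 := hd.zero z2 z3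
    have y6 : ψ (M.v d') = 0 := hd'.zero y1 y2
    have hzW : z ∉ W := by
      rw [hmem]
      rintro (h | h | h | h | h | h) <;> subst h
      · exact hzne z1
      · exact hzne z2
      · exact hzne y1
      · exact hzne z3
      · exact hzne y2
      · exact hzne y3
    have inn : ∀ {x : P}, φ (M.v x) = 0 → x ∉ W → M.In u1 u2 x := by
      intro x hx hxW
      by_contra hh
      exact hxW ((hWd x).mpr ⟨hx, hh⟩)
    have hzin := inn hz hzW
    have hW' : ∀ {x a b : P}, x ∈ W → M.T x a b → φ (M.v b) = 0 := by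
      intro x a b hx h
      exact hW x b a ((hWd x).mp hx).1 ((hWd x).mp hx).2 h.s23
    have i1 := inn (hW' hw hs.t3) hr'
    have i2 := inn (hW' mp hd) hdW
    have i3 := inn (hW' mp' hd') hd'W
    have eqq : ∀ {a b : P}, M.In u1 u2 a → M.In u1 u2 b → ψ (M.v a) = 0 → ψ (M.v b) = 0 →
        a = b := by
      intro a b ha hb ka kb
      by_contra hab
      obtain ⟨a1, a2, ea⟩ := ha
      obtain ⟨b1, b2, eb⟩ := hb
      obtain ⟨⟨s, t, e1⟩, s', t', e2⟩ := cramer ea eb (M.ind a b hab)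
      refine hzne (hzin.zero ?_ ?_)
      · rw [e1]; simp [ka, kb]
      · rw [e2]; simp [ka, kb]
    have e1 : r' = d := eqq i1 i2 y4 y5
    have e2 : d = d' := eqq i2 i3 y5 y6
    subst e1
    subst e2
    obtain ⟨s, t, -, -, est⟩ := hs.t1.s23.dep
    exact fano hs.t2.rot hs.t3.rot hf.rev hd'.rot hd.rot he.rev s t est
  -- start
  obtain ⟨ψ, h1, h2, -, w, hw1, hne⟩ := hφ.res u1 u2 0
  have hw : w ∈ W := (hWd w).mpr ⟨hw1, fun hin => hne (hin.zero h1 h2)⟩
  obtain ⟨p, p', q, q', r, r', hs, hmem, hr'⟩ := hstar w hw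
  have mp : p ∈ W := (hmem p).mpr (by tauto)
  have mr : r ∈ W := (hmem r).mpr (by tauto)
  obtain ⟨c, d, hd, hcW, hdW⟩ := pex mp
  rcases (hmem c).mp hcW with e | e | e | e | e | e
  · subst e
    exact absurd (hs.t1.s12.uniq hd ▸ (hmem p').mpr (by tauto)) hdW
  · exact absurd e hd.ne12.symm
  · subst e
    exact absurd (hs.t1.rot.uniq hd ▸ hw) hdW
  · subst e
    exact main hw hs hmem hr' hd hdW
  · subst e
    exact main hw hs.fl2 (fun z => by rw [hmem]; tauto) hr' hd hdW
  · subst e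
    exact absurd (puniq hs.t3.s12 hd.s12 mr hw hr' mp hdW) hs.t1.ne12

/-- If the support of a maximal functional spans a space of rank at most three then many points of
the zero set lie outside the plane containing the points on outside lines. -/
theorem gen3 {φ : V →ₗ[ℝ] ℝ} (hφ : M.Max φ) (s : P) (hs : φ (M.v s) ≠ 0) (u u' : V)
    (hspan : ∀ t, φ (M.v t) ≠ 0 → ∃ α β γ : ℝ, M.v t = α • M.v s + β • u + γ • u') :
    ∃ e e' : V, (∀ w a b, φ (M.v w) = 0 → M.T w a b → φ (M.v a) ≠ 0 → M.In e e' w) ∧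
      ∀ X : Finset P, (∀ w ∈ X, φ (M.v w) = 0 ∧ ∃ a b, M.T w a b ∧ φ (M.v a) ≠ 0) →
      X.card + 7 ≤ (M.Z φ).card := by
  set c := φ (M.v s) with hc
  set e := u - (c⁻¹ * φ u) • M.v s with he
  set e' := u' - (c⁻¹ * φ u') • M.v s with he'
  have hin : ∀ w a b, φ (M.v w) = 0 → M.T w a b → φ (M.v a) ≠ 0 → M.In e e' w := by
    intro w a b hw hT ha
    have hb : φ (M.v b) ≠ 0 := by
      intro hb
      exact ha (hT.s23.zero hw hb)
    obtain ⟨α, β, -, -, ew⟩ := hT.rot.dep
    obtain ⟨a1, a2, a3, ea⟩ := hspan a ha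
    obtain ⟨b1, b2, b3, eb⟩ := hspan b hb
    have ew' : M.v w = (α * a1 + β * b1) • M.v s + (α * a2 + β * b2) • u +
        (α * a3 + β * b3) • u' := by
      rw [ew, ea, eb]; module
    refine ⟨α * a2 + β * b2, α * a3 + β * b3, ?_⟩
    rw [ew'] at hw
    simp only [map_add, map_smul, smul_eq_mul] at hw
    rw [← hc] at hw
    have hcc : α * a1 + β * b1 = -(c⁻¹ * ((α * a2 + β * b2) * φ u + (α * a3 + β * b3) * φ u')) := by
      field_simp
      linarith
    rw [ew', he, he', hcc]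
    module
  refine ⟨e, e', hin, ?_⟩
  intro X hX
  classical
  set W : Finset P := univ.filter (fun w => φ (M.v w) = 0 ∧ ¬ M.In e e' w) with hWdef
  have hWd : ∀ w, w ∈ W ↔ φ (M.v w) = 0 ∧ ¬ M.In e e' w := by
    intro w; rw [hWdef, Finset.mem_filter]; simp
  have h7 := wlemma hφ e e' (by
    intro w a b hw hn hT
    by_contra ha
    exact hn (hin w a b hw hT ha)) W hWd
  have hdisj : Disjoint X W := by
    rw [Finset.disjoint_left]
    intro w hw hw'
    obtain ⟨h1, a, b, hT, ha⟩ := hX w hw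
    exact ((hWd w).mp hw').2 (hin w a b h1 hT ha)
  have hsub : X ∪ W ⊆ M.Z φ := by
    intro w hw
    rw [Finset.mem_union] at hw
    rw [mem_Z]
    rcases hw with hw | hw
    · exact (hX w hw).1
    · exact ((hWd w).mp hw).1
  have := Finset.card_le_card hsub
  rw [Finset.card_union_of_disjoint hdisj] at this
  omega

end Model

end Q150DimN3
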