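import Mathlib
import Pool.Agent.Q150.DimN3W

namespace Q150DimN3

open Finset

namespace Model

variable {P : Type} [Fintype P] [DecidableEq P] {V : Type} [AddCommGroup V] [Module ℝ V]
variable {M : Model P V}

/-- if `s.card = l.length` and all members of the nodup list are in `s` then these are all -/
theorem mem_list_of_card {s : Finset P} (l : List P) (hn : l.Nodup) (h : ∀ x ∈ l, x ∈ s)
    (hc : s.card ≤ l.length) (x : P) (hx : x ∈ s) : x ∈ l := by
  have h1 : l.toFinset ⊆ s := by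
    intro y hy
    exact h y (List.mem_toFinset.mp hy)
  have h2 := Finset.eq_of_subset_of_card_le h1
    (by rw [List.toFinset_card_of_nodup hn]; exact hc)
  rw [← h2] at hx
  exact List.mem_toFinset.mp hx

/-- the points of the zero set on outside lines -/
noncomputable def X (M : Model P V) (φ : V →ₗ[ℝ] ℝ) : Finset P := by
  classical
  exact univ.filter (fun w => φ (M.v w) = 0 ∧ ∃ a b, M.T w a b ∧ φ (M.v a) ≠ 0)

theorem mem_X {φ : V →ₗ[ℝ] ℝ} {w : P} :
    w ∈ M.X φ ↔ φ (M.v w) = 0 ∧ ∃ a b, M.T w a b ∧ φ (M.v a) ≠ 0 := by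
  classical
  simp [X]

/-- the other end of an outside line -/
theorem T.nz {φ : V →ₗ[ℝ] ℝ} {w a b : P} (h : M.T w a b) (hw : φ (M.v w) = 0)
    (ha : φ (M.v a) ≠ 0) : φ (M.v b) ≠ 0 := fun hb => ha (h.s23.zero hw hb)

theorem four_pair {φ : V →ₗ[ℝ] ℝ} (h4 : (M.S φ).card = 4) {a b : P} (ha : φ (M.v a) ≠ 0)
    (hb : φ (M.v b) ≠ 0) (hab : a ≠ b) : ∃ x, M.T a b x ∧ φ (M.v x) = 0 := by
  obtain ⟨p, p', q, q', r, r', hs, kp, kq, kr⟩ := M.exists_starS ha
  have key : ∀ z, φ (M.v z) ≠ 0 → z = a ∨ z = p ∨ z = q ∨ z = r := by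
    intro z hz
    have := mem_list_of_card (s := M.S φ) [a, p, q, r] (by
      have := hs.t1.ne12; have := hs.t2.ne12; have := hs.t3.ne12
      have := hs.n1; have := hs.n3; have := hs.n9
      grind) (by
      intro x hx
      simp only [List.mem_cons, List.not_mem_nil, or_false] at hx
      rw [mem_S]
      rcases hx with rfl | rfl | rfl | rfl <;> assumption) (by simp [h4]) z (mem_S.mpr hz)
    simpa using this
  rcases key b hb with h | h | h | h
  · exact absurd h.symm hab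
  · subst h
    refine ⟨p', hs.t1, ?_⟩
    by_contra hne
    rcases key p' hne with h | h | h | h
    · exact hs.t1.ne13 h.symm
    · exact hs.t1.ne23 h.symm
    · exact hs.n5 h
    · exact hs.n7 h
  · subst h
    refine ⟨q', hs.t2, ?_⟩
    by_contra hne
    rcases key q' hne with h | h | h | h
    · exact hs.t2.ne13 h.symm
    · exact hs.n2 h.symm
    · exact hs.t2.ne23 h.symm
    · exact hs.n11 h
  · subst h
    refine ⟨r', hs.t3, ?_⟩
    by_contra hne
    rcases key r' hne with h | h | h | h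
    · exact hs.t3.ne13 h.symm
    · exact hs.n4 h.symm
    · exact hs.n10 h.symm
    · exact hs.t3.ne23 h.symm

theorem caseA {φ : V →ₗ[ℝ] ℝ} (hφ : M.Max φ) (hn : Fintype.card P ≤ 14)
    (h4 : (M.S φ).card = 4) {s1 s2 s3 s4 : P} (k1 : φ (M.v s1) ≠ 0) (k2 : φ (M.v s2) ≠ 0)
    (k3 : φ (M.v s3) ≠ 0) (k4 : φ (M.v s4) ≠ 0) (hnd : [s1, s2, s3, s4].Nodup)
    (α β γ : ℝ) (hrel : M.v s4 = α • M.v s1 + β • M.v s2 + γ • M.v s3) : False := by
  have hne : s1 ≠ s2 ∧ s1 ≠ s3 ∧ s1 ≠ s4 ∧ s2 ≠ s3 ∧ s2 ≠ s4 ∧ s3 ≠ s4 := by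
    refine ⟨?_, ?_, ?_, ?_, ?_, ?_⟩ <;> grind
  obtain ⟨n12, n13, n14, n23, n24, n34⟩ := hne
  obtain ⟨x12, t12, z12⟩ := four_pair h4 k1 k2 n12
  obtain ⟨x13, t13, z13⟩ := four_pair h4 k1 k3 n13
  obtain ⟨x14, t14, z14⟩ := four_pair h4 k1 k4 n14
  obtain ⟨x23, t23, z23⟩ := four_pair h4 k2 k3 n23
  obtain ⟨x24, t24, z24⟩ := four_pair h4 k2 k4 n24
  obtain ⟨x34, t34, z34⟩ := four_pair h4 k3 k4 n34
  have key : ∀ z, φ (M.v z) ≠ 0 → z = s1 ∨ z = s2 ∨ z = s3 ∨ z = s4 := by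
    intro z hz
    have := mem_list_of_card (s := M.S φ) [s1, s2, s3, s4] hnd (by
      intro x hx
      simp only [List.mem_cons, List.not_mem_nil, or_false] at hx
      rw [mem_S]
      rcases hx with rfl | rfl | rfl | rfl <;> assumption) (by simp [h4]) z (mem_S.mpr hz)
    simpa using this
  obtain ⟨e, e', hin, hX⟩ := gen3 hφ s1 k1 (M.v s2) (M.v s3) (by
    intro t ht
    rcases key t ht with h | h | h | h <;> subst h
    · exact ⟨1, 0, 0, by module⟩
    · exact ⟨0, 1, 0, by module⟩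
    · exact ⟨0, 0, 1, by module⟩
    · exact ⟨α, β, γ, hrel⟩)
  have hXc := hX (M.X φ) (fun w hw => mem_X.mp hw)
  have hcard := M.card_ZS φ
  have hX3 : (M.X φ).card ≤ 3 := by omega
  have m12 : x12 ∈ M.X φ := mem_X.mpr ⟨z12, _, _, t12.rot', k1⟩
  have m13 : x13 ∈ M.X φ := mem_X.mpr ⟨z13, _, _, t13.rot', k1⟩
  have m14 : x14 ∈ M.X φ := mem_X.mpr ⟨z14, _, _, t14.rot', k1⟩
  have m23 : x23 ∈ M.X φ := mem_X.mpr ⟨z23, _, _, t23.rot', k2⟩
  have m24 : x24 ∈ M.X φ := mem_X.mpr ⟨z24, _, _, t24.rot', k2⟩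
  have m34 : x34 ∈ M.X φ := mem_X.mpr ⟨z34, _, _, t34.rot', k3⟩
  have d1 : x12 ≠ x13 := by
    rintro rfl; exact n23 (t12.s23.uniq t13.s23)
  have d2 : x12 ≠ x14 := by
    rintro rfl; exact n24 (t12.s23.uniq t14.s23)
  have d3 : x13 ≠ x14 := by
    rintro rfl; exact n34 (t13.s23.uniq t14.s23)
  have keyX : ∀ z, z ∈ M.X φ → z = x12 ∨ z = x13 ∨ z = x14 := by
    intro z hz
    have := mem_list_of_card (s := M.X φ) [x12, x13, x14] (by grind) (by
      intro x hx
      simp only [List.mem_cons, List.not_mem_nil, or_false] at hx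
      rcases hx with rfl | rfl | rfl <;> assumption) (by simpa using hX3) z hz
    simpa using this
  have e34 : x34 = x12 := by
    rcases keyX x34 m34 with h | h | h
    · exact h
    · subst h; exact absurd (t34.s23.uniq t13.rot) n14.symm
    · subst h; exact absurd (t34.rot.uniq t14.rot) n13.symm
  have e24 : x24 = x13 := by
    rcases keyX x24 m24 with h | h | h
    · subst h; exact absurd (t24.s23.uniq t12.rot) n14.symm
    · exact h
    · subst h; exact absurd (t24.rot.uniq t14.rot) n12.symm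
  have e23 : x23 = x14 := by
    rcases keyX x23 m23 with h | h | h
    · subst h; exact absurd (t23.s23.uniq t12.rot) n13.symm
    · subst h; exact absurd (t23.rot.uniq t13.rot) n12.symm
    · exact h
  subst e34 e24 e23
  obtain ⟨a1, a2, ea⟩ := hin x34 s1 s2 z12 t12.rot' k1
  obtain ⟨b1, b2, eb⟩ := hin x24 s1 s3 z13 t13.rot' k1
  obtain ⟨c1, c2, ec⟩ := hin x23 s1 s4 z14 t14.rot' k1
  obtain ⟨⟨s, t, e1⟩, s', t', e2⟩ := cramer ea eb (M.ind x34 x24 d1)
  refine fano t12 t34 t13 t24 t14 t23 (c1 * s + c2 * s') (c1 * t + c2 * t') ?_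
  rw [ec, e1, e2]; module

end Model

end Q150DimN3
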