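import Mathlib
import Pool.Agent.Q150.DimN3Four

namespace Q150DimN3

open Finset

namespace Model

variable {P : Type} [Fintype P] [DecidableEq P] {V : Type} [AddCommGroup V] [Module ℝ V]
variable {M : Model P V}

/-- lines from a point of the zero set to the support are unique -/
theorem uniqS {φ : V →ₗ[ℝ] ℝ} (hφ : M.Max φ) (hn : Fintype.card P ≤ 14)
    (h4 : (M.S φ).card = 4) {x a b c d : P} (h1 : M.T x a b) (h2 : M.T x c d)
    (hx : φ (M.v x) = 0) (ha : φ (M.v a) ≠ 0) (hc : φ (M.v c) ≠ 0) :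
    (c = a ∧ d = b) ∨ (c = b ∧ d = a) := by
  have hb := h1.nz hx ha
  have hd := h2.nz hx hc
  by_cases e1 : c = a
  · subst e1; exact Or.inl ⟨rfl, h2.uniq h1⟩
  by_cases e2 : c = b
  · subst e2; exact Or.inr ⟨rfl, h2.uniq h1.s23⟩
  by_cases e3 : d = a
  · subst e3; exact absurd (h2.s23.uniq h1) e2
  by_cases e4 : d = b
  · subst e4; exact absurd (h2.s23.uniq h1.s23) e1
  exfalso
  obtain ⟨α, β, -, -, ex⟩ := h1.rot.dep
  obtain ⟨γ, δ, -, -, ed⟩ := h2.dep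
  have n1 := h1.ne23
  have n2 := h2.ne23
  refine caseA hφ hn h4 ha hb hc hd (by grind) (γ * α) (γ * β) δ ?_
  rw [ed, ex]; module

/-- functional separating one support point from the three others -/
theorem sep {φ : V →ₗ[ℝ] ℝ} (hφ : M.Max φ) (hn : Fintype.card P ≤ 14)
    (h4 : (M.S φ).card = 4) {s1 s2 s3 s4 : P} (k1 : φ (M.v s1) ≠ 0) (k2 : φ (M.v s2) ≠ 0)
    (k3 : φ (M.v s3) ≠ 0) (k4 : φ (M.v s4) ≠ 0) (hnd : [s1, s2, s3, s4].Nodup) :
    ∃ f : V →ₗ[ℝ] ℝ, f (M.v s4) ≠ 0 ∧ f (M.v s1) = 0 ∧ f (M.v s2) = 0 ∧ f (M.v s3) = 0 := by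
  have hns : M.v s4 ∉ Submodule.span ℝ {M.v s1, M.v s2, M.v s3} := by
    intro h
    obtain ⟨a, b, c, e⟩ := Submodule.mem_span_triple.mp h
    exact caseA hφ hn h4 k1 k2 k3 k4 hnd a b c e.symm
  obtain ⟨f, h1, h2⟩ := Submodule.exists_le_ker_of_notMem hns
  refine ⟨f, h1, ?_, ?_, ?_⟩
  · exact LinearMap.mem_ker.mp (h2 (Submodule.subset_span (by simp)))
  · exact LinearMap.mem_ker.mp (h2 (Submodule.subset_span (by simp)))
  · exact LinearMap.mem_ker.mp (h2 (Submodule.subset_span (by simp)))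

/-- two zeros and a nonzero on a line is impossible -/
theorem T.bad {a b c : P} (h : M.T a b c) {f : V →ₗ[ℝ] ℝ} (ha : f (M.v a) = 0)
    (hb : f (M.v b) = 0) (hc : f (M.v c) ≠ 0) : False := hc (h.zero ha hb)

/-- the third line through a diagonal point is a face -/
theorem cline {s1 s2 s3 s4 x12 x13 x14 x23 x24 x34 a b : P}
    (t12 : M.T s1 s2 x12) (t13 : M.T s1 s3 x13) (t14 : M.T s1 s4 x14)
    (t23 : M.T s2 s3 x23) (t24 : M.T s2 s4 x24) (t34 : M.T s3 s4 x34)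
    {f1 f2 f3 f4 : V →ₗ[ℝ] ℝ}
    (g1 : f1 (M.v s1) ≠ 0 ∧ f1 (M.v s2) = 0 ∧ f1 (M.v s3) = 0 ∧ f1 (M.v s4) = 0)
    (g2 : f2 (M.v s2) ≠ 0 ∧ f2 (M.v s1) = 0 ∧ f2 (M.v s3) = 0 ∧ f2 (M.v s4) = 0)
    (g3 : f3 (M.v s3) ≠ 0 ∧ f3 (M.v s1) = 0 ∧ f3 (M.v s2) = 0 ∧ f3 (M.v s4) = 0)
    (g4 : f4 (M.v s4) ≠ 0 ∧ f4 (M.v s1) = 0 ∧ f4 (M.v s2) = 0 ∧ f4 (M.v s3) = 0)
    (hT : M.T x12 a b) (ha : a = x13 ∨ a = x14 ∨ a = x23 ∨ a = x24 ∨ a = x34)
    (hb : b = x13 ∨ b = x14 ∨ b = x23 ∨ b = x24 ∨ b = x34) :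
    (a = x13 ∧ b = x23) ∨ (a = x23 ∧ b = x13) ∨ (a = x14 ∧ b = x24) ∨ (a = x24 ∧ b = x14) := by
  obtain ⟨g11, g12, g13, g14⟩ := g1
  obtain ⟨g22, g21, g23, g24⟩ := g2
  obtain ⟨g33, g31, g32, g34⟩ := g3
  obtain ⟨g44, g41, g42, g43⟩ := g4
  have nzl : ∀ {f : V →ₗ[ℝ] ℝ} {p q x : P}, M.T p q x → f (M.v p) ≠ 0 → f (M.v q) = 0 →
      f (M.v x) ≠ 0 := fun h hp hq hx => hp (h.rot.zero hq hx)
  have nzr : ∀ {f : V →ₗ[ℝ] ℝ} {p q x : P}, M.T p q x → f (M.v p) = 0 → f (M.v q) ≠ 0 →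
      f (M.v x) ≠ 0 := fun h hp hq hx => hq (h.rot'.zero hx hp)
  have a12 := nzl t12 g11 g12
  have a13 := nzl t13 g11 g13
  have a14 := nzl t14 g11 g14
  have a23 := t23.zero g12 g13
  have a24 := t24.zero g12 g14
  have a34 := t34.zero g13 g14
  have b12 := nzr t12 g21 g22
  have b13 := t13.zero g21 g23
  have b14 := t14.zero g21 g24
  have b23 := nzl t23 g22 g23
  have b24 := nzl t24 g22 g24
  have b34 := t34.zero g23 g24
  have c12 := t12.zero g31 g32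
  have c13 := nzr t13 g31 g33
  have c14 := t14.zero g31 g34
  have c23 := nzr t23 g32 g33
  have c24 := t24.zero g32 g34
  have c34 := nzl t34 g33 g34
  have d12 := t12.zero g41 g42
  have d13 := t13.zero g41 g43
  have d14 := nzr t14 g41 g44
  have d23 := t23.zero g42 g43
  have d24 := nzr t24 g42 g44
  have d34 := nzr t34 g43 g44
  rcases ha with rfl | rfl | rfl | rfl | rfl <;> rcases hb with rfl | rfl | rfl | rfl | rfl <;>
    first
    | exact absurd rfl hT.ne23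
    | exact Or.inl ⟨rfl, rfl⟩
    | exact Or.inr (Or.inl ⟨rfl, rfl⟩)
    | exact Or.inr (Or.inr (Or.inl ⟨rfl, rfl⟩))
    | exact Or.inr (Or.inr (Or.inr ⟨rfl, rfl⟩))
    | exact (hT.rot.bad (f := f1) (by assumption) (by assumption) (by assumption)).elim
    | exact (hT.rot.bad (f := f2) (by assumption) (by assumption) (by assumption)).elim
    | exact (hT.rot'.bad (f := f3) (by assumption) (by assumption) (by assumption)).elim
    | exact (hT.rot'.bad (f := f4) (by assumption) (by assumption) (by assumption)).elim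

theorem pigeon (a b c a' b' c' : Prop) (h1 : ¬ (¬ a ∧ ¬ b)) (h2 : ¬ (¬ a ∧ ¬ c))
    (h3 : ¬ (¬ b ∧ ¬ c)) (h4 : ¬ (¬ a' ∧ ¬ b')) (h5 : ¬ (¬ a' ∧ ¬ c')) (h6 : ¬ (¬ b' ∧ ¬ c')) :
    (a ∧ a') ∨ (b ∧ b') ∨ (c ∧ c') := by
  tauto

theorem four_false {φ : V →ₗ[ℝ] ℝ} (hφ : M.Max φ) (hn : Fintype.card P ≤ 14)
    (h4 : (M.S φ).card = 4) : False := by
  obtain ⟨s1, k1⟩ := hφ.1
  obtain ⟨s2, s2', s3, s3', s4, s4', hs, k2, k3, k4⟩ := M.exists_starS k1
  have n12 : s1 ≠ s2 := hs.t1.ne12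
  have n13 : s1 ≠ s3 := hs.t2.ne12
  have n14 : s1 ≠ s4 := hs.t3.ne12
  have n23 : s2 ≠ s3 := hs.n1
  have n24 : s2 ≠ s4 := hs.n3
  have n34 : s3 ≠ s4 := hs.n9
  clear hs
  have L1 : [s1, s2, s3, s4].Nodup := by grind
  have L2 : [s1, s2, s4, s3].Nodup := by grind
  have L3 : [s1, s3, s4, s2].Nodup := by grind
  have L4 : [s2, s3, s4, s1].Nodup := by grind
  obtain ⟨x12, t12, z12⟩ := four_pair h4 k1 k2 n12
  obtain ⟨x13, t13, z13⟩ := four_pair h4 k1 k3 n13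
  obtain ⟨x14, t14, z14⟩ := four_pair h4 k1 k4 n14
  obtain ⟨x23, t23, z23⟩ := four_pair h4 k2 k3 n23
  obtain ⟨x24, t24, z24⟩ := four_pair h4 k2 k4 n24
  obtain ⟨x34, t34, z34⟩ := four_pair h4 k3 k4 n34
  have key : ∀ z, φ (M.v z) ≠ 0 → z = s1 ∨ z = s2 ∨ z = s3 ∨ z = s4 := by
    intro z hz
    have := mem_list_of_card (s := M.S φ) [s1, s2, s3, s4] L1 (by
      intro x hx
      simp only [List.mem_cons, List.not_mem_nil, or_false] at hx
      rw [mem_S]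
      rcases hx with rfl | rfl | rfl | rfl <;> assumption) (by simp [h4]) z (mem_S.mpr hz)
    simpa using this
  -- distinctness of the six third points
  have dist : ∀ {x a b y c d : P}, M.T a b x → M.T c d y → φ (M.v x) = 0 →
      φ (M.v a) ≠ 0 → φ (M.v c) ≠ 0 → ¬ ((c = a ∧ d = b) ∨ (c = b ∧ d = a)) → x ≠ y := by
    intro x a b y c d h1 h2 hx ha hc hne he
    subst he
    exact hne (uniqS hφ hn h4 h1.rot' h2.rot' hx ha hc)
  have e1 := dist t12 t13 z12 k1 k1 (by grind)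
  have e2 := dist t12 t14 z12 k1 k1 (by grind)
  have e3 := dist t12 t23 z12 k1 k2 (by grind)
  have e4 := dist t12 t24 z12 k1 k2 (by grind)
  have e5 := dist t12 t34 z12 k1 k3 (by grind)
  have e6 := dist t13 t14 z13 k1 k1 (by grind)
  have e7 := dist t13 t23 z13 k1 k2 (by grind)
  have e8 := dist t13 t24 z13 k1 k2 (by grind)
  have e9 := dist t13 t34 z13 k1 k3 (by grind)
  have e10 := dist t14 t23 z14 k1 k2 (by grind)
  have e11 := dist t14 t24 z14 k1 k2 (by grind)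
  have e12 := dist t14 t34 z14 k1 k3 (by grind)
  have e13 := dist t23 t24 z23 k2 k2 (by grind)
  have e14 := dist t23 t34 z23 k2 k3 (by grind)
  have e15 := dist t24 t34 z24 k2 k3 (by grind)
  have nsx : ∀ {s x : P}, φ (M.v s) ≠ 0 → φ (M.v x) = 0 → s ≠ x := by
    rintro s x h1 h2 rfl; exact h1 h2
  obtain ⟨ψ, w1, w2, w3, w4, hne⟩ := M.big (M.v s1) (M.v s2) (M.v s3) (M.v s4)
  have y12 := t12.zero w1 w2
  have y13 := t13.zero w1 w3
  have y14 := t14.zero w1 w4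
  have y23 := t23.zero w2 w3
  have y24 := t24.zero w2 w4
  have y34 := t34.zero w3 w4
  have hnd : [s1, s2, s3, s4, x12, x13, x14, x23, x24, x34].Nodup := by
    have := nsx k1 z12; have := nsx k1 z13; have := nsx k1 z14
    have := nsx k1 z23; have := nsx k1 z24; have := nsx k1 z34
    have := nsx k2 z12; have := nsx k2 z13; have := nsx k2 z14
    have := nsx k2 z23; have := nsx k2 z24; have := nsx k2 z34
    have := nsx k3 z12; have := nsx k3 z13; have := nsx k3 z14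
    have := nsx k3 z23; have := nsx k3 z24; have := nsx k3 z34
    have := nsx k4 z12; have := nsx k4 z13; have := nsx k4 z14
    have := nsx k4 z23; have := nsx k4 z24; have := nsx k4 z34
    simp only [List.nodup_cons, List.mem_cons, List.not_mem_nil, or_false, not_or,
      List.nodup_nil, and_true, not_false_eq_true]
    refine ⟨⟨?_, ?_, ?_, ?_, ?_, ?_, ?_, ?_, ?_⟩, ⟨?_, ?_, ?_, ?_, ?_, ?_, ?_, ?_⟩,
      ⟨?_, ?_, ?_, ?_, ?_, ?_, ?_⟩, ⟨?_, ?_, ?_, ?_, ?_, ?_⟩, ⟨?_, ?_, ?_, ?_, ?_⟩,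
      ⟨?_, ?_, ?_, ?_⟩, ⟨?_, ?_, ?_⟩, ⟨?_, ?_⟩, ?_⟩ <;> assumption
  have hmemZ : ∀ x ∈ [s1, s2, s3, s4, x12, x13, x14, x23, x24, x34], x ∈ M.Z ψ := by
    intro x hx
    simp only [List.mem_cons, List.not_mem_nil, or_false] at hx
    rw [mem_Z]
    rcases hx with rfl | rfl | rfl | rfl | rfl | rfl | rfl | rfl | rfl | rfl <;> assumption
  have c10 : 10 ≤ (M.Z ψ).card := le_card_of_list _ hnd hmemZ
  obtain ⟨t1, l1⟩ := hne
  have c4 := M.four_le ψ t1 l1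
  have cs := M.card_ZS ψ
  have cs' := M.card_ZS φ
  have h4ψ : (M.S ψ).card = 4 := by omega
  have h10ψ : (M.Z ψ).card = 10 := by omega
  have hMψ : M.Max ψ := by
    refine ⟨⟨t1, l1⟩, fun χ hχ => ?_⟩
    have := hφ.2 χ hχ
    omega
  have keyψ : ∀ z, ψ (M.v z) = 0 → z = s1 ∨ z = s2 ∨ z = s3 ∨ z = s4 ∨ z = x12 ∨ z = x13 ∨
      z = x14 ∨ z = x23 ∨ z = x24 ∨ z = x34 := by
    intro z hz
    have := mem_list_of_card (s := M.Z ψ) _ hnd hmemZ (by simp [h10ψ]) z (mem_Z.mpr hz)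
    simpa using this
  have sz : ∀ z, φ (M.v z) ≠ 0 → ψ (M.v z) = 0 := by
    intro z hz
    rcases key z hz with h | h | h | h <;> subst h <;> assumption
  have keyX : ∀ z, ψ (M.v z) = 0 → φ (M.v z) = 0 → z = x12 ∨ z = x13 ∨
      z = x14 ∨ z = x23 ∨ z = x24 ∨ z = x34 := by
    intro z h1 h2
    rcases keyψ z h1 with h | h | h | h | h | h | h | h | h | h
    · subst h; exact absurd h2 k1
    · subst h; exact absurd h2 k2
    · subst h; exact absurd h2 k3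
    · subst h; exact absurd h2 k4
    all_goals tauto
  -- the support of ψ
  obtain ⟨t2, t2', t3, t3', t4, t4', ht, l2, l3, l4⟩ := M.exists_starS l1
  have m12 : t1 ≠ t2 := ht.t1.ne12
  have m13 : t1 ≠ t3 := ht.t2.ne12
  have m14 : t1 ≠ t4 := ht.t3.ne12
  have m23 : t2 ≠ t3 := ht.n1
  have m24 : t2 ≠ t4 := ht.n3
  have m34 : t3 ≠ t4 := ht.n9
  clear ht
  obtain ⟨u12, v12, o12⟩ := four_pair h4ψ l1 l2 m12
  obtain ⟨u13, v13, o13⟩ := four_pair h4ψ l1 l3 m13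
  obtain ⟨u14, v14, o14⟩ := four_pair h4ψ l1 l4 m14
  obtain ⟨u23, v23, o23⟩ := four_pair h4ψ l2 l3 m23
  obtain ⟨u24, v24, o24⟩ := four_pair h4ψ l2 l4 m24
  obtain ⟨u34, v34, o34⟩ := four_pair h4ψ l3 l4 m34
  have dist' : ∀ {x a b y c d : P}, M.T a b x → M.T c d y → ψ (M.v x) = 0 →
      ψ (M.v a) ≠ 0 → ψ (M.v c) ≠ 0 → ¬ ((c = a ∧ d = b) ∨ (c = b ∧ d = a)) → x ≠ y := by
    intro x a b y c d h1 h2 hx ha hc hne he
    subst he
    exact hne (uniqS hMψ hn h4ψ h1.rot' h2.rot' hx ha hc)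
  have e1' := dist' v12 v13 o12 l1 l1 (by grind)
  have e2' := dist' v12 v14 o12 l1 l1 (by grind)
  have e3' := dist' v12 v23 o12 l1 l2 (by grind)
  have e4' := dist' v12 v24 o12 l1 l2 (by grind)
  have e5' := dist' v12 v34 o12 l1 l3 (by grind)
  have e6' := dist' v13 v14 o13 l1 l1 (by grind)
  have e7' := dist' v13 v23 o13 l1 l2 (by grind)
  have e8' := dist' v13 v24 o13 l1 l2 (by grind)
  have e9' := dist' v13 v34 o13 l1 l3 (by grind)
  have e10' := dist' v14 v23 o14 l1 l2 (by grind)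
  have e11' := dist' v14 v24 o14 l1 l2 (by grind)
  have e12' := dist' v14 v34 o14 l1 l3 (by grind)
  have e13' := dist' v23 v24 o23 l2 l2 (by grind)
  have e14' := dist' v23 v34 o23 l2 l3 (by grind)
  have e15' := dist' v24 v34 o24 l2 l3 (by grind)
  have hnd' : [u12, u13, u14, u23, u24, u34].Nodup := by
    simp only [List.nodup_cons, List.mem_cons, List.not_mem_nil, or_false, not_or,
      List.nodup_nil, and_true, not_false_eq_true]
    refine ⟨⟨?_, ?_, ?_, ?_, ?_⟩, ⟨?_, ?_, ?_, ?_⟩, ⟨?_, ?_, ?_⟩, ⟨?_, ?_⟩, ?_⟩ <;> assumption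
  -- third points of lines in the support of ψ lie in X
  have uz : ∀ {a b x : P}, M.T a b x → ψ (M.v a) ≠ 0 → ψ (M.v b) ≠ 0 → φ (M.v x) = 0 := by
    intro a b x h ha hb
    have ha' : φ (M.v a) = 0 := by
      by_contra hh; exact ha (sz a hh)
    have hb' : φ (M.v b) = 0 := by
      by_contra hh; exact hb (sz b hh)
    exact h.zero ha' hb'
  set Xs : Finset P := {x12, x13, x14, x23, x24, x34} with hXs
  have memXs : ∀ z, z ∈ Xs ↔ ψ (M.v z) = 0 ∧ φ (M.v z) = 0 := by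
    intro z
    constructor
    · intro hz
      rw [hXs] at hz
      simp only [Finset.mem_insert, Finset.mem_singleton] at hz
      rcases hz with h | h | h | h | h | h <;> subst h <;> constructor <;> assumption
    · rintro ⟨h1, h2⟩
      rw [hXs]
      simp only [Finset.mem_insert, Finset.mem_singleton]
      exact keyX z h1 h2
  have cXs : Xs.card ≤ 6 := by
    rw [hXs]; exact Finset.card_le_six
  have mu : ∀ x ∈ [u12, u13, u14, u23, u24, u34], x ∈ Xs := by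
    intro x hx
    simp only [List.mem_cons, List.not_mem_nil, or_false] at hx
    rw [memXs]
    rcases hx with rfl | rfl | rfl | rfl | rfl | rfl
    · exact ⟨o12, uz v12 l1 l2⟩
    · exact ⟨o13, uz v13 l1 l3⟩
    · exact ⟨o14, uz v14 l1 l4⟩
    · exact ⟨o23, uz v23 l2 l3⟩
    · exact ⟨o24, uz v24 l2 l4⟩
    · exact ⟨o34, uz v34 l3 l4⟩
  have exψ : ∀ x, x ∈ Xs → ∃ a b, M.T x a b ∧ ψ (M.v a) ≠ 0 := by
    intro x hx
    have := mem_list_of_card (s := Xs) _ hnd' mu (by simpa using cXs) x hx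
    simp only [List.mem_cons, List.not_mem_nil, or_false] at this
    rcases this with rfl | rfl | rfl | rfl | rfl | rfl
    · exact ⟨_, _, v12.rot', l1⟩
    · exact ⟨_, _, v13.rot', l1⟩
    · exact ⟨_, _, v14.rot', l1⟩
    · exact ⟨_, _, v23.rot', l2⟩
    · exact ⟨_, _, v24.rot', l2⟩
    · exact ⟨_, _, v34.rot', l3⟩
  have exφ : ∀ x, x ∈ Xs → ∃ a b, M.T x a b ∧ φ (M.v a) ≠ 0 := by
    intro x hx
    rw [hXs] at hx
    simp only [Finset.mem_insert, Finset.mem_singleton] at hx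
    rcases hx with rfl | rfl | rfl | rfl | rfl | rfl
    · exact ⟨_, _, t12.rot', k1⟩
    · exact ⟨_, _, t13.rot', k1⟩
    · exact ⟨_, _, t14.rot', k1⟩
    · exact ⟨_, _, t23.rot', k2⟩
    · exact ⟨_, _, t24.rot', k2⟩
    · exact ⟨_, _, t34.rot', k3⟩
  have exC : ∀ x, x ∈ Xs → ∃ a b, M.T x a b ∧ a ∈ Xs ∧ b ∈ Xs := by
    intro x hx
    obtain ⟨xψ, xφ⟩ := (memXs x).mp hx
    obtain ⟨p, p', q, q', r, r', hs⟩ := M.exists_star x
    have nn : ∀ {p p' q q' : P}, M.T x p p' → M.T x q q' → p ≠ q → p' ≠ q →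
        ¬ (φ (M.v p) ≠ 0 ∧ φ (M.v q) ≠ 0) ∧ ¬ (ψ (M.v p) ≠ 0 ∧ ψ (M.v q) ≠ 0) := by
      intro p p' q q' h1 h2 a1 a2
      constructor
      · rintro ⟨b1, b2⟩
        rcases uniqS hφ hn h4 h1 h2 xφ b1 b2 with h | h
        · exact a1 h.1.symm
        · exact a2 h.1.symm
      · rintro ⟨b1, b2⟩
        rcases uniqS hMψ hn h4ψ h1 h2 xψ b1 b2 with h | h
        · exact a1 h.1.symm
        · exact a2 h.1.symm
    obtain ⟨a1, a2⟩ := nn hs.t1 hs.t2 hs.n1 hs.n5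
    obtain ⟨a3, a4⟩ := nn hs.t1 hs.t3 hs.n3 hs.n7
    obtain ⟨a5, a6⟩ := nn hs.t2 hs.t3 hs.n9 hs.n11
    have : (φ (M.v p) = 0 ∧ ψ (M.v p) = 0) ∨ (φ (M.v q) = 0 ∧ ψ (M.v q) = 0) ∨
        (φ (M.v r) = 0 ∧ ψ (M.v r) = 0) := pigeon _ _ _ _ _ _ a1 a3 a5 a2 a4 a6
    rcases this with ⟨b1, b2⟩ | ⟨b1, b2⟩ | ⟨b1, b2⟩
    · exact ⟨p, p', hs.t1, (memXs _).mpr ⟨b2, b1⟩,
        (memXs _).mpr ⟨hs.t1.zero xψ b2, hs.t1.zero xφ b1⟩⟩
    · exact ⟨q, q', hs.t2, (memXs _).mpr ⟨b2, b1⟩,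
        (memXs _).mpr ⟨hs.t2.zero xψ b2, hs.t2.zero xφ b1⟩⟩
    · exact ⟨r, r', hs.t3, (memXs _).mpr ⟨b2, b1⟩,
        (memXs _).mpr ⟨hs.t3.zero xψ b2, hs.t3.zero xφ b1⟩⟩
  have uniqC : ∀ {x a b c d : P}, x ∈ Xs → M.T x a b → M.T x c d → a ∈ Xs → c ∈ Xs →
      (c = a ∧ d = b) ∨ (c = b ∧ d = a) := by
    intro x a b c d hx h1 h2 ha hc
    obtain ⟨p, p', hp, hp0⟩ := exφ x hx
    obtain ⟨q, q', hq, hq0⟩ := exψ x hx
    obtain ⟨xψ, xφ⟩ := (memXs x).mp hx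
    obtain ⟨aψ, aφ⟩ := (memXs a).mp ha
    obtain ⟨cψ, cφ⟩ := (memXs c).mp hc
    have bψ := h1.zero xψ aψ
    have bφ := h1.zero xφ aφ
    have hp0' := hp.nz xφ hp0
    have hq0' := hq.nz xψ hq0
    have pψ := sz p hp0
    have pψ' := sz p' hp0'
    have st := star_of hp hq h1 (by rintro rfl; exact hq0 pψ) (by rintro rfl; exact hq0' pψ)
      (by rintro rfl; exact hp0 aφ) (by rintro rfl; exact hp0 bφ)
      (by rintro rfl; exact hq0 aψ) (by rintro rfl; exact hq0 bψ)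
    rcases st.all h2 with h | h | h | h | h | h
    · exact absurd (h.1 ▸ cφ) hp0
    · exact absurd (h.1 ▸ cφ) hp0'
    · exact absurd (h.1 ▸ cψ) hq0
    · exact absurd (h.1 ▸ cψ) hq0'
    · exact Or.inl h
    · exact Or.inr h
  -- separating functionals
  obtain ⟨f4, g44, g41, g42, g43⟩ := sep hφ hn h4 k1 k2 k3 k4 L1
  obtain ⟨f3, g33, g31, g32, g34⟩ := sep hφ hn h4 k1 k2 k4 k3 L2
  obtain ⟨f2, g22, g21, g23, g24⟩ := sep hφ hn h4 k1 k3 k4 k2 L3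
  obtain ⟨f1, g11, g12, g13, g14⟩ := sep hφ hn h4 k2 k3 k4 k1 L4
  have x12m : x12 ∈ Xs := (memXs _).mpr ⟨y12, z12⟩
  have x34m : x34 ∈ Xs := (memXs _).mpr ⟨y34, z34⟩
  obtain ⟨a, b, hT, ha, hb⟩ := exC x12 x12m
  obtain ⟨c, d, hT', hc, hd⟩ := exC x34 x34m
  have r1 := cline t12 t13 t14 t23 t24 t34 ⟨g11, g12, g13, g14⟩ ⟨g22, g21, g23, g24⟩
    ⟨g33, g31, g32, g34⟩ ⟨g44, g41, g42, g43⟩ hT
    (by
      rcases keyX a ((memXs a).mp ha).1 ((memXs a).mp ha).2 with h | h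
      · exact absurd h.symm hT.ne12
      · exact h)
    (by
      rcases keyX b ((memXs b).mp hb).1 ((memXs b).mp hb).2 with h | h
      · exact absurd h.symm hT.ne13
      · exact h)
  have r2 := cline t34 t13.s12 t23.s12 t14.s12 t24.s12 t12 ⟨g33, g34, g31, g32⟩
    ⟨g44, g43, g41, g42⟩ ⟨g11, g13, g14, g12⟩ ⟨g22, g23, g24, g21⟩ hT'
    (by
      rcases keyX c ((memXs c).mp hc).1 ((memXs c).mp hc).2 with h | h | h | h | h | h
      · exact Or.inr (Or.inr (Or.inr (Or.inr h)))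
      · exact Or.inl h
      · exact Or.inr (Or.inr (Or.inl h))
      · exact Or.inr (Or.inl h)
      · exact Or.inr (Or.inr (Or.inr (Or.inl h)))
      · exact absurd h.symm hT'.ne12)
    (by
      rcases keyX d ((memXs d).mp hd).1 ((memXs d).mp hd).2 with h | h | h | h | h | h
      · exact Or.inr (Or.inr (Or.inr (Or.inr h)))
      · exact Or.inl h
      · exact Or.inr (Or.inr (Or.inl h))
      · exact Or.inr (Or.inl h)
      · exact Or.inr (Or.inr (Or.inr (Or.inl h)))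
      · exact absurd h.symm hT'.ne13)
  have fin : ∀ {a b d : P}, M.T x12 a b → M.T x34 a d → a ∈ Xs → x34 ≠ b → False := by
    intro a b d h1 h2 ha hne
    rcases uniqC ha h1.s12 h2.s12 x12m x34m with h | h
    · exact e5 h.1.symm
    · exact hne h.1
  have na : x34 ≠ a := by
    rcases r1 with h | h | h | h
    · rw [h.1]; exact e9.symm
    · rw [h.1]; exact e14.symm
    · rw [h.1]; exact e12.symm
    · rw [h.1]; exact e15.symm
  have nb : x34 ≠ b := by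
    rcases r1 with h | h | h | h
    · rw [h.2]; exact e14.symm
    · rw [h.2]; exact e9.symm
    · rw [h.2]; exact e15.symm
    · rw [h.2]; exact e12.symm
  have hcoin : a = c ∨ a = d ∨ b = c ∨ b = d := by
    rcases r1 with ⟨rfl, rfl⟩ | ⟨rfl, rfl⟩ | ⟨rfl, rfl⟩ | ⟨rfl, rfl⟩ <;>
    rcases r2 with ⟨rfl, rfl⟩ | ⟨rfl, rfl⟩ | ⟨rfl, rfl⟩ | ⟨rfl, rfl⟩ <;> simp
  rcases hcoin with h | h | h | h
  · subst h; exact fin hT hT' ha nb
  · subst h; exact fin hT hT'.s23 ha nb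
  · subst h; exact fin hT.s23 hT' hb na
  · subst h; exact fin hT.s23 hT'.s23 hb na

end Model

end Q150DimN3
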