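import Mathlib
import Pool.Agent.Q150.DimN3FourB

namespace Q150DimN3

open Finset

namespace Model

variable {P : Type} [Fintype P] [DecidableEq P] {V : Type} [AddCommGroup V] [Module ℝ V]
variable {M : Model P V}

/-- in a support of size five containing the line `a b c`, the point `a` is joined to both
remaining points -/
theorem five_lines {φ : V →ₗ[ℝ] ℝ} {a b c d e : P}
    (hkey : ∀ z, φ (M.v z) ≠ 0 → z = a ∨ z = b ∨ z = c ∨ z = d ∨ z = e)
    (ha : φ (M.v a) ≠ 0) (hT : M.T a b c) :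
    (∃ x, M.T a d x ∧ φ (M.v x) = 0) ∧ (∃ x, M.T a e x ∧ φ (M.v x) = 0) := by
  have fin : ∀ {p p' q q' r r' : P}, Star M a p p' q q' r r' →
      φ (M.v q) ≠ 0 → φ (M.v r) ≠ 0 → b = p → c = p' →
      (∃ x, M.T a d x ∧ φ (M.v x) = 0) ∧ (∃ x, M.T a e x ∧ φ (M.v x) = 0) := by
    intro p p' q q' r r' hs kq kr e1 e2
    subst e1 e2
    have hq : q = d ∨ q = e := by
      rcases hkey q kq with h | h | h | h | h
      · exact absurd h.symm hs.t2.ne12
      · exact absurd h.symm hs.n1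
      · exact absurd h.symm hs.n5
      · exact Or.inl h
      · exact Or.inr h
    have hr : r = d ∨ r = e := by
      rcases hkey r kr with h | h | h | h | h
      · exact absurd h.symm hs.t3.ne12
      · exact absurd h.symm hs.n3
      · exact absurd h.symm hs.n7
      · exact Or.inl h
      · exact Or.inr h
    have hqr := hs.n9
    have zq' : φ (M.v q') = 0 := by
      by_contra hne
      rcases hkey q' hne with h | h | h | h | h
      · exact hs.t2.ne13 h.symm
      · exact hs.n2 h.symm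
      · exact hs.n6 h.symm
      · have := hs.t2.ne23; have := hs.n11; grind
      · have := hs.t2.ne23; have := hs.n11; grind
    have zr' : φ (M.v r') = 0 := by
      by_contra hne
      rcases hkey r' hne with h | h | h | h | h
      · exact hs.t3.ne13 h.symm
      · exact hs.n4 h.symm
      · exact hs.n8 h.symm
      · have := hs.t3.ne23; have := hs.n10; grind
      · have := hs.t3.ne23; have := hs.n10; grind
    rcases hq with rfl | rfl
    · rcases hr with h | rfl
      · exact absurd h.symm hqr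
      · exact ⟨⟨_, hs.t2, zq'⟩, ⟨_, hs.t3, zr'⟩⟩
    · rcases hr with rfl | h
      · exact ⟨⟨_, hs.t3, zr'⟩, ⟨_, hs.t2, zq'⟩⟩
      · exact absurd h.symm hqr
  obtain ⟨p, p', q, q', r, r', hs, kp, kq, kr⟩ := M.exists_starS ha
  rcases hs.all hT with h | h | h | h | h | h
  · exact fin hs kq kr h.1 h.2
  · exact fin hs.fl1 kq kr h.1 h.2
  · exact fin hs.sw12 kp kr h.1 h.2
  · exact fin hs.sw12.fl1 kp kr h.1 h.2
  · exact fin hs.sw13 kq kp h.1 h.2
  · exact fin hs.sw13.fl1 kq kp h.1 h.2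

theorem five_false {φ : V →ₗ[ℝ] ℝ} (hφ : M.Max φ) (hn : Fintype.card P ≤ 14)
    (h5 : (M.S φ).card = 5) : False := by
  obtain ⟨c1, c2⟩ := M.count φ
  have hcard := M.card_ZS φ
  obtain ⟨s1, s2, s3, hT, k1, k2, k3⟩ := exists_B (M := M) φ (by omega)
  have hsub : ({s1, s2, s3} : Finset P) ⊆ M.S φ := by
    intro z hz
    simp only [Finset.mem_insert, Finset.mem_singleton] at hz
    rw [mem_S]
    rcases hz with rfl | rfl | rfl <;> assumption
  have hc3 := M.card3 _ hT.2.2.2
  have hd : (M.S φ \ {s1, s2, s3}).card = 2 := by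
    rw [Finset.card_sdiff_of_subset hsub, h5, hc3]
  obtain ⟨s4, s5, n45, hd2⟩ := Finset.card_eq_two.mp hd
  have hkey : ∀ z, φ (M.v z) ≠ 0 → z = s1 ∨ z = s2 ∨ z = s3 ∨ z = s4 ∨ z = s5 := by
    intro z hz
    by_cases h : z ∈ ({s1, s2, s3} : Finset P)
    · simp only [Finset.mem_insert, Finset.mem_singleton] at h; tauto
    · have : z ∈ M.S φ \ {s1, s2, s3} := Finset.mem_sdiff.mpr ⟨mem_S.mpr hz, h⟩
      rw [hd2] at this
      simp only [Finset.mem_insert, Finset.mem_singleton] at this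
      tauto
  have m4 : s4 ∈ M.S φ \ {s1, s2, s3} := by rw [hd2]; simp
  have m5 : s5 ∈ M.S φ \ {s1, s2, s3} := by rw [hd2]; simp
  rw [Finset.mem_sdiff, mem_S] at m4 m5
  simp only [Finset.mem_insert, Finset.mem_singleton, not_or] at m4 m5
  obtain ⟨k4, n41, n42, n43⟩ := m4
  obtain ⟨k5, n51, n52, n53⟩ := m5
  obtain ⟨⟨x14, t14, z14⟩, ⟨x15, t15, z15⟩⟩ := five_lines hkey k1 hT
  obtain ⟨⟨x24, t24, z24⟩, ⟨x25, t25, z25⟩⟩ := five_lines (M := M) (φ := φ) (a := s2) (b := s1)
    (c := s3) (d := s4) (e := s5) (fun z hz => by have := hkey z hz; tauto) k2 hT.s12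
  obtain ⟨⟨x34, t34, z34⟩, ⟨x35, t35, z35⟩⟩ := five_lines (M := M) (φ := φ) (a := s3) (b := s1)
    (c := s2) (d := s4) (e := s5) (fun z hz => by have := hkey z hz; tauto) k3 hT.rot'
  have d1 : x14 ≠ x24 := by
    rintro rfl; exact hT.ne12 (t14.rot.uniq t24.rot)
  have d2 : x14 ≠ x34 := by
    rintro rfl; exact hT.ne13 (t14.rot.uniq t34.rot)
  have d3 : x24 ≠ x34 := by
    rintro rfl; exact hT.ne23 (t24.rot.uniq t34.rot)
  by_cases hrel : ∃ α β γ : ℝ, M.v s5 = α • M.v s1 + β • M.v s2 + γ • M.v s4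
  · -- rank three
    obtain ⟨α, β, γ, hrel⟩ := hrel
    obtain ⟨a, b, -, -, e3⟩ := hT.dep
    obtain ⟨e, e', hin, hX⟩ := gen3 hφ s1 k1 (M.v s2) (M.v s4) (by
      intro t ht
      rcases hkey t ht with h | h | h | h | h <;> subst h
      · exact ⟨1, 0, 0, by module⟩
      · exact ⟨0, 1, 0, by module⟩
      · exact ⟨a, b, 0, by rw [e3]; module⟩
      · exact ⟨0, 0, 1, by module⟩
      · exact ⟨α, β, γ, hrel⟩)
    have h3 := le_card_of_list (s := M.X φ) [x14, x24, x34] (by grind) (by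
      intro x hx
      simp only [List.mem_cons, List.not_mem_nil, or_false] at hx
      rcases hx with rfl | rfl | rfl
      · exact mem_X.mpr ⟨z14, _, _, t14.rot', k1⟩
      · exact mem_X.mpr ⟨z24, _, _, t24.rot', k2⟩
      · exact mem_X.mpr ⟨z34, _, _, t34.rot', k3⟩)
    have hXc := hX (M.X φ) (fun w hw => mem_X.mp hw)
    simp only [List.length_cons, List.length_nil] at h3
    omega
  · -- rank four
    have cross : ∀ {i j x y : P}, M.T i s4 x → M.T j s5 y → (∃ α β : ℝ, M.v i = α • M.v s1 + β • M.v s2) →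
        (∃ α β : ℝ, M.v j = α • M.v s1 + β • M.v s2) → x ≠ y := by
      rintro i j x y h1 h2 ⟨a1, a2, ei⟩ ⟨b1, b2, ej⟩ rfl
      obtain ⟨p, q, -, -, ex⟩ := h1.dep
      obtain ⟨r, s, -, -, e5⟩ := h2.s23.dep
      refine hrel ⟨r * b1 + s * (p * a1), r * b2 + s * (p * a2), s * q, ?_⟩
      rw [e5, ex, ej, ei]; module
    have c1' : ∃ α β : ℝ, M.v s1 = α • M.v s1 + β • M.v s2 := ⟨1, 0, by module⟩
    have c2' : ∃ α β : ℝ, M.v s2 = α • M.v s1 + β • M.v s2 := ⟨0, 1, by module⟩
    have c3' : ∃ α β : ℝ, M.v s3 = α • M.v s1 + β • M.v s2 := by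
      obtain ⟨a, b, -, -, e3⟩ := hT.dep
      exact ⟨a, b, e3⟩
    have f1 := cross t14 t15 c1' c1'
    have f2 := cross t14 t25 c1' c2'
    have f3 := cross t24 t15 c2' c1'
    have f4 := cross t24 t25 c2' c2'
    have f5 := cross t34 t15 c3' c1'
    have f6 := cross t34 t25 c3' c2'
    have f7 : x15 ≠ x25 := by
      rintro rfl; exact hT.ne12 (t15.rot.uniq t25.rot)
    obtain ⟨ψ, w1, w2, w4, w5, hne⟩ := M.big (M.v s1) (M.v s2) (M.v s4) (M.v s5)
    have w3 := hT.zero w1 w2
    have y14 := t14.zero w1 w4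
    have y24 := t24.zero w2 w4
    have y34 := t34.zero w3 w4
    have y15 := t15.zero w1 w5
    have y25 := t25.zero w2 w5
    have nsx : ∀ {s x : P}, φ (M.v s) ≠ 0 → φ (M.v x) = 0 → s ≠ x := by
      rintro s x h1 h2 rfl; exact h1 h2
    have hnd : [s1, s2, s3, s4, s5, x14, x24, x34, x15, x25].Nodup := by
      have := nsx k1 z14; have := nsx k1 z24; have := nsx k1 z34
      have := nsx k1 z15; have := nsx k1 z25
      have := nsx k2 z14; have := nsx k2 z24; have := nsx k2 z34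
      have := nsx k2 z15; have := nsx k2 z25
      have := nsx k3 z14; have := nsx k3 z24; have := nsx k3 z34
      have := nsx k3 z15; have := nsx k3 z25
      have := nsx k4 z14; have := nsx k4 z24; have := nsx k4 z34
      have := nsx k4 z15; have := nsx k4 z25
      have := nsx k5 z14; have := nsx k5 z24; have := nsx k5 z34
      have := nsx k5 z15; have := nsx k5 z25
      have := hT.ne12; have := hT.ne13; have := hT.ne23
      have := Ne.symm n41; have := Ne.symm n42; have := Ne.symm n43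
      have := Ne.symm n51; have := Ne.symm n52; have := Ne.symm n53
      have := f3.symm
      simp only [List.nodup_cons, List.mem_cons, List.not_mem_nil, or_false, not_or,
        List.nodup_nil, and_true, not_false_eq_true]
      refine ⟨⟨?_, ?_, ?_, ?_, ?_, ?_, ?_, ?_, ?_⟩, ⟨?_, ?_, ?_, ?_, ?_, ?_, ?_, ?_⟩,
        ⟨?_, ?_, ?_, ?_, ?_, ?_, ?_⟩, ⟨?_, ?_, ?_, ?_, ?_, ?_⟩, ⟨?_, ?_, ?_, ?_, ?_⟩,
        ⟨?_, ?_, ?_, ?_⟩, ⟨?_, ?_, ?_⟩, ⟨?_, ?_⟩, ?_⟩ <;> assumption
    have h10 := le_card_of_list (s := M.Z ψ) _ hnd (by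
      intro x hx
      simp only [List.mem_cons, List.not_mem_nil, or_false] at hx
      rw [mem_Z]
      rcases hx with rfl | rfl | rfl | rfl | rfl | rfl | rfl | rfl | rfl | rfl <;> assumption)
    simp only [List.length_cons, List.length_nil] at h10
    have := hφ.2 ψ hne
    omega

end Model

end Q150DimN3
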