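import Mathlib
import Pool.Agent.Q150.DimN3Five

namespace Q150DimN3

open Finset

namespace Model

variable {P : Type} [Fintype P] [DecidableEq P] {V : Type} [AddCommGroup V] [Module ℝ V]
variable {M : Model P V}

/-- membership in the span of three vectors -/
def In3 (M : Model P V) (u u' u'' : V) (w : P) : Prop :=
  ∃ α β γ : ℝ, M.v w = α • u + β • u' + γ • u''

theorem In3.line {u u' u'' : V} {a b c : P} (ha : M.In3 u u' u'' a) (hb : M.In3 u u' u'' b)
    (h : M.T a b c) : M.In3 u u' u'' c := by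
  obtain ⟨α, β, -, -, e⟩ := h.dep
  obtain ⟨a1, a2, a3, ea⟩ := ha
  obtain ⟨b1, b2, b3, eb⟩ := hb
  refine ⟨α * a1 + β * b1, α * a2 + β * b2, α * a3 + β * b3, ?_⟩
  rw [e, ea, eb]; module

/-- completing a line through a support point to a star -/
theorem two_more {φ : V →ₗ[ℝ] ℝ} {s a a' : P} (hs : φ (M.v s) ≠ 0) (hT : M.T s a a') :
    ∃ q q' r r', Star M s a a' q q' r r' ∧ φ (M.v q) ≠ 0 ∧ φ (M.v r) ≠ 0 := by
  obtain ⟨p, p', q, q', r, r', hst, kp, kq, kr⟩ := M.exists_starS hs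
  rcases hst.all hT with h | h | h | h | h | h <;> obtain ⟨rfl, rfl⟩ := h
  · exact ⟨q, q', r, r', hst, kq, kr⟩
  · exact ⟨q, q', r, r', hst.fl1, kq, kr⟩
  · exact ⟨p, p', r, r', hst.sw12, kp, kr⟩
  · exact ⟨p, p', r, r', hst.sw12.fl1, kp, kr⟩
  · exact ⟨q, q', p, p', hst.sw13, kq, kp⟩
  · exact ⟨q, q', p, p', hst.sw13.fl1, kq, kp⟩

theorem third {φ : V →ₗ[ℝ] ℝ} {s a a' b b' : P} (hs : φ (M.v s) ≠ 0) (hT : M.T s a a')
    (hT' : M.T s b b') (h1 : b ≠ a) (h2 : b ≠ a') :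
    ∃ r r', Star M s a a' b b' r r' ∧ φ (M.v r) ≠ 0 := by
  obtain ⟨q, q', r, r', hst, kq, kr⟩ := two_more hs hT
  rcases hst.all hT' with h | h | h | h | h | h <;> obtain ⟨rfl, rfl⟩ := h
  · exact absurd rfl h1
  · exact absurd rfl h2
  · exact ⟨_, _, hst, kr⟩
  · exact ⟨_, _, hst.fl2, kr⟩
  · exact ⟨_, _, hst.sw23, kq⟩
  · exact ⟨_, _, hst.sw23.fl2, kq⟩

/-- when the support is in the span of four vectors the set `X` is small -/
theorem X_small {φ : V →ₗ[ℝ] ℝ} (hφ : M.Max φ) (u1 u2 u3 u4 : V)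
    (h : ∀ ψ : V →ₗ[ℝ] ℝ, ψ u1 = 0 → ψ u2 = 0 → ψ u3 = 0 → ψ u4 = 0 →
      ∀ t, φ (M.v t) ≠ 0 → ψ (M.v t) = 0) : (M.S φ).card + (M.X φ).card ≤ (M.Z φ).card := by
  obtain ⟨ψ, w1, w2, w3, w4, hne⟩ := M.big u1 u2 u3 u4
  have ht := h ψ w1 w2 w3 w4
  have hsub : M.S φ ∪ M.X φ ⊆ M.Z ψ := by
    intro z hz
    rw [mem_Z]
    rcases Finset.mem_union.mp hz with hz | hz
    · exact ht z (mem_S.mp hz)
    · obtain ⟨hz0, a, b, hT, ha⟩ := mem_X.mp hz
      exact hT.rot.zero (ht a ha) (ht b (hT.nz hz0 ha))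
  have hdisj : Disjoint (M.S φ) (M.X φ) := by
    rw [Finset.disjoint_left]
    intro z h1 h2
    exact (mem_S.mp h1) (mem_X.mp h2).1
  have := Finset.card_le_card hsub
  rw [Finset.card_union_of_disjoint hdisj] at this
  exact this.trans (hφ.2 ψ hne)

/-- the disjoint case -/
theorem six_disj {φ : V →ₗ[ℝ] ℝ} (hφ : M.Max φ) (h6 : (M.S φ).card = 6)
    (h8 : (M.Z φ).card ≤ 8) {a b c d e f : P} (hT : M.T a b c) (hT' : M.T d e f)
    (ka : φ (M.v a) ≠ 0) (kb : φ (M.v b) ≠ 0)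
    (hkey : ∀ z, φ (M.v z) ≠ 0 → z = a ∨ z = b ∨ z = c ∨ z = d ∨ z = e ∨ z = f)
    (nd : d ≠ a ∧ d ≠ b ∧ d ≠ c) (ne : e ≠ a ∧ e ≠ b ∧ e ≠ c) (nf : f ≠ a ∧ f ≠ b ∧ f ≠ c) :
    False := by
  have hX2 : (M.X φ).card ≤ 2 := by
    have := X_small hφ (M.v a) (M.v b) (M.v d) (M.v e) (by
      intro ψ w1 w2 w3 w4 t ht
      have w5 := hT.zero w1 w2
      have w6 := hT'.zero w3 w4
      rcases hkey t ht with h | h | h | h | h | h <;> subst h <;> assumption)
    omega
  -- lines through a point of the first line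
  have lines : ∀ {s s' s'' : P}, φ (M.v s) ≠ 0 → M.T s s' s'' →
      (∀ z, φ (M.v z) ≠ 0 → z = s ∨ z = s' ∨ z = s'' ∨ z = d ∨ z = e ∨ z = f) →
      s ≠ d → s ≠ e → s ≠ f →
      ∃ q q' r r', M.T s q q' ∧ M.T s r r' ∧ q ≠ r ∧ q' ≠ r' ∧ (q = d ∨ q = e ∨ q = f) ∧
        (r = d ∨ r = e ∨ r = f) ∧ φ (M.v q') = 0 ∧ φ (M.v r') = 0 ∧ φ (M.v q) ≠ 0 ∧
        φ (M.v r) ≠ 0 := by
    intro s s' s'' ks hs hk n1 n2 n3
    obtain ⟨q, q', r, r', st, kq, kr⟩ := two_more ks hs
    have inS : ∀ {x : P}, φ (M.v x) ≠ 0 → x ≠ s → x ≠ s' → x ≠ s'' → x = d ∨ x = e ∨ x = f := by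
      intro x hx m1 m2 m3
      rcases hk x hx with h | h | h | h | h | h
      · exact absurd h m1
      · exact absurd h m2
      · exact absurd h m3
      · exact Or.inl h
      · exact Or.inr (Or.inl h)
      · exact Or.inr (Or.inr h)
    have hq := inS kq st.t2.ne12.symm st.n1.symm st.n5.symm
    have hr := inS kr st.t3.ne12.symm st.n3.symm st.n7.symm
    have bad : ∀ {x y : P}, M.T s x y → (x = d ∨ x = e ∨ x = f) → (y = d ∨ y = e ∨ y = f) →
        False := by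
      intro x y h hx hy
      rcases hx with rfl | rfl | rfl <;> rcases hy with rfl | rfl | rfl
      · exact h.ne23 rfl
      · exact n3 (h.rot.uniq hT')
      · exact n2 (h.rot.uniq hT'.s23)
      · exact n3 (h.rot.uniq hT'.s12)
      · exact h.ne23 rfl
      · exact n1 (h.rot.uniq hT'.rot)
      · exact n2 (h.rot.uniq hT'.rot')
      · exact n1 (h.rot.uniq hT'.rev)
      · exact h.ne23 rfl
    have zq' : φ (M.v q') = 0 := by
      by_contra hne
      exact bad st.t2 hq (inS hne st.t2.ne13.symm st.n2.symm st.n6.symm)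
    have zr' : φ (M.v r') = 0 := by
      by_contra hne
      exact bad st.t3 hr (inS hne st.t3.ne13.symm st.n4.symm st.n8.symm)
    exact ⟨q, q', r, r', st.t2, st.t3, st.n9, st.n12, hq, hr, zq', zr', kq, kr⟩
  obtain ⟨p, x, q, y, t1, t2, npq, nxy, hp, hq, zx, zy, kp, kq⟩ := lines ka hT hkey nd.1.symm
    ne.1.symm nf.1.symm
  obtain ⟨p2, x2, q2, y2, t3, t4, npq2, nxy2, hp2, hq2, zx2, zy2, kp2, kq2⟩ := lines kb hT.s12
    (fun z hz => by have := hkey z hz; tauto) nd.2.1.symm ne.2.1.symm nf.2.1.symm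
  have mx : x ∈ M.X φ := mem_X.mpr ⟨zx, _, _, t1.rot', ka⟩
  have my : y ∈ M.X φ := mem_X.mpr ⟨zy, _, _, t2.rot', ka⟩
  have mx2 : x2 ∈ M.X φ := mem_X.mpr ⟨zx2, _, _, t3.rot', kb⟩
  have my2 : y2 ∈ M.X φ := mem_X.mpr ⟨zy2, _, _, t4.rot', kb⟩
  have keyX : ∀ z, z ∈ M.X φ → z = x ∨ z = y := by
    intro z hz
    have := mem_list_of_card (s := M.X φ) [x, y] (by grind) (by
      intro x hx
      simp only [List.mem_cons, List.not_mem_nil, or_false] at hx
      rcases hx with rfl | rfl <;> assumption) (by simpa using hX2) z hz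
    simpa using this
  -- some line through `b` passes through `x`
  obtain ⟨w, hw, hwd⟩ : ∃ w, M.T b w x ∧ (w = d ∨ w = e ∨ w = f) := by
    rcases keyX x2 mx2 with h | h
    · subst h; exact ⟨p2, t3, hp2⟩
    · rcases keyX y2 my2 with h' | h'
      · subst h'; exact ⟨q2, t4, hq2⟩
      · exact absurd (h.trans h'.symm) nxy2
  have hwp : p ≠ w := by
    rintro rfl
    exact hT.ne12 (t1.rot.uniq hw.rot)
  -- everything lies in the span of a, b, p
  have i1 : M.In3 (M.v a) (M.v b) (M.v p) a := ⟨1, 0, 0, by module⟩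
  have i2 : M.In3 (M.v a) (M.v b) (M.v p) b := ⟨0, 1, 0, by module⟩
  have i3 : M.In3 (M.v a) (M.v b) (M.v p) p := ⟨0, 0, 1, by module⟩
  have ic := i1.line i2 hT
  have ix := i1.line i3 t1
  have iw := i2.line ix hw.s23
  have idef : M.In3 (M.v a) (M.v b) (M.v p) d ∧ M.In3 (M.v a) (M.v b) (M.v p) e ∧
      M.In3 (M.v a) (M.v b) (M.v p) f := by
    rcases hp with hpp | hpp | hpp <;> rcases hwd with hww | hww | hww
    · exact absurd (hpp.trans hww.symm) hwp
    · rw [hpp] at i3 ⊢; rw [hpp, hww] at iw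
      exact ⟨i3, iw, i3.line iw hT'⟩
    · rw [hpp] at i3 ⊢; rw [hpp, hww] at iw
      exact ⟨i3, i3.line iw hT'.s23, iw⟩
    · rw [hpp] at i3 ⊢; rw [hpp, hww] at iw
      exact ⟨iw, i3, iw.line i3 hT'⟩
    · exact absurd (hpp.trans hww.symm) hwp
    · rw [hpp] at i3 ⊢; rw [hpp, hww] at iw
      exact ⟨i3.line iw hT'.rot, i3, iw⟩
    · rw [hpp] at i3 ⊢; rw [hpp, hww] at iw
      exact ⟨iw, i3.line iw hT'.rot', i3⟩
    · rw [hpp] at i3 ⊢; rw [hpp, hww] at iw
      exact ⟨iw.line i3 hT'.rot, iw, i3⟩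
    · exact absurd (hpp.trans hww.symm) hwp
  obtain ⟨e1, e2, hin, hX⟩ := gen3 hφ a ka (M.v b) (M.v p) (by
    intro t ht
    rcases hkey t ht with h | h | h | h | h | h <;> subst h
    · exact i1
    · exact i2
    · exact ic
    · exact idef.1
    · exact idef.2.1
    · exact idef.2.2)
  have hXc := hX (M.X φ) (fun w hw => mem_X.mp hw)
  have h2 := le_card_of_list (s := M.X φ) [x, y] (by grind) (by
      intro x hx
      simp only [List.mem_cons, List.not_mem_nil, or_false] at hx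
      rcases hx with rfl | rfl <;> assumption)
  simp only [List.length_cons, List.length_nil] at h2
  omega

/-- the intersecting case -/
theorem six_int {φ : V →ₗ[ℝ] ℝ} (hφ : M.Max φ) (h6 : (M.S φ).card = 6)
    (h8 : (M.Z φ).card ≤ 8) {s1 s2 s3 s4 s5 s6 : P} (hT : M.T s1 s2 s3) (hT' : M.T s1 s4 s5)
    (k1 : φ (M.v s1) ≠ 0) (k2 : φ (M.v s2) ≠ 0) (k3 : φ (M.v s3) ≠ 0) (k4 : φ (M.v s4) ≠ 0)
    (k5 : φ (M.v s5) ≠ 0) (k6 : φ (M.v s6) ≠ 0) (n : s4 ≠ s2 ∧ s4 ≠ s3)
    (n6 : s6 ≠ s1 ∧ s6 ≠ s2 ∧ s6 ≠ s3 ∧ s6 ≠ s4 ∧ s6 ≠ s5)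
    (hkey : ∀ z, φ (M.v z) ≠ 0 → z = s1 ∨ z = s2 ∨ z = s3 ∨ z = s4 ∨ z = s5 ∨ z = s6) :
    False := by
  have hX2 : (M.X φ).card ≤ 2 := by
    have := X_small hφ (M.v s1) (M.v s2) (M.v s4) (M.v s6) (by
      intro ψ w1 w2 w3 w4 t ht
      have w5 := hT.zero w1 w2
      have w6 := hT'.zero w1 w3
      rcases hkey t ht with h | h | h | h | h | h <;> subst h <;> assumption)
    omega
  -- a line inside the support through s6
  obtain ⟨a, b, hab, ka, kb⟩ : ∃ a b, M.T s6 a b ∧ φ (M.v a) ≠ 0 ∧ φ (M.v b) ≠ 0 := by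
    obtain ⟨p, p', q, q', r, r', st, kp, kq, kr⟩ := M.exists_starS k6
    by_contra hcon
    push Not at hcon
    have zp := hcon p p' st.t1 kp
    have zq := hcon q q' st.t2 kq
    have zr := hcon r r' st.t3 kr
    have := le_card_of_list (s := M.X φ) [p', q', r'] (by
      have := st.n6; have := st.n8; have := st.n12; grind) (by
      intro x hx
      simp only [List.mem_cons, List.not_mem_nil, or_false] at hx
      rcases hx with rfl | rfl | rfl
      · exact mem_X.mpr ⟨zp, _, _, st.t1.rot', k6⟩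
      · exact mem_X.mpr ⟨zq, _, _, st.t2.rot', k6⟩
      · exact mem_X.mpr ⟨zr, _, _, st.t3.rot', k6⟩)
    simp only [List.length_cons, List.length_nil] at this
    omega
  have i1 : M.In3 (M.v s1) (M.v s2) (M.v s4) s1 := ⟨1, 0, 0, by module⟩
  have i2 : M.In3 (M.v s1) (M.v s2) (M.v s4) s2 := ⟨0, 1, 0, by module⟩
  have i4 : M.In3 (M.v s1) (M.v s2) (M.v s4) s4 := ⟨0, 0, 1, by module⟩
  have i3 := i1.line i2 hT
  have i5 := i1.line i4 hT'
  have i' : ∀ z, φ (M.v z) ≠ 0 → z ≠ s6 → M.In3 (M.v s1) (M.v s2) (M.v s4) z := by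
    intro z hz hne
    rcases hkey z hz with h | h | h | h | h | h
    · rw [h]; exact i1
    · rw [h]; exact i2
    · rw [h]; exact i3
    · rw [h]; exact i4
    · rw [h]; exact i5
    · exact absurd h hne
  have i6 := (i' a ka hab.ne12.symm).line (i' b kb hab.ne13.symm) hab.rot
  have hX1 : (M.X φ).card ≤ 1 := by
    obtain ⟨e1, e2, hin, hX⟩ := gen3 hφ s1 k1 (M.v s2) (M.v s4) (by
      intro t ht
      rcases hkey t ht with h | h | h | h | h | h
      · rw [h]; exact i1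
      · rw [h]; exact i2
      · rw [h]; exact i3
      · rw [h]; exact i4
      · rw [h]; exact i5
      · rw [h]; exact i6)
    have hXc := hX (M.X φ) (fun w hw => mem_X.mp hw)
    omega
  have uniqX : ∀ x y, x ∈ M.X φ → y ∈ M.X φ → x = y := Finset.card_le_one.mp hX1 |> fun h =>
    fun x y hx hy => h x hx y hy
  -- the third line through s1
  have n25 : s5 ≠ s2 := by
    rintro rfl; exact n.2 (hT'.s23.uniq hT)
  have n35 : s5 ≠ s3 := by
    rintro rfl; exact n.1 (hT'.s23.uniq hT.s23)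
  obtain ⟨r, x, st1, kr⟩ := third k1 hT hT' n.1 n.2
  have hr6 : r = s6 := by
    rcases hkey r kr with h | h | h | h | h | h
    · exact absurd h.symm st1.t3.ne12
    · exact absurd h.symm st1.n3
    · exact absurd h.symm st1.n7
    · exact absurd h.symm st1.n9
    · exact absurd h.symm st1.n11
    · exact h
  subst hr6
  have zx : φ (M.v x) = 0 := by
    by_contra hne
    rcases hkey x hne with h | h | h | h | h | h
    · exact absurd h.symm st1.t3.ne13
    · exact absurd h.symm st1.n4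
    · exact absurd h.symm st1.n8
    · exact absurd h.symm st1.n10
    · exact absurd h.symm st1.n12
    · exact absurd h.symm st1.t3.ne23
  have mx : x ∈ M.X φ := mem_X.mpr ⟨zx, _, _, st1.t3.rot', k1⟩
  -- lines through a point of the first line
  have lines : ∀ {s s'' : P}, φ (M.v s) ≠ 0 → M.T s s1 s'' →
      (∀ z, φ (M.v z) ≠ 0 → z = s1 ∨ z = s ∨ z = s'' ∨ z = s4 ∨ z = s5 ∨ z = r) →
      ∃ u w t, M.T s u w ∧ M.T s t x ∧ u ≠ w ∧ t ≠ u ∧ t ≠ w ∧ (u = s4 ∨ u = s5 ∨ u = r) ∧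
        (w = s4 ∨ w = s5 ∨ w = r) ∧ (t = s4 ∨ t = s5 ∨ t = r) := by
    intro s s'' ks hs hk
    obtain ⟨q, q', r2, r', st, kq, kr'⟩ := two_more ks hs
    have inS : ∀ {x : P}, φ (M.v x) ≠ 0 → x ≠ s → x ≠ s1 → x ≠ s'' → x = s4 ∨ x = s5 ∨ x = r := by
      intro x hx m1 m2 m3
      rcases hk x hx with h | h | h | h | h | h
      · exact absurd h m2
      · exact absurd h m1
      · exact absurd h m3
      · exact Or.inl h
      · exact Or.inr (Or.inl h)
      · exact Or.inr (Or.inr h)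
    have hq := inS kq st.t2.ne12.symm st.n1.symm st.n5.symm
    have hr := inS kr' st.t3.ne12.symm st.n3.symm st.n7.symm
    by_cases zq : φ (M.v q') = 0
    · by_cases zr : φ (M.v r') = 0
      · exact absurd (uniqX q' r' (mem_X.mpr ⟨zq, _, _, st.t2.rot', ks⟩)
          (mem_X.mpr ⟨zr, _, _, st.t3.rot', ks⟩)) st.n12
      · have hr' := inS zr st.t3.ne13.symm st.n4.symm st.n8.symm
        have e := uniqX q' x (mem_X.mpr ⟨zq, _, _, st.t2.rot', ks⟩) mx
        subst e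
        exact ⟨r2, r', q, st.t3, st.t2, st.t3.ne23, st.n9, st.n10, hr, hr', hq⟩
    · have hq' := inS zq st.t2.ne13.symm st.n2.symm st.n6.symm
      have zr : φ (M.v r') = 0 := by
        by_contra hne
        have hr' := inS hne st.t3.ne13.symm st.n4.symm st.n8.symm
        have := st.t2.ne23; have := st.t3.ne23; have := st.n9; have := st.n10
        have := st.n11; have := st.n12
        grind
      have e := uniqX r' x (mem_X.mpr ⟨zr, _, _, st.t3.rot', ks⟩) mx
      subst e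
      exact ⟨q, q', r2, st.t2, st.t3, st.t2.ne23, st.n9.symm, st.n11.symm, hq, hq', hr⟩
  obtain ⟨u, w, t, g1, g2, m1, m2, m3, hu, hw, ht⟩ := lines k2 hT.s12
    (fun z hz => by have := hkey z hz; tauto)
  obtain ⟨u', w', t', g1', g2', m1', m2', m3', hu', hw', ht'⟩ := lines k3 hT.rot'
    (fun z hz => by have := hkey z hz; tauto)
  have n12 := hT.ne12
  have n13 := hT.ne13
  have n23 := hT.ne23
  have n45 := hT'.ne23
  -- normal form
  have nf : ∀ {s u w t : P}, s ≠ s1 → M.T s u w → M.T s t x → u ≠ w → t ≠ u → t ≠ w →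
      (u = s4 ∨ u = s5 ∨ u = r) → (w = s4 ∨ w = s5 ∨ w = r) → (t = s4 ∨ t = s5 ∨ t = r) →
      (M.T s s4 r ∧ M.T s s5 x) ∨ (M.T s s5 r ∧ M.T s s4 x) := by
    intro s u w t hs1 g1 g2 m1 m2 m3 hu hw ht
    rcases hu with rfl | rfl | rfl <;> rcases hw with rfl | rfl | rfl <;>
      rcases ht with rfl | rfl | rfl <;>
      first
      | exact absurd rfl m1
      | exact absurd rfl m2
      | exact absurd rfl m3
      | exact absurd (g1.rot.uniq hT'.rot) hs1
      | exact absurd (g1.s23.rot.uniq hT'.rot) hs1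
      | exact Or.inl ⟨g1, g2⟩
      | exact Or.inl ⟨g1.s23, g2⟩
      | exact Or.inr ⟨g1, g2⟩
      | exact Or.inr ⟨g1.s23, g2⟩
  obtain ⟨α, β, -, -, e3⟩ := hT.dep
  rcases nf n12.symm g1 g2 m1 m2 m3 hu hw ht with ⟨f1, f2⟩ | ⟨f1, f2⟩
  · rcases nf n13.symm g1' g2' m1' m2' m3' hu' hw' ht' with ⟨f3, f4⟩ | ⟨f3, f4⟩
    · exact n23 (f1.rot.uniq f3.rot)
    · exact fano hT'.rot st1.t3.rot f1.rot f2.rot f4.rot f3.rot α β e3
  · rcases nf n13.symm g1' g2' m1' m2' m3' hu' hw' ht' with ⟨f3, f4⟩ | ⟨f3, f4⟩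
    · exact fano hT'.rev st1.t3.rot f1.rot f2.rot f4.rot f3.rot α β e3
    · exact n23 (f1.rot.uniq f3.rot)

theorem six_B {φ : V →ₗ[ℝ] ℝ} (hφ : M.Max φ) (hn : Fintype.card P ≤ 14)
    (h6 : (M.S φ).card = 6) : M.nB φ = 0 := by
  by_contra hB
  obtain ⟨c1, c2⟩ := M.count φ
  have hcard := M.card_ZS φ
  have h8 : (M.Z φ).card ≤ 8 := by omega
  have hB2 : 1 < M.nB φ := by omega
  obtain ⟨L1, hL1, L2, hL2, hne⟩ := Finset.one_lt_card.mp hB2
  have m1 := mem_nB hL1
  have m2 := mem_nB hL2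
  rw [Finset.mem_filter] at hL1 hL2
  by_cases hint : ∃ x, x ∈ L1 ∧ x ∈ L2
  · obtain ⟨x, hx1, hx2⟩ := hint
    obtain ⟨b, c, hT, rfl⟩ := M.exists_T_of_mem hL1.1 hx1
    obtain ⟨d, e, hT', rfl⟩ := M.exists_T_of_mem hL2.1 hx2
    have n1 : d ≠ b := by
      rintro rfl
      exact hne (by rw [hT.uniq hT'])
    have n2 : d ≠ c := by
      rintro rfl
      exact hne (by rw [hT.s23.uniq hT']; exact congrArg _ (Finset.pair_comm _ _))
    have n3 : e ≠ b := by
      rintro rfl; exact n2 (hT'.s23.uniq hT)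
    have n4 : e ≠ c := by
      rintro rfl; exact n1 (hT'.s23.uniq hT.s23)
    have kx := m1 x (by simp)
    have kb := m1 b (by simp)
    have kc := m1 c (by simp)
    have kd := m2 d (by simp)
    have ke := m2 e (by simp)
    have hnd : [x, b, c, d, e].Nodup := by
      have := hT.ne12; have := hT.ne13; have := hT.ne23
      have := hT'.ne12; have := hT'.ne13; have := hT'.ne23
      grind
    have hm : ∀ z ∈ [x, b, c, d, e], z ∈ M.S φ := by
      intro z hz
      simp only [List.mem_cons, List.not_mem_nil, or_false] at hz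
      rw [mem_S]
      rcases hz with rfl | rfl | rfl | rfl | rfl <;> assumption
    obtain ⟨f, hf, hf'⟩ : ∃ f ∈ M.S φ, f ∉ ({x, b, c, d, e} : Finset P) := by
      by_contra hcon
      push Not at hcon
      have : (M.S φ).card ≤ ({x, b, c, d, e} : Finset P).card := Finset.card_le_card hcon
      have h5 : ({x, b, c, d, e} : Finset P).card ≤ 5 := Finset.card_le_five
      omega
    simp only [Finset.mem_insert, Finset.mem_singleton, not_or] at hf'
    have kf := mem_S.mp hf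
    have hnd6 : [x, b, c, d, e, f].Nodup := by
      have := hT.ne12; have := hT.ne13; have := hT.ne23
      have := hT'.ne12; have := hT'.ne13; have := hT'.ne23
      grind
    refine six_int hφ h6 h8 hT hT' kx kb kc kd ke kf ⟨n1, n2⟩
      ⟨hf'.1, hf'.2.1, hf'.2.2.1, hf'.2.2.2.1, hf'.2.2.2.2⟩ ?_
    intro z hz
    have := mem_list_of_card (s := M.S φ) [x, b, c, d, e, f] hnd6 (by
      intro z hz
      simp only [List.mem_cons, List.not_mem_nil, or_false] at hz
      rw [mem_S]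
      rcases hz with rfl | rfl | rfl | rfl | rfl | rfl <;> assumption) (by simp [h6]) z
      (mem_S.mpr hz)
    simpa using this
  · push Not at hint
    obtain ⟨a, b, c, hT, rfl⟩ := M.exists_T hL1.1
    obtain ⟨d, e, f, hT', rfl⟩ := M.exists_T hL2.1
    have ka := m1 a (by simp)
    have kb := m1 b (by simp)
    have kc := m1 c (by simp)
    have kd := m2 d (by simp)
    have ke := m2 e (by simp)
    have kf := m2 f (by simp)
    have na := hint a (by simp)
    have nb := hint b (by simp)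
    have nc := hint c (by simp)
    simp only [Finset.mem_insert, Finset.mem_singleton, not_or] at na nb nc
    have hnd6 : [a, b, c, d, e, f].Nodup := by
      have := hT.ne12; have := hT.ne13; have := hT.ne23
      have := hT'.ne12; have := hT'.ne13; have := hT'.ne23
      grind
    refine six_disj hφ h6 h8 hT hT' ka kb ?_ ⟨Ne.symm na.1, Ne.symm nb.1, Ne.symm nc.1⟩
      ⟨Ne.symm na.2.1, Ne.symm nb.2.1, Ne.symm nc.2.1⟩
      ⟨Ne.symm na.2.2, Ne.symm nb.2.2, Ne.symm nc.2.2⟩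
    intro z hz
    have := mem_list_of_card (s := M.S φ) [a, b, c, d, e, f] hnd6 (by
      intro z hz
      simp only [List.mem_cons, List.not_mem_nil, or_false] at hz
      rw [mem_S]
      rcases hz with rfl | rfl | rfl | rfl | rfl | rfl <;> assumption) (by simp [h6]) z
      (mem_S.mpr hz)
    simpa using this

end Model

end Q150DimN3
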