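import Mathlib
import Pool.Agent.Q150.DimN3Six

namespace Q150DimN3

open Finset

namespace Model

variable {P : Type} [Fintype P] [DecidableEq P] {V : Type} [AddCommGroup V] [Module ℝ V]
variable {M : Model P V}

theorem third' {s a a' b b' : P} (hT : M.T s a a') (hT' : M.T s b b') (h1 : b ≠ a)
    (h2 : b ≠ a') : ∃ r r', Star M s a a' b b' r r' := by
  have two : ∃ q q' r r', Star M s a a' q q' r r' := by
    obtain ⟨p, p', q, q', r, r', hst⟩ := M.exists_star s
    rcases hst.all hT with h | h | h | h | h | h <;> obtain ⟨rfl, rfl⟩ := h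
    · exact ⟨q, q', r, r', hst⟩
    · exact ⟨q, q', r, r', hst.fl1⟩
    · exact ⟨p, p', r, r', hst.sw12⟩
    · exact ⟨p, p', r, r', hst.sw12.fl1⟩
    · exact ⟨q, q', p, p', hst.sw13⟩
    · exact ⟨q, q', p, p', hst.sw13.fl1⟩
  obtain ⟨q, q', r, r', hst⟩ := two
  rcases hst.all hT' with h | h | h | h | h | h <;> obtain ⟨rfl, rfl⟩ := h
  · exact absurd rfl h1
  · exact absurd rfl h2
  · exact ⟨_, _, hst⟩
  · exact ⟨_, _, hst.fl2⟩
  · exact ⟨_, _, hst.sw23⟩
  · exact ⟨_, _, hst.sw23.fl2⟩

theorem claim1 (h14 : Fintype.card P = 14)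
    (H8 : ∀ ψ : V →ₗ[ℝ] ℝ, (∃ p, ψ (M.v p) ≠ 0) → (M.Z ψ).card ≤ 8)
    (HB : ∀ ψ : V →ₗ[ℝ] ℝ, (∃ p, ψ (M.v p) ≠ 0) → (M.Z ψ).card = 8 → M.nB ψ = 0)
    {x p p' q q' r r' : P} (hs : Star M x p p' q q' r r') (u1 u2 u3 : V)
    (hu : ∀ ψ : V →ₗ[ℝ] ℝ, ψ u1 = 0 → ψ u2 = 0 → ψ u3 = 0 →
      ψ (M.v x) = 0 ∧ ψ (M.v p) = 0 ∧ ψ (M.v q) = 0 ∧ ψ (M.v r) = 0) : False := by
  set N : Finset P := {x, p, p', q, q', r, r'} with hN
  have c7 : N.card = 7 := hs.card7
  have hy : ∀ y, y ∉ N → ∃ ψ : V →ₗ[ℝ] ℝ, M.nB ψ = 0 ∧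
      ∀ z, ψ (M.v z) = 0 ↔ z ∈ N ∨ z = y := by
    intro y hy
    obtain ⟨ψ, w1, w2, w3, w4, hne⟩ := M.big u1 u2 u3 (M.v y)
    obtain ⟨v1, v2, v3, v4⟩ := hu ψ w1 w2 w3
    have hsub : insert y N ⊆ M.Z ψ := by
      intro z hz
      rw [Finset.mem_insert] at hz
      rw [mem_Z]
      rcases hz with rfl | hz
      · exact w4
      · rw [hN] at hz
        simp only [Finset.mem_insert, Finset.mem_singleton] at hz
        rcases hz with rfl | rfl | rfl | rfl | rfl | rfl | rfl
        · exact v1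
        · exact v2
        · exact hs.t1.zero v1 v2
        · exact v3
        · exact hs.t2.zero v1 v3
        · exact v4
        · exact hs.t3.zero v1 v4
    have hc8 : (insert y N).card = 8 := by rw [Finset.card_insert_of_notMem hy, c7]
    have h8 := H8 ψ hne
    have heq := Finset.eq_of_subset_of_card_le hsub (by rw [hc8]; exact h8)
    refine ⟨ψ, HB ψ hne (by rw [← heq, hc8]), fun z => ?_⟩
    rw [← mem_Z, ← heq, Finset.mem_insert]
    tauto
  have hcc : (univ \ N).card = 7 := by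
    rw [Finset.card_sdiff_of_subset (Finset.subset_univ _), Finset.card_univ, h14, c7]
  obtain ⟨z, hz, y0, hy0, hzy⟩ := Finset.one_lt_card.mp (by rw [hcc]; norm_num : 1 < (univ \ N).card)
  have hz' : z ∉ N := (Finset.mem_sdiff.mp hz).2
  have hy0' : y0 ∉ N := (Finset.mem_sdiff.mp hy0).2
  obtain ⟨ψ, hB, hψ⟩ := hy y0 hy0'
  have kz : ψ (M.v z) ≠ 0 := by
    rw [Ne, hψ]; rintro (h | h)
    · exact hz' h
    · exact hzy h
  obtain ⟨y, w, y3, w3, y4, w4, st, ky, -, -⟩ := M.exists_starS kz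
  have kw := nB_zero ψ hB st.t1 kz ky
  have hyN : y ∉ N := fun h => ky ((hψ y).mpr (Or.inl h))
  have hyy0 : y ≠ y0 := fun h => ky ((hψ y).mpr (Or.inr h))
  rcases (hψ w).mp kw with h | h
  · obtain ⟨χ, -, hχ⟩ := hy y hyN
    have := st.t1.rot.zero ((hχ y).mpr (Or.inr rfl)) ((hχ w).mpr (Or.inl h))
    rcases (hχ z).mp this with h' | h'
    · exact hz' h'
    · exact st.t1.ne12 h'
  · subst h
    obtain ⟨y1, hy1, hy1'⟩ : ∃ y1 ∈ univ \ N, y1 ∉ ({z, y, w} : Finset P) := by
      by_contra hcon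
      push Not at hcon
      have h1 := Finset.card_le_card (show (univ \ N) ⊆ ({z, y, w} : Finset P) from hcon)
      have h3 : ({z, y, w} : Finset P).card ≤ 3 := Finset.card_le_three
      omega
    simp only [Finset.mem_insert, Finset.mem_singleton, not_or] at hy1'
    obtain ⟨χ, hBχ, hχ⟩ := hy y1 (Finset.mem_sdiff.mp hy1).2
    have a1 : χ (M.v z) ≠ 0 := by
      rw [Ne, hχ]; rintro (h | h)
      · exact hz' h
      · exact hy1'.1 h.symm
    have a2 : χ (M.v y) ≠ 0 := by
      rw [Ne, hχ]; rintro (h | h)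
      · exact hyN h
      · exact hy1'.2.1 h.symm
    have a3 := nB_zero χ hBχ st.t1 a1 a2
    rcases (hχ w).mp a3 with h | h
    · exact hy0' h
    · exact hy1'.2.2 h.symm

/-- structure of the neighbourhood of a point -/
theorem claim2 (h14 : Fintype.card P = 14)
    (H8 : ∀ ψ : V →ₗ[ℝ] ℝ, (∃ p, ψ (M.v p) ≠ 0) → (M.Z ψ).card ≤ 8)
    (HB : ∀ ψ : V →ₗ[ℝ] ℝ, (∃ p, ψ (M.v p) ≠ 0) → (M.Z ψ).card = 8 → M.nB ψ = 0) (x : P) :
    ∃ a a' b b' r r' y, Star M x a a' b b' r r' ∧ M.T y a b ∧ M.T y a' b' ∧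
      y ∉ ({x, a, a', b, b', r, r'} : Finset P) ∧
      ∃ ψ : V →ₗ[ℝ] ℝ, ∀ z, ψ (M.v z) = 0 ↔ z ∈ ({x, a, a', b, b', r, r'} : Finset P) ∨ z = y := by
  obtain ⟨p, p', q, q', r, r', hs⟩ := M.exists_star x
  obtain ⟨ψ, w1, w2, w3, w4, hne⟩ := M.big (M.v x) (M.v p) (M.v q) (M.v r)
  set N : Finset P := {x, p, p', q, q', r, r'} with hN
  have c7 : N.card = 7 := hs.card7
  have hNZ : N ⊆ M.Z ψ := by
    intro z hz
    rw [mem_Z]
    rw [hN] at hz
    simp only [Finset.mem_insert, Finset.mem_singleton] at hz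
    rcases hz with rfl | rfl | rfl | rfl | rfl | rfl | rfl
    · exact w1
    · exact w2
    · exact hs.t1.zero w1 w2
    · exact w3
    · exact hs.t2.zero w1 w3
    · exact w4
    · exact hs.t3.zero w1 w4
  have memN : ∀ z, z ∈ N → x ≠ z → ∃ z', M.T x z z' := by
    intro z hz hxz
    rw [hN] at hz
    simp only [Finset.mem_insert, Finset.mem_singleton] at hz
    rcases hz with rfl | rfl | rfl | rfl | rfl | rfl | rfl
    · exact absurd rfl hxz
    · exact ⟨_, hs.t1⟩
    · exact ⟨_, hs.t1.s23⟩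
    · exact ⟨_, hs.t2⟩
    · exact ⟨_, hs.t2.s23⟩
    · exact ⟨_, hs.t3⟩
    · exact ⟨_, hs.t3.s23⟩
  -- no extra line inside the neighbourhood
  have noextra : ∀ {a b c : P}, M.T a b c → a ∈ N → b ∈ N → c ∈ N → x ≠ a → x ≠ b → x ≠ c →
      False := by
    intro a b c hT ha hb hc xa xb xc
    obtain ⟨a', ha'⟩ := memN a ha xa
    obtain ⟨b', hb'⟩ := memN b hb xb
    obtain ⟨c', hc'⟩ := memN c hc xc
    obtain ⟨hst, hall⟩ := extra hT xc ha' hb' hc'
    refine claim1 h14 H8 HB hst (M.v x) (M.v a) (M.v b) ?_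
    intro χ e1 e2 e3
    have := hall χ e1 e2 e3
    exact ⟨e1, e2, e3, this.2.2.1⟩
  obtain ⟨c1, c2⟩ := M.count ψ
  have hcard := M.card_ZS ψ
  have h8 := H8 ψ hne
  have h7 := Finset.card_le_card hNZ
  have hZ8 : (M.Z ψ).card = 8 := by
    by_contra hn8
    have hZ7 : (M.Z ψ).card = 7 := by omega
    have heq := Finset.eq_of_subset_of_card_le hNZ (by rw [c7, hZ7])
    obtain ⟨a, b, c, hT, xa, xb, xc, ha, hb, hc⟩ := M.exists_T4 ψ x (by omega)
    exact noextra hT (by rw [heq]; exact mem_Z.mpr ha) (by rw [heq]; exact mem_Z.mpr hb)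
      (by rw [heq]; exact mem_Z.mpr hc) xa xb xc
  have hB := HB ψ hne hZ8
  have hnT : M.nT ψ = 5 := by omega
  obtain ⟨y, hyZ, hyN⟩ : ∃ y ∈ M.Z ψ, y ∉ N := by
    by_contra hcon
    push Not at hcon
    have := Finset.card_le_card (show M.Z ψ ⊆ N from hcon)
    omega
  have hins : insert y N = M.Z ψ := by
    apply Finset.eq_of_subset_of_card_le
    · intro z hz
      rw [Finset.mem_insert] at hz
      rcases hz with rfl | hz
      · exact hyZ
      · exact hNZ hz
    · rw [Finset.card_insert_of_notMem hyN, c7, hZ8]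
  have hψ : ∀ z, ψ (M.v z) = 0 ↔ z ∈ N ∨ z = y := by
    intro z
    rw [← mem_Z, ← hins, Finset.mem_insert]; tauto
  have hxN : x ∈ N := by rw [hN]; simp
  have hxy : x ≠ y := by
    rintro rfl; exact hyN hxN
  -- lines in the zero set missing x pass through y
  have thr : ∀ L ∈ M.lines, (∀ z ∈ L, ψ (M.v z) = 0) → x ∉ L → ∃ a b, M.T y a b ∧
      L = {y, a, b} ∧ a ∈ N ∧ b ∈ N ∧ x ≠ a ∧ x ≠ b := by
    intro L hL hLz hxL
    by_cases hyL : y ∈ L
    · obtain ⟨a, b, hT, rfl⟩ := M.exists_T_of_mem hL hyL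
      have ha := (hψ a).mp (hLz a (by simp))
      have hb := (hψ b).mp (hLz b (by simp))
      simp only [Finset.mem_insert, Finset.mem_singleton, not_or] at hxL
      exact ⟨a, b, hT, rfl, ha.resolve_right hT.ne12.symm, hb.resolve_right hT.ne13.symm,
        hxL.2.1, hxL.2.2⟩
    · exfalso
      obtain ⟨a, b, c, hT, rfl⟩ := M.exists_T hL
      simp only [Finset.mem_insert, Finset.mem_singleton, not_or] at hxL hyL
      exact noextra hT (((hψ a).mp (hLz a (by simp))).resolve_right (Ne.symm hyL.1))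
        (((hψ b).mp (hLz b (by simp))).resolve_right (Ne.symm hyL.2.1))
        (((hψ c).mp (hLz c (by simp))).resolve_right (Ne.symm hyL.2.2)) hxL.1 hxL.2.1 hxL.2.2
  -- two such lines
  have h2 : 1 < ((M.lines.filter (fun L => (L ∩ M.S ψ).card = 0)) \
      (M.lines.filter (fun L => x ∈ L))).card := by
    have h3 := M.deg3 x
    have h5 : (M.lines.filter (fun L => (L ∩ M.S ψ).card = 0)).card = 5 := hnT
    have := Finset.le_card_sdiff (M.lines.filter (fun L => x ∈ L))
      (M.lines.filter (fun L => (L ∩ M.S ψ).card = 0))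
    omega
  obtain ⟨K1, hK1, K2, hK2, hKne⟩ := Finset.one_lt_card.mp h2
  rw [Finset.mem_sdiff] at hK1 hK2
  have z1 := mem_nT hK1.1
  have z2 := mem_nT hK2.1
  have l1 : K1 ∈ M.lines := (Finset.mem_filter.mp hK1.1).1
  have l2 : K2 ∈ M.lines := (Finset.mem_filter.mp hK2.1).1
  have x1 : x ∉ K1 := fun h => hK1.2 (Finset.mem_filter.mpr ⟨l1, h⟩)
  have x2 : x ∉ K2 := fun h => hK2.2 (Finset.mem_filter.mpr ⟨l2, h⟩)
  obtain ⟨a, b, hab, e1, ha, hb, xa, xb⟩ := thr K1 l1 z1 x1
  obtain ⟨c, d, hcd, e2, hc, hd, xc, xd⟩ := thr K2 l2 z2 x2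
  have nca : c ≠ a := by
    rintro rfl
    exact hKne (by rw [e1, e2, hab.uniq hcd])
  have ncb : c ≠ b := by
    rintro rfl
    exact hKne (by rw [e1, e2, hab.s23.uniq hcd]; exact congrArg _ (Finset.pair_comm _ _))
  have nda : d ≠ a := by
    rintro rfl; exact ncb (hcd.s23.uniq hab)
  have ndb : d ≠ b := by
    rintro rfl; exact nca (hcd.s23.uniq hab.s23)
  obtain ⟨a', ha'⟩ := memN a ha xa
  obtain ⟨b', hb'⟩ := memN b hb xb
  have nba' : b ≠ a' := by
    rintro rfl; exact hxy (ha'.rot.uniq hab.rot)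
  obtain ⟨s, s', st⟩ := third' ha' hb' hab.ne23.symm nba'
  have mem' : ∀ {z : P}, z ∈ N → x ≠ z → z = a ∨ z = a' ∨ z = b ∨ z = b' ∨ z = s ∨ z = s' := by
    intro z hz hxz
    obtain ⟨z', hz'⟩ := memN z hz hxz
    rcases st.all hz' with h | h | h | h | h | h
    · exact Or.inl h.1
    · exact Or.inr (Or.inl h.1)
    · exact Or.inr (Or.inr (Or.inl h.1))
    · exact Or.inr (Or.inr (Or.inr (Or.inl h.1)))
    · exact Or.inr (Or.inr (Or.inr (Or.inr (Or.inl h.1))))
    · exact Or.inr (Or.inr (Or.inr (Or.inr (Or.inr h.1))))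
  have hNeq : N = ({x, a, a', b, b', s, s'} : Finset P) := by
    apply Finset.eq_of_subset_of_card_le
    · intro z hz
      simp only [Finset.mem_insert, Finset.mem_singleton]
      by_cases hxz : x = z
      · exact Or.inl hxz.symm
      · exact Or.inr (mem' hz hxz)
    · rw [st.card7, c7]
  have done : M.T y a' b' → ∃ a a' b b' r r' y, Star M x a a' b b' r r' ∧ M.T y a b ∧
      M.T y a' b' ∧ y ∉ ({x, a, a', b, b', r, r'} : Finset P) ∧
      ∃ ψ : V →ₗ[ℝ] ℝ, ∀ z, ψ (M.v z) = 0 ↔
        z ∈ ({x, a, a', b, b', r, r'} : Finset P) ∨ z = y := by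
    intro h
    refine ⟨a, a', b, b', s, s', y, st, hab, h, ?_, ψ, ?_⟩
    · rw [← hNeq]; exact hyN
    · rw [← hNeq]; exact hψ
  -- excluded configurations
  have badA : ∀ {d : P}, M.T y a' d → (d = s ∨ d = s') → False := by
    intro d hd hds
    refine claim1 h14 H8 HB st (M.v x) (M.v a) (M.v d) ?_
    intro χ e1 e2 e3
    have e4 := ha'.zero e1 e2
    have e5 := hd.rot.zero e4 e3
    have e6 := hab.zero e5 e2
    refine ⟨e1, e2, e6, ?_⟩
    rcases hds with h | h
    · rw [← h]; exact e3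
    · exact st.t3.s23.zero e1 (h ▸ e3)
  have badB : ∀ {d : P}, M.T y b' d → (d = s ∨ d = s') → False := by
    intro d hd hds
    refine claim1 h14 H8 HB st (M.v x) (M.v b) (M.v d) ?_
    intro χ e1 e2 e3
    have e4 := hb'.zero e1 e2
    have e5 := hd.rot.zero e4 e3
    have e6 := hab.s23.zero e5 e2
    refine ⟨e1, e6, e2, ?_⟩
    rcases hds with h | h
    · rw [← h]; exact e3
    · exact st.t3.s23.zero e1 (h ▸ e3)
  rcases mem' hc xc with h | h | h | h | h | h
  · exact absurd h nca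
  · rw [h] at hcd
    rcases mem' hd xd with h' | h' | h' | h' | h' | h'
    · exact absurd h' nda
    · exact absurd h'.symm hcd.ne23
    · exact absurd h' ndb
    · exact done (h' ▸ hcd)
    · exact (badA hcd (Or.inl h')).elim
    · exact (badA hcd (Or.inr h')).elim
  · exact absurd h ncb
  · rw [h] at hcd
    rcases mem' hd xd with h' | h' | h' | h' | h' | h'
    · exact absurd h' nda
    · exact done (h' ▸ hcd).s23
    · exact absurd h' ndb
    · exact absurd h'.symm hcd.ne23
    · exact (badB hcd (Or.inl h')).elim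
    · exact (badB hcd (Or.inr h')).elim
  · rcases mem' hd xd with h' | h' | h' | h' | h' | h'
    · exact absurd h' nda
    · exact (badA (h' ▸ hcd).s23 (Or.inl h)).elim
    · exact absurd h' ndb
    · exact (badB (h' ▸ hcd).s23 (Or.inl h)).elim
    · exact absurd (h.trans h'.symm) hcd.ne23
    · rw [h, h'] at hcd
      exact absurd (st.t3.rot.uniq hcd.rot) hxy
  · rcases mem' hd xd with h' | h' | h' | h' | h' | h'
    · exact absurd h' nda
    · exact (badA (h' ▸ hcd).s23 (Or.inr h)).elim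
    · exact absurd h' ndb
    · exact (badB (h' ▸ hcd).s23 (Or.inr h)).elim
    · rw [h, h'] at hcd
      exact absurd (st.t3.s23.rot.uniq hcd.rot) hxy
    · exact absurd (h.trans h'.symm) hcd.ne23

/-- a line is a quad line if it is one of the four lines of a complete quadrilateral -/
def Quad (M : Model P V) (L : Finset P) : Prop :=
  ∃ a b c d e f, L = {a, b, c} ∧ M.T a b c ∧ M.T a d e ∧ M.T b d f ∧ M.T c e f ∧ d ≠ b ∧ d ≠ c

theorem quad_at {L : Finset P} {x : P} (hL : M.Quad L) (hx : x ∈ L) :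
    ∃ b c d e f, L = {x, b, c} ∧ M.T x b c ∧ M.T x d e ∧ M.T b d f ∧ M.T c e f ∧ d ≠ b ∧
      d ≠ c := by
  obtain ⟨a, b, c, d, e, f, rfl, t1, t2, t3, t4, n1, n2⟩ := hL
  simp only [Finset.mem_insert, Finset.mem_singleton] at hx
  rcases hx with rfl | rfl | rfl
  · exact ⟨b, c, d, e, f, rfl, t1, t2, t3, t4, n1, n2⟩
  · exact ⟨a, c, d, f, e, Finset.insert_comm _ _ _, t1.s12, t3, t2, t4.s23, t2.ne12.symm, n2⟩
  · refine ⟨a, b, e, f, d, ?_, t1.rot', t4, t2.s23, t3.s23, t2.ne13.symm, ?_⟩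
    · ext z; simp only [Finset.mem_insert, Finset.mem_singleton]; tauto
    · rintro rfl
      exact n2 (t2.s23.uniq t1)

theorem last (h14 : Fintype.card P = 14)
    (H8 : ∀ ψ : V →ₗ[ℝ] ℝ, (∃ p, ψ (M.v p) ≠ 0) → (M.Z ψ).card ≤ 8)
    (HB : ∀ ψ : V →ₗ[ℝ] ℝ, (∃ p, ψ (M.v p) ≠ 0) → (M.Z ψ).card = 8 → M.nB ψ = 0) : False := by
  classical
  have one : ∀ x : P, (M.lines.filter (fun L => x ∈ L ∧ ¬ M.Quad L)).card = 1 := by
    intro x
    obtain ⟨a, a', b, b', r, r', y, st, t1, t2, hy, ψ, hψ⟩ := claim2 h14 H8 HB x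
    rw [Finset.card_eq_one]
    refine ⟨{x, r, r'}, ?_⟩
    ext L
    rw [Finset.mem_filter, Finset.mem_singleton]
    constructor
    · rintro ⟨hL, hx, hnq⟩
      obtain ⟨c, c', hT, rfl⟩ := M.exists_T_of_mem hL hx
      have q1 : M.Quad {x, a, a'} :=
        ⟨x, a, a', b, b', y, rfl, st.t1, st.t2, t1.rot, t2.rot, st.n1.symm, st.n5.symm⟩
      have q2 : M.Quad {x, b, b'} :=
        ⟨x, b, b', a, a', y, rfl, st.t2, st.t1, t1.rev, t2.rev, st.n1, st.n2⟩
      rcases st.all hT with h | h | h | h | h | h <;> obtain ⟨rfl, rfl⟩ := h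
      · exact absurd q1 hnq
      · rw [Finset.pair_comm] at hnq; exact absurd q1 hnq
      · exact absurd q2 hnq
      · rw [Finset.pair_comm] at hnq; exact absurd q2 hnq
      · rfl
      · rw [Finset.pair_comm]
    · rintro rfl
      refine ⟨st.t3.2.2.2, by simp, ?_⟩
      intro hq
      obtain ⟨B, C, D, E, F, hBC, s1, s2, s3, s4, m1, m2⟩ := quad_at hq (x := x) (by simp)
      have hB : B = r ∨ B = r' := by
        have : B ∈ ({x, r, r'} : Finset P) := by rw [hBC]; simp
        simp only [Finset.mem_insert, Finset.mem_singleton] at this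
        exact this.resolve_left s1.ne12.symm
      have hC : C = r ∨ C = r' := by
        have : C ∈ ({x, r, r'} : Finset P) := by rw [hBC]; simp
        simp only [Finset.mem_insert, Finset.mem_singleton] at this
        exact this.resolve_left s1.ne13.symm
      have hBC' : B ≠ C := s1.ne23
      have hD : D = a ∨ D = a' ∨ D = b ∨ D = b' := by
        rcases st.all s2 with h | h | h | h | h | h
        · exact Or.inl h.1
        · exact Or.inr (Or.inl h.1)
        · exact Or.inr (Or.inr (Or.inl h.1))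
        · exact Or.inr (Or.inr (Or.inr h.1))
        · rcases hB with hB | hB
          · exact absurd (h.1.trans hB.symm) m1
          · rcases hC with hC | hC
            · exact absurd (h.1.trans hC.symm) m2
            · exact absurd (hB.trans hC.symm) hBC'
        · rcases hB with hB | hB
          · rcases hC with hC | hC
            · exact absurd (hB.trans hC.symm) hBC'
            · exact absurd (h.1.trans hC.symm) m2
          · exact absurd (h.1.trans hB.symm) m1
      have zB : ψ (M.v B) = 0 := by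
        rw [hψ]; left
        rcases hB with h | h <;> rw [h] <;> simp
      have zD : ψ (M.v D) = 0 := by
        rw [hψ]; left
        rcases hD with h | h | h | h <;> rw [h] <;> simp
      have zF := s3.zero zB zD
      have nBx : x ≠ B := s1.ne12
      have nDx : x ≠ D := s2.ne12
      have nFx : x ≠ F := by
        rintro rfl
        exact m2 (s3.rot'.uniq s1)
      rcases (hψ F).mp zF with hF | hF
      · -- extra line inside the neighbourhood
        have col : ∀ {z : P}, z ∈ ({x, a, a', b, b', r, r'} : Finset P) → x ≠ z →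
            ∃ z', M.T x z z' := by
          intro z hz hxz
          simp only [Finset.mem_insert, Finset.mem_singleton] at hz
          rcases hz with rfl | rfl | rfl | rfl | rfl | rfl | rfl
          · exact absurd rfl hxz
          · exact ⟨_, st.t1⟩
          · exact ⟨_, st.t1.s23⟩
          · exact ⟨_, st.t2⟩
          · exact ⟨_, st.t2.s23⟩
          · exact ⟨_, st.t3⟩
          · exact ⟨_, st.t3.s23⟩
        obtain ⟨F', hF'⟩ := col hF nFx
        obtain ⟨hst, hall⟩ := extra s3 nFx s1 s2 hF'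
        refine claim1 h14 H8 HB hst (M.v x) (M.v B) (M.v D) ?_
        intro χ e1 e2 e3
        have := hall χ e1 e2 e3
        exact ⟨e1, e2, e3, this.2.2.1⟩
      · -- F = y
        rw [hF] at s3
        have key : ∀ {u w : P}, M.T y u w → D = u → w = B := by
          intro u w h hu
          subst hu
          exact h.uniq s3.rev
        rcases hD with h | h | h | h
        · have := key t1 h
          rcases hB with hB | hB
          · exact st.n9 (this.trans hB)
          · exact st.n10 (this.trans hB)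
        · have := key t2 h
          rcases hB with hB | hB
          · exact st.n11 (this.trans hB)
          · exact st.n12 (this.trans hB)
        · have := key t1.s23 h
          rcases hB with hB | hB
          · exact st.n3 (this.trans hB)
          · exact st.n4 (this.trans hB)
        · have := key t2.s23 h
          rcases hB with hB | hB
          · exact st.n7 (this.trans hB)
          · exact st.n8 (this.trans hB)
  -- double counting
  have h1 : ∑ L ∈ M.lines.filter (fun L => ¬ M.Quad L), L.card =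
      ∑ x : P, (M.lines.filter (fun L => x ∈ L ∧ ¬ M.Quad L)).card := by
    have e1 : ∀ L ∈ M.lines.filter (fun L => ¬ M.Quad L), L.card =
        ∑ x : P, if x ∈ L then 1 else 0 := by
      intro L _
      rw [← Finset.sum_filter, ← Finset.card_eq_sum_ones]
      congr 1
      ext z; simp
    rw [Finset.sum_congr rfl e1, Finset.sum_comm]
    apply Finset.sum_congr rfl
    intro x _
    rw [← Finset.sum_filter, ← Finset.card_eq_sum_ones, Finset.filter_filter]
    congr 1
    apply Finset.filter_congr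
    intro L _
    exact and_comm
  have h2 : ∑ L ∈ M.lines.filter (fun L => ¬ M.Quad L), L.card =
      (M.lines.filter (fun L => ¬ M.Quad L)).card * 3 := by
    rw [Finset.sum_congr rfl (fun L hL => M.card3 L (Finset.mem_filter.mp hL).1)]
    simp
  have h3 : ∑ x : P, (M.lines.filter (fun L => x ∈ L ∧ ¬ M.Quad L)).card = 14 := by
    rw [Finset.sum_congr rfl (fun x _ => one x)]
    simp [h14]
  omega

/-- **Main combinatorial theorem**: a model needs at least fifteen points. -/
theorem fifteen_le (M : Model P V) : 15 ≤ Fintype.card P := by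
  by_contra hlt
  have hn : Fintype.card P ≤ 14 := by omega
  obtain ⟨φ, hφ⟩ := M.exists_max
  obtain ⟨ψ, hψ, h8⟩ := M.eight hn
  have h1 := hφ.2 ψ hψ
  obtain ⟨x, hx⟩ := hφ.1
  have h4 := M.four_le φ x hx
  have hc := M.card_ZS φ
  have h4' : (M.S φ).card ≠ 4 := fun h => four_false hφ hn h
  have h5' : (M.S φ).card ≠ 5 := fun h => five_false hφ hn h
  have h6 : (M.S φ).card = 6 := by omega
  have h14 : Fintype.card P = 14 := by omega
  have hZ8 : (M.Z φ).card = 8 := by omega
  refine last (M := M) h14 (fun χ hχ => by have := hφ.2 χ hχ; omega) ?_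
  intro χ hχ h8χ
  have hM : M.Max χ := ⟨hχ, fun ξ hξ => by have := hφ.2 ξ hξ; omega⟩
  have := M.card_ZS χ
  exact six_B hM hn (by omega)

end Model

end Q150DimN3
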