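import Pool.Agent.Q150.FacesDefs

/-!
# Regions of the projective plane cut out by linear forms
-/

namespace Q150.Faces

open scoped LinearAlgebra.Projectivization
open Topology

/-- The quotient map. -/
noncomputable def toP (v : {v : Fin 3 → ℝ // v ≠ 0}) : P2 := Projectivization.mk ℝ v.1 v.2

lemma toP_continuous : Continuous toP := continuous_coinduced_rng

lemma isOpen_P2 (s : Set P2) : IsOpen s ↔ IsOpen (toP ⁻¹' s) := isOpen_coinduced

lemma exists_rep (v : Fin 3 → ℝ) (hv : v ≠ 0) :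
    ∃ c : ℝ, c ≠ 0 ∧ (Projectivization.mk ℝ v hv).rep = c • v := by
  obtain ⟨c, hc⟩ := Projectivization.exists_smul_eq_mk_rep ℝ v hv
  exact ⟨c, c.ne_zero, hc.symm⟩

lemma mem_line_mk (a v : Fin 3 → ℝ) (hv : v ≠ 0) :
    Projectivization.mk ℝ v hv ∈ line a ↔ a ⬝ᵥ v = 0 := by
  obtain ⟨c, hc, h⟩ := exists_rep v hv
  show a ⬝ᵥ (Projectivization.mk ℝ v hv).rep = 0 ↔ _
  rw [h, dotProduct_smul, smul_eq_mul, mul_eq_zero]
  simp [hc]

lemma mk_neg (v : Fin 3 → ℝ) (hv : v ≠ 0) (hv' : -v ≠ 0) :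
    Projectivization.mk ℝ (-v) hv' = Projectivization.mk ℝ v hv := by
  rw [Projectivization.mk_eq_mk_iff']
  exact ⟨-1, by simp⟩

section region

variable {ι : Type} [Finite ι] (W : Submodule ℝ (Fin 3 → ℝ)) (b : ι → Fin 3 → ℝ)

/-- The points of `W` off the hyperplanes. -/
def off : Set P2 := {p | p.rep ∈ W ∧ ∀ j, b j ⬝ᵥ p.rep ≠ 0}

/-- The points whose sign vector agrees with that of `v` up to a global sign. -/
def same (v : Fin 3 → ℝ) : Set P2 :=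
  {p | (∀ j, 0 < (b j ⬝ᵥ p.rep) * (b j ⬝ᵥ v)) ∨ ∀ j, (b j ⬝ᵥ p.rep) * (b j ⬝ᵥ v) < 0}

/-- The points with a genuinely different sign vector. -/
def mixed (v : Fin 3 → ℝ) : Set P2 :=
  {p | ∃ j l, 0 < (b j ⬝ᵥ p.rep) * (b j ⬝ᵥ v) ∧ (b l ⬝ᵥ p.rep) * (b l ⬝ᵥ v) < 0}

omit [Finite ι] in
lemma mem_same_mk (v x : Fin 3 → ℝ) (hx : x ≠ 0) : Projectivization.mk ℝ x hx ∈ same b v ↔
    (∀ j, 0 < (b j ⬝ᵥ x) * (b j ⬝ᵥ v)) ∨ ∀ j, (b j ⬝ᵥ x) * (b j ⬝ᵥ v) < 0 := by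
  obtain ⟨c, hc, h⟩ := exists_rep x hx
  show ((∀ j, 0 < (b j ⬝ᵥ (Projectivization.mk ℝ x hx).rep) * (b j ⬝ᵥ v)) ∨
    ∀ j, (b j ⬝ᵥ (Projectivization.mk ℝ x hx).rep) * (b j ⬝ᵥ v) < 0) ↔ _
  rw [h]
  have e : ∀ j, (b j ⬝ᵥ (c • x)) * (b j ⬝ᵥ v) = c * ((b j ⬝ᵥ x) * (b j ⬝ᵥ v)) := by
    intro j; rw [dotProduct_smul, smul_eq_mul]; ring
  simp only [e]
  rcases lt_or_gt_of_ne hc with hc | hc
  · have e1 : ∀ j, 0 < c * ((b j ⬝ᵥ x) * (b j ⬝ᵥ v)) ↔ (b j ⬝ᵥ x) * (b j ⬝ᵥ v) < 0 :=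
      fun j => by constructor <;> intro h <;> nlinarith
    have e2 : ∀ j, c * ((b j ⬝ᵥ x) * (b j ⬝ᵥ v)) < 0 ↔ 0 < (b j ⬝ᵥ x) * (b j ⬝ᵥ v) :=
      fun j => by constructor <;> intro h <;> nlinarith
    simp only [e1, e2]
    exact or_comm
  · have e1 : ∀ j, 0 < c * ((b j ⬝ᵥ x) * (b j ⬝ᵥ v)) ↔ 0 < (b j ⬝ᵥ x) * (b j ⬝ᵥ v) :=
      fun j => by constructor <;> intro h <;> nlinarith
    have e2 : ∀ j, c * ((b j ⬝ᵥ x) * (b j ⬝ᵥ v)) < 0 ↔ (b j ⬝ᵥ x) * (b j ⬝ᵥ v) < 0 :=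
      fun j => by constructor <;> intro h <;> nlinarith
    simp only [e1, e2]

omit [Finite ι] in
lemma mem_mixed_mk (v x : Fin 3 → ℝ) (hx : x ≠ 0) : Projectivization.mk ℝ x hx ∈ mixed b v ↔
    ∃ j l, 0 < (b j ⬝ᵥ x) * (b j ⬝ᵥ v) ∧ (b l ⬝ᵥ x) * (b l ⬝ᵥ v) < 0 := by
  obtain ⟨c, hc, h⟩ := exists_rep x hx
  show (∃ j l, 0 < (b j ⬝ᵥ (Projectivization.mk ℝ x hx).rep) * (b j ⬝ᵥ v) ∧
    (b l ⬝ᵥ (Projectivization.mk ℝ x hx).rep) * (b l ⬝ᵥ v) < 0) ↔ _
  rw [h]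
  have e : ∀ j, (b j ⬝ᵥ (c • x)) * (b j ⬝ᵥ v) = c * ((b j ⬝ᵥ x) * (b j ⬝ᵥ v)) := by
    intro j; rw [dotProduct_smul, smul_eq_mul]; ring
  simp only [e]
  rcases lt_or_gt_of_ne hc with hc | hc
  · constructor
    · rintro ⟨j, l, h1, h2⟩
      exact ⟨l, j, by nlinarith, by nlinarith⟩
    · rintro ⟨j, l, h1, h2⟩
      exact ⟨l, j, by nlinarith, by nlinarith⟩
  · constructor
    · rintro ⟨j, l, h1, h2⟩
      exact ⟨j, l, by nlinarith, by nlinarith⟩
    · rintro ⟨j, l, h1, h2⟩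
      exact ⟨j, l, by nlinarith, by nlinarith⟩

lemma cont_form (c v : Fin 3 → ℝ) :
    Continuous fun x : {x : Fin 3 → ℝ // x ≠ 0} => (c ⬝ᵥ x.1) * (c ⬝ᵥ v) := by
  have : Continuous fun x : {x : Fin 3 → ℝ // x ≠ 0} => c ⬝ᵥ x.1 := by
    unfold dotProduct
    exact continuous_finsetSum _ fun i _ =>
      continuous_const.mul ((continuous_apply i).comp continuous_subtype_val)
  exact this.mul continuous_const

lemma isOpen_same (v : Fin 3 → ℝ) : IsOpen (same b v) := by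
  rw [isOpen_P2]
  have h : toP ⁻¹' (same b v) =
      (⋂ j, {x | 0 < (b j ⬝ᵥ x.1) * (b j ⬝ᵥ v)}) ∪ ⋂ j, {x | (b j ⬝ᵥ x.1) * (b j ⬝ᵥ v) < 0} := by
    ext x
    have := mem_same_mk b v x.1 x.2
    rw [Set.mem_preimage]
    unfold toP
    rw [this, Set.mem_union, Set.mem_iInter, Set.mem_iInter]
    rfl
  rw [h]
  refine IsOpen.union (isOpen_iInter_of_finite fun j => ?_) (isOpen_iInter_of_finite fun j => ?_)
  · exact isOpen_lt continuous_const (cont_form _ _)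
  · exact isOpen_lt (cont_form _ _) continuous_const

omit [Finite ι] in
lemma isOpen_mixed (v : Fin 3 → ℝ) : IsOpen (mixed b v) := by
  rw [isOpen_P2]
  have h : toP ⁻¹' (mixed b v) =
      ⋃ j, ⋃ l, {x | 0 < (b j ⬝ᵥ x.1) * (b j ⬝ᵥ v)} ∩ {x | (b l ⬝ᵥ x.1) * (b l ⬝ᵥ v) < 0} := by
    ext x
    have := mem_mixed_mk b v x.1 x.2
    rw [Set.mem_preimage]
    unfold toP
    rw [this]
    simp only [Set.mem_iUnion]
    rfl
  rw [h]
  refine isOpen_iUnion fun j => isOpen_iUnion fun l => IsOpen.inter ?_ ?_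
  · exact isOpen_lt continuous_const (cont_form _ _)
  · exact isOpen_lt (cont_form _ _) continuous_const

omit [Finite ι] in
lemma disjoint_same_mixed (v : Fin 3 → ℝ) : Disjoint (same b v) (mixed b v) := by
  rw [Set.disjoint_left]
  rintro p (h | h) ⟨j, l, h1, h2⟩
  · exact absurd (h l) (not_lt.2 h2.le)
  · exact absurd (h j) (not_lt.2 h1.le)

variable [Nonempty ι]

/-- The convex cone of the vectors of `W` with the signs of `v`. -/
def cone (v : Fin 3 → ℝ) : Set (Fin 3 → ℝ) := {x | x ∈ W ∧ ∀ j, 0 < (b j ⬝ᵥ x) * (b j ⬝ᵥ v)}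

omit [Finite ι] [Nonempty ι] in
lemma convex_cone (v : Fin 3 → ℝ) : Convex ℝ (cone W b v) := by
  rintro x ⟨hx, hx'⟩ y ⟨hy, hy'⟩ s t hs ht hst
  refine ⟨W.add_mem (W.smul_mem _ hx) (W.smul_mem _ hy), fun j => ?_⟩
  rw [dotProduct_add, dotProduct_smul, dotProduct_smul, smul_eq_mul, smul_eq_mul]
  have h1 := hx' j
  have h2 := hy' j
  have e : (s * (b j ⬝ᵥ x) + t * (b j ⬝ᵥ y)) * (b j ⬝ᵥ v) =
      s * ((b j ⬝ᵥ x) * (b j ⬝ᵥ v)) + t * ((b j ⬝ᵥ y) * (b j ⬝ᵥ v)) := by ring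
  rw [e]
  rcases hs.eq_or_lt with rfl | hs
  · have : t = 1 := by linarith
    subst this; linarith
  · have := mul_pos hs h1
    have := mul_nonneg ht h2.le
    linarith

omit [Finite ι] in
lemma cone_ne {v x : Fin 3 → ℝ} (hx : x ∈ cone W b v) : x ≠ 0 := by
  rintro rfl
  obtain ⟨j⟩ := ‹Nonempty ι›
  have := hx.2 j
  simp at this

/-- The region of the projective plane. -/
def region (v : Fin 3 → ℝ) : Set P2 := {p | p.rep ∈ W ∧ p ∈ same b v}

omit [Finite ι] in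
lemma region_eq_range (v : Fin 3 → ℝ) :
    region W b v = Set.range fun x : cone W b v => toP ⟨x.1, cone_ne W b x.2⟩ := by
  ext p
  constructor
  · rintro ⟨hW, h⟩
    rcases h with h | h
    · refine ⟨⟨p.rep, hW, h⟩, ?_⟩
      exact Projectivization.mk_rep p
    · refine ⟨⟨-p.rep, W.neg_mem hW, fun j => ?_⟩, ?_⟩
      · rw [dotProduct_neg, neg_mul]; linarith [h j]
      · show Projectivization.mk ℝ (-p.rep) _ = p
        rw [mk_neg p.rep p.rep_nonzero]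
        exact Projectivization.mk_rep p
  · rintro ⟨⟨x, hx⟩, rfl⟩
    have hx0 := cone_ne W b hx
    obtain ⟨c, hc, h⟩ := exists_rep x hx0
    refine ⟨?_, ?_⟩
    · show (Projectivization.mk ℝ x hx0).rep ∈ W
      rw [h]; exact W.smul_mem _ hx.1
    · exact (mem_same_mk b v x hx0).2 (Or.inl hx.2)

omit [Finite ι] in
lemma region_preconnected (v : Fin 3 → ℝ) : IsPreconnected (region W b v) := by
  rw [region_eq_range]
  have : PreconnectedSpace (cone W b v) :=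
    Subtype.preconnectedSpace (convex_cone W b v).isPreconnected
  apply isPreconnected_range
  apply toP_continuous.comp
  exact Continuous.subtype_mk continuous_subtype_val _

/-- The connected component of a point. -/
theorem component_eq (v : Fin 3 → ℝ) (hv : v ≠ 0) (hW : v ∈ W) (hb : ∀ j, b j ⬝ᵥ v ≠ 0) :
    connectedComponentIn (off W b) (Projectivization.mk ℝ v hv) = region W b v := by
  obtain ⟨c, hc, hrep⟩ := exists_rep v hv
  have hvoff : Projectivization.mk ℝ v hv ∈ off W b := by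
    refine ⟨by rw [hrep]; exact W.smul_mem _ hW, fun j => ?_⟩
    rw [hrep, dotProduct_smul, smul_eq_mul]
    exact mul_ne_zero hc (hb j)
  have hvsame : Projectivization.mk ℝ v hv ∈ same b v :=
    (mem_same_mk b v v hv).2 (Or.inl fun j => mul_self_pos.2 (hb j))
  have hsub : region W b v ⊆ off W b := by
    rintro p ⟨h1, h2⟩
    refine ⟨h1, fun j h0 => ?_⟩
    rcases h2 with h2 | h2
    · have := h2 j; rw [h0, zero_mul] at this; exact lt_irrefl _ this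
    · have := h2 j; rw [h0, zero_mul] at this; exact lt_irrefl _ this
  apply Set.Subset.antisymm
  · have hC := isPreconnected_connectedComponentIn (x := Projectivization.mk ℝ v hv)
      (F := off W b)
    have hCsub := connectedComponentIn_subset (off W b) (Projectivization.mk ℝ v hv)
    have hcov : connectedComponentIn (off W b) (Projectivization.mk ℝ v hv) ⊆
        same b v ∪ mixed b v := by
      intro p hp
      have hp' := hCsub hp
      have hne : ∀ j, (b j ⬝ᵥ p.rep) * (b j ⬝ᵥ v) ≠ 0 := fun j => mul_ne_zero (hp'.2 j) (hb j)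
      by_cases h1 : ∀ j, 0 < (b j ⬝ᵥ p.rep) * (b j ⬝ᵥ v)
      · exact Or.inl (Or.inl h1)
      · by_cases h2 : ∀ j, (b j ⬝ᵥ p.rep) * (b j ⬝ᵥ v) < 0
        · exact Or.inl (Or.inr h2)
        · push Not at h1 h2
          obtain ⟨l, hl⟩ := h1
          obtain ⟨j, hj⟩ := h2
          exact Or.inr ⟨j, l, lt_of_le_of_ne hj (hne j).symm, lt_of_le_of_ne hl (hne l)⟩
    have hleft := hC.subset_left_of_subset_union (isOpen_same b v) (isOpen_mixed b v)
      (disjoint_same_mixed b v) hcov ⟨_, mem_connectedComponentIn hvoff, hvsame⟩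
    intro p hp
    exact ⟨(hCsub hp).1, hleft hp⟩
  · exact (region_preconnected W b v).subset_connectedComponentIn ⟨hvoff.1, hvsame⟩ hsub

end region

end Q150.Faces
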