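import Pool.Agent.Q150.FacesA

/-!
# Sides of faces, and the upper bound
-/

namespace Q150.Faces

open scoped LinearAlgebra.Projectivization
open Topology Filter

/-- The kernel of a linear form. -/
def kf (a : Fin 3 → ℝ) : Submodule ℝ (Fin 3 → ℝ) where
  carrier := {x | a ⬝ᵥ x = 0}
  add_mem' := by
    intro x y hx hy
    show a ⬝ᵥ (x + y) = 0
    rw [dotProduct_add, hx, hy, add_zero]
  zero_mem' := by
    show a ⬝ᵥ 0 = 0
    simp
  smul_mem' := by
    intro c x hx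
    show a ⬝ᵥ (c • x) = 0
    rw [dotProduct_smul, hx, smul_zero]

lemma mem_kf (a x : Fin 3 → ℝ) : x ∈ kf a ↔ a ⬝ᵥ x = 0 := Iff.rfl

namespace Arrangement

variable {n : ℕ} (A : Arrangement n)

lemma compl_eq : A.compl = off ⊤ A.a := by
  ext p
  unfold compl off
  simp only [Set.mem_compl_iff, Set.mem_iUnion, not_exists]
  constructor
  · intro h; exact ⟨Submodule.mem_top, h⟩
  · intro h; exact h.2

/-- The forms of the other lines. -/
def rest (i : Fin n) (j : {j : Fin n // j ≠ i}) : Fin 3 → ℝ := A.a j.1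

lemma openLine_eq (i : Fin n) : A.openLine i = off (kf (A.a i)) (A.rest i) := by
  ext p
  unfold openLine off
  simp only [Set.mem_sdiff, Set.mem_iUnion, not_exists]
  constructor
  · rintro ⟨h1, h2⟩
    exact ⟨h1, fun j h => h2 j.1 j.2 h⟩
  · rintro ⟨h1, h2⟩
    exact ⟨h1, fun j hj h => h2 ⟨j, hj⟩ h⟩

omit A in
lemma nonempty_fin (A : Arrangement n) : Nonempty (Fin n) := ⟨⟨0, by have := A.three_le; omega⟩⟩

omit A in
lemma nonempty_rest (A : Arrangement n) (i : Fin n) : Nonempty {j : Fin n // j ≠ i} := by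
  have := A.three_le
  by_cases h : i = ⟨0, by omega⟩
  · exact ⟨⟨⟨1, by omega⟩, by rw [h]; simp⟩⟩
  · exact ⟨⟨⟨0, by omega⟩, fun h' => h h'.symm⟩⟩

/-- `v` lies on no line. -/
def Off (v : Fin 3 → ℝ) : Prop := ∀ i, A.a i ⬝ᵥ v ≠ 0

lemma Off.ne_zero {A : Arrangement n} {v : Fin 3 → ℝ} (hv : A.Off v) : v ≠ 0 := by
  rintro rfl
  obtain ⟨i⟩ := A.nonempty_fin
  exact hv i (by simp)

/-- The face of `v`. -/
def face (v : Fin 3 → ℝ) : Set P2 := region ⊤ A.a v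

lemma mem_faces_iff (F : Set P2) : F ∈ A.faces ↔ ∃ v, A.Off v ∧ F = A.face v := by
  have := A.nonempty_fin
  constructor
  · rintro ⟨p, hp, rfl⟩
    rw [compl_eq] at hp ⊢
    refine ⟨p.rep, hp.2, ?_⟩
    have h := component_eq ⊤ A.a p.rep p.rep_nonzero Submodule.mem_top hp.2
    rw [Projectivization.mk_rep] at h
    exact h
  · rintro ⟨v, hv, rfl⟩
    refine ⟨Projectivization.mk ℝ v hv.ne_zero, ?_, ?_⟩
    · rw [compl_eq]
      obtain ⟨c, hc, h⟩ := exists_rep v hv.ne_zero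
      refine ⟨Submodule.mem_top, fun j => ?_⟩
      rw [h, dotProduct_smul, smul_eq_mul]
      exact mul_ne_zero hc (hv j)
    · rw [compl_eq, component_eq ⊤ A.a v hv.ne_zero Submodule.mem_top hv]
      rfl

/-- The lines bounding the face of `v`. -/
def bd (v : Fin 3 → ℝ) : Set (Fin n) :=
  {i | ∃ y, A.a i ⬝ᵥ y = 0 ∧ ∀ j, j ≠ i → 0 < (A.a j ⬝ᵥ y) * (A.a j ⬝ᵥ v)}

lemma sides_eq {v : Fin 3 → ℝ} (hv : A.Off v) :
    {i | ∃ e ∈ A.edgesOn i, e ⊆ closure (A.face v)} = A.bd v := by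
  have hne := A.nonempty_fin
  ext i
  have hner := A.nonempty_rest i
  constructor
  · rintro ⟨e, ⟨p, hp, rfl⟩, hcl⟩
    have hpe := hcl (mem_connectedComponentIn hp)
    rw [openLine_eq] at hp
    obtain ⟨hp1, hp2⟩ := hp
    have hnm : p ∉ mixed (A.rest i) v := by
      intro hm
      obtain ⟨q, hq1, hq2⟩ := mem_closure_iff.1 hpe _ (isOpen_mixed (A.rest i) v) hm
      obtain ⟨j, l, h1, h2⟩ := hq1
      rcases hq2.2 with h | h
      · exact absurd (h l.1) (not_lt.2 h2.le)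
      · exact absurd (h j.1) (not_lt.2 h1.le)
    have hnz : ∀ j : {j : Fin n // j ≠ i}, (A.rest i j ⬝ᵥ p.rep) * (A.rest i j ⬝ᵥ v) ≠ 0 :=
      fun j => mul_ne_zero (hp2 j) (hv j.1)
    by_cases h1 : ∀ j, 0 < (A.rest i j ⬝ᵥ p.rep) * (A.rest i j ⬝ᵥ v)
    · exact ⟨p.rep, hp1, fun j hj => h1 ⟨j, hj⟩⟩
    · by_cases h2 : ∀ j, (A.rest i j ⬝ᵥ p.rep) * (A.rest i j ⬝ᵥ v) < 0
      · refine ⟨-p.rep, by rw [dotProduct_neg, hp1, neg_zero], fun j hj => ?_⟩
        have := h2 ⟨j, hj⟩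
        rw [dotProduct_neg, neg_mul]
        unfold rest at this
        linarith
      · exfalso
        push Not at h1 h2
        obtain ⟨l, hl⟩ := h1
        obtain ⟨j, hj⟩ := h2
        exact hnm ⟨j, l, lt_of_le_of_ne hj (hnz j).symm, lt_of_le_of_ne hl (hnz l)⟩
  · rintro ⟨y, hy1, hy2⟩
    have hyoff : ∀ j : {j : Fin n // j ≠ i}, A.rest i j ⬝ᵥ y ≠ 0 := by
      intro j h
      have := hy2 j.1 j.2
      unfold rest at h
      rw [h, zero_mul] at this
      exact lt_irrefl _ this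
    have hy0 : y ≠ 0 := by
      rintro rfl
      obtain ⟨j⟩ := hner
      exact hyoff j (by simp)
    have hcomp := component_eq (kf (A.a i)) (A.rest i) y hy0 hy1 hyoff
    refine ⟨connectedComponentIn (A.openLine i) (Projectivization.mk ℝ y hy0), ⟨_, ?_, rfl⟩, ?_⟩
    · rw [openLine_eq]
      obtain ⟨c, hc, h⟩ := exists_rep y hy0
      refine ⟨?_, fun j => ?_⟩
      · rw [h]; exact Submodule.smul_mem _ _ hy1
      · rw [h, dotProduct_smul, smul_eq_mul]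
        exact mul_ne_zero hc (hyoff j)
    · rw [openLine_eq, hcomp, region_eq_range]
      rintro _ ⟨⟨x, hx1, hx2⟩, rfl⟩
      have hxv : ∀ j, j ≠ i → 0 < (A.a j ⬝ᵥ x) * (A.a j ⬝ᵥ v) := by
        intro j hj
        have e1 := hx2 ⟨j, hj⟩
        have e2 := hy2 j hj
        unfold rest at e1
        have e3 : 0 < ((A.a j ⬝ᵥ x) * (A.a j ⬝ᵥ y)) * ((A.a j ⬝ᵥ y) * (A.a j ⬝ᵥ v)) :=
          mul_pos e1 e2
        have e4 : ((A.a j ⬝ᵥ x) * (A.a j ⬝ᵥ y)) * ((A.a j ⬝ᵥ y) * (A.a j ⬝ᵥ v)) =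
            ((A.a j ⬝ᵥ x) * (A.a j ⬝ᵥ v)) * (A.a j ⬝ᵥ y) ^ 2 := by ring
        rw [e4] at e3
        exact pos_of_mul_pos_left e3 (sq_nonneg _)
      have hcone : ∀ t : ℝ, 0 < t → x + t • v ∈ cone ⊤ A.a v := by
        intro t ht
        refine ⟨Submodule.mem_top, fun j => ?_⟩
        rw [dotProduct_add, dotProduct_smul, smul_eq_mul]
        have hvj : 0 < (A.a j ⬝ᵥ v) ^ 2 := by
          have := hv j
          positivity
        have e : (A.a j ⬝ᵥ x + t * (A.a j ⬝ᵥ v)) * (A.a j ⬝ᵥ v) =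
            (A.a j ⬝ᵥ x) * (A.a j ⬝ᵥ v) + t * (A.a j ⬝ᵥ v) ^ 2 := by ring
        rw [e]
        have h2 : 0 < t * (A.a j ⬝ᵥ v) ^ 2 := mul_pos ht hvj
        by_cases hj : j = i
        · subst hj
          have h3 : A.a j ⬝ᵥ x = 0 := hx1
          rw [h3, zero_mul, zero_add]; exact h2
        · exact add_pos (hxv j hj) h2
      have hpos : ∀ m : ℕ, (0 : ℝ) < 1 / ((m : ℝ) + 1) := fun m => by positivity
      have hlim : Tendsto (fun m : ℕ => x + (1 / ((m : ℝ) + 1)) • v) atTop (𝓝 x) := by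
        have h1 : Tendsto (fun m : ℕ => (1 / ((m : ℝ) + 1)) • v) atTop (𝓝 ((0 : ℝ) • v)) :=
          tendsto_one_div_add_atTop_nhds_zero_nat.smul_const v
        rw [zero_smul] at h1
        have h2 := (tendsto_const_nhds (x := x)).add h1
        rw [add_zero] at h2
        exact h2
      have hlim2 : Tendsto (fun m : ℕ => toP ⟨x + (1 / ((m : ℝ) + 1)) • v,
          cone_ne ⊤ A.a (hcone _ (hpos m))⟩) atTop
          (𝓝 (toP ⟨x, cone_ne (kf (A.a i)) (A.rest i) ⟨hx1, hx2⟩⟩)) :=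
        (toP_continuous.tendsto _).comp (tendsto_subtype_rng.2 hlim)
      refine mem_closure_of_tendsto hlim2 (Eventually.of_forall fun m => ?_)
      unfold face
      rw [region_eq_range]
      exact ⟨⟨_, hcone _ (hpos m)⟩, rfl⟩

lemma numSides_eq {v : Fin 3 → ℝ} (hv : A.Off v) : A.numSides (A.face v) = (A.bd v).ncard := by
  unfold numSides
  rw [sides_eq A hv]

omit A in
lemma sgn_pp {x y z : ℝ} (h1 : 0 < x * y) (h2 : 0 < y * z) : 0 < x * z := by
  have h := mul_pos h1 h2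
  have e : x * y * (y * z) = (x * z) * y ^ 2 := by ring
  rw [e] at h
  exact pos_of_mul_pos_left h (sq_nonneg _)

omit A in
lemma sgn_np {x y z : ℝ} (h1 : x * y < 0) (h2 : 0 < y * z) : x * z < 0 := by
  have := sgn_pp (x := -x) (y := y) (z := z) (by linarith) h2
  linarith

omit A in
lemma sgn_pn {x y z : ℝ} (h1 : 0 < x * y) (h2 : y * z < 0) : x * z < 0 := by
  have := sgn_pp (x := x) (y := y) (z := -z) h1 (by linarith)
  linarith

omit A in
lemma sgn_nn {x y z : ℝ} (h1 : x * y < 0) (h2 : y * z < 0) : 0 < x * z := by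
  have := sgn_pp (x := -x) (y := y) (z := -z) (by linarith) (by linarith)
  linarith

lemma face_eq_of {v w : Fin 3 → ℝ}
    (h : (∀ i, 0 < (A.a i ⬝ᵥ v) * (A.a i ⬝ᵥ w)) ∨ ∀ i, (A.a i ⬝ᵥ v) * (A.a i ⬝ᵥ w) < 0) :
    A.face v = A.face w := by
  have key : ∀ x y z : ℝ, (0 < y * z → (0 < x * y ↔ 0 < x * z) ∧ (x * y < 0 ↔ x * z < 0)) ∧
      (y * z < 0 → (0 < x * y ↔ x * z < 0) ∧ (x * y < 0 ↔ 0 < x * z)) := by
    intro x y z
    constructor
    · intro hyz
      have hzy : 0 < z * y := by rw [mul_comm]; exact hyz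
      exact ⟨⟨fun h => sgn_pp h hyz, fun h => sgn_pp h hzy⟩,
        ⟨fun h => sgn_np h hyz, fun h => sgn_np h hzy⟩⟩
    · intro hyz
      have hzy : z * y < 0 := by rw [mul_comm]; exact hyz
      exact ⟨⟨fun h => sgn_pn h hyz, fun h => sgn_nn h hzy⟩,
        ⟨fun h => sgn_nn h hyz, fun h => sgn_pn h hzy⟩⟩
  ext p
  unfold face region same
  simp only [Set.mem_ofPred_eq]
  rcases h with h | h
  · have e1 : ∀ j, 0 < (A.a j ⬝ᵥ p.rep) * (A.a j ⬝ᵥ v) ↔ 0 < (A.a j ⬝ᵥ p.rep) * (A.a j ⬝ᵥ w) :=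
      fun j => (((key _ _ _).1 (h j)).1)
    have e2 : ∀ j, (A.a j ⬝ᵥ p.rep) * (A.a j ⬝ᵥ v) < 0 ↔ (A.a j ⬝ᵥ p.rep) * (A.a j ⬝ᵥ w) < 0 :=
      fun j => (((key _ _ _).1 (h j)).2)
    simp only [e1, e2]
  · have e1 : ∀ j, 0 < (A.a j ⬝ᵥ p.rep) * (A.a j ⬝ᵥ v) ↔ (A.a j ⬝ᵥ p.rep) * (A.a j ⬝ᵥ w) < 0 :=
      fun j => (((key _ _ _).2 (h j)).1)
    have e2 : ∀ j, (A.a j ⬝ᵥ p.rep) * (A.a j ⬝ᵥ v) < 0 ↔ 0 < (A.a j ⬝ᵥ p.rep) * (A.a j ⬝ᵥ w) :=
      fun j => (((key _ _ _).2 (h j)).2)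
    simp only [e1, e2]
    constructor
    · rintro ⟨h1, h2⟩; exact ⟨h1, h2.symm⟩
    · rintro ⟨h1, h2⟩; exact ⟨h1, h2.symm⟩

lemma bd_neg (v : Fin 3 → ℝ) : A.bd (-v) = A.bd v := by
  ext i
  constructor
  · rintro ⟨y, h1, h2⟩
    refine ⟨-y, by rw [dotProduct_neg, h1, neg_zero], fun j hj => ?_⟩
    have := h2 j hj
    rw [dotProduct_neg] at this ⊢
    linarith
  · rintro ⟨y, h1, h2⟩
    refine ⟨-y, by rw [dotProduct_neg, h1, neg_zero], fun j hj => ?_⟩
    have := h2 j hj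
    rw [dotProduct_neg, dotProduct_neg]
    linarith

lemma comb (hA : A.IsSimple) {i j k : Fin n} (hij : i ≠ j) (hik : i ≠ k) (hjk : j ≠ k)
    (l : Fin n) : ∃ c : Fin 3 → ℝ, ∀ x, A.a l ⬝ᵥ x =
      c 0 * (A.a i ⬝ᵥ x) + c 1 * (A.a j ⬝ᵥ x) + c 2 * (A.a k ⬝ᵥ x) := by
  set M : Matrix (Fin 3) (Fin 3) ℝ := Matrix.of ![A.a i, A.a j, A.a k] with hM
  have hdet : M.det ≠ 0 := by
    intro h0
    obtain ⟨x, hx0, hx⟩ := Matrix.exists_mulVec_eq_zero_iff.2 h0
    have e0 : A.a i ⬝ᵥ x = 0 := congrFun hx 0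
    have e1 : A.a j ⬝ᵥ x = 0 := congrFun hx 1
    have e2 : A.a k ⬝ᵥ x = 0 := congrFun hx 2
    have hmem : Projectivization.mk ℝ x hx0 ∈ line (A.a i) ∩ line (A.a j) ∩ line (A.a k) :=
      ⟨⟨(mem_line_mk _ _ _).2 e0, (mem_line_mk _ _ _).2 e1⟩, (mem_line_mk _ _ _).2 e2⟩
    rw [hA i j k hij hik hjk] at hmem
    exact hmem
  have hunit : IsUnit M.det := isUnit_iff_ne_zero.2 hdet
  refine ⟨Matrix.vecMul (A.a l) M⁻¹, fun x => ?_⟩
  have h1 : Matrix.vecMul (Matrix.vecMul (A.a l) M⁻¹) M = A.a l := by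
    rw [Matrix.vecMul_vecMul, Matrix.nonsing_inv_mul _ hunit, Matrix.vecMul_one]
  calc A.a l ⬝ᵥ x = Matrix.vecMul (Matrix.vecMul (A.a l) M⁻¹) M ⬝ᵥ x := by rw [h1]
    _ = Matrix.vecMul (A.a l) M⁻¹ ⬝ᵥ Matrix.mulVec M x := by rw [Matrix.dotProduct_mulVec]
    _ = _ := by
        rw [dotProduct, Fin.sum_univ_three]
        rfl

lemma key_sign {β γ b c b' c' p2 p3 q2 q3 V W : ℝ} (hb : 0 < b * p2) (hc : 0 < c * p3)
    (hb' : 0 < b' * q2) (hc' : 0 < c' * q3) (h2 : 0 < p2 * q2) (h3 : 0 < p3 * q3)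
    (hX : 0 < (β * b + γ * c) * V) (hY : 0 < (β * b' + γ * c') * W) (hVW : V * W < 0) :
    (β * γ) * (p2 * p3) < 0 := by
  by_contra hcon
  push Not at hcon
  have hXY : (β * b + γ * c) * (β * b' + γ * c') < 0 := by
    have h := mul_pos hX hY
    have e : (β * b + γ * c) * V * ((β * b' + γ * c') * W) =
        ((β * b + γ * c) * (β * b' + γ * c')) * (V * W) := by ring
    rw [e] at h
    by_contra h'
    push Not at h'
    have := mul_nonpos_of_nonneg_of_nonpos h' hVW.le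
    linarith
  have hbb : 0 < b * b' := by
    have h := mul_pos hb hb'
    have e : b * p2 * (b' * q2) = (b * b') * (p2 * q2) := by ring
    rw [e] at h
    exact pos_of_mul_pos_left h h2.le
  have hcc : 0 < c * c' := by
    have h := mul_pos hc hc'
    have e : c * p3 * (c' * q3) = (c * c') * (p3 * q3) := by ring
    rw [e] at h
    exact pos_of_mul_pos_left h h3.le
  have hbc : 0 < (b * c') * (p2 * p3) := by
    have h := mul_pos (mul_pos hb hc') h3
    have e : b * p2 * (c' * q3) * (p3 * q3) = ((b * c') * (p2 * p3)) * q3 ^ 2 := by ring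
    rw [e] at h
    exact pos_of_mul_pos_left h (sq_nonneg _)
  have hcb : 0 < (b' * c) * (p2 * p3) := by
    have h := mul_pos (mul_pos hb' hc) h2
    have e : b' * q2 * (c * p3) * (p2 * q2) = ((b' * c) * (p2 * p3)) * q2 ^ 2 := by ring
    rw [e] at h
    exact pos_of_mul_pos_left h (sq_nonneg _)
  have hpp : 0 < (p2 * p3) ^ 2 := by
    have : p2 * p3 ≠ 0 := by
      intro h0; rw [h0, mul_zero] at hbc; exact lt_irrefl _ hbc
    positivity
  have hfin : 0 ≤ (β * γ) * (b * c' + b' * c) := by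
    have h : 0 ≤ ((β * γ) * (p2 * p3)) * ((b * c') * (p2 * p3) + (b' * c) * (p2 * p3)) :=
      mul_nonneg hcon (add_pos hbc hcb).le
    have e : ((β * γ) * (p2 * p3)) * ((b * c') * (p2 * p3) + (b' * c) * (p2 * p3)) =
        ((β * γ) * (b * c' + b' * c)) * (p2 * p3) ^ 2 := by ring
    rw [e] at h
    exact nonneg_of_mul_nonneg_left h hpp
  nlinarith [mul_nonneg (sq_nonneg β) hbb.le, mul_nonneg (sq_nonneg γ) hcc.le]

open Classical in
/-- The common bounding lines on the same side. -/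
noncomputable def sp (v w : Fin 3 → ℝ) : Finset (Fin n) :=
  Finset.univ.filter fun i => i ∈ A.bd v ∧ i ∈ A.bd w ∧ 0 < (A.a i ⬝ᵥ v) * (A.a i ⬝ᵥ w)

lemma sp_card (hA : A.IsSimple) {v w : Fin 3 → ℝ}
    {l : Fin n} (hl : (A.a l ⬝ᵥ v) * (A.a l ⬝ᵥ w) < 0) : (A.sp v w).card ≤ 2 := by
  classical
  by_contra hcon
  push Not at hcon
  obtain ⟨i, hi, j, hj, k, hk, hij, hik, hjk⟩ := Finset.two_lt_card.1 hcon
  have hmem : ∀ m, m ∈ A.sp v w → m ∈ A.bd v ∧ m ∈ A.bd w ∧ 0 < (A.a m ⬝ᵥ v) * (A.a m ⬝ᵥ w) := by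
    intro m hm
    unfold sp at hm
    exact (Finset.mem_filter.1 hm).2
  obtain ⟨⟨x1, hx1, hx1'⟩, ⟨y1, hy1, hy1'⟩, s1⟩ := hmem i hi
  obtain ⟨⟨x2, hx2, hx2'⟩, ⟨y2, hy2, hy2'⟩, s2⟩ := hmem j hj
  obtain ⟨⟨x3, hx3, hx3'⟩, ⟨y3, hy3, hy3'⟩, s3⟩ := hmem k hk
  have hli : l ≠ i := by rintro rfl; linarith
  have hlj : l ≠ j := by rintro rfl; linarith
  have hlk : l ≠ k := by rintro rfl; linarith
  obtain ⟨c, hc⟩ := A.comb hA hij hik hjk l
  have r1 : (c 1 * c 2) * ((A.a j ⬝ᵥ v) * (A.a k ⬝ᵥ v)) < 0 := by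
    have hX := hx1' l hli
    have hY := hy1' l hli
    rw [hc x1, hx1] at hX
    rw [hc y1, hy1] at hY
    refine key_sign (hx1' j hij.symm) (hx1' k hik.symm) (hy1' j hij.symm) (hy1' k hik.symm)
      s2 s3 (V := A.a l ⬝ᵥ v) (W := A.a l ⬝ᵥ w) ?_ ?_ hl
    · simpa using hX
    · simpa using hY
  have r2 : (c 0 * c 2) * ((A.a i ⬝ᵥ v) * (A.a k ⬝ᵥ v)) < 0 := by
    have hX := hx2' l hlj
    have hY := hy2' l hlj
    rw [hc x2, hx2] at hX
    rw [hc y2, hy2] at hY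
    refine key_sign (hx2' i hij) (hx2' k hjk.symm) (hy2' i hij) (hy2' k hjk.symm)
      s1 s3 (V := A.a l ⬝ᵥ v) (W := A.a l ⬝ᵥ w) ?_ ?_ hl
    · simpa using hX
    · simpa using hY
  have r3 : (c 0 * c 1) * ((A.a i ⬝ᵥ v) * (A.a j ⬝ᵥ v)) < 0 := by
    have hX := hx3' l hlk
    have hY := hy3' l hlk
    rw [hc x3, hx3] at hX
    rw [hc y3, hy3] at hY
    refine key_sign (hx3' i hik) (hx3' j hjk) (hy3' i hik) (hy3' j hjk)
      s1 s2 (V := A.a l ⬝ᵥ v) (W := A.a l ⬝ᵥ w) ?_ ?_ hl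
    · simpa using hX
    · simpa using hY
  have h := mul_neg_of_pos_of_neg (mul_pos_of_neg_of_neg r1 r2) r3
  have e : (c 1 * c 2) * ((A.a j ⬝ᵥ v) * (A.a k ⬝ᵥ v)) *
      ((c 0 * c 2) * ((A.a i ⬝ᵥ v) * (A.a k ⬝ᵥ v))) *
      ((c 0 * c 1) * ((A.a i ⬝ᵥ v) * (A.a j ⬝ᵥ v))) =
      (c 0 * c 1 * c 2 * ((A.a i ⬝ᵥ v) * (A.a j ⬝ᵥ v) * (A.a k ⬝ᵥ v))) ^ 2 := by ring
  rw [e] at h
  exact absurd h (not_lt.2 (sq_nonneg _))

open Classical in
/-- The bounding lines as a finite set. -/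
noncomputable def bdF (v : Fin 3 → ℝ) : Finset (Fin n) := Finset.univ.filter fun i => i ∈ A.bd v

lemma bd_ncard (v : Fin 3 → ℝ) : (A.bd v).ncard = (A.bdF v).card := by
  rw [← Set.ncard_coe_finset]
  congr 1
  ext i
  unfold bdF
  simp

lemma inter_card (hA : A.IsSimple) {v w : Fin 3 → ℝ} (hv : A.Off v) (hw : A.Off w)
    (hne : A.face v ≠ A.face w) : (A.bdF v ∩ A.bdF w).card ≤ 4 := by
  classical
  have hnz : ∀ i, (A.a i ⬝ᵥ v) * (A.a i ⬝ᵥ w) ≠ 0 := fun i => mul_ne_zero (hv i) (hw i)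
  obtain ⟨l, hl⟩ : ∃ l, (A.a l ⬝ᵥ v) * (A.a l ⬝ᵥ w) < 0 := by
    by_contra h
    push Not at h
    exact hne (A.face_eq_of (Or.inl fun i => lt_of_le_of_ne (h i) (hnz i).symm))
  obtain ⟨m, hm⟩ : ∃ m, 0 < (A.a m ⬝ᵥ v) * (A.a m ⬝ᵥ w) := by
    by_contra h
    push Not at h
    exact hne (A.face_eq_of (Or.inr fun i => lt_of_le_of_ne (h i) (hnz i)))
  have h1 := A.sp_card hA hl
  have h2 := A.sp_card hA (v := v) (w := -w) (l := m) (by
    rw [dotProduct_neg]; linarith)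
  have hsub : A.bdF v ∩ A.bdF w ⊆ A.sp v w ∪ A.sp v (-w) := by
    intro i hi
    rw [Finset.mem_inter] at hi
    unfold bdF at hi
    simp only [Finset.mem_filter, Finset.mem_univ, true_and] at hi
    rw [Finset.mem_union]
    unfold sp
    simp only [Finset.mem_filter, Finset.mem_univ, true_and, bd_neg, dotProduct_neg]
    rcases lt_or_gt_of_ne (hnz i) with h | h
    · right; exact ⟨hi.1, hi.2, by linarith⟩
    · left; exact ⟨hi.1, hi.2, h⟩
  have h3 := Finset.card_le_card hsub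
  have h4 := Finset.card_union_le (A.sp v w) (A.sp v (-w))
  omega

end Arrangement

/-- Double counting. -/
lemma count {n k : ℕ} (B : Fin k → Finset (Fin n))
    (hB : ∀ p q, p ≠ q → (B p ∩ B q).card ≤ 4) :
    ∑ p, ((B p).card : ℤ) ≤ n + 2 * k * (k - 1) := by
  classical
  set d : Fin n → ℤ := fun i => ((Finset.univ.filter fun p => i ∈ B p).card : ℤ) with hd
  have h1 : ∑ p, ((B p).card : ℤ) = ∑ i, d i := by
    have e : ∀ p, ((B p).card : ℤ) = ∑ i, if i ∈ B p then (1 : ℤ) else 0 := by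
      intro p
      rw [Finset.sum_ite_mem, Finset.univ_inter, Finset.sum_const, nsmul_eq_mul, mul_one]
    have e' : ∀ i, d i = ∑ p, if i ∈ B p then (1 : ℤ) else 0 := by
      intro i
      rw [hd]
      simp only
      rw [Finset.card_filter]
      push_cast
      rfl
    simp only [e, e']
    rw [Finset.sum_comm]
  have h2 : ∑ p, ∑ q, ((B p ∩ B q).card : ℤ) = ∑ i, d i * d i := by
    have e : ∀ p q, ((B p ∩ B q).card : ℤ) =
        ∑ i, (if i ∈ B p then (1 : ℤ) else 0) * (if i ∈ B q then 1 else 0) := by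
      intro p q
      have : ∀ i, (if i ∈ B p then (1 : ℤ) else 0) * (if i ∈ B q then 1 else 0) =
          if i ∈ B p ∩ B q then 1 else 0 := by
        intro i
        by_cases a : i ∈ B p <;> by_cases b : i ∈ B q <;> simp [a, b]
      simp only [this]
      rw [Finset.sum_ite_mem, Finset.univ_inter, Finset.sum_const, nsmul_eq_mul, mul_one]
    have e' : ∀ i, d i = ∑ p, if i ∈ B p then (1 : ℤ) else 0 := by
      intro i
      rw [hd]
      simp only
      rw [Finset.card_filter]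
      push_cast
      rfl
    simp only [e, e']
    simp only [Finset.sum_mul_sum]
    rw [Finset.sum_comm' (s := Finset.univ) (t := fun _ => Finset.univ) (t' := Finset.univ)
      (s' := fun _ => Finset.univ) (by simp)]
    rw [show (∑ q : Fin k, ∑ p : Fin k, ∑ i : Fin n, (if i ∈ B p then (1 : ℤ) else 0) *
      (if i ∈ B q then 1 else 0)) = ∑ q : Fin k, ∑ i : Fin n, ∑ p : Fin k,
        (if i ∈ B p then (1 : ℤ) else 0) * (if i ∈ B q then 1 else 0) from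
      Finset.sum_congr rfl fun q _ => Finset.sum_comm]
    rw [Finset.sum_comm]
    refine Finset.sum_congr rfl fun i _ => ?_
    rw [Finset.sum_comm]
  have h3 : ∑ p, ∑ q, ((B p ∩ B q).card : ℤ) ≤ ∑ p, ((B p).card : ℤ) + 4 * (k * (k - 1)) := by
    have e : ∀ p, ∑ q, ((B p ∩ B q).card : ℤ) ≤ (B p).card + 4 * (k - 1) := by
      intro p
      rw [← Finset.add_sum_erase _ _ (Finset.mem_univ p), Finset.inter_self]
      have : ∑ q ∈ Finset.univ.erase p, ((B p ∩ B q).card : ℤ) ≤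
          ∑ q ∈ Finset.univ.erase p, (4 : ℤ) := by
        refine Finset.sum_le_sum fun q hq => ?_
        have := hB p q (Finset.ne_of_mem_erase hq).symm
        exact_mod_cast this
      rw [Finset.sum_const, Finset.card_erase_of_mem (Finset.mem_univ p), Finset.card_univ,
        Fintype.card_fin, nsmul_eq_mul] at this
      have hk : 1 ≤ k := by
        have := p.2; omega
      push_cast [Nat.cast_sub hk] at this
      linarith
    calc ∑ p, ∑ q, ((B p ∩ B q).card : ℤ) ≤ ∑ p, (((B p).card : ℤ) + 4 * (k - 1)) :=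
          Finset.sum_le_sum fun p _ => e p
      _ = _ := by
          rw [Finset.sum_add_distrib, Finset.sum_const, Finset.card_univ, Fintype.card_fin,
            nsmul_eq_mul]
          ring
  have h4 : ∀ i, 3 * d i ≤ 2 + d i * d i := by
    intro i
    have hdi : 0 ≤ d i := by rw [hd]; positivity
    rcases le_or_gt (d i) 1 with h | h
    · nlinarith
    · nlinarith
  have h5 : ∑ i, 3 * d i ≤ ∑ i : Fin n, (2 + d i * d i) := Finset.sum_le_sum fun i _ => h4 i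
  rw [← Finset.mul_sum, Finset.sum_add_distrib, Finset.sum_const, Finset.card_univ,
    Fintype.card_fin, nsmul_eq_mul, ← h2, ← h1] at h5
  nlinarith

theorem upper (k : ℕ) {x : ℤ} (hx : x ∈ excess k) : x ≤ 2 * k * (k - 1) := by
  obtain ⟨n, A, hA, F, hF, hFf, rfl⟩ := hx
  choose v hv hFv using fun i => (A.mem_faces_iff (F i)).1 (hFf i)
  have h1 : ∀ i, A.numSides (F i) = (A.bdF (v i)).card := by
    intro i
    rw [hFv i, A.numSides_eq (hv i), A.bd_ncard]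
  simp only [h1]
  have h2 := count (fun p => A.bdF (v p)) (by
    intro p q hpq
    refine A.inter_card hA (hv p) (hv q) ?_
    rw [← hFv p, ← hFv q]
    exact fun h => hpq (hF h))
  linarith

end Q150.Faces
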