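import Pool.Agent.Q150.FacesB

/-!
# The construction: all common tangents of small convex bodies
-/

namespace Q150.Faces

open Topology Filter

/-- The line through the points near `P` and `Q`. -/
def aL (H P Q s t ε : ℝ) : Fin 3 → ℝ :=
  ![(P ^ 2 + (H - (P + Q) ^ 2) * s * ε) - (Q ^ 2 + (H - (P + Q) ^ 2) * t * ε),
    (Q - 2 * (P + Q) * t * ε) - (P - 2 * (P + Q) * s * ε),
    (P - 2 * (P + Q) * s * ε) * (Q ^ 2 + (H - (P + Q) ^ 2) * t * ε) -
      (P ^ 2 + (H - (P + Q) ^ 2) * s * ε) * (Q - 2 * (P + Q) * t * ε)]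

/-- The centre. -/
def cV (P : ℝ) : Fin 3 → ℝ := ![P, P ^ 2, 1]

/-- The witness. -/
def zW (H P Q s t ε : ℝ) : Fin 3 → ℝ :=
  ![P - 2 * (P + Q) * s * ε - s * t * ε ^ 2 * (Q - P) - 2 * (P + Q) * t * ε ^ 3,
    P ^ 2 + (H - (P + Q) ^ 2) * s * ε - s * t * ε ^ 2 * (Q - P) * (P + Q) +
      (H - (P + Q) ^ 2) * t * ε ^ 3, 1]

lemma aL_swap (H P Q s t ε : ℝ) : aL H Q P t s ε = -aL H P Q s t ε := by
  unfold aL
  ext i
  fin_cases i <;> simp <;> ring

lemma val_cP (H P Q s t ε : ℝ) :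
    aL H P Q s t ε ⬝ᵥ cV P = -(s * ε * ((Q - P) * (H + (P + Q) ^ 2))) := by
  unfold aL cV
  simp [dotProduct, Fin.sum_univ_three]
  ring

lemma val_cQ (H P Q s t ε : ℝ) :
    aL H P Q s t ε ⬝ᵥ cV Q = -(t * ε * ((Q - P) * (H + (P + Q) ^ 2))) := by
  unfold aL cV
  simp [dotProduct, Fin.sum_univ_three]
  ring

lemma val_cR (H P Q s t R : ℝ) :
    aL H P Q s t 0 ⬝ᵥ cV R = (Q - P) * (R - P) * (R - Q) := by
  unfold aL cV
  simp [dotProduct, Fin.sum_univ_three]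
  ring

lemma val_zR (H P Q s t R u s' t' : ℝ) :
    aL H P Q s t 0 ⬝ᵥ zW H R u s' t' 0 = (Q - P) * (R - P) * (R - Q) := by
  unfold aL zW
  simp [dotProduct, Fin.sum_univ_three]
  ring

lemma val_self (H P Q s t t' ε : ℝ) : aL H P Q s t' ε ⬝ᵥ zW H P Q s t ε =
    ε ^ 3 * ((Q - P) * (H + (P + Q) ^ 2)) * (t + s * t * t' - s ^ 2 * t) := by
  unfold aL zW
  simp [dotProduct, Fin.sum_univ_three]
  ring

/-- The reduced value. -/
def KK (H P Q R s t s' t' ε : ℝ) : ℝ :=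
  (R - P) * (((H - (P + Q) ^ 2) * s - s * t * ε * (Q - P) * (P + Q) +
    (H - (P + Q) ^ 2) * t * ε ^ 2) - (P + R) * (-(2 * (P + Q) * s) - s * t * ε * (Q - P) -
      2 * (P + Q) * t * ε ^ 2)) - s' * ((R - P) * (H + (P + R) ^ 2)) +
    (t' - s') * ε * (-(2 * (P + R)) * ((H - (P + Q) ^ 2) * s - s * t * ε * (Q - P) * (P + Q) +
    (H - (P + Q) ^ 2) * t * ε ^ 2) - (H - (P + R) ^ 2) * (-(2 * (P + Q) * s) -
      s * t * ε * (Q - P) - 2 * (P + Q) * t * ε ^ 2))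

lemma val_other (H P Q R s t s' t' ε : ℝ) :
    aL H P R s' t' ε ⬝ᵥ zW H P Q s t ε = ε * KK H P Q R s t s' t' ε := by
  unfold aL zW KK
  simp [dotProduct, Fin.sum_univ_three]
  ring

lemma continuous_KK (H P Q R s t s' t' : ℝ) : Continuous (KK H P Q R s t s' t') := by
  unfold KK
  fun_prop

lemma dot3 (a b : Fin 3 → ℝ) : a ⬝ᵥ b = a 0 * b 0 + a 1 * b 1 + a 2 * b 2 := by
  rw [dotProduct, Fin.sum_univ_three]

lemma continuous_aL (H P Q s t : ℝ) (i : Fin 3) : Continuous fun ε => aL H P Q s t ε i := by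
  unfold aL
  fin_cases i <;> simp <;> fun_prop

lemma continuous_zW (H P Q s t : ℝ) (i : Fin 3) : Continuous fun ε => zW H P Q s t ε i := by
  unfold zW
  fin_cases i <;> simp <;> fun_prop

/-- The sign of a Boolean. -/
def sg (b : Bool) : ℝ := if b then 1 else -1

lemma sg_sq (b : Bool) : sg b ^ 2 = 1 := by cases b <;> simp [sg]

lemma sg_mul_of_ne {b b' : Bool} (h : b' ≠ b) : sg b' * sg b = -1 := by
  cases b <;> cases b' <;> simp_all [sg]

lemma sg_of_ne {b b' : Bool} (h : b' ≠ b) : sg b' = -sg b := by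
  cases b <;> cases b' <;> simp_all [sg]

lemma eventually_of_cont {f : ℝ → ℝ} (hf : Continuous f) (h0 : 0 < f 0) :
    ∀ᶠ ε in 𝓝[>] (0 : ℝ), 0 < f ε :=
  (hf.continuousAt.eventually (lt_mem_nhds h0)).filter_mono nhdsWithin_le_nhds

/-- The value of the product for a line through (a neighbour of) `P`, different line. -/
lemma ev_other {H P Q R : ℝ} (hH : (P + Q) ^ 2 < H) (hPR : R ≠ P) {s s' : Bool}
    (h : s' = s → R ≠ Q) (t t' : Bool) : ∀ᶠ ε in 𝓝[>] (0 : ℝ),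
      0 < (aL H P R (sg s') (sg t') ε ⬝ᵥ zW H P Q (sg s) (sg t) ε) *
        (aL H P R (sg s') (sg t') ε ⬝ᵥ cV P) := by
  have hH0 : 0 < H := lt_of_le_of_lt (sq_nonneg _) hH
  have hm' : 0 < H + (P + R) ^ 2 := by positivity
  have hsq : 0 < (R - P) ^ 2 := by
    have : R - P ≠ 0 := sub_ne_zero.2 hPR
    positivity
  set G : ℝ → ℝ := fun ε => -(sg s' * ((R - P) * (H + (P + R) ^ 2))) *
    KK H P Q R (sg s) (sg t) (sg s') (sg t') ε with hG
  have hGc : Continuous G := continuous_const.mul (continuous_KK _ _ _ _ _ _ _ _)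
  have hG0 : 0 < G 0 := by
    have e : G 0 = (R - P) ^ 2 * (H + (P + R) ^ 2) *
        ((sg s') ^ 2 * (H + (P + R) ^ 2) -
          sg s' * sg s * (H - (P + Q) ^ 2 + 2 * (P + Q) * (P + R))) := by
      rw [hG]; unfold KK; ring
    rw [e, sg_sq]
    refine mul_pos (mul_pos hsq hm') ?_
    by_cases hs : s' = s
    · have hne := h hs
      subst hs
      have h1 : sg s' * sg s' = 1 := by rw [← sq, sg_sq]
      rw [h1]
      have h2 : 0 < (R - Q) ^ 2 := by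
        have : R - Q ≠ 0 := sub_ne_zero.2 hne
        positivity
      nlinarith
    · rw [sg_mul_of_ne hs]
      nlinarith [sq_nonneg ((P + Q) + (P + R))]
  have hev := eventually_of_cont hGc hG0
  filter_upwards [hev, self_mem_nhdsWithin] with ε h1 h2
  rw [val_other, val_cP]
  have h2' : (0 : ℝ) < ε := h2
  have e : ε * KK H P Q R (sg s) (sg t) (sg s') (sg t') ε *
      -(sg s' * ε * ((R - P) * (H + (P + R) ^ 2))) = ε ^ 2 * G ε := by
    rw [hG]; ring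
  rw [e]
  positivity

/-- The product for the family of lines. -/
def prd (H : ℝ) (p q : ℝ) (s t : Bool) (x y : ℝ) (s' t' : Bool) (ε : ℝ) : ℝ :=
  (aL H x y (sg s') (sg t') ε ⬝ᵥ zW H p q (sg s) (sg t) ε) *
    (aL H x y (sg s') (sg t') ε ⬝ᵥ cV p)

lemma prd_swap (H p q : ℝ) (s t : Bool) (x y : ℝ) (s' t' : Bool) (ε : ℝ) :
    prd H p q s t y x t' s' ε = prd H p q s t x y s' t' ε := by
  unfold prd
  rw [aL_swap, neg_dotProduct, neg_dotProduct, neg_mul_neg]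

lemma ev_pos_left {H p q y : ℝ} (hH : (p + q) ^ 2 < H) (hpq : q ≠ p) (hpy : y ≠ p)
    {s t s' t' : Bool} (hne : ¬ (y = q ∧ s' = s ∧ t' = t)) :
    ∀ᶠ ε in 𝓝[>] (0 : ℝ), 0 < prd H p q s t p y s' t' ε := by
  by_cases h1 : s' = s → y ≠ q
  · exact ev_other hH hpy h1 t t'
  · push Not at h1
    obtain ⟨h2, h3⟩ := h1
    subst h2 h3
    have ht : t' ≠ t := fun h => hne ⟨rfl, rfl, h⟩
    filter_upwards [self_mem_nhdsWithin] with ε hε
    have hε' : (0 : ℝ) < ε := hε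
    unfold prd
    rw [val_self, val_cP, sg_of_ne ht]
    have hH0 : 0 < H := lt_of_le_of_lt (sq_nonneg _) hH
    have hW : (y - p) * (H + (p + y) ^ 2) ≠ 0 := by
      have h1 : y - p ≠ 0 := sub_ne_zero.2 hpy
      have h2 : 0 < H + (p + y) ^ 2 := by positivity
      exact mul_ne_zero h1 h2.ne'
    have e : ε ^ 3 * ((y - p) * (H + (p + y) ^ 2)) *
        (sg t + sg s' * sg t * -sg t - sg s' ^ 2 * sg t) *
        -(sg s' * ε * ((y - p) * (H + (p + y) ^ 2))) =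
        ε ^ 4 * ((y - p) * (H + (p + y) ^ 2)) ^ 2 * (sg s' ^ 2 * sg t ^ 2) +
        ε ^ 4 * ((y - p) * (H + (p + y) ^ 2)) ^ 2 * (sg s' * sg t * (sg s' ^ 2 - 1)) := by ring
    rw [e, sg_sq, sg_sq]
    have hW2 : 0 < ((y - p) * (H + (p + y) ^ 2)) ^ 2 := by positivity
    have : 0 < ε ^ 4 * ((y - p) * (H + (p + y) ^ 2)) ^ 2 := by positivity
    simpa using this

lemma neg_self {H p q : ℝ} (hH : (p + q) ^ 2 < H) (hpq : q ≠ p) {s t : Bool} {ε : ℝ}
    (hε : 0 < ε) : prd H p q s t p q s t ε < 0 := by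
  unfold prd
  rw [val_self, val_cP]
  have hH0 : 0 < H := lt_of_le_of_lt (sq_nonneg _) hH
  have hW : (q - p) * (H + (p + q) ^ 2) ≠ 0 := by
    have h1 : q - p ≠ 0 := sub_ne_zero.2 hpq
    have h2 : 0 < H + (p + q) ^ 2 := by positivity
    exact mul_ne_zero h1 h2.ne'
  have e : ε ^ 3 * ((q - p) * (H + (p + q) ^ 2)) *
      (sg t + sg s * sg t * sg t - sg s ^ 2 * sg t) *
      -(sg s * ε * ((q - p) * (H + (p + q) ^ 2))) =
      -(ε ^ 4 * ((q - p) * (H + (p + q) ^ 2)) ^ 2 * (sg s ^ 2 * sg t ^ 2)) +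
      ε ^ 4 * ((q - p) * (H + (p + q) ^ 2)) ^ 2 * (sg s * sg t * (sg s ^ 2 - 1)) := by ring
  rw [e, sg_sq, sg_sq]
  have hW2 : 0 < ((q - p) * (H + (p + q) ^ 2)) ^ 2 := by positivity
  have : 0 < ε ^ 4 * ((q - p) * (H + (p + q) ^ 2)) ^ 2 := by positivity
  simpa using this

lemma ev_pos_far {H p q x y : ℝ} (hxp : x ≠ p) (hyp : y ≠ p) (hxy : x ≠ y)
    (s t s' t' : Bool) : ∀ᶠ ε in 𝓝[>] (0 : ℝ), 0 < prd H p q s t x y s' t' ε := by
  have hc : Continuous fun ε => prd H p q s t x y s' t' ε := by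
    unfold prd
    simp only [dot3]
    have h1 := continuous_aL H x y (sg s') (sg t')
    have h2 := continuous_zW H p q (sg s) (sg t)
    exact (((((h1 0).mul (h2 0)).add ((h1 1).mul (h2 1))).add ((h1 2).mul (h2 2)))).mul
      (((((h1 0).mul continuous_const).add ((h1 1).mul continuous_const)).add
        ((h1 2).mul continuous_const)))
  apply eventually_of_cont hc
  unfold prd
  rw [val_zR, val_cR]
  apply mul_self_pos.2
  have h1 := sub_ne_zero.2 hxy.symm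
  have h2 := sub_ne_zero.2 hxp.symm
  have h3 := sub_ne_zero.2 hyp.symm
  exact mul_ne_zero (mul_ne_zero h1 h2) h3

section

variable {k : ℕ}

/-- The bound. -/
def HH (k : ℕ) : ℝ := 4 * (k : ℝ) ^ 2 + 1

lemma lt_HH (p q : Fin k) : (((p : ℕ) : ℝ) + ((q : ℕ) : ℝ)) ^ 2 < HH k := by
  unfold HH
  have h1 : ((p : ℕ) : ℝ) ≤ k := by exact_mod_cast p.2.le
  have h2 : ((q : ℕ) : ℝ) ≤ k := by exact_mod_cast q.2.le
  have h3 : (0 : ℝ) ≤ ((p : ℕ) : ℝ) := Nat.cast_nonneg _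
  have h4 : (0 : ℝ) ≤ ((q : ℕ) : ℝ) := Nat.cast_nonneg _
  nlinarith

lemma cast_ne {p q : Fin k} (h : p ≠ q) : ((p : ℕ) : ℝ) ≠ ((q : ℕ) : ℝ) := by
  intro h'
  exact h (Fin.ext (by exact_mod_cast h'))

/-- The product for the family. -/
noncomputable def prF (p q : Fin k) (s t : Bool) (x y : Fin k) (s' t' : Bool) (ε : ℝ) : ℝ :=
  prd (HH k) (p : ℕ) (q : ℕ) s t (x : ℕ) (y : ℕ) s' t' ε

lemma ev_family (p q : Fin k) (hpq : p ≠ q) (s t : Bool) (x y : Fin k) (hxy : x ≠ y)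
    (s' t' : Bool) (h1 : ¬ (x = p ∧ y = q ∧ s' = s ∧ t' = t))
    (h2 : ¬ (x = q ∧ y = p ∧ s' = t ∧ t' = s)) :
    ∀ᶠ ε in 𝓝[>] (0 : ℝ), 0 < prF p q s t x y s' t' ε := by
  unfold prF
  by_cases hx : x = p
  · subst hx
    refine ev_pos_left (lt_HH _ _) (cast_ne hpq.symm) (cast_ne hxy.symm) ?_
    rintro ⟨h3, h4, h5⟩
    refine h1 ⟨rfl, ?_, h4, h5⟩
    by_contra hne
    exact cast_ne hne h3
  · by_cases hy : y = p
    · subst hy
      have h3 : ∀ᶠ ε in 𝓝[>] (0 : ℝ),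
          0 < prd (HH k) (y : ℕ) (q : ℕ) s t (y : ℕ) (x : ℕ) t' s' ε := by
        refine ev_pos_left (lt_HH _ _) (cast_ne hpq.symm) (cast_ne hxy) ?_
        rintro ⟨h3, h4, h5⟩
        refine h2 ⟨?_, rfl, h5, h4⟩
        by_contra hne
        exact cast_ne hne h3
      filter_upwards [h3] with ε hε
      rw [← prd_swap]
      exact hε
    · exact ev_pos_far (cast_ne hx) (cast_ne hy) (cast_ne hxy) s t s' t'

theorem base (k : ℕ) : ∃ ε : ℝ, 0 < ε ∧ ∀ (p q : Fin k) (s t : Bool) (x y : Fin k) (s' t' : Bool),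
    p ≠ q → x ≠ y → ¬ (x = p ∧ y = q ∧ s' = s ∧ t' = t) → ¬ (x = q ∧ y = p ∧ s' = t ∧ t' = s) →
      0 < prF p q s t x y s' t' ε := by
  have h : ∀ᶠ ε in 𝓝[>] (0 : ℝ), ∀ (p q : Fin k) (s t : Bool) (x y : Fin k) (s' t' : Bool),
      p ≠ q → x ≠ y → ¬ (x = p ∧ y = q ∧ s' = s ∧ t' = t) →
        ¬ (x = q ∧ y = p ∧ s' = t ∧ t' = s) → 0 < prF p q s t x y s' t' ε := by
    simp only [eventually_all]
    intro p q s t x y s' t' hpq hxy h1 h2
    exact ev_family p q hpq s t x y hxy s' t' h1 h2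
  obtain ⟨ε, h1, h2⟩ := (h.and self_mem_nhdsWithin).exists
  exact ⟨ε, h2, h1⟩

end

end Q150.Faces
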