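import Pool.Agent.Q150.FacesC

/-!
# The simple arrangement
-/

namespace Q150.Faces

open scoped LinearAlgebra.Projectivization
open Topology Filter

/-- The index set of the lines. -/
abbrev LI (k : ℕ) : Type := {x : Fin k × Fin k // x.1 < x.2} × Bool × Bool

/-- The line belonging to an ordered pair. -/
def key {k : ℕ} {p q : Fin k} (h : p ≠ q) (s t : Bool) : LI k :=
  if h' : p < q then (⟨(p, q), h'⟩, s, t)
  else (⟨(q, p), lt_of_le_of_ne (not_lt.1 h') h.symm⟩, t, s)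

/-- The unperturbed forms. -/
noncomputable def a0 (k : ℕ) (ε : ℝ) (i : LI k) : Fin 3 → ℝ :=
  aL (HH k) (i.1.1.1 : ℕ) (i.1.1.2 : ℕ) (sg i.2.1) (sg i.2.2) ε

/-- The witnesses. -/
noncomputable def wit (k : ℕ) (ε : ℝ) (p q : Fin k) (s t : Bool) : Fin 3 → ℝ :=
  zW (HH k) (p : ℕ) (q : ℕ) (sg s) (sg t) ε

/-- The centres. -/
noncomputable def ctr {k : ℕ} (p : Fin k) : Fin 3 → ℝ := cV (p : ℕ)

lemma fam (k : ℕ) : ∃ ε : ℝ, 0 < ε ∧ ∀ (p q : Fin k) (h : p ≠ q) (s t : Bool) (i : LI k),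
    (i ≠ key h s t → 0 < (a0 k ε i ⬝ᵥ wit k ε p q s t) * (a0 k ε i ⬝ᵥ ctr p)) ∧
    (i = key h s t → (a0 k ε i ⬝ᵥ wit k ε p q s t) * (a0 k ε i ⬝ᵥ ctr p) < 0) := by
  obtain ⟨ε, hε, hb⟩ := base k
  refine ⟨ε, hε, fun p q h s t i => ?_⟩
  obtain ⟨⟨⟨x, y⟩, hxy⟩, s', t'⟩ := i
  have hxy' : x < y := hxy
  constructor
  · intro hne
    refine hb p q s t x y s' t' h hxy'.ne ?_ ?_
    · rintro ⟨rfl, rfl, rfl, rfl⟩
      apply hne
      unfold key
      rw [dif_pos hxy']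
    · rintro ⟨rfl, rfl, rfl, rfl⟩
      apply hne
      unfold key
      rw [dif_neg (not_lt.2 hxy'.le)]
  · intro heq
    unfold key at heq
    by_cases h' : p < q
    · rw [dif_pos h'] at heq
      simp only [Prod.mk.injEq, Subtype.mk.injEq] at heq
      obtain ⟨⟨rfl, rfl⟩, rfl, rfl⟩ := heq
      exact neg_self (lt_HH _ _) (cast_ne h.symm) hε
    · rw [dif_neg h'] at heq
      simp only [Prod.mk.injEq, Subtype.mk.injEq] at heq
      obtain ⟨⟨rfl, rfl⟩, rfl, rfl⟩ := heq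
      show prd (HH k) (y : ℕ) (x : ℕ) t' s' (x : ℕ) (y : ℕ) s' t' ε < 0
      rw [← prd_swap]
      exact neg_self (lt_HH _ _) (cast_ne h.symm) hε

/-- The triple product. -/
def det3 (a b c : Fin 3 → ℝ) : ℝ :=
  a 0 * (b 1 * c 2 - b 2 * c 1) - a 1 * (b 0 * c 2 - b 2 * c 0) + a 2 * (b 0 * c 1 - b 1 * c 0)

lemma eq_zero_of_det3 {a b c x : Fin 3 → ℝ} (h : det3 a b c ≠ 0) (ha : a ⬝ᵥ x = 0)
    (hb : b ⬝ᵥ x = 0) (hc : c ⬝ᵥ x = 0) : x = 0 := by
  rw [dot3] at ha hb hc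
  have h0 : det3 a b c * x 0 = 0 := by
    unfold det3
    linear_combination (b 1 * c 2 - b 2 * c 1) * ha - (a 1 * c 2 - a 2 * c 1) * hb +
      (a 1 * b 2 - a 2 * b 1) * hc
  have h1 : det3 a b c * x 1 = 0 := by
    unfold det3
    linear_combination -(b 0 * c 2 - b 2 * c 0) * ha + (a 0 * c 2 - a 2 * c 0) * hb -
      (a 0 * b 2 - a 2 * b 0) * hc
  have h2 : det3 a b c * x 2 = 0 := by
    unfold det3
    linear_combination (b 0 * c 1 - b 1 * c 0) * ha - (a 0 * c 1 - a 1 * c 0) * hb +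
      (a 0 * b 1 - a 1 * b 0) * hc
  ext i
  fin_cases i
  · exact (mul_eq_zero.1 h0).resolve_left h
  · exact (mul_eq_zero.1 h1).resolve_left h
  · exact (mul_eq_zero.1 h2).resolve_left h

lemma line_ne_of_det3 {a b c : Fin 3 → ℝ} (h : det3 a b c ≠ 0) : line a ≠ line b := by
  set x : Fin 3 → ℝ := ![a 1 * c 2 - a 2 * c 1, a 2 * c 0 - a 0 * c 2, a 0 * c 1 - a 1 * c 0]
    with hx
  have ha : a ⬝ᵥ x = 0 := by
    rw [dot3, hx]; simp; ring
  have hb : b ⬝ᵥ x = -det3 a b c := by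
    rw [dot3, hx]; unfold det3; simp; ring
  have hx0 : x ≠ 0 := by
    intro h0
    rw [h0] at hb
    apply h
    have : (0 : ℝ) = -det3 a b c := by rw [← hb]; simp
    linarith
  intro heq
  have h1 : Projectivization.mk ℝ x hx0 ∈ line a := (mem_line_mk _ _ _).2 ha
  rw [heq, mem_line_mk, hb] at h1
  apply h
  linarith

lemma ev_cubic {c0 c1 c2 c3 : ℝ} (h : c3 ≠ 0) :
    ∀ᶠ δ in 𝓝[>] (0 : ℝ), c0 + c1 * δ + c2 * δ ^ 2 + c3 * δ ^ 3 ≠ 0 := by
  set P : Polynomial ℝ := Polynomial.C c0 + Polynomial.C c1 * Polynomial.X +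
    Polynomial.C c2 * Polynomial.X ^ 2 + Polynomial.C c3 * Polynomial.X ^ 3 with hP
  have hP0 : P ≠ 0 := by
    intro h0
    have h3 : P.coeff 3 = c3 := by
      rw [hP]
      simp [Polynomial.coeff_X, Polynomial.coeff_C, Polynomial.coeff_X_pow]
    rw [h0] at h3
    exact h (by simpa using h3.symm)
  have hfin : ({x | P.IsRoot x} \ {0} : Set ℝ).Finite :=
    (Polynomial.finite_setOfPred_isRoot hP0).sdiff
  have hopen : IsOpen ({x | P.IsRoot x} \ {0} : Set ℝ)ᶜ := hfin.isClosed.isOpen_compl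
  have hmem : ({x | P.IsRoot x} \ {0} : Set ℝ)ᶜ ∈ 𝓝 (0 : ℝ) :=
    hopen.mem_nhds (by simp)
  filter_upwards [mem_nhdsWithin_of_mem_nhds hmem, self_mem_nhdsWithin] with δ h1 h2
  intro h0
  apply h1
  refine ⟨?_, ?_⟩
  · show P.eval δ = 0
    rw [hP]
    simp
    linarith
  · have : (0 : ℝ) < δ := h2
    exact this.ne'

/-- The directions of the perturbation. -/
noncomputable def uu (k : ℕ) (i : LI k) : Fin 3 → ℝ :=
  ![1, ((Fintype.equivFin (LI k) i : ℕ) : ℝ), ((Fintype.equivFin (LI k) i : ℕ) : ℝ) ^ 2]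

lemma det3_uu {k : ℕ} {i j l : LI k} (hij : i ≠ j) (hil : i ≠ l) (hjl : j ≠ l) :
    det3 (uu k i) (uu k j) (uu k l) ≠ 0 := by
  have hinj : ∀ {a b : LI k}, a ≠ b →
      ((Fintype.equivFin (LI k) b : ℕ) : ℝ) - ((Fintype.equivFin (LI k) a : ℕ) : ℝ) ≠ 0 := by
    intro a b hab h
    apply hab
    have h1 : (Fintype.equivFin (LI k) b : ℕ) = (Fintype.equivFin (LI k) a : ℕ) := by
      have := sub_eq_zero.1 h
      exact_mod_cast this
    exact ((Fintype.equivFin (LI k)).injective (Fin.ext h1)).symm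
  have e : det3 (uu k i) (uu k j) (uu k l) =
      (((Fintype.equivFin (LI k) j : ℕ) : ℝ) - ((Fintype.equivFin (LI k) i : ℕ) : ℝ)) *
      (((Fintype.equivFin (LI k) l : ℕ) : ℝ) - ((Fintype.equivFin (LI k) i : ℕ) : ℝ)) *
      (((Fintype.equivFin (LI k) l : ℕ) : ℝ) - ((Fintype.equivFin (LI k) j : ℕ) : ℝ)) := by
    unfold det3 uu
    simp
    ring
  rw [e]
  exact mul_ne_zero (mul_ne_zero (hinj hij) (hinj hil)) (hinj hjl)

lemma ev_det3 {a b c u v w : Fin 3 → ℝ} (h : det3 u v w ≠ 0) :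
    ∀ᶠ δ in 𝓝[>] (0 : ℝ), det3 (a + δ • u) (b + δ • v) (c + δ • w) ≠ 0 := by
  have := ev_cubic (c0 := det3 a b c) (c1 := det3 u b c + det3 a v c + det3 a b w)
    (c2 := det3 u v c + det3 u b w + det3 a v w) h
  filter_upwards [this] with δ hδ
  have e : det3 (a + δ • u) (b + δ • v) (c + δ • w) = det3 a b c +
      (det3 u b c + det3 a v c + det3 a b w) * δ + (det3 u v c + det3 u b w + det3 a v w) * δ ^ 2 +
      det3 u v w * δ ^ 3 := by
    unfold det3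
    simp only [Pi.add_apply, Pi.smul_apply, smul_eq_mul]
    ring
  rw [e]; exact hδ

lemma cont_pert (a u z c : Fin 3 → ℝ) :
    Continuous fun δ : ℝ => ((a + δ • u) ⬝ᵥ z) * ((a + δ • u) ⬝ᵥ c) := by
  simp only [dot3, Pi.add_apply, Pi.smul_apply, smul_eq_mul]
  fun_prop

lemma ev_pos_pert {a u z c : Fin 3 → ℝ} (h : 0 < (a ⬝ᵥ z) * (a ⬝ᵥ c)) :
    ∀ᶠ δ in 𝓝[>] (0 : ℝ), 0 < ((a + δ • u) ⬝ᵥ z) * ((a + δ • u) ⬝ᵥ c) := by
  apply eventually_of_cont (cont_pert a u z c)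
  simpa using h

lemma ev_neg_pert {a u z c : Fin 3 → ℝ} (h : (a ⬝ᵥ z) * (a ⬝ᵥ c) < 0) :
    ∀ᶠ δ in 𝓝[>] (0 : ℝ), ((a + δ • u) ⬝ᵥ z) * ((a + δ • u) ⬝ᵥ c) < 0 := by
  have h1 := eventually_of_cont (cont_pert a u z c).neg (by simpa using h)
  filter_upwards [h1] with δ hδ
  have hδ' : 0 < -(((a + δ • u) ⬝ᵥ z) * ((a + δ • u) ⬝ᵥ c)) := hδ
  linarith

/-- The forms of the arrangement. -/
theorem forms (k : ℕ) : ∃ (c : LI k → Fin 3 → ℝ)
    (z : Fin k → Fin k → Bool → Bool → Fin 3 → ℝ),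
    (∀ (p q : Fin k) (h : p ≠ q) (s t : Bool) (i : LI k),
      (i ≠ key h s t → 0 < (c i ⬝ᵥ z p q s t) * (c i ⬝ᵥ ctr p)) ∧
      (i = key h s t → (c i ⬝ᵥ z p q s t) * (c i ⬝ᵥ ctr p) < 0)) ∧
    (∀ i j l, i ≠ j → i ≠ l → j ≠ l → det3 (c i) (c j) (c l) ≠ 0) ∧
    (∀ (p q : Fin k) (h : p < q), 0 < (c (⟨(p, q), h⟩, true, true) ⬝ᵥ ctr p) *
        (c (⟨(p, q), h⟩, true, true) ⬝ᵥ ctr q) ∧
      (c (⟨(p, q), h⟩, true, false) ⬝ᵥ ctr p) * (c (⟨(p, q), h⟩, true, false) ⬝ᵥ ctr q) < 0) := by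
  obtain ⟨ε, hε, hfam⟩ := fam k
  have hW : ∀ (p q : Fin k), p < q →
      0 < ((((q : ℕ) : ℝ) - ((p : ℕ) : ℝ)) * (HH k + (((p : ℕ) : ℝ) + ((q : ℕ) : ℝ)) ^ 2)) ^ 2 := by
    intro p q h
    have h1 : ((q : ℕ) : ℝ) - ((p : ℕ) : ℝ) ≠ 0 := sub_ne_zero.2 (cast_ne h.ne')
    have h2 : 0 < HH k := lt_of_le_of_lt (sq_nonneg _) (lt_HH p q)
    have h3 : 0 < HH k + (((p : ℕ) : ℝ) + ((q : ℕ) : ℝ)) ^ 2 := by positivity
    positivity
  have e1 : ∀ᶠ δ in 𝓝[>] (0 : ℝ), ∀ (p q : Fin k) (h : p ≠ q) (s t : Bool) (i : LI k),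
      (i ≠ key h s t → 0 < ((a0 k ε i + δ • uu k i) ⬝ᵥ wit k ε p q s t) *
        ((a0 k ε i + δ • uu k i) ⬝ᵥ ctr p)) ∧
      (i = key h s t → ((a0 k ε i + δ • uu k i) ⬝ᵥ wit k ε p q s t) *
        ((a0 k ε i + δ • uu k i) ⬝ᵥ ctr p) < 0) := by
    simp only [eventually_all, eventually_and]
    intro p q h s t i
    exact ⟨fun hne => ev_pos_pert ((hfam p q h s t i).1 hne),
      fun he => ev_neg_pert ((hfam p q h s t i).2 he)⟩
  have e2 : ∀ᶠ δ in 𝓝[>] (0 : ℝ), ∀ i j l : LI k, i ≠ j → i ≠ l → j ≠ l →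
      det3 (a0 k ε i + δ • uu k i) (a0 k ε j + δ • uu k j) (a0 k ε l + δ • uu k l) ≠ 0 := by
    simp only [eventually_all]
    intro i j l hij hil hjl
    exact ev_det3 (det3_uu hij hil hjl)
  have e3 : ∀ᶠ δ in 𝓝[>] (0 : ℝ), ∀ (p q : Fin k) (h : p < q),
      0 < ((a0 k ε (⟨(p, q), h⟩, true, true) + δ • uu k (⟨(p, q), h⟩, true, true)) ⬝ᵥ ctr p) *
        ((a0 k ε (⟨(p, q), h⟩, true, true) + δ • uu k (⟨(p, q), h⟩, true, true)) ⬝ᵥ ctr q) ∧
      ((a0 k ε (⟨(p, q), h⟩, true, false) + δ • uu k (⟨(p, q), h⟩, true, false)) ⬝ᵥ ctr p) *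
        ((a0 k ε (⟨(p, q), h⟩, true, false) + δ • uu k (⟨(p, q), h⟩, true, false)) ⬝ᵥ ctr q)
          < 0 := by
    simp only [eventually_all, eventually_and]
    intro p q h
    have hw := hW p q h
    have h2 : 0 < ε ^ 2 := by positivity
    constructor
    · apply ev_pos_pert
      unfold a0 ctr
      simp only [val_cP, val_cQ, sg, if_true]
      nlinarith [mul_pos h2 hw]
    · apply ev_neg_pert
      unfold a0 ctr
      simp only [val_cP, val_cQ, sg, if_true]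
      simp only [Bool.false_eq_true, if_false]
      nlinarith [mul_pos h2 hw]
  obtain ⟨δ, ⟨h1, h2⟩, h3⟩ := ((e1.and e2).and e3).exists
  exact ⟨fun i => a0 k ε i + δ • uu k i, fun p q s t => wit k ε p q s t, h1, h2, h3⟩

lemma card_LI (k : ℕ) : (Fintype.card (LI k) : ℤ) = 2 * k * (k - 1) := by
  have h1 : Fintype.card (LI k) = Fintype.card {x : Fin k × Fin k // x.1 < x.2} * 4 := by
    rw [Fintype.card_prod, Fintype.card_prod, Fintype.card_bool]
  have h2 : Fintype.card {x : Fin k × Fin k // x.1 < x.2} =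
      (Finset.univ.filter fun x : Fin k × Fin k => x.1 < x.2).card := Fintype.card_subtype _
  have h3 : (Finset.univ.filter fun x : Fin k × Fin k => x.1 < x.2).card =
      (Finset.univ.filter fun x : Fin k × Fin k => x.2 < x.1).card := by
    refine Finset.card_bij (fun x _ => x.swap) ?_ ?_ ?_
    · intro x hx
      simpa using hx
    · intro x _ y _ h
      exact Prod.swap_injective h
    · intro x hx
      exact ⟨x.swap, by simpa using hx, Prod.swap_swap x⟩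
  have h4 : (Finset.univ.filter fun x : Fin k × Fin k => x.1 < x.2).card +
      (Finset.univ.filter fun x : Fin k × Fin k => x.2 < x.1).card = k * k - k := by
    rw [← Finset.card_union_of_disjoint]
    · have : (Finset.univ.filter fun x : Fin k × Fin k => x.1 < x.2) ∪
          (Finset.univ.filter fun x : Fin k × Fin k => x.2 < x.1) =
          (Finset.univ : Finset (Fin k)).offDiag := by
        ext x
        simp only [Finset.mem_union, Finset.mem_filter, Finset.mem_univ, true_and,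
          Finset.mem_offDiag]
        exact lt_or_lt_iff_ne
      rw [this, Finset.offDiag_card, Finset.card_univ, Fintype.card_fin]
    · rw [Finset.disjoint_left]
      intro x hx hy
      simp only [Finset.mem_filter, Finset.mem_univ, true_and] at hx hy
      exact lt_asymm hx hy
  have h5 : k ≤ k * k := Nat.le_mul_self k
  have h6 : 2 * Fintype.card {x : Fin k × Fin k // x.1 < x.2} + k = k * k := by omega
  rw [h1]
  push_cast
  have h7 : 2 * (Fintype.card {x : Fin k × Fin k // x.1 < x.2} : ℤ) + k = k * k := by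
    exact_mod_cast h6
  linarith

lemma key_injective {k : ℕ} {p q q' : Fin k} (h : p ≠ q) (h' : p ≠ q') {s t s' t' : Bool}
    (he : key h s t = key h' s' t') : q = q' ∧ s = s' ∧ t = t' := by
  unfold key at he
  by_cases c : p < q <;> by_cases c' : p < q'
  · rw [dif_pos c, dif_pos c'] at he
    simp only [Prod.mk.injEq, Subtype.mk.injEq, true_and] at he
    exact he
  · rw [dif_pos c, dif_neg c'] at he
    simp only [Prod.mk.injEq, Subtype.mk.injEq] at he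
    exact absurd he.1.1 h'
  · rw [dif_neg c, dif_pos c'] at he
    simp only [Prod.mk.injEq, Subtype.mk.injEq] at he
    exact absurd he.1.1.symm h
  · rw [dif_neg c, dif_neg c'] at he
    simp only [Prod.mk.injEq, Subtype.mk.injEq, and_true] at he
    exact ⟨he.1, he.2.2, he.2.1⟩

end Q150.Faces
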