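import Mathlib

/-!
# Faces of line arrangements in the real projective plane: definitions
-/

namespace Q150.Faces

open scoped LinearAlgebra.Projectivization

/-- The real projective plane. -/
abbrev P2 : Type := ℙ ℝ (Fin 3 → ℝ)

/-- The topology of the projective plane: the quotient topology of `ℝ³ \ {0}`. -/
noncomputable instance : TopologicalSpace P2 :=
  TopologicalSpace.coinduced
    (fun v : {v : Fin 3 → ℝ // v ≠ 0} => Projectivization.mk ℝ v.1 v.2) inferInstance

/-- The line of the projective plane with the equation `a · x = 0`. -/
def line (a : Fin 3 → ℝ) : Set P2 := {p | a ⬝ᵥ p.rep = 0}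

/-- An arrangement of `n ≥ 3` distinct lines in the real projective plane that do not all pass
through a common point; the `i`-th line is `a i · x = 0`. -/
structure Arrangement (n : ℕ) where
  /-- the coefficients of the equations of the lines -/
  a : Fin n → (Fin 3 → ℝ)
  three_le : 3 ≤ n
  ne_zero : ∀ i, a i ≠ 0
  distinct : ∀ i j, i ≠ j → line (a i) ≠ line (a j)
  not_concurrent : ⋂ i, line (a i) = ∅

namespace Arrangement

variable {n : ℕ} (A : Arrangement n)

/-- The arrangement is simple: no three of its lines pass through a common point. -/
def IsSimple : Prop :=
  ∀ i j k, i ≠ j → i ≠ k → j ≠ k → line (A.a i) ∩ line (A.a j) ∩ line (A.a k) = ∅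

/-- The complement of the union of the lines. -/
def compl : Set P2 := (⋃ i, line (A.a i))ᶜ

/-- The faces: the connected components of the complement of the union of the lines. -/
def faces : Set (Set P2) := {F | ∃ p ∈ A.compl, F = connectedComponentIn A.compl p}

/-- The `i`-th line without its intersection points with the other lines. -/
def openLine (i : Fin n) : Set P2 := line (A.a i) \ ⋃ j ∈ {j | j ≠ i}, line (A.a j)

/-- The edges of the arrangement on the `i`-th line: the connected components of the `i`-th line
without its intersection points with the other lines. -/
def edgesOn (i : Fin n) : Set (Set P2) :=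
  {e | ∃ p ∈ A.openLine i, e = connectedComponentIn (A.openLine i) p}

/-- The number of sides of a face `F`: the number of lines of the arrangement which contain an edge
of `F`, i.e. an edge of the arrangement contained in the closure of `F`. -/
noncomputable def numSides (F : Set P2) : ℕ := {i | ∃ e ∈ A.edgesOn i, e ⊆ closure F}.ncard

end Arrangement

/-- The set of the numbers `q₁ + ... + q_k - n` for all simple arrangements of `n` lines (all `n`)
and all choices of `k` pairwise distinct faces, which are a `q₁`-gon, ..., a `q_k`-gon; `a(k)` is
the supremum of this set. -/
def excess (k : ℕ) : Set ℤ :=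
  {x | ∃ (n : ℕ) (A : Arrangement n), A.IsSimple ∧ ∃ F : Fin k → Set P2,
    Function.Injective F ∧ (∀ i, F i ∈ A.faces) ∧ x = ∑ i, (A.numSides (F i) : ℤ) - n}

end Q150.Faces
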