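import Pool.Agent.Q150.FacesD

/-!
# The value of `a(k)`
-/

namespace Q150.Faces

open scoped LinearAlgebra.Projectivization
open Topology Filter

lemma exists_third {n : ℕ} (hn : 3 ≤ n) (i j : Fin n) : ∃ l, i ≠ l ∧ j ≠ l := by
  by_contra h
  push Not at h
  have h1 : (Finset.univ : Finset (Fin n)) ⊆ {i, j} := by
    intro l _
    rw [Finset.mem_insert, Finset.mem_singleton]
    by_cases hl : i = l
    · exact Or.inl hl.symm
    · exact Or.inr (h l hl).symm
  have h2 := Finset.card_le_card h1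
  have h3 := Finset.card_le_two (a := i) (b := j)
  rw [Finset.card_univ, Fintype.card_fin] at h2
  omega

theorem arr {n : ℕ} (hn : 3 ≤ n) (a : Fin n → Fin 3 → ℝ)
    (h : ∀ i j l, i ≠ j → i ≠ l → j ≠ l → det3 (a i) (a j) (a l) ≠ 0) :
    ∃ A : Arrangement n, A.a = a ∧ A.IsSimple := by
  have h2 : ∀ i j, i ≠ j → line (a i) ≠ line (a j) := by
    intro i j hij
    obtain ⟨l, hil, hjl⟩ := exists_third hn i j
    exact line_ne_of_det3 (h i j l hij hil hjl)
  have h1 : ∀ i, a i ≠ 0 := by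
    intro i h0
    obtain ⟨j, hij, _⟩ := exists_third hn i i
    obtain ⟨l, hil, hjl⟩ := exists_third hn i j
    apply h i j l hij hil hjl
    rw [h0]
    unfold det3
    simp
  have h3 : ∀ i j l, i ≠ j → i ≠ l → j ≠ l →
      ∀ p, p ∈ line (a i) → p ∈ line (a j) → p ∈ line (a l) → False := by
    intro i j l hij hil hjl p hp1 hp2 hp3
    exact p.rep_nonzero (eq_zero_of_det3 (h i j l hij hil hjl) hp1 hp2 hp3)
  refine ⟨⟨a, hn, h1, h2, ?_⟩, rfl, ?_⟩
  · rw [Set.eq_empty_iff_forall_notMem]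
    intro p hp
    rw [Set.mem_iInter] at hp
    obtain ⟨j, hij, _⟩ := exists_third hn ⟨0, by omega⟩ ⟨0, by omega⟩
    obtain ⟨l, hil, hjl⟩ := exists_third hn ⟨0, by omega⟩ j
    exact h3 _ _ _ hij hil hjl p (hp _) (hp _) (hp _)
  · intro i j l hij hil hjl
    rw [Set.eq_empty_iff_forall_notMem]
    rintro p ⟨⟨hp1, hp2⟩, hp3⟩
    exact h3 i j l hij hil hjl p hp1 hp2 hp3

lemma mem_bd_of {n : ℕ} (A : Arrangement n) {v z : Fin 3 → ℝ} {i : Fin n}
    (h1 : (A.a i ⬝ᵥ z) * (A.a i ⬝ᵥ v) < 0)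
    (h2 : ∀ j, j ≠ i → 0 < (A.a j ⬝ᵥ z) * (A.a j ⬝ᵥ v)) : i ∈ A.bd v := by
  refine ⟨(A.a i ⬝ᵥ v) ^ 2 • z - ((A.a i ⬝ᵥ z) * (A.a i ⬝ᵥ v)) • v, ?_, fun j hj => ?_⟩
  · rw [dotProduct_sub, dotProduct_smul, dotProduct_smul, smul_eq_mul, smul_eq_mul]
    ring
  · rw [dotProduct_sub, dotProduct_smul, dotProduct_smul, smul_eq_mul, smul_eq_mul]
    have h3 := h2 j hj
    have h4 : 0 < (A.a i ⬝ᵥ v) ^ 2 := by
      have : A.a i ⬝ᵥ v ≠ 0 := by
        intro h0; rw [h0, mul_zero] at h1; exact lt_irrefl _ h1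
      positivity
    have e : ((A.a i ⬝ᵥ v) ^ 2 * (A.a j ⬝ᵥ z) - (A.a i ⬝ᵥ z) * (A.a i ⬝ᵥ v) * (A.a j ⬝ᵥ v)) *
        (A.a j ⬝ᵥ v) = (A.a i ⬝ᵥ v) ^ 2 * ((A.a j ⬝ᵥ z) * (A.a j ⬝ᵥ v)) +
          (-((A.a i ⬝ᵥ z) * (A.a i ⬝ᵥ v))) * (A.a j ⬝ᵥ v) ^ 2 := by ring
    rw [e]
    have h5 : 0 ≤ (-((A.a i ⬝ᵥ z) * (A.a i ⬝ᵥ v))) * (A.a j ⬝ᵥ v) ^ 2 :=
      mul_nonneg (by linarith) (sq_nonneg _)
    have h6 := mul_pos h4 h3
    linarith

theorem lower {k : ℕ} (hk : 2 ≤ k) : ∃ x ∈ excess k, (2 * k * (k - 1) : ℤ) ≤ x := by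
  classical
  obtain ⟨c, z, hz, hd, hs⟩ := forms k
  set e : LI k ≃ Fin (Fintype.card (LI k)) := Fintype.equivFin (LI k) with he
  have hcard := card_LI k
  have hk' : (2 : ℤ) ≤ k := by exact_mod_cast hk
  have hn : 3 ≤ Fintype.card (LI k) := by
    have : (3 : ℤ) ≤ (Fintype.card (LI k) : ℤ) := by
      rw [hcard]; nlinarith
    exact_mod_cast this
  obtain ⟨A, hAa, hAs⟩ := arr hn (fun i => c (e.symm i)) (by
    intro i j l hij hil hjl
    exact hd _ _ _ (fun h => hij (e.symm.injective h)) (fun h => hil (e.symm.injective h))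
      (fun h => hjl (e.symm.injective h)))
  have hA : ∀ i, A.a i = c (e.symm i) := fun i => congrFun hAa i
  have hoff : ∀ p : Fin k, A.Off (ctr p) := by
    intro p i h0
    obtain ⟨q, hq⟩ : ∃ q : Fin k, p ≠ q := by
      by_cases hp : p = ⟨0, by omega⟩
      · exact ⟨⟨1, by omega⟩, by rw [hp]; simp⟩
      · exact ⟨⟨0, by omega⟩, hp⟩
    rw [hA] at h0
    obtain ⟨h1, h2⟩ := hz p q hq true true (e.symm i)
    rw [h0, mul_zero] at h1 h2
    by_cases h3 : e.symm i = key hq true true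
    · exact lt_irrefl _ (h2 h3)
    · exact lt_irrefl _ (h1 h3)
  have hbd : ∀ (p q : Fin k) (h : p ≠ q) (s t : Bool), e (key h s t) ∈ A.bd (ctr p) := by
    intro p q h s t
    refine mem_bd_of A (z := z p q s t) ?_ ?_
    · rw [hA, e.symm_apply_apply]
      exact (hz p q h s t _).2 rfl
    · intro j hj
      rw [hA]
      refine (hz p q h s t _).1 ?_
      intro h'
      apply hj
      rw [← h', e.apply_symm_apply]
  have hnum : ∀ p : Fin k, 4 * (k - 1) ≤ A.numSides (A.face (ctr p)) := by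
    intro p
    rw [A.numSides_eq (hoff p), A.bd_ncard]
    set φ : {q : Fin k // q ≠ p} × Bool × Bool → Fin (Fintype.card (LI k)) :=
      fun x => e (key x.1.2.symm x.2.1 x.2.2) with hφ
    have hinj : Function.Injective φ := by
      rintro ⟨⟨q, hq⟩, s, t⟩ ⟨⟨q', hq'⟩, s', t'⟩ h
      have h1 := e.injective h
      obtain ⟨rfl, rfl, rfl⟩ := key_injective _ _ h1
      rfl
    have himg : Finset.univ.image φ ⊆ A.bdF (ctr p) := by
      intro i hi
      obtain ⟨x, _, rfl⟩ := Finset.mem_image.1 hi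
      unfold Arrangement.bdF
      rw [Finset.mem_filter]
      exact ⟨Finset.mem_univ _, hbd p x.1.1 x.1.2.symm x.2.1 x.2.2⟩
    have h1 := Finset.card_le_card himg
    rw [Finset.card_image_of_injective _ hinj, Finset.card_univ, Fintype.card_prod,
      Fintype.card_prod, Fintype.card_bool] at h1
    have h2 : Fintype.card {q : Fin k // q ≠ p} = k - 1 := by
      rw [Fintype.card_subtype_compl, Fintype.card_fin, Fintype.card_unique]
    rw [h2] at h1
    linarith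
  have hnef : ∀ p q : Fin k, p < q → A.face (ctr p) ≠ A.face (ctr q) := by
    intro p q hpq h
    have h1 : Projectivization.mk ℝ (ctr q) (hoff q).ne_zero ∈ A.face (ctr q) := by
      refine ⟨Submodule.mem_top, ?_⟩
      rw [mem_same_mk]
      exact Or.inl fun j => mul_self_pos.2 (hoff q j)
    rw [← h] at h1
    have h2 := (mem_same_mk _ _ _ _).1 h1.2
    obtain ⟨h3, h4⟩ := hs p q hpq
    have e1 : A.a (e (⟨(p, q), hpq⟩, true, true)) = c (⟨(p, q), hpq⟩, true, true) := by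
      rw [hA, e.symm_apply_apply]
    have e2 : A.a (e (⟨(p, q), hpq⟩, true, false)) = c (⟨(p, q), hpq⟩, true, false) := by
      rw [hA, e.symm_apply_apply]
    rcases h2 with h2 | h2
    · have h5 := h2 (e (⟨(p, q), hpq⟩, true, false))
      rw [e2] at h5
      linarith
    · have h5 := h2 (e (⟨(p, q), hpq⟩, true, true))
      rw [e1] at h5
      linarith
  refine ⟨∑ p : Fin k, (A.numSides (A.face (ctr p)) : ℤ) - (Fintype.card (LI k) : ℕ),
    ⟨_, A, hAs, fun p => A.face (ctr p), ?_, ?_, rfl⟩, ?_⟩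
  · intro p q h
    by_contra hne
    rcases lt_or_gt_of_ne hne with h' | h'
    · exact hnef p q h' h
    · exact hnef q p h' h.symm
  · intro p
    exact (A.mem_faces_iff _).2 ⟨_, hoff p, rfl⟩
  · have h1 : ∑ p : Fin k, (4 * ((k : ℤ) - 1)) ≤
        ∑ p : Fin k, (A.numSides (A.face (ctr p)) : ℤ) := by
      refine Finset.sum_le_sum fun p _ => ?_
      have := hnum p
      have h2 : ((4 * (k - 1) : ℕ) : ℤ) ≤ (A.numSides (A.face (ctr p)) : ℤ) := by
        exact_mod_cast this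
      have h3 : ((4 * (k - 1) : ℕ) : ℤ) = 4 * ((k : ℤ) - 1) := by
        push_cast [Nat.cast_sub (show 1 ≤ k by omega)]
        ring
      linarith
    rw [Finset.sum_const, Finset.card_univ, Fintype.card_fin, nsmul_eq_mul] at h1
    rw [hcard]
    linarith

theorem lower_one : ∃ x ∈ excess 1, (0 : ℤ) ≤ x := by
  classical
  obtain ⟨A, hAa, hAs⟩ := arr (n := 3) le_rfl (fun i => Pi.single i 1) (by
    intro i j l hij hil hjl
    fin_cases i <;> fin_cases j <;> fin_cases l <;> simp_all [det3])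
  have hA : ∀ i, A.a i = Pi.single i 1 := fun i => congrFun hAa i
  set v : Fin 3 → ℝ := fun _ => 1 with hv
  have hoff : A.Off v := by
    intro i
    rw [hA, single_dotProduct]
    simp [hv]
  have hbd : A.bd v = Set.univ := by
    rw [Set.eq_univ_iff_forall]
    intro i
    refine ⟨v - Pi.single i 1, ?_, fun j hj => ?_⟩
    · rw [hA, single_dotProduct]
      simp [hv]
    · rw [hA, single_dotProduct, single_dotProduct]
      simp [hv, hj]
  refine ⟨∑ p : Fin 1, (A.numSides (A.face v) : ℤ) - (3 : ℕ),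
    ⟨_, A, hAs, fun _ => A.face v, ?_, ?_, rfl⟩, ?_⟩
  · intro p q _
    exact Subsingleton.elim _ _
  · intro p
    exact (A.mem_faces_iff _).2 ⟨_, hoff, rfl⟩
  · rw [A.numSides_eq hoff, hbd, Set.ncard_univ]
    simp

/-- `a(k) = 2k(k - 1)`, and the supremum is attained. -/
theorem main (k : ℕ) (hk : 1 ≤ k) : IsGreatest (excess k) (2 * k * (k - 1)) := by
  have h : ∃ x ∈ excess k, (2 * k * (k - 1) : ℤ) ≤ x := by
    rcases eq_or_lt_of_le hk with rfl | h
    · obtain ⟨x, hx, h0⟩ := lower_one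
      exact ⟨x, hx, by simpa using h0⟩
    · exact lower h
  obtain ⟨x, hx, h1⟩ := h
  have h2 := upper k hx
  have h3 : x = 2 * k * (k - 1) := le_antisymm h2 h1
  exact ⟨h3 ▸ hx, fun y hy => upper k hy⟩

end Q150.Faces
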