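import Pool.Agent.Q150.GridDefs

/-!
# Grids over `ℤ[√2]` are not lattice-like
-/

namespace Q150.Grid

/-- The number `a + b √2`. -/
noncomputable def em (x : ℕ × ℕ) : ℝ := (x.1 : ℝ) + (x.2 : ℝ) * Real.sqrt 2

lemma irr {p q : ℤ} (h : (p : ℝ) + q * Real.sqrt 2 = 0) : p = 0 ∧ q = 0 := by
  have hq : q = 0 := by
    by_contra hq
    have hq' : (q : ℝ) ≠ 0 := by exact_mod_cast hq
    have h1 : Real.sqrt 2 = ((-p / q : ℚ) : ℝ) := by
      push_cast
      field_simp
      linarith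
    exact irrational_sqrt_two ⟨_, h1.symm⟩
  subst hq
  refine ⟨?_, rfl⟩
  have : (p : ℝ) = 0 := by simpa using h
  exact_mod_cast this

lemma em_inj : Function.Injective em := by
  rintro ⟨a, b⟩ ⟨c, d⟩ h
  unfold em at h
  simp only at h
  have h1 : (((a : ℤ) - c : ℤ) : ℝ) + (((b : ℤ) - d : ℤ) : ℝ) * Real.sqrt 2 = 0 := by
    push_cast
    linarith
  obtain ⟨h2, h3⟩ := irr h1
  ext <;> simp only <;> omega

/-- The numbers `a + b √2` with `0 ≤ a, b < k`. -/
noncomputable def A (k : ℕ) : Finset ℝ :=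
  (Finset.range k ×ˢ Finset.range k).map ⟨em, em_inj⟩

lemma card_A (k : ℕ) : (A k).card = k * k := by
  unfold A
  rw [Finset.card_map, Finset.card_product, Finset.card_range]

lemma mem_A {k : ℕ} {x : ℝ} :
    x ∈ A k ↔ ∃ a b : ℕ, a < k ∧ b < k ∧ x = (a : ℝ) + (b : ℝ) * Real.sqrt 2 := by
  unfold A
  rw [Finset.mem_map]
  constructor
  · rintro ⟨⟨a, b⟩, h, rfl⟩
    rw [Finset.mem_product, Finset.mem_range, Finset.mem_range] at h
    exact ⟨a, b, h.1, h.2, rfl⟩
  · rintro ⟨a, b, ha, hb, rfl⟩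
    exact ⟨(a, b), Finset.mem_product.2 ⟨Finset.mem_range.2 ha, Finset.mem_range.2 hb⟩, rfl⟩

/-- The cross product of the images of two points of a horizontal line. -/
lemma minor (M : Matrix (Fin 3) (Fin 3) ℝ) (y x x' : ℝ) (s t : Fin 3) :
    proj M (x, y) s * proj M (x', y) t - proj M (x, y) t * proj M (x', y) s =
      (x' - x) * ((M s 1 * y + M s 2) * M t 0 - (M t 1 * y + M t 2) * M s 0) := by
  unfold proj
  simp only [Matrix.mulVec, dotProduct, Fin.sum_univ_three, Matrix.cons_val_zero,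
    Matrix.cons_val_one, Matrix.cons_val]
  ring

lemma exists_minor (M : Matrix (Fin 3) (Fin 3) ℝ) (hM : M.det ≠ 0) (y : ℝ) :
    ∃ s t : Fin 3, (M s 1 * y + M s 2) * M t 0 - (M t 1 * y + M t 2) * M s 0 ≠ 0 := by
  by_contra h
  push Not at h
  apply hM
  have h01 := h 0 1
  have h12 := h 1 2
  have h20 := h 2 0
  rw [Matrix.det_fin_three]
  linear_combination (M 2 1) * h01 + (M 0 1) * h12 + (M 1 1) * h20

/-- The key lemma: four points of a horizontal line with an irrational cross-ratio. -/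
lemma cross (M : Matrix (Fin 3) (Fin 3) ℝ) (hM : M.det ≠ 0) (y : ℝ) {a1 a2 a3 a4 b b4 : ℤ}
    (h12 : a1 ≠ a2) (h13 : a1 ≠ a3) (h23 : a2 ≠ a3) (hb : b ≠ b4) (x : Fin 4 → ℝ)
    (hx0 : x 0 = a1 + b * Real.sqrt 2) (hx1 : x 1 = a2 + b * Real.sqrt 2)
    (hx2 : x 2 = a3 + b * Real.sqrt 2) (hx3 : x 3 = a4 + b4 * Real.sqrt 2)
    (q : Fin 4 → Fin 3 → ℤ) (lam : Fin 4 → ℝ)
    (hq : ∀ i s, proj M (x i, y) s = lam i * q i s) : False := by
  obtain ⟨s, t, hN⟩ := exists_minor M hM y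
  set N := (M s 1 * y + M s 2) * M t 0 - (M t 1 * y + M t 2) * M s 0 with hNdef
  have key : ∀ i j, lam i * lam j * ((q i s * q j t - q i t * q j s : ℤ) : ℝ) =
      (x j - x i) * N := by
    intro i j
    have := minor M y (x i) (x j) s t
    rw [hq, hq, hq, hq] at this
    rw [hNdef, ← this]
    push_cast
    ring
  set r : Fin 4 → Fin 4 → ℤ := fun i j => q i s * q j t - q i t * q j s with hr
  have key' : ∀ i j, lam i * lam j * (r i j : ℝ) = (x j - x i) * N := key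
  have e1 : (x 2 - x 0) * (x 3 - x 1) * ((r 0 3 * r 1 2 : ℤ) : ℝ) =
      (x 3 - x 0) * (x 2 - x 1) * ((r 0 2 * r 1 3 : ℤ) : ℝ) := by
    have hNN : N ^ 2 ≠ 0 := pow_ne_zero 2 hN
    apply mul_left_cancel₀ hNN
    push_cast
    linear_combination (-(x 3 - x 1) * N * (r 0 3) * (r 1 2)) * key' 0 2 -
      (lam 0 * lam 2 * r 0 2 * r 0 3 * r 1 2) * key' 1 3 +
      ((x 2 - x 1) * N * (r 0 2) * (r 1 3)) * key' 0 3 +
      (lam 0 * lam 3 * r 0 3 * r 0 2 * r 1 3) * key' 1 2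
  have hne : ∀ i j, x j - x i ≠ 0 → r i j ≠ 0 := by
    intro i j hij h0
    have := key' i j
    rw [h0] at this
    simp only [Int.cast_zero, mul_zero] at this
    exact mul_ne_zero hij hN this.symm
  have h03 : r 0 3 ≠ 0 := by
    apply hne
    rw [hx0, hx3]
    intro h
    have h' : ((a4 - a1 : ℤ) : ℝ) + ((b4 - b : ℤ) : ℝ) * Real.sqrt 2 = 0 := by
      push_cast; linarith
    have := (irr h').2
    exact hb (by omega)
  have h12' : r 1 2 ≠ 0 := by
    apply hne
    rw [hx1, hx2]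
    intro h
    have h' : ((a3 - a2 : ℤ) : ℝ) + ((0 : ℤ) : ℝ) * Real.sqrt 2 = 0 := by
      push_cast; linarith
    have := (irr h').1
    exact h23 (by omega)
  set R' := (a3 - a1) * (r 0 3 * r 1 2) with hR'
  set R := (a3 - a2) * (r 0 2 * r 1 3) with hR
  have e2 : ((R' * (a4 - a2) - R * (a4 - a1) : ℤ) : ℝ) +
      ((R' * (b4 - b) - R * (b4 - b) : ℤ) : ℝ) * Real.sqrt 2 = 0 := by
    rw [hx0, hx1, hx2, hx3] at e1
    rw [hR', hR]
    push_cast at e1 ⊢
    linear_combination e1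
  obtain ⟨f1, f2⟩ := irr e2
  have hbb : b4 - b ≠ 0 := by omega
  have f3 : R' = R := by
    have : (R' - R) * (b4 - b) = 0 := by linear_combination f2
    rcases mul_eq_zero.1 this with h | h
    · omega
    · exact absurd h hbb
  rw [← f3] at f1
  have f4 : R' * (a1 - a2) = 0 := by linear_combination f1
  rcases mul_eq_zero.1 f4 with h | h
  · rw [hR'] at h
    rcases mul_eq_zero.1 h with h | h
    · exact h13 (by omega)
    · rcases mul_eq_zero.1 h with h | h
      · exact h03 h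
      · exact h12' h
  · exact h12 (by omega)

end Q150.Grid
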