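import Pool.Agent.Q150.GridA

/-!
# The disproof
-/

namespace Q150.Grid

open Classical in
/-- A dense subset of `A k × Y` is not mapped to lattice points by a projective transformation. -/
theorem no_section {k : ℕ} (hk : 1 ≤ k) {c : ℝ} (hc : 3 ≤ c * k) {Y : Finset ℝ}
    (hY : Y.Nonempty) {X : Finset (ℝ × ℝ)} (hX : X ⊆ A k ×ˢ Y)
    (hcard : c * ((k * k * Y.card : ℕ) : ℝ) ≤ X.card) (s : ℝ) : ¬ InSection X s := by
  rintro ⟨M, hM, a, b, _, hmap⟩
  have hk' : (1 : ℝ) ≤ k := by exact_mod_cast hk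
  -- a row with many points
  obtain ⟨y, hy, hrow⟩ : ∃ y ∈ Y, c * (k * k) ≤ ((X.filter fun p => p.2 = y).card : ℝ) := by
    by_contra hcon
    push Not at hcon
    have h1 : X.card = ∑ y ∈ Y, (X.filter fun p => p.2 = y).card :=
      Finset.card_eq_sum_card_fiberwise fun p hp => (Finset.mem_product.1 (hX hp)).2
    have h2 : (X.card : ℝ) < ∑ y ∈ Y, c * (k * k) := by
      rw [h1]
      push_cast
      exact Finset.sum_lt_sum_of_nonempty hY hcon
    rw [Finset.sum_const, nsmul_eq_mul] at h2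
    push_cast at hcard
    nlinarith
  set R := X.filter fun p => p.2 = y with hR
  have hbig : 3 * k ≤ R.card := by
    have h1 : ((3 * k : ℕ) : ℝ) ≤ R.card := by
      push_cast
      nlinarith
    exact_mod_cast h1
  have hrep : ∀ p ∈ R, ∃ u v : ℕ, u < k ∧ v < k ∧ p.1 = (u : ℝ) + (v : ℝ) * Real.sqrt 2 ∧
      p.2 = y := by
    intro p hp
    have hp' := Finset.mem_filter.1 hp
    obtain ⟨u, v, hu, hv, h⟩ := mem_A.1 (Finset.mem_product.1 (hX hp'.1)).1
    exact ⟨u, v, hu, hv, h, hp'.2⟩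
  choose! u v hu hv huv hpy using hrep
  obtain ⟨w, hw, hfib⟩ := Finset.exists_lt_card_fiber_of_mul_lt_card_of_maps_to
    (s := R) (t := Finset.range k) (f := v) (n := 2)
    (fun p hp => Finset.mem_range.2 (hv p hp)) (by rw [Finset.card_range]; omega)
  obtain ⟨p1, h1, p2, h2, p3, h3, h12, h13, h23⟩ := Finset.two_lt_card.1 hfib
  rw [Finset.mem_filter] at h1 h2 h3
  obtain ⟨p4, h4, hv4⟩ : ∃ p ∈ R, v p ≠ w := by
    by_contra hcon
    push Not at hcon
    have h5 : R.card ≤ (Finset.range k).card := by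
      refine Finset.card_le_card_of_injOn u (fun p hp => Finset.mem_coe.2
        (Finset.mem_range.2 (hu p hp))) ?_
      intro p hp q hq hpq
      have e1 := huv p hp
      have e2 := huv q hq
      rw [hcon p hp] at e1
      rw [hcon q hq] at e2
      have e3 : u p = u q := hpq
      rw [e3] at e1
      exact Prod.ext (e1.trans e2.symm) ((hpy p hp).trans (hpy q hq).symm)
    rw [Finset.card_range] at h5
    omega
  have hune : ∀ p ∈ R, ∀ q ∈ R, v p = w → v q = w → p ≠ q → (u p : ℤ) ≠ u q := by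
    intro p hp q hq hvp hvq hne h
    apply hne
    have e1 := huv p hp
    have e2 := huv q hq
    rw [hvp] at e1
    rw [hvq] at e2
    have e3 : u p = u q := by exact_mod_cast h
    rw [e3] at e1
    exact Prod.ext (e1.trans e2.symm) ((hpy p hp).trans (hpy q hq).symm)
  have hpt : ∀ p ∈ R, ∃ q : Fin 3 → ℤ, ∃ lam : ℝ, ∀ t, proj M (p.1, y) t = lam * q t := by
    intro p hp
    have hp' := Finset.mem_filter.1 hp
    obtain ⟨h0, i, j, _, _, _, _, e1, e2⟩ := hmap p hp'.1
    have hpe : (p.1, y) = p := by rw [← hp'.2]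
    rw [hpe]
    refine ⟨![(i : ℤ), (j : ℤ), 1], proj M p 2, fun t => ?_⟩
    rw [div_eq_iff h0] at e1 e2
    fin_cases t
    · simp only [Fin.zero_eta, Matrix.cons_val_zero, Int.cast_natCast]
      rw [e1]; ring
    · simp only [Fin.mk_one, Matrix.cons_val_one, Matrix.cons_val_zero, Int.cast_natCast]
      rw [e2]; ring
    · simp
  choose! q lam hql using hpt
  refine cross M hM y (hune p1 h1.1 p2 h2.1 h1.2 h2.2 h12) (hune p1 h1.1 p3 h3.1 h1.2 h3.2 h13)
    (hune p2 h2.1 p3 h3.1 h2.2 h3.2 h23) (b := w) (b4 := v p4) (a4 := u p4)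
    (fun h => hv4 (by exact_mod_cast h.symm)) ![p1.1, p2.1, p3.1, p4.1] ?_ ?_ ?_ ?_
    ![q p1, q p2, q p3, q p4] ![lam p1, lam p2, lam p3, lam p4] ?_
  · simp only [Matrix.cons_val_zero]
    rw [huv p1 h1.1, h1.2]; push_cast; rfl
  · simp only [Matrix.cons_val_one]
    rw [huv p2 h2.1, h2.2]; push_cast; rfl
  · simp only [Matrix.cons_val]
    rw [huv p3 h3.1, h3.2]; push_cast; rfl
  · simp only [Matrix.cons_val]
    rw [huv p4 h4]; push_cast; rfl
  · intro i t
    fin_cases i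
    · exact hql p1 h1.1 t
    · exact hql p2 h2.1 t
    · exact hql p3 h3.1 t
    · exact hql p4 h4 t

lemma dualLine_inj : Function.Injective dualLine := by
  rintro ⟨s, t⟩ ⟨s', t'⟩ h
  have h0 : ((0 : ℝ), -t) ∈ dualLine (s', t') := by
    rw [← h]; unfold dualLine; simp
  have h1 : ((1 : ℝ), s - t) ∈ dualLine (s', t') := by
    rw [← h]; unfold dualLine; simp
  unfold dualLine at h0 h1
  simp only [Set.mem_ofPred_eq] at h0 h1
  ext <;> simp only <;> linarith

/-- The points of the configuration. -/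
noncomputable def pts (k : ℕ) : Finset (ℝ × ℝ) := A k ×ˢ A (4 * (k * k))

/-- The dual points of the lines of the configuration. -/
noncomputable def dpts (k : ℕ) : Finset (ℝ × ℝ) := A k ×ˢ (A (k * k)).map (Equiv.neg ℝ).toEmbedding

/-- The lines of the configuration. -/
noncomputable def lns (k : ℕ) : Finset (Set (ℝ × ℝ)) := (dpts k).map ⟨dualLine, dualLine_inj⟩

lemma card_pts (k : ℕ) : (pts k).card = 16 * k ^ 6 := by
  unfold pts
  rw [Finset.card_product, card_A, card_A]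
  ring

lemma card_dpts (k : ℕ) : (dpts k).card = k ^ 6 := by
  unfold dpts
  rw [Finset.card_product, card_A, Finset.card_map, card_A]
  ring

lemma card_lns (k : ℕ) : (lns k).card = k ^ 6 := by
  unfold lns
  rw [Finset.card_map, card_dpts]

lemma isLine_of_mem {k : ℕ} {l : Set (ℝ × ℝ)} (hl : l ∈ lns k) : IsLine l := by
  unfold lns at hl
  obtain ⟨d, _, rfl⟩ := Finset.mem_map.1 hl
  refine ⟨-d.1, 1, -d.2, Or.inr one_ne_zero, ?_⟩
  ext p
  show p.2 = d.1 * p.1 - d.2 ↔ -d.1 * p.1 + 1 * p.2 = -d.2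
  constructor <;> intro h <;> linarith

open Classical in
lemma inc_ge (k : ℕ) : k ^ 8 ≤ inc (pts k) (lns k) := by
  unfold inc
  have h1 : (dpts k ×ˢ A k).card = k ^ 8 := by
    rw [Finset.card_product, card_dpts, card_A]; ring
  rw [← h1]
  refine Finset.card_le_card_of_injOn
    (fun z => ((z.2, z.1.1 * z.2 - z.1.2), dualLine z.1)) ?_ ?_
  · rintro ⟨d, x⟩ hz
    rw [Finset.mem_coe, Finset.mem_product] at hz
    obtain ⟨hd, hx⟩ := hz
    simp only at hd hx
    rw [Finset.mem_coe, Finset.mem_filter, Finset.mem_product]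
    refine ⟨⟨?_, Finset.mem_map_of_mem _ hd⟩, rfl⟩
    unfold pts
    rw [Finset.mem_product]
    refine ⟨hx, ?_⟩
    unfold dpts at hd
    rw [Finset.mem_product] at hd
    obtain ⟨hs, ht⟩ := hd
    obtain ⟨t, ht, ht2⟩ := Finset.mem_map.1 ht
    obtain ⟨a, b, ha, hb, hs'⟩ := mem_A.1 hs
    obtain ⟨c, e, hc, he, hx'⟩ := mem_A.1 hx
    obtain ⟨f, g, hf, hg, ht'⟩ := mem_A.1 ht
    rw [mem_A]
    have k1 : a * c ≤ k * k := Nat.mul_le_mul ha.le hc.le
    have k2 : b * e < k * k := Nat.mul_lt_mul'' hb he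
    have k3 : a * e ≤ k * k := Nat.mul_le_mul ha.le he.le
    have k4 : b * c ≤ k * k := Nat.mul_le_mul hb.le hc.le
    refine ⟨a * c + 2 * (b * e) + f, a * e + b * c + g, by omega, by omega, ?_⟩
    have h2 : Real.sqrt 2 ^ 2 = 2 := Real.sq_sqrt (by norm_num)
    have ht3 : d.2 = -t := ht2.symm
    show d.1 * x - d.2 = _
    rw [hs', hx', ht3, ht']
    push_cast
    linear_combination ((b : ℝ) * e) * h2
  · rintro ⟨d, x⟩ _ ⟨d', x'⟩ _ h
    simp only [Prod.mk.injEq] at h
    exact Prod.ext (dualLine_inj h.2) h.1.1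

theorem strong (c : ℝ) (hc : 0 < c) (N : ℕ) : ∃ k : ℕ, N ≤ k ∧ 1 ≤ k ∧
    (∀ P' ⊆ pts k, c * ((pts k).card : ℝ) ≤ P'.card → ∀ s, ¬ InSection P' s) ∧
    ∀ D : Finset (ℝ × ℝ), (∀ d ∈ D, dualLine d ∈ lns k) → c * ((lns k).card : ℝ) ≤ D.card →
      ∀ s, ¬ InSection D s := by
  obtain ⟨k0, hk0⟩ := exists_nat_ge (3 / c)
  set k := k0 + N + 1 with hk
  have hk1 : 1 ≤ k := by omega
  have hck : 3 ≤ c * k := by
    have h1 : 3 / c ≤ (k : ℝ) := hk0.trans (by rw [hk]; push_cast; linarith [Nat.cast_nonneg (α := ℝ) N])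
    rw [div_le_iff₀ hc] at h1
    linarith
  have hAne : ∀ j, 1 ≤ j → (A j).Nonempty := by
    intro j hj
    rw [← Finset.card_pos, card_A]
    positivity
  refine ⟨k, by omega, hk1, ?_, ?_⟩
  · intro P' hP' hcard s
    have hne : (A (4 * (k * k))).Nonempty := hAne _ (by nlinarith)
    refine no_section hk1 hck hne hP' ?_ s
    refine le_trans (le_of_eq ?_) hcard
    rw [card_pts, card_A]
    push_cast
    ring
  · intro D hD hcard s
    have hne : ((A (k * k)).map (Equiv.neg ℝ).toEmbedding).Nonempty :=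
      (hAne _ (by nlinarith)).map
    have hsub : D ⊆ dpts k := by
      intro d hd
      obtain ⟨d', hd', h⟩ := Finset.mem_map.1 (hD d hd)
      have : d' = d := dualLine_inj h
      rw [← this]; exact hd'
    refine no_section hk1 hck hne hsub ?_ s
    refine le_trans (le_of_eq ?_) hcard
    rw [card_lns, Finset.card_map, card_A]
    push_cast
    ring

theorem main : ¬ Conjecture := by
  intro h
  obtain ⟨c, C, hc, _, N, hN⟩ := h 16 1 (1 / 8) (by norm_num) (by norm_num) (by norm_num)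
  obtain ⟨k, hkN, hk1, h1, h2⟩ := strong c hc N
  have hk : (1 : ℝ) ≤ k := by exact_mod_cast hk1
  have hpow : k ≤ k ^ 6 := Nat.le_self_pow (by norm_num) k
  have hk6 : (1 : ℝ) ≤ (k : ℝ) ^ 6 := one_le_pow₀ hk
  have hres := hN (16 * k ^ 6) (k ^ 6) (by omega) (by omega) (by
    push_cast
    have h3 : Real.sqrt ((k : ℝ) ^ 6) ≤ (k : ℝ) ^ 6 := by
      rw [Real.sqrt_le_left (by positivity)]
      nlinarith
    nlinarith) (by
    push_cast
    nlinarith) (pts k) (lns k) (card_pts k) (card_lns k) (fun l hl => isLine_of_mem hl) (by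
    have h3 := inc_ge k
    have h4 : ((k : ℝ) ^ 8) ≤ inc (pts k) (lns k) := by exact_mod_cast h3
    refine le_trans ?_ h4
    have e1 : (((k ^ 6 : ℕ) : ℝ)) ^ ((2 : ℝ) / 3) = (k : ℝ) ^ 4 := by
      push_cast
      rw [← Real.rpow_natCast, ← Real.rpow_mul (by positivity), ← Real.rpow_natCast]
      norm_num
    have e2 : (((16 * k ^ 6 : ℕ) : ℝ)) ^ ((2 : ℝ) / 3) ≤ 8 * (k : ℝ) ^ 4 := by
      push_cast
      rw [Real.mul_rpow (by norm_num) (by positivity)]
      have e3 : ((k : ℝ) ^ 6) ^ ((2 : ℝ) / 3) = (k : ℝ) ^ 4 := by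
        rw [← Real.rpow_natCast, ← Real.rpow_mul (by positivity), ← Real.rpow_natCast]
        norm_num
      rw [e3]
      have e4 : (16 : ℝ) ^ ((2 : ℝ) / 3) ≤ 8 := by
        have h8 : (8 : ℝ) = ((8 : ℝ) ^ ((3 : ℝ) / 2)) ^ ((2 : ℝ) / 3) := by
          rw [← Real.rpow_mul (by norm_num)]
          norm_num
        rw [h8]
        apply Real.rpow_le_rpow (by norm_num)
        · have h9 : (8 : ℝ) ^ ((3 : ℝ) / 2) = 8 * Real.sqrt 8 := by
            rw [Real.sqrt_eq_rpow]
            nth_rewrite 2 [← Real.rpow_one (8 : ℝ)]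
            rw [← Real.rpow_add (by norm_num)]
            norm_num
          rw [h9]
          have h10 : 2 ≤ Real.sqrt 8 := by
            apply Real.le_sqrt_of_sq_le
            norm_num
          linarith
        · norm_num
      nlinarith [pow_pos (lt_of_lt_of_le one_pos hk) 4]
    rw [e1]
    have hk4 : 0 < (k : ℝ) ^ 4 := by positivity
    calc 1 / 8 * (((16 * k ^ 6 : ℕ) : ℝ) ^ ((2 : ℝ) / 3) * (k : ℝ) ^ 4)
        ≤ 1 / 8 * ((8 * (k : ℝ) ^ 4) * (k : ℝ) ^ 4) := by gcongr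
      _ = (k : ℝ) ^ 8 := by ring)
  rcases hres with ⟨P', hP', hcard, hsec⟩ | ⟨D, hD, hcard, hsec⟩
  · refine h1 P' hP' ?_ _ hsec
    rw [card_pts]; exact hcard
  · refine h2 D hD ?_ _ hsec
    rw [card_lns]; exact hcard

end Q150.Grid
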