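import Mathlib

/-!
# Extremal point-line configurations and lattice sections: definitions
-/

namespace Q150.Grid

/-- A line of the plane. -/
def IsLine (l : Set (ℝ × ℝ)) : Prop :=
  ∃ a b c : ℝ, (a ≠ 0 ∨ b ≠ 0) ∧ l = {p | a * p.1 + b * p.2 = c}

open Classical in
/-- The number of incidences between a finite set of points and a finite set of lines. -/
noncomputable def inc (P : Finset (ℝ × ℝ)) (L : Finset (Set (ℝ × ℝ))) : ℕ :=
  ((P ×ˢ L).filter fun q => q.1 ∈ q.2).card

/-- The homogeneous coordinates of the image of `p` under the projective map with matrix `M`. -/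
def proj (M : Matrix (Fin 3) (Fin 3) ℝ) (p : ℝ × ℝ) : Fin 3 → ℝ := M.mulVec ![p.1, p.2, 1]

/-- The set `X` is mapped, by a projective transformation that sends no point of `X` to infinity,
into a lattice section `{1, ..., a} × {1, ..., b}` of size `a b ≤ s`. -/
def InSection (X : Finset (ℝ × ℝ)) (s : ℝ) : Prop :=
  ∃ M : Matrix (Fin 3) (Fin 3) ℝ, M.det ≠ 0 ∧ ∃ a b : ℕ, ((a * b : ℕ) : ℝ) ≤ s ∧
    ∀ p ∈ X, proj M p 2 ≠ 0 ∧ ∃ i j : ℕ, 1 ≤ i ∧ i ≤ a ∧ 1 ≤ j ∧ j ≤ b ∧
      proj M p 0 / proj M p 2 = i ∧ proj M p 1 / proj M p 2 = j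

/-- The non-vertical line dual to the point `d = (s, t)`, that is `y = s x - t`. -/
def dualLine (d : ℝ × ℝ) : Set (ℝ × ℝ) := {p | p.2 = d.1 * p.1 - d.2}

/-- Alternative (a): a subset of `P` of size at least `c m` is mapped into a lattice section of
size at most `C m` by a projective transformation. -/
def PointsLattice (P : Finset (ℝ × ℝ)) (c C : ℝ) (m : ℕ) : Prop :=
  ∃ P' ⊆ P, c * m ≤ (P'.card : ℝ) ∧ InSection P' (C * m)

/-- Alternative (b): for at least `c n` non-vertical lines of `L`, the set of the dual points is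
mapped into a lattice section of size at most `C n` by a projective transformation. -/
def LinesLattice (L : Finset (Set (ℝ × ℝ))) (c C : ℝ) (n : ℕ) : Prop :=
  ∃ D : Finset (ℝ × ℝ), (∀ d ∈ D, dualLine d ∈ L) ∧ c * n ≤ (D.card : ℝ) ∧ InSection D (C * n)

/-- The question: must every extremal configuration be covered, up to constants, by a lattice
section after a projective transformation, or dually? -/
def Conjecture : Prop :=
  ∀ C₁ c₂ c₃ : ℝ, 0 < C₁ → 0 < c₂ → 0 < c₃ → ∃ c C : ℝ, 0 < c ∧ 0 < C ∧ ∃ N : ℕ,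
    ∀ m n : ℕ, N ≤ m → N ≤ n → c₂ * Real.sqrt n ≤ m → (m : ℝ) ≤ C₁ * (n : ℝ) ^ 2 →
      ∀ (P : Finset (ℝ × ℝ)) (L : Finset (Set (ℝ × ℝ))), P.card = m → L.card = n →
        (∀ l ∈ L, IsLine l) →
        c₃ * ((m : ℝ) ^ ((2 : ℝ) / 3) * (n : ℝ) ^ ((2 : ℝ) / 3)) ≤ inc P L →
          PointsLattice P c C m ∨ LinesLattice L c C n

end Q150.Grid
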