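import Pool.Agent.Q150.HypDefs

/-!
# The integral model
-/

namespace Q150.HypBal

/-! ## General facts on the hyperboloid -/

section general

variable {n : ℕ}

lemma head_sq (p : HypSpace n) : ∑ i : Fin n, p.1 i.succ ^ 2 = p.1 0 ^ 2 - 1 := by
  have h := p.2.1
  unfold lor at h
  have h2 : ∑ i : Fin n, p.1 i.succ ^ 2 = ∑ i : Fin n, p.1 i.succ * p.1 i.succ :=
    Finset.sum_congr rfl fun i _ => sq _
  rw [h2]; nlinarith

lemma one_le_head (p : HypSpace n) : 1 ≤ p.1 0 := by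
  have h := head_sq p
  have h0 := p.2.2
  have h1 : 0 ≤ ∑ i : Fin n, p.1 i.succ ^ 2 := Finset.sum_nonneg fun i _ => sq_nonneg _
  nlinarith

lemma cs (p q : HypSpace n) :
    (∑ i : Fin n, p.1 i.succ * q.1 i.succ) ^ 2 ≤ (p.1 0 ^ 2 - 1) * (q.1 0 ^ 2 - 1) := by
  rw [← head_sq p, ← head_sq q]
  exact Finset.sum_mul_sq_le_sq_mul_sq _ _ _

lemma one_le_neg_lor (p q : HypSpace n) : 1 ≤ -lor p.1 q.1 := by
  have h := cs p q
  have hp := one_le_head p
  have hq := one_le_head q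
  unfold lor
  by_contra hc
  push Not at hc
  have h1 : p.1 0 * q.1 0 - 1 < ∑ i : Fin n, p.1 i.succ * q.1 i.succ := by linarith
  have h2 : 0 ≤ p.1 0 * q.1 0 - 1 := by nlinarith
  nlinarith [sq_nonneg (p.1 0 - q.1 0)]

lemma cosh_hdist (p q : HypSpace n) : Real.cosh (hdist p q) = -lor p.1 q.1 :=
  Real.cosh_arcosh (one_le_neg_lor p q)

lemma hdist_nonneg (p q : HypSpace n) : 0 ≤ hdist p q :=
  Real.arcosh_nonneg (one_le_neg_lor p q)

lemma lor_comm (x y : Fin (n + 1) → ℝ) : lor x y = lor y x := by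
  unfold lor
  congr 1
  · ring
  · exact Finset.sum_congr rfl fun i _ => mul_comm _ _

lemma head_le {p q : HypSpace n} {r : ℝ} (h : hdist p q ≤ r) :
    q.1 0 ≤ 2 * p.1 0 * Real.cosh r := by
  have hcosh : -lor p.1 q.1 ≤ Real.cosh r := by
    rw [← cosh_hdist]
    rw [Real.cosh_le_cosh, abs_of_nonneg (hdist_nonneg p q)]
    exact h.trans (le_abs_self r)
  have h1 := cs p q
  have hp := one_le_head p
  have hq := one_le_head q
  set c := Real.cosh r
  unfold lor at hcosh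
  set S := ∑ i : Fin n, p.1 i.succ * q.1 i.succ
  have hc1 : 1 ≤ c := Real.one_le_cosh r
  by_contra hc
  push Not at hc
  have h2 : p.1 0 * q.1 0 - c ≤ S := by linarith
  have h3 : 0 ≤ p.1 0 * q.1 0 - c := by nlinarith
  have h4 : (p.1 0 * q.1 0 - c) ^ 2 ≤ (p.1 0 ^ 2 - 1) * (q.1 0 ^ 2 - 1) :=
    le_trans (pow_le_pow_left₀ h3 h2 2) h1
  nlinarith

end general

/-! ## The lattice -/

/-- Integer vectors `(t, x, y)`. -/
abbrev Z3 : Type := ℤ × ℤ × ℤ

/-- The bilinear form of `-t² + 8 (x² + x y + y²)`. -/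
def bf (v w : Z3) : ℤ :=
  -(v.1 * w.1) + 8 * (v.2.1 * w.2.1) + 8 * (v.2.2 * w.2.2) + 4 * (v.2.1 * w.2.2)
    + 4 * (w.2.1 * v.2.2)

/-- Rotation by 60 degrees about `(1, 0, 0)`. -/
def kE : Z3 ≃+ Z3 where
  toFun v := (v.1, -v.2.2, v.2.1 + v.2.2)
  invFun v := (v.1, v.2.1 + v.2.2, -v.2.1)
  left_inv v := by
    obtain ⟨t, x, y⟩ := v
    simp
  right_inv v := by
    obtain ⟨t, x, y⟩ := v
    simp
  map_add' v w := by
    obtain ⟨t, x, y⟩ := v
    obtain ⟨t', x', y'⟩ := w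
    ext <;> simp <;> ring

/-- The reflection which swaps `(1, 0, 0)` and `(3, 1, 0)`. -/
def hE : Z3 ≃+ Z3 where
  toFun v := (3 * v.1 - 8 * v.2.1 - 4 * v.2.2, v.1 - 3 * v.2.1 - 2 * v.2.2, v.2.2)
  invFun v := (3 * v.1 - 8 * v.2.1 - 4 * v.2.2, v.1 - 3 * v.2.1 - 2 * v.2.2, v.2.2)
  left_inv v := by
    obtain ⟨t, x, y⟩ := v
    ext <;> simp <;> ring
  right_inv v := by
    obtain ⟨t, x, y⟩ := v
    ext <;> simp <;> ring
  map_add' v w := by
    obtain ⟨t, x, y⟩ := v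
    obtain ⟨t', x', y'⟩ := w
    ext <;> simp <;> ring

lemma kE_apply (v : Z3) : kE v = (v.1, -v.2.2, v.2.1 + v.2.2) := rfl
lemma kE_symm_apply (v : Z3) : kE.symm v = (v.1, v.2.1 + v.2.2, -v.2.1) := rfl
lemma hE_apply (v : Z3) :
    hE v = (3 * v.1 - 8 * v.2.1 - 4 * v.2.2, v.1 - 3 * v.2.1 - 2 * v.2.2, v.2.2) := rfl
lemma hE_symm_apply (v : Z3) :
    hE.symm v = (3 * v.1 - 8 * v.2.1 - 4 * v.2.2, v.1 - 3 * v.2.1 - 2 * v.2.2, v.2.2) := rfl

lemma bf_k (v w : Z3) : bf (kE v) (kE w) = bf v w := by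
  simp only [bf, kE_apply]; ring

lemma bf_h (v w : Z3) : bf (hE v) (hE w) = bf v w := by
  simp only [bf, hE_apply]; ring

/-- The vertices of the tiling `{4,6}`. -/
inductive V : Z3 → Prop
  | o : V (1, 0, 0)
  | k {v : Z3} : V v → V (kE v)
  | h {v : Z3} : V v → V (hE v)

lemma V.hsymm {v : Z3} (hv : V v) : V (hE.symm v) := V.h hv

lemma V.ksymm {v : Z3} (hv : V v) : V (kE.symm v) := by
  have h : kE.symm v = kE (kE (kE (kE (kE v)))) := by
    obtain ⟨t, x, y⟩ := v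
    simp only [kE_apply, kE_symm_apply]
    ext <;> simp [add_comm]
  rw [h]
  exact hv.k.k.k.k.k

lemma V.norm {v : Z3} (hv : V v) : bf v v = -1 ∧ 0 < v.1 := by
  induction hv with
  | o => simp [bf]
  | k hv ih => exact ⟨by rw [bf_k]; exact ih.1, ih.2⟩
  | @h v hv ih =>
    refine ⟨by rw [bf_h]; exact ih.1, ?_⟩
    obtain ⟨t, x, y⟩ := v
    obtain ⟨h1, h2⟩ := ih
    simp only [bf, hE_apply] at h1 h2 ⊢
    by_contra hc
    push Not at hc
    have h3 : 0 < 3 * t := by linarith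
    have h4 : 3 * t ≤ 8 * x + 4 * y := by linarith
    have h5 : (3 * t) * (3 * t) ≤ (8 * x + 4 * y) * (8 * x + 4 * y) :=
      mul_le_mul h4 h4 h3.le (h3.le.trans h4)
    nlinarith [sq_nonneg y]

/-! ## Colours -/

/-- The colour modulo 3. -/
def c1 (v : Z3) : ZMod 3 × ZMod 3 := ((v.1 : ZMod 3), ((v.2.1 - v.2.2 : ℤ) : ZMod 3))

/-- The colour modulo 2 and 4. -/
def c2 (v : Z3) : ZMod 4 × ZMod 2 × ZMod 2 × ZMod 2 :=
  ((v.1 : ZMod 4), (v.1 : ZMod 2), (v.2.1 : ZMod 2), (v.2.2 : ZMod 2))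

/-- A permutation of `ℤ³` acts on the colours. -/
def Good (f : Z3 ≃+ Z3) : Prop :=
  (∀ v w, c1 v = c1 w → c1 (f v) = c1 (f w)) ∧ (∀ v w, c2 v = c2 w → c2 (f v) = c2 (f w)) ∧
    (∀ v, V v → V (f v)) ∧ (∀ v, V v → V (f.symm v)) ∧ ∀ v w, bf (f v) (f w) = bf v w

lemma three0 : (3 : ZMod 3) = 0 := by decide
lemma four0 : (4 : ZMod 4) = 0 := by decide
lemma two0 : (2 : ZMod 2) = 0 := by decide

lemma good_k : Good kE := by
  refine ⟨?_, ?_, fun v hv => hv.k, fun v hv => hv.ksymm, bf_k⟩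
  · rintro ⟨t, x, y⟩ ⟨t', x', y'⟩ h
    simp only [c1, Prod.mk.injEq, kE_apply] at h ⊢
    obtain ⟨h1, h2⟩ := h
    refine ⟨h1, ?_⟩
    push_cast at h2 ⊢
    linear_combination -h2 + (-(y : ZMod 3) + y') * three0
  · rintro ⟨t, x, y⟩ ⟨t', x', y'⟩ h
    simp only [c2, Prod.mk.injEq, kE_apply] at h ⊢
    obtain ⟨h1, h2, h3, h4⟩ := h
    refine ⟨h1, h2, ?_, ?_⟩
    · push_cast; rw [h4]
    · push_cast; rw [h3, h4]

lemma good_h : Good hE := by
  refine ⟨?_, ?_, fun v hv => hv.h, fun v hv => hv.hsymm, bf_h⟩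
  · rintro ⟨t, x, y⟩ ⟨t', x', y'⟩ h
    simp only [c1, Prod.mk.injEq, hE_apply] at h ⊢
    obtain ⟨h1, h2⟩ := h
    push_cast at h2 ⊢
    constructor
    · linear_combination h2 + (t - 3 * x - y - t' + 3 * x' + y' : ZMod 3) * three0
    · linear_combination h1 + (-x - y + x' + y' : ZMod 3) * three0
  · rintro ⟨t, x, y⟩ ⟨t', x', y'⟩ h
    simp only [c2, Prod.mk.injEq, hE_apply] at h ⊢
    obtain ⟨h1, h2, h3, h4⟩ := h
    push_cast
    refine ⟨?_, ?_, ?_, h4⟩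
    · linear_combination 3 * h1 + (-2 * x - y + 2 * x' + y' : ZMod 4) * four0
    · linear_combination h2 + (t - 4 * x - 2 * y - t' + 4 * x' + 2 * y' : ZMod 2) * two0
    · linear_combination h2 + h3 + (-2 * x - y + 2 * x' + y' : ZMod 2) * two0

/-- The rotations by 120 and 180 degrees about the vertex `p`. -/
def Rot (p : Z3) : Prop :=
  (∃ r : Z3 ≃+ Z3, (∀ v, V v → V (r v)) ∧ (∀ v, c1 (r v) = c1 v) ∧
    (∀ v, bf (r v) p = bf v p) ∧ ∀ v, v + r v + r (r v) = (-(3 * bf v p)) • p) ∧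
  ∃ r : Z3 ≃+ Z3, (∀ v, V v → V (r v)) ∧ (∀ v, c2 (r v) = c2 v) ∧
    (∀ v, bf (r v) p = bf v p) ∧ ∀ v, v + r v = (-(2 * bf v p)) • p

lemma rot_o : Rot (1, 0, 0) := by
  refine ⟨⟨kE.trans kE, fun v hv => hv.k.k, ?_, ?_, ?_⟩,
    ⟨(kE.trans kE).trans kE, fun v hv => hv.k.k.k, ?_, ?_, ?_⟩⟩
  · rintro ⟨t, x, y⟩
    simp only [c1, AddEquiv.trans_apply, kE_apply, Prod.mk.injEq, true_and]
    push_cast
    linear_combination (-(x : ZMod 3)) * three0
  · rintro ⟨t, x, y⟩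
    simp [bf, AddEquiv.trans_apply, kE_apply]
  · rintro ⟨t, x, y⟩
    simp only [AddEquiv.trans_apply, kE_apply, bf]
    ext <;> simp <;> ring
  · rintro ⟨t, x, y⟩
    simp only [c2, AddEquiv.trans_apply, kE_apply, Prod.mk.injEq, true_and]
    push_cast
    constructor
    · linear_combination (-(x : ZMod 2)) * two0
    · linear_combination (-(y : ZMod 2)) * two0
  · rintro ⟨t, x, y⟩
    simp [bf, AddEquiv.trans_apply, kE_apply]
  · rintro ⟨t, x, y⟩
    simp only [AddEquiv.trans_apply, kE_apply, bf]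
    ext <;> simp <;> ring

lemma Good.bsymm {f : Z3 ≃+ Z3} (hf : Good f) (v w : Z3) :
    bf (f.symm v) w = bf v (f w) := by
  rw [← hf.2.2.2.2 (f.symm v) w, f.apply_symm_apply]

lemma rot_step {f : Z3 ≃+ Z3} (hf : Good f) {p : Z3} (hp : Rot p) : Rot (f p) := by
  obtain ⟨⟨r, hr1, hr2, hr3, hr4⟩, s, hs1, hs2, hs3, hs4⟩ := hp
  refine ⟨⟨(f.symm.trans r).trans f, ?_, ?_, ?_, ?_⟩, (f.symm.trans s).trans f, ?_, ?_, ?_, ?_⟩
  · intro v hv
    exact hf.2.2.1 _ (hr1 _ (hf.2.2.2.1 _ hv))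
  · intro v
    show c1 (f (r (f.symm v))) = c1 v
    rw [hf.1 _ _ (hr2 (f.symm v)), f.apply_symm_apply]
  · intro v
    show bf (f (r (f.symm v))) (f p) = bf v (f p)
    rw [hf.2.2.2.2, hr3, hf.bsymm]
  · intro v
    show v + f (r (f.symm v)) + f (r (f.symm (f (r (f.symm v))))) = _
    rw [f.symm_apply_apply]
    have h := congrArg f (hr4 (f.symm v))
    rw [map_add, map_add, map_zsmul, f.apply_symm_apply, hf.bsymm] at h
    exact h
  · intro v hv
    exact hf.2.2.1 _ (hs1 _ (hf.2.2.2.1 _ hv))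
  · intro v
    show c2 (f (s (f.symm v))) = c2 v
    rw [hf.2.1 _ _ (hs2 (f.symm v)), f.apply_symm_apply]
  · intro v
    show bf (f (s (f.symm v))) (f p) = bf v (f p)
    rw [hf.2.2.2.2, hs3, hf.bsymm]
  · intro v
    show v + f (s (f.symm v)) = _
    have h := congrArg f (hs4 (f.symm v))
    rw [map_add, map_zsmul, f.apply_symm_apply, hf.bsymm] at h
    exact h

lemma V.rot {p : Z3} (hp : V p) : Rot p := by
  induction hp with
  | o => exact rot_o
  | k _ ih => exact rot_step good_k ih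
  | h _ ih => exact rot_step good_h ih

/-! ## The configuration -/

/-- The first part of the configuration. -/
def X : Set Z3 := {v | V v ∧ c1 v = (0, 1)}

/-- The second part of the configuration. -/
def Y : Set Z3 := {v | V v ∧ (v.1 : ZMod 4) = 1 ∧ (v.2.2 : ZMod 2) = 0}

/-- The parity of a vertex can be read off modulo 3 and modulo 4. -/
lemma V.parity {v : Z3} (hv : V v) :
    ((v.1 : ZMod 4) = 1 ∧ (v.1 : ZMod 3) ≠ 0 ∧ ((v.2.1 - v.2.2 : ℤ) : ZMod 3) = 0) ∨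
    ((v.1 : ZMod 4) = 3 ∧ (v.1 : ZMod 3) = 0 ∧ ((v.2.1 - v.2.2 : ℤ) : ZMod 3) ≠ 0) := by
  induction hv with
  | o => left; simp
  | @k v hv ih =>
    obtain ⟨t, x, y⟩ := v
    simp only [kE_apply] at ih ⊢
    have h : ((-y - (x + y) : ℤ) : ZMod 3) = -((x - y : ℤ) : ZMod 3) := by
      push_cast
      linear_combination (-(y : ZMod 3)) * three0
    rw [h]
    simpa only [ne_eq, neg_eq_zero] using ih
  | @h v hv ih =>
    obtain ⟨t, x, y⟩ := v
    simp only [hE_apply] at ih ⊢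
    have h1 : ((3 * t - 8 * x - 4 * y : ℤ) : ZMod 3) = ((x - y : ℤ) : ZMod 3) := by
      push_cast
      linear_combination (t - 3 * x - y : ZMod 3) * three0
    have h2 : ((t - 3 * x - 2 * y - y : ℤ) : ZMod 3) = (t : ZMod 3) := by
      push_cast
      linear_combination (-x - y : ZMod 3) * three0
    have h3 : ((3 * t - 8 * x - 4 * y : ℤ) : ZMod 4) = 3 * (t : ZMod 4) := by
      push_cast
      linear_combination (-2 * x - y : ZMod 4) * four0
    rw [h1, h2, h3]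
    rcases ih with ⟨i1, i2, i3⟩ | ⟨i1, i2, i3⟩
    · right
      refine ⟨by rw [i1]; decide, i3, i2⟩
    · left
      refine ⟨by rw [i1]; decide, i3, i2⟩

lemma disjoint_XY : Disjoint X Y := by
  rw [Set.disjoint_left]
  rintro v ⟨hv, h1⟩ ⟨-, h2, -⟩
  simp only [c1, Prod.mk.injEq] at h1
  rcases hv.parity with ⟨i1, i2, i3⟩ | ⟨i1, i2, i3⟩
  · exact i2 h1.1
  · rw [i1] at h2
    exact absurd h2 (by decide)

lemma sum_X {p : Z3} (hp : V p) (c : ℤ) (T : Finset Z3)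
    (hT : ∀ v, v ∈ T ↔ v ∈ X ∧ -bf v p = c) : ∑ v ∈ T, v = (T.card * c) • p := by
  obtain ⟨r, hr1, hr2, hr3, hr4⟩ := hp.rot.1
  have himg : T.image r = T := by
    apply Finset.eq_of_subset_of_card_le
    · intro w hw
      obtain ⟨v, hv, rfl⟩ := Finset.mem_image.1 hw
      rw [hT] at hv ⊢
      obtain ⟨⟨h1, h2⟩, h3⟩ := hv
      exact ⟨⟨hr1 _ h1, by rw [hr2, h2]⟩, by rw [hr3, h3]⟩
    · rw [Finset.card_image_of_injective _ r.injective]
  have hsum : ∀ f : Z3 → Z3, ∑ v ∈ T, f (r v) = ∑ v ∈ T, f v := by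
    intro f
    conv_rhs => rw [← himg]
    rw [Finset.sum_image fun a _ b _ h => r.injective h]
  have h1 : ∑ v ∈ T, (v + r v + r (r v)) = ∑ v ∈ T, (3 * c) • p := by
    apply Finset.sum_congr rfl
    intro v hv
    rw [hr4, ← ((hT v).1 hv).2]
    congr 1; ring
  rw [Finset.sum_add_distrib, Finset.sum_add_distrib, hsum (fun v => r v), hsum (fun v => v),
    Finset.sum_const] at h1
  have h2 : (3 : ℤ) • ∑ v ∈ T, v = (3 : ℤ) • ((T.card * c) • p) := by
    rw [smul_smul]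
    have h3 : (3 : ℤ) • ∑ v ∈ T, v = ∑ v ∈ T, v + ∑ v ∈ T, v + ∑ v ∈ T, v := by
      rw [show (3 : ℤ) = 1 + 1 + 1 by norm_num, add_smul, add_smul, one_smul]
    rw [h3, h1, ← natCast_zsmul, smul_smul]
    congr 1; ring
  exact smul_right_injective Z3 (by norm_num : (3 : ℤ) ≠ 0) h2

lemma sum_Y {p : Z3} (hp : V p) (c : ℤ) (T : Finset Z3)
    (hT : ∀ v, v ∈ T ↔ v ∈ Y ∧ -bf v p = c) : ∑ v ∈ T, v = (T.card * c) • p := by
  obtain ⟨r, hr1, hr2, hr3, hr4⟩ := hp.rot.2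
  have himg : T.image r = T := by
    apply Finset.eq_of_subset_of_card_le
    · intro w hw
      obtain ⟨v, hv, rfl⟩ := Finset.mem_image.1 hw
      rw [hT] at hv ⊢
      obtain ⟨⟨h1, h2, h2'⟩, h3⟩ := hv
      have h4 := hr2 v
      simp only [c2, Prod.mk.injEq] at h4
      exact ⟨⟨hr1 _ h1, by rw [h4.1, h2], by rw [h4.2.2.2, h2']⟩, by rw [hr3, h3]⟩
    · rw [Finset.card_image_of_injective _ r.injective]
  have hsum : ∀ f : Z3 → Z3, ∑ v ∈ T, f (r v) = ∑ v ∈ T, f v := by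
    intro f
    conv_rhs => rw [← himg]
    rw [Finset.sum_image fun a _ b _ h => r.injective h]
  have h1 : ∑ v ∈ T, (v + r v) = ∑ v ∈ T, (2 * c) • p := by
    apply Finset.sum_congr rfl
    intro v hv
    rw [hr4, ← ((hT v).1 hv).2]
    congr 1; ring
  rw [Finset.sum_add_distrib, hsum (fun v => v), Finset.sum_const] at h1
  have h2 : (2 : ℤ) • ∑ v ∈ T, v = (2 : ℤ) • ((T.card * c) • p) := by
    rw [smul_smul]
    have h3 : (2 : ℤ) • ∑ v ∈ T, v = ∑ v ∈ T, v + ∑ v ∈ T, v := by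
      rw [show (2 : ℤ) = 1 + 1 by norm_num, add_smul, one_smul]
    rw [h3, h1, ← natCast_zsmul, smul_smul]
    congr 1; ring
  exact smul_right_injective Z3 (by norm_num : (2 : ℤ) ≠ 0) h2

end Q150.HypBal
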