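import Pool.Agent.Q150.HypA

/-!
# The configuration in hyperbolic space
-/

namespace Q150.HypBal

variable (m : ℕ)

/-- The embedding of the lattice into `ℝ^{n+1}`, `n = m + 2`. -/
noncomputable def iota : Z3 →+ (Fin (m + 2 + 1) → ℝ) where
  toFun v := Fin.cons (v.1 : ℝ) (Fin.cons (√2 * (2 * v.2.1 + v.2.2))
    (Fin.cons (√6 * v.2.2) fun _ => 0))
  map_zero' := by
    ext i
    refine Fin.cases ?_ (fun i => ?_) i
    · show ((0 : ℤ) : ℝ) = 0
      simp
    · refine Fin.cases ?_ (fun i => ?_) i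
      · show √2 * (2 * ((0 : ℤ) : ℝ) + ((0 : ℤ) : ℝ)) = 0
        simp
      · refine Fin.cases ?_ (fun i => ?_) i
        · show √6 * ((0 : ℤ) : ℝ) = 0
          simp
        · rfl
  map_add' v w := by
    ext i
    refine Fin.cases ?_ (fun i => ?_) i
    · show ((v.1 + w.1 : ℤ) : ℝ) = v.1 + w.1
      push_cast; rfl
    · refine Fin.cases ?_ (fun i => ?_) i
      · show √2 * (2 * ((v.2.1 + w.2.1 : ℤ) : ℝ) + ((v.2.2 + w.2.2 : ℤ) : ℝ)) =
          √2 * (2 * v.2.1 + v.2.2) + √2 * (2 * w.2.1 + w.2.2)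
        push_cast; ring
      · refine Fin.cases ?_ (fun i => ?_) i
        · show √6 * ((v.2.2 + w.2.2 : ℤ) : ℝ) = √6 * v.2.2 + √6 * w.2.2
          push_cast; ring
        · show (0 : ℝ) = 0 + 0
          simp

lemma iota_zero_apply (v : Z3) : iota m v 0 = v.1 := rfl

lemma lor_iota (v w : Z3) : lor (iota m v) (iota m w) = (bf v w : ℝ) := by
  have h2 : √2 * √2 = 2 := Real.mul_self_sqrt (by norm_num)
  have h6 : √6 * √6 = 6 := Real.mul_self_sqrt (by norm_num)
  unfold lor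
  rw [Fin.sum_univ_succ, Fin.sum_univ_succ]
  have e1 : ∀ u : Z3, iota m u (Fin.succ 0) = √2 * (2 * u.2.1 + u.2.2) := fun u => rfl
  have e2 : ∀ u : Z3, iota m u (Fin.succ (Fin.succ 0)) = √6 * u.2.2 := fun u => rfl
  have e3 : ∀ (u : Z3) (i : Fin m), iota m u (Fin.succ (Fin.succ (Fin.succ i))) = 0 :=
    fun u i => rfl
  rw [iota_zero_apply, iota_zero_apply, e1, e1, e2, e2]
  simp only [e3, mul_zero, Finset.sum_const_zero, bf]
  push_cast
  linear_combination (2 * v.2.1 + v.2.2 : ℝ) * (2 * w.2.1 + w.2.2) * h2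
    + (v.2.2 : ℝ) * w.2.2 * h6

lemma iota_injective : Function.Injective (iota m) := by
  intro v w h
  have h0 : (v.1 : ℝ) = w.1 := congrFun h 0
  have h1 : √2 * (2 * v.2.1 + v.2.2) = √2 * (2 * w.2.1 + w.2.2) := congrFun h (Fin.succ 0)
  have h2 : √6 * v.2.2 = √6 * w.2.2 := congrFun h (Fin.succ (Fin.succ 0))
  have s2 : √2 ≠ 0 := by positivity
  have s6 : √6 ≠ 0 := by positivity
  have h3 := mul_left_cancel₀ s6 h2
  have h4 := mul_left_cancel₀ s2 h1
  have h5 : (v.2.1 : ℝ) = w.2.1 := by linarith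
  ext
  · exact_mod_cast h0
  · exact_mod_cast h5
  · exact_mod_cast h3

/-- The points of hyperbolic space given by integer vectors. -/
noncomputable def pt (v : Z3) : HypSpace (m + 2) :=
  open Classical in
  if h : bf v v = -1 ∧ 0 < v.1 then
    ⟨iota m v, by rw [lor_iota, h.1]; norm_num, by rw [iota_zero_apply]; exact_mod_cast h.2⟩
  else ⟨iota m (1, 0, 0), by rw [lor_iota]; simp [bf], by rw [iota_zero_apply]; norm_num⟩

lemma pt_val {v : Z3} (hv : V v) : (pt m v).1 = iota m v :=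
  congrArg Subtype.val (dif_pos hv.norm)

lemma lor_pt {v w : Z3} (hv : V v) (hw : V w) :
    -lor (pt m v).1 (pt m w).1 = ((-bf v w : ℤ) : ℝ) := by
  rw [pt_val m hv, pt_val m hw, lor_iota]; push_cast; rfl

lemma pt_inj {v w : Z3} (hv : V v) (hw : V w) (h : pt m v = pt m w) : v = w := by
  apply iota_injective m
  rw [← pt_val m hv, ← pt_val m hw, h]

/-- The integer points of the configuration. -/
def CZ : Set Z3 := X ∪ Y

lemma CZ_V {v : Z3} (hv : v ∈ CZ) : V v := by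
  rcases hv with h | h
  · exact h.1
  · exact h.1

/-- The configuration. -/
noncomputable def conf : Set (HypSpace (m + 2)) := pt m '' CZ

lemma finite_box (M : ℤ) : {v : Z3 | V v ∧ v.1 ≤ M}.Finite := by
  refine Set.Finite.subset ((Set.finite_Icc (-M) M).prod
    ((Set.finite_Icc (-M) M).prod (Set.finite_Icc (-M) M))) ?_
  rintro ⟨t, x, y⟩ ⟨hv, hM⟩
  obtain ⟨h1, h2⟩ := hv.norm
  simp only [bf] at h1 h2 hM
  have hx : x ^ 2 ≤ M ^ 2 := by nlinarith [sq_nonneg (x + 2 * y)]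
  have hy : y ^ 2 ≤ M ^ 2 := by nlinarith [sq_nonneg (2 * x + y)]
  have hM0 : 0 ≤ M := by linarith
  have hx' := abs_le_of_sq_le_sq' hx hM0
  have hy' := abs_le_of_sq_le_sq' hy hM0
  simp only [Set.mem_prod, Set.mem_Icc]
  refine ⟨⟨by linarith, hM⟩, hx', hy'⟩

lemma conf_discrete : IsDiscreteConf (conf m) := by
  intro p r
  refine Set.Finite.subset ((finite_box ⌊2 * p.1 0 * Real.cosh r⌋).image (pt m)) ?_
  rintro q ⟨⟨v, hv, rfl⟩, hr⟩
  refine ⟨v, ⟨CZ_V hv, ?_⟩, rfl⟩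
  have h := head_le hr
  rw [pt_val m (CZ_V hv), iota_zero_apply] at h
  exact Int.le_floor.2 h

lemma conf_balanced : IsBalanced (conf m) := by
  rintro _ ⟨p, hp, rfl⟩ d hd
  have hpV := CZ_V hp
  -- the shell
  set T : Set Z3 := {v | v ∈ CZ ∧ hdist (pt m p) (pt m v) = d} with hT
  have hshell : {q | q ∈ conf m ∧ hdist (pt m p) q = d} = pt m '' T := by
    ext q
    constructor
    · rintro ⟨⟨v, hv, rfl⟩, h⟩
      exact ⟨v, ⟨hv, h⟩, rfl⟩
    · rintro ⟨v, ⟨hv, h⟩, rfl⟩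
      exact ⟨⟨v, hv, rfl⟩, h⟩
  have hinj : Set.InjOn (pt m) T := fun v hv w hw h => pt_inj m (CZ_V hv.1) (CZ_V hw.1) h
  have hTfin : T.Finite := by
    apply Set.Finite.of_finite_image _ hinj
    rw [← hshell]
    refine (conf_discrete m (pt m p) d).subset ?_
    rintro q ⟨h1, h2⟩
    exact ⟨h1, h2.le⟩
  rw [hshell, finsum_mem_image hinj, finsum_mem_eq_finite_toFinset_sum _ hTfin]
  have hdir : ∀ v ∈ hTfin.toFinset, dir (pt m p) (pt m v) =
      (Real.sinh d)⁻¹ • (iota m v - Real.cosh d • iota m p) := by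
    intro v hv
    rw [Set.Finite.mem_toFinset] at hv
    unfold dir
    rw [hv.2, pt_val m hpV, pt_val m (CZ_V hv.1)]
  rw [Finset.sum_congr rfl hdir, ← Finset.smul_sum, Finset.sum_sub_distrib, Finset.sum_const,
    ← map_sum]
  by_cases hne : T.Nonempty
  · obtain ⟨v0, hv0⟩ := hne
    have hchar : ∀ v, v ∈ T ↔ v ∈ CZ ∧ -bf v p = -bf v0 p := by
      have hcosh : ∀ v ∈ CZ, hdist (pt m p) (pt m v) = d ↔ ((-bf v p : ℤ) : ℝ) = Real.cosh d := by
        intro v hv
        rw [← lor_pt m (CZ_V hv) hpV, lor_comm, ← cosh_hdist]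
        constructor
        · intro h; rw [h]
        · intro h
          exact Real.cosh_injOn (hdist_nonneg _ _) hd.le h
      intro v
      constructor
      · rintro ⟨h1, h2⟩
        refine ⟨h1, ?_⟩
        have h3 := (hcosh v h1).1 h2
        have h4 := (hcosh v0 hv0.1).1 hv0.2
        rw [← h4] at h3
        exact_mod_cast h3
      · rintro ⟨h1, h2⟩
        refine ⟨h1, (hcosh v h1).2 ?_⟩
        rw [h2]
        exact (hcosh v0 hv0.1).1 hv0.2
    have hcd : Real.cosh d = ((-bf v0 p : ℤ) : ℝ) := by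
      rw [← lor_pt m (CZ_V hv0.1) hpV, lor_comm, ← cosh_hdist, hv0.2]
    set c : ℤ := -bf v0 p with hc
    classical
    set F := hTfin.toFinset with hF
    have hFX : ∀ v, v ∈ F.filter (· ∈ X) ↔ v ∈ X ∧ -bf v p = c := by
      intro v
      rw [Finset.mem_filter, hF, Set.Finite.mem_toFinset, hchar]
      constructor
      · rintro ⟨⟨-, h1⟩, h2⟩; exact ⟨h2, h1⟩
      · rintro ⟨h1, h2⟩; exact ⟨⟨Or.inl h1, h2⟩, h1⟩
    have hFY : ∀ v, v ∈ F.filter (¬ · ∈ X) ↔ v ∈ Y ∧ -bf v p = c := by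
      intro v
      rw [Finset.mem_filter, hF, Set.Finite.mem_toFinset, hchar]
      constructor
      · rintro ⟨⟨h0, h1⟩, h2⟩
        rcases h0 with h0 | h0
        · exact absurd h0 h2
        · exact ⟨h0, h1⟩
      · rintro ⟨h1, h2⟩
        exact ⟨⟨Or.inr h1, h2⟩, fun h => Set.disjoint_left.1 disjoint_XY h h1⟩
    have hsum : ∑ v ∈ F, v = (F.card * c) • p := by
      rw [← Finset.sum_filter_add_sum_filter_not F (· ∈ X) (fun v => v),
        sum_X hpV c _ hFX, sum_Y hpV c _ hFY, ← add_smul, ← add_mul]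
      congr 2
      rw [← Finset.card_filter_add_card_filter_not (s := F) (· ∈ X)]
      push_cast; rfl
    rw [hsum, hcd, map_zsmul]
    have h0 : ((F.card * c : ℤ)) • iota m p - F.card • ((c : ℤ) : ℝ) • iota m p = 0 := by
      rw [← Int.cast_smul_eq_zsmul ℝ, ← Nat.cast_smul_eq_nsmul ℝ, smul_smul]
      push_cast
      simp
    rw [h0, smul_zero]
  · rw [Set.not_nonempty_iff_eq_empty] at hne
    have h0 : hTfin.toFinset = ∅ := by
      rw [Set.Finite.toFinset_eq_empty]; exact hne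
    rw [h0]
    simp

/-! ## No rotations -/

lemma A0_mem : ((3, 1, 0) : Z3) ∈ CZ := by
  left
  refine ⟨?_, by decide⟩
  have h : ((3, 1, 0) : Z3) = hE (1, 0, 0) := by decide
  rw [h]; exact V.h V.o

lemma D0_mem : ((5, -1, 2) : Z3) ∈ CZ := by
  right
  refine ⟨?_, by decide, by decide⟩
  have h : ((5, -1, 2) : Z3) = kE (hE (kE (hE (1, 0, 0)))) := by decide
  rw [h]; exact V.k (V.h (V.k (V.h V.o)))

lemma o_mem : ((1, 0, 0) : Z3) ∈ CZ := by
  right
  exact ⟨V.o, by decide, by decide⟩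

lemma shell3 {v : Z3} (hv : v ∈ CZ) (h : v.1 = 3) :
    v = (3, 1, 0) ∨ v = (3, -1, 1) ∨ v = (3, 0, -1) := by
  have hV := CZ_V hv
  obtain ⟨t, x, y⟩ := v
  obtain ⟨h1, h2⟩ := hV.norm
  simp only at h
  subst h
  simp only [bf] at h1
  have hx1 : -1 ≤ x := by nlinarith [sq_nonneg (x + 2 * y)]
  have hx2 : x ≤ 1 := by nlinarith [sq_nonneg (x + 2 * y)]
  have hy1 : -1 ≤ y := by nlinarith [sq_nonneg (2 * x + y)]
  have hy2 : y ≤ 1 := by nlinarith [sq_nonneg (2 * x + y)]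
  rcases hv with ⟨-, hc⟩ | ⟨-, hc, -⟩
  · simp only [c1, Prod.mk.injEq] at hc
    obtain ⟨-, hc⟩ := hc
    interval_cases x <;> interval_cases y <;>
      first | (exfalso; revert h1; decide) | (exfalso; revert hc; decide) | decide
  · have hc' : ((3 : ℤ) : ZMod 4) = 1 := hc
    exact absurd hc' (by decide)

lemma shell5 {v : Z3} (hv : v ∈ CZ) (h : v.1 = 5) :
    v = (5, -1, 2) ∨ v = (5, 1, -2) := by
  have hV := CZ_V hv
  obtain ⟨t, x, y⟩ := v
  obtain ⟨h1, h2⟩ := hV.norm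
  simp only at h
  subst h
  simp only [bf] at h1
  have hx1 : -2 ≤ x := by nlinarith [sq_nonneg (x + 2 * y)]
  have hx2 : x ≤ 2 := by nlinarith [sq_nonneg (x + 2 * y)]
  have hy1 : -2 ≤ y := by nlinarith [sq_nonneg (2 * x + y)]
  have hy2 : y ≤ 2 := by nlinarith [sq_nonneg (2 * x + y)]
  rcases hv with ⟨-, hc⟩ | ⟨-, -, hc⟩
  · simp only [c1, Prod.mk.injEq] at hc
    exact absurd hc.1 (by decide)
  · simp only at hc
    interval_cases x <;> interval_cases y <;>
      first | (exfalso; revert h1; decide) | (exfalso; revert hc; decide) | decide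

/-- Every symmetry of the configuration which fixes `pt (1,0,0)` also fixes `pt (3,1,0)`. -/
lemma fixes (g : HypSpace (m + 2) ≃ HypSpace (m + 2)) (hg : IsSymmetry (conf m) g)
    (hfix : g (pt m (1, 0, 0)) = pt m (1, 0, 0)) : g (pt m (3, 1, 0)) = pt m (3, 1, 0) := by
  obtain ⟨hiso, hC⟩ := hg
  have hlor : ∀ p q, -lor (g p).1 (g q).1 = -lor p.1 q.1 := by
    intro p q
    rw [← cosh_hdist, ← cosh_hdist, hiso]
  have hmem : ∀ v ∈ CZ, ∃ w ∈ CZ, pt m w = g (pt m v) := by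
    intro v hv
    have h : g (pt m v) ∈ g '' conf m := ⟨_, ⟨v, hv, rfl⟩, rfl⟩
    rw [hC] at h
    exact h
  obtain ⟨w1, hw1, e1⟩ := hmem _ A0_mem
  obtain ⟨w2, hw2, e2⟩ := hmem _ D0_mem
  have t1 : -bf (1, 0, 0) w1 = 3 := by
    have h := hlor (pt m (1, 0, 0)) (pt m (3, 1, 0))
    rw [hfix, ← e1, lor_pt m V.o (CZ_V hw1), lor_pt m V.o (CZ_V A0_mem)] at h
    have h' : -bf (1, 0, 0) w1 = -bf (1, 0, 0) (3, 1, 0) := by exact_mod_cast h
    rw [h']; decide
  have t2 : -bf (1, 0, 0) w2 = 5 := by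
    have h := hlor (pt m (1, 0, 0)) (pt m (5, -1, 2))
    rw [hfix, ← e2, lor_pt m V.o (CZ_V hw2), lor_pt m V.o (CZ_V D0_mem)] at h
    have h' : -bf (1, 0, 0) w2 = -bf (1, 0, 0) (5, -1, 2) := by exact_mod_cast h
    rw [h']; decide
  have t3 : -bf w1 w2 = 15 := by
    have h := hlor (pt m (3, 1, 0)) (pt m (5, -1, 2))
    rw [← e1, ← e2, lor_pt m (CZ_V hw1) (CZ_V hw2), lor_pt m (CZ_V A0_mem) (CZ_V D0_mem)] at h
    have h' : -bf w1 w2 = -bf (3, 1, 0) (5, -1, 2) := by exact_mod_cast h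
    rw [h']; decide
  have u1 : w1.1 = 3 := by simpa [bf] using t1
  have u2 : w2.1 = 5 := by simpa [bf] using t2
  rw [← e1]
  rcases shell3 hw1 u1 with h | h | h
  · rw [h]
  · rcases shell5 hw2 u2 with h' | h'
    · rw [h, h'] at t3; exact absurd t3 (by decide)
    · rw [h, h'] at t3; exact absurd t3 (by decide)
  · rcases shell5 hw2 u2 with h' | h'
    · rw [h, h'] at t3; exact absurd t3 (by decide)
    · rw [h, h'] at t3; exact absurd t3 (by decide)

theorem main (n : ℕ) (hn : 2 ≤ n) : ∃ C : Set (HypSpace n),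
    IsDiscreteConf C ∧ IsBalanced C ∧ ¬ IsGroupBalanced C ∧
      ∃ p ∈ C, ∃ q, q ≠ p ∧ ∀ g : HypSpace n ≃ HypSpace n, IsSymmetry C g → g p = p → g q = q := by
  obtain ⟨m, rfl⟩ : ∃ m, n = m + 2 := ⟨n - 2, by omega⟩
  have hne : pt m (3, 1, 0) ≠ pt m (1, 0, 0) := by
    intro h
    have := pt_inj m (CZ_V A0_mem) V.o h
    exact absurd this (by decide)
  refine ⟨conf m, conf_discrete m, conf_balanced m, ?_, pt m (1, 0, 0), ⟨_, o_mem, rfl⟩,
    pt m (3, 1, 0), hne, fun g hg h => fixes m g hg h⟩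
  intro h
  obtain ⟨g, hg, hfix⟩ := h _ ⟨_, o_mem, rfl⟩
  have h1 : g (pt m (1, 0, 0)) = pt m (1, 0, 0) := by
    have : pt m (1, 0, 0) ∈ {q | g q = q} := by rw [hfix]; rfl
    exact this
  have h2 : pt m (3, 1, 0) ∈ {q | g q = q} := fixes m g hg h1
  rw [hfix] at h2
  exact hne h2

end Q150.HypBal
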