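import Mathlib

/-!
# Balanced configurations in hyperbolic space: definitions

Real hyperbolic `n`-space in the hyperboloid model.
-/

namespace Q150.HypBal

/-- The Lorentz form `-x₀ y₀ + x₁ y₁ + ... + xₙ yₙ`. -/
def lor {n : ℕ} (x y : Fin (n + 1) → ℝ) : ℝ :=
  -(x 0 * y 0) + ∑ i : Fin n, x i.succ * y i.succ

/-- Real hyperbolic `n`-space: the upper sheet of the hyperboloid `⟨x, x⟩ = -1`. -/
def HypSpace (n : ℕ) : Type := {x : Fin (n + 1) → ℝ // lor x x = -1 ∧ 0 < x 0}

/-- The hyperbolic distance: `cosh (hdist p q) = -⟨p, q⟩`. -/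
noncomputable def hdist {n : ℕ} (p q : HypSpace n) : ℝ := Real.arcosh (-lor p.1 q.1)

/-- The unit tangent vector at `p` of the geodesic from `p` to a point `q` different from `p`. -/
noncomputable def dir {n : ℕ} (p q : HypSpace n) : Fin (n + 1) → ℝ :=
  (Real.sinh (hdist p q))⁻¹ • (q.1 - Real.cosh (hdist p q) • p.1)

/-- A configuration is discrete if every ball contains only finitely many of its points. -/
def IsDiscreteConf {n : ℕ} (C : Set (HypSpace n)) : Prop :=
  ∀ (p : HypSpace n) (r : ℝ), {q | q ∈ C ∧ hdist p q ≤ r}.Finite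

/-- A configuration is balanced if for every point `p` of it and every `d > 0` the unit tangent
vectors at `p` towards the points of the configuration at distance `d` from `p` sum to zero. -/
def IsBalanced {n : ℕ} (C : Set (HypSpace n)) : Prop :=
  ∀ p ∈ C, ∀ d : ℝ, 0 < d → ∑ᶠ q ∈ {q | q ∈ C ∧ hdist p q = d}, dir p q = 0

/-- A symmetry of `C`: a bijective isometry `g` of hyperbolic space with `g(C) = C`. -/
def IsSymmetry {n : ℕ} (C : Set (HypSpace n)) (g : HypSpace n ≃ HypSpace n) : Prop :=
  (∀ p q, hdist (g p) (g q) = hdist p q) ∧ g '' C = C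

/-- A configuration is group-balanced if for every point `p` of it there is a symmetry whose set of
fixed points is exactly `{p}`. -/
def IsGroupBalanced {n : ℕ} (C : Set (HypSpace n)) : Prop :=
  ∀ p ∈ C, ∃ g : HypSpace n ≃ HypSpace n, IsSymmetry C g ∧ {q | g q = q} = {p}

end Q150.HypBal
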