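import Pool.Agent.Q150.JointsDefs

/-!
# Few four-dimensional joints in simple matroids
-/

namespace Q150.Joints

open Set

variable {α : Type} {M : Matroid α}

lemma eRk_single (hM : Simple M) {x : α} (hx : x ∈ M.E) : M.eRk {x} = 1 := by
  have h : M.Indep {x} := by
    have := hM x hx x hx
    rwa [pair_eq_singleton] at this
  rw [h.eRk_eq_encard, encard_singleton]

/-- A flat containing two points of a line contains the line. -/
lemma line_subset (hM : Simple M) {l F : Set α} (hl : IsLine M l) (hF : M.IsFlat F) {x y : α}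
    (hxy : x ≠ y) (hxl : x ∈ l) (hyl : y ∈ l) (hxF : x ∈ F) (hyF : y ∈ F) : l ⊆ F := by
  have hI : M.Indep {x, y} := hM x (hl.1.subset_ground hxl) y (hl.1.subset_ground hyl)
  have hsub : ({x, y} : Set α) ⊆ l := by
    rintro z (rfl | rfl)
    · exact hxl
    · exact hyl
  have hb : M.IsBasis {x, y} l := hI.isBasis_of_eRk_ge (by simp) hsub (by
    rw [hl.2, hI.eRk_eq_encard, encard_pair hxy]) hl.1.subset_ground
  have h1 := hb.subset_closure
  have h2 : M.closure {x, y} ⊆ F := by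
    rw [← hF.closure]
    apply M.closure_subset_closure
    rintro z (rfl | rfl)
    · exact hxF
    · exact hyF
  exact h1.trans h2

/-- Two lines with two common points are equal. -/
lemma line_eq (hM : Simple M) {l l' : Set α} (hl : IsLine M l) (hl' : IsLine M l') {x y : α}
    (hxy : x ≠ y) (hxl : x ∈ l) (hyl : y ∈ l) (hxl' : x ∈ l') (hyl' : y ∈ l') : l = l' :=
  Subset.antisymm (line_subset hM hl hl'.1 hxy hxl hyl hxl' hyl')
    (line_subset hM hl' hl.1 hxy hxl' hyl' hxl hyl)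

/-- Adding a line through a point raises the rank by at most one. -/
lemma eRk_union_line (hM : Simple M) {A l : Set α} (hl : IsLine M l) {x : α} (hxl : x ∈ l)
    (hxA : x ∈ A) : M.eRk (A ∪ l) ≤ M.eRk A + 1 := by
  have h1 := M.eRk_inter_add_eRk_union_le A l
  rw [hl.2] at h1
  have h2 : (1 : ℕ∞) ≤ M.eRk (A ∩ l) := by
    rw [← eRk_single hM (hl.1.subset_ground hxl)]
    apply M.eRk_mono
    rintro z rfl
    exact ⟨hxA, hxl⟩
  have h3 : 1 + M.eRk (A ∪ l) ≤ M.eRk A + 2 := le_trans (by gcongr) h1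
  have h4 : 1 + M.eRk (A ∪ l) ≤ 1 + (M.eRk A + 1) := by
    refine h3.trans (le_of_eq ?_)
    rw [add_comm (1 : ℕ∞), add_assoc, one_add_one_eq_two]
  exact (ENat.add_le_add_iff_left (by simp)).1 h4

/-- The union of lines through `x`, with `x`. -/
def star (x : α) (Λ : Finset (Set α)) : Set α := {x} ∪ ⋃ l ∈ Λ, l

lemma eRk_star_le (hM : Simple M) {x : α} {Λ Λ' : Finset (Set α)}
    (h : ∀ l ∈ Λ', IsLine M l ∧ x ∈ l) (hsub : Λ ⊆ Λ') :
    M.eRk (star x Λ') ≤ M.eRk (star x Λ) + (Λ'.card - Λ.card : ℕ) := by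
  classical
  induction' hk : Λ'.card - Λ.card with k ih generalizing Λ'
  · have : Λ = Λ' := Finset.eq_of_subset_of_card_le hsub (by omega)
    rw [this]; simp
  · obtain ⟨l, hl', hl⟩ : ∃ l ∈ Λ', l ∉ Λ := by
      by_contra hcon
      push Not at hcon
      have := Finset.card_le_card (show Λ' ⊆ Λ from hcon)
      omega
    have h1 := ih (Λ' := Λ'.erase l) (fun l' hl'' => h l' (Finset.mem_of_mem_erase hl''))
      (by
        intro l' hl''
        rw [Finset.mem_erase]
        refine ⟨?_, hsub hl''⟩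
        rintro rfl
        exact hl hl'') (by
        rw [Finset.card_erase_of_mem hl']; omega)
    have h2 : star x Λ' = star x (Λ'.erase l) ∪ l := by
      ext z
      simp only [star, mem_union, mem_iUnion, Finset.mem_erase, mem_singleton_iff]
      constructor
      · rintro (h | ⟨l', h, h'⟩)
        · exact Or.inl (Or.inl h)
        · by_cases e : l' = l
          · subst e; exact Or.inr h'
          · exact Or.inl (Or.inr ⟨l', ⟨e, h⟩, h'⟩)
      · rintro ((h | ⟨l', h, h'⟩) | h)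
        · exact Or.inl h
        · exact Or.inr ⟨l', h.2, h'⟩
        · exact Or.inr ⟨l, hl', h⟩
    rw [h2]
    refine (eRk_union_line hM (h l hl').1 (h l hl').2 (by left; rfl)).trans ?_
    calc M.eRk (star x (Λ'.erase l)) + 1 ≤ (M.eRk (star x Λ) + (k : ℕ)) + 1 := by gcongr
      _ = _ := by push_cast; rw [add_assoc]

/-- A good choice of four lines through a point. -/
structure Good (M : Matroid α) (𝔏 : Finset (Set α)) (x : α) (Λ : Finset (Set α)) : Prop where
  sub : Λ ⊆ 𝔏
  card : Λ.card = 4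
  mem : ∀ l ∈ Λ, x ∈ l
  out : ∀ F, M.IsFlat F → M.eRk F ≤ 4 → ∃ l ∈ Λ, ¬ l ⊆ F

lemma exists_good (hM : Simple M) {𝔏 : Finset (Set α)} (h𝔏 : ∀ l ∈ 𝔏, IsLine M l) {n : ℕ}
    (hn : 4 ≤ n) {x : α} (hx : IsJoint M 𝔏 n x) : ∃ Λ, Good M 𝔏 x Λ := by
  classical
  obtain ⟨l, hl, hr⟩ := hx
  have hxE : x ∈ M.E := (h𝔏 _ (hl ⟨0, by omega⟩).1).1.subset_ground (hl ⟨0, by omega⟩).2
  set Λn : Finset (Set α) := Finset.univ.image l with hΛn
  have hΛ' : ∀ m ∈ Λn, IsLine M m ∧ x ∈ m := by
    intro m hm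
    obtain ⟨i, _, rfl⟩ := Finset.mem_image.1 hm
    exact ⟨h𝔏 _ (hl i).1, (hl i).2⟩
  have hsub : (⋃ i, l i) ⊆ star x Λn := by
    intro z hz
    obtain ⟨i, hi⟩ := mem_iUnion.1 hz
    right
    simp only [mem_iUnion]
    exact ⟨l i, Finset.mem_image_of_mem _ (Finset.mem_univ i), hi⟩
  have hr2 : ((n + 1 : ℕ) : ℕ∞) ≤ M.eRk (star x Λn) := hr.trans (M.eRk_mono hsub)
  have hcn : Λn.card ≤ n := by
    have := Finset.card_image_le (s := (Finset.univ : Finset (Fin n))) (f := l)
    rwa [Finset.card_univ, Fintype.card_fin] at this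
  have hstar0 : M.eRk (star x (∅ : Finset (Set α))) = 1 := by
    have : star x (∅ : Finset (Set α)) = {x} := by simp [star]
    rw [this, eRk_single hM hxE]
  have hcn2 : n ≤ Λn.card := by
    have h1 := eRk_star_le hM hΛ' (Finset.empty_subset Λn)
    rw [hstar0, Finset.card_empty, Nat.sub_zero] at h1
    have h2 := hr2.trans h1
    have h3 : ((n + 1 : ℕ) : ℕ∞) ≤ ((1 + Λn.card : ℕ) : ℕ∞) := by
      push_cast at h2 ⊢; exact h2
    have h4 := ENat.natCast_le_natCast.1 h3
    omega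
  obtain ⟨Λ, hΛsub, hΛcard⟩ := Finset.exists_subset_card_eq (show 4 ≤ Λn.card by omega)
  have h5 : (5 : ℕ∞) ≤ M.eRk (star x Λ) := by
    have h1 := hr2.trans (eRk_star_le hM hΛ' hΛsub)
    rw [hΛcard] at h1
    by_contra hcon
    push Not at hcon
    have hfin : M.eRk (star x Λ) ≠ ⊤ := (hcon.trans_le le_top).ne
    obtain ⟨r, hr⟩ := ENat.ne_top_iff_exists.1 hfin
    rw [← hr] at h1 hcon
    have h2 : ((n + 1 : ℕ) : ℕ∞) ≤ ((r + (Λn.card - 4) : ℕ) : ℕ∞) := by
      push_cast at h1 ⊢; exact h1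
    have h3 := ENat.natCast_le_natCast.1 h2
    have h4 : (r : ℕ∞) < ((5 : ℕ) : ℕ∞) := by exact_mod_cast hcon
    have h5 := ENat.natCast_lt_natCast.1 h4
    omega
  refine ⟨Λ, ?_, hΛcard, fun m hm => (hΛ' m (hΛsub hm)).2, ?_⟩
  · intro m hm
    obtain ⟨i, _, rfl⟩ := Finset.mem_image.1 (hΛsub hm)
    exact (hl i).1
  · intro F hF hF4
    by_contra hcon
    push Not at hcon
    have hne : Λ.Nonempty := by rw [← Finset.card_pos]; omega
    obtain ⟨m, hm⟩ := hne
    have hsubF : star x Λ ⊆ F := by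
      rintro z (h | h)
      · rw [mem_singleton_iff] at h
        subst h
        exact hcon m hm (hΛ' m (hΛsub hm)).2
      · simp only [mem_iUnion] at h
        obtain ⟨l', h1, h2⟩ := h
        exact hcon l' h1 h2
    have h6 := h5.trans ((M.eRk_mono hsubF).trans hF4)
    exact absurd h6 (by decide)

end Q150.Joints
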