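import Pool.Agent.Q150.JointsA

/-!
# Counting four-dimensional joints
-/

namespace Q150.Joints

open Set

variable {α : Type} {M : Matroid α}

section count

variable {𝔏 : Finset (Set α)} {X : Finset α}
  {Λ : α → Finset (Set α)}

open Classical in
/-- The number of joints on a line. -/
noncomputable def jn (X : Finset α) (Λ : α → Finset (Set α)) (m : Set α) : ℕ :=
  (X.filter fun x => m ∈ Λ x).card

open Classical in
lemma flat_bound (hM : Simple M) (h𝔏 : ∀ l ∈ 𝔏, IsLine M l)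
    (hΛ : ∀ x ∈ X, Good M 𝔏 x (Λ x)) {F : Set α} (hF : M.IsFlat F) (hF4 : M.eRk F ≤ 4) :
    (X.filter fun x => x ∈ F).card ≤ 𝔏.card := by
  choose! t ht ht' using fun x (hx : x ∈ X) => (hΛ x hx).out F hF hF4
  refine Finset.card_le_card_of_injOn t ?_ ?_
  · intro x hx
    have hx' := (Finset.mem_filter.1 hx).1
    exact (hΛ x hx').sub (ht x hx')
  · intro x hx y hy hxy
    have hx' := Finset.mem_filter.1 hx
    have hy' := Finset.mem_filter.1 hy
    by_contra hne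
    apply ht' x hx'.1
    have h1 := ht x hx'.1
    have h2 := ht y hy'.1
    refine line_subset hM (h𝔏 _ ((hΛ x hx'.1).sub h1)) hF hne ((hΛ x hx'.1).mem _ h1) ?_
      hx'.2 hy'.2
    rw [hxy]
    exact (hΛ y hy'.1).mem _ h2

open Classical in
/-- The lines meeting `l` and `l'` in different joints. -/
noncomputable def tr (𝔏 : Finset (Set α)) (X : Finset α) (Λ : α → Finset (Set α))
    (l l' : Set α) : Finset (Set α) :=
  𝔏.filter fun m => ∃ x ∈ X, ∃ y ∈ X, x ≠ y ∧ m ∈ Λ x ∧ l ∈ Λ x ∧ m ∈ Λ y ∧ l' ∈ Λ y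

open Classical in
lemma tr_sum (hM : Simple M) (h𝔏 : ∀ l ∈ 𝔏, IsLine M l)
    (hΛ : ∀ x ∈ X, Good M 𝔏 x (Λ x)) {l l' : Set α} (hl : l ∈ 𝔏) (hl' : l' ∈ 𝔏) :
    ∑ m ∈ tr 𝔏 X Λ l l', jn X Λ m ≤ 4 * 𝔏.card := by
  set F := M.closure (l ∪ l') with hFdef
  have hF : M.IsFlat F := M.isFlat_closure _
  have hF4 : M.eRk F ≤ 4 := by
    rw [hFdef, M.eRk_closure_eq]
    refine (M.eRk_union_le_eRk_add_eRk l l').trans ?_
    rw [(h𝔏 l hl).2, (h𝔏 l' hl').2]
    norm_num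
  have hlF : l ⊆ F := subset_union_left.trans
    (M.subset_closure (l ∪ l') (union_subset (h𝔏 l hl).1.subset_ground (h𝔏 l' hl').1.subset_ground))
  have hlF' : l' ⊆ F := subset_union_right.trans
    (M.subset_closure (l ∪ l') (union_subset (h𝔏 l hl).1.subset_ground (h𝔏 l' hl').1.subset_ground))
  have hm : ∀ m ∈ tr 𝔏 X Λ l l', m ⊆ F := by
    intro m hm
    obtain ⟨hm1, x, hx, y, hy, hxy, h1, h2, h3, h4⟩ := Finset.mem_filter.1 hm
    exact line_subset hM (h𝔏 m hm1) hF hxy ((hΛ x hx).mem _ h1) ((hΛ y hy).mem _ h3)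
      (hlF ((hΛ x hx).mem _ h2)) (hlF' ((hΛ y hy).mem _ h4))
  have e1 : ∀ m, jn X Λ m = ∑ z ∈ X, if m ∈ Λ z then 1 else 0 := by
    intro m
    unfold jn
    rw [Finset.card_filter]
  simp only [e1]
  rw [Finset.sum_comm]
  have h1 : ∀ z ∈ X, (∑ m ∈ tr 𝔏 X Λ l l', if m ∈ Λ z then 1 else 0) ≤
      if z ∈ F then 4 else 0 := by
    intro z hz
    by_cases hzF : z ∈ F
    · rw [if_pos hzF, ← Finset.card_filter, ← (hΛ z hz).card]
      apply Finset.card_le_card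
      intro m hm
      exact (Finset.mem_filter.1 hm).2
    · rw [if_neg hzF, Finset.sum_eq_zero]
      intro m hm'
      rw [if_neg]
      intro hmz
      exact hzF (hm m hm' ((hΛ z hz).mem _ hmz))
  refine (Finset.sum_le_sum h1).trans ?_
  rw [← Finset.sum_filter, Finset.sum_const, smul_eq_mul, mul_comm]
  exact Nat.mul_le_mul le_rfl (flat_bound hM h𝔏 hΛ hF hF4)

open Classical in
lemma pairs_card (hM : Simple M) (h𝔏 : ∀ l ∈ 𝔏, IsLine M l)
    (hΛ : ∀ x ∈ X, Good M 𝔏 x (Λ x)) {m : Set α} (hm : m ∈ 𝔏) :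
    jn X Λ m * (jn X Λ m - 1) ≤ ((𝔏 ×ˢ 𝔏).filter fun p => m ∈ tr 𝔏 X Λ p.1 p.2).card := by
  set Xm := X.filter fun x => m ∈ Λ x with hXm
  have h0 : ∀ x ∈ Xm, ∃ l ∈ Λ x, l ≠ m := by
    intro x hx
    have hx' := Finset.mem_filter.1 hx
    by_contra hcon
    push Not at hcon
    have h1 : Λ x ⊆ {m} := fun l hl => Finset.mem_singleton.2 (hcon l hl)
    have h2 := Finset.card_le_card h1
    rw [(hΛ x hx'.1).card, Finset.card_singleton] at h2
    omega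
  choose! lam hlam hlam' using h0
  have h1 : jn X Λ m * (jn X Λ m - 1) = Xm.offDiag.card := by
    rw [Finset.offDiag_card, Nat.mul_sub, mul_one]
    rfl
  rw [h1]
  refine Finset.card_le_card_of_injOn (fun p => (lam p.1, lam p.2)) ?_ ?_
  · intro p hp
    rw [Finset.mem_coe, Finset.mem_offDiag] at hp
    obtain ⟨hp1, hp2, hne⟩ := hp
    have h1 := Finset.mem_filter.1 hp1
    have h2 := Finset.mem_filter.1 hp2
    rw [Finset.mem_coe, Finset.mem_filter]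
    refine ⟨Finset.mem_product.2 ⟨(hΛ _ h1.1).sub (hlam _ hp1), (hΛ _ h2.1).sub (hlam _ hp2)⟩, ?_⟩
    unfold tr
    rw [Finset.mem_filter]
    exact ⟨hm, p.1, h1.1, p.2, h2.1, hne, h1.2, hlam _ hp1, h2.2, hlam _ hp2⟩
  · have key : ∀ x ∈ Xm, ∀ y ∈ Xm, lam x = lam y → x = y := by
      intro x hx y hy hxy
      by_contra hne
      have h1 := Finset.mem_filter.1 hx
      have h2 := Finset.mem_filter.1 hy
      apply hlam' x hx
      refine line_eq hM (h𝔏 _ ((hΛ x h1.1).sub (hlam x hx))) (h𝔏 m hm) hne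
        ((hΛ x h1.1).mem _ (hlam x hx)) ?_ ((hΛ x h1.1).mem _ h1.2) ((hΛ y h2.1).mem _ h2.2)
      rw [hxy]
      exact (hΛ y h2.1).mem _ (hlam y hy)
    intro p hp q hq hpq
    rw [Finset.mem_coe, Finset.mem_offDiag] at hp hq
    simp only [Prod.mk.injEq] at hpq
    exact Prod.ext (key _ hp.1 _ hq.1 hpq.1) (key _ hp.2.1 _ hq.2.1 hpq.2)

open Classical in
theorem count_bound (hM : Simple M) (h𝔏 : ∀ l ∈ 𝔏, IsLine M l)
    (hΛ : ∀ x ∈ X, Good M 𝔏 x (Λ x)) : X.card ^ 3 ≤ 𝔏.card ^ 5 := by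
  set L := 𝔏.card with hL
  set j : Set α → ℕ := jn X Λ with hj
  have h1 : ∑ m ∈ 𝔏, j m = 4 * X.card := by
    have e1 : ∀ m, j m = ∑ z ∈ X, if m ∈ Λ z then 1 else 0 := by
      intro m
      rw [hj]
      unfold jn
      rw [Finset.card_filter]
    simp only [e1]
    rw [Finset.sum_comm, mul_comm, ← smul_eq_mul, ← Finset.sum_const]
    refine Finset.sum_congr rfl fun z hz => ?_
    rw [← Finset.card_filter, ← (hΛ z hz).card]
    congr 1
    ext m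
    rw [Finset.mem_filter]
    exact ⟨fun h => h.2, fun h => ⟨(hΛ z hz).sub h, h⟩⟩
  have h2 : ∑ m ∈ 𝔏, j m * (j m * (j m - 1)) ≤ 4 * L ^ 3 := by
    calc ∑ m ∈ 𝔏, j m * (j m * (j m - 1)) ≤
        ∑ m ∈ 𝔏, j m * ((𝔏 ×ˢ 𝔏).filter fun p => m ∈ tr 𝔏 X Λ p.1 p.2).card :=
          Finset.sum_le_sum fun m hm => Nat.mul_le_mul le_rfl (pairs_card hM h𝔏 hΛ hm)
      _ = ∑ m ∈ 𝔏, ∑ p ∈ 𝔏 ×ˢ 𝔏, if m ∈ tr 𝔏 X Λ p.1 p.2 then j m else 0 := by
          refine Finset.sum_congr rfl fun m _ => ?_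
          rw [← Finset.sum_filter, Finset.sum_const, smul_eq_mul, mul_comm]
      _ = ∑ p ∈ 𝔏 ×ˢ 𝔏, ∑ m ∈ 𝔏, if m ∈ tr 𝔏 X Λ p.1 p.2 then j m else 0 := Finset.sum_comm
      _ ≤ ∑ p ∈ 𝔏 ×ˢ 𝔏, 4 * L := by
          refine Finset.sum_le_sum fun p hp => ?_
          rw [← Finset.sum_filter]
          have hp' := Finset.mem_product.1 hp
          refine le_trans (le_of_eq ?_) (tr_sum hM h𝔏 hΛ hp'.1 hp'.2)
          refine Finset.sum_congr ?_ fun m _ => rfl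
          ext m
          rw [Finset.mem_filter]
          exact ⟨fun h => h.2, fun h => ⟨(Finset.mem_filter.1 h).1, h⟩⟩
      _ = 4 * L ^ 3 := by
          rw [Finset.sum_const, Finset.card_product, smul_eq_mul]
          ring
  have h3 : ∑ m ∈ 𝔏, j m ^ 3 ≤ 8 * L ^ 3 + L := by
    have e : ∀ m ∈ 𝔏, j m ^ 3 ≤ 2 * (j m * (j m * (j m - 1))) + 1 := by
      intro m _
      rcases Nat.lt_or_ge (j m) 2 with h | h
      · interval_cases j m <;> simp
      · obtain ⟨c, hc⟩ := Nat.exists_eq_add_of_le h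
        rw [hc]
        have : 2 + c - 1 = 1 + c := by omega
        rw [this]
        nlinarith [sq_nonneg c, Nat.zero_le c]
    refine (Finset.sum_le_sum e).trans ?_
    rw [Finset.sum_add_distrib, ← Finset.mul_sum, Finset.sum_const, smul_eq_mul, mul_one]
    linarith
  rcases Nat.eq_zero_or_pos L with h0 | hpos
  · have : 𝔏 = ∅ := Finset.card_eq_zero.1 h0
    rw [this, Finset.sum_empty] at h1
    have hX : X.card = 0 := by omega
    rw [hX]; simp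
  · have h4 := pow_sum_div_card_le_sum_pow (s := 𝔏) (f := fun m => (j m : ℝ))
      (fun m _ => Nat.cast_nonneg _) 2
    have hposR : (0 : ℝ) < (L : ℝ) := by exact_mod_cast hpos
    rw [div_le_iff₀ (by positivity)] at h4
    have h5 : ((4 * X.card : ℕ) : ℝ) ^ 3 ≤ (8 * (L : ℝ) ^ 3 + L) * (L : ℝ) ^ 2 := by
      have e1 : (∑ m ∈ 𝔏, (j m : ℝ)) = ((4 * X.card : ℕ) : ℝ) := by
        rw [← h1]; push_cast; rfl
      have e2 : ∑ m ∈ 𝔏, (j m : ℝ) ^ 3 ≤ 8 * (L : ℝ) ^ 3 + L := by exact_mod_cast h3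
      have h4' : ((4 * X.card : ℕ) : ℝ) ^ 3 ≤ (∑ m ∈ 𝔏, (j m : ℝ) ^ 3) * (L : ℝ) ^ 2 := by
        rw [← e1]
        exact h4
      exact h4'.trans (mul_le_mul_of_nonneg_right e2 (by positivity))
    have h6 : (4 * X.card) ^ 3 ≤ (8 * L ^ 3 + L) * L ^ 2 := by exact_mod_cast h5
    have h7 : L ^ 3 ≤ L ^ 5 := Nat.pow_le_pow_right hpos (by norm_num)
    have h8 : (8 * L ^ 3 + L) * L ^ 2 = 8 * L ^ 5 + L ^ 3 := by ring
    have h9 : (4 * X.card) ^ 3 = 64 * X.card ^ 3 := by ring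
    rw [h8, h9] at h6
    omega

end count

open Classical in
/-- The number of `n`-dimensional joints, `n ≥ 4`, of a finite set of lines of a simple matroid. -/
theorem joints_bound (hM : Simple M) (hE : M.E.Finite) {𝔏 : Set (Set α)} (hfin : 𝔏.Finite)
    (h𝔏 : ∀ l ∈ 𝔏, IsLine M l) {n : ℕ} (hn : 4 ≤ n) :
    {x | x ∈ M.E ∧ IsJoint M 𝔏 n x}.ncard ^ 3 ≤ 𝔏.ncard ^ 5 := by
  have hXfin : {x | x ∈ M.E ∧ IsJoint M 𝔏 n x}.Finite := hE.subset fun x hx => hx.1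
  set X := hXfin.toFinset with hX
  set 𝔏' := hfin.toFinset with h𝔏'
  have h1 : ∀ l ∈ 𝔏', IsLine M l := fun l hl => h𝔏 l (hfin.mem_toFinset.1 hl)
  have h2 : ∀ x ∈ X, ∃ Λ, Good M 𝔏' x Λ := by
    intro x hx
    have hx' := (hXfin.mem_toFinset.1 hx).2
    refine exists_good hM h1 hn (x := x) ?_
    obtain ⟨l, hl, hr⟩ := hx'
    exact ⟨l, fun i => ⟨by rw [h𝔏', Set.Finite.coe_toFinset]; exact (hl i).1, (hl i).2⟩, hr⟩
  choose! Λ hΛ using h2
  have h3 := count_bound hM h1 hΛ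
  rw [Set.ncard_eq_toFinset_card _ hXfin, Set.ncard_eq_toFinset_card _ hfin]
  exact h3

theorem J_bound {n : ℕ} (hn : 4 ≤ n) (L : ℕ) : J n L ^ 3 ≤ L ^ 5 := by
  have hb : ∀ N ∈ jointCounts n L, N ^ 3 ≤ L ^ 5 := by
    rintro N ⟨α, M, 𝔏, hE, hM, hfin, rfl, hl, rfl⟩
    exact joints_bound hM hE hfin hl hn
  by_cases hne : (jointCounts n L).Nonempty
  · have hbdd : BddAbove (jointCounts n L) := by
      refine ⟨L ^ 5, fun N hN => ?_⟩
      exact (Nat.le_self_pow (by norm_num) N).trans (hb N hN)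
    exact hb _ (Nat.sSup_mem hne hbdd)
  · rw [Set.not_nonempty_iff_eq_empty] at hne
    have : J n L = 0 := by
      unfold J
      rw [hne]
      simp
    rw [this]
    simp

theorem J_le {n : ℕ} (hn : 4 ≤ n) (L : ℕ) : (J n L : ℝ) ≤ (L : ℝ) ^ ((5 : ℝ) / 3) := by
  have h1 : ((J n L : ℕ) : ℝ) ^ 3 ≤ (L : ℝ) ^ 5 := by exact_mod_cast J_bound hn L
  have h2 : (L : ℝ) ^ ((5 : ℝ) / 3) = ((L : ℝ) ^ 5) ^ ((1 : ℝ) / 3) := by
    rw [← Real.rpow_natCast, ← Real.rpow_mul (Nat.cast_nonneg _)]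
    norm_num
  have h3 : (J n L : ℝ) = (((J n L : ℕ) : ℝ) ^ 3) ^ ((1 : ℝ) / 3) := by
    rw [← Real.rpow_natCast, ← Real.rpow_mul (Nat.cast_nonneg _)]
    norm_num
  rw [h2, h3]
  exact Real.rpow_le_rpow (by positivity) h1 (by norm_num)

end Q150.Joints
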