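import Mathlib

/-!
# Joints of lines in simple matroids: definitions
-/

namespace Q150.Joints

/-- A matroid is simple if it has no loops and no parallel pairs: all sets of at most two elements
of the ground set are independent. -/
def Simple {α : Type} (M : Matroid α) : Prop := ∀ x ∈ M.E, ∀ y ∈ M.E, M.Indep {x, y}

/-- A line of a matroid is a flat of rank `2`. -/
def IsLine {α : Type} (M : Matroid α) (l : Set α) : Prop := M.IsFlat l ∧ M.eRk l = 2

/-- The point `x` is an `n`-dimensional joint of the set `𝔏` of lines: there are `n` lines of `𝔏`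
through `x` whose union has rank at least `n + 1`. -/
def IsJoint {α : Type} (M : Matroid α) (𝔏 : Set (Set α)) (n : ℕ) (x : α) : Prop :=
  ∃ l : Fin n → Set α, (∀ i, l i ∈ 𝔏 ∧ x ∈ l i) ∧ ((n + 1 : ℕ) : ℕ∞) ≤ M.eRk (⋃ i, l i)

/-- The possible numbers of `n`-dimensional joints of `L` lines of a finite simple matroid. -/
def jointCounts (n L : ℕ) : Set ℕ :=
  {N | ∃ (α : Type) (M : Matroid α) (𝔏 : Set (Set α)), M.E.Finite ∧ Simple M ∧ 𝔏.Finite ∧
    𝔏.ncard = L ∧ (∀ l ∈ 𝔏, IsLine M l) ∧ N = {x | x ∈ M.E ∧ IsJoint M 𝔏 n x}.ncard}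

/-- The maximal number of `n`-dimensional joints of `L` lines of a finite simple matroid. -/
noncomputable def J (n L : ℕ) : ℕ := sSup (jointCounts n L)

end Q150.Joints
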