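import Pool.Agent.Q150.KothDefs

/-!
# Random subsets, the winning probability `fw` of an abstract team
-/

namespace Q150.Koth

open Finset

variable {V : Type*} [DecidableEq V]

/-- Expectation of `φ S` where the random subset `S` of `T` contains each `x` independently
with probability `c x`. -/
noncomputable def bex (c : V → ℝ) (T : Finset V) (φ : Finset V → ℝ) : ℝ :=
  ∑ S ∈ T.powerset, ((∏ x ∈ S, c x) * ∏ x ∈ T \ S, (1 - c x)) * φ S

theorem bex_const (c : V → ℝ) (T : Finset V) (k : ℝ) : bex c T (fun _ => k) = k := by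
  unfold bex
  rw [← Finset.sum_mul, ← Finset.prod_add]
  simp

theorem bex_insert (c : V → ℝ) {T : Finset V} {w : V} (hw : w ∉ T) (φ : Finset V → ℝ) :
    bex c (insert w T) φ
      = c w * bex c T (fun S => φ (insert w S)) + (1 - c w) * bex c T φ := by
  unfold bex
  rw [Finset.sum_powerset_insert hw, add_comm, Finset.mul_sum, Finset.mul_sum]
  congr 1
  · refine Finset.sum_congr rfl fun S hS => ?_
    have hS' := Finset.mem_powerset.mp hS
    have hwS : w ∉ S := fun h => hw (hS' h)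
    rw [Finset.prod_insert hwS]
    have : insert w T \ insert w S = T \ S := by
      ext x
      simp only [Finset.mem_sdiff, Finset.mem_insert, not_or]
      constructor
      · rintro ⟨h1 | h1, h2, h3⟩
        · exact absurd h1 h2
        · exact ⟨h1, h3⟩
      · rintro ⟨h1, h2⟩
        exact ⟨Or.inr h1, fun h => hw (h ▸ h1), h2⟩
    rw [this]
    ring
  · refine Finset.sum_congr rfl fun S hS => ?_
    have hS' := Finset.mem_powerset.mp hS
    have hwS : w ∉ S := fun h => hw (hS' h)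
    have : insert w T \ S = insert w (T \ S) := by
      ext x
      simp only [Finset.mem_sdiff, Finset.mem_insert]
      constructor
      · rintro ⟨h1 | h1, h2⟩
        · exact Or.inl h1
        · exact Or.inr ⟨h1, h2⟩
      · rintro (h1 | h1)
        · exact ⟨Or.inl h1, h1 ▸ hwS⟩
        · exact ⟨Or.inr h1.1, h1.2⟩
    rw [this, Finset.prod_insert (by simp [hw])]
    ring

theorem bex_nonneg_coeff {c : V → ℝ} {T S : Finset V} (hc : ∀ x ∈ T, 0 ≤ c x ∧ c x ≤ 1)
    (hS : S ⊆ T) : 0 ≤ (∏ x ∈ S, c x) * ∏ x ∈ T \ S, (1 - c x) := by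
  refine mul_nonneg (Finset.prod_nonneg fun x hx => (hc x (hS hx)).1)
    (Finset.prod_nonneg fun x hx => ?_)
  have := (hc x (Finset.mem_sdiff.mp hx).1).2
  linarith

theorem bex_mono {c : V → ℝ} {T : Finset V} (hc : ∀ x ∈ T, 0 ≤ c x ∧ c x ≤ 1)
    {φ ψ : Finset V → ℝ} (h : ∀ S ⊆ T, φ S ≤ ψ S) : bex c T φ ≤ bex c T ψ := by
  unfold bex
  refine Finset.sum_le_sum fun S hS => ?_
  have hS' := Finset.mem_powerset.mp hS
  exact mul_le_mul_of_nonneg_left (h S hS') (bex_nonneg_coeff hc hS')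

theorem bex_congr {c d : V → ℝ} {T : Finset V} (hc : ∀ x ∈ T, c x = d x)
    {φ ψ : Finset V → ℝ} (h : ∀ S ⊆ T, φ S = ψ S) : bex c T φ = bex d T ψ := by
  unfold bex
  refine Finset.sum_congr rfl fun S hS => ?_
  have hS' := Finset.mem_powerset.mp hS
  have e1 : ∏ x ∈ S, c x = ∏ x ∈ S, d x := Finset.prod_congr rfl fun x hx => hc x (hS' hx)
  have e2 : ∏ x ∈ T \ S, (1 - c x) = ∏ x ∈ T \ S, (1 - d x) :=
    Finset.prod_congr rfl fun x hx => by rw [hc x (Finset.mem_sdiff.mp hx).1]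
  rw [h S hS', e1, e2]

theorem bex_add (c : V → ℝ) (T : Finset V) (φ ψ : Finset V → ℝ) :
    bex c T (fun S => φ S + ψ S) = bex c T φ + bex c T ψ := by
  unfold bex
  rw [← Finset.sum_add_distrib]
  exact Finset.sum_congr rfl fun S _ => by ring

theorem bex_sub (c : V → ℝ) (T : Finset V) (φ ψ : Finset V → ℝ) :
    bex c T (fun S => φ S - ψ S) = bex c T φ - bex c T ψ := by
  unfold bex
  rw [← Finset.sum_sub_distrib]
  exact Finset.sum_congr rfl fun S _ => by ring

theorem bex_mul (c : V → ℝ) (T : Finset V) (k : ℝ) (φ : Finset V → ℝ) :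
    bex c T (fun S => k * φ S) = k * bex c T φ := by
  unfold bex
  rw [Finset.mul_sum]
  exact Finset.sum_congr rfl fun S _ => by ring

theorem bex_empty (c : V → ℝ) (φ : Finset V → ℝ) : bex c ∅ φ = φ ∅ := by
  simp [bex]

theorem bex_ind (c : V → ℝ) (T : Finset V) :
    bex c T (fun S => if S = ∅ then 1 else 0) = ∏ x ∈ T, (1 - c x) := by
  unfold bex
  rw [Finset.sum_eq_single_of_mem ∅ (Finset.empty_mem_powerset T)]
  · simp
  · intro S _ hS
    simp [hS]

/-- Upper bound of an expectation when the value at `∅` is known. -/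
theorem bex_le_of {c : V → ℝ} {T : Finset V} (hc : ∀ x ∈ T, 0 ≤ c x ∧ c x ≤ 1)
    {φ : Finset V → ℝ} {k k0 : ℝ} (h0 : φ ∅ ≤ k0) (h : ∀ S ⊆ T, S ≠ ∅ → φ S ≤ k) :
    bex c T φ ≤ k + (k0 - k) * ∏ x ∈ T, (1 - c x) := by
  have h1 : bex c T φ ≤ bex c T (fun S => k + (k0 - k) * (if S = ∅ then 1 else 0)) := by
    refine bex_mono hc fun S hS => ?_
    by_cases hSe : S = ∅
    · subst hSe
      simpa using h0
    · simpa [hSe] using h S hS hSe
  rw [bex_add, bex_const, bex_mul, bex_ind] at h1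
  exact h1

omit [DecidableEq V] in
theorem prod_one_sub_mem {c : V → ℝ} {T : Finset V} (hc : ∀ x ∈ T, 0 ≤ c x ∧ c x ≤ 1) :
    0 ≤ ∏ x ∈ T, (1 - c x) ∧ ∏ x ∈ T, (1 - c x) ≤ 1 := by
  constructor
  · exact Finset.prod_nonneg fun x hx => by linarith [(hc x hx).2]
  · exact Finset.prod_le_one (fun x hx => by linarith [(hc x hx).2])
      (fun x hx => by linarith [(hc x hx).1])

/-- The probability that a team with winning probabilities `y` against the teams of `S` is
selected from `S` together with this team. -/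
noncomputable def fw (p : V → V → ℝ) (y : V → ℝ) (S : Finset V) : ℝ :=
  (∏ x ∈ S, y x + ∑ z : {z // z ∈ S}, y z.1 *
    ∑ S' : {S' // S' ∈ (S.erase z.1).powerset},
      ((∏ x ∈ S'.1, p x z.1) * ∏ x ∈ (S.erase z.1) \ S'.1, (1 - p x z.1)) * fw p y S'.1)
    / (S.card + 1)
termination_by S.card
decreasing_by
  have h1 := Finset.mem_powerset.mp S'.2
  have h2 := Finset.card_le_card h1
  have h3 := Finset.card_erase_lt_of_mem z.2
  omega

theorem fw_eq (p : V → V → ℝ) (y : V → ℝ) (S : Finset V) :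
    ((S.card : ℝ) + 1) * fw p y S = ∏ x ∈ S, y x
      + ∑ z ∈ S, y z * bex (fun x => p x z) (S.erase z) (fw p y) := by
  rw [fw]
  have h1 : ((S.card : ℝ) + 1) ≠ 0 := by positivity
  rw [mul_div_cancel₀ _ h1]
  congr 1
  rw [← Finset.sum_coe_sort S]
  refine Finset.sum_congr rfl fun z _ => ?_
  congr 1
  unfold bex
  rw [← Finset.sum_coe_sort ((S.erase z.1).powerset)]

theorem fw_empty (p : V → V → ℝ) (y : V → ℝ) : fw p y ∅ = 1 := by
  have := fw_eq p y ∅
  simpa using this

theorem fw_singleton (p : V → V → ℝ) (y : V → ℝ) (z : V) : fw p y {z} = y z := by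
  have := fw_eq p y {z}
  simp only [Finset.card_singleton, Finset.prod_singleton, Finset.sum_singleton] at this
  rw [show ({z} : Finset V).erase z = ∅ by simp, bex_empty, fw_empty] at this
  push_cast at this
  linarith

theorem fw_congr (p : V → V → ℝ) {y y' : V → ℝ} (S : Finset V) (h : ∀ x ∈ S, y x = y' x) :
    fw p y S = fw p y' S := by
  induction S using Finset.strongInduction with
  | H S ih =>
    have h1 := fw_eq p y S
    have h2 := fw_eq p y' S
    have h3 : ((S.card : ℝ) + 1) ≠ 0 := by positivity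
    have h4 : ((S.card : ℝ) + 1) * fw p y S = ((S.card : ℝ) + 1) * fw p y' S := by
      rw [h1, h2, Finset.prod_congr rfl h]
      congr 1
      refine Finset.sum_congr rfl fun z hz => ?_
      rw [h z hz]
      congr 1
      refine bex_congr (fun _ _ => rfl) fun S' hS' => ?_
      have hss : S' ⊂ S := lt_of_le_of_lt hS' (Finset.erase_ssubset hz)
      exact ih S' hss fun x hx => h x (hss.1 hx)
    exact mul_left_cancel₀ h3 h4

theorem fw_nonneg_le_one {p : V → V → ℝ} {y : V → ℝ} (S : Finset V)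
    (hp : ∀ x ∈ S, ∀ z ∈ S, x ≠ z → 0 ≤ p x z ∧ p x z ≤ 1)
    (hy : ∀ x ∈ S, 0 ≤ y x ∧ y x ≤ 1) : 0 ≤ fw p y S ∧ fw p y S ≤ 1 := by
  induction S using Finset.strongInduction with
  | H S ih =>
    have h1 := fw_eq p y S
    have h3 : (0 : ℝ) < (S.card : ℝ) + 1 := by positivity
    have hz : ∀ z ∈ S, 0 ≤ bex (fun x => p x z) (S.erase z) (fw p y)
        ∧ bex (fun x => p x z) (S.erase z) (fw p y) ≤ 1 := by
      intro z hz
      have hc : ∀ x ∈ S.erase z, 0 ≤ p x z ∧ p x z ≤ 1 := fun x hx =>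
        hp x (Finset.mem_of_mem_erase hx) z hz (Finset.ne_of_mem_erase hx)
      have hS' : ∀ S' ⊆ S.erase z, 0 ≤ fw p y S' ∧ fw p y S' ≤ 1 := by
        intro S' hS'
        have hss : S' ⊂ S := lt_of_le_of_lt hS' (Finset.erase_ssubset hz)
        exact ih S' hss (fun x hx z hz => hp x (hss.1 hx) z (hss.1 hz))
          fun x hx => hy x (hss.1 hx)
      constructor
      · rw [← bex_const (fun x => p x z) (S.erase z) 0]
        exact bex_mono hc fun S' h => (hS' S' h).1
      · rw [← bex_const (fun x => p x z) (S.erase z) 1]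
        exact bex_mono hc fun S' h => (hS' S' h).2
    have hp0 : 0 ≤ ∏ x ∈ S, y x := Finset.prod_nonneg fun x hx => (hy x hx).1
    have hp1 : ∏ x ∈ S, y x ≤ 1 :=
      Finset.prod_le_one (fun x hx => (hy x hx).1) (fun x hx => (hy x hx).2)
    have hs0 : 0 ≤ ∑ z ∈ S, y z * bex (fun x => p x z) (S.erase z) (fw p y) :=
      Finset.sum_nonneg fun z hz' => mul_nonneg (hy z hz').1 (hz z hz').1
    have hs1 : ∑ z ∈ S, y z * bex (fun x => p x z) (S.erase z) (fw p y) ≤ ∑ _z ∈ S, (1 : ℝ) :=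
      Finset.sum_le_sum fun z hz' => mul_le_one₀ (hy z hz').2 (hz z hz').1 (hz z hz').2
    rw [Finset.sum_const, nsmul_eq_mul, mul_one] at hs1
    constructor
    · by_contra hneg
      push Not at hneg
      nlinarith
    · by_contra hneg
      push Not at hneg
      nlinarith

/-- `fw ≤ a` on nonempty sets. -/
theorem fw_le {p : V → V → ℝ} {y : V → ℝ} {a : ℝ} (ha : a ≤ 1) (S : Finset V)
    (hp : ∀ x ∈ S, ∀ z ∈ S, x ≠ z → 0 ≤ p x z ∧ p x z ≤ 1)
    (hy : ∀ x ∈ S, 0 ≤ y x ∧ y x ≤ a) (hS : S.Nonempty) : fw p y S ≤ a := by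
  have hy1 : ∀ x ∈ S, 0 ≤ y x ∧ y x ≤ 1 := fun x hx => ⟨(hy x hx).1, (hy x hx).2.trans ha⟩
  have h1 := fw_eq p y S
  have h3 : (0 : ℝ) < (S.card : ℝ) + 1 := by positivity
  have hz : ∀ z ∈ S, y z * bex (fun x => p x z) (S.erase z) (fw p y) ≤ a := by
    intro z hz
    have hc : ∀ x ∈ S.erase z, 0 ≤ p x z ∧ p x z ≤ 1 := fun x hx =>
      hp x (Finset.mem_of_mem_erase hx) z hz (Finset.ne_of_mem_erase hx)
    have h2 : bex (fun x => p x z) (S.erase z) (fw p y) ≤ 1 := by
      rw [← bex_const (fun x => p x z) (S.erase z) 1]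
      refine bex_mono hc fun S' h => (fw_nonneg_le_one S' ?_ ?_).2
      · exact fun x hx z hz => hp x (Finset.mem_of_mem_erase (h hx)) z
          (Finset.mem_of_mem_erase (h hz))
      · exact fun x hx => hy1 x (Finset.mem_of_mem_erase (h hx))
    nlinarith [hy z hz]
  have hs1 : ∑ z ∈ S, y z * bex (fun x => p x z) (S.erase z) (fw p y) ≤ ∑ _z ∈ S, a :=
    Finset.sum_le_sum hz
  rw [Finset.sum_const, nsmul_eq_mul] at hs1
  have hpr : ∏ x ∈ S, y x ≤ a := by
    obtain ⟨z, hz'⟩ := hS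
    rw [← Finset.mul_prod_erase S y hz']
    have h4 : ∏ x ∈ S.erase z, y x ≤ 1 :=
      Finset.prod_le_one (fun x hx => (hy1 x (Finset.mem_of_mem_erase hx)).1)
        (fun x hx => (hy1 x (Finset.mem_of_mem_erase hx)).2)
    nlinarith [hy z hz']
  by_contra hneg
  push Not at hneg
  nlinarith

theorem prod_le_fw {p : V → V → ℝ} {y : V → ℝ} (S : Finset V)
    (hp : ∀ x ∈ S, ∀ z ∈ S, x ≠ z → 0 ≤ p x z ∧ p x z ≤ 1)
    (hy : ∀ x ∈ S, 0 ≤ y x ∧ y x ≤ 1) : ∏ x ∈ S, y x ≤ fw p y S := by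
  induction S using Finset.strongInduction with
  | H S ih =>
    have h1 := fw_eq p y S
    have h3 : (0 : ℝ) < (S.card : ℝ) + 1 := by positivity
    have hz : ∀ z ∈ S, ∏ x ∈ S, y x ≤ y z * bex (fun x => p x z) (S.erase z) (fw p y) := by
      intro z hz
      have hc : ∀ x ∈ S.erase z, 0 ≤ p x z ∧ p x z ≤ 1 := fun x hx =>
        hp x (Finset.mem_of_mem_erase hx) z hz (Finset.ne_of_mem_erase hx)
      rw [← Finset.mul_prod_erase S y hz]
      refine mul_le_mul_of_nonneg_left ?_ (hy z hz).1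
      rw [← bex_const (fun x => p x z) (S.erase z) (∏ x ∈ S.erase z, y x)]
      refine bex_mono hc fun S' hS' => ?_
      have hss : S' ⊂ S := lt_of_le_of_lt hS' (Finset.erase_ssubset hz)
      refine le_trans ?_ (ih S' hss (fun x hx z hz => hp x (hss.1 hx) z (hss.1 hz))
          fun x hx => hy x (hss.1 hx))
      refine Finset.prod_le_prod_of_subset_of_le_one hS' ?_ ?_
      · exact fun x hx => (hy x (Finset.mem_of_mem_erase hx)).1
      · exact fun x hx _ => (hy x (Finset.mem_of_mem_erase hx)).2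
    have hs1 : ∑ _z ∈ S, ∏ x ∈ S, y x
        ≤ ∑ z ∈ S, y z * bex (fun x => p x z) (S.erase z) (fw p y) := Finset.sum_le_sum hz
    rw [Finset.sum_const, nsmul_eq_mul] at hs1
    by_contra hneg
    push Not at hneg
    nlinarith

end Q150.Koth
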