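import Pool.Agent.Q150.KothA

/-!
# The influence of one further team on the winning probability
-/

namespace Q150.Koth

open Finset

variable {V : Type*} [DecidableEq V]

/-- A function that is affine in `x` and nonnegative at the ends is nonnegative. -/
theorem aff_nonneg {a b x P Q : ℝ} (hb : b ≤ x) (ha : x ≤ a) (h1 : 0 ≤ P * a + Q)
    (h2 : 0 ≤ P * b + Q) : 0 ≤ P * x + Q := by
  by_cases hP : 0 ≤ P
  · nlinarith
  · push Not at hP
    nlinarith

/-- The vertex lemma for functions of product and sum. -/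
theorem vertex {a b : ℝ} (S : Finset V) : ∀ K c L : ℝ,
    (∀ t s : ℕ, t + s = S.card → 0 ≤ K * (a ^ t * b ^ s) - c * (t * a + s * b) + L) →
    ∀ y : V → ℝ, (∀ x ∈ S, b ≤ y x ∧ y x ≤ a) →
      0 ≤ K * ∏ x ∈ S, y x - c * ∑ x ∈ S, y x + L := by
  induction S using Finset.induction_on with
  | empty =>
    intro K c L h y _
    have := h 0 0 (by simp)
    simpa using this
  | insert w S hw ih =>
    intro K c L h y hy
    rw [Finset.prod_insert hw, Finset.sum_insert hw]
    rw [Finset.card_insert_of_notMem hw] at h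
    have hyS : ∀ x ∈ S, b ≤ y x ∧ y x ≤ a := fun x hx => hy x (Finset.mem_insert_of_mem hx)
    have h1 := ih (K * a) c (L - c * a) (fun t s hts => by
      have := h (t + 1) s (by omega)
      push_cast at this
      have e : K * (a ^ (t + 1) * b ^ s) - c * ((↑t + 1) * a + ↑s * b) + L
        = K * a * (a ^ t * b ^ s) - c * (↑t * a + ↑s * b) + (L - c * a) := by ring
      linarith) y hyS
    have h2 := ih (K * b) c (L - c * b) (fun t s hts => by
      have := h t (s + 1) (by omega)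
      push_cast at this
      have e : K * (a ^ t * b ^ (s + 1)) - c * (↑t * a + (↑s + 1) * b) + L
        = K * b * (a ^ t * b ^ s) - c * (↑t * a + ↑s * b) + (L - c * b) := by ring
      linarith) y hyS
    have h3 := hy w (Finset.mem_insert_self w S)
    have h4 := aff_nonneg (x := y w) (P := K * ∏ x ∈ S, y x - c) (Q := L - c * ∑ x ∈ S, y x)
      h3.1 h3.2 (by linarith) (by linarith)
    linarith

theorem phi_vertex {a : ℝ} (ha : 1 / 2 ≤ a) (ha1 : a ≤ 1) (t s : ℕ) (hts : 2 ≤ t + s) :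
    0 ≤ ((t : ℝ) + s + 2) * ((1 - a * (1 - a)) / 3) - a - a ^ 2 * (1 - a)
      + a ^ t * (1 - a) ^ s - (1 - a * (1 - a)) / 3 * a * (t * a + s * (1 - a)) := by
  have hb0 : 0 ≤ 1 - a := by linarith
  have hM : 0 ≤ (1 - a * (1 - a)) / 3 := by nlinarith
  rcases Nat.lt_or_ge s 2 with hs | hs
  · interval_cases s
    · -- all at `a`
      have ht : 2 ≤ t := by omega
      have hP : 0 ≤ a ^ t := by positivity
      have hbern : 1 - (t : ℝ) * (1 - a) ≤ a ^ t := by
        have := one_add_mul_le_pow (a := a - 1) (by linarith) t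
        have e : (1 + (a - 1)) = a := by ring
        rw [e] at this
        linarith
      have hkey : 0 ≤ (1 - a * (1 - a)) / 3 * (3 + a) - a - a ^ 2 * (1 - a) := by
        nlinarith [sq_nonneg (a - 3 / 4), mul_nonneg (sub_nonneg.mpr ha) hb0,
          mul_nonneg (mul_nonneg (sub_nonneg.mpr ha) hb0) (by linarith : (0 : ℝ) ≤ a)]
      have hM1 : (1 - a * (1 - a)) / 3 * (1 + a) ≤ 1 := by nlinarith
      push_cast
      rw [pow_zero, mul_one]
      by_cases htb : (t : ℝ) * (1 - a) ≤ 1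
      · nlinarith [mul_nonneg (sub_nonneg.mpr htb) (sub_nonneg.mpr hM1)]
      · push Not at htb
        nlinarith [mul_nonneg (sub_nonneg.mpr htb.le) (mul_nonneg hM (by linarith : (0:ℝ) ≤ 1 + a))]
    · have ht : 1 ≤ t := by omega
      rw [pow_one]
      rcases Nat.lt_or_ge t 2 with h2 | h2
      · interval_cases t
        push_cast
        have : 0 ≤ (1 - a) / 3 * (4 - a - 2 * a ^ 2) := by
          refine mul_nonneg (by linarith) ?_
          nlinarith
        nlinarith
      · have hP : 0 ≤ a ^ t * (1 - a) := by positivity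
        have ht2 : (2 : ℝ) ≤ t := by exact_mod_cast h2
        have h3 : 0 ≤ (1 - a) / 3 * ((1 - a) * (5 + a - a ^ 2)) := by
          refine mul_nonneg (by linarith) (mul_nonneg hb0 ?_)
          nlinarith
        have h4 : 0 ≤ ((t : ℝ) - 2) * ((1 - a * (1 - a)) / 3 * (1 - a ^ 2)) := by
          refine mul_nonneg (by linarith) (mul_nonneg hM ?_)
          nlinarith
        push_cast
        nlinarith
  · have hP : 0 ≤ a ^ t * (1 - a) ^ s := by positivity
    have hs2 : (2 : ℝ) ≤ s := by exact_mod_cast hs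
    have ht0 : (0 : ℝ) ≤ t := by positivity
    have h3 : 0 ≤ ((s : ℝ) - 2) * ((1 - a * (1 - a)) / 3 * (1 - a * (1 - a))) :=
      mul_nonneg (by linarith) (mul_nonneg hM (by nlinarith))
    have h4 : 0 ≤ (t : ℝ) * ((1 - a * (1 - a)) / 3 * (1 - a ^ 2)) :=
      mul_nonneg ht0 (mul_nonneg hM (by nlinarith))
    have h5 : 0 ≤ 4 - 9 * a + 5 * a ^ 2 - a ^ 3 + 2 * a ^ 4 := by
      nlinarith [sq_nonneg (a ^ 2 - a / 4 - 1 / 3), sq_nonneg (a - 3 / 4), sq_nonneg (a - 1 / 2),
        sq_nonneg (a ^ 2 - 1 / 2), sq_nonneg (a ^ 2 - a / 4 - 2 / 5)]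
    nlinarith

theorem phi_nonneg {a : ℝ} (ha : 1 / 2 ≤ a) (ha1 : a ≤ 1) (S : Finset V) (hS : 2 ≤ S.card)
    {y : V → ℝ} (hy : ∀ x ∈ S, 1 - a ≤ y x ∧ y x ≤ a) :
    0 ≤ ((S.card : ℝ) + 2) * ((1 - a * (1 - a)) / 3) - a - a ^ 2 * (1 - a)
      + ∏ x ∈ S, y x - (1 - a * (1 - a)) / 3 * a * ∑ x ∈ S, y x := by
  have h := vertex (a := a) (b := 1 - a) S 1 ((1 - a * (1 - a)) / 3 * a)
    (((S.card : ℝ) + 2) * ((1 - a * (1 - a)) / 3) - a - a ^ 2 * (1 - a))
    (fun t s hts => by
      have h1 := phi_vertex ha ha1 t s (by omega)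
      have h2 : (S.card : ℝ) = t + s := by rw [← hts]; push_cast; ring
      rw [h2]
      linarith) y hy
  linarith

end Q150.Koth
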