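import Pool.Agent.Q150.KothB

/-!
# The effect of adding a team that the special team always beats
-/

namespace Q150.Koth

open Finset

variable {V : Type*} [DecidableEq V]

/-- The change of the winning probability when a team `w` is added that the special team
beats surely. -/
noncomputable def gw (p : V → V → ℝ) (y : V → ℝ) (w : V) (S : Finset V) : ℝ :=
  fw p (Function.update y w 1) (insert w S) - fw p y S

theorem gw_empty (p : V → V → ℝ) (y : V → ℝ) (w : V) : gw p y w ∅ = 0 := by
  unfold gw
  rw [fw_empty, show insert w (∅ : Finset V) = {w} by simp, fw_singleton]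
  simp

theorem gw_eq (p : V → V → ℝ) (y : V → ℝ) {w : V} {S : Finset V} (hw : w ∉ S)
    (hp : ∀ z ∈ S, p w z + p z w = 1) :
    ((S.card : ℝ) + 2) * gw p y w S
      = bex (fun x => p x w) S (fw p y) - fw p y S
        + ∑ z ∈ S, y z * p w z * bex (fun x => p x z) (S.erase z) (gw p y w) := by
  have h1 := fw_eq p (Function.update y w 1) (insert w S)
  have h2 := fw_eq p y S
  have hupd : ∀ S' : Finset V, w ∉ S' → fw p (Function.update y w 1) S' = fw p y S' := by
    intro S' hS'
    refine fw_congr p S' fun x hx => ?_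
    rw [Function.update_of_ne]
    rintro rfl
    exact hS' hx
  rw [Finset.card_insert_of_notMem hw, Finset.prod_insert hw, Finset.sum_insert hw,
    Finset.erase_insert hw] at h1
  have e1 : ∏ x ∈ S, Function.update y w 1 x = ∏ x ∈ S, y x := by
    refine Finset.prod_congr rfl fun x hx => ?_
    rw [Function.update_of_ne]
    rintro rfl
    exact hw hx
  have e2 : bex (fun x => p x w) S (fw p (Function.update y w 1))
      = bex (fun x => p x w) S (fw p y) :=
    bex_congr (fun _ _ => rfl) fun S' hS' => hupd S' fun h => hw (hS' h)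
  have e3 : ∑ z ∈ S, Function.update y w 1 z
        * bex (fun x => p x z) ((insert w S).erase z) (fw p (Function.update y w 1))
      = ∑ z ∈ S, y z * bex (fun x => p x z) (S.erase z) (fw p y)
        + ∑ z ∈ S, y z * p w z * bex (fun x => p x z) (S.erase z) (gw p y w) := by
    rw [← Finset.sum_add_distrib]
    refine Finset.sum_congr rfl fun z hz => ?_
    have hzw : z ≠ w := by
      rintro rfl
      exact hw hz
    have hwe : w ∉ S.erase z := fun h => hw (Finset.mem_of_mem_erase h)
    have e4 : (insert w S).erase z = insert w (S.erase z) :=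
      Finset.erase_insert_of_ne hzw.symm
    rw [Function.update_of_ne hzw, e4, bex_insert _ hwe]
    have e5 : bex (fun x => p x z) (S.erase z) (fw p (Function.update y w 1))
        = bex (fun x => p x z) (S.erase z) (fw p y) :=
      bex_congr (fun _ _ => rfl) fun S' hS' => hupd S' fun h => hwe (hS' h)
    have e6 : bex (fun x => p x z) (S.erase z) (gw p y w)
        = bex (fun x => p x z) (S.erase z) (fun S' => fw p (Function.update y w 1) (insert w S'))
          - bex (fun x => p x z) (S.erase z) (fw p y) := by
      rw [← bex_sub]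
      rfl
    rw [e5, e6]
    ring
  rw [e1, e2, e3] at h1
  unfold gw at *
  simp only [Function.update_self] at h1
  push_cast at h1
  linarith

/-- The basic bound. -/
theorem abs_gw_le {p : V → V → ℝ} {y : V → ℝ} {a : ℝ} (ha : 1 / 2 ≤ a) (ha1 : a ≤ 1) {w : V}
    (S : Finset V) (hw : w ∉ S)
    (hp : ∀ x ∈ insert w S, ∀ z ∈ insert w S, x ≠ z → 1 - a ≤ p x z ∧ p x z ≤ a)
    (hps : ∀ x ∈ insert w S, ∀ z ∈ insert w S, x ≠ z → p x z + p z x = 1)
    (hy : ∀ x ∈ S, 1 - a ≤ y x ∧ y x ≤ a) : |gw p y w S| ≤ (1 - a * (1 - a)) / 3 := by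
  have hM : 0 ≤ (1 - a * (1 - a)) / 3 := by nlinarith
  have hb0 : 0 ≤ 1 - a := by linarith
  induction S using Finset.strongInduction with
  | H S ih =>
    have hwz : ∀ z ∈ S, z ≠ w := fun z hz h => hw (h ▸ hz)
    have hrec := gw_eq p y hw (fun z hz => hps w (Finset.mem_insert_self w S) z
      (Finset.mem_insert_of_mem hz) (hwz z hz).symm)
    have hpS : ∀ x ∈ S, ∀ z ∈ S, x ≠ z → 0 ≤ p x z ∧ p x z ≤ 1 := fun x hx z hz hxz => by
      have := hp x (Finset.mem_insert_of_mem hx) z (Finset.mem_insert_of_mem hz) hxz
      constructor <;> linarith [this.1, this.2]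
    have hcw : ∀ x ∈ S, 0 ≤ p x w ∧ p x w ≤ 1 := fun x hx => by
      have := hp x (Finset.mem_insert_of_mem hx) w (Finset.mem_insert_self w S) (hwz x hx)
      constructor <;> linarith [this.1, this.2]
    have hwc : ∀ x ∈ S, 1 - a ≤ p w x ∧ p w x ≤ a := fun x hx =>
      hp w (Finset.mem_insert_self w S) x (Finset.mem_insert_of_mem hx) (hwz x hx).symm
    have hcc : ∀ x ∈ S, 1 - p x w = p w x := fun x hx => by
      have := hps w (Finset.mem_insert_self w S) x (Finset.mem_insert_of_mem hx) (hwz x hx).symm
      linarith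
    have hy01 : ∀ x ∈ S, 0 ≤ y x ∧ y x ≤ 1 := fun x hx => by
      have := hy x hx
      constructor <;> linarith [this.1, this.2]
    have hy0a : ∀ x ∈ S, 0 ≤ y x ∧ y x ≤ a := fun x hx => ⟨(hy01 x hx).1, (hy x hx).2⟩
    rcases Nat.lt_or_ge S.card 2 with hcard | hcard
    · rcases Finset.eq_empty_or_nonempty S with rfl | ⟨z, hz⟩
      · rw [gw_empty]
        simpa using hM
      · have hSz : S = {z} := by
          refine Finset.eq_singleton_iff_unique_mem.mpr ⟨hz, fun x hx => ?_⟩
          exact Finset.card_le_one.mp (by omega) x hx z hz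
        subst hSz
        have e1 : bex (fun x => p x w) {z} (fw p y) = p z w * y z + (1 - p z w) := by
          rw [← show insert z (∅ : Finset V) = {z} by simp, bex_insert _ (by simp), bex_empty,
            bex_empty, fw_empty, show insert z (∅ : Finset V) = {z} by simp, fw_singleton]
          ring
        rw [e1, fw_singleton, Finset.sum_singleton, show ({z} : Finset V).erase z = ∅ by simp,
          bex_empty, gw_empty, Finset.card_singleton] at hrec
        have h1 := hwc z hz
        have h2 := hcc z hz
        have h3 := hy z hz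
        have h4 : 3 * gw p y w {z} = p w z * (1 - y z) := by
          rw [← h2]
          push_cast at hrec
          linarith
        have h5 : p w z * (1 - y z) ≤ a * a := mul_le_mul h1.2 (by linarith) (by linarith)
          (by linarith)
        have h6 : 0 ≤ p w z * (1 - y z) := mul_nonneg (by linarith) (by linarith)
        rw [abs_le]
        constructor <;> nlinarith
    · -- at least two teams
      have hsum : |∑ z ∈ S, y z * p w z * bex (fun x => p x z) (S.erase z) (gw p y w)|
          ≤ ∑ z ∈ S, y z * p w z * ((1 - a * (1 - a)) / 3) := by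
        refine (Finset.abs_sum_le_sum_abs _ _).trans (Finset.sum_le_sum fun z hz => ?_)
        have h0 : 0 ≤ y z * p w z := mul_nonneg (hy01 z hz).1 (by linarith [(hwc z hz).1])
        rw [abs_mul, abs_of_nonneg h0]
        refine mul_le_mul_of_nonneg_left ?_ h0
        have hc : ∀ x ∈ S.erase z, 0 ≤ p x z ∧ p x z ≤ 1 := fun x hx =>
          hpS x (Finset.mem_of_mem_erase hx) z hz (Finset.ne_of_mem_erase hx)
        have hall : ∀ S' ⊆ S.erase z, |gw p y w S'| ≤ (1 - a * (1 - a)) / 3 := by
          intro S' hS'
          have hss : S' ⊂ S := lt_of_le_of_lt hS' (Finset.erase_ssubset hz)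
          have hins : insert w S' ⊆ insert w S := Finset.insert_subset_insert w hss.1
          exact ih S' hss (fun h => hw (hss.1 h))
            (fun x hx z hz => hp x (hins hx) z (hins hz))
            (fun x hx z hz => hps x (hins hx) z (hins hz)) fun x hx => hy x (hss.1 hx)
        rw [abs_le]
        constructor
        · rw [← bex_const (fun x => p x z) (S.erase z) (-((1 - a * (1 - a)) / 3))]
          exact bex_mono hc fun S' hS' => (abs_le.mp (hall S' hS')).1
        · rw [← bex_const (fun x => p x z) (S.erase z) ((1 - a * (1 - a)) / 3)]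
          exact bex_mono hc fun S' hS' => (abs_le.mp (hall S' hS')).2
      have hsum1 : ∑ z ∈ S, y z * p w z * ((1 - a * (1 - a)) / 3)
          ≤ (1 - a * (1 - a)) / 3 * a * ∑ z ∈ S, y z := by
        rw [Finset.mul_sum]
        refine Finset.sum_le_sum fun z hz => ?_
        nlinarith [mul_nonneg (mul_nonneg hM (hy01 z hz).1) (sub_nonneg.mpr (hwc z hz).2)]
      have hsum2 : ∑ z ∈ S, y z * p w z * ((1 - a * (1 - a)) / 3)
          ≤ (1 - a * (1 - a)) / 3 * a * ∑ z ∈ S, p w z := by
        rw [Finset.mul_sum]
        refine Finset.sum_le_sum fun z hz => ?_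
        have h0 : 0 ≤ p w z := by linarith [(hwc z hz).1]
        nlinarith [mul_nonneg (mul_nonneg hM h0) (sub_nonneg.mpr (hy z hz).2)]
      have hprodc : ∏ x ∈ S, (1 - p x w) = ∏ x ∈ S, p w x := Finset.prod_congr rfl hcc
      have hprod2 : ∏ x ∈ S, p w x ≤ a ^ 2 := by
        have h1 : ∏ x ∈ S, p w x ≤ ∏ _x ∈ S, a :=
          Finset.prod_le_prod (fun x hx => by linarith [(hwc x hx).1]) fun x hx => (hwc x hx).2
        rw [Finset.prod_const] at h1
        exact h1.trans (pow_le_pow_of_le_one (by linarith) ha1 hcard)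
      have hup : bex (fun x => p x w) S (fw p y) ≤ a + (1 - a) * ∏ x ∈ S, p w x := by
        rw [← hprodc]
        refine bex_le_of hcw (by rw [fw_empty]) fun S' hS' hne => ?_
        exact fw_le ha1 S' (fun x hx z hz => hpS x (hS' hx) z (hS' hz))
          (fun x hx => hy0a x (hS' hx)) (Finset.nonempty_iff_ne_empty.mpr hne)
      have hlow : ∏ x ∈ S, p w x ≤ bex (fun x => p x w) S (fw p y) := by
        rw [← hprodc, ← bex_ind]
        refine bex_mono hcw fun S' hS' => ?_
        split_ifs with h
        · rw [h, fw_empty]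
        · exact (fw_nonneg_le_one S' (fun x hx z hz => hpS x (hS' hx) z (hS' hz))
            (fun x hx => hy01 x (hS' hx))).1
      have hfl : ∏ x ∈ S, y x ≤ fw p y S := prod_le_fw S hpS hy01
      have hfu : fw p y S ≤ a := fw_le ha1 S hpS hy0a (Finset.card_pos.mp (by omega))
      have hphi1 := phi_nonneg ha ha1 S hcard hy
      have hphi2 := phi_nonneg ha ha1 S hcard hwc
      have hs := abs_le.mp hsum
      have hpos : (0 : ℝ) < (S.card : ℝ) + 2 := by positivity
      have ha2b : 0 ≤ a ^ 2 * (1 - a) := by positivity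
      have hmul : (1 - a) * ∏ x ∈ S, p w x ≤ a ^ 2 * (1 - a) := by nlinarith
      have hU : ((S.card : ℝ) + 2) * gw p y w S
          ≤ ((S.card : ℝ) + 2) * ((1 - a * (1 - a)) / 3) := by
        rw [hrec]
        linarith [hs.2]
      have hL : ((S.card : ℝ) + 2) * (-((1 - a * (1 - a)) / 3))
          ≤ ((S.card : ℝ) + 2) * gw p y w S := by
        rw [hrec]
        linarith [hs.1]
      rw [abs_le]
      exact ⟨le_of_mul_le_mul_left hL hpos, le_of_mul_le_mul_left hU hpos⟩

end Q150.Koth
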