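import Pool.Agent.Q150.KothC

/-!
# Exchanging the two colluding teams
-/

namespace Q150.Koth

open Finset

variable {V : Type*} [DecidableEq V]

/-- `fw` is affine in every coordinate. -/
theorem fw_affine (p : V → V → ℝ) (y : V → ℝ) (w : V) (t : ℝ) (S : Finset V) :
    fw p (Function.update y w t) S
      = (1 - t) * fw p (Function.update y w 0) S + t * fw p (Function.update y w 1) S := by
  have hupd : ∀ (S' : Finset V) (r : ℝ), w ∉ S' → fw p (Function.update y w r) S' = fw p y S' := by
    intro S' r hS'
    refine fw_congr p S' fun x hx => ?_
    rw [Function.update_of_ne]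
    rintro rfl
    exact hS' hx
  induction S using Finset.strongInduction with
  | H S ih =>
    by_cases hw : w ∈ S
    · have h3 : ((S.card : ℝ) + 1) ≠ 0 := by positivity
      refine mul_left_cancel₀ h3 ?_
      have e0 := fw_eq p (Function.update y w 0) S
      have e1 := fw_eq p (Function.update y w 1) S
      have et := fw_eq p (Function.update y w t) S
      rw [Finset.prod_update_of_mem hw] at e0 e1 et
      have hsum : ∑ z ∈ S, Function.update y w t z
            * bex (fun x => p x z) (S.erase z) (fw p (Function.update y w t))
          = (1 - t) * ∑ z ∈ S, Function.update y w 0 z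
            * bex (fun x => p x z) (S.erase z) (fw p (Function.update y w 0))
          + t * ∑ z ∈ S, Function.update y w 1 z
            * bex (fun x => p x z) (S.erase z) (fw p (Function.update y w 1)) := by
        rw [Finset.mul_sum, Finset.mul_sum, ← Finset.sum_add_distrib]
        refine Finset.sum_congr rfl fun z hz => ?_
        by_cases hzw : z = w
        · subst hzw
          have hall : ∀ r : ℝ, bex (fun x => p x z) (S.erase z) (fw p (Function.update y z r))
              = bex (fun x => p x z) (S.erase z) (fw p y) := fun r =>
            bex_congr (fun _ _ => rfl) fun S' hS' => hupd S' r fun h =>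
              Finset.notMem_erase z S (hS' h)
          rw [hall, hall, hall]
          simp only [Function.update_self]
          ring
        · simp only [Function.update_of_ne hzw]
          have e : bex (fun x => p x z) (S.erase z) (fw p (Function.update y w t))
              = (1 - t) * bex (fun x => p x z) (S.erase z) (fw p (Function.update y w 0))
                + t * bex (fun x => p x z) (S.erase z) (fw p (Function.update y w 1)) := by
            rw [← bex_mul, ← bex_mul, ← bex_add]
            refine bex_congr (fun _ _ => rfl) fun S' hS' => ?_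
            exact ih S' (lt_of_le_of_lt hS' (Finset.erase_ssubset hz))
          rw [e]
          ring
      rw [hsum] at et
      linear_combination et - (1 - t) * e0 - t * e1
    · rw [hupd S t hw, hupd S 0 hw, hupd S 1 hw]
      ring

/-- The probability that the picked team is the partner (with winning probabilities `β`), it
loses, and the special team (with winning probabilities `α`) is selected, up to the common
factors; the empty set of survivors is left out. -/
noncomputable def aw (p : V → V → ℝ) (α β : V → ℝ) (W : Finset V) : ℝ :=
  bex (fun x => 1 - β x) W (fun S => if S = ∅ then 0 else fw p α S)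

theorem aw_congr (p : V → V → ℝ) {α α' β β' : V → ℝ} (W : Finset V)
    (h1 : ∀ x ∈ W, α x = α' x) (h2 : ∀ x ∈ W, β x = β' x) : aw p α β W = aw p α' β' W := by
  unfold aw
  refine bex_congr (fun x hx => by simp only [h2 x hx]) fun S hS => ?_
  split_ifs
  · rfl
  · exact fw_congr p S fun x hx => h1 x (hS hx)

theorem aw_swap_one (p : V → V → ℝ) (x y : V → ℝ) {w : V} {W : Finset V} (hw : w ∉ W)
    (s t : ℝ) :
    aw p (Function.update x w s) (Function.update y w t) (insert w W)
      - aw p (Function.update x w t) (Function.update y w s) (insert w W)
      = (s - t) * (∏ z ∈ W, y z + bex (fun z => 1 - y z) W (gw p x w)) := by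
  have key : ∀ s t : ℝ, aw p (Function.update x w s) (Function.update y w t) (insert w W)
      = (1 - t) * bex (fun z => 1 - y z) W
          (fun S => fw p (Function.update x w s) (insert w S))
        + t * bex (fun z => 1 - y z) W (fun S => if S = ∅ then 0 else fw p x S) := by
    intro s t
    unfold aw
    rw [bex_insert _ hw]
    have hne : ∀ z ∈ W, z ≠ w := fun z hz h => hw (h ▸ hz)
    congr 1
    · simp only [Function.update_self]
      congr 1
      refine bex_congr (fun z hz => by rw [Function.update_of_ne (hne z hz)]) fun S hS => ?_
      rw [if_neg (Finset.insert_ne_empty w S)]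
    · simp only [Function.update_self, sub_sub_cancel]
      congr 1
      refine bex_congr (fun z hz => by rw [Function.update_of_ne (hne z hz)]) fun S hS => ?_
      split_ifs
      · rfl
      · exact fw_congr p S fun z hz => by rw [Function.update_of_ne (hne z (hS hz))]
  rw [key, key]
  have e1 : ∀ r : ℝ, bex (fun z => 1 - y z) W
        (fun S => fw p (Function.update x w r) (insert w S))
      = (1 - r) * bex (fun z => 1 - y z) W
          (fun S => fw p (Function.update x w 0) (insert w S))
        + r * bex (fun z => 1 - y z) W
          (fun S => fw p (Function.update x w 1) (insert w S)) := by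
    intro r
    rw [← bex_mul, ← bex_mul, ← bex_add]
    exact bex_congr (fun _ _ => rfl) fun S _ => fw_affine p x w r _
  have e2 : bex (fun z => 1 - y z) W (fun S => fw p (Function.update x w 1) (insert w S))
      = ∏ z ∈ W, y z + bex (fun z => 1 - y z) W (gw p x w)
        + bex (fun z => 1 - y z) W (fun S => if S = ∅ then 0 else fw p x S) := by
    have e3 : ∏ z ∈ W, y z = bex (fun z => 1 - y z) W (fun S => if S = ∅ then 1 else 0) := by
      rw [bex_ind]
      exact Finset.prod_congr rfl fun z _ => by ring
    rw [e3, ← bex_add, ← bex_add]
    refine bex_congr (fun _ _ => rfl) fun S _ => ?_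
    unfold gw
    split_ifs with h
    · subst h
      rw [show insert w (∅ : Finset V) = {w} by simp, fw_singleton, fw_empty]
      simp
    · ring
  rw [e1 s, e1 t, e2]
  ring

/-- Bound of the difference when the two teams are exchanged. -/
theorem aw_sub_le {p : V → V → ℝ} {α β : V → ℝ} {a : ℝ} (ha : 1 / 2 ≤ a) (ha1 : a ≤ 1)
    (W : Finset V)
    (hp : ∀ x ∈ W, ∀ z ∈ W, x ≠ z → 1 - a ≤ p x z ∧ p x z ≤ a)
    (hps : ∀ x ∈ W, ∀ z ∈ W, x ≠ z → p x z + p z x = 1)
    (hα : ∀ x ∈ W, 1 - a ≤ α x ∧ α x ≤ a) (hβ : ∀ x ∈ W, 1 - a ≤ β x ∧ β x ≤ a) :
    aw p α β W - aw p β α W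
      ≤ (1 - (1 - a * (1 - a)) / 3) * (∏ x ∈ W, α x - ∏ x ∈ W, β x)
        + (1 - a * (1 - a)) / 3 * ∑ x ∈ W, |α x - β x| := by
  have hM : 0 ≤ (1 - a * (1 - a)) / 3 := by nlinarith
  have main : ∀ Z : Finset V, Z ⊆ W →
      aw p α β W - aw p (fun v => if v ∈ Z then β v else α v)
        (fun v => if v ∈ Z then α v else β v) W
      ≤ (1 - (1 - a * (1 - a)) / 3)
          * (∏ x ∈ W, (if x ∈ Z then α x else β x) - ∏ x ∈ W, β x)
        + (1 - a * (1 - a)) / 3 * ∑ x ∈ Z, |α x - β x| := by
    intro Z
    induction Z using Finset.induction_on with
    | empty =>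
      intro _
      simp
    | insert w Z hwZ ih =>
      intro hsub
      have hwW : w ∈ W := hsub (Finset.mem_insert_self w Z)
      have hZW : Z ⊆ W := fun z hz => hsub (Finset.mem_insert_of_mem hz)
      have ih' := ih hZW
      set x : V → ℝ := fun v => if v ∈ Z then β v else α v with hx
      set y : V → ℝ := fun v => if v ∈ Z then α v else β v with hy
      have ex : (fun v => if v ∈ insert w Z then β v else α v) = Function.update x w (β w) := by
        funext v
        by_cases hv : v = w
        · subst hv
          simp
        · simp [hx, hv]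
      have ey : (fun v => if v ∈ insert w Z then α v else β v) = Function.update y w (α w) := by
        funext v
        by_cases hv : v = w
        · subst hv
          simp
        · simp [hy, hv]
      have ex0 : x = Function.update x w (α w) := by
        funext v
        by_cases hv : v = w
        · subst hv
          simp [hx, hwZ]
        · rw [Function.update_of_ne hv]
      have ey0 : y = Function.update y w (β w) := by
        funext v
        by_cases hv : v = w
        · subst hv
          simp [hy, hwZ]
        · rw [Function.update_of_ne hv]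
      have hWi : insert w (W.erase w) = W := Finset.insert_erase hwW
      have hstep := aw_swap_one p x y (Finset.notMem_erase w W) (α w) (β w)
      rw [hWi, ← ex0, ← ey0, ← ex, ← ey] at hstep
      have hy01 : ∀ z ∈ W, 1 - a ≤ y z ∧ y z ≤ a := fun z hz => by
        simp only [hy]
        split_ifs
        · exact hα z hz
        · exact hβ z hz
      have hx01 : ∀ z ∈ W, 1 - a ≤ x z ∧ x z ≤ a := fun z hz => by
        simp only [hx]
        split_ifs
        · exact hβ z hz
        · exact hα z hz
      have hc : ∀ z ∈ W.erase w, 0 ≤ 1 - y z ∧ 1 - y z ≤ 1 := fun z hz => by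
        have := hy01 z (Finset.mem_of_mem_erase hz)
        constructor <;> linarith [this.1, this.2]
      have hPe : ∏ z ∈ W.erase w, (1 - (1 - y z)) = ∏ z ∈ W.erase w, y z :=
        Finset.prod_congr rfl fun z _ => by ring
      have hgb : ∀ S ⊆ W.erase w, |gw p x w S| ≤ (1 - a * (1 - a)) / 3 := by
        intro S hS
        have hins : insert w S ⊆ W := by
          rw [← hWi]
          exact Finset.insert_subset_insert w hS
        exact abs_gw_le ha ha1 S (fun h => Finset.notMem_erase w W (hS h))
          (fun x hx z hz => hp x (hins hx) z (hins hz))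
          (fun x hx z hz => hps x (hins hx) z (hins hz))
          fun z hz => hx01 z (Finset.mem_of_mem_erase (hS hz))
      have hG1 : bex (fun z => 1 - y z) (W.erase w) (gw p x w)
          ≤ (1 - a * (1 - a)) / 3 * (1 - ∏ z ∈ W.erase w, y z) := by
        have := bex_le_of (φ := gw p x w) (k := (1 - a * (1 - a)) / 3) (k0 := 0) hc
          (by rw [gw_empty]) (fun S hS _ => (abs_le.mp (hgb S hS)).2)
        rw [hPe] at this
        linarith
      have hG2 : -(bex (fun z => 1 - y z) (W.erase w) (gw p x w))
          ≤ (1 - a * (1 - a)) / 3 * (1 - ∏ z ∈ W.erase w, y z) := by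
        have := bex_le_of (φ := fun S => (-1) * gw p x w S) (k := (1 - a * (1 - a)) / 3)
          (k0 := 0) hc (by simp [gw_empty])
          (fun S hS _ => by linarith [(abs_le.mp (hgb S hS)).1])
        rw [hPe, bex_mul] at this
        linarith
      have hP0 : 0 ≤ ∏ z ∈ W.erase w, y z := Finset.prod_nonneg fun z hz => by
        linarith [(hc z hz).2]
      have hprod : ∏ z ∈ W, (if z ∈ insert w Z then α z else β z) - ∏ z ∈ W, y z
          = (α w - β w) * ∏ z ∈ W.erase w, y z := by
        have h1 : ∏ z ∈ W, (if z ∈ insert w Z then α z else β z)
            = α w * ∏ z ∈ W.erase w, y z := by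
          rw [← Finset.mul_prod_erase W _ hwW]
          congr 1
          · simp
          · refine Finset.prod_congr rfl fun z hz => ?_
            have := Finset.ne_of_mem_erase hz
            simp [hy, this]
        have h2 : ∏ z ∈ W, y z = β w * ∏ z ∈ W.erase w, y z := by
          rw [← Finset.mul_prod_erase W _ hwW]
          congr 1
          simp [hy, hwZ]
        rw [h1, h2]
        ring
      rw [Finset.sum_insert hwZ]
      set P := ∏ z ∈ W.erase w, y z with hPdef
      set G := bex (fun z => 1 - y z) (W.erase w) (gw p x w) with hGdef
      have hd1 : (α w - β w) * G ≤ |α w - β w| * ((1 - a * (1 - a)) / 3 * (1 - P)) := by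
        have h1 : (α w - β w) * G ≤ |α w - β w| * |G| := by
          rw [← abs_mul]
          exact le_abs_self _
        refine h1.trans (mul_le_mul_of_nonneg_left ?_ (abs_nonneg _))
        exact abs_le.mpr ⟨by linarith, hG1⟩
      have hd2 : (1 - a * (1 - a)) / 3 * ((α w - β w) * P)
          ≤ (1 - a * (1 - a)) / 3 * (|α w - β w| * P) :=
        mul_le_mul_of_nonneg_left (mul_le_mul_of_nonneg_right (le_abs_self _) hP0) hM
      nlinarith [hstep, hprod, ih', hd1, hd2]
  have h := main W (Finset.Subset.refl W)
  have e1 : aw p (fun v => if v ∈ W then β v else α v) (fun v => if v ∈ W then α v else β v) W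
      = aw p β α W := aw_congr p W (fun z hz => by simp [hz]) fun z hz => by simp [hz]
  have e2 : ∏ x ∈ W, (if x ∈ W then α x else β x) = ∏ x ∈ W, α x :=
    Finset.prod_congr rfl fun z hz => by simp [hz]
  rw [e1, e2] at h
  exact h

end Q150.Koth
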