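import Mathlib

/-!
# Randomized King of the Hill: definitions
-/

namespace Q150.Koth

/-- The matches between `n` teams: pairs `i < j`. -/
abbrev Match (n : ℕ) : Type := {q : Fin n × Fin n // q.1 < q.2}

/-- A deterministic tournament on `n` teams: for the match `i < j` the value `true` means that
`i` wins, the value `false` that `j` wins. -/
abbrev Tournament (n : ℕ) : Type := Match n → Bool

/-- `i` beats `j` in the deterministic tournament `T`. -/
def Beats {n : ℕ} (T : Tournament n) (i j : Fin n) : Prop :=
  (∃ h : i < j, T ⟨(i, j), h⟩ = true) ∨ (∃ h : j < i, T ⟨(j, i), h⟩ = false)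

/-- `p` is the matrix of a probabilistic tournament (`p i j` is the probability that `i`
beats `j`; the diagonal plays no role). -/
def IsProb {n : ℕ} (p : Fin n → Fin n → ℝ) : Prop :=
  ∀ i j, i ≠ j → p i j ∈ Set.Icc (0 : ℝ) 1 ∧ p i j + p j i = 1

/-- The probability of the deterministic tournament `T` when the matches are drawn
independently with the probabilities `p`. -/
noncomputable def weight {n : ℕ} (p : Fin n → Fin n → ℝ) (T : Tournament n) : ℝ :=
  ∏ e : Match n, if T e = true then p e.1.1 e.1.2 else p e.1.2 e.1.1

/-- The expectation of a function of the random deterministic tournament. -/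
noncomputable def expect {n : ℕ} (p : Fin n → Fin n → ℝ) (F : Tournament n → ℝ) : ℝ :=
  ∑ T : Tournament n, weight p T * F T

/-- A tournament rule: for every number of teams and every deterministic tournament the
selection probabilities of the teams. -/
abbrev Rule : Type := ∀ n : ℕ, Tournament n → Fin n → ℝ

/-- `r_i(T)` for a probabilistic tournament with matrix `p`. -/
noncomputable def selProb {n : ℕ} (r : Rule) (p : Fin n → Fin n → ℝ) (i : Fin n) : ℝ :=
  expect p fun T => r n T i

/-- The class `𝒯^ε` of the probabilistic tournaments with all probabilities in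
`[1/2 - ε, 1/2 + ε]`. -/
def Near {n : ℕ} (ε : ℝ) (p : Fin n → Fin n → ℝ) : Prop :=
  ∀ i j, i ≠ j → p i j ∈ Set.Icc (1 / 2 - ε) (1 / 2 + ε)

/-- `p` and `p'` differ at most in the match of `u` and `v`. -/
def Adjacent {n : ℕ} (u v : Fin n) (p p' : Fin n → Fin n → ℝ) : Prop :=
  ∀ i j, i ≠ j → ¬(i = u ∧ j = v) → ¬(i = v ∧ j = u) → p' i j = p i j

/-- The set of the gains `r_u(T') + r_v(T') - r_u(T) - r_v(T)` over all `T ∈ 𝒯^ε`, all pairs
`u ≠ v` and all `{u, v}`-adjacent `T'`. -/
def gains (r : Rule) (ε : ℝ) : Set ℝ :=
  {g | ∃ (n : ℕ) (p p' : Fin n → Fin n → ℝ) (u v : Fin n), IsProb p ∧ Near ε p ∧ IsProb p' ∧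
    u ≠ v ∧ Adjacent u v p p' ∧
    g = selProb r p' u + selProb r p' v - selProb r p u - selProb r p v}

/-- The manipulability `α₂^r(𝒯^ε)`. -/
noncomputable def alpha2 (r : Rule) (ε : ℝ) : ℝ := sSup (gains r ε)

open Classical in
/-- One round of King of the Hill: the remaining teams are `R`, the team `h` of `R` is picked
and plays every other team of `R`; every team of `R` that loses one of these matches is
removed. -/
noncomputable def nextRound {n : ℕ} (T : Tournament n) (R : Finset (Fin n)) (h : Fin n) :
    Finset (Fin n) :=
  R.filter fun x => if x = h then ∀ y ∈ R, y ≠ h → Beats T h y else Beats T x h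

theorem not_beats_iff {n : ℕ} (T : Tournament n) {i j : Fin n} (h : i ≠ j) :
    ¬ Beats T i j ↔ Beats T j i := by
  unfold Beats
  rcases lt_or_gt_of_ne h with h1 | h1
  · have h2 : ¬ j < i := not_lt.mpr h1.le
    simp [h1, h2]
  · have h2 : ¬ i < j := not_lt.mpr h1.le
    simp [h1, h2]

/-- Every round with at least two remaining teams removes a team. -/
theorem card_nextRound_lt {n : ℕ} (T : Tournament n) (R : Finset (Fin n)) {h : Fin n}
    (hh : h ∈ R) (hR : ¬ R.card ≤ 1) : (nextRound T R h).card < R.card := by
  classical
  have h1 : 1 < R.card := not_le.mp hR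
  apply Finset.card_lt_card
  refine Finset.ssubset_iff_subset_ne.mpr ⟨Finset.filter_subset _ _, fun heq => ?_⟩
  have hall : ∀ x ∈ R, (if x = h then ∀ y ∈ R, y ≠ h → Beats T h y else Beats T x h) :=
    fun x hx => by
      have hx' : x ∈ nextRound T R h := by rw [heq]; exact hx
      exact (Finset.mem_filter.mp hx').2
  obtain ⟨y, hy, hyh⟩ := Finset.exists_mem_ne h1 h
  have h2 := hall h hh
  rw [if_pos rfl] at h2
  have h3 := hall y hy
  rw [if_neg hyh] at h3
  exact (not_beats_iff T hyh).mpr (h2 y hy hyh) h3

/-- The probability that team `i` is the last remaining team when Randomized King of the Hill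
is played with the match outcomes `T` starting from the set `R` of remaining teams: while `R`
has at least two teams, `h ∈ R` is picked uniformly at random and one round is played. -/
noncomputable def rkothFrom {n : ℕ} (T : Tournament n) (R : Finset (Fin n)) (i : Fin n) : ℝ :=
  if hR : R.card ≤ 1 then (if i ∈ R then 1 else 0)
  else (∑ h : {h // h ∈ R}, rkothFrom T (nextRound T R h.1) i) / R.card
termination_by R.card
decreasing_by exact card_nextRound_lt T R h.2 hR

/-- Randomized King of the Hill. -/
noncomputable def rkoth : Rule := fun _ T i => rkothFrom T Finset.univ i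

end Q150.Koth
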