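import Pool.Agent.Q150.KothD

/-!
# The slope of the joint winning probability
-/

namespace Q150.Koth

open Finset

variable {V : Type*} [DecidableEq V]

/-- The slope of the joint winning probability of two teams (with winning probabilities `α`
and `β` against the teams of `W`) as a function of the outcome probability of their match. -/
noncomputable def dw (p : V → V → ℝ) (α β : V → ℝ) (W : Finset V) : ℝ :=
  (aw p α β W - aw p β α W + ∑ h : {h // h ∈ W}, α h.1 * β h.1 *
    ∑ S : {S // S ∈ (W.erase h.1).powerset},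
      ((∏ x ∈ S.1, p x h.1) * ∏ x ∈ (W.erase h.1) \ S.1, (1 - p x h.1)) * dw p α β S.1)
    / (W.card + 2)
termination_by W.card
decreasing_by
  have h1 := Finset.mem_powerset.mp S.2
  have h2 := Finset.card_le_card h1
  have h3 := Finset.card_erase_lt_of_mem h.2
  omega

theorem dw_eq (p : V → V → ℝ) (α β : V → ℝ) (W : Finset V) :
    ((W.card : ℝ) + 2) * dw p α β W = aw p α β W - aw p β α W
      + ∑ h ∈ W, α h * β h * bex (fun x => p x h) (W.erase h) (dw p α β) := by
  rw [dw]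
  have h1 : ((W.card : ℝ) + 2) ≠ 0 := by positivity
  rw [mul_div_cancel₀ _ h1]
  congr 1
  rw [← Finset.sum_coe_sort W]
  refine Finset.sum_congr rfl fun z _ => ?_
  congr 1
  unfold bex
  rw [← Finset.sum_coe_sort ((W.erase z.1).powerset)]

theorem dw_empty (p : V → V → ℝ) (α β : V → ℝ) : dw p α β ∅ = 0 := by
  have := dw_eq p α β ∅
  simp only [Finset.card_empty, Finset.sum_empty, aw, bex_empty, if_true] at this
  push_cast at this
  linarith

theorem dw_swap (p : V → V → ℝ) (α β : V → ℝ) (W : Finset V) :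
    dw p β α W = -dw p α β W := by
  induction W using Finset.strongInduction with
  | H W ih =>
    have h1 := dw_eq p α β W
    have h2 := dw_eq p β α W
    have h3 : ((W.card : ℝ) + 2) ≠ 0 := by positivity
    refine mul_left_cancel₀ h3 ?_
    have e : ∑ h ∈ W, β h * α h * bex (fun x => p x h) (W.erase h) (dw p β α)
        = -∑ h ∈ W, α h * β h * bex (fun x => p x h) (W.erase h) (dw p α β) := by
      rw [← Finset.sum_neg_distrib]
      refine Finset.sum_congr rfl fun h hh => ?_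
      have e1 : bex (fun x => p x h) (W.erase h) (dw p β α)
          = -bex (fun x => p x h) (W.erase h) (dw p α β) := by
        have e2 : bex (fun x => p x h) (W.erase h) (dw p β α)
            = bex (fun x => p x h) (W.erase h) (fun S => (-1) * dw p α β S) :=
          bex_congr (fun _ _ => rfl) fun S hS => by
            rw [ih S (lt_of_le_of_lt hS (Finset.erase_ssubset hh))]
            ring
        rw [e2, bex_mul]
        ring
      rw [e1]
      ring
    rw [e] at h2
    linarith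

/-- A single further team. -/
theorem dw_singleton (p : V → V → ℝ) (α β : V → ℝ) (w : V) :
    dw p α β {w} = (α w - β w) / 3 := by
  have h := dw_eq p α β {w}
  have key : ∀ α β : V → ℝ, aw p α β {w} = (1 - β w) * α w := by
    intro α β
    unfold aw
    rw [← show insert w (∅ : Finset V) = {w} by simp, bex_insert _ (by simp), bex_empty,
      bex_empty]
    simp [fw_singleton]
  rw [key, key, Finset.sum_singleton, show ({w} : Finset V).erase w = ∅ by simp, bex_empty,
    dw_empty, Finset.card_singleton] at h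
  push_cast at h
  linarith

theorem delta_le {a x y : ℝ} (ha : 1 / 2 ≤ a) (ha1 : a ≤ 1) (hx : 1 - a ≤ x ∧ x ≤ a)
    (hy : 1 - a ≤ y ∧ y ≤ a) :
    (1 - a * (1 - a)) * |x - y| ≤ (2 * a - 1) * (1 - x * y) := by
  have key : ∀ x y : ℝ, (1 - a ≤ x ∧ x ≤ a) → (1 - a ≤ y ∧ y ≤ a) →
      (1 - a * (1 - a)) * (x - y) ≤ (2 * a - 1) * (1 - x * y) := by
    intro x y hx hy
    have h1 : 0 ≤ (y - (1 - a)) * (1 - a ^ 2) :=
      mul_nonneg (by linarith) (by nlinarith)
    have h2 : 0 ≤ (a - x) * ((2 * a - 1) * y + (1 - a * (1 - a))) :=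
      mul_nonneg (by linarith) (by nlinarith)
    nlinarith
  rcases abs_cases (x - y) with ⟨h, _⟩ | ⟨h, _⟩
  · rw [h]
    exact key x y hx hy
  · rw [h]
    have := key y x hy hx
    linarith [mul_comm x y]

theorem pow_sub_le {a : ℝ} (ha : 1 / 2 ≤ a) (ha1 : a ≤ 1) (m : ℕ) (hm : 3 ≤ m) :
    a ^ m - (1 - a) ^ m ≤ (2 * a - 1) * (1 - a * (1 - a)) := by
  induction m, hm using Nat.le_induction with
  | base => nlinarith
  | succ k hk ih =>
    have h1 : (1 - a) ^ (k - 1) ≤ a ^ (k - 1) :=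
      pow_le_pow_left₀ (by linarith) (by linarith) _
    obtain ⟨j, rfl⟩ : ∃ j, k = j + 1 := ⟨k - 1, by omega⟩
    simp only [Nat.add_sub_cancel] at h1
    have e : a ^ (j + 1 + 1) - (1 - a) ^ (j + 1 + 1)
        = (a ^ (j + 1) - (1 - a) ^ (j + 1)) - a * (1 - a) * (a ^ j - (1 - a) ^ j) := by ring
    rw [e]
    have h2 : 0 ≤ a * (1 - a) * (a ^ j - (1 - a) ^ j) :=
      mul_nonneg (mul_nonneg (by linarith) (by linarith)) (by linarith)
    linarith

/-- The inequality for two further teams. -/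
theorem two_bound {a α₁ β₁ α₂ β₂ q : ℝ} (ha : 1 / 2 ≤ a) (ha1 : a ≤ 1)
    (h1 : 1 - a ≤ α₁ ∧ α₁ ≤ a) (h2 : 1 - a ≤ β₁ ∧ β₁ ≤ a) (h3 : 1 - a ≤ α₂ ∧ α₂ ≤ a)
    (h4 : 1 - a ≤ β₂ ∧ β₂ ≤ a) (hq : 0 ≤ q ∧ q ≤ 1) :
    (2 + a * (1 - a)) * (α₁ * α₂ - β₁ * β₂)
      + (1 - a * (1 - a)) * (|α₁ - β₁| + |α₂ - β₂|)
      + (2 * a - 1) * (α₁ * β₁ * q + α₂ * β₂ * (1 - q)) ≤ 4 * (2 * a - 1) := by
  have hab : 0 ≤ a * (1 - a) := mul_nonneg (by linarith) (by linarith)
  have hE1 := delta_le ha ha1 h1 h2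
  have hE2 := delta_le ha ha1 h3 h4
  have h2a : 0 ≤ 2 * a - 1 := by linarith
  have hX1 : 0 ≤ α₁ * β₁ := mul_nonneg (by linarith) (by linarith)
  have hX2 : 0 ≤ α₂ * β₂ := mul_nonneg (by linarith) (by linarith)
  have hq1 : (2 * a - 1) * (α₁ * β₁ * q) ≤ (2 * a - 1) * (α₁ * β₁) :=
    mul_le_mul_of_nonneg_left (by nlinarith) h2a
  have hq2 : (2 * a - 1) * (α₂ * β₂ * (1 - q)) ≤ (2 * a - 1) * (α₂ * β₂) :=
    mul_le_mul_of_nonneg_left (by nlinarith) h2a
  have hlin : (2 + a * (1 - a)) * a ≤ 2 := by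
    nlinarith [mul_nonneg (sub_nonneg.mpr ha1) (sub_nonneg.mpr ha)]
  rcases le_total β₁ α₁ with h5 | h5 <;> rcases le_total β₂ α₂ with h6 | h6
  · -- both differences nonnegative
    rw [abs_of_nonneg (by linarith : 0 ≤ α₁ - β₁), abs_of_nonneg (by linarith : 0 ≤ α₂ - β₂)]
    have hs1 : 0 ≤ a - α₁ := by linarith
    have hs2 : 0 ≤ a - α₂ := by linarith
    have ht1 : 0 ≤ β₁ - (1 - a) := by linarith
    have ht2 : 0 ≤ β₂ - (1 - a) := by linarith
    have hq1' : 0 ≤ 1 - q := by linarith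
    have hβ1 : 0 ≤ β₁ := by linarith
    have hβ2 : 0 ≤ β₂ := by linarith
    have ha0 : 0 ≤ a := by linarith
    have hb0 : 0 ≤ 1 - a := by linarith
    have hM : 0 ≤ 1 - a * (1 - a) := by nlinarith
    have ha2 : 0 ≤ 1 - a ^ 2 := by nlinarith
    -- `π₁ = 1 - q`, `π₂ = q`
    have t1 : 0 ≤ (2 * a - 1) * a * (1 - q) * (β₁ - (1 - a)) := by positivity
    have t2 : 0 ≤ (2 * a - 1) * a * q * (β₂ - (1 - a)) :=
      mul_nonneg (mul_nonneg (mul_nonneg h2a ha0) hq.1) ht2
    have t3 : 0 ≤ (2 * a - 1) * q * ((a - α₁) * β₁) :=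
      mul_nonneg (mul_nonneg h2a hq.1) (mul_nonneg hs1 hβ1)
    have t4 : 0 ≤ (2 * a - 1) * (1 - q) * ((a - α₂) * β₂) :=
      mul_nonneg (mul_nonneg h2a hq1') (mul_nonneg hs2 hβ2)
    have t5 : 0 ≤ (β₁ - (1 - a)) * (1 - a ^ 2) := mul_nonneg ht1 ha2
    have t6 : 0 ≤ (β₂ - (1 - a)) * (1 - a ^ 2) := mul_nonneg ht2 ha2
    have t7 : 0 ≤ (a - α₁) * (1 - a * (1 - a)) := mul_nonneg hs1 hM
    have t8 : 0 ≤ (a - α₂) * (1 - a * (1 - a)) := mul_nonneg hs2 hM
    have t9 : 0 ≤ (2 + a * (1 - a)) * (1 - a) * (β₁ - (1 - a)) :=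
      mul_nonneg (mul_nonneg (by linarith) hb0) ht1
    have t10 : 0 ≤ (2 + a * (1 - a)) * (1 - a) * (β₂ - (1 - a)) :=
      mul_nonneg (mul_nonneg (by linarith) hb0) ht2
    have t11 : 0 ≤ (2 + a * (1 - a)) * ((a - α₁) * α₂ + a * (a - α₂)
        + (β₁ - (1 - a)) * (β₂ - (1 - a))) :=
      mul_nonneg (by linarith) (add_nonneg (add_nonneg (mul_nonneg hs1 (by linarith))
        (mul_nonneg ha0 hs2)) (mul_nonneg ht1 ht2))
    nlinarith [t1, t2, t3, t4, t5, t6, t7, t8, t9, t10, t11]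
  · have h7 : α₁ * α₂ - β₁ * β₂ ≤ α₂ * (α₁ - β₁) := by
      nlinarith [mul_nonneg (by linarith : 0 ≤ β₁) (sub_nonneg.mpr h6)]
    have h8 : α₂ * (α₁ - β₁) ≤ a * (2 * a - 1) :=
      mul_le_mul h3.2 (by linarith) (by linarith) (by linarith)
    have h9 : (2 + a * (1 - a)) * (α₁ * α₂ - β₁ * β₂) ≤ (2 + a * (1 - a)) * (a * (2 * a - 1)) :=
      mul_le_mul_of_nonneg_left (h7.trans h8) (by linarith)
    have h10 : (2 + a * (1 - a)) * (a * (2 * a - 1)) ≤ 2 * (2 * a - 1) := by
      have := mul_le_mul_of_nonneg_right hlin h2a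
      linarith
    linarith
  · have h7 : α₁ * α₂ - β₁ * β₂ ≤ α₁ * (α₂ - β₂) := by
      nlinarith [mul_nonneg (by linarith : 0 ≤ β₂) (sub_nonneg.mpr h5)]
    have h8 : α₁ * (α₂ - β₂) ≤ a * (2 * a - 1) :=
      mul_le_mul h1.2 (by linarith) (by linarith) (by linarith)
    have h9 : (2 + a * (1 - a)) * (α₁ * α₂ - β₁ * β₂) ≤ (2 + a * (1 - a)) * (a * (2 * a - 1)) :=
      mul_le_mul_of_nonneg_left (h7.trans h8) (by linarith)
    have h10 : (2 + a * (1 - a)) * (a * (2 * a - 1)) ≤ 2 * (2 * a - 1) := by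
      have := mul_le_mul_of_nonneg_right hlin h2a
      linarith
    linarith
  · have h7 : α₁ * α₂ - β₁ * β₂ ≤ 0 := by
      nlinarith [mul_nonneg (by linarith : 0 ≤ α₁) (sub_nonneg.mpr h6),
        mul_nonneg (by linarith : 0 ≤ β₂) (sub_nonneg.mpr h5)]
    have h9 : (2 + a * (1 - a)) * (α₁ * α₂ - β₁ * β₂) ≤ 0 :=
      mul_nonpos_of_nonneg_of_nonpos (by linarith) h7
    linarith

/-- The slope is at most `2ε/3 = (2a - 1)/3`. -/
theorem dw_le {p : V → V → ℝ} {α β : V → ℝ} {a : ℝ} (ha : 1 / 2 ≤ a) (ha1 : a ≤ 1)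
    (W : Finset V)
    (hp : ∀ x ∈ W, ∀ z ∈ W, x ≠ z → 1 - a ≤ p x z ∧ p x z ≤ a)
    (hps : ∀ x ∈ W, ∀ z ∈ W, x ≠ z → p x z + p z x = 1)
    (hα : ∀ x ∈ W, 1 - a ≤ α x ∧ α x ≤ a) (hβ : ∀ x ∈ W, 1 - a ≤ β x ∧ β x ≤ a) :
    dw p α β W ≤ (2 * a - 1) / 3 := by
  have h2a : 0 ≤ 2 * a - 1 := by linarith
  have hM : 0 ≤ (1 - a * (1 - a)) / 3 := by nlinarith
  have hab : 0 ≤ a * (1 - a) := mul_nonneg (by linarith) (by linarith)
  induction W using Finset.strongInduction with
  | H W ih =>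
    have hrec := dw_eq p α β W
    have hsub := aw_sub_le ha ha1 W hp hps hα hβ
    have hIH : ∀ h ∈ W, ∀ S ⊆ W.erase h, dw p α β S ≤ (2 * a - 1) / 3 := by
      intro h hh S hS
      have hss : S ⊂ W := lt_of_le_of_lt hS (Finset.erase_ssubset hh)
      exact ih S hss (fun x hx z hz => hp x (hss.1 hx) z (hss.1 hz))
        (fun x hx z hz => hps x (hss.1 hx) z (hss.1 hz)) (fun x hx => hα x (hss.1 hx))
        fun x hx => hβ x (hss.1 hx)
    have hcard : W.card = 0 ∨ W.card = 1 ∨ W.card = 2 ∨ 3 ≤ W.card := by omega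
    rcases hcard with hc | hc | hc | hc
    · rw [Finset.card_eq_zero.mp hc, dw_empty]
      linarith
    · obtain ⟨w, rfl⟩ := Finset.card_eq_one.mp hc
      rw [dw_singleton]
      have h1 := hα w (Finset.mem_singleton_self w)
      have h2 := hβ w (Finset.mem_singleton_self w)
      linarith [h1.2, h2.1]
    · obtain ⟨u, v, huv, rfl⟩ := Finset.card_eq_two.mp hc
      have hu : u ∈ ({u, v} : Finset V) := by simp
      have hv : v ∈ ({u, v} : Finset V) := by simp
      have eu : ({u, v} : Finset V).erase u = {v} := by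
        rw [Finset.erase_insert]
        simpa using huv
      have ev : ({u, v} : Finset V).erase v = {u} := by
        rw [Finset.pair_comm, Finset.erase_insert]
        simpa using huv.symm
      have hb : ∀ x z : V, bex (fun x => p x z) {x} (dw p α β)
          = p x z * dw p α β {x} := by
        intro x z
        rw [← show insert x (∅ : Finset V) = {x} by simp, bex_insert _ (by simp), bex_empty,
          bex_empty, dw_empty]
        ring
      rw [Finset.sum_pair huv, eu, ev, hb, hb, hc] at hrec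
      rw [Finset.prod_pair huv, Finset.prod_pair huv, Finset.sum_pair huv] at hsub
      have hdv : dw p α β {v} ≤ (2 * a - 1) / 3 := hIH u hu {v} (by rw [eu])
      have hdu : dw p α β {u} ≤ (2 * a - 1) / 3 := hIH v hv {u} (by rw [ev])
      have hpvu := hp v hv u hu huv.symm
      have hsum := hps u hu v hv huv
      have hpuv : p u v = 1 - p v u := by linarith
      have htwo := two_bound (q := p v u) ha ha1 (hα u hu) (hβ u hu) (hα v hv) (hβ v hv)
        ⟨by linarith [hpvu.1], by linarith [hpvu.2]⟩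
      have hX1 : 0 ≤ α u * β u := mul_nonneg (by linarith [(hα u hu).1])
        (by linarith [(hβ u hu).1])
      have hX2 : 0 ≤ α v * β v := mul_nonneg (by linarith [(hα v hv).1])
        (by linarith [(hβ v hv).1])
      have m1 : α u * β u * (p v u * dw p α β {v})
          ≤ α u * β u * (p v u * ((2 * a - 1) / 3)) :=
        mul_le_mul_of_nonneg_left (mul_le_mul_of_nonneg_left hdv (by linarith [hpvu.1])) hX1
      have m2 : α v * β v * (p u v * dw p α β {u})
          ≤ α v * β v * ((1 - p v u) * ((2 * a - 1) / 3)) := by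
        rw [hpuv]
        exact mul_le_mul_of_nonneg_left
          (mul_le_mul_of_nonneg_left hdu (by linarith [hpvu.2])) hX2
      push_cast at hrec
      nlinarith
    · have hA : ∏ x ∈ W, α x ≤ a ^ W.card := by
        rw [← Finset.prod_const]
        exact Finset.prod_le_prod (fun x hx => by linarith [(hα x hx).1])
          fun x hx => (hα x hx).2
      have hB : (1 - a) ^ W.card ≤ ∏ x ∈ W, β x := by
        rw [← Finset.prod_const]
        exact Finset.prod_le_prod (fun x hx => by linarith) fun x hx => (hβ x hx).1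
      have hpow := pow_sub_le ha ha1 W.card hc
      have hprod : ∏ x ∈ W, α x - ∏ x ∈ W, β x ≤ (2 * a - 1) * (1 - a * (1 - a)) := by
        linarith
      have h1 : (1 - (1 - a * (1 - a)) / 3) * (∏ x ∈ W, α x - ∏ x ∈ W, β x)
          ≤ 2 * ((2 * a - 1) / 3) := by
        have h2 : (1 - (1 - a * (1 - a)) / 3) * (∏ x ∈ W, α x - ∏ x ∈ W, β x)
            ≤ (1 - (1 - a * (1 - a)) / 3) * ((2 * a - 1) * (1 - a * (1 - a))) :=
          mul_le_mul_of_nonneg_left hprod (by nlinarith)
        refine h2.trans ?_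
        nlinarith [mul_nonneg h2a hab, mul_nonneg h2a (mul_nonneg hab hab)]
      have hterm : ∀ h ∈ W, (1 - a * (1 - a)) / 3 * |α h - β h|
          + α h * β h * bex (fun x => p x h) (W.erase h) (dw p α β) ≤ (2 * a - 1) / 3 := by
        intro h hh
        have hcc : ∀ x ∈ W.erase h, 0 ≤ p x h ∧ p x h ≤ 1 := fun x hx => by
          have := hp x (Finset.mem_of_mem_erase hx) h hh (Finset.ne_of_mem_erase hx)
          constructor <;> linarith [this.1, this.2]
        have hbe : bex (fun x => p x h) (W.erase h) (dw p α β) ≤ (2 * a - 1) / 3 := by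
          rw [← bex_const (fun x => p x h) (W.erase h) ((2 * a - 1) / 3)]
          exact bex_mono hcc (hIH h hh)
        have hX : 0 ≤ α h * β h := mul_nonneg (by linarith [(hα h hh).1])
          (by linarith [(hβ h hh).1])
        have hdel := delta_le ha ha1 (hα h hh) (hβ h hh)
        nlinarith [mul_le_mul_of_nonneg_left hbe hX]
      have hsum : (1 - a * (1 - a)) / 3 * ∑ x ∈ W, |α x - β x|
          + ∑ h ∈ W, α h * β h * bex (fun x => p x h) (W.erase h) (dw p α β)
          ≤ (W.card : ℝ) * ((2 * a - 1) / 3) := by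
        rw [Finset.mul_sum, ← Finset.sum_add_distrib]
        have := Finset.sum_le_sum hterm
        rwa [Finset.sum_const, nsmul_eq_mul] at this
      have hpos : (0 : ℝ) < (W.card : ℝ) + 2 := by positivity
      refine le_of_mul_le_mul_left ?_ hpos
      rw [hrec]
      linarith

end Q150.Koth
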