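import Pool.Agent.Q150.KothE

/-!
# The random tournament
-/

namespace Q150.Koth

open Finset

variable {n : ℕ}

theorem expect_const (p : Fin n → Fin n → ℝ) (hp : ∀ i j, i ≠ j → p i j + p j i = 1) (k : ℝ) :
    expect p (fun _ => k) = k := by
  unfold expect weight
  rw [← Finset.sum_mul]
  have h := Finset.prod_univ_sum (fun _ : Match n => (Finset.univ : Finset Bool))
    (fun e b => if b = true then p e.1.1 e.1.2 else p e.1.2 e.1.1)
  rw [Fintype.piFinset_univ] at h
  rw [← h]
  have h1 : ∀ e : Match n, ∑ b : Bool, (if b = true then p e.1.1 e.1.2 else p e.1.2 e.1.1)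
      = 1 := by
    intro e
    rw [Fintype.sum_bool]
    simpa using hp e.1.1 e.1.2 (ne_of_lt e.2)
  rw [Finset.prod_congr rfl fun e _ => h1 e]
  simp

theorem expect_sum {ι : Type*} (p : Fin n → Fin n → ℝ) (s : Finset ι)
    (F : ι → Tournament n → ℝ) :
    expect p (fun T => ∑ i ∈ s, F i T) = ∑ i ∈ s, expect p (F i) := by
  unfold expect
  rw [Finset.sum_comm]
  exact Finset.sum_congr rfl fun T _ => Finset.mul_sum _ _ _

theorem expect_div (p : Fin n → Fin n → ℝ) (F : Tournament n → ℝ) (k : ℝ) :
    expect p (fun T => F T / k) = expect p F / k := by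
  unfold expect
  rw [Finset.sum_div]
  exact Finset.sum_congr rfl fun T _ => by ring

theorem expect_cond (p : Fin n → Fin n → ℝ) (F : Tournament n → ℝ) (e0 : Match n)
    (h : p e0.1.1 e0.1.2 + p e0.1.2 e0.1.1 = 1) :
    expect p F = p e0.1.1 e0.1.2 * expect p (fun T => F (Function.update T e0 true))
      + p e0.1.2 e0.1.1 * expect p (fun T => F (Function.update T e0 false)) := by
  classical
  set q : Match n → Bool → ℝ := fun e b => if b = true then p e.1.1 e.1.2 else p e.1.2 e.1.1
    with hq
  have hw : ∀ T : Tournament n, weight p T = ∏ e : Match n, q e (T e) := fun T => rfl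
  have hinv : Function.Involutive (fun x : Bool × Tournament n =>
      (x.2 e0, Function.update x.2 e0 x.1)) := by
    rintro ⟨b, T⟩
    simp
  have hwt : ∀ (b : Bool) (T : Tournament n),
      q e0 b * weight p T = q e0 (T e0) * weight p (Function.update T e0 b) := by
    intro b T
    rw [hw, hw, ← Finset.mul_prod_erase Finset.univ (fun e => q e (T e)) (Finset.mem_univ e0),
      ← Finset.mul_prod_erase Finset.univ
        (fun e => q e (Function.update T e0 b e)) (Finset.mem_univ e0)]
    have : ∏ e ∈ Finset.univ.erase e0, q e (Function.update T e0 b e)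
        = ∏ e ∈ Finset.univ.erase e0, q e (T e) :=
      Finset.prod_congr rfl fun e he => by
        rw [Function.update_of_ne (Finset.ne_of_mem_erase he)]
    rw [this, Function.update_self]
    ring
  have h1 : ∑ x : Bool × Tournament n, q e0 x.1 * weight p x.2 * F (Function.update x.2 e0 x.1)
      = ∑ x : Bool × Tournament n, q e0 x.1 * weight p x.2 * F x.2 := by
    rw [← Equiv.sum_comp hinv.toPerm
      (fun x : Bool × Tournament n => q e0 x.1 * weight p x.2 * F x.2)]
    refine Finset.sum_congr rfl fun x _ => ?_
    simp only [Function.Involutive.coe_toPerm]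
    rw [hwt]
  rw [Fintype.sum_prod_type, Fintype.sum_prod_type, Fintype.sum_bool, Fintype.sum_bool] at h1
  have h2 : ∀ (b : Bool) (G : Tournament n → ℝ),
      ∑ T : Tournament n, q e0 b * weight p T * G T = q e0 b * expect p G := by
    intro b G
    unfold expect
    rw [Finset.mul_sum]
    exact Finset.sum_congr rfl fun T _ => by ring
  simp only at h1
  rw [h2 true F, h2 false F, h2 true (fun T => F (Function.update T e0 true)),
    h2 false (fun T => F (Function.update T e0 false))] at h1
  have hq1 : q e0 true = p e0.1.1 e0.1.2 := rfl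
  have hq2 : q e0 false = p e0.1.2 e0.1.1 := rfl
  rw [hq1, hq2] at h1
  rw [h1, ← add_mul, h, one_mul]

/-- `T` with the match of `i` and `j` changed so that `i` wins. -/
noncomputable def setw (T : Tournament n) (i j : Fin n) : Tournament n :=
  if h : i < j then Function.update T ⟨(i, j), h⟩ true
  else if h : j < i then Function.update T ⟨(j, i), h⟩ false else T

theorem expect_setw (p : Fin n → Fin n → ℝ) (F : Tournament n → ℝ) {i j : Fin n} (hij : i ≠ j)
    (h : p i j + p j i = 1) :
    expect p F = p i j * expect p (fun T => F (setw T i j))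
      + p j i * expect p (fun T => F (setw T j i)) := by
  unfold setw
  rcases lt_or_gt_of_ne hij with h1 | h1
  · have h2 : ¬ j < i := not_lt.mpr h1.le
    simp only [h1, h2, dif_pos, dif_neg, not_false_eq_true]
    exact expect_cond p F ⟨(i, j), h1⟩ h
  · have h2 : ¬ i < j := not_lt.mpr h1.le
    simp only [h1, h2, dif_pos, dif_neg, not_false_eq_true]
    have := expect_cond p F ⟨(j, i), h1⟩ (by simpa [add_comm] using h)
    rw [this]
    simp only
    ring

theorem beats_setw_self (T : Tournament n) {i j : Fin n} (hij : i ≠ j) :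
    Beats (setw T i j) i j := by
  unfold Beats setw
  rcases lt_or_gt_of_ne hij with h1 | h1
  · left
    exact ⟨h1, by simp [h1]⟩
  · right
    have h2 : ¬ i < j := not_lt.mpr h1.le
    exact ⟨h1, by simp [h1, h2]⟩

theorem beats_setw_other (T : Tournament n) {i j k l : Fin n} (h1 : ¬(k = i ∧ l = j))
    (h2 : ¬(k = j ∧ l = i)) : Beats (setw T i j) k l ↔ Beats T k l := by
  have key : ∀ e : Match n, ¬(e.1.1 = i ∧ e.1.2 = j) → ¬(e.1.1 = j ∧ e.1.2 = i) →
      setw T i j e = T e := by
    intro e he1 he2
    unfold setw
    split_ifs with h h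
    · rw [Function.update_of_ne]
      rintro rfl
      exact he1 ⟨rfl, rfl⟩
    · rw [Function.update_of_ne]
      rintro rfl
      exact he2 ⟨rfl, rfl⟩
    · rfl
  unfold Beats
  constructor
  · rintro (⟨h, h'⟩ | ⟨h, h'⟩)
    · left
      refine ⟨h, ?_⟩
      rw [key ⟨(k, l), h⟩ h1 h2] at h'
      exact h'
    · right
      refine ⟨h, ?_⟩
      rw [key ⟨(l, k), h⟩ (fun hh => h2 ⟨hh.2, hh.1⟩) (fun hh => h1 ⟨hh.2, hh.1⟩)] at h'
      exact h'
  · rintro (⟨h, h'⟩ | ⟨h, h'⟩)
    · left
      refine ⟨h, ?_⟩
      rw [key ⟨(k, l), h⟩ h1 h2]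
      exact h'
    · right
      refine ⟨h, ?_⟩
      rw [key ⟨(l, k), h⟩ (fun hh => h2 ⟨hh.2, hh.1⟩) (fun hh => h1 ⟨hh.2, hh.1⟩)]
      exact h'

open Classical in
/-- The teams of `X` that beat `h`. -/
noncomputable def surv (T : Tournament n) (X : Finset (Fin n)) (h : Fin n) : Finset (Fin n) :=
  X.filter fun x => Beats T x h

theorem surv_insert_pos (T : Tournament n) (X : Finset (Fin n)) {h x : Fin n}
    (hb : Beats T x h) : surv T (insert x X) h = insert x (surv T X h) := by
  classical
  unfold surv
  rw [Finset.filter_insert, if_pos hb]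

theorem surv_insert_neg (T : Tournament n) (X : Finset (Fin n)) {h x : Fin n}
    (hb : ¬Beats T x h) : surv T (insert x X) h = surv T X h := by
  classical
  unfold surv
  rw [Finset.filter_insert, if_neg hb]

theorem surv_congr {T T' : Tournament n} {X : Finset (Fin n)} {h : Fin n}
    (hb : ∀ x ∈ X, (Beats T x h ↔ Beats T' x h)) : surv T X h = surv T' X h := by
  classical
  unfold surv
  exact Finset.filter_congr hb

/-- The distribution of the set of the teams that beat `h`, independently of all matches
without `h`. -/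
theorem expect_surv (p : Fin n → Fin n → ℝ) (h : Fin n) (X : Finset (Fin n)) (hX : h ∉ X)
    (hp : ∀ x ∈ X, p x h + p h x = 1) :
    ∀ Φ : Finset (Fin n) → Tournament n → ℝ,
    (∀ S ⊆ X, ∀ T T' : Tournament n,
      (∀ i j, i ≠ h → j ≠ h → (Beats T i j ↔ Beats T' i j)) → Φ S T = Φ S T') →
    expect p (fun T => Φ (surv T X h) T)
      = bex (fun x => p x h) X (fun S => expect p (Φ S)) := by
  induction X using Finset.induction_on with
  | empty =>
    intro Φ _
    rw [bex_empty]
    congr 1
  | insert x X hx ih =>
    intro Φ hΦ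
    have hxh : x ≠ h := fun hh => hX (hh ▸ Finset.mem_insert_self x X)
    have hXh : h ∉ X := fun hh => hX (Finset.mem_insert_of_mem hh)
    have ih' := ih hXh (fun z hz => hp z (Finset.mem_insert_of_mem hz))
    have hpx := hp x (Finset.mem_insert_self x X)
    rw [expect_setw p _ hxh hpx, bex_insert _ hx]
    have hsub : ∀ S ⊆ X, S ⊆ insert x X := fun S hS =>
      hS.trans (Finset.subset_insert x X)
    have hsurvX : ∀ T : Tournament n, surv T X h ⊆ X := fun T => by
      classical
      exact Finset.filter_subset _ _
    have e1 : (fun T => Φ (surv (setw T x h) (insert x X) h) (setw T x h))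
        = fun T => Φ (insert x (surv T X h)) T := by
      funext T
      rw [surv_insert_pos _ _ (beats_setw_self T hxh)]
      have e2 : surv (setw T x h) X h = surv T X h := surv_congr fun z hz => by
        have hzx : z ≠ x := fun hh => hx (hh ▸ hz)
        exact beats_setw_other T (fun hh => hzx hh.1) (fun hh => hxh hh.2.symm)
      rw [e2]
      refine hΦ _ (Finset.insert_subset_insert x (hsurvX T)) _ _ fun i j hi hj => ?_
      exact beats_setw_other T (fun hh => hj hh.2) (fun hh => hi hh.1)
    have e3 : (fun T => Φ (surv (setw T h x) (insert x X) h) (setw T h x))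
        = fun T => Φ (surv T X h) T := by
      funext T
      have hnb : ¬ Beats (setw T h x) x h :=
        (not_beats_iff _ hxh).mpr (beats_setw_self T hxh.symm)
      rw [surv_insert_neg _ _ hnb]
      have e2 : surv (setw T h x) X h = surv T X h := surv_congr fun z hz => by
        have hzx : z ≠ x := fun hh => hx (hh ▸ hz)
        exact beats_setw_other T (fun hh => hxh hh.2.symm) (fun hh => hzx hh.1)
      rw [e2]
      refine hΦ _ (hsub _ (hsurvX T)) _ _ fun i j hi hj => ?_
      exact beats_setw_other T (fun hh => hi hh.1) (fun hh => hj hh.2)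
    rw [e1, e3, ih' (fun S T => Φ (insert x S) T) (fun S hS T T' hT =>
        hΦ _ (Finset.insert_subset_insert x hS) T T' hT),
      ih' Φ (fun S hS T T' hT => hΦ S (hsub S hS) T T' hT)]
    have : p h x = 1 - p x h := by linarith
    rw [this]

end Q150.Koth
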