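import Pool.Agent.Q150.KothF

/-!
# The recursion for the selection probabilities
-/

namespace Q150.Koth

open Finset

variable {n : ℕ}

theorem rkothFrom_of_card_le (T : Tournament n) {R : Finset (Fin n)} (hR : R.card ≤ 1)
    (i : Fin n) : rkothFrom T R i = if i ∈ R then 1 else 0 := by
  rw [rkothFrom, dif_pos hR]

theorem rkothFrom_of_card (T : Tournament n) {R : Finset (Fin n)} (hR : ¬ R.card ≤ 1)
    (i : Fin n) : rkothFrom T R i = (∑ h ∈ R, rkothFrom T (nextRound T R h) i) / R.card := by
  rw [rkothFrom, dif_neg hR, ← Finset.sum_coe_sort R]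

theorem rkothFrom_notMem (T : Tournament n) (R : Finset (Fin n)) {i : Fin n} (hi : i ∉ R) :
    rkothFrom T R i = 0 := by
  induction R using Finset.strongInduction with
  | H R ih =>
    by_cases hR : R.card ≤ 1
    · rw [rkothFrom_of_card_le T hR, if_neg hi]
    · rw [rkothFrom_of_card T hR]
      rw [Finset.sum_eq_zero, zero_div]
      intro h hh
      have hsub : nextRound T R h ⊆ R := by
        classical
        exact Finset.filter_subset _ _
      have hlt := card_nextRound_lt T R hh hR
      exact ih _ (Finset.ssubset_iff_subset_ne.mpr ⟨hsub, fun e => by rw [e] at hlt; omega⟩)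
        fun hm => hi (hsub hm)

theorem nextRound_congr {T T' : Tournament n} {R : Finset (Fin n)} {h : Fin n} (hh : h ∈ R)
    (hb : ∀ x ∈ R, ∀ y ∈ R, x ≠ y → (Beats T x y ↔ Beats T' x y)) :
    nextRound T R h = nextRound T' R h := by
  classical
  unfold nextRound
  refine Finset.filter_congr fun x hx => ?_
  split_ifs with hxh
  · constructor
    · intro hall y hy hyh
      exact (hb h hh y hy hyh.symm).mp (hall y hy hyh)
    · intro hall y hy hyh
      exact (hb h hh y hy hyh.symm).mpr (hall y hy hyh)
  · exact hb x hx h hh hxh

theorem rkothFrom_congr {T T' : Tournament n} (R : Finset (Fin n))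
    (hb : ∀ x ∈ R, ∀ y ∈ R, x ≠ y → (Beats T x y ↔ Beats T' x y)) (i : Fin n) :
    rkothFrom T R i = rkothFrom T' R i := by
  induction R using Finset.strongInduction with
  | H R ih =>
    by_cases hR : R.card ≤ 1
    · rw [rkothFrom_of_card_le T hR, rkothFrom_of_card_le T' hR]
    · rw [rkothFrom_of_card T hR, rkothFrom_of_card T' hR]
      congr 1
      refine Finset.sum_congr rfl fun h hh => ?_
      rw [← nextRound_congr hh hb]
      have hsub : nextRound T R h ⊆ R := by
        classical
        exact Finset.filter_subset _ _
      have hlt := card_nextRound_lt T R hh hR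
      exact ih _ (Finset.ssubset_iff_subset_ne.mpr ⟨hsub, fun e => by rw [e] at hlt; omega⟩)
        fun x hx y hy => hb x (hsub hx) y (hsub hy)

theorem nextRound_eq (T : Tournament n) {R : Finset (Fin n)} {h : Fin n} (hh : h ∈ R) :
    nextRound T R h = if surv T (R.erase h) h = ∅ then {h} else surv T (R.erase h) h := by
  classical
  by_cases hs : surv T (R.erase h) h = ∅
  · rw [if_pos hs]
    have hall : ∀ y ∈ R, y ≠ h → ¬ Beats T y h := by
      intro y hy hyh hb
      have : y ∈ surv T (R.erase h) h :=
        Finset.mem_filter.mpr ⟨Finset.mem_erase.mpr ⟨hyh, hy⟩, hb⟩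
      rw [hs] at this
      exact Finset.notMem_empty y this
    ext x
    unfold nextRound
    rw [Finset.mem_filter, Finset.mem_singleton]
    constructor
    · rintro ⟨hx, hx'⟩
      by_contra hne
      rw [if_neg hne] at hx'
      exact hall x hx hne hx'
    · rintro rfl
      refine ⟨hh, ?_⟩
      rw [if_pos rfl]
      intro y hy hyh
      exact (not_beats_iff T hyh).mp (hall y hy hyh)
  · rw [if_neg hs]
    obtain ⟨z, hz⟩ := Finset.nonempty_iff_ne_empty.mpr hs
    have hz' := Finset.mem_filter.mp hz
    have hz1 := Finset.mem_erase.mp hz'.1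
    ext x
    unfold nextRound
    rw [Finset.mem_filter]
    constructor
    · rintro ⟨hx, hx'⟩
      by_cases hxh : x = h
      · rw [if_pos hxh] at hx'
        exact absurd (hx' z hz1.2 hz1.1) ((not_beats_iff T hz1.1.symm).mpr hz'.2)
      · rw [if_neg hxh] at hx'
        exact Finset.mem_filter.mpr ⟨Finset.mem_erase.mpr ⟨hxh, hx⟩, hx'⟩
    · intro hx
      have hx' := Finset.mem_filter.mp hx
      have hx1 := Finset.mem_erase.mp hx'.1
      refine ⟨hx1.2, ?_⟩
      rw [if_neg hx1.1]
      exact hx'.2

/-- The expected selection probability from the remaining set `R`. -/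
noncomputable def gg (p : Fin n → Fin n → ℝ) (R : Finset (Fin n)) (i : Fin n) : ℝ :=
  expect p fun T => rkothFrom T R i

theorem gg_notMem (p : Fin n → Fin n → ℝ) {R : Finset (Fin n)} {i : Fin n} (hi : i ∉ R) :
    gg p R i = 0 := by
  unfold gg expect
  refine Finset.sum_eq_zero fun T _ => ?_
  show weight p T * rkothFrom T R i = 0
  rw [rkothFrom_notMem T R hi, mul_zero]

theorem gg_singleton (p : Fin n → Fin n → ℝ) (hp : ∀ i j, i ≠ j → p i j + p j i = 1)
    (h i : Fin n) : gg p {h} i = if i = h then 1 else 0 := by
  unfold gg
  rw [← expect_const p hp (if i = h then 1 else 0)]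
  congr 1
  funext T
  rw [rkothFrom_of_card_le T (by simp)]
  simp

theorem gg_rec (p : Fin n → Fin n → ℝ) (hp : ∀ i j, i ≠ j → p i j + p j i = 1)
    {R : Finset (Fin n)} (i : Fin n) :
    (R.card : ℝ) * gg p R i
      = ∑ h ∈ R, bex (fun x => p x h) (R.erase h)
          (fun S => if S = ∅ then (if i = h then 1 else 0) else gg p S i) := by
  by_cases hR : R.card ≤ 1
  · rcases Finset.eq_empty_or_nonempty R with rfl | ⟨h, hh⟩
    · simp
    · have hRs : R = {h} := Finset.eq_singleton_iff_unique_mem.mpr
        ⟨hh, fun x hx => Finset.card_le_one.mp hR x hx h hh⟩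
      subst hRs
      rw [Finset.card_singleton, Finset.sum_singleton,
        show ({h} : Finset (Fin n)).erase h = ∅ by simp, bex_empty, if_pos rfl,
        gg_singleton p hp]
      simp
  · have hc : (R.card : ℝ) ≠ 0 := by
      have : R.card ≠ 0 := by omega
      exact_mod_cast this
    have h1 : gg p R i = (∑ h ∈ R, expect p (fun T => rkothFrom T (nextRound T R h) i))
        / R.card := by
      unfold gg
      rw [← expect_sum, ← expect_div]
      congr 1
      funext T
      exact rkothFrom_of_card T hR i
    rw [h1, mul_div_cancel₀ _ hc]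
    refine Finset.sum_congr rfl fun h hh => ?_
    have h2 := expect_surv p h (R.erase h) (Finset.notMem_erase h R)
      (fun x hx => hp x h (Finset.ne_of_mem_erase hx))
      (fun S T => rkothFrom T (if S = ∅ then {h} else S) i) (by
        intro S hS T T' hT
        refine rkothFrom_congr _ (fun x hx y hy hxy => ?_) i
        by_cases hSe : S = ∅
        · rw [if_pos hSe] at hx hy
          rw [Finset.mem_singleton] at hx hy
          exact absurd (hx.trans hy.symm) hxy
        · rw [if_neg hSe] at hx hy
          exact hT x y (Finset.ne_of_mem_erase (hS hx)) (Finset.ne_of_mem_erase (hS hy)))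
    have h3 : (fun T => rkothFrom T (nextRound T R h) i)
        = fun T => rkothFrom T (if surv T (R.erase h) h = ∅ then {h}
            else surv T (R.erase h) h) i := by
      funext T
      rw [nextRound_eq T hh]
    rw [h3, h2]
    refine bex_congr (fun _ _ => rfl) fun S _ => ?_
    by_cases hSe : S = ∅
    · rw [if_pos hSe]
      simp only [if_pos hSe]
      exact gg_singleton p hp h i
    · rw [if_neg hSe]
      simp only [if_neg hSe]
      rfl

/-- The selection probability of `u` in terms of `fw`. -/
theorem gg_insert (p : Fin n → Fin n → ℝ) (hp : ∀ i j, i ≠ j → p i j + p j i = 1) (u : Fin n)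
    (W : Finset (Fin n)) (hu : u ∉ W) : gg p (insert u W) u = fw p (p u) W := by
  induction W using Finset.strongInduction with
  | H W ih =>
    have h1 := gg_rec p hp (R := insert u W) u
    have h2 := fw_eq p (p u) W
    rw [Finset.card_insert_of_notMem hu, Finset.sum_insert hu, Finset.erase_insert hu] at h1
    have e1 : bex (fun x => p x u) W
        (fun S => if S = ∅ then (if u = u then 1 else 0) else gg p S u) = ∏ x ∈ W, p u x := by
      have : bex (fun x => p x u) W
          (fun S => if S = ∅ then (if u = u then 1 else 0) else gg p S u)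
          = bex (fun x => p x u) W (fun S => if S = ∅ then 1 else 0) := by
        refine bex_congr (fun _ _ => rfl) fun S hS => ?_
        by_cases hS0 : S = ∅
        · simp [hS0]
        · rw [if_neg hS0, if_neg hS0]
          exact gg_notMem p fun h => hu (hS h)
      rw [this, bex_ind]
      refine Finset.prod_congr rfl fun x hx => ?_
      have := hp u x (fun h => hu (h ▸ hx))
      linarith
    have e2 : ∑ h ∈ W, bex (fun x => p x h) ((insert u W).erase h)
          (fun S => if S = ∅ then (if u = h then 1 else 0) else gg p S u)
        = ∑ z ∈ W, p u z * bex (fun x => p x z) (W.erase z) (fw p (p u)) := by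
      refine Finset.sum_congr rfl fun z hz => ?_
      have hzu : u ≠ z := fun h => hu (h ▸ hz)
      have hue : u ∉ W.erase z := fun h => hu (Finset.mem_of_mem_erase h)
      rw [Finset.erase_insert_of_ne hzu, bex_insert _ hue]
      have e3 : bex (fun x => p x z) (W.erase z)
          (fun S => if S = ∅ then (if u = z then (1 : ℝ) else 0) else gg p S u) = 0 := by
        refine Eq.trans ?_ (bex_const (fun x => p x z) (W.erase z) 0)
        refine bex_congr (fun _ _ => rfl) fun S hS => ?_
        rw [if_neg hzu]
        split_ifs
        · rfl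
        · exact gg_notMem p fun h => hue (hS h)
      rw [e3, mul_zero, add_zero]
      congr 1
      refine bex_congr (fun _ _ => rfl) fun S hS => ?_
      rw [if_neg (Finset.insert_ne_empty u S)]
      exact ih S (lt_of_le_of_lt hS (Finset.erase_ssubset hz)) fun h => hue (hS h)
    rw [e1, e2, ← h2] at h1
    push_cast at h1
    have h3 : ((W.card : ℝ) + 1) ≠ 0 := by positivity
    exact mul_left_cancel₀ h3 h1

theorem fw_congr_p {V : Type*} [DecidableEq V] {p p' : V → V → ℝ} (y : V → ℝ) (S : Finset V)
    (h : ∀ x ∈ S, ∀ z ∈ S, x ≠ z → p x z = p' x z) : fw p y S = fw p' y S := by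
  induction S using Finset.strongInduction with
  | H S ih =>
    have h1 := fw_eq p y S
    have h2 := fw_eq p' y S
    have h3 : ((S.card : ℝ) + 1) ≠ 0 := by positivity
    refine mul_left_cancel₀ h3 ?_
    rw [h1, h2]
    congr 1
    refine Finset.sum_congr rfl fun z hz => ?_
    congr 1
    refine bex_congr (fun x hx => h x (Finset.mem_of_mem_erase hx) z hz
      (Finset.ne_of_mem_erase hx)) fun S' hS' => ?_
    have hss : S' ⊂ S := lt_of_le_of_lt hS' (Finset.erase_ssubset hz)
    exact ih S' hss fun x hx z hz => h x (hss.1 hx) z (hss.1 hz)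

/-- The joint winning probability of `u` and `v`. -/
noncomputable def vv (p : Fin n → Fin n → ℝ) (u v : Fin n) (W : Finset (Fin n)) : ℝ :=
  gg p (insert u (insert v W)) u + gg p (insert u (insert v W)) v

theorem vv_rec (p : Fin n → Fin n → ℝ) (hp : ∀ i j, i ≠ j → p i j + p j i = 1) {u v : Fin n}
    (huv : u ≠ v) {W : Finset (Fin n)} (hu : u ∉ W) (hv : v ∉ W) :
    ((W.card : ℝ) + 2) * vv p u v W
      = p v u * bex (fun x => p x u) W (fw p (p v)) + p u v * ∏ x ∈ W, p u x
        + (p u v * bex (fun x => p x v) W (fw p (p u)) + p v u * ∏ x ∈ W, p v x)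
        + ∑ h ∈ W, (p u h * p v h * bex (fun x => p x h) (W.erase h) (vv p u v)
            + p u h * (1 - p v h) * bex (fun x => p x h) (W.erase h) (fw p (p u))
            + (1 - p u h) * p v h * bex (fun x => p x h) (W.erase h) (fw p (p v))) := by
  have huvW : u ∉ insert v W := by
    rw [Finset.mem_insert, not_or]
    exact ⟨huv, hu⟩
  have hvuW : v ∉ insert u W := by
    rw [Finset.mem_insert, not_or]
    exact ⟨huv.symm, hv⟩
  have hcard : (insert u (insert v W)).card = W.card + 2 := by
    rw [Finset.card_insert_of_notMem huvW, Finset.card_insert_of_notMem hv]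
  have h1 := gg_rec p hp (R := insert u (insert v W)) u
  have h2 := gg_rec p hp (R := insert u (insert v W)) v
  rw [hcard] at h1 h2
  have h3 : ((W.card : ℝ) + 2) * vv p u v W
      = ∑ h ∈ insert u (insert v W), bex (fun x => p x h) ((insert u (insert v W)).erase h)
          (fun S => if S = ∅ then ((if u = h then 1 else 0) + (if v = h then 1 else 0))
            else gg p S u + gg p S v) := by
    unfold vv
    push_cast at h1 h2
    rw [mul_add, h1, h2, ← Finset.sum_add_distrib]
    refine Finset.sum_congr rfl fun h _ => ?_
    rw [← bex_add]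
    refine bex_congr (fun _ _ => rfl) fun S _ => ?_
    split_ifs <;> ring
  rw [h3, Finset.sum_insert huvW, Finset.sum_insert hv, ← add_assoc]
  have hg : ∀ S : Finset (Fin n), u ∉ S → gg p S u = 0 := fun S hS => gg_notMem p hS
  have hg' : ∀ S : Finset (Fin n), v ∉ S → gg p S v = 0 := fun S hS => gg_notMem p hS
  have hfu : ∀ S : Finset (Fin n), u ∉ S → gg p (insert u S) u = fw p (p u) S :=
    fun S hS => gg_insert p hp u S hS
  have hfv : ∀ S : Finset (Fin n), v ∉ S → gg p (insert v S) v = fw p (p v) S :=
    fun S hS => gg_insert p hp v S hS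
  congr 1
  · congr 1
    · -- the picked team is `u`
      rw [Finset.erase_insert huvW, bex_insert _ hv]
      congr 1
      · congr 1
        refine bex_congr (fun _ _ => rfl) fun S hS => ?_
        have huS : u ∉ S := fun h => hu (hS h)
        have hvS : v ∉ S := fun h => hv (hS h)
        rw [if_neg (Finset.insert_ne_empty v S), hfv S hvS, hg _ (by
          rw [Finset.mem_insert, not_or]; exact ⟨huv, huS⟩), zero_add]
      · have e1 : 1 - p v u = p u v := by linarith [hp u v huv]
        rw [e1]
        congr 1
        have e2 : bex (fun x => p x u) W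
            (fun S => if S = ∅ then ((if u = u then (1 : ℝ) else 0) + (if v = u then 1 else 0))
              else gg p S u + gg p S v)
            = bex (fun x => p x u) W (fun S => if S = ∅ then 1 else 0) := by
          refine bex_congr (fun _ _ => rfl) fun S hS => ?_
          have huS : u ∉ S := fun h => hu (hS h)
          have hvS : v ∉ S := fun h => hv (hS h)
          rw [hg S huS, hg' S hvS, if_pos rfl, if_neg huv.symm]
          split_ifs <;> ring
        rw [e2, bex_ind]
        refine Finset.prod_congr rfl fun x hx => ?_
        have := hp u x (fun h => hu (h ▸ hx))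
        linarith
    · -- the picked team is `v`
      have e0 : (insert u (insert v W)).erase v = insert u W := by
        rw [Finset.erase_insert_of_ne huv, Finset.erase_insert hv]
      rw [e0, bex_insert _ hu]
      congr 1
      · congr 1
        refine bex_congr (fun _ _ => rfl) fun S hS => ?_
        have huS : u ∉ S := fun h => hu (hS h)
        have hvS : v ∉ S := fun h => hv (hS h)
        rw [if_neg (Finset.insert_ne_empty u S), hfu S huS, hg' _ (by
          rw [Finset.mem_insert, not_or]; exact ⟨huv.symm, hvS⟩), add_zero]
      · have e1 : 1 - p u v = p v u := by linarith [hp u v huv]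
        rw [e1]
        congr 1
        have e2 : bex (fun x => p x v) W
            (fun S => if S = ∅ then ((if u = v then (1 : ℝ) else 0) + (if v = v then 1 else 0))
              else gg p S u + gg p S v)
            = bex (fun x => p x v) W (fun S => if S = ∅ then 1 else 0) := by
          refine bex_congr (fun _ _ => rfl) fun S hS => ?_
          have huS : u ∉ S := fun h => hu (hS h)
          have hvS : v ∉ S := fun h => hv (hS h)
          rw [hg S huS, hg' S hvS, if_pos rfl, if_neg huv]
          split_ifs <;> ring
        rw [e2, bex_ind]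
        refine Finset.prod_congr rfl fun x hx => ?_
        have := hp v x (fun h => hv (h ▸ hx))
        linarith
  · refine Finset.sum_congr rfl fun h hh => ?_
    have huh : u ≠ h := fun e => hu (e ▸ hh)
    have hvh : v ≠ h := fun e => hv (e ▸ hh)
    have hue : u ∉ W.erase h := fun e => hu (Finset.mem_of_mem_erase e)
    have hve : v ∉ W.erase h := fun e => hv (Finset.mem_of_mem_erase e)
    have huve : u ∉ insert v (W.erase h) := by
      rw [Finset.mem_insert, not_or]
      exact ⟨huv, hue⟩
    have e0 : (insert u (insert v W)).erase h = insert u (insert v (W.erase h)) := by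
      rw [Finset.erase_insert_of_ne huh, Finset.erase_insert_of_ne hvh]
    rw [e0, bex_insert _ huve, bex_insert _ hve, bex_insert _ hve]
    have e1 : bex (fun x => p x h) (W.erase h)
        (fun S => if insert u (insert v S) = ∅ then
            ((if u = h then (1 : ℝ) else 0) + (if v = h then 1 else 0))
          else gg p (insert u (insert v S)) u + gg p (insert u (insert v S)) v)
        = bex (fun x => p x h) (W.erase h) (vv p u v) := by
      refine bex_congr (fun _ _ => rfl) fun S _ => ?_
      rw [if_neg (Finset.insert_ne_empty u _)]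
      rfl
    have e2 : bex (fun x => p x h) (W.erase h)
        (fun S => if insert u S = ∅ then
            ((if u = h then (1 : ℝ) else 0) + (if v = h then 1 else 0))
          else gg p (insert u S) u + gg p (insert u S) v)
        = bex (fun x => p x h) (W.erase h) (fw p (p u)) := by
      refine bex_congr (fun _ _ => rfl) fun S hS => ?_
      have huS : u ∉ S := fun e => hue (hS e)
      have hvS : v ∉ S := fun e => hve (hS e)
      rw [if_neg (Finset.insert_ne_empty u S), hfu S huS, hg' _ (by
          rw [Finset.mem_insert, not_or]; exact ⟨huv.symm, hvS⟩), add_zero]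
    have e3 : bex (fun x => p x h) (W.erase h)
        (fun S => if insert v S = ∅ then
            ((if u = h then (1 : ℝ) else 0) + (if v = h then 1 else 0))
          else gg p (insert v S) u + gg p (insert v S) v)
        = bex (fun x => p x h) (W.erase h) (fw p (p v)) := by
      refine bex_congr (fun _ _ => rfl) fun S hS => ?_
      have huS : u ∉ S := fun e => hue (hS e)
      have hvS : v ∉ S := fun e => hve (hS e)
      rw [if_neg (Finset.insert_ne_empty v S), hfv S hvS, hg _ (by
          rw [Finset.mem_insert, not_or]; exact ⟨huv, huS⟩), zero_add]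
    have e4 : bex (fun x => p x h) (W.erase h)
        (fun S => if S = ∅ then
            ((if u = h then (1 : ℝ) else 0) + (if v = h then 1 else 0))
          else gg p S u + gg p S v) = 0 := by
      refine Eq.trans ?_ (bex_const (fun x => p x h) (W.erase h) 0)
      refine bex_congr (fun _ _ => rfl) fun S hS => ?_
      have huS : u ∉ S := fun e => hue (hS e)
      have hvS : v ∉ S := fun e => hve (hS e)
      rw [hg S huS, hg' S hvS, if_neg huh, if_neg hvh]
      split_ifs <;> ring
    rw [e1, e2, e3, e4]
    ring

/-- The joint winning probability is affine in the outcome probability of the match of `u`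
and `v`, with slope `dw`. -/
theorem vv_sub {p p' : Fin n → Fin n → ℝ} (hp : ∀ i j, i ≠ j → p i j + p j i = 1)
    (hp' : ∀ i j, i ≠ j → p' i j + p' j i = 1) {u v : Fin n} (huv : u ≠ v)
    (hadj : Adjacent u v p p') (W : Finset (Fin n)) (hu : u ∉ W) (hv : v ∉ W) :
    vv p' u v W - vv p u v W = (p' u v - p u v) * dw p (p u) (p v) W := by
  induction W using Finset.strongInduction with
  | H W ih =>
    have hW : ∀ x ∈ W, x ≠ u ∧ x ≠ v := fun x hx => ⟨fun e => hu (e ▸ hx), fun e => hv (e ▸ hx)⟩
    have h1 := vv_rec p hp huv hu hv
    have h2 := vv_rec p' hp' huv hu hv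
    have h3 := dw_eq p (p u) (p v) W
    have hux : ∀ x ∈ W, p' u x = p u x := fun x hx =>
      hadj u x (hW x hx).1.symm (fun e => (hW x hx).2 e.2) (fun e => (hW x hx).1 e.2)
    have hvx : ∀ x ∈ W, p' v x = p v x := fun x hx =>
      hadj v x (hW x hx).2.symm (fun e => (hW x hx).2 e.2) (fun e => (hW x hx).1 e.2)
    have hxu : ∀ x ∈ W, p' x u = p x u := fun x hx =>
      hadj x u (hW x hx).1 (fun e => (hW x hx).1 e.1) (fun e => (hW x hx).2 e.1)
    have hxv : ∀ x ∈ W, p' x v = p x v := fun x hx =>
      hadj x v (hW x hx).2 (fun e => (hW x hx).1 e.1) (fun e => (hW x hx).2 e.1)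
    have hxx : ∀ x ∈ W, ∀ z ∈ W, x ≠ z → p' x z = p x z := fun x hx z hz hxz =>
      hadj x z hxz (fun e => (hW x hx).1 e.1) (fun e => (hW x hx).2 e.1)
    have hfu : ∀ S ⊆ W, fw p' (p' u) S = fw p (p u) S := fun S hS => by
      rw [fw_congr p' S (fun x hx => hux x (hS hx))]
      exact fw_congr_p _ S fun x hx z hz hxz => hxx x (hS hx) z (hS hz) hxz
    have hfv : ∀ S ⊆ W, fw p' (p' v) S = fw p (p v) S := fun S hS => by
      rw [fw_congr p' S (fun x hx => hvx x (hS hx))]
      exact fw_congr_p _ S fun x hx z hz hxz => hxx x (hS hx) z (hS hz) hxz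
    have e1 : bex (fun x => p' x u) W (fw p' (p' v)) = bex (fun x => p x u) W (fw p (p v)) :=
      bex_congr hxu fun S hS => hfv S hS
    have e2 : bex (fun x => p' x v) W (fw p' (p' u)) = bex (fun x => p x v) W (fw p (p u)) :=
      bex_congr hxv fun S hS => hfu S hS
    have e3 : ∏ x ∈ W, p' u x = ∏ x ∈ W, p u x := Finset.prod_congr rfl hux
    have e4 : ∏ x ∈ W, p' v x = ∏ x ∈ W, p v x := Finset.prod_congr rfl hvx
    have e5 : ∑ h ∈ W, (p' u h * p' v h * bex (fun x => p' x h) (W.erase h) (vv p' u v)
            + p' u h * (1 - p' v h) * bex (fun x => p' x h) (W.erase h) (fw p' (p' u))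
            + (1 - p' u h) * p' v h * bex (fun x => p' x h) (W.erase h) (fw p' (p' v)))
        = ∑ h ∈ W, (p u h * p v h * bex (fun x => p x h) (W.erase h) (vv p u v)
            + p u h * (1 - p v h) * bex (fun x => p x h) (W.erase h) (fw p (p u))
            + (1 - p u h) * p v h * bex (fun x => p x h) (W.erase h) (fw p (p v)))
          + (p' u v - p u v) * ∑ h ∈ W, p u h * p v h
            * bex (fun x => p x h) (W.erase h) (dw p (p u) (p v)) := by
      rw [Finset.mul_sum, ← Finset.sum_add_distrib]
      refine Finset.sum_congr rfl fun h hh => ?_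
      have hcc : ∀ x ∈ W.erase h, p' x h = p x h := fun x hx =>
        hxx x (Finset.mem_of_mem_erase hx) h hh (Finset.ne_of_mem_erase hx)
      have f1 : bex (fun x => p' x h) (W.erase h) (fw p' (p' u))
          = bex (fun x => p x h) (W.erase h) (fw p (p u)) :=
        bex_congr hcc fun S hS => hfu S (hS.trans (Finset.erase_subset h W))
      have f2 : bex (fun x => p' x h) (W.erase h) (fw p' (p' v))
          = bex (fun x => p x h) (W.erase h) (fw p (p v)) :=
        bex_congr hcc fun S hS => hfv S (hS.trans (Finset.erase_subset h W))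
      have f3 : bex (fun x => p' x h) (W.erase h) (vv p' u v)
          = bex (fun x => p x h) (W.erase h) (vv p u v)
            + (p' u v - p u v) * bex (fun x => p x h) (W.erase h) (dw p (p u) (p v)) := by
        rw [← bex_mul, ← bex_add]
        refine bex_congr hcc fun S hS => ?_
        have hss : S ⊂ W := lt_of_le_of_lt hS (Finset.erase_ssubset hh)
        have := ih S hss (fun e => hu (hss.1 e)) (fun e => hv (hss.1 e))
        linarith
      rw [f1, f2, f3, hux h hh, hvx h hh]
      ring
    rw [e1, e2, e3, e4, e5] at h2
    have hA : ∀ x y : Fin n, x ∉ W → bex (fun z => p z y) W (fw p (p x))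
        = bex (fun z => p z y) W (fun S => if S = ∅ then 0 else fw p (p x) S)
          + ∏ z ∈ W, (1 - p z y) := by
      intro x y _
      rw [← bex_ind, ← bex_add]
      refine bex_congr (fun _ _ => rfl) fun S _ => ?_
      split_ifs with hS
      · rw [hS, fw_empty]
        ring
      · ring
    have hA1 : bex (fun x => p x v) W (fw p (p u)) = aw p (p u) (p v) W + ∏ x ∈ W, p v x := by
      rw [hA u v hu]
      unfold aw
      congr 1
      · exact bex_congr (fun x hx => by linarith [hp x v (hW x hx).2]) fun S _ => rfl
      · exact Finset.prod_congr rfl fun x hx => by linarith [hp x v (hW x hx).2]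
    have hA2 : bex (fun x => p x u) W (fw p (p v)) = aw p (p v) (p u) W + ∏ x ∈ W, p u x := by
      rw [hA v u hv]
      unfold aw
      congr 1
      · exact bex_congr (fun x hx => by linarith [hp x u (hW x hx).1]) fun S _ => rfl
      · exact Finset.prod_congr rfl fun x hx => by linarith [hp x u (hW x hx).1]
    have hq : p v u = 1 - p u v := by linarith [hp u v huv]
    have hq' : p' v u = 1 - p' u v := by linarith [hp' u v huv]
    rw [hA1, hA2, hq] at h1
    rw [hA1, hA2, hq'] at h2
    have h4 : ((W.card : ℝ) + 2) ≠ 0 := by positivity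
    refine mul_left_cancel₀ h4 ?_
    linear_combination h2 - h1 - (p' u v - p u v) * h3

end Q150.Koth
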