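import Pool.Agent.Q150.KothG

/-!
# Manipulability of Randomized King of the Hill
-/

namespace Q150.Koth

open Finset

theorem selProb_rkoth {n : ℕ} (p : Fin n → Fin n → ℝ) (i : Fin n) :
    selProb rkoth p i = gg p Finset.univ i := rfl

theorem univ_eq {n : ℕ} (u v : Fin n) :
    (Finset.univ : Finset (Fin n)) = insert u (insert v ((Finset.univ.erase u).erase v)) := by
  ext x
  by_cases hx : x = u
  · simp [hx]
  · by_cases hx' : x = v
    · simp [hx']
    · simp [hx, hx']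

theorem gain_eq {n : ℕ} {p p' : Fin n → Fin n → ℝ} {u v : Fin n} (hp : IsProb p)
    (hp' : IsProb p') (huv : u ≠ v) (hadj : Adjacent u v p p') :
    selProb rkoth p' u + selProb rkoth p' v - selProb rkoth p u - selProb rkoth p v
      = (p' u v - p u v) * dw p (p u) (p v) ((Finset.univ.erase u).erase v) := by
  have h := vv_sub (fun i j hij => (hp i j hij).2) (fun i j hij => (hp' i j hij).2) huv hadj
    ((Finset.univ.erase u).erase v) (fun h => Finset.notMem_erase u _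
      (Finset.mem_of_mem_erase h)) (Finset.notMem_erase v _)
  unfold vv at h
  rw [← univ_eq u v] at h
  simp only [selProb_rkoth]
  linarith

theorem gain_le {ε : ℝ} (h0 : 0 ≤ ε) (h1 : ε ≤ 1 / 2) {n : ℕ} {p p' : Fin n → Fin n → ℝ}
    {u v : Fin n} (hp : IsProb p) (hn : Near ε p)
    (hp' : IsProb p') (huv : u ≠ v) (hadj : Adjacent u v p p') :
    selProb rkoth p' u + selProb rkoth p' v - selProb rkoth p u - selProb rkoth p v
      ≤ ε / 3 + 2 * ε ^ 2 / 3 := by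
  rw [gain_eq hp hp' huv hadj]
  set W := (Finset.univ.erase u).erase v with hW
  have ha : 1 / 2 ≤ 1 / 2 + ε := by linarith
  have ha1 : 1 / 2 + ε ≤ 1 := by linarith
  have hWu : ∀ x ∈ W, x ≠ u := fun x hx => Finset.ne_of_mem_erase (Finset.mem_of_mem_erase hx)
  have hWv : ∀ x ∈ W, x ≠ v := fun x hx => Finset.ne_of_mem_erase hx
  have hb : ∀ i j, i ≠ j → 1 - (1 / 2 + ε) ≤ p i j ∧ p i j ≤ 1 / 2 + ε := fun i j hij => by
    have := hn i j hij
    rw [Set.mem_Icc] at this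
    constructor <;> linarith [this.1, this.2]
  have hD : dw p (p u) (p v) W ≤ (2 * (1 / 2 + ε) - 1) / 3 :=
    dw_le ha ha1 W (fun x _ z _ hxz => hb x z hxz) (fun x _ z _ hxz => (hp x z hxz).2)
      (fun x hx => hb u x (hWu x hx).symm) fun x hx => hb v x (hWv x hx).symm
  have hD' : dw p (p v) (p u) W ≤ (2 * (1 / 2 + ε) - 1) / 3 :=
    dw_le ha ha1 W (fun x _ z _ hxz => hb x z hxz) (fun x _ z _ hxz => (hp x z hxz).2)
      (fun x hx => hb v x (hWv x hx).symm) fun x hx => hb u x (hWu x hx).symm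
  rw [dw_swap] at hD'
  have hq := hb u v huv
  have hq' := (hp' u v huv).1
  rw [Set.mem_Icc] at hq'
  rcases le_total 0 (p' u v - p u v) with h | h
  · have h2 : (p' u v - p u v) * dw p (p u) (p v) W
        ≤ (p' u v - p u v) * ((2 * (1 / 2 + ε) - 1) / 3) := mul_le_mul_of_nonneg_left hD h
    have h3 : (p' u v - p u v) * ((2 * (1 / 2 + ε) - 1) / 3)
        ≤ (1 / 2 + ε) * ((2 * (1 / 2 + ε) - 1) / 3) :=
      mul_le_mul_of_nonneg_right (by linarith [hq.1, hq'.2]) (by linarith)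
    nlinarith
  · have h2 : (p u v - p' u v) * (-dw p (p u) (p v) W)
        ≤ (p u v - p' u v) * ((2 * (1 / 2 + ε) - 1) / 3) :=
      mul_le_mul_of_nonneg_left hD' (by linarith)
    have h3 : (p u v - p' u v) * ((2 * (1 / 2 + ε) - 1) / 3)
        ≤ (1 / 2 + ε) * ((2 * (1 / 2 + ε) - 1) / 3) :=
      mul_le_mul_of_nonneg_right (by linarith [hq.2, hq'.1]) (by linarith)
    nlinarith

/-- The extremal tournament on three teams: `0` beats `2` and `2` beats `1` with probability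
`1/2 + ε`, and `0` beats `1` with probability `q`. -/
noncomputable def ext3 (ε q : ℝ) (i j : Fin 3) : ℝ :=
  if i = 0 ∧ j = 1 then q
  else if i = 1 ∧ j = 0 then 1 - q
  else if i = 0 ∧ j = 2 then 1 / 2 + ε
  else if i = 2 ∧ j = 0 then 1 / 2 - ε
  else if i = 2 ∧ j = 1 then 1 / 2 + ε
  else 1 / 2 - ε

theorem ext3_isProb {ε q : ℝ} (h0 : 0 ≤ ε) (h1 : ε ≤ 1 / 2) (hq0 : 0 ≤ q) (hq1 : q ≤ 1) :
    IsProb (ext3 ε q) := by
  intro i j hij
  fin_cases i <;> fin_cases j <;> simp [ext3] at hij ⊢ <;>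
    first
      | exact ⟨hq0, hq1⟩
      | exact ⟨hq1, hq0⟩
      | (refine ⟨⟨?_, ?_⟩, ?_⟩ <;> linarith)
      | (constructor <;> linarith)

theorem mem_gains {ε : ℝ} (h0 : 0 ≤ ε) (h1 : ε ≤ 1 / 2) :
    ε / 3 + 2 * ε ^ 2 / 3 ∈ gains rkoth ε := by
  have hp : IsProb (ext3 ε (1 / 2 - ε)) := ext3_isProb h0 h1 (by linarith) (by linarith)
  have hp' : IsProb (ext3 ε 1) := ext3_isProb h0 h1 (by linarith) (by linarith)
  have hadj : Adjacent (0 : Fin 3) 1 (ext3 ε (1 / 2 - ε)) (ext3 ε 1) := by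
    intro i j _ h2 h3
    unfold ext3
    rw [if_neg h2, if_neg h3, if_neg h2, if_neg h3]
  refine ⟨3, ext3 ε (1 / 2 - ε), ext3 ε 1, 0, 1, hp, ?_, hp', by decide, hadj, ?_⟩
  · intro i j hij
    rw [Set.mem_Icc]
    fin_cases i <;> fin_cases j <;> simp [ext3] at hij ⊢ <;>
      (try constructor) <;> linarith
  · rw [gain_eq hp hp' (by decide) hadj]
    have hW : ((Finset.univ.erase (0 : Fin 3)).erase 1) = {2} := by decide
    rw [hW, dw_singleton]
    have e1 : ext3 ε 1 0 1 = 1 := by simp [ext3]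
    have e2 : ext3 ε (1 / 2 - ε) 0 1 = 1 / 2 - ε := by simp [ext3]
    have e3 : ext3 ε (1 / 2 - ε) 0 2 = 1 / 2 + ε := by simp [ext3]
    have e4 : ext3 ε (1 / 2 - ε) 1 2 = 1 / 2 - ε := by simp [ext3]
    rw [e1, e2, e3, e4]
    ring

theorem isGreatest_gains {ε : ℝ} (h0 : 0 ≤ ε) (h1 : ε ≤ 1 / 2) :
    IsGreatest (gains rkoth ε) (ε / 3 + 2 * ε ^ 2 / 3) := by
  refine ⟨mem_gains h0 h1, ?_⟩
  rintro g ⟨n, p, p', u, v, hp, hn, hp', huv, hadj, rfl⟩
  exact gain_le h0 h1 hp hn hp' huv hadj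

end Q150.Koth
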