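import Pool.Agent.Q150.MeshDefs

/-!
# A cheap balanced partition: the cost
-/

namespace Q150.Mesh

/-- The part of the point `(x, y)`. -/
def part (X a s m : ℕ) (x y : ℕ) : Fin 4 :=
  if x + y + 2 ≤ a ∨ (x + y + 1 = a ∧ s ≤ x) then 0
  else if 2 * X ≤ x + y + a ∨ (x + y + a + 1 = 2 * X ∧ X + m ≤ x + a ∧ x + s < X + m) then 1
  else if x < y then 2 else 3

/-- The outer boundary of the part `i`. -/
def outer {X : ℕ} (f : Pt X → Fin 4) (i : Fin 4) : Finset (Pt X) :=
  Finset.univ.filter fun v => f v ≠ i ∧ ∃ u, Nbr u v ∧ f u = i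

lemma lam_le {X : ℕ} (f : Pt X → Fin 4) (v : Pt X) :
    lam f v - 1 ≤ ∑ i, if v ∈ outer f i then 1 else 0 := by
  have h : (net v).image f ⊆ insert (f v) (Finset.univ.filter fun i => v ∈ outer f i) := by
    intro i hi
    obtain ⟨u, hu, rfl⟩ := Finset.mem_image.1 hi
    rw [Finset.mem_insert]
    by_cases he : f u = f v
    · exact Or.inl he
    · right
      rw [Finset.mem_filter]
      refine ⟨Finset.mem_univ _, ?_⟩
      unfold outer
      rw [Finset.mem_filter]
      refine ⟨Finset.mem_univ _, fun h => he h.symm, u, ?_, rfl⟩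
      unfold net at hu
      rw [Finset.mem_filter] at hu
      rcases hu.2 with h | h
      · exact absurd (by rw [h]) he
      · exact h
  have h2 := Finset.card_le_card h
  have h3 := Finset.card_insert_le (f v) (Finset.univ.filter fun i => v ∈ outer f i)
  rw [← Finset.card_filter]
  unfold lam
  omega

lemma cost_le {X : ℕ} (f : Pt X → Fin 4) : cost f ≤ ∑ i, (outer f i).card := by
  unfold cost
  refine (Finset.sum_le_sum fun v _ => lam_le f v).trans ?_
  rw [Finset.sum_comm]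
  refine Finset.sum_le_sum fun i _ => ?_
  rw [← Finset.card_filter]
  exact Finset.card_le_card fun v hv => (Finset.mem_filter.1 hv).2

/-- Antidiagonal pieces. -/
def seg (f : ℕ → ℕ) (lo hi : ℕ) : Finset (ℕ × ℕ) := (Finset.Ico lo hi).image fun x => (x, f x)

lemma seg_card (f : ℕ → ℕ) (lo hi : ℕ) : (seg f lo hi).card ≤ hi - lo := by
  unfold seg
  refine Finset.card_image_le.trans ?_
  simp

lemma mem_seg (f : ℕ → ℕ) (lo hi x y : ℕ) (h : lo ≤ x ∧ x < hi ∧ y = f x) :
    (x, y) ∈ seg f lo hi := by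
  unfold seg
  rw [Finset.mem_image]
  exact ⟨x, Finset.mem_Ico.2 ⟨h.1, h.2.1⟩, by rw [h.2.2]⟩

section

variable {h a s m : ℕ}

/-- The partition. -/
def fpart (h a s m : ℕ) (v : Pt (2 * h)) : Fin 4 := part (2 * h) a s m v.1 v.2

lemma nbr_cases {X : ℕ} {u v : Pt X} (hn : Nbr u v) :
    ((u.1 : ℕ) = v.1 ∧ (u.2 : ℕ) = v.2 + 1) ∨ ((u.1 : ℕ) = v.1 ∧ (u.2 : ℕ) + 1 = v.2) ∨
    ((u.1 : ℕ) = v.1 + 1 ∧ (u.2 : ℕ) = v.2) ∨ ((u.1 : ℕ) + 1 = v.1 ∧ (u.2 : ℕ) = v.2) := by
  unfold Nbr at hn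
  have h1 := abs_nonneg (((u.1 : ℕ) : ℤ) - ((v.1 : ℕ) : ℤ))
  have h2 := abs_nonneg (((u.2 : ℕ) : ℤ) - ((v.2 : ℕ) : ℤ))
  rcases abs_cases (((u.1 : ℕ) : ℤ) - ((v.1 : ℕ) : ℤ)) with ⟨e1, c1⟩ | ⟨e1, c1⟩ <;>
    rcases abs_cases (((u.2 : ℕ) : ℤ) - ((v.2 : ℕ) : ℤ)) with ⟨e2, c2⟩ | ⟨e2, c2⟩ <;>
    rw [e1, e2] at hn <;> omega

lemma card_outer_le (T : Finset (ℕ × ℕ)) (i : Fin 4)
    (hT : ∀ x y x' y' : ℕ, x < 2 * h → y < 2 * h → x' < 2 * h → y' < 2 * h →
      ((x' = x ∧ y' = y + 1) ∨ (x' = x ∧ y' + 1 = y) ∨ (x' = x + 1 ∧ y' = y) ∨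
        (x' + 1 = x ∧ y' = y)) → part (2 * h) a s m x y ≠ i → part (2 * h) a s m x' y' = i →
      (x, y) ∈ T) : (outer (fpart h a s m) i).card ≤ T.card := by
  refine Finset.card_le_card_of_injOn (fun v => ((v.1 : ℕ), (v.2 : ℕ))) ?_ ?_
  · intro v hv
    unfold outer at hv
    rw [Finset.mem_coe, Finset.mem_filter] at hv
    obtain ⟨-, h1, u, hu, h2⟩ := hv
    exact hT _ _ _ _ v.1.2 v.2.2 u.1.2 u.2.2 (nbr_cases hu) h1 h2
  · intro v _ w _ hvw
    simp only [Prod.mk.injEq] at hvw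
    exact Prod.ext (Fin.ext hvw.1) (Fin.ext hvw.2)

variable (hs : 2 * s + 1 ≤ a) (hm : m + (a + 1) / 2 = h) (hms : m ≤ s) (hm1 : 1 ≤ m)

include hs in
lemma outer0 : (outer (fpart h a s m) 0).card ≤ a + 1 := by
  refine (card_outer_le (seg (fun x => a - 1 - x) 0 s ∪ seg (fun x => a - x) s (a + 1)) 0 ?_).trans ?_
  · intro x y x' y' hx hy hx' hy' hn h1 h2
    rw [Finset.mem_union]
    have h1' : ¬ (x + y + 2 ≤ a ∨ (x + y + 1 = a ∧ s ≤ x)) := by
      intro hc; apply h1; unfold part; rw [if_pos hc]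
    have h2' : x' + y' + 2 ≤ a ∨ (x' + y' + 1 = a ∧ s ≤ x') := by
      unfold part at h2
      by_contra hc
      rw [if_neg hc] at h2
      split_ifs at h2 <;> simp at h2
    by_cases hxs : x < s
    · left; apply mem_seg; omega
    · right; apply mem_seg; omega
  · refine (Finset.card_union_le _ _).trans ?_
    have e1 := seg_card (fun x => a - 1 - x) 0 s
    have e2 := seg_card (fun x => a - x) s (a + 1)
    omega

lemma part_one_iff (X a s m x y : ℕ) : part X a s m x y = 1 ↔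
    ¬ (x + y + 2 ≤ a ∨ (x + y + 1 = a ∧ s ≤ x)) ∧
    (2 * X ≤ x + y + a ∨ (x + y + a + 1 = 2 * X ∧ X + m ≤ x + a ∧ x + s < X + m)) := by
  unfold part
  by_cases c1 : x + y + 2 ≤ a ∨ (x + y + 1 = a ∧ s ≤ x)
  · rw [if_pos c1]; simp [c1]
  · rw [if_neg c1]
    by_cases c2 : 2 * X ≤ x + y + a ∨ (x + y + a + 1 = 2 * X ∧ X + m ≤ x + a ∧ x + s < X + m)
    · rw [if_pos c2]; simp only [true_iff]; exact ⟨c1, c2⟩
    · rw [if_neg c2]
      constructor
      · intro hh; split_ifs at hh <;> simp at hh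
      · intro hh; exact absurd hh.2 c2

lemma part_two_iff (X a s m x y : ℕ) : part X a s m x y = 2 ↔
    ¬ (x + y + 2 ≤ a ∨ (x + y + 1 = a ∧ s ≤ x)) ∧
    ¬ (2 * X ≤ x + y + a ∨ (x + y + a + 1 = 2 * X ∧ X + m ≤ x + a ∧ x + s < X + m)) ∧ x < y := by
  unfold part
  by_cases c1 : x + y + 2 ≤ a ∨ (x + y + 1 = a ∧ s ≤ x)
  · rw [if_pos c1]; simp [c1]
  · rw [if_neg c1]
    by_cases c2 : 2 * X ≤ x + y + a ∨ (x + y + a + 1 = 2 * X ∧ X + m ≤ x + a ∧ x + s < X + m)
    · rw [if_pos c2]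
      constructor
      · intro hh; simp at hh
      · intro hh; exact absurd c2 hh.2.1
    · rw [if_neg c2]
      by_cases c3 : x < y
      · rw [if_pos c3]; simp only [true_iff]; exact ⟨c1, c2, c3⟩
      · rw [if_neg c3]
        constructor
        · intro hh; simp at hh
        · intro hh; exact absurd hh.2.2 c3

lemma part_three_iff (X a s m x y : ℕ) : part X a s m x y = 3 ↔
    ¬ (x + y + 2 ≤ a ∨ (x + y + 1 = a ∧ s ≤ x)) ∧
    ¬ (2 * X ≤ x + y + a ∨ (x + y + a + 1 = 2 * X ∧ X + m ≤ x + a ∧ x + s < X + m)) ∧ ¬ x < y := by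
  unfold part
  by_cases c1 : x + y + 2 ≤ a ∨ (x + y + 1 = a ∧ s ≤ x)
  · rw [if_pos c1]; simp [c1]
  · rw [if_neg c1]
    by_cases c2 : 2 * X ≤ x + y + a ∨ (x + y + a + 1 = 2 * X ∧ X + m ≤ x + a ∧ x + s < X + m)
    · rw [if_pos c2]
      constructor
      · intro hh; simp at hh
      · intro hh; exact absurd c2 hh.2.1
    · rw [if_neg c2]
      by_cases c3 : x < y
      · rw [if_pos c3]
        constructor
        · intro hh; simp at hh
        · intro hh; exact absurd c3 hh.2.2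
      · rw [if_neg c3]; simp only [true_iff]; exact ⟨c1, c2, c3⟩

lemma part_zero_iff (X a s m x y : ℕ) : part X a s m x y = 0 ↔
    (x + y + 2 ≤ a ∨ (x + y + 1 = a ∧ s ≤ x)) := by
  unfold part
  by_cases c1 : x + y + 2 ≤ a ∨ (x + y + 1 = a ∧ s ≤ x)
  · rw [if_pos c1]; simp [c1]
  · rw [if_neg c1]
    constructor
    · intro hh; split_ifs at hh <;> simp at hh
    · intro hh; exact absurd hh c1

include hs hm hms hm1 in
lemma outer1 : (outer (fpart h a s m) 1).card ≤ a + 1 := by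
  refine (card_outer_le (seg (fun x => 4 * h - 1 - a - x) (2 * h - a) (2 * h - a + m) ∪
    (seg (fun x => 4 * h - 2 - a - x) (2 * h - a + m - 1) (2 * h - s + m) ∪
    seg (fun x => 4 * h - 1 - a - x) (2 * h - s + m) (2 * h))) 1 ?_).trans ?_
  · intro x y x' y' hx hy hx' hy' hn h1 h2
    rw [Ne, part_one_iff] at h1
    rw [part_one_iff] at h2
    rw [Finset.mem_union, Finset.mem_union]
    by_cases c1 : x + y + a + 1 = 2 * (2 * h)
    · by_cases c2 : x + a < 2 * h + m
      · left; apply mem_seg; omega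
      · right; right; apply mem_seg; omega
    · right; left; apply mem_seg; omega
  · refine (Finset.card_union_le _ _).trans ?_
    have e0 := Finset.card_union_le
      (seg (fun x => 4 * h - 2 - a - x) (2 * h - a + m - 1) (2 * h - s + m))
      (seg (fun x => 4 * h - 1 - a - x) (2 * h - s + m) (2 * h))
    have e1 := seg_card (fun x => 4 * h - 1 - a - x) (2 * h - a) (2 * h - a + m)
    have e2 := seg_card (fun x => 4 * h - 2 - a - x) (2 * h - a + m - 1) (2 * h - s + m)
    have e3 := seg_card (fun x => 4 * h - 1 - a - x) (2 * h - s + m) (2 * h)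
    omega

include hs hm hms hm1 in
lemma outer2 : (outer (fpart h a s m) 2).card ≤ 2 * h := by
  refine (card_outer_le (seg (fun x => a - 2 - x) 0 s ∪
    (seg (fun x => a - 1 - x) s ((a + 1) / 2) ∪
    (seg (fun x => x) ((a + 1) / 2) (2 * h - (a + 1) / 2) ∪
    (seg (fun x => 4 * h - a - x) (2 * h - a + 1) (2 * h - a + m + 1) ∪
    seg (fun x => 4 * h - 1 - a - x) (2 * h - a + m) (2 * h - a / 2))))) 2 ?_).trans ?_
  · intro x y x' y' hx hy hx' hy' hn h1 h2
    rw [Ne, part_two_iff] at h1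
    rw [part_two_iff] at h2
    simp only [Finset.mem_union]
    by_cases c1 : x + y + 2 ≤ a
    · left; apply mem_seg; omega
    · by_cases c2 : x + y + 1 = a
      · right; left; apply mem_seg; omega
      · by_cases c3 : 2 * (2 * h) ≤ x + y + a
        · right; right; right; left; apply mem_seg; omega
        · by_cases c4 : x + y + a + 1 = 2 * (2 * h)
          · right; right; right; right; apply mem_seg; omega
          · right; right; left; apply mem_seg; omega
  · refine (Finset.card_union_le _ _).trans ?_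
    have f1 := Finset.card_union_le (seg (fun x => a - 1 - x) s ((a + 1) / 2))
      (seg (fun x => x) ((a + 1) / 2) (2 * h - (a + 1) / 2) ∪
      (seg (fun x => 4 * h - a - x) (2 * h - a + 1) (2 * h - a + m + 1) ∪
      seg (fun x => 4 * h - 1 - a - x) (2 * h - a + m) (2 * h - a / 2)))
    have f2 := Finset.card_union_le (seg (fun x => x) ((a + 1) / 2) (2 * h - (a + 1) / 2))
      (seg (fun x => 4 * h - a - x) (2 * h - a + 1) (2 * h - a + m + 1) ∪
      seg (fun x => 4 * h - 1 - a - x) (2 * h - a + m) (2 * h - a / 2))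
    have f3 := Finset.card_union_le
      (seg (fun x => 4 * h - a - x) (2 * h - a + 1) (2 * h - a + m + 1))
      (seg (fun x => 4 * h - 1 - a - x) (2 * h - a + m) (2 * h - a / 2))
    have e1 := seg_card (fun x => a - 2 - x) 0 s
    have e2 := seg_card (fun x => a - 1 - x) s ((a + 1) / 2)
    have e3 := seg_card (fun x => x) ((a + 1) / 2) (2 * h - (a + 1) / 2)
    have e4 := seg_card (fun x => 4 * h - a - x) (2 * h - a + 1) (2 * h - a + m + 1)
    have e5 := seg_card (fun x => 4 * h - 1 - a - x) (2 * h - a + m) (2 * h - a / 2)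
    omega

include hs hm hms hm1 in
lemma outer3 : (outer (fpart h a s m) 3).card ≤ 2 * h + 1 := by
  refine (card_outer_le (seg (fun x => a - 1 - x) ((a + 1) / 2 - 1) a ∪
    (seg (fun x => x + 1) (a / 2) (2 * h - 1 - a / 2) ∪
    (seg (fun x => 4 * h - 1 - a - x) (2 * h - 1 - a / 2) (2 * h - s + m) ∪
    seg (fun x => 4 * h - a - x) (2 * h - s + m) (2 * h)))) 3 ?_).trans ?_
  · intro x y x' y' hx hy hx' hy' hn h1 h2
    rw [Ne, part_three_iff] at h1
    rw [part_three_iff] at h2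
    simp only [Finset.mem_union]
    by_cases c2 : x + y + 1 = a
    · left; apply mem_seg; omega
    · by_cases c3 : 2 * (2 * h) ≤ x + y + a
      · right; right; right; apply mem_seg; omega
      · by_cases c4 : x + y + a + 1 = 2 * (2 * h)
        · right; right; left; apply mem_seg; omega
        · right; left; apply mem_seg; omega
  · refine (Finset.card_union_le _ _).trans ?_
    have f1 := Finset.card_union_le (seg (fun x => x + 1) (a / 2) (2 * h - 1 - a / 2))
      (seg (fun x => 4 * h - 1 - a - x) (2 * h - 1 - a / 2) (2 * h - s + m) ∪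
      seg (fun x => 4 * h - a - x) (2 * h - s + m) (2 * h))
    have f2 := Finset.card_union_le
      (seg (fun x => 4 * h - 1 - a - x) (2 * h - 1 - a / 2) (2 * h - s + m))
      (seg (fun x => 4 * h - a - x) (2 * h - s + m) (2 * h))
    have e1 := seg_card (fun x => a - 1 - x) ((a + 1) / 2 - 1) a
    have e2 := seg_card (fun x => x + 1) (a / 2) (2 * h - 1 - a / 2)
    have e3 := seg_card (fun x => 4 * h - 1 - a - x) (2 * h - 1 - a / 2) (2 * h - s + m)
    have e4 := seg_card (fun x => 4 * h - a - x) (2 * h - s + m) (2 * h)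
    omega

include hs hm hms hm1 in
lemma cost_fpart : cost (fpart h a s m) ≤ 4 * h + 2 * a + 3 := by
  refine (cost_le _).trans ?_
  rw [Fin.sum_univ_four]
  have h0 := outer0 (h := h) (m := m) hs
  have h1 := outer1 hs hm hms hm1
  have h2 := outer2 hs hm hms hm1
  have h3 := outer3 hs hm hms hm1
  omega

end

end Q150.Mesh
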