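import Pool.Agent.Q150.MeshA

/-!
# A cheap balanced partition: the balance
-/

namespace Q150.Mesh

lemma seg_card_eq (f : ℕ → ℕ) (lo hi : ℕ) : (seg f lo hi).card = hi - lo := by
  unfold seg
  rw [Finset.card_image_of_injective _ (fun x y h => (Prod.mk.inj h).1)]
  simp

lemma mem_seg_iff (f : ℕ → ℕ) (lo hi : ℕ) (p : ℕ × ℕ) :
    p ∈ seg f lo hi ↔ lo ≤ p.1 ∧ p.1 < hi ∧ p.2 = f p.1 := by
  unfold seg
  rw [Finset.mem_image]
  constructor
  · rintro ⟨x, hx, rfl⟩
    rw [Finset.mem_Ico] at hx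
    exact ⟨hx.1, hx.2, rfl⟩
  · rintro ⟨h1, h2, h3⟩
    exact ⟨p.1, Finset.mem_Ico.2 ⟨h1, h2⟩, Prod.ext rfl h3.symm⟩

/-- The mesh as a subset of `ℕ × ℕ`. -/
def box (X : ℕ) : Finset (ℕ × ℕ) := Finset.range X ×ˢ Finset.range X

lemma mem_box (X : ℕ) (p : ℕ × ℕ) : p ∈ box X ↔ p.1 < X ∧ p.2 < X := by
  unfold box; simp

/-- The points of the part `i`. -/
def K (X a s m : ℕ) (i : Fin 4) : Finset (ℕ × ℕ) :=
  (box X).filter fun p => part X a s m p.1 p.2 = i

lemma card_fin (h a s m : ℕ) (i : Fin 4) :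
    (Finset.univ.filter fun v : Pt (2 * h) => fpart h a s m v = i).card =
      (K (2 * h) a s m i).card := by
  refine Finset.card_bij (fun v _ => ((v.1 : ℕ), (v.2 : ℕ))) ?_ ?_ ?_
  · intro v hv
    rw [Finset.mem_filter] at hv
    unfold K
    rw [Finset.mem_filter, mem_box]
    exact ⟨⟨v.1.2, v.2.2⟩, hv.2⟩
  · intro v _ w _ hvw
    simp only [Prod.mk.injEq] at hvw
    exact Prod.ext (Fin.ext hvw.1) (Fin.ext hvw.2)
  · intro p hp
    unfold K at hp
    rw [Finset.mem_filter, mem_box] at hp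
    refine ⟨(⟨p.1, hp.1.1⟩, ⟨p.2, hp.1.2⟩), ?_, rfl⟩
    rw [Finset.mem_filter]
    exact ⟨Finset.mem_univ _, hp.2⟩

lemma K_sum (X a s m : ℕ) : ∑ i, (K X a s m i).card = X ^ 2 := by
  unfold K
  rw [← Finset.card_eq_sum_card_fiberwise (f := fun p : ℕ × ℕ => part X a s m p.1 p.2)
    (t := Finset.univ) (fun _ _ => by simp)]
  unfold box
  rw [Finset.card_product, Finset.card_range, sq]

lemma tri_sum (n : ℕ) : 2 * ∑ k ∈ Finset.range n, (k + 1) = n * (n + 1) := by
  induction n with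
  | zero => simp
  | succ n ih => rw [Finset.sum_range_succ, mul_add, ih]; ring

/-- The full corner triangle. -/
def tri (a : ℕ) : Finset (ℕ × ℕ) := (Finset.range (a - 1)).biUnion Finset.HasAntidiagonal.antidiagonal

lemma mem_tri (a : ℕ) (p : ℕ × ℕ) : p ∈ tri a ↔ p.1 + p.2 + 2 ≤ a := by
  unfold tri
  rw [Finset.mem_biUnion]
  constructor
  · rintro ⟨k, hk, hp⟩
    rw [Finset.mem_range] at hk
    rw [Finset.HasAntidiagonal.mem_antidiagonal] at hp
    omega
  · intro hp
    refine ⟨p.1 + p.2, ?_, ?_⟩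
    · rw [Finset.mem_range]; omega
    · rw [Finset.HasAntidiagonal.mem_antidiagonal]

lemma card_tri (a : ℕ) : 2 * (tri a).card = (a - 1) * (a - 1 + 1) := by
  unfold tri
  rw [Finset.card_biUnion]
  · simp only [Finset.Nat.card_antidiagonal]
    exact tri_sum _
  · intro i _ j _ hij
    show Disjoint _ _
    rw [Finset.disjoint_left]
    intro p hp hq
    rw [Finset.HasAntidiagonal.mem_antidiagonal] at hp hq
    exact hij (hp.symm.trans hq)

section

variable {h a s m : ℕ}

variable (hs : 2 * s + 1 ≤ a) (hm : m + (a + 1) / 2 = h) (hms : m ≤ s) (hm1 : 1 ≤ m)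

include hm hm1 in
lemma card_K0 : (K (2 * h) a s m 0).card = (tri a).card + (a - s) := by
  have h1 : K (2 * h) a s m 0 = tri a ∪ seg (fun x => a - 1 - x) s a := by
    ext p
    unfold K
    rw [Finset.mem_filter, mem_box, part_zero_iff, Finset.mem_union, mem_tri, mem_seg_iff]
    omega
  rw [h1, Finset.card_union_of_disjoint, seg_card_eq]
  rw [Finset.disjoint_left]
  intro p hp hq
  rw [mem_tri] at hp
  rw [mem_seg_iff] at hq
  omega

include hs hm hms hm1 in
lemma card_K1 : (K (2 * h) a s m 1).card = (tri a).card + (a - s) := by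
  have h1 : K (2 * h) a s m 1 =
      (tri a).image (fun p => (2 * h - 1 - p.1, 2 * h - 1 - p.2)) ∪
        seg (fun x => 4 * h - 1 - a - x) (2 * h + m - a) (2 * h + m - s) := by
    ext p
    unfold K
    rw [Finset.mem_filter, mem_box, part_one_iff, Finset.mem_union, Finset.mem_image, mem_seg_iff]
    constructor
    · rintro ⟨⟨h1, h2⟩, h3, h4⟩
      rcases h4 with h4 | h4
      · left
        refine ⟨(2 * h - 1 - p.1, 2 * h - 1 - p.2), ?_, ?_⟩
        · rw [mem_tri]; dsimp only; omega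
        · ext <;> dsimp only <;> omega
      · right; omega
    · rintro (⟨q, hq, rfl⟩ | h5)
      · rw [mem_tri] at hq
        dsimp only
        omega
      · omega
  rw [h1, Finset.card_union_of_disjoint, seg_card_eq, Finset.card_image_of_injOn]
  · omega
  · intro p hp q hq hpq
    rw [Finset.mem_coe, mem_tri] at hp hq
    simp only [Prod.mk.injEq] at hpq
    ext <;> omega
  · rw [Finset.disjoint_left]
    intro p hp hq
    rw [Finset.mem_image] at hp
    obtain ⟨r, hr, rfl⟩ := hp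
    rw [mem_tri] at hr
    rw [mem_seg_iff] at hq
    dsimp only at hq
    omega

/-- The part of the band above the diagonal. -/
def C0 (X a : ℕ) : Finset (ℕ × ℕ) :=
  (box X).filter fun p => p.1 < p.2 ∧ a ≤ p.1 + p.2 ∧ p.1 + p.2 + a + 2 ≤ 2 * X

lemma mem_C0 (X a : ℕ) (p : ℕ × ℕ) : p ∈ C0 X a ↔
    (p.1 < X ∧ p.2 < X) ∧ p.1 < p.2 ∧ a ≤ p.1 + p.2 ∧ p.1 + p.2 + a + 2 ≤ 2 * X := by
  unfold C0
  rw [Finset.mem_filter, mem_box]

include hs hm hms hm1 in
lemma card_K2 : (K (2 * h) a s m 2).card = (C0 (2 * h) a).card + s + m := by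
  have h1 : K (2 * h) a s m 2 = C0 (2 * h) a ∪ (seg (fun x => a - 1 - x) 0 s ∪
      seg (fun x => 4 * h - 1 - a - x) (2 * h - a) (2 * h - a + m)) := by
    ext p
    unfold K
    rw [Finset.mem_filter, mem_box, part_two_iff, Finset.mem_union, Finset.mem_union, mem_C0,
      mem_seg_iff, mem_seg_iff]
    omega
  rw [h1, Finset.card_union_of_disjoint, Finset.card_union_of_disjoint, seg_card_eq, seg_card_eq]
  · omega
  · rw [Finset.disjoint_left]
    intro p hp hq
    rw [mem_seg_iff] at hp hq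
    omega
  · rw [Finset.disjoint_left]
    intro p hp hq
    rw [mem_C0] at hp
    rw [Finset.mem_union, mem_seg_iff, mem_seg_iff] at hq
    omega

include hs hm hms hm1 in
lemma card_K3 : (K (2 * h) a s m 3).card = (C0 (2 * h) a).card + s + m := by
  have h1 : K (2 * h) a s m 3 = (C0 (2 * h) a).image Prod.swap ∪
      (seg (fun x => x) ((a + 1) / 2) (2 * h - (a + 1) / 2) ∪
      seg (fun x => 4 * h - 1 - a - x) (2 * h + m - s) (2 * h)) := by
    ext p
    unfold K
    rw [Finset.mem_filter, mem_box, part_three_iff, Finset.mem_union, Finset.mem_union,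
      mem_seg_iff, mem_seg_iff]
    have h2 : p ∈ (C0 (2 * h) a).image Prod.swap ↔ p.swap ∈ C0 (2 * h) a := by
      rw [Finset.mem_image]
      constructor
      · rintro ⟨q, hq, rfl⟩
        rw [Prod.swap_swap]; exact hq
      · intro hq
        exact ⟨p.swap, hq, Prod.swap_swap p⟩
    rw [h2, mem_C0, Prod.fst_swap, Prod.snd_swap]
    omega
  have h2 : ∀ p, p ∈ (C0 (2 * h) a).image Prod.swap → p.2 < p.1 ∧ a ≤ p.1 + p.2 ∧
      p.1 + p.2 + a + 2 ≤ 4 * h := by
    intro p hp
    rw [Finset.mem_image] at hp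
    obtain ⟨q, hq, rfl⟩ := hp
    rw [mem_C0] at hq
    rw [Prod.fst_swap, Prod.snd_swap]
    omega
  rw [h1, Finset.card_union_of_disjoint, Finset.card_union_of_disjoint, seg_card_eq, seg_card_eq,
    Finset.card_image_of_injective _ Prod.swap_injective]
  · omega
  · rw [Finset.disjoint_left]
    intro p hp hq
    rw [mem_seg_iff] at hp hq
    omega
  · rw [Finset.disjoint_left]
    intro p hp hq
    have h3 := h2 p hp
    rw [Finset.mem_union, mem_seg_iff, mem_seg_iff] at hq
    omega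

include hs hm hms hm1 in
lemma balanced_fpart (haa : a * (a + 1) = 2 * h * h + 2 * s) : Balanced (fpart h a s m) := by
  have k0 := card_K0 (s := s) hm hm1
  have k1 := card_K1 hs hm hms hm1
  have k2 := card_K2 hs hm hms hm1
  have k3 := card_K3 hs hm hms hm1
  have ksum := K_sum (2 * h) a s m
  rw [Fin.sum_univ_four] at ksum
  have ht := card_tri a
  obtain ⟨b, rfl⟩ : ∃ b, a = b + 1 := ⟨a - 1, by omega⟩
  rw [Nat.add_sub_cancel] at ht
  have e0 : (K (2 * h) (b + 1) s m 0).card = h * h := by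
    have : b * (b + 1) + 2 * (b + 1) = 2 * (h * h) + 2 * s := by nlinarith
    omega
  have e1 : (K (2 * h) (b + 1) s m 1).card = h * h := by omega
  have hsq : (2 * h) ^ 2 = 4 * (h * h) := by ring
  rw [hsq] at ksum
  have e2 : (K (2 * h) (b + 1) s m 2).card = h * h := by omega
  have e3 : (K (2 * h) (b + 1) s m 3).card = h * h := by omega
  intro i
  rw [card_fin, hsq]
  fin_cases i
  · exact congrArg (4 * ·) e0
  · exact congrArg (4 * ·) e1
  · exact congrArg (4 * ·) e2
  · exact congrArg (4 * ·) e3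

end

/-- The general bound. -/
theorem general (h a s : ℕ) (haa : a * (a + 1) = 2 * h * h + 2 * s) (hs : 2 * s + 1 ≤ a)
    (h1 : (a + 1) / 2 + 1 ≤ h) (h2 : h ≤ s + (a + 1) / 2) :
    ∃ f : Pt (2 * h) → Fin 4, Balanced f ∧ cost f ≤ 4 * h + 2 * a + 3 := by
  have hm : (h - (a + 1) / 2) + (a + 1) / 2 = h := by omega
  have hms : h - (a + 1) / 2 ≤ s := by omega
  have hm1 : 1 ≤ h - (a + 1) / 2 := by omega
  exact ⟨fpart h a s (h - (a + 1) / 2), balanced_fpart hs hm hms hm1 haa,
    cost_fpart hs hm hms hm1⟩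

lemma V_le {X c : ℕ} (h : ∃ f : Pt X → Fin 4, Balanced f ∧ cost f ≤ c) : V X ≤ c := by
  obtain ⟨f, hf, hc⟩ := h
  have h1 : cost f ∈ {c | ∃ f : Pt X → Fin 4, Balanced f ∧ cost f = c} := ⟨f, hf, rfl⟩
  exact (Nat.sInf_le h1).trans hc

theorem m64 : ∃ f : Pt 64 → Fin 4, Balanced f ∧ cost f ≤ 221 :=
  general 32 45 11 (by norm_num) (by norm_num) (by norm_num) (by norm_num)

theorem m256 : ∃ f : Pt 256 → Fin 4, Balanced f ∧ cost f ≤ 877 :=
  general 128 181 87 (by norm_num) (by norm_num) (by norm_num) (by norm_num)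

theorem m1024 : ∃ f : Pt 1024 → Fin 4, Balanced f ∧ cost f ≤ 3499 :=
  general 512 724 306 (by norm_num) (by norm_num) (by norm_num) (by norm_num)

theorem m2048 : ∃ f : Pt 2048 → Fin 4, Balanced f ∧ cost f ≤ 6995 :=
  general 1024 1448 500 (by norm_num) (by norm_num) (by norm_num) (by norm_num)

end Q150.Mesh
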