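import Mathlib

/-!
# Partitions of the five-point stencil mesh: definitions
-/

namespace Q150.Mesh

/-- The points of the `X × X` mesh. -/
abbrev Pt (X : ℕ) : Type := Fin X × Fin X

/-- Two points of the mesh are neighbours iff their `ℓ¹` distance is `1`. -/
def Nbr {X : ℕ} (u v : Pt X) : Prop :=
  |((u.1 : ℕ) : ℤ) - ((v.1 : ℕ) : ℤ)| + |((u.2 : ℕ) : ℤ) - ((v.2 : ℕ) : ℤ)| = 1

instance {X : ℕ} (u v : Pt X) : Decidable (Nbr u v) := by unfold Nbr; infer_instance

/-- The net of `v`: the point `v` and its neighbours. -/
def net {X : ℕ} (v : Pt X) : Finset (Pt X) := Finset.univ.filter fun u => u = v ∨ Nbr u v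

/-- The number of parts that meet the net of `v`; a 4-way partition is given by the function `f`
which assigns to every point its part. -/
def lam {X : ℕ} (f : Pt X → Fin 4) (v : Pt X) : ℕ := ((net v).image f).card

/-- The cost of a 4-way partition (connectivity minus one metric). -/
def cost {X : ℕ} (f : Pt X → Fin 4) : ℕ := ∑ v, (lam f v - 1)

/-- Perfectly balanced: every part has `X² / 4` points. -/
def Balanced {X : ℕ} (f : Pt X → Fin 4) : Prop :=
  ∀ i, 4 * (Finset.univ.filter fun v => f v = i).card = X ^ 2

/-- The minimum cost over all perfectly balanced 4-way partitions. -/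
noncomputable def V (X : ℕ) : ℕ := sInf {c | ∃ f : Pt X → Fin 4, Balanced f ∧ cost f = c}

end Q150.Mesh
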