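import Pool.Agent.Q150.NetData

/-! # Common net: general lemmas and checks -/

namespace Pool.Agent.Q150.Net

theorem mem_net {c : ℤ × ℤ} : c ∈ net ↔ c ∈ cells := by
  unfold net; exact List.mem_toFinset

/-- The unit square with normal axis `k` and lowest corner `p`. -/
def sqr (k : Fin 3) (p : Fin 3 → ℤ) : Set (Fin 3 → ℤ) :=
  {q | q k = p k ∧ ∀ i, i ≠ k → q i = p i ∨ q i = p i + 1}

theorem sqr_inj {k k' : Fin 3} {p p' : Fin 3 → ℤ} (h : sqr k p = sqr k' p') :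
    k = k' ∧ p = p' := by
  have h1 : p ∈ sqr k' p' := by rw [← h]; exact ⟨rfl, fun i _ => Or.inl rfl⟩
  have h2 : p' ∈ sqr k p := by rw [h]; exact ⟨rfl, fun i _ => Or.inl rfl⟩
  have hp : p = p' := by
    funext i
    have e1 : p i = p' i ∨ p i = p' i + 1 := by
      by_cases hi : i = k'
      · subst hi; exact Or.inl h1.1
      · exact h1.2 i hi
    have e2 : p' i = p i ∨ p' i = p i + 1 := by
      by_cases hi : i = k
      · subst hi; exact Or.inl h2.1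
      · exact h2.2 i hi
    omega
  subst hp
  refine ⟨?_, rfl⟩
  by_contra hk
  have h3 : Function.update p k' (p k' + 1) ∈ sqr k p := by
    refine ⟨?_, fun i hi => ?_⟩
    · rw [Function.update_of_ne hk]
    · by_cases hik : i = k'
      · subst hik; right; simp
      · left; rw [Function.update_of_ne hik]
  rw [h] at h3
  have := h3.1
  simp at this

/-- Finite check that the image of a list of vertices is the square `sqr k p`. -/
def chk (f : ℤ × ℤ → Fin 3 → ℤ) (c : ℤ × ℤ) (k : Fin 3) (p : Fin 3 → ℤ) : Prop :=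
  (∀ v ∈ corners c, f v k = p k ∧ ∀ i, i ≠ k → f v i = p i ∨ f v i = p i + 1) ∧
  ∀ s : Fin 3 → Fin 2, s k = 0 → ∃ v ∈ corners c, ∀ i, f v i = p i + ((s i : ℕ) : ℤ)

instance (f : ℤ × ℤ → Fin 3 → ℤ) (c : ℤ × ℤ) (k : Fin 3) (p : Fin 3 → ℤ) :
    Decidable (chk f c k p) := by unfold chk; infer_instance

theorem image_of_chk {f : ℤ × ℤ → Fin 3 → ℤ} {c : ℤ × ℤ} {k : Fin 3} {p : Fin 3 → ℤ}
    (h : chk f c k p) : f '' (corners c : Set (ℤ × ℤ)) = sqr k p := by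
  ext q
  constructor
  · rintro ⟨v, hv, rfl⟩
    exact h.1 v (by simpa using hv)
  · intro hq
    obtain ⟨v, hv, hv2⟩ := h.2 (fun i => if q i = p i then 0 else 1) (by simp [hq.1])
    refine ⟨v, by simpa using hv, ?_⟩
    funext i
    rw [hv2 i]
    by_cases hi : q i = p i
    · simp [hi]
    · have hk : i ≠ k := fun e => hi (e ▸ hq.1)
      have := (hq.2 i hk).resolve_left hi
      simp [hi, this]

theorem isFaceSquare_iff {d : Fin 3 → ℤ} {T : Set (Fin 3 → ℤ)} :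
    IsFaceSquare d T ↔ ∃ (k : Fin 3) (p : Fin 3 → ℤ), (p k = 0 ∨ p k = d k) ∧
      (∀ i, i ≠ k → 0 ≤ p i ∧ p i < d i) ∧ T = sqr k p := Iff.rfl

instance (d : Fin 3 → ℤ) (k : Fin 3) (p : Fin 3 → ℤ) :
    Decidable ((p k = 0 ∨ p k = d k) ∧ ∀ i, i ≠ k → 0 ≤ p i ∧ p i < d i) := by infer_instance

/-- General folding lemma. -/
theorem folding_of_checks (d : Fin 3 → ℤ) (f : ℤ × ℤ → Fin 3 → ℤ)
    (ax : ℤ × ℤ → Fin 3) (lo : ℤ × ℤ → Fin 3 → ℤ)
    (h1 : ∀ c ∈ cells, ∀ u ∈ corners c, ∀ v ∈ corners c, sq3 (f u) (f v) = sq2 u v)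
    (h2 : ∀ c ∈ cells, chk f c (ax c) (lo c))
    (h3 : ∀ c ∈ cells, (lo c (ax c) = 0 ∨ lo c (ax c) = d (ax c)) ∧
      ∀ i, i ≠ ax c → 0 ≤ lo c i ∧ lo c i < d i)
    (h4 : ∀ c ∈ cells, ∀ c' ∈ cells, ax c = ax c' → lo c = lo c' → c = c')
    (h5 : ∀ (k : Fin 3) (p : Fin 3 → ℤ), (p k = 0 ∨ p k = d k) →
      (∀ i, i ≠ k → 0 ≤ p i ∧ p i < d i) → ∃ c ∈ cells, ax c = k ∧ lo c = p) :
    IsFolding net d f where
  isometric c hc := h1 c (mem_net.1 hc)
  onSurface c hc := by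
    have hc := mem_net.1 hc
    exact ⟨ax c, lo c, (h3 c hc).1, (h3 c hc).2, image_of_chk (h2 c hc)⟩
  once c hc c' hc' h := by
    have hc := mem_net.1 hc
    have hc' := mem_net.1 hc'
    rw [image_of_chk (h2 c hc), image_of_chk (h2 c' hc')] at h
    exact h4 c hc c' hc' (sqr_inj h).1 (sqr_inj h).2
  covers T hT := by
    obtain ⟨k, p, e1, e2, e3⟩ := hT
    obtain ⟨c, hc, e4, e5⟩ := h5 k p e1 e2
    refine ⟨c, mem_net.2 hc, ?_⟩
    rw [image_of_chk (h2 c hc), e4, e5]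
    exact e3.symm

end Pool.Agent.Q150.Net
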