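import Pool.Agent.Q150.NetA

/-! # Common net: the two foldings -/

namespace Pool.Agent.Q150.Net

set_option maxRecDepth 100000

/-- The box `1 × 11 × 3`. -/
def boxA : Fin 3 → ℤ := ![1, 11, 3]

/-- The box `5 × 7 × 1`. -/
def boxB : Fin 3 → ℤ := ![5, 7, 1]

theorem isoA : ∀ c ∈ cells, ∀ u ∈ corners c, ∀ v ∈ corners c,
    sq3 (foldA u) (foldA v) = sq2 u v := by
  decide +kernel

theorem isoB : ∀ c ∈ cells, ∀ u ∈ corners c, ∀ v ∈ corners c,
    sq3 (foldB u) (foldB v) = sq2 u v := by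
  decide +kernel

theorem chkA : ∀ c ∈ cells, chk foldA c (axA c) (loA c) := by
  decide +kernel

theorem chkB : ∀ c ∈ cells, chk foldB c (axB c) (loB c) := by
  decide +kernel

theorem faceA : ∀ c ∈ cells, (loA c (axA c) = 0 ∨ loA c (axA c) = boxA (axA c)) ∧
      ∀ i, i ≠ axA c → 0 ≤ loA c i ∧ loA c i < boxA i := by
  decide +kernel

theorem faceB : ∀ c ∈ cells, (loB c (axB c) = 0 ∨ loB c (axB c) = boxB (axB c)) ∧
      ∀ i, i ≠ axB c → 0 ≤ loB c i ∧ loB c i < boxB i := by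
  decide +kernel

theorem injA : ∀ c ∈ cells, ∀ c' ∈ cells, axA c = axA c' → loA c = loA c' → c = c' := by
  decide +kernel

theorem injB : ∀ c ∈ cells, ∀ c' ∈ cells, axB c = axB c' → loB c = loB c' → c = c' := by
  decide +kernel

end Pool.Agent.Q150.Net
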