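import Pool.Agent.Q150.NetB

/-! # Common net: covering, and the two foldings -/

namespace Pool.Agent.Q150.Net

set_option maxRecDepth 100000

theorem coverA : ∀ a : Fin 2, ∀ b : Fin 12, ∀ c : Fin 4, ∀ k : Fin 3,
    ((![(a.val : ℤ), (b.val : ℤ), (c.val : ℤ)] : Fin 3 → ℤ) k = 0 ∨
      (![(a.val : ℤ), (b.val : ℤ), (c.val : ℤ)] : Fin 3 → ℤ) k = boxA k) →
    (∀ i, i ≠ k → 0 ≤ (![(a.val : ℤ), (b.val : ℤ), (c.val : ℤ)] : Fin 3 → ℤ) i ∧
      (![(a.val : ℤ), (b.val : ℤ), (c.val : ℤ)] : Fin 3 → ℤ) i < boxA i) →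
    ∃ e ∈ cells, axA e = k ∧ loA e = ![(a.val : ℤ), (b.val : ℤ), (c.val : ℤ)] := by
  decide +kernel

theorem coverB : ∀ a : Fin 6, ∀ b : Fin 8, ∀ c : Fin 2, ∀ k : Fin 3,
    ((![(a.val : ℤ), (b.val : ℤ), (c.val : ℤ)] : Fin 3 → ℤ) k = 0 ∨
      (![(a.val : ℤ), (b.val : ℤ), (c.val : ℤ)] : Fin 3 → ℤ) k = boxB k) →
    (∀ i, i ≠ k → 0 ≤ (![(a.val : ℤ), (b.val : ℤ), (c.val : ℤ)] : Fin 3 → ℤ) i ∧
      (![(a.val : ℤ), (b.val : ℤ), (c.val : ℤ)] : Fin 3 → ℤ) i < boxB i) →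
    ∃ e ∈ cells, axB e = k ∧ loB e = ![(a.val : ℤ), (b.val : ℤ), (c.val : ℤ)] := by
  decide +kernel

theorem bounds {d p : Fin 3 → ℤ} (hd : ∀ i, 0 < d i) {k : Fin 3} (h1 : p k = 0 ∨ p k = d k)
    (h2 : ∀ i, i ≠ k → 0 ≤ p i ∧ p i < d i) (i : Fin 3) : 0 ≤ p i ∧ p i ≤ d i := by
  by_cases hi : i = k
  · subst hi
    have := hd i
    rcases h1 with h | h <;> omega
  · have := h2 i hi
    omega

theorem fullA (k : Fin 3) (p : Fin 3 → ℤ) (h1 : p k = 0 ∨ p k = boxA k)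
    (h2 : ∀ i, i ≠ k → 0 ≤ p i ∧ p i < boxA i) : ∃ c ∈ cells, axA c = k ∧ loA c = p := by
  have hb := bounds (d := boxA) (by decide) h1 h2
  have b0 := hb 0
  have b1 := hb 1
  have b2 := hb 2
  have e0 : boxA 0 = 1 := rfl
  have e1 : boxA 1 = 11 := rfl
  have e2 : boxA 2 = 3 := rfl
  have hp : p = ![(((⟨(p 0).toNat, by omega⟩ : Fin 2).val : ℕ) : ℤ),
      (((⟨(p 1).toNat, by omega⟩ : Fin 12).val : ℕ) : ℤ),
      (((⟨(p 2).toNat, by omega⟩ : Fin 4).val : ℕ) : ℤ)] := by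
    funext i
    fin_cases i
    · simp; omega
    · simp; omega
    · simp; omega
  rw [hp] at h1 h2 ⊢
  exact coverA _ _ _ k h1 h2

theorem fullB (k : Fin 3) (p : Fin 3 → ℤ) (h1 : p k = 0 ∨ p k = boxB k)
    (h2 : ∀ i, i ≠ k → 0 ≤ p i ∧ p i < boxB i) : ∃ c ∈ cells, axB c = k ∧ loB c = p := by
  have hb := bounds (d := boxB) (by decide) h1 h2
  have b0 := hb 0
  have b1 := hb 1
  have b2 := hb 2
  have e0 : boxB 0 = 5 := rfl
  have e1 : boxB 1 = 7 := rfl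
  have e2 : boxB 2 = 1 := rfl
  have hp : p = ![(((⟨(p 0).toNat, by omega⟩ : Fin 6).val : ℕ) : ℤ),
      (((⟨(p 1).toNat, by omega⟩ : Fin 8).val : ℕ) : ℤ),
      (((⟨(p 2).toNat, by omega⟩ : Fin 2).val : ℕ) : ℤ)] := by
    funext i
    fin_cases i
    · simp; omega
    · simp; omega
    · simp; omega
  rw [hp] at h1 h2 ⊢
  exact coverB _ _ _ k h1 h2

theorem foldingA : IsFolding net boxA foldA :=
  folding_of_checks boxA foldA axA loA isoA chkA faceA injA fullA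

theorem foldingB : IsFolding net boxB foldB :=
  folding_of_checks boxB foldB axB loB isoB chkB faceB injB fullB

end Pool.Agent.Q150.Net
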