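import Pool.Agent.Q150.NetC

/-! # Common net: the net is a simple polygon -/

namespace Pool.Agent.Q150.Net

set_option maxRecDepth 100000

instance (a b : ℤ × ℤ) : Decidable (Adj a b) := by unfold Adj; infer_instance

theorem Adj.symm {a b : ℤ × ℤ} (h : Adj a b) : Adj b a := by
  unfold Adj at *; omega

theorem reverse_path {S : Set (ℤ × ℤ)} {a b : ℤ × ℤ}
    (h : Relation.ReflTransGen (fun u v => u ∈ S ∧ v ∈ S ∧ Adj u v) a b) :
    Relation.ReflTransGen (fun u v => u ∈ S ∧ v ∈ S ∧ Adj u v) b a := by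
  induction h with
  | refl => exact Relation.ReflTransGen.refl
  | tail _ h' ih => exact Relation.ReflTransGen.head ⟨h'.2.1, h'.1, h'.2.2.symm⟩ ih

/-- A set in which every cell but one has a neighbour of smaller rank is connected. -/
theorem connected_of_rank {S : Set (ℤ × ℤ)} (r : ℤ × ℤ) (hr : r ∈ S) (rk : ℤ × ℤ → ℕ)
    (h : ∀ c ∈ S, c ≠ r → ∃ c' ∈ S, Adj c c' ∧ rk c' < rk c) : Connected S := by
  have key : ∀ n : ℕ, ∀ c ∈ S, rk c = n →
      Relation.ReflTransGen (fun u v => u ∈ S ∧ v ∈ S ∧ Adj u v) c r := by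
    intro n
    induction n using Nat.strong_induction_on with
    | _ n ih =>
      intro c hc hn
      by_cases hcr : c = r
      · subst hcr; exact Relation.ReflTransGen.refl
      · obtain ⟨c', hc', ha, hlt⟩ := h c hc hcr
        exact Relation.ReflTransGen.head ⟨hc, hc', ha⟩ (ih (rk c') (by omega) c' hc' rfl)
  refine ⟨⟨r, hr⟩, fun a ha b hb => ?_⟩
  have h1 := key _ a ha rfl
  have h2 := key _ b hb rfl
  have h3 : Relation.ReflTransGen (fun u v => u ∈ S ∧ v ∈ S ∧ Adj u v) r b := by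
    exact reverse_path h2
  exact h1.trans h3

/-- Rank of a cell of the net. -/
def rkIn (c : ℤ × ℤ) : ℕ := rankTab / 32 ^ idx c % 32

/-- The four neighbours. -/
def nbrs (c : ℤ × ℤ) : List (ℤ × ℤ) :=
  [(c.1 + 1, c.2), (c.1 - 1, c.2), (c.1, c.2 + 1), (c.1, c.2 - 1)]

theorem netRank : ∀ c ∈ cells, c ≠ (0, 3) →
    ∃ c' ∈ nbrs c, c' ∈ cells ∧ Adj c c' ∧ rkIn c' < rkIn c := by
  decide +kernel

theorem net_connected : Connected (net : Set (ℤ × ℤ)) := by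
  refine connected_of_rank (0, 3) ?_ rkIn ?_
  · have : (0, 3) ∈ cells := by decide +kernel
    simpa using mem_net.2 this
  · intro c hc hne
    have hc : c ∈ cells := mem_net.1 (by simpa using hc)
    obtain ⟨c', -, h1, h2, h3⟩ := netRank c hc hne
    exact ⟨c', by simpa using mem_net.2 h1, h2, h3⟩

/-- Rank of a cell outside the net. -/
def rkOut (c : ℤ × ℤ) : ℕ :=
  if 0 ≤ c.1 ∧ c.1 ≤ 24 ∧ 0 ≤ c.2 ∧ c.2 ≤ 6 then 100 + dig outTab (idx c)
  else (c.1 + 1).natAbs + (c.2 + 1).natAbs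

theorem cells_bounds : ∀ c ∈ cells, 0 ≤ c.1 ∧ c.1 ≤ 24 ∧ 0 ≤ c.2 ∧ c.2 ≤ 6 := by
  decide +kernel

theorem outRank : ∀ x : Fin 25, ∀ y : Fin 7, ((x.val : ℤ), (y.val : ℤ)) ∉ cells →
    ∃ c' ∈ nbrs ((x.val : ℤ), (y.val : ℤ)), c' ∉ cells ∧ Adj ((x.val : ℤ), (y.val : ℤ)) c' ∧
      rkOut c' < rkOut ((x.val : ℤ), (y.val : ℤ)) := by
  decide +kernel

theorem outside_step (c : ℤ × ℤ) (hc : ¬ (0 ≤ c.1 ∧ c.1 ≤ 24 ∧ 0 ≤ c.2 ∧ c.2 ≤ 6))
    (hne : c ≠ (-1, -1)) : ∃ c' : ℤ × ℤ, ¬ (0 ≤ c'.1 ∧ c'.1 ≤ 24 ∧ 0 ≤ c'.2 ∧ c'.2 ≤ 6) ∧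
      Adj c c' ∧ rkOut c' < rkOut c := by
  obtain ⟨x, y⟩ := c
  have hne' : ¬ (x = -1 ∧ y = -1) := fun h => hne (by rw [h.1, h.2])
  simp only at hc
  have key : ∃ x' y' : ℤ, ¬ (0 ≤ x' ∧ x' ≤ 24 ∧ 0 ≤ y' ∧ y' ≤ 6) ∧ Adj (x, y) (x', y') ∧
      (x' + 1).natAbs + (y' + 1).natAbs < (x + 1).natAbs + (y + 1).natAbs := by
    unfold Adj
    simp only
    by_cases h1 : y < 0
    · by_cases h2 : x = -1
      · exact ⟨x, y + 1, by omega, by omega, by omega⟩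
      · by_cases h3 : x < -1
        · exact ⟨x + 1, y, by omega, by omega, by omega⟩
        · exact ⟨x - 1, y, by omega, by omega, by omega⟩
    · by_cases h2 : x < 0
      · exact ⟨x, y - 1, by omega, by omega, by omega⟩
      · by_cases h3 : 6 < y
        · exact ⟨x - 1, y, by omega, by omega, by omega⟩
        · exact ⟨x, y - 1, by omega, by omega, by omega⟩
  obtain ⟨x', y', h1, h2, h3⟩ := key
  refine ⟨(x', y'), h1, h2, ?_⟩
  unfold rkOut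
  rw [if_neg (show ¬ (0 ≤ (x', y').1 ∧ (x', y').1 ≤ 24 ∧ 0 ≤ (x', y').2 ∧ (x', y').2 ≤ 6) from h1),
    if_neg (show ¬ (0 ≤ (x, y).1 ∧ (x, y).1 ≤ 24 ∧ 0 ≤ (x, y).2 ∧ (x, y).2 ≤ 6) from hc)]
  exact h3

theorem compl_connected : Connected ((net : Set (ℤ × ℤ))ᶜ) := by
  have hmem : ∀ c : ℤ × ℤ, c ∈ ((net : Set (ℤ × ℤ))ᶜ) ↔ c ∉ cells := by
    intro c
    rw [Set.mem_compl_iff, Finset.mem_coe, mem_net]
  refine connected_of_rank (-1, -1) ?_ rkOut ?_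
  · rw [hmem]
    intro h
    have := cells_bounds _ h
    omega
  · intro c hc hne
    rw [hmem] at hc
    by_cases hb : 0 ≤ c.1 ∧ c.1 ≤ 24 ∧ 0 ≤ c.2 ∧ c.2 ≤ 6
    · have hx : c = (((⟨c.1.toNat, by omega⟩ : Fin 25).val : ℤ),
          ((⟨c.2.toNat, by omega⟩ : Fin 7).val : ℤ)) := by
        obtain ⟨x, y⟩ := c
        simp only at hb
        ext
        · simp; omega
        · simp; omega
      rw [hx] at hc ⊢
      obtain ⟨c', -, h1, h2, h3⟩ := outRank _ _ hc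
      exact ⟨c', (hmem c').2 h1, h2, h3⟩
    · obtain ⟨c', h1, h2, h3⟩ := outside_step c hb hne
      refine ⟨c', (hmem c').2 (fun h => h1 (cells_bounds c' h)), h2, h3⟩

theorem isPolyomino_net : IsPolyomino net := ⟨net_connected, compl_connected⟩

end Pool.Agent.Q150.Net
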