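import Mathlib

/-!
# Common nets of boxes: definitions

A *cell* is a unit square of the integer grid, named by its lower left corner.
-/

namespace Pool.Agent.Q150.Net

/-- Two cells share a unit edge. -/
def Adj (a b : ℤ × ℤ) : Prop :=
  (a.2 = b.2 ∧ (a.1 = b.1 + 1 ∨ b.1 = a.1 + 1)) ∨
    (a.1 = b.1 ∧ (a.2 = b.2 + 1 ∨ b.2 = a.2 + 1))

/-- The set `S` of cells is nonempty and edge-connected: any two of its cells are joined by a
path of cells of `S`, consecutive ones sharing a unit edge. -/
def Connected (S : Set (ℤ × ℤ)) : Prop :=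
  S.Nonempty ∧ ∀ a ∈ S, ∀ b ∈ S, Relation.ReflTransGen (fun u v => u ∈ S ∧ v ∈ S ∧ Adj u v) a b

/-- A polyomino: a finite edge-connected set of cells whose complement is also edge-connected,
so that the union of the cells is a simple polygon (no hole, no pinch vertex). -/
def IsPolyomino (P : Finset (ℤ × ℤ)) : Prop :=
  Connected (P : Set (ℤ × ℤ)) ∧ Connected ((P : Set (ℤ × ℤ))ᶜ)

/-- The four corners of the cell `c`. -/
def corners (c : ℤ × ℤ) : Finset (ℤ × ℤ) :=
  {(c.1, c.2), (c.1 + 1, c.2), (c.1, c.2 + 1), (c.1 + 1, c.2 + 1)}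

/-- `T` is (the set of the four corners of) a unit square of the surface of the box
`[0, d 0] × [0, d 1] × [0, d 2]`. -/
def IsFaceSquare (d : Fin 3 → ℤ) (T : Set (Fin 3 → ℤ)) : Prop :=
  ∃ (k : Fin 3) (p : Fin 3 → ℤ), (p k = 0 ∨ p k = d k) ∧ (∀ i, i ≠ k → 0 ≤ p i ∧ p i < d i) ∧
    T = {q | q k = p k ∧ ∀ i, i ≠ k → q i = p i ∨ q i = p i + 1}

/-- Squared distance of grid points of the plane. -/
def sq2 (u v : ℤ × ℤ) : ℤ := (u.1 - v.1) * (u.1 - v.1) + (u.2 - v.2) * (u.2 - v.2)

/-- Squared distance of grid points of space. -/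
def sq3 (u v : Fin 3 → ℤ) : ℤ :=
  (u 0 - v 0) * (u 0 - v 0) + (u 1 - v 1) * (u 1 - v 1) + (u 2 - v 2) * (u 2 - v 2)

/-- `f`, a map from the grid vertices of the plane to the grid points of space, is a folding of
the polyomino `P` onto the surface of the box with sides `d 0`, `d 1`, `d 2`: it moves every cell
of `P` isometrically onto a unit square of the surface of the box, and every unit square of the
surface is the image of exactly one cell of `P`. (Cells of `P` that share an edge stay glued along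
it, because `f` is a function of the vertex alone.) -/
structure IsFolding (P : Finset (ℤ × ℤ)) (d : Fin 3 → ℤ) (f : ℤ × ℤ → Fin 3 → ℤ) : Prop where
  isometric : ∀ c ∈ P, ∀ u ∈ corners c, ∀ v ∈ corners c, sq3 (f u) (f v) = sq2 u v
  onSurface : ∀ c ∈ P, IsFaceSquare d (f '' (corners c : Set (ℤ × ℤ)))
  once : ∀ c ∈ P, ∀ c' ∈ P,
    f '' (corners c : Set (ℤ × ℤ)) = f '' (corners c' : Set (ℤ × ℤ)) → c = c'
  covers : ∀ T, IsFaceSquare d T → ∃ c ∈ P, f '' (corners c : Set (ℤ × ℤ)) = T

/-- The images of the cells `a` and `b` lie in a common plane (perpendicular to a coordinate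
axis): for neighbouring cells of a folding this says that the fold angle at the common edge
is zero. -/
def Flat (f : ℤ × ℤ → Fin 3 → ℤ) (a b : ℤ × ℤ) : Prop :=
  ∃ k : Fin 3, ∀ u ∈ corners a ∪ corners b, ∀ v ∈ corners a ∪ corners b, f u k = f v k

/-- The horizontal unit edge from `(x, y)` to `(x + 1, y)` is a crease of the folding `f` of `P`:
the cells above and below it belong to `P`, and the fold angle is not zero. -/
def HCrease (P : Finset (ℤ × ℤ)) (f : ℤ × ℤ → Fin 3 → ℤ) (x y : ℤ) : Prop :=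
  (x, y) ∈ P ∧ (x, y - 1) ∈ P ∧ ¬ Flat f (x, y) (x, y - 1)

/-- The vertical unit edge from `(x, y)` to `(x, y + 1)` is a crease of the folding `f` of `P`:
the cells right and left of it belong to `P`, and the fold angle is not zero. -/
def VCrease (P : Finset (ℤ × ℤ)) (f : ℤ × ℤ → Fin 3 → ℤ) (x y : ℤ) : Prop :=
  (x, y) ∈ P ∧ (x - 1, y) ∈ P ∧ ¬ Flat f (x, y) (x - 1, y)

/-- The creases of the two foldings are independent: no unit edge is a crease of both. -/
def Independent (P : Finset (ℤ × ℤ)) (f g : ℤ × ℤ → Fin 3 → ℤ) : Prop :=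
  ∀ x y : ℤ, ¬ (HCrease P f x y ∧ HCrease P g x y) ∧ ¬ (VCrease P f x y ∧ VCrease P g x y)

/-- A horizontal crease of `f` passes straight through the vertex `(x, y)`, and a vertical crease
of `g` passes straight through it as well. -/
def CrossAt (P : Finset (ℤ × ℤ)) (f g : ℤ × ℤ → Fin 3 → ℤ) (x y : ℤ) : Prop :=
  HCrease P f (x - 1) y ∧ HCrease P f x y ∧ VCrease P g x (y - 1) ∧ VCrease P g x y

/-- The creases of the two foldings do not cross. -/
def NonCrossing (P : Finset (ℤ × ℤ)) (f g : ℤ × ℤ → Fin 3 → ℤ) : Prop :=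
  ∀ x y : ℤ, ¬ CrossAt P f g x y ∧ ¬ CrossAt P g f x y

/-- The boxes with sides `d` and `e` are different: not congruent. -/
def Different (d e : Fin 3 → ℤ) : Prop := ∀ σ : Equiv.Perm (Fin 3), d ∘ σ ≠ e

end Pool.Agent.Q150.Net
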