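import Pool.Agent.Q150.NetC

/-! # Common net: the creases -/

namespace Pool.Agent.Q150.Net

set_option maxRecDepth 100000

instance (f : ℤ × ℤ → Fin 3 → ℤ) (a b : ℤ × ℤ) : Decidable (Flat f a b) := by
  unfold Flat; infer_instance

instance (f : ℤ × ℤ → Fin 3 → ℤ) (x y : ℤ) : Decidable (HCrease net f x y) :=
  decidable_of_iff ((x, y) ∈ cells ∧ (x, y - 1) ∈ cells ∧ ¬ Flat f (x, y) (x, y - 1)) (by
    unfold HCrease; rw [mem_net, mem_net])

instance (f : ℤ × ℤ → Fin 3 → ℤ) (x y : ℤ) : Decidable (VCrease net f x y) :=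
  decidable_of_iff ((x, y) ∈ cells ∧ (x - 1, y) ∈ cells ∧ ¬ Flat f (x, y) (x - 1, y)) (by
    unfold VCrease; rw [mem_net, mem_net])

instance (f g : ℤ × ℤ → Fin 3 → ℤ) (x y : ℤ) : Decidable (CrossAt net f g x y) := by
  unfold CrossAt; infer_instance

theorem indH : ∀ c ∈ cells, ¬ (HCrease net foldA c.1 c.2 ∧ HCrease net foldB c.1 c.2) := by
  decide +kernel

theorem indV : ∀ c ∈ cells, ¬ (VCrease net foldA c.1 c.2 ∧ VCrease net foldB c.1 c.2) := by
  decide +kernel

theorem crossAB : ∀ c ∈ cells, ¬ CrossAt net foldA foldB c.1 c.2 := by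
  decide +kernel

theorem crossBA : ∀ c ∈ cells, ¬ CrossAt net foldB foldA c.1 c.2 := by
  decide +kernel

theorem independent : Independent net foldA foldB := by
  intro x y
  refine ⟨fun h => ?_, fun h => ?_⟩
  · exact indH (x, y) (mem_net.1 h.1.1) h
  · exact indV (x, y) (mem_net.1 h.1.1) h

theorem nonCrossing : NonCrossing net foldA foldB := by
  intro x y
  refine ⟨fun h => ?_, fun h => ?_⟩
  · exact crossAB (x, y) (mem_net.1 h.2.1.1) h
  · exact crossBA (x, y) (mem_net.1 h.2.1.1) h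

theorem different : Different boxA boxB := by
  unfold Different
  decide +kernel

theorem posA : ∀ i, 0 < boxA i := by decide

theorem posB : ∀ i, 0 < boxB i := by decide

end Pool.Agent.Q150.Net
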