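import Pool.Agent.Q150.PegDefs
import Pool.Agent.Y765.Sq.Tri

/-!
# Hooks at every scale of a Jordan curve without inscribed squares
-/

namespace Q150.Peg

open Set Filter Topology

theorem isJordan_loop {c : ℝ → ℂ} (h : IsJordan c) : Pool.Agent.H763R2.An.Loop c := ⟨h.1, h.2.1⟩

theorem isJordan_inj {c : ℝ → ℂ} (h : IsJordan c) : Pool.Agent.H763R2.An.Inj c := by
  have L := isJordan_loop h
  intro x y hx hy e
  have e1 : ∀ t, c (Int.fract t) = c t := fun t => by
    have := L.per_int (Int.fract t) ⌊t⌋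
    rw [Int.fract_add_floor] at this
    exact this.symm
  have h3 := h.2.2 ⟨Int.fract_nonneg x, Int.fract_lt_one x⟩
    ⟨Int.fract_nonneg y, Int.fract_lt_one y⟩ (by rw [e1, e1]; exact e)
  have h4 := Int.fract_add_floor x
  have h5 := Int.fract_add_floor y
  rw [h3] at h4
  have h6 : (y : ℝ) - x = ⌊y⌋ - ⌊x⌋ := by linarith
  have h7 : (0 : ℝ) < (⌊y⌋ - ⌊x⌋ : ℤ) := by push_cast; linarith
  have h8 : ((⌊y⌋ - ⌊x⌋ : ℤ) : ℝ) < 1 := by push_cast; linarith
  have h9 : 0 < ⌊y⌋ - ⌊x⌋ := by exact_mod_cast h7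
  have h10 : ⌊y⌋ - ⌊x⌋ < 1 := by exact_mod_cast h8
  omega

/-- The function on the annulus of the chords defined by a periodic function of arcs. -/
theorem exists_annulus {F : ℝ → ℝ → ℝ} (hc : Continuous (fun p : ℝ × ℝ => F p.1 p.2))
    (hper : ∀ x y, F (x + 1) (y + 1) = F x y) :
    ∃ G : AddCircle (1 : ℝ) × ℝ → ℝ, Continuous G ∧ ∀ x s : ℝ, G ((x : AddCircle (1 : ℝ)), s)
      = F x (x + s) := by
  have hperz : ∀ s : ℝ, Function.Periodic (fun x => F x (x + s)) 1 := by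
    intro s x
    show F (x + 1) (x + 1 + s) = F x (x + s)
    rw [show x + 1 + s = x + s + 1 by ring, hper]
  refine ⟨fun p => (hperz p.2).lift p.1, ?_, fun x s => ?_⟩
  · have hq : IsOpenQuotientMap (fun q : ℝ × ℝ => ((q.1 : AddCircle (1 : ℝ)), q.2)) := by
      have h1 : IsOpenQuotientMap (fun x : ℝ => (x : AddCircle (1 : ℝ))) :=
        QuotientAddGroup.isOpenQuotientMap_mk
      exact h1.prodMap IsOpenQuotientMap.id
    rw [← hq.continuous_comp_iff]
    have e : ((fun p : AddCircle (1 : ℝ) × ℝ => (hperz p.2).lift p.1) ∘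
        fun q : ℝ × ℝ => ((q.1 : AddCircle (1 : ℝ)), q.2)) = fun q => F q.1 (q.1 + q.2) := by
      funext q
      rfl
    rw [e]
    exact hc.comp (continuous_fst.prodMk (continuous_fst.add continuous_snd))
  · rfl

theorem exists_lift (p : AddCircle (1 : ℝ)) : ∃ x : ℝ, (x : AddCircle (1 : ℝ)) = p :=
  QuotientAddGroup.mk_surjective p

/-- Near the degenerate arcs a scale is negative, near the whole curve it is positive. -/
theorem scale_ends {F : ℝ → ℝ → ℝ} (hF : IsScale F) :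
    ∃ δ : ℝ, 0 < δ ∧ δ < 1 / 2 ∧ (∀ x, F x (x + δ) < 0) ∧ ∀ x, 0 < F x (x + (1 - δ)) := by
  obtain ⟨hc, hper, h0, h1⟩ := hF
  have hshift : ∀ (s : ℝ) (x : ℝ), F x (x + s) = F (Int.fract x) (Int.fract x + s) := by
    intro s
    have hp : Function.Periodic (fun x => F x (x + s)) 1 := by
      intro x
      show F (x + 1) (x + 1 + s) = F x (x + s)
      rw [show x + 1 + s = x + s + 1 by ring, hper]
    intro x
    have := hp.sub_zsmul_eq (x := x) ⌊x⌋
    have e : x - ⌊x⌋ • (1 : ℝ) = Int.fract x := by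
      rw [zsmul_eq_mul, mul_one]
      rfl
    rw [e] at this
    exact this.symm
  have hcG : Continuous fun q : ℝ × ℝ => F q.2 (q.2 + q.1) :=
    hc.comp (continuous_snd.prodMk (continuous_snd.add continuous_fst))
  have hcH : Continuous fun q : ℝ × ℝ => F q.2 (q.2 + (1 - q.1)) :=
    hc.comp (continuous_snd.prodMk (continuous_snd.add (continuous_const.sub continuous_fst)))
  have e1 : ∀ᶠ s in 𝓝 (0 : ℝ), ∀ x ∈ Icc (0 : ℝ) 1, F x (x + s) < 0 := by
    refine isCompact_Icc.eventually_forall_of_forall_eventually fun x _ => ?_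
    have : Tendsto (fun q : ℝ × ℝ => F q.2 (q.2 + q.1)) (𝓝 (0, x)) (𝓝 (F x (x + 0))) :=
      hcG.tendsto (0, x)
    rw [add_zero] at this
    exact this.eventually_lt_const (h0 x)
  have e2 : ∀ᶠ s in 𝓝 (0 : ℝ), ∀ x ∈ Icc (0 : ℝ) 1, 0 < F x (x + (1 - s)) := by
    refine isCompact_Icc.eventually_forall_of_forall_eventually fun x _ => ?_
    have : Tendsto (fun q : ℝ × ℝ => F q.2 (q.2 + (1 - q.1))) (𝓝 (0, x))
        (𝓝 (F x (x + (1 - 0)))) := hcH.tendsto (0, x)
    rw [sub_zero] at this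
    exact this.eventually_const_lt (h1 x)
  obtain ⟨ρ, hρ, h⟩ := Metric.eventually_nhds_iff.mp (e1.and e2)
  have hmem : dist (min (ρ / 2) (1 / 4)) 0 < ρ := by
    rw [Real.dist_eq, sub_zero, abs_of_pos (by positivity)]
    exact (min_le_left _ _).trans_lt (by linarith)
  have hfr : ∀ x : ℝ, Int.fract x ∈ Icc (0 : ℝ) 1 := fun x =>
    ⟨Int.fract_nonneg x, (Int.fract_lt_one x).le⟩
  refine ⟨min (ρ / 2) (1 / 4), by positivity, (min_le_right _ _).trans_lt (by norm_num),
    fun x => ?_, fun x => ?_⟩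
  · rw [hshift]
    exact (h hmem).1 _ (hfr x)
  · rw [hshift]
    exact (h hmem).2 _ (hfr x)

/-- Hooks of all four kinds at every scale. -/
theorem hooks {c : ℝ → ℂ} (hJ : IsJordan c) (hno : ¬ HasSquare c) {F : ℝ → ℝ → ℝ}
    (hF : IsScale F) {κ : ℂ} (hκ : κ = Complex.I ∨ κ = -Complex.I) {σ : ℝ}
    (hσ : σ = 1 ∨ σ = -1) :
    ∃ x u y : ℝ, x < u ∧ u < y ∧ y < x + 1 ∧ F x y = 0 ∧
      (Tri c κ σ x y u ∨ Tri c κ σ y x u) := by
  have L := isJordan_loop hJ
  have J := isJordan_inj hJ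
  obtain ⟨δ, hδ, hδ2, d0, d1⟩ := scale_ends hF
  obtain ⟨T, hT, ⟨p, hp, ep⟩, ⟨q, hq, eq⟩, hTb, hcase⟩ :=
    Pool.Agent.Y765.Sq.tri_fam L J hno hκ hσ hδ hδ2
  obtain ⟨xp, hxp⟩ := exists_lift p.1
  obtain ⟨xq, hxq⟩ := exists_lift q.1
  rcases hcase with h | h
  · obtain ⟨G, hG, hGe⟩ := exists_annulus hF.1 hF.2.1
    have gp : G p < 0 := by
      have : G p = F xp (xp + δ) := by rw [← hGe, hxp, ← ep]
      rw [this]; exact d0 xp
    have gq : 0 < G q := by
      have : G q = F xq (xq + (1 - δ)) := by rw [← hGe, hxq, ← eq]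
      rw [this]; exact d1 xq
    obtain ⟨w, hw, hGw⟩ := hT.isPreconnected.intermediate_value hp hq hG.continuousOn
      (show (0 : ℝ) ∈ Icc (G p) (G q) from ⟨gp.le, gq.le⟩)
    obtain ⟨x, hx⟩ := exists_lift w.1
    obtain ⟨u, a1, a2, a3⟩ := h w hw x hx
    have hb := hTb w hw
    refine ⟨x, u, x + w.2, a1, a2, by linarith [hb.2], ?_, Or.inl a3⟩
    rw [← hGe, hx]
    exact hGw
  · -- the complementary arcs
    have hc' : Continuous (fun r : ℝ × ℝ => F r.2 (r.1 + 1)) :=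
      hF.1.comp (continuous_snd.prodMk (continuous_fst.add continuous_const))
    obtain ⟨G, hG, hGe⟩ := exists_annulus (F := fun x y => F y (x + 1)) hc'
      (fun x y => by
        show F (y + 1) (x + 1 + 1) = F y (x + 1)
        exact hF.2.1 y (x + 1))
    have gp : 0 < G p := by
      have : G p = F (xp + δ) (xp + 1) := by rw [← hGe, hxp, ← ep]
      rw [this, show xp + 1 = xp + δ + (1 - δ) by ring]
      exact d1 _
    have gq : G q < 0 := by
      have : G q = F (xq + (1 - δ)) (xq + 1) := by rw [← hGe, hxq, ← eq]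
      rw [this, show xq + 1 = xq + (1 - δ) + δ by ring]
      exact d0 _
    obtain ⟨w, hw, hGw⟩ := hT.isPreconnected.intermediate_value hq hp hG.continuousOn
      (show (0 : ℝ) ∈ Icc (G q) (G p) from ⟨gq.le, gp.le⟩)
    obtain ⟨x, hx⟩ := exists_lift w.1
    obtain ⟨u, a1, a2, a3⟩ := h w hw x hx
    have hb := hTb w hw
    refine ⟨x + w.2, u, x + 1, a1, a2, by linarith [hb.1], ?_, Or.inr ?_⟩
    · have := hGe x w.2
      rw [hx] at this
      exact this.symm.trans hGw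
    · have e1 : c (x + 1) = c x := hJ.2.1 x
      show c u = c (x + 1) + κ * (c (x + w.2) - c (x + 1)) ∧ _
      unfold Pool.Agent.Y765.Sq.TriM at a3
      refine ⟨by rw [e1]; exact a3.1, ?_⟩
      rw [e1]
      exact a3.2

end Q150.Peg
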