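import Pool.Agent.Q150.PegA

/-!
# Squares from the three-point condition at one scale
-/

namespace Q150.Peg

open Set Filter Topology

theorem norm_kappa {κ : ℂ} (hκ : κ = Complex.I ∨ κ = -Complex.I) : ‖κ‖ = 1 := by
  rcases hκ with rfl | rfl <;> simp

theorem kappa_ne_one {κ : ℂ} (hκ : κ = Complex.I ∨ κ = -Complex.I) : κ - 1 ≠ 0 := by
  intro h
  have h1 := congrArg Complex.re h
  rcases hκ with rfl | rfl <;> simp at h1

theorem norm_one_sub_kappa {κ : ℂ} (hκ : κ = Complex.I ∨ κ = -Complex.I) : ‖1 - κ‖ = √2 := by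
  have h : ‖1 - κ‖ ^ 2 = 2 := by
    rw [← Complex.normSq_eq_norm_sq, Complex.normSq_apply]
    rcases hκ with rfl | rfl <;> simp <;> norm_num
  rw [← h, Real.sqrt_sq (norm_nonneg _)]

/-- The stable form. -/
theorem squares_nearby {c : ℝ → ℂ} (hJ : IsJordan c) {F : ℝ → ℝ → ℝ} (hF : IsScale F) {κ : ℂ}
    (hκ : κ = Complex.I ∨ κ = -Complex.I) (h : HookFree c κ F) : SquaresNearby c := by
  have J := isJordan_inj hJ
  have cc : Continuous c := hJ.1
  have hκ0 : κ ≠ 0 := by
    intro h0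
    have := norm_kappa hκ
    rw [h0, norm_zero] at this
    exact zero_ne_one this
  set K : Set (ℝ × ℝ × ℝ) := {q | q.1 ∈ Icc (0 : ℝ) 1 ∧ q.1 ≤ q.2.1 ∧ q.2.1 ≤ q.2.2 ∧
    q.2.2 ≤ q.1 + 1 ∧ F q.1 q.2.2 = 0} with hK
  have hKc : IsCompact K := by
    have hB : IsCompact (Icc (0 : ℝ) 1 ×ˢ Icc (0 : ℝ) 2 ×ˢ Icc (0 : ℝ) 2) :=
      isCompact_Icc.prod (isCompact_Icc.prod isCompact_Icc)
    refine hB.of_isClosed_subset ?_ ?_
    · have k1 : IsClosed {q : ℝ × ℝ × ℝ | q.1 ∈ Icc (0 : ℝ) 1} :=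
        isClosed_Icc.preimage continuous_fst
      have k2 : IsClosed {q : ℝ × ℝ × ℝ | q.1 ≤ q.2.1} :=
        isClosed_le (by fun_prop) (by fun_prop)
      have k3 : IsClosed {q : ℝ × ℝ × ℝ | q.2.1 ≤ q.2.2} :=
        isClosed_le (by fun_prop) (by fun_prop)
      have k4 : IsClosed {q : ℝ × ℝ × ℝ | q.2.2 ≤ q.1 + 1} :=
        isClosed_le (by fun_prop) (by fun_prop)
      have hFc : Continuous fun q : ℝ × ℝ × ℝ => F q.1 q.2.2 :=
        hF.1.comp (continuous_fst.prodMk (continuous_snd.comp continuous_snd))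
      have k5 : IsClosed {q : ℝ × ℝ × ℝ | F q.1 q.2.2 = 0} := isClosed_eq hFc continuous_const
      exact k1.inter (k2.inter (k3.inter (k4.inter k5)))
    · rintro ⟨x, u, y⟩ ⟨h1, h2, h3, h4, -⟩
      simp only [mem_Icc] at h1 h2 h3 h4
      exact ⟨h1, ⟨by simp only; linarith [h1.1], by simp only; linarith [h1.2]⟩,
        ⟨by simp only; linarith [h1.1], by simp only; linarith [h1.2]⟩⟩
  set Ψ : ℝ × ℝ × ℝ → ℝ := fun q => min ‖c q.2.1 - (c q.1 + κ * (c q.2.2 - c q.1))‖
    ‖c q.2.1 - (c q.2.2 + κ * (c q.1 - c q.2.2))‖ with hΨ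
  have hΨc : Continuous Ψ := by
    rw [hΨ]
    fun_prop
  have hΨpos : ∀ q ∈ K, 0 < Ψ q := by
    rintro ⟨x, u, y⟩ ⟨h1, h2, h3, h4, h5⟩
    simp only at h1 h2 h3 h4 h5
    have hxy : x < y := by
      rcases lt_or_eq_of_le (h2.trans h3) with h6 | h6
      · exact h6
      · rw [← h6] at h5
        have := hF.2.2.1 x
        linarith
    have hy1 : y < x + 1 := by
      rcases lt_or_eq_of_le h4 with h6 | h6
      · exact h6
      · rw [h6] at h5
        have := hF.2.2.2 x
        linarith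
    have hne : c y - c x ≠ 0 := sub_ne_zero.mpr (J x y hxy hy1).symm
    have hne' : c x - c y ≠ 0 := sub_ne_zero.mpr (J x y hxy hy1)
    have key : ∀ P Q : ℂ, Q - P ≠ 0 → c u = P + κ * (Q - P) → c u ≠ P ∧ c u ≠ Q := by
      intro P Q hPQ e
      constructor
      · intro e'
        rw [e'] at e
        have : κ * (Q - P) = 0 := by linear_combination -e
        exact (mul_ne_zero hκ0 hPQ) this
      · intro e'
        rw [e'] at e
        have : (κ - 1) * (Q - P) = 0 := by linear_combination -e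
        exact (mul_ne_zero (kappa_ne_one hκ) hPQ) this
    refine lt_min ?_ ?_
    · rw [norm_pos_iff, sub_ne_zero]
      intro e
      obtain ⟨e1, e2⟩ := key _ _ hne e
      have hxu : x < u := lt_of_le_of_ne h2 fun e' => e1 (by rw [e'])
      have huy : u < y := lt_of_le_of_ne h3 fun e' => e2 (by rw [e'])
      exact (h x u y hxu huy hy1 h5).1 e
    · rw [norm_pos_iff, sub_ne_zero]
      intro e
      obtain ⟨e1, e2⟩ := key _ _ hne' e
      have hxu : x < u := lt_of_le_of_ne h2 fun e' => e2 (by rw [e'])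
      have huy : u < y := lt_of_le_of_ne h3 fun e' => e1 (by rw [e'])
      exact (h x u y hxu huy hy1 h5).2 e
  obtain ⟨m, hm, hmK⟩ : ∃ m : ℝ, 0 < m ∧ ∀ q ∈ K, m ≤ Ψ q := by
    rcases K.eq_empty_or_nonempty with hE | hE
    · exact ⟨1, one_pos, fun q hq => by rw [hE] at hq; exact absurd hq (notMem_empty q)⟩
    · obtain ⟨q, hq, hmin⟩ := hKc.exists_isMinOn hE hΨc.continuousOn
      exact ⟨Ψ q, hΨpos q hq, fun q' hq' => hmin hq'⟩
  refine ⟨m / 8, by positivity, fun c' hJ' hclose => ?_⟩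
  by_contra hno
  obtain ⟨x, u, y, hxu, huy, hy1, hFxy, htri⟩ := hooks hJ' hno hF hκ (Or.inl rfl)
  -- shift the parameters
  have hperF : ∀ n : ℤ, F (x - n) (y - n) = F x y := by
    intro n
    have hp : Function.Periodic (fun t => F (x + t) (y + t)) 1 := by
      intro t
      show F (x + (t + 1)) (y + (t + 1)) = F (x + t) (y + t)
      rw [← add_assoc, ← add_assoc, hF.2.1]
    have := hp.sub_zsmul_eq (x := 0) n
    simp only [zsmul_eq_mul, mul_one, zero_sub, add_zero] at this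
    rw [sub_eq_add_neg, sub_eq_add_neg]
    exact this
  have hperc : ∀ (n : ℤ) (t : ℝ), c' (t - n) = c' t := by
    intro n t
    have hp : Function.Periodic c' 1 := hJ'.2.1
    have := hp.sub_zsmul_eq (x := t) n
    simpa only [zsmul_eq_mul, mul_one] using this
  have hq : ((x - ⌊x⌋, u - ⌊x⌋, y - ⌊x⌋) : ℝ × ℝ × ℝ) ∈ K := by
    refine ⟨⟨?_, ?_⟩, ?_, ?_, ?_, ?_⟩
    · simp only
      linarith [Int.floor_le x]
    · simp only
      linarith [Int.lt_floor_add_one x]
    · simp only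
      linarith
    · simp only
      linarith
    · simp only
      linarith
    · simp only
      rw [hperF, hFxy]
  have hlow := hmK _ hq
  have hn1 := norm_kappa hκ
  -- the triangles of the nearby curve
  have hest : ∀ s t w : ℝ, c' s = c' t + κ * (c' w - c' t) →
      ‖c s - (c t + κ * (c w - c t))‖ ≤ 4 * (m / 8) := by
    intro s t w e
    have e1 : c s - (c t + κ * (c w - c t))
        = -(c' s - c s) + (c' t - c t) + κ * ((c' w - c w) - (c' t - c t)) := by
      linear_combination e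
    rw [e1]
    have a1 := hclose s
    have a2 := hclose t
    have a3 := hclose w
    have b1 : ‖-(c' s - c s) + (c' t - c t) + κ * ((c' w - c w) - (c' t - c t))‖
        ≤ ‖-(c' s - c s) + (c' t - c t)‖ + ‖κ * ((c' w - c w) - (c' t - c t))‖ :=
      norm_add_le _ _
    have b2 : ‖-(c' s - c s) + (c' t - c t)‖ ≤ ‖c' s - c s‖ + ‖c' t - c t‖ := by
      refine (norm_add_le _ _).trans ?_
      rw [norm_neg]
    have b3 : ‖κ * ((c' w - c w) - (c' t - c t))‖ ≤ ‖c' w - c w‖ + ‖c' t - c t‖ := by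
      rw [norm_mul, hn1, one_mul]
      exact norm_sub_le _ _
    linarith
  have hshift : ∀ t : ℝ, c' (t - ⌊x⌋) = c' t := hperc ⌊x⌋
  have hle : Ψ (x - ⌊x⌋, u - ⌊x⌋, y - ⌊x⌋) ≤ 4 * (m / 8) := by
    rcases htri with h1 | h1
    · refine (min_le_left _ _).trans (hest _ _ _ ?_)
      simp only
      rw [hshift, hshift, hshift]
      exact h1.1
    · refine (min_le_right _ _).trans (hest _ _ _ ?_)
      simp only
      rw [hshift, hshift, hshift]
      exact h1.1
  linarith

/-- The three-point condition excludes hooks. -/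
theorem hookFree_of_threePoint {c : ℝ → ℂ} {κ : ℂ} (hκ : κ = Complex.I ∨ κ = -Complex.I)
    {F : ℝ → ℝ → ℝ} (h : ∀ x u y : ℝ, x < u → u < y → y < x + 1 → F x y = 0 →
      ThreePoint c x u y) : HookFree c κ F := by
  intro x u y h1 h2 h3 h4
  have h5 := h x u y h1 h2 h3 h4
  unfold ThreePoint at h5
  constructor
  · intro e
    have e1 : c u - c x = κ * (c y - c x) := by linear_combination e
    have e2 : c y - c u = (1 - κ) * (c y - c x) := by linear_combination -e
    rw [e1, e2, norm_mul, norm_mul, norm_kappa hκ, norm_one_sub_kappa hκ] at h5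
    linarith
  · intro e
    have e1 : c u - c x = (1 - κ) * (c y - c x) := by linear_combination e
    have e2 : c y - c u = κ * (c y - c x) := by linear_combination -e
    rw [e1, e2, norm_mul, norm_mul, norm_kappa hκ, norm_one_sub_kappa hκ] at h5
    linarith

/-- The diameter of the arc `c [x, y]`, for all real `x`, `y`. -/
noncomputable def arcDiam (c : ℝ → ℂ) (x y : ℝ) : ℝ :=
  sSup ((fun q : ℝ × ℝ => ‖c (x + q.1 * (y - x)) - c (x + q.2 * (y - x))‖) ''
    (Icc (0 : ℝ) 1 ×ˢ Icc (0 : ℝ) 1))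

theorem arcDiam_eq {c : ℝ → ℂ} (hc : Continuous c) {x y : ℝ} (hxy : x ≤ y) :
    arcDiam c x y = Metric.diam (c '' Icc x y) := by
  have hbd : Bornology.IsBounded (c '' Icc x y) := (isCompact_Icc.image hc).isBounded
  have hmem : ∀ a ∈ Icc (0 : ℝ) 1, x + a * (y - x) ∈ Icc x y := by
    intro a ha
    have h1 : 0 ≤ y - x := by linarith
    constructor
    · nlinarith [mul_nonneg ha.1 h1]
    · nlinarith [mul_nonneg (sub_nonneg.mpr ha.2) h1]
  have hne : ((fun q : ℝ × ℝ => ‖c (x + q.1 * (y - x)) - c (x + q.2 * (y - x))‖) ''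
      (Icc (0 : ℝ) 1 ×ˢ Icc (0 : ℝ) 1)).Nonempty :=
    ⟨_, ⟨(0, 0), ⟨by simp, by simp⟩, rfl⟩⟩
  have hcont : Continuous fun q : ℝ × ℝ => ‖c (x + q.1 * (y - x)) - c (x + q.2 * (y - x))‖ := by
    fun_prop
  have hcpt : IsCompact ((fun q : ℝ × ℝ => ‖c (x + q.1 * (y - x)) - c (x + q.2 * (y - x))‖) ''
      (Icc (0 : ℝ) 1 ×ˢ Icc (0 : ℝ) 1)) := (isCompact_Icc.prod isCompact_Icc).image hcont
  apply le_antisymm
  · refine csSup_le hne ?_
    rintro _ ⟨⟨a, b⟩, ⟨ha, hb⟩, rfl⟩
    simp only at ha hb ⊢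
    rw [← dist_eq_norm]
    exact Metric.dist_le_diam_of_mem hbd ⟨_, hmem a ha, rfl⟩ ⟨_, hmem b hb, rfl⟩
  · have hnonneg : 0 ≤ arcDiam c x y := by
      refine le_csSup_of_le hcpt.bddAbove ⟨(0, 0), ⟨by simp, by simp⟩, rfl⟩ (norm_nonneg _)
    refine Metric.diam_le_of_forall_dist_le hnonneg ?_
    rintro _ ⟨s, hs, rfl⟩ _ ⟨t, ht, rfl⟩
    rcases lt_or_eq_of_le hxy with h | h
    · have hpos : 0 < y - x := by linarith
      have hrep : ∀ s ∈ Icc x y, (s - x) / (y - x) ∈ Icc (0 : ℝ) 1 ∧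
          x + (s - x) / (y - x) * (y - x) = s := by
        intro s hs
        refine ⟨⟨div_nonneg (by linarith [hs.1]) hpos.le,
          (div_le_one hpos).mpr (by linarith [hs.2])⟩, ?_⟩
        rw [div_mul_cancel₀ _ hpos.ne']
        ring
      refine le_csSup hcpt.bddAbove ⟨((s - x) / (y - x), (t - x) / (y - x)),
        ⟨(hrep s hs).1, (hrep t ht).1⟩, ?_⟩
      simp only
      rw [(hrep s hs).2, (hrep t ht).2, dist_eq_norm]
    · have h1 : s = x := le_antisymm (by rw [h]; exact hs.2) hs.1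
      have h2 : t = x := le_antisymm (by rw [h]; exact ht.2) ht.1
      rw [h1, h2, dist_self]
      exact hnonneg

theorem isScale_diam {c : ℝ → ℂ} (hJ : IsJordan c) {r : ℝ} (hr : 0 < r)
    (hr1 : r < Metric.diam (range c)) : IsScale fun x y => arcDiam c x y - r := by
  have cc : Continuous c := hJ.1
  refine ⟨?_, ?_, ?_, ?_⟩
  · refine Continuous.sub ?_ continuous_const
    have hK : IsCompact (Icc (0 : ℝ) 1 ×ˢ Icc (0 : ℝ) 1) := isCompact_Icc.prod isCompact_Icc
    have hf : Continuous fun p : (ℝ × ℝ) × (ℝ × ℝ) =>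
        ‖c (p.1.1 + p.2.1 * (p.1.2 - p.1.1)) - c (p.1.1 + p.2.2 * (p.1.2 - p.1.1))‖ := by
      fun_prop
    exact IsCompact.continuous_sSup hK hf
  · intro x y
    have hp : ∀ t, c (t + 1) = c t := hJ.2.1
    have e : arcDiam c (x + 1) (y + 1) = arcDiam c x y := by
      unfold arcDiam
      congr 2
      funext q
      have h1 : x + 1 + q.1 * (y + 1 - (x + 1)) = x + q.1 * (y - x) + 1 := by ring
      have h2 : x + 1 + q.2 * (y + 1 - (x + 1)) = x + q.2 * (y - x) + 1 := by ring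
      rw [h1, h2, hp, hp]
    show arcDiam c (x + 1) (y + 1) - r = arcDiam c x y - r
    rw [e]
  · intro x
    show arcDiam c x x - r < 0
    rw [arcDiam_eq cc le_rfl, Icc_self, image_singleton, Metric.diam_singleton]
    linarith
  · intro x
    show 0 < arcDiam c x (x + 1) - r
    rw [arcDiam_eq cc (by linarith)]
    have hp : Function.Periodic c 1 := hJ.2.1
    rw [hp.image_Icc one_pos]
    linarith

/-- The diameter form. -/
theorem squares_diam {c : ℝ → ℂ} (hJ : IsJordan c) {r : ℝ} (hr : 0 < r)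
    (hr1 : r < Metric.diam (range c))
    (h : ∀ x u y : ℝ, x < u → u < y → y < x + 1 → Metric.diam (c '' Icc x y) = r →
      ThreePoint c x u y) : SquaresNearby c := by
  refine squares_nearby hJ (isScale_diam hJ hr hr1) (Or.inl rfl)
    (hookFree_of_threePoint (Or.inl rfl) fun x u y h1 h2 h3 h4 => h x u y h1 h2 h3 ?_)
  rw [arcDiam_eq hJ.1 (h1.trans h2).le] at h4
  linarith

/-- The local form. -/
theorem squares_local {c : ℝ → ℂ} (hJ : IsJordan c) {ε : ℝ} (hε : 0 < ε)
    (h : ∀ x u y : ℝ, x < u → u < y → y < x + ε → ThreePoint c x u y) : SquaresNearby c := by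
  have hs : IsScale fun x y => y - x - min (ε / 2) (1 / 2) := by
    refine ⟨by fun_prop, fun x y => by ring, fun x => ?_, fun x => ?_⟩
    · have : 0 < min (ε / 2) (1 / 2) := by positivity
      linarith
    · have : min (ε / 2) (1 / 2) ≤ 1 / 2 := min_le_right _ _
      linarith
  refine squares_nearby hJ hs (Or.inl rfl)
    (hookFree_of_threePoint (Or.inl rfl) fun x u y h1 h2 h3 h4 => h x u y h1 h2 ?_)
  have : min (ε / 2) (1 / 2) ≤ ε / 2 := min_le_left _ _
  linarith

/-- The local chord-arc form. -/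
theorem squares_chordArc {c : ℝ → ℂ} (hJ : IsJordan c) {ε : ℝ} (hε : 0 < ε)
    (h : ∀ x y : ℝ, x < y → y < x + ε →
      eVariationOn c (Icc x y) < ENNReal.ofReal ((1 + √2) * ‖c y - c x‖)) :
    SquaresNearby c := by
  refine squares_local hJ hε fun x u y h1 h2 h3 => ?_
  have h4 := h x y (h1.trans h2) h3
  have h5 : eVariationOn c (Icc x y) = eVariationOn c (Icc x u) + eVariationOn c (Icc u y) := by
    have := eVariationOn.Icc_add_Icc c (s := univ) h1.le h2.le (mem_univ u)
    simpa using this.symm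
  have h6 : ENNReal.ofReal ‖c u - c x‖ ≤ eVariationOn c (Icc x u) := by
    rw [← dist_eq_norm, ← edist_dist]
    exact eVariationOn.edist_le c (right_mem_Icc.mpr h1.le) (left_mem_Icc.mpr h1.le)
  have h7 : ENNReal.ofReal ‖c y - c u‖ ≤ eVariationOn c (Icc u y) := by
    rw [← dist_eq_norm, ← edist_dist]
    exact eVariationOn.edist_le c (right_mem_Icc.mpr h2.le) (left_mem_Icc.mpr h2.le)
  unfold ThreePoint
  rw [h5] at h4
  have h8 := (add_le_add h6 h7).trans_lt h4
  rw [← ENNReal.ofReal_add (norm_nonneg _) (norm_nonneg _)] at h8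
  exact (ENNReal.ofReal_lt_ofReal_iff_of_nonneg (by positivity)).mp h8

end Q150.Peg
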