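import Mathlib

/-!
# The three-point condition at one scale: definitions
-/

namespace Q150.Peg

open Classical in
/-- The signed distance of `z` to the closed curve `c` (of period `1`): the distance of `z` to the
curve if the curve winds an odd number `n` of times around `z` (there is a continuous logarithm `k`
of `c - z` with `k 1 - k 0 = 2 π n i`), and minus the distance otherwise. -/
noncomputable def sdist (c : ℝ → ℂ) (z : ℂ) : ℝ :=
  if ∃ n : ℤ, (∃ k : ℝ → ℂ, Continuous k ∧ (∀ t, Complex.exp (k t) = c t - z) ∧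
      k 1 - k 0 = n * (2 * Real.pi * Complex.I)) ∧ Odd n
  then Metric.infDist z (Set.range c) else -Metric.infDist z (Set.range c)

/-- The curve `c` contains the four vertices of a square. -/
def HasSquare (c : ℝ → ℂ) : Prop :=
  ∃ z w : ℂ, w ≠ 0 ∧ z ∈ Set.range c ∧ z + w ∈ Set.range c ∧
    z + w + Complex.I * w ∈ Set.range c ∧ z + Complex.I * w ∈ Set.range c

/-- `c` parametrises a Jordan curve (no regularity). -/
def IsJordan (c : ℝ → ℂ) : Prop :=
  Continuous c ∧ (∀ t, c (t + 1) = c t) ∧ Set.InjOn c (Set.Ico 0 1)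

/-- The points `P = c x`, `Q = c y`, `V = c u` of the curve satisfy `V = P + κ (Q - P)` (for
`κ = i` or `κ = -i` and `P ≠ Q` they are the vertices of an isosceles right triangle with right
angle at `P`), and the fourth vertex `Q + κ (Q - P)` of the square `P, Q, Q + κ (Q - P), V` is
strictly inside the curve if `σ = 1` and strictly outside the curve if `σ = -1`. -/
def Tri (c : ℝ → ℂ) (κ : ℂ) (σ x y u : ℝ) : Prop :=
  c u = c x + κ * (c y - c x) ∧ 0 < σ * sdist c (c y + κ * (c y - c x))

/-- A scale: a continuous function of the arcs `c [x, y]` of the curve, negative for the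
degenerate arcs and positive for the whole curve. The arcs at this scale are those with
`F x y = 0`. -/
def IsScale (F : ℝ → ℝ → ℝ) : Prop :=
  Continuous (fun p : ℝ × ℝ => F p.1 p.2) ∧ (∀ x y, F (x + 1) (y + 1) = F x y) ∧
    (∀ x, F x x < 0) ∧ ∀ x, 0 < F x (x + 1)

/-- No hooks of the handedness `κ` (`κ = i` or `κ = -i`) among the arcs at the scale `F`: no point
`V` of an arc with end points `P`, `Q` at this scale satisfies `V = P + κ (Q - P)` or
`V = Q + κ (P - Q)`. (Then `|V - P| = |Q - P|` with a right angle at `P`, or the same with `P` and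
`Q` interchanged.) -/
def HookFree (c : ℝ → ℂ) (κ : ℂ) (F : ℝ → ℝ → ℝ) : Prop :=
  ∀ x u y : ℝ, x < u → u < y → y < x + 1 → F x y = 0 →
    c u ≠ c x + κ * (c y - c x) ∧ c u ≠ c y + κ * (c x - c y)

/-- The strict three-point condition with the constant `1 + √2` for `P = c x`, `V = c u`,
`Q = c y`: `|P - V| + |V - Q| < (1 + √2) |P - Q|`. -/
def ThreePoint (c : ℝ → ℂ) (x u y : ℝ) : Prop :=
  ‖c u - c x‖ + ‖c y - c u‖ < (1 + √2) * ‖c y - c x‖

/-- All Jordan curves at uniform distance at most `η` from `c`, for some `η > 0`, contain the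
vertices of a square. -/
def SquaresNearby (c : ℝ → ℂ) : Prop :=
  ∃ η > 0, ∀ c' : ℝ → ℂ, IsJordan c' → (∀ t, ‖c' t - c t‖ ≤ η) → HasSquare c'

end Q150.Peg
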