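import Mathlib

namespace Q150.Rich

open Finset Module

/-- The quadratic form. -/
def Q {K : Type*} [CommRing K] (w : Fin 8 → K) : K :=
  w 0 * w 4 + w 1 * w 5 + w 2 * w 6 + w 3 * w 7

/-- Its polar form. -/
noncomputable def J : (Fin 8 → ℂ) →ₗ[ℂ] Module.Dual ℂ (Fin 8 → ℂ) :=
  LinearMap.mk₂ ℂ (fun v u => v 4 * u 0 + v 5 * u 1 + v 6 * u 2 + v 7 * u 3 +
    v 0 * u 4 + v 1 * u 5 + v 2 * u 6 + v 3 * u 7)
    (by intros; simp only [Pi.add_apply]; ring)
    (by intros; simp only [Pi.smul_apply, smul_eq_mul]; ring)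
    (by intros; simp only [Pi.add_apply]; ring)
    (by intros; simp only [Pi.smul_apply, smul_eq_mul]; ring)

lemma J_apply (v u : Fin 8 → ℂ) : J v u = v 4 * u 0 + v 5 * u 1 + v 6 * u 2 + v 7 * u 3 +
    v 0 * u 4 + v 1 * u 5 + v 2 * u 6 + v 3 * u 7 := rfl

lemma Q_add (u v : Fin 8 → ℂ) : Q (u + v) = Q u + Q v + J u v := by
  rw [J_apply]; simp only [Q, Pi.add_apply]; ring

lemma Q_smul (t : ℂ) (v : Fin 8 → ℂ) : Q (t • v) = t ^ 2 * Q v := by
  simp only [Q, Pi.smul_apply, smul_eq_mul]; ring

lemma J_inj : Function.Injective J := by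
  rw [injective_iff_map_eq_zero]
  intro v hv
  have h : ∀ i : Fin 8, J v (Pi.single i 1) = 0 := by
    intro i; rw [hv]; rfl
  funext i
  have h0 := h 0
  have h1 := h 1
  have h2 := h 2
  have h3 := h 3
  have h4 := h 4
  have h5 := h 5
  have h6 := h 6
  have h7 := h 7
  rw [J_apply] at h0 h1 h2 h3 h4 h5 h6 h7
  fin_cases i
  · simpa [Pi.single_apply] using h4
  · simpa [Pi.single_apply] using h5
  · simpa [Pi.single_apply] using h6
  · simpa [Pi.single_apply] using h7
  · simpa [Pi.single_apply] using h0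
  · simpa [Pi.single_apply] using h1
  · simpa [Pi.single_apply] using h2
  · simpa [Pi.single_apply] using h3

/-- a subspace of dimension at least five is not totally singular. -/
lemma exists_not_singular (D : Submodule ℂ (Fin 8 → ℂ)) (hD : 5 ≤ finrank ℂ D) :
    ∃ v ∈ D, Q v ≠ 0 := by
  by_contra hcon
  push Not at hcon
  have hle : D.map J ≤ D.dualAnnihilator := by
    rintro _ ⟨v, hv, rfl⟩
    rw [Submodule.mem_dualAnnihilator]
    intro u hu
    have h1 := Q_add v u
    rw [hcon v hv, hcon u hu, hcon (v + u) (D.add_mem hv hu)] at h1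
    simpa using h1.symm
  have h2 : finrank ℂ (D.map J) = finrank ℂ D :=
    (Submodule.equivMapOfInjective J J_inj D).finrank_eq.symm
  have h3 := Submodule.finrank_mono hle
  have h4 := Subspace.finrank_add_finrank_dualAnnihilator_eq D
  simp at h4
  omega

/-- coordinates parametrizing a subspace -/
lemma exists_coords (D : Submodule ℂ (Fin 8 → ℂ)) (m : ℕ) (hm : finrank ℂ D = m) :
    ∃ (a : Fin m → Fin 8) (e : D ≃ₗ[ℂ] (Fin m → ℂ)), Function.Injective a ∧
      ∀ (v : D) (i : Fin m), e v i = (v : Fin 8 → ℂ) (a i) := by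
  classical
  let φ : Fin 8 → Module.Dual ℂ D := fun i => (LinearMap.proj i).domRestrict D
  obtain ⟨κ, a, ha, hsp, hli⟩ := exists_linearIndependent' ℂ φ
  have : Finite κ := Finite.of_injective a ha
  have : Fintype κ := Fintype.ofFinite κ
  have hc1 : Fintype.card κ ≤ m := by
    have := hli.fintype_card_le_finrank
    rw [Subspace.dual_finrank_eq, hm] at this
    exact this
  let g : D →ₗ[ℂ] (κ → ℂ) := LinearMap.pi (fun k => φ (a k))
  have hg : Function.Injective g := by
    rw [injective_iff_map_eq_zero]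
    intro v hv
    have h1 : ∀ k, φ (a k) v = 0 := fun k => congrFun hv k
    have h2 : ∀ ψ ∈ Submodule.span ℂ (Set.range φ), ψ v = 0 := by
      intro ψ hψ
      rw [← hsp] at hψ
      induction hψ using Submodule.span_induction with
      | mem x hx => obtain ⟨k, rfl⟩ := hx; exact h1 k
      | zero => rfl
      | add x y _ _ hx hy => simp [hx, hy]
      | smul c x _ hx => simp [hx]
    apply Subtype.ext
    funext i
    exact h2 (φ i) (Submodule.subset_span ⟨i, rfl⟩)
  have hc2 : m ≤ Fintype.card κ := by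
    have := LinearMap.finrank_le_finrank_of_injective hg
    rw [hm] at this
    simpa using this
  have hc : Fintype.card κ = m := le_antisymm hc1 hc2
  let f : Fin m ≃ κ := (Fintype.equivFinOfCardEq hc).symm
  have hfr : finrank ℂ D = finrank ℂ (κ → ℂ) := by simp [hm, hc]
  let e1 : D ≃ₗ[ℂ] (κ → ℂ) := LinearEquiv.ofBijective g
    ⟨hg, (LinearMap.injective_iff_surjective_of_finrank_eq_finrank hfr).1 hg⟩
  let e2 : (κ → ℂ) ≃ₗ[ℂ] (Fin m → ℂ) := LinearEquiv.funCongrLeft ℂ ℂ f
  refine ⟨a ∘ f, e1.trans e2, ha.comp f.injective, ?_⟩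
  intro v i
  rfl

/-- Schwartz-Zippel for a box with unequal sides, degree at most two. -/
lemma zero_count {m : ℕ} (p : MvPolynomial (Fin m) ℂ) (hp : p ≠ 0) (hdeg : p.totalDegree ≤ 2)
    (S : Fin m → Finset ℂ) (b : ℕ) (hb : ∀ i, ∏ j ∈ univ.erase i, (S j).card ≤ b) :
    ((Fintype.piFinset S).filter (fun x => MvPolynomial.eval x p = 0)).card ≤ 2 * b := by
  by_cases hS : ∃ i, (S i).card = 0
  · obtain ⟨i, hi⟩ := hS
    have h0 : (Fintype.piFinset S).card = 0 := by
      rw [Fintype.card_piFinset]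
      exact Finset.prod_eq_zero (mem_univ i) hi
    have := Finset.card_filter_le (Fintype.piFinset S) (fun x => MvPolynomial.eval x p = 0)
    omega
  · push Not at hS
    have hsz := MvPolynomial.schwartz_zippel_sup_sum hp S
    have hpos : (0 : ℚ≥0) < ∏ i, ((S i).card : ℚ≥0) := by
      apply Finset.prod_pos
      intro i _
      have := Nat.pos_of_ne_zero (hS i)
      exact_mod_cast this
    have hbound : (p.support.sup fun s ↦ ∑ i, (s i / ((S i).card : ℚ≥0) : ℚ≥0)) ≤
        (2 * b : ℚ≥0) / ∏ i, ((S i).card : ℚ≥0) := by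
      apply Finset.sup_le
      intro s hs
      rw [le_div_iff₀ hpos, Finset.sum_mul]
      have hdeg2 : ∑ i, s i ≤ 2 := by
        have := MvPolynomial.le_totalDegree hs
        rw [Finsupp.sum_fintype _ _ (by simp)] at this
        exact this.trans hdeg
      calc ∑ i, (s i / ((S i).card : ℚ≥0)) * ∏ i, ((S i).card : ℚ≥0)
          ≤ ∑ i, (s i : ℚ≥0) * b := by
            apply Finset.sum_le_sum
            intro i _
            rw [← Finset.mul_prod_erase univ (fun i => ((S i).card : ℚ≥0)) (mem_univ i)]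
            have hi : ((S i).card : ℚ≥0) ≠ 0 := by exact_mod_cast hS i
            have h1 : (s i / ((S i).card : ℚ≥0)) *
                (((S i).card : ℚ≥0) * ∏ x ∈ univ.erase i, ((S x).card : ℚ≥0)) =
                (s i : ℚ≥0) * ∏ x ∈ univ.erase i, ((S x).card : ℚ≥0) := by
              field_simp
            rw [h1]
            gcongr
            exact_mod_cast hb i
        _ = ((∑ i, s i : ℕ) : ℚ≥0) * b := by rw [← Finset.sum_mul]; push_cast; rfl
        _ ≤ 2 * b := by gcongr; exact_mod_cast hdeg2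
    have h2 := hsz.trans hbound
    rw [div_le_div_iff_of_pos_right hpos] at h2
    exact_mod_cast h2

end Q150.Rich
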