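import Pool.Agent.Q150.RichA

namespace Q150.Rich

open Finset Module

noncomputable section

/-- exponents of the sides of the box -/
def ex : Fin 8 → ℕ := ![4, 5, 5, 5, 6, 5, 5, 5]

/-- the sides of the box -/
def A (M : ℕ) : Fin 8 → Finset ℤ := fun i =>
  if i = 0 then Finset.Ico 0 (M ^ 4 : ℤ)
  else if i = 4 then Finset.Ico (-(3 * M ^ 6) : ℤ) (M ^ 6)
  else Finset.Ico 0 (2 * M ^ 5 : ℤ)

def Box (M : ℕ) : Finset (Fin 8 → ℤ) := Fintype.piFinset (A M)

lemma card_A_le (M : ℕ) (i : Fin 8) : (A M i).card ≤ 4 * M ^ ex i := by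
  have h4 : ((M : ℤ) ^ 4).toNat = M ^ 4 := by
    rw [← Nat.cast_pow]; exact Int.toNat_natCast _
  have h5 : (2 * (M : ℤ) ^ 5).toNat = 2 * M ^ 5 := by
    have : (2 * (M : ℤ) ^ 5) = ((2 * M ^ 5 : ℕ) : ℤ) := by push_cast; ring
    rw [this]; exact Int.toNat_natCast _
  have h6 : ((M : ℤ) ^ 6 - -(3 * M ^ 6)).toNat = 4 * M ^ 6 := by
    have : ((M : ℤ) ^ 6 - -(3 * M ^ 6)) = ((4 * M ^ 6 : ℕ) : ℤ) := by push_cast; ring
    rw [this]; exact Int.toNat_natCast _
  fin_cases i <;> simp [A, ex, Int.card_Ico, h4, h5, h6] <;> omega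

lemma card_Box (M : ℕ) : (Box M).card = 256 * M ^ 40 := by
  have h4 : ((M : ℤ) ^ 4).toNat = M ^ 4 := by
    rw [← Nat.cast_pow]; exact Int.toNat_natCast _
  have h5 : (2 * (M : ℤ) ^ 5).toNat = 2 * M ^ 5 := by
    have : (2 * (M : ℤ) ^ 5) = ((2 * M ^ 5 : ℕ) : ℤ) := by push_cast; ring
    rw [this]; exact Int.toNat_natCast _
  have h6 : ((M : ℤ) ^ 6 + 3 * M ^ 6).toNat = 4 * M ^ 6 := by
    have : ((M : ℤ) ^ 6 + 3 * M ^ 6) = ((4 * M ^ 6 : ℕ) : ℤ) := by push_cast; ring
    rw [this]; exact Int.toNat_natCast _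
  rw [Box, Fintype.card_piFinset, Fin.prod_univ_eight]
  have e0 : (A M 0).card = M ^ 4 := by simp [A, h4]
  have e4 : (A M 4).card = 4 * M ^ 6 := by simp [A, h6]
  have e1 : (A M 1).card = 2 * M ^ 5 := by simp [A, h5]
  have e2 : (A M 2).card = 2 * M ^ 5 := by simp [A, h5]
  have e3 : (A M 3).card = 2 * M ^ 5 := by simp [A, h5]
  have e5 : (A M 5).card = 2 * M ^ 5 := by simp [A, h5]
  have e6 : (A M 6).card = 2 * M ^ 5 := by simp [A, h5]
  have e7 : (A M 7).card = 2 * M ^ 5 := by simp [A, h5]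
  rw [e0, e1, e2, e3, e4, e5, e6, e7]
  ring

lemma sum_ex (s : Finset (Fin 8)) : ∑ j ∈ s, ex j ≤ 5 * s.card + 1 := by
  have h1 : ∀ j : Fin 8, ex j ≤ 5 + if j = 4 then 1 else 0 := by decide
  calc ∑ j ∈ s, ex j ≤ ∑ j ∈ s, (5 + if j = 4 then 1 else 0) := Finset.sum_le_sum (fun j _ => h1 j)
    _ = 5 * s.card + ∑ j ∈ s, (if j = 4 then 1 else 0) := by
        rw [Finset.sum_add_distrib, Finset.sum_const, smul_eq_mul, mul_comm]
    _ ≤ 5 * s.card + 1 := by
        rw [Finset.sum_ite_eq']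
        split_ifs <;> omega

/-- product of side lengths over distinct coordinates -/
lemma prod_le {m : ℕ} (M : ℕ) (hM : 1 ≤ M) (a : Fin m → Fin 8) (ha : Function.Injective a)
    (s : Finset (Fin m)) (c : Fin m → ℕ) (hc : ∀ i, c i ≤ (A M (a i)).card) :
    ∏ i ∈ s, c i ≤ 4 ^ 8 * M ^ (5 * s.card + 1) := by
  have hs : s.card ≤ 8 := by
    have h1 : (s.image a).card = s.card := Finset.card_image_of_injective s ha
    have h2 := Finset.card_le_univ (s.image a)
    simp at h2
    omega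
  calc ∏ i ∈ s, c i ≤ ∏ i ∈ s, (4 * M ^ ex (a i)) :=
        Finset.prod_le_prod' (fun i _ => (hc i).trans (card_A_le M _))
    _ = 4 ^ s.card * M ^ (∑ i ∈ s, ex (a i)) := by
        rw [Finset.prod_mul_distrib, Finset.prod_const, Finset.prod_pow_eq_pow_sum]
    _ ≤ 4 ^ 8 * M ^ (5 * s.card + 1) := by
        apply Nat.mul_le_mul
        · exact Nat.pow_le_pow_right (by norm_num) hs
        · apply Nat.pow_le_pow_right hM
          have h1 : ∑ i ∈ s, ex (a i) = ∑ j ∈ s.image a, ex j := by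
            rw [Finset.sum_image]
            intro x _ y _ h; exact ha h
          rw [h1]
          have h2 := sum_ex (s.image a)
          rw [Finset.card_image_of_injective s ha] at h2
          exact h2

/-- Lemma A. -/
lemma lemA (M : ℕ) (hM : 1 ≤ M) (D : Submodule ℂ (Fin 8 → ℂ)) (m : ℕ) (hm : finrank ℂ D = m)
    (T : Finset (Fin 8 → ℤ)) (hT : T ⊆ Box M)
    (hD : ∀ w ∈ T, ∀ w' ∈ T, (fun i => ((w i : ℂ) - (w' i : ℂ))) ∈ D) :
    T.card ≤ 4 ^ 8 * M ^ (5 * m + 1) := by
  obtain ⟨a, e, ha, he⟩ := exists_coords D m hm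
  have h1 : T.card ≤ (Fintype.piFinset (fun i => A M (a i))).card := by
    apply Finset.card_le_card_of_injOn (fun w i => w (a i))
    · intro w hw
      rw [Finset.mem_coe, Fintype.mem_piFinset]
      have := hT hw
      rw [Box, Fintype.mem_piFinset] at this
      intro i
      exact this (a i)
    · intro w hw w' hw' h
      have h2 := hD w hw w' hw'
      have h3 : (⟨_, h2⟩ : D) = 0 := by
        apply e.injective
        funext i
        rw [he, map_zero]
        have := congrFun h i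
        simp only at this
        simp [this]
      have h4 := congrArg Subtype.val h3
      funext i
      have h5 := congrFun h4 i
      simp only [ZeroMemClass.coe_zero, Pi.zero_apply, sub_eq_zero] at h5
      exact_mod_cast h5
  rw [Fintype.card_piFinset] at h1
  have h2 := prod_le M hM a ha Finset.univ (fun i => (A M (a i)).card) (fun i => le_rfl)
  simp only [Finset.card_univ, Fintype.card_fin] at h2
  exact h1.trans h2

/-- Lemma B. -/
lemma lemB (M : ℕ) (hM : 1 ≤ M) (D : Submodule ℂ (Fin 8 → ℂ)) (m : ℕ) (hm : finrank ℂ D = m)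
    (hm5 : 5 ≤ m) (g : D →ₗ[ℂ] ℂ)
    (T : Finset (Fin 8 → ℤ)) (hT : T ⊆ Box M)
    (hD : ∀ w ∈ T, ∀ w' ∈ T, ∃ h : (fun i => ((w i : ℂ) - (w' i : ℂ))) ∈ D,
      g ⟨_, h⟩ = ((Q w : ℤ) : ℂ) - ((Q w' : ℤ) : ℂ)) :
    T.card ≤ 2 * (4 ^ 8 * M ^ (5 * (m - 1) + 1)) := by
  classical
  rcases T.eq_empty_or_nonempty with rfl | ⟨w₀, hw₀⟩
  · simp
  obtain ⟨a, e, ha, he⟩ := exists_coords D m hm
  obtain ⟨v₀, hv₀, hQ₀⟩ := exists_not_singular D (by omega)
  -- coordinates of the base point
  let z₀ : Fin m → ℂ := fun j => (w₀ (a j) : ℂ)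
  let lin : ((Fin m → ℂ) →ₗ[ℂ] ℂ) → MvPolynomial (Fin m) ℂ := fun l =>
    ∑ j, MvPolynomial.C (l (Pi.single j 1)) * (MvPolynomial.X j - MvPolynomial.C (z₀ j))
  have hlin_eval : ∀ l z, MvPolynomial.eval z (lin l) = l (z - z₀) := by
    intro l z
    simp only [lin, map_sum, map_mul, MvPolynomial.eval_C, map_sub, MvPolynomial.eval_X]
    rw [← map_sub, LinearMap.pi_apply_eq_sum_univ l (z - z₀)]
    apply Finset.sum_congr rfl
    intro j _
    have h1 : (Pi.single j 1 : Fin m → ℂ) = fun j_1 => if j = j_1 then 1 else 0 := by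
      funext k
      simp [Pi.single_apply, eq_comm]
    rw [smul_eq_mul, mul_comm, h1]
    rfl
  have hlin_deg : ∀ l, (lin l).totalDegree ≤ 1 := by
    intro l
    apply MvPolynomial.totalDegree_finsetSum_le
    intro j _
    refine (MvPolynomial.totalDegree_mul _ _).trans ?_
    rw [MvPolynomial.totalDegree_C, zero_add]
    refine (MvPolynomial.totalDegree_sub _ _).trans ?_
    simp
  let cd : Fin 8 → ((Fin m → ℂ) →ₗ[ℂ] ℂ) := fun i =>
    (LinearMap.proj i).comp (D.subtype.comp e.symm.toLinearMap)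
  let v00 : Fin 8 → ℂ := fun i => (w₀ i : ℂ)
  let mu : (Fin m → ℂ) →ₗ[ℂ] ℂ :=
    (J v00).comp (D.subtype.comp e.symm.toLinearMap) - g.comp e.symm.toLinearMap
  let P : MvPolynomial (Fin m) ℂ :=
    lin (cd 0) * lin (cd 4) + lin (cd 1) * lin (cd 5) + lin (cd 2) * lin (cd 6) +
      lin (cd 3) * lin (cd 7) + lin mu
  have hPeval : ∀ z, MvPolynomial.eval z P =
      Q ((e.symm (z - z₀) : D) : Fin 8 → ℂ) + J v00 (e.symm (z - z₀) : D) -
        g (e.symm (z - z₀)) := by
    intro z
    simp only [P, map_add, map_mul, hlin_eval]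
    simp only [cd, mu, Q, LinearMap.comp_apply, LinearMap.proj_apply, LinearMap.sub_apply,
      Submodule.subtype_apply, LinearEquiv.coe_coe]
    ring
  have hPdeg : P.totalDegree ≤ 2 := by
    have h2 : ∀ i j, (lin (cd i) * lin (cd j)).totalDegree ≤ 2 := fun i j =>
      (MvPolynomial.totalDegree_mul _ _).trans (by
        have := hlin_deg (cd i); have := hlin_deg (cd j); omega)
    refine (MvPolynomial.totalDegree_add _ _).trans (max_le ?_ ((hlin_deg mu).trans (by norm_num)))
    refine (MvPolynomial.totalDegree_add _ _).trans (max_le ?_ (h2 _ _))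
    refine (MvPolynomial.totalDegree_add _ _).trans (max_le ?_ (h2 _ _))
    exact (MvPolynomial.totalDegree_add _ _).trans (max_le (h2 _ _) (h2 _ _))
  have hP0 : P ≠ 0 := by
    intro h0
    have h1 : ∀ v : D, Q (v : Fin 8 → ℂ) + J v00 v - g v = 0 := by
      intro v
      have := hPeval (e v + z₀)
      rw [h0, map_zero, add_sub_cancel_right, LinearEquiv.symm_apply_apply] at this
      exact this.symm
    have h2 := h1 ⟨v₀, hv₀⟩
    have h3 := h1 (-⟨v₀, hv₀⟩)
    have h4 : Q (-v₀) = Q v₀ := by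
      have := Q_smul (-1) v₀
      simpa using this
    simp only [map_neg, NegMemClass.coe_neg, h4] at h2 h3
    apply hQ₀
    linear_combination (h2 + h3) / 2
  -- the injection
  let S : Fin m → Finset ℂ := fun j => (A M (a j)).image (fun x : ℤ => (x : ℂ))
  have hScard : ∀ j, (S j).card ≤ (A M (a j)).card := fun j => Finset.card_image_le
  have hb : ∀ i, ∏ j ∈ univ.erase i, (S j).card ≤ 4 ^ 8 * M ^ (5 * (m - 1) + 1) := by
    intro i
    have := prod_le M hM a ha (univ.erase i) (fun j => (S j).card) hScard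
    rw [Finset.card_erase_of_mem (mem_univ i), Finset.card_univ, Fintype.card_fin] at this
    exact this
  refine le_trans ?_ (zero_count P hP0 hPdeg S _ hb)
  apply Finset.card_le_card_of_injOn (fun w i => (w (a i) : ℂ))
  · intro w hw
    rw [Finset.mem_coe, Finset.mem_filter, Fintype.mem_piFinset]
    refine ⟨?_, ?_⟩
    · intro i
      have := hT hw
      rw [Box, Fintype.mem_piFinset] at this
      exact Finset.mem_image_of_mem _ (this (a i))
    · obtain ⟨h, hg⟩ := hD w hw w₀ hw₀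
      have h5 : e.symm ((fun i => ((w (a i) : ℤ) : ℂ)) - z₀) = ⟨_, h⟩ := by
        rw [LinearEquiv.symm_apply_eq]
        funext i
        rw [he]
        rfl
      rw [hPeval, h5, hg, J_apply]
      simp only [Q, v00]
      push_cast
      ring
  · intro w hw w' hw' h
    obtain ⟨h2, -⟩ := hD w hw w' hw'
    have h3 : (⟨_, h2⟩ : D) = 0 := by
      apply e.injective
      funext i
      rw [he, map_zero]
      have := congrFun h i
      simp only at this
      simp [this]
    have h4 := congrArg Subtype.val h3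
    funext i
    have h5 := congrFun h4 i
    simp only [ZeroMemClass.coe_zero, Pi.zero_apply, sub_eq_zero] at h5
    exact_mod_cast h5

end

end Q150.Rich
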