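import Mathlib

/-!
# Rich lines in complex affine space: definitions
-/

namespace Q150.Rich

open Finset Module

/-- `F` is an `l`-flat: a nonempty affine subspace of `ℂ^d` of dimension `l`. -/
def IsFlat {d : ℕ} (F : AffineSubspace ℂ (Fin d → ℂ)) (l : ℕ) : Prop :=
  (F : Set (Fin d → ℂ)).Nonempty ∧ finrank ℂ F.direction = l

/-- The set of `r`-rich lines of `V`. -/
def richLines {d : ℕ} (V : Finset (Fin d → ℂ)) (r : ℕ) :
    Set (AffineSubspace ℂ (Fin d → ℂ)) :=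
  {L | IsFlat L 1 ∧ r ≤ ((V : Set (Fin d → ℂ)) ∩ (L : Set (Fin d → ℂ))).ncard}

/-- `s_l(V)`: the largest number of points of `V` on an `l`-flat. -/
noncomputable def flatMax {d : ℕ} (V : Finset (Fin d → ℂ)) (l : ℕ) : ℕ :=
  sSup {m | ∃ F : AffineSubspace ℂ (Fin d → ℂ), IsFlat F l ∧
    m = ((V : Set (Fin d → ℂ)) ∩ (F : Set (Fin d → ℂ))).ncard}

/-- The bracketed expression
`n² r^{-d-1} + ∑_{l=2}^{d-1} n s_l r^{-l-1} + n r^{-1}`. -/
noncomputable def bracket {d : ℕ} (V : Finset (Fin d → ℂ)) (r : ℕ) : ℝ :=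
  (V.card : ℝ) ^ 2 / (r : ℝ) ^ (d + 1) +
    ∑ l ∈ Finset.Icc 2 (d - 1), (V.card : ℝ) * (flatMax V l : ℝ) / (r : ℝ) ^ (l + 1) +
    (V.card : ℝ) / (r : ℝ)

end Q150.Rich
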