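import Pool.Agent.Q150.RichB
import Pool.Agent.Q150.RichDefs

namespace Q150.Rich

open Finset Module

/-! ### The embedding -/

/-- The map of the box to the quadric. -/
noncomputable def Phi (d : ℕ) (w : Fin 8 → ℤ) : Fin d → ℂ := fun j =>
  if h : j.val < 8 then ((w ⟨j.val, h⟩ : ℤ) : ℂ) else if j.val = 8 then ((Q w : ℤ) : ℂ) else 0

/-- The projection to the first eight coordinates. -/
noncomputable def prj (d : ℕ) (hd : 9 ≤ d) : (Fin d → ℂ) →ₗ[ℂ] (Fin 8 → ℂ) :=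
  LinearMap.funLeft ℂ ℂ (Fin.castLE (by omega) : Fin 8 → Fin d)

lemma prj_Phi (d : ℕ) (hd : 9 ≤ d) (w : Fin 8 → ℤ) (i : Fin 8) :
    prj d hd (Phi d w) i = ((w i : ℤ) : ℂ) := by
  have h : ((Fin.castLE (by omega : 8 ≤ d) i : Fin d) : ℕ) < 8 := by simp
  simp only [prj, LinearMap.funLeft_apply, Phi]
  rw [dif_pos h]
  rfl

lemma Phi_eight (d : ℕ) (hd : 9 ≤ d) (w : Fin 8 → ℤ) :
    Phi d w ⟨8, by omega⟩ = ((Q w : ℤ) : ℂ) := by
  simp [Phi]

lemma Phi_inj (d : ℕ) (hd : 9 ≤ d) : Function.Injective (Phi d) := by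
  intro w w' h
  funext i
  have h1 := prj_Phi d hd w i
  rw [h, prj_Phi d hd w' i] at h1
  exact_mod_cast h1.symm

open Classical in
/-- The point set. -/
noncomputable def VV (d M : ℕ) : Finset (Fin d → ℂ) := (Box M).image (Phi d)

lemma card_VV (d M : ℕ) (hd : 9 ≤ d) : (VV d M).card = 256 * M ^ 40 := by
  classical
  rw [VV, Finset.card_image_of_injective _ (Phi_inj d hd), card_Box]

/-- the number of points on a flat -/
lemma flat_count (d M : ℕ) (hd : 9 ≤ d) (hM : 1 ≤ M) (F : AffineSubspace ℂ (Fin d → ℂ)) (l : ℕ)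
    (hl : finrank ℂ F.direction = l) :
    ((VV d M : Set (Fin d → ℂ)) ∩ (F : Set (Fin d → ℂ))).ncard ≤ 4 ^ 8 * M ^ (5 * l + 1) ∧
    (5 ≤ l → ((VV d M : Set (Fin d → ℂ)) ∩ (F : Set (Fin d → ℂ))).ncard ≤
      2 * (4 ^ 8 * M ^ (5 * (l - 1) + 1))) := by
  classical
  let T : Finset (Fin 8 → ℤ) := (Box M).filter (fun w => Phi d w ∈ F)
  have hTB : T ⊆ Box M := Finset.filter_subset _ _
  have hcard : ((VV d M : Set (Fin d → ℂ)) ∩ (F : Set (Fin d → ℂ))).ncard ≤ T.card := by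
    have h1 : ((VV d M : Set (Fin d → ℂ)) ∩ (F : Set (Fin d → ℂ))) ⊆
        ((T.image (Phi d) : Finset (Fin d → ℂ)) : Set (Fin d → ℂ)) := by
      rintro x ⟨hx1, hx2⟩
      rw [Finset.mem_coe, VV, Finset.mem_image] at hx1
      obtain ⟨w, hw, rfl⟩ := hx1
      rw [Finset.mem_coe, Finset.mem_image]
      exact ⟨w, Finset.mem_filter.2 ⟨hw, hx2⟩, rfl⟩
    refine (Set.ncard_le_ncard h1 (Finset.finite_toSet _)).trans ?_
    rw [Set.ncard_coe_finset]
    exact Finset.card_image_le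
  let D' : Submodule ℂ (Fin 8 → ℂ) := F.direction.map (prj d hd)
  have hprj : ∀ w w' : Fin 8 → ℤ, prj d hd (Phi d w - Phi d w') =
      (fun i => (((w i : ℤ) : ℂ) - ((w' i : ℤ) : ℂ))) := by
    intro w w'
    rw [map_sub]
    funext i
    rw [Pi.sub_apply, prj_Phi, prj_Phi]
  have hdir : ∀ w ∈ T, ∀ w' ∈ T, Phi d w - Phi d w' ∈ F.direction := by
    intro w hw w' hw'
    exact AffineSubspace.vsub_mem_direction (Finset.mem_filter.1 hw).2 (Finset.mem_filter.1 hw').2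
  have hD : ∀ w ∈ T, ∀ w' ∈ T, (fun i => (((w i : ℤ) : ℂ) - ((w' i : ℤ) : ℂ))) ∈ D' := by
    intro w hw w' hw'
    rw [← hprj]
    exact Submodule.mem_map_of_mem (hdir w hw w' hw')
  have hm : finrank ℂ D' ≤ l := by
    rw [← hl]; exact Submodule.finrank_map_le _ _
  have hA := lemA M hM D' _ rfl T hTB hD
  refine ⟨hcard.trans (hA.trans ?_), ?_⟩
  · apply Nat.mul_le_mul_left
    apply Nat.pow_le_pow_right hM
    omega
  · intro hl5
    refine hcard.trans ?_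
    rcases Nat.lt_or_ge (finrank ℂ D') l with hlt | hge
    · refine hA.trans ?_
      have : M ^ (5 * finrank ℂ D' + 1) ≤ M ^ (5 * (l - 1) + 1) := by
        apply Nat.pow_le_pow_right hM
        omega
      have h2 : 4 ^ 8 * M ^ (5 * finrank ℂ D' + 1) ≤ 4 ^ 8 * M ^ (5 * (l - 1) + 1) :=
        Nat.mul_le_mul_left _ this
      omega
    · have hml : finrank ℂ D' = l := le_antisymm hm hge
      -- the projection is injective on the direction
      let pr : F.direction →ₗ[ℂ] D' :=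
        ((prj d hd).domRestrict F.direction).codRestrict D'
          (fun v => Submodule.mem_map_of_mem v.2)
      have hsurj : Function.Surjective pr := by
        rintro ⟨y, hy⟩
        obtain ⟨v, hv, rfl⟩ := hy
        exact ⟨⟨v, hv⟩, rfl⟩
      have hfr : finrank ℂ F.direction = finrank ℂ D' := by rw [hl, hml]
      have hinj : Function.Injective pr :=
        (LinearMap.injective_iff_surjective_of_finrank_eq_finrank hfr).2 hsurj
      let e : F.direction ≃ₗ[ℂ] D' := LinearEquiv.ofBijective pr ⟨hinj, hsurj⟩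
      let g : D' →ₗ[ℂ] ℂ := (LinearMap.proj (⟨8, by omega⟩ : Fin d)).comp
        (F.direction.subtype.comp e.symm.toLinearMap)
      apply lemB M hM D' l hml hl5 g T hTB
      intro w hw w' hw'
      refine ⟨hD w hw w' hw', ?_⟩
      have h1 : e.symm ⟨_, hD w hw w' hw'⟩ = ⟨Phi d w - Phi d w', hdir w hw w' hw'⟩ := by
        rw [LinearEquiv.symm_apply_eq]
        apply Subtype.ext
        exact (hprj w w').symm
      show ((e.symm ⟨_, hD w hw w' hw'⟩ : F.direction) : Fin d → ℂ) ⟨8, by omega⟩ = _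
      rw [h1]
      show Phi d w _ - Phi d w' _ = _
      rw [Phi_eight d hd, Phi_eight d hd]

lemma flatMax_le {d : ℕ} (V : Finset (Fin d → ℂ)) (l b : ℕ)
    (h : ∀ F : AffineSubspace ℂ (Fin d → ℂ), finrank ℂ F.direction = l →
      ((V : Set (Fin d → ℂ)) ∩ (F : Set (Fin d → ℂ))).ncard ≤ b) : flatMax V l ≤ b := by
  unfold flatMax
  by_cases hne : {m | ∃ F : AffineSubspace ℂ (Fin d → ℂ), IsFlat F l ∧
    m = ((V : Set (Fin d → ℂ)) ∩ (F : Set (Fin d → ℂ))).ncard}.Nonempty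
  · apply csSup_le hne
    rintro m ⟨F, hF, rfl⟩
    exact h F hF.2
  · rw [Set.not_nonempty_iff_eq_empty] at hne
    rw [hne]
    simp

/-- all terms of the bracket are small -/
lemma term_bound (d M l : ℕ) (hd : 9 ≤ d) (hM : 1 ≤ M) (hl : 2 ≤ l) :
    (VV d M).card * flatMax (VV d M) l ≤ 2 ^ 25 * M ^ 41 * (M ^ 4) ^ (l + 1) := by
  rw [card_VV d M hd]
  have hpow : 2 ^ 25 * M ^ 41 * (M ^ 4) ^ (l + 1) = 2 ^ 25 * M ^ (45 + 4 * l) := by
    rw [← pow_mul, mul_assoc, ← pow_add]; congr 2; ring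
  rw [hpow]
  rcases Nat.lt_or_ge l 5 with h5 | h5
  · have h1 : flatMax (VV d M) l ≤ 4 ^ 8 * M ^ (5 * l + 1) :=
      flatMax_le _ _ _ (fun F hF => (flat_count d M hd hM F l hF).1)
    calc 256 * M ^ 40 * flatMax (VV d M) l ≤ 256 * M ^ 40 * (4 ^ 8 * M ^ (5 * l + 1)) :=
          Nat.mul_le_mul_left _ h1
      _ = 2 ^ 24 * M ^ (5 * l + 41) := by
          have : M ^ (5 * l + 41) = M ^ 40 * M ^ (5 * l + 1) := by rw [← pow_add]; congr 1; ring
          rw [this]; ring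
      _ ≤ 2 ^ 25 * M ^ (45 + 4 * l) :=
          Nat.mul_le_mul (by norm_num) (Nat.pow_le_pow_right hM (by omega))
  · rcases Nat.lt_or_ge l 9 with h9 | h9
    · have h1 : flatMax (VV d M) l ≤ 2 * (4 ^ 8 * M ^ (5 * (l - 1) + 1)) :=
        flatMax_le _ _ _ (fun F hF => (flat_count d M hd hM F l hF).2 h5)
      calc 256 * M ^ 40 * flatMax (VV d M) l ≤
            256 * M ^ 40 * (2 * (4 ^ 8 * M ^ (5 * (l - 1) + 1))) :=
            Nat.mul_le_mul_left _ h1
        _ = 2 ^ 25 * M ^ (40 + (5 * (l - 1) + 1)) := by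
            rw [pow_add]; ring
        _ ≤ 2 ^ 25 * M ^ (45 + 4 * l) :=
            Nat.mul_le_mul le_rfl (Nat.pow_le_pow_right hM (by omega))
    · have h1 : flatMax (VV d M) l ≤ 256 * M ^ 40 := by
        apply flatMax_le
        intro F _
        rw [← card_VV d M hd, ← Set.ncard_coe_finset (VV d M)]
        exact Set.ncard_le_ncard Set.inter_subset_left (Finset.finite_toSet _)
      calc 256 * M ^ 40 * flatMax (VV d M) l ≤ 256 * M ^ 40 * (256 * M ^ 40) :=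
            Nat.mul_le_mul_left _ h1
        _ = 2 ^ 16 * M ^ 80 := by ring
        _ ≤ 2 ^ 25 * M ^ (45 + 4 * l) :=
            Nat.mul_le_mul (by norm_num) (Nat.pow_le_pow_right hM (by omega))

lemma bracket_bound (d M : ℕ) (hd : 9 ≤ d) (hM : 1 ≤ M) :
    bracket (VV d M) (M ^ 4) ≤ (d + 2) * 2 ^ 25 * (M : ℝ) ^ 41 := by
  have hMr : (1 : ℝ) ≤ M := by exact_mod_cast hM
  have hMpos : (0 : ℝ) < M := by linarith
  unfold bracket
  have h1 : ((VV d M).card : ℝ) ^ 2 / ((M ^ 4 : ℕ) : ℝ) ^ (d + 1) ≤ 2 ^ 25 * (M : ℝ) ^ 41 := by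
    rw [div_le_iff₀ (by positivity), card_VV d M hd]
    push_cast
    have h2 : ((M : ℝ) ^ 4) ^ 10 ≤ ((M : ℝ) ^ 4) ^ (d + 1) := by
      apply pow_le_pow_right₀
      · exact one_le_pow₀ hMr
      · omega
    calc (256 * (M : ℝ) ^ 40) ^ 2 = 2 ^ 16 * (M : ℝ) ^ 40 * (M : ℝ) ^ 40 := by ring
      _ ≤ 2 ^ 25 * (M : ℝ) ^ 41 * (M : ℝ) ^ 40 := by
          have h8 : (M : ℝ) ^ 40 ≤ (M : ℝ) ^ 41 := pow_le_pow_right₀ hMr (by norm_num)
          have h9 : (2 : ℝ) ^ 16 * (M : ℝ) ^ 40 ≤ 2 ^ 25 * (M : ℝ) ^ 41 :=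
            mul_le_mul (by norm_num) h8 (by positivity) (by positivity)
          exact mul_le_mul_of_nonneg_right h9 (by positivity)
      _ = 2 ^ 25 * (M : ℝ) ^ 41 * ((M : ℝ) ^ 4) ^ 10 := by ring
      _ ≤ _ := by gcongr
  have h3 : ∀ l ∈ Finset.Icc 2 (d - 1), ((VV d M).card : ℝ) * (flatMax (VV d M) l : ℝ) /
      ((M ^ 4 : ℕ) : ℝ) ^ (l + 1) ≤ 2 ^ 25 * (M : ℝ) ^ 41 := by
    intro l hl
    rw [Finset.mem_Icc] at hl
    rw [div_le_iff₀ (by positivity)]
    exact_mod_cast term_bound d M l hd hM hl.1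
  have h4 := Finset.sum_le_sum h3
  rw [Finset.sum_const, Nat.card_Icc, nsmul_eq_mul] at h4
  have h5 : ((VV d M).card : ℝ) / ((M ^ 4 : ℕ) : ℝ) ≤ 2 ^ 25 * (M : ℝ) ^ 41 := by
    rw [div_le_iff₀ (by positivity), card_VV d M hd]
    push_cast
    calc 256 * (M : ℝ) ^ 40 = 256 * (M : ℝ) ^ 40 * 1 := by ring
      _ ≤ 256 * (M : ℝ) ^ 40 * (M : ℝ) ^ 5 := by
          gcongr; exact one_le_pow₀ hMr
      _ ≤ 2 ^ 25 * (M : ℝ) ^ 40 * (M : ℝ) ^ 5 := by gcongr; norm_num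
      _ = _ := by ring
  have h6 : ((d - 1 + 1 - 2 : ℕ) : ℝ) ≤ d := by
    exact_mod_cast (by omega : d - 1 + 1 - 2 ≤ d)
  have h7 : ((d - 1 + 1 - 2 : ℕ) : ℝ) * (2 ^ 25 * (M : ℝ) ^ 41) ≤ d * (2 ^ 25 * (M : ℝ) ^ 41) := by
    gcongr
  calc _ ≤ 2 ^ 25 * (M : ℝ) ^ 41 + d * (2 ^ 25 * (M : ℝ) ^ 41) + 2 ^ 25 * (M : ℝ) ^ 41 := by
        linarith
    _ = _ := by ring

/-! ### The rich lines -/

/-- The points on the line with parameters `p`. -/
def pt (p : Fin 13 → ℤ) (t : ℤ) : Fin 8 → ℤ :=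
  ![t, p 0 + t * p 7, p 1 + t * p 8, p 2 + t * p 9,
    p 6 - t * (p 7 * p 10 + p 8 * p 11 + p 9 * p 12),
    p 3 + t * p 10, p 4 + t * p 11, p 5 + t * p 12]

/-- exponents for the parameters -/
def pex : Fin 13 → ℕ := ![5, 5, 5, 5, 5, 5, 6, 1, 1, 1, 1, 1, 1]

/-- The parameter box. -/
noncomputable def PB (M : ℕ) : Finset (Fin 13 → ℤ) :=
  Fintype.piFinset (fun i => Finset.Ico 0 ((M : ℤ) ^ pex i))

lemma card_PB (M : ℕ) : (PB M).card = M ^ 42 := by
  rw [PB, Fintype.card_piFinset]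
  have h : ∀ i, (Finset.Ico 0 ((M : ℤ) ^ pex i)).card = M ^ pex i := by
    intro i
    rw [Int.card_Ico, sub_zero, ← Nat.cast_pow]
    exact Int.toNat_natCast _
  rw [Finset.prod_congr rfl (fun i _ => h i), Finset.prod_pow_eq_pow_sum]
  congr 1

lemma pt_mem (M : ℕ) (p : Fin 13 → ℤ) (hp : p ∈ PB M) (t : ℤ) (ht0 : 0 ≤ t)
    (ht : t < (M : ℤ) ^ 4) : pt p t ∈ Box M := by
  rw [PB, Fintype.mem_piFinset] at hp
  have hlt : ∀ i, 0 ≤ p i ∧ p i < (M : ℤ) ^ pex i := fun i => by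
    have := hp i
    rwa [Finset.mem_Ico] at this
  have h0 := hlt 0
  have h1 := hlt 1
  have h2 := hlt 2
  have h3 := hlt 3
  have h4 := hlt 4
  have h5 := hlt 5
  have h6 := hlt 6
  have h7 := hlt 7
  have h8 := hlt 8
  have h9 := hlt 9
  have h10 := hlt 10
  have h11 := hlt 11
  have h12 := hlt 12
  simp only [pex, Matrix.cons_val] at h0 h1 h2 h3 h4 h5 h6 h7 h8 h9 h10 h11 h12
  simp only [pow_one] at h7 h8 h9 h10 h11 h12
  have hMpos : (0 : ℤ) ≤ M := by positivity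
  have key : ∀ q : ℤ, 0 ≤ q → q < M → 0 ≤ t * q ∧ t * q ≤ (M : ℤ) ^ 5 := by
    intro q hq0 hq
    refine ⟨mul_nonneg ht0 hq0, ?_⟩
    calc t * q ≤ (M : ℤ) ^ 4 * M := mul_le_mul ht.le hq.le hq0 (by positivity)
      _ = _ := by ring
  have key2 : ∀ q q' : ℤ, 0 ≤ q → q < M → 0 ≤ q' → q' < M →
      0 ≤ t * (q * q') ∧ t * (q * q') ≤ (M : ℤ) ^ 6 := by
    intro q q' hq0 hq hq0' hq'
    refine ⟨mul_nonneg ht0 (mul_nonneg hq0 hq0'), ?_⟩
    calc t * (q * q') ≤ (M : ℤ) ^ 4 * (M * M) :=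
          mul_le_mul ht.le (mul_le_mul hq.le hq'.le hq0' hMpos) (mul_nonneg hq0 hq0')
            (by positivity)
      _ = _ := by ring
  have k7 := key _ h7.1 h7.2
  have k8 := key _ h8.1 h8.2
  have k9 := key _ h9.1 h9.2
  have k10 := key _ h10.1 h10.2
  have k11 := key _ h11.1 h11.2
  have k12 := key _ h12.1 h12.2
  have kk1 := key2 _ _ h7.1 h7.2 h10.1 h10.2
  have kk2 := key2 _ _ h8.1 h8.2 h11.1 h11.2
  have kk3 := key2 _ _ h9.1 h9.2 h12.1 h12.2
  rw [Box, Fintype.mem_piFinset]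
  intro i
  fin_cases i
  · simp [A, pt, ht0, ht]
  · simp [A, pt]; constructor <;> linarith
  · simp [A, pt]; constructor <;> linarith
  · simp [A, pt]; constructor <;> linarith
  · simp [A, pt]; constructor <;> nlinarith
  · simp [A, pt]; constructor <;> linarith
  · simp [A, pt]; constructor <;> linarith
  · simp [A, pt]; constructor <;> linarith

lemma Q_pt (p : Fin 13 → ℤ) (t : ℤ) :
    Q (pt p t) = Q (pt p 0) + t * (Q (pt p 1) - Q (pt p 0)) := by
  simp only [Q, pt, Matrix.cons_val]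
  ring

/-- direction vector of the line -/
noncomputable def dv (d : ℕ) (p : Fin 13 → ℤ) : Fin d → ℂ := Phi d (pt p 1) - Phi d (pt p 0)

lemma Phi_pt (d : ℕ) (p : Fin 13 → ℤ) (t : ℤ) :
    Phi d (pt p t) = Phi d (pt p 0) + (t : ℂ) • dv d p := by
  funext j
  simp only [Pi.add_apply, Pi.smul_apply, dv, Pi.sub_apply, Phi, smul_eq_mul]
  by_cases h : j.val < 8
  · simp only [dif_pos h]
    have h2 : ∀ i : Fin 8, pt p t i = pt p 0 i + t * (pt p 1 i - pt p 0 i) := by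
      intro i
      fin_cases i <;> simp [pt] <;> ring
    rw [h2]
    push_cast
    ring
  · simp only [dif_neg h]
    by_cases h8 : j.val = 8
    · simp only [if_pos h8]
      rw [Q_pt p t]
      push_cast
      ring
    · simp [if_neg h8]

/-- the line -/
noncomputable def ln (d : ℕ) (p : Fin 13 → ℤ) : AffineSubspace ℂ (Fin d → ℂ) :=
  AffineSubspace.mk' (Phi d (pt p 0)) (Submodule.span ℂ {dv d p})

lemma mem_ln (d : ℕ) (p : Fin 13 → ℤ) (t : ℤ) : Phi d (pt p t) ∈ ln d p := by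
  rw [ln, AffineSubspace.mem_mk', Phi_pt d p t, vsub_eq_sub, add_sub_cancel_left]
  exact Submodule.smul_mem _ _ (Submodule.mem_span_singleton_self _)

lemma Phi_zero (d : ℕ) (hd : 9 ≤ d) (w : Fin 8 → ℤ) :
    Phi d w ⟨0, by omega⟩ = ((w 0 : ℤ) : ℂ) := by
  simp [Phi]

lemma dv_zero (d : ℕ) (hd : 9 ≤ d) (p : Fin 13 → ℤ) : dv d p ⟨0, by omega⟩ = 1 := by
  rw [dv, Pi.sub_apply, Phi_zero d hd, Phi_zero d hd]
  simp [pt]

lemma dv_ne (d : ℕ) (hd : 9 ≤ d) (p : Fin 13 → ℤ) : dv d p ≠ 0 := by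
  intro h
  have := dv_zero d hd p
  rw [h] at this
  simp at this

lemma ln_flat (d : ℕ) (hd : 9 ≤ d) (p : Fin 13 → ℤ) : IsFlat (ln d p) 1 := by
  refine ⟨⟨_, mem_ln d p 0⟩, ?_⟩
  rw [ln, AffineSubspace.direction_mk']
  exact finrank_span_singleton (dv_ne d hd p)

lemma ln_unique (d : ℕ) (hd : 9 ≤ d) (p p' : Fin 13 → ℤ) (h : ln d p = ln d p') (t : ℤ) :
    pt p t = pt p' t := by
  have h1 : Phi d (pt p t) ∈ ln d p' := by rw [← h]; exact mem_ln d p t
  rw [ln, AffineSubspace.mem_mk', vsub_eq_sub, Submodule.mem_span_singleton] at h1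
  obtain ⟨s, hs⟩ := h1
  have h2 := congrFun hs ⟨0, by omega⟩
  rw [Pi.smul_apply, dv_zero d hd, Pi.sub_apply, Phi_zero d hd, Phi_zero d hd] at h2
  have h3 : s = (t : ℂ) := by simpa [pt] using h2
  apply Phi_inj d hd
  rw [Phi_pt d p' t, ← h3, hs]
  abel

lemma ln_inj (d : ℕ) (hd : 9 ≤ d) : Function.Injective (ln d) := by
  intro p p' h
  have h0 := ln_unique d hd p p' h 0
  have h1 := ln_unique d hd p p' h 1
  have a1 := congrFun h0 1
  have a2 := congrFun h0 2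
  have a3 := congrFun h0 3
  have a4 := congrFun h0 4
  have a5 := congrFun h0 5
  have a6 := congrFun h0 6
  have a7 := congrFun h0 7
  have b1 := congrFun h1 1
  have b2 := congrFun h1 2
  have b3 := congrFun h1 3
  have b5 := congrFun h1 5
  have b6 := congrFun h1 6
  have b7 := congrFun h1 7
  simp only [pt, Matrix.cons_val, zero_mul, add_zero, sub_zero, one_mul] at a1 a2 a3 a4 a5 a6 a7
  simp only [pt, Matrix.cons_val, zero_mul, add_zero, sub_zero, one_mul] at b1 b2 b3 b5 b6 b7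
  funext i
  fin_cases i
  · exact a1
  · exact a2
  · exact a3
  · exact a5
  · exact a6
  · exact a7
  · exact a4
  · show p 7 = p' 7; linarith
  · show p 8 = p' 8; linarith
  · show p 9 = p' 9; linarith
  · show p 10 = p' 10; linarith
  · show p 11 = p' 11; linarith
  · show p 12 = p' 12; linarith

lemma ln_rich (d M : ℕ) (hd : 9 ≤ d) (p : Fin 13 → ℤ) (hp : p ∈ PB M) :
    ln d p ∈ richLines (VV d M) (M ^ 4) := by
  classical
  refine ⟨ln_flat d hd p, ?_⟩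
  let f : ℕ → (Fin d → ℂ) := fun t => Phi d (pt p t)
  have hf : Function.Injective f := by
    intro t t' h
    have := congrFun (Phi_inj d hd h) 0
    simpa [pt] using this
  have h1 : (((Finset.range (M ^ 4)).image f : Finset (Fin d → ℂ)) : Set (Fin d → ℂ)) ⊆
      ((VV d M : Set (Fin d → ℂ)) ∩ (ln d p : Set (Fin d → ℂ))) := by
    intro x hx
    rw [Finset.mem_coe, Finset.mem_image] at hx
    obtain ⟨t, ht, rfl⟩ := hx
    rw [Finset.mem_range] at ht
    refine ⟨?_, mem_ln d p t⟩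
    rw [Finset.mem_coe, VV]
    exact Finset.mem_image_of_mem _ (pt_mem M p hp t (by positivity) (by exact_mod_cast ht))
  have h2 := Set.ncard_le_ncard h1 ((Finset.finite_toSet _).subset Set.inter_subset_left)
  rw [Set.ncard_coe_finset, Finset.card_image_of_injective _ hf, Finset.card_range] at h2
  exact h2

lemma richLines_finite {d : ℕ} (V : Finset (Fin d → ℂ)) (r : ℕ) (hr : 2 ≤ r) :
    (richLines V r).Finite := by
  classical
  apply ((V ×ˢ V).image (fun x => AffineSubspace.mk' x.1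
    (Submodule.span ℂ {x.2 - x.1}))).finite_toSet.subset
  rintro L ⟨⟨_, hL1⟩, hL2⟩
  have h1 : 1 < ((V : Set (Fin d → ℂ)) ∩ (L : Set (Fin d → ℂ))).ncard := by omega
  rw [Set.one_lt_ncard ((Finset.finite_toSet V).subset Set.inter_subset_left)] at h1
  obtain ⟨a, ⟨haV, haL⟩, b, ⟨hbV, hbL⟩, hab⟩ := h1
  rw [Finset.mem_coe, Finset.mem_image]
  refine ⟨(a, b), Finset.mem_product.2 ⟨haV, hbV⟩, ?_⟩
  have hne : b - a ≠ 0 := sub_ne_zero.2 (Ne.symm hab)
  have hdir : Submodule.span ℂ {b - a} = L.direction := by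
    apply Submodule.eq_of_le_of_finrank_eq
    · rw [Submodule.span_singleton_le_iff_mem]
      exact AffineSubspace.vsub_mem_direction hbL haL
    · rw [hL1]; exact finrank_span_singleton hne
  show AffineSubspace.mk' a (Submodule.span ℂ {b - a}) = L
  rw [hdir]
  exact AffineSubspace.mk'_eq haL

theorem main : ∀ d : ℕ, 9 ≤ d → ¬ ∃ C : ℝ, ∀ (V : Finset (Fin d → ℂ)) (r : ℕ), 2 ≤ r →
    ((richLines V r).ncard : ℝ) ≤ C * bracket V r := by
  classical
  rintro d hd ⟨C, hC⟩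
  obtain ⟨M, hM⟩ := exists_nat_gt (max 2 (|C| * ((d + 2) * 2 ^ 25)))
  have hM2 : (2 : ℝ) < M := lt_of_le_of_lt (le_max_left _ _) hM
  have hMC : |C| * ((d + 2) * 2 ^ 25) < M := lt_of_le_of_lt (le_max_right _ _) hM
  have hM1 : 1 ≤ M := by
    have : (1 : ℝ) < M := by linarith
    exact_mod_cast this.le
  have hM2' : 2 ≤ M := by exact_mod_cast hM2.le
  have hr : 2 ≤ M ^ 4 := by
    calc 2 ≤ 2 ^ 4 := by norm_num
      _ ≤ M ^ 4 := Nat.pow_le_pow_left hM2' 4
  have h1 := hC (VV d M) (M ^ 4) hr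
  have h2 : M ^ 42 ≤ (richLines (VV d M) (M ^ 4)).ncard := by
    have h3 : (((PB M).image (ln d) : Finset (AffineSubspace ℂ (Fin d → ℂ))) :
        Set (AffineSubspace ℂ (Fin d → ℂ))) ⊆ richLines (VV d M) (M ^ 4) := by
      intro L hL
      rw [Finset.mem_coe, Finset.mem_image] at hL
      obtain ⟨p, hp, rfl⟩ := hL
      exact ln_rich d M hd p hp
    have h4 := Set.ncard_le_ncard h3 (richLines_finite _ _ hr)
    rw [Set.ncard_coe_finset, Finset.card_image_of_injective _ (ln_inj d hd), card_PB] at h4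
    exact h4
  have h5 : ((M ^ 42 : ℕ) : ℝ) ≤ ((richLines (VV d M) (M ^ 4)).ncard : ℝ) := by exact_mod_cast h2
  have hb0 : 0 ≤ bracket (VV d M) (M ^ 4) := by
    unfold bracket
    positivity
  have h6 : C * bracket (VV d M) (M ^ 4) ≤ |C| * ((d + 2) * 2 ^ 25 * (M : ℝ) ^ 41) := by
    calc C * bracket (VV d M) (M ^ 4) ≤ |C| * bracket (VV d M) (M ^ 4) := by
          gcongr; exact le_abs_self C
      _ ≤ _ := by
          gcongr; exact bracket_bound d M hd hM1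
  have hpos : (0 : ℝ) < (M : ℝ) ^ 41 := by positivity
  have h7 : |C| * ((d + 2) * 2 ^ 25 * (M : ℝ) ^ 41) < (M : ℝ) ^ 42 := by
    calc |C| * ((d + 2) * 2 ^ 25 * (M : ℝ) ^ 41) = |C| * ((d + 2) * 2 ^ 25) * (M : ℝ) ^ 41 := by
          ring
      _ < M * (M : ℝ) ^ 41 := by gcongr
      _ = _ := by ring
  push_cast at h5
  linarith

end Q150.Rich
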