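import Pool.Agent.Q16.SQ.Stm

/-!
# Project SQ (helper16), job KSQ: dissection of a triangle into `k ^ 2` similar congruent triangles
-/

set_option autoImplicit false
noncomputable section

open Pool.Agent.Helper549.Tri

namespace Pool.Agent.Q150.SQK

abbrev E2 := EuclideanSpace ℝ (Fin 2)

/-- affine coordinates -/
theorem coord (T : Fin 3 → E2) (hT : AffineIndependent ℝ T) (k : ℕ) (hk : 0 < k) :
    ∃ Φ : (ℝ × ℝ) ≃ₜ E2, ∀ p, Φ p = T 0 + (p.1 • ((1 / k : ℝ) • (T 1 - T 0)) +
      p.2 • ((1 / k : ℝ) • (T 2 - T 0))) := by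
  have hk' : (k : ℝ) ≠ 0 := by exact_mod_cast hk.ne'
  have h1 := (affineIndependent_iff_linearIndependent_vsub ℝ T 0).1 hT
  have h2 : LinearIndependent ℝ (fun i : Fin 2 => T i.succ - T 0) := by
    have := h1.comp (fun i : Fin 2 => (⟨i.succ, Fin.succ_ne_zero i⟩ : {x : Fin 3 // x ≠ 0}))
      (fun a b hab => by simpa using hab)
    exact this
  let b := basisOfLinearIndependentOfCardEqFinrank h2 (by simp)
  have hb : ∀ i, b i = T i.succ - T 0 := fun i => by simp [b]
  let L : (ℝ × ℝ) ≃ₗ[ℝ] E2 := (LinearEquiv.finTwoArrow ℝ ℝ).symm ≪≫ₗ b.equivFun.symm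
  have hL : ∀ p, L p = p.1 • (T 1 - T 0) + p.2 • (T 2 - T 0) := by
    intro p
    simp only [L, LinearEquiv.trans_apply, Module.Basis.equivFun_symm_apply, Fin.sum_univ_two, hb]
    simp [LinearEquiv.finTwoArrow]
  refine ⟨(Homeomorph.smulOfNeZero (1 / k : ℝ) (by positivity)).trans
    (L.toContinuousLinearEquiv.toHomeomorph.trans (Homeomorph.addLeft (T 0))), fun p => ?_⟩
  have : (L.toContinuousLinearEquiv.toHomeomorph : ℝ × ℝ → E2) = L := rfl
  simp only [Homeomorph.trans_apply, Homeomorph.coe_addLeft, Homeomorph.smulOfNeZero_apply, this, hL]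
  simp only [Prod.smul_fst, Prod.smul_snd, smul_eq_mul]
  module

/-- the tile in coordinates -/
def S (e : ℝ) (a : ℝ × ℝ) (r : ℝ) : Set (ℝ × ℝ) :=
  {p | 0 ≤ e * (p.1 - a.1) ∧ 0 ≤ e * (p.2 - a.2) ∧ e * (p.1 - a.1) + e * (p.2 - a.2) ≤ r}

theorem tri {T : Fin 3 → E2} {u v : E2} {Φ : (ℝ × ℝ) ≃ₜ E2}
    (hΦ : ∀ p, Φ p = T 0 + (p.1 • u + p.2 • v)) {e r : ℝ} (he : e = 1 ∨ e = -1) (hr : 0 < r)
    (a : ℝ × ℝ) (w : Fin 3 → E2) (h0 : w 0 = Φ a) (h1 : w 1 = Φ (a.1 + e * r, a.2))
    (h2 : w 2 = Φ (a.1, a.2 + e * r)) : TriSet w = Φ '' S e a r := by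
  have hee : e * e = 1 := by rcases he with rfl | rfl <;> norm_num
  apply Set.Subset.antisymm
  · apply convexHull_min
    · rintro _ ⟨i, rfl⟩
      fin_cases i
      · exact ⟨a, by simp [S, hr.le], h0.symm⟩
      · refine ⟨(a.1 + e * r, a.2), ?_, h1.symm⟩
        simp only [S, Set.mem_ofPred_eq, add_sub_cancel_left, sub_self, mul_zero, add_zero,
          ← mul_assoc, hee, one_mul]
        exact ⟨hr.le, le_refl _, le_refl _⟩
      · refine ⟨(a.1, a.2 + e * r), ?_, h2.symm⟩
        simp only [S, Set.mem_ofPred_eq, add_sub_cancel_left, sub_self, mul_zero, zero_add,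
          ← mul_assoc, hee, one_mul]
        exact ⟨le_refl _, hr.le, le_refl _⟩
    · rintro _ ⟨p, hp, rfl⟩ _ ⟨q, hq, rfl⟩ s t hs ht hst
      refine ⟨(s * p.1 + t * q.1, s * p.2 + t * q.2), ?_, ?_⟩
      · obtain ⟨hp1, hp2, hp3⟩ := hp
        obtain ⟨hq1, hq2, hq3⟩ := hq
        have e1 : e * (s * p.1 + t * q.1 - a.1) = s * (e * (p.1 - a.1)) + t * (e * (q.1 - a.1)) := by
          linear_combination (e * a.1) * hst
        have e2 : e * (s * p.2 + t * q.2 - a.2) = s * (e * (p.2 - a.2)) + t * (e * (q.2 - a.2)) := by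
          linear_combination (e * a.2) * hst
        refine ⟨?_, ?_, ?_⟩
        · simp only [e1]; positivity
        · simp only [e2]; positivity
        · simp only [e1, e2]
          nlinarith [mul_le_mul_of_nonneg_left hp3 hs, mul_le_mul_of_nonneg_left hq3 ht]
      · rw [hΦ, hΦ, hΦ]
        obtain rfl : t = 1 - s := by linarith
        module
  · rintro _ ⟨p, ⟨hp1, hp2, hp3⟩, rfl⟩
    have hmem := (convex_convexHull ℝ (Set.range w)).sum_mem (t := Finset.univ)
      (w := ![1 - (e * (p.1 - a.1) / r + e * (p.2 - a.2) / r), e * (p.1 - a.1) / r,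
        e * (p.2 - a.2) / r]) (z := w) (by
          intro i _
          fin_cases i
          · simp only [Fin.zero_eta, Matrix.cons_val_zero, ← add_div, sub_nonneg]
            rw [div_le_one hr]; exact hp3
          · simp only [Fin.mk_one, Matrix.cons_val_one, Matrix.cons_val_zero]
            positivity
          · simp only [Fin.reduceFinMk, Matrix.cons_val]
            positivity) (by
          rw [Fin.sum_univ_three]
          simp only [Matrix.cons_val_zero, Matrix.cons_val_one, Matrix.cons_val]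
          ring) (fun i _ => subset_convexHull ℝ _ ⟨i, rfl⟩)
    have hE : Φ p = ∑ i ∈ Finset.univ, (![1 - (e * (p.1 - a.1) / r + e * (p.2 - a.2) / r),
        e * (p.1 - a.1) / r, e * (p.2 - a.2) / r] : Fin 3 → ℝ) i • w i := by
      rw [Fin.sum_univ_three]
      simp only [Matrix.cons_val_zero, Matrix.cons_val_one, Matrix.cons_val]
      rw [h0, h1, h2, hΦ, hΦ, hΦ, hΦ]
      set x := e * (p.1 - a.1) / r with hx
      set y := e * (p.2 - a.2) / r with hy
      have hp1' : p.1 = a.1 + e * (x * r) := by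
        rw [hx, div_mul_cancel₀ _ hr.ne']
        linear_combination (a.1 - p.1) * hee
      have hp2' : p.2 = a.2 + e * (y * r) := by
        rw [hy, div_mul_cancel₀ _ hr.ne']
        linear_combination (a.2 - p.2) * hee
      rw [hp1', hp2']
      simp only
      module
    show Φ p ∈ convexHull ℝ (Set.range w)
    rw [hE]
    exact hmem

theorem interior_S {e : ℝ} (he : e = 1 ∨ e = -1) (a : ℝ × ℝ) (r : ℝ) {p : ℝ × ℝ}
    (hp : p ∈ interior (S e a r)) :
    0 < e * (p.1 - a.1) ∧ 0 < e * (p.2 - a.2) ∧ e * (p.1 - a.1) + e * (p.2 - a.2) < r := by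
  have hee : e * e = 1 := by rcases he with rfl | rfl <;> norm_num
  have key : ∀ d : ℝ × ℝ, ∃ t : ℝ, 0 < t ∧ (p.1 + t * d.1, p.2 + t * d.2) ∈ S e a r := by
    intro d
    have hc : Continuous fun t : ℝ => ((p.1 + t * d.1, p.2 + t * d.2) : ℝ × ℝ) := by fun_prop
    have h0 : ∀ᶠ t : ℝ in nhds 0, ((p.1 + t * d.1, p.2 + t * d.2) : ℝ × ℝ) ∈ S e a r := by
      apply hc.continuousAt.eventually
      simp only [zero_mul, add_zero]
      exact mem_interior_iff_mem_nhds.1 hp
    have h1 : ∀ᶠ t : ℝ in nhdsWithin 0 (Set.Ioi 0), ((p.1 + t * d.1, p.2 + t * d.2) : ℝ × ℝ) ∈ S e a r :=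
      h0.filter_mono nhdsWithin_le_nhds
    obtain ⟨t, ht, ht0⟩ := (h1.and self_mem_nhdsWithin).exists
    exact ⟨t, ht0, ht⟩
  refine ⟨?_, ?_, ?_⟩
  · obtain ⟨t, ht, h, -, -⟩ := key (-e, 0)
    have : e * (p.1 + t * -e - a.1) = e * (p.1 - a.1) - t * (e * e) := by ring
    simp only [this, hee] at h
    linarith
  · obtain ⟨t, ht, -, h, -⟩ := key (0, -e)
    have : e * (p.2 + t * -e - a.2) = e * (p.2 - a.2) - t * (e * e) := by ring
    simp only [this, hee] at h
    linarith
  · obtain ⟨t, ht, -, -, h⟩ := key (e, 0)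
    have : e * (p.1 + t * e - a.1) = e * (p.1 - a.1) + t * (e * e) := by ring
    simp only [this, hee] at h
    simp only [mul_zero, add_zero] at h
    linarith

/-- sign of the tile `(i, j)` -/
def sg (k i j : ℕ) : ℝ := if i + j < k then 1 else -1

/-- corner of the tile `(i, j)` -/
def co (k i j : ℕ) : ℝ × ℝ := if i + j < k then ((i : ℝ), (j : ℝ)) else ((k : ℝ) - i, (k : ℝ) - j)

theorem sg_or (k i j : ℕ) : sg k i j = 1 ∨ sg k i j = -1 := by
  unfold sg; split_ifs <;> simp

theorem cover (k : ℕ) (hk : 0 < k) :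
    (⋃ ij : Fin k × Fin k, S (sg k ij.1 ij.2) (co k ij.1 ij.2) 1) = S 1 (0, 0) k := by
  ext ⟨x, y⟩
  simp only [Set.mem_iUnion, S, Set.mem_ofPred_eq, one_mul, sub_zero]
  constructor
  · rintro ⟨⟨⟨i, hi⟩, ⟨j, hj⟩⟩, h1, h2, h3⟩
    unfold sg co at h1 h2 h3
    simp only at h1 h2 h3
    split_ifs at h1 h2 h3 with hij
    · have hi0 : (0 : ℝ) ≤ i := Nat.cast_nonneg i
      have hj0 : (0 : ℝ) ≤ j := Nat.cast_nonneg j
      have hk1 : (i : ℝ) + j + 1 ≤ k := by exact_mod_cast hij
      simp only [one_mul] at h1 h2 h3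
      refine ⟨by linarith, by linarith, by linarith⟩
    · have hk1 : (k : ℝ) ≤ i + j := by exact_mod_cast (not_lt.1 hij)
      have hi1 : (i : ℝ) + 1 ≤ k := by exact_mod_cast hi
      have hj1 : (j : ℝ) + 1 ≤ k := by exact_mod_cast hj
      refine ⟨by linarith, by linarith, by linarith⟩
  · rintro ⟨hx, hy, hxy⟩
    obtain ⟨i, hi1, hi2⟩ : ∃ i : ℕ, (i : ℝ) ≤ x ∧ x < i + 1 :=
      ⟨⌊x⌋₊, Nat.floor_le hx, Nat.lt_floor_add_one x⟩
    obtain ⟨j, hj1, hj2⟩ : ∃ j : ℕ, (j : ℝ) ≤ y ∧ y < j + 1 :=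
      ⟨⌊y⌋₊, Nat.floor_le hy, Nat.lt_floor_add_one y⟩
    have up : ∀ i' j' : ℕ, i' + j' < k → (i' : ℝ) ≤ x → (j' : ℝ) ≤ y → x + y ≤ i' + j' + 1 →
        ∃ ij : Fin k × Fin k, 0 ≤ sg k ij.1 ij.2 * (x - (co k ij.1 ij.2).1) ∧
          0 ≤ sg k ij.1 ij.2 * (y - (co k ij.1 ij.2).2) ∧
          sg k ij.1 ij.2 * (x - (co k ij.1 ij.2).1) + sg k ij.1 ij.2 * (y - (co k ij.1 ij.2).2) ≤ 1 := by
      intro i' j' h1 h2 h3 h4
      refine ⟨(⟨i', by omega⟩, ⟨j', by omega⟩), ?_⟩
      simp only [sg, co, h1, if_true, one_mul]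
      refine ⟨by linarith, by linarith, by linarith⟩
    by_cases hij : i + j < k
    · by_cases h : x + y ≤ i + j + 1
      · exact up i j hij hi1 hj1 h
      · push Not at h
        have h5 : i + j + 1 < k := by
          have : (i : ℝ) + j + 1 < k := by linarith
          exact_mod_cast this
        refine ⟨(⟨k - 1 - i, by omega⟩, ⟨k - 1 - j, by omega⟩), ?_⟩
        have h6 : ¬ (k - 1 - i + (k - 1 - j) < k) := by omega
        have h7 : ((k - 1 - i : ℕ) : ℝ) = k - 1 - i := by
          rw [Nat.cast_sub (by omega), Nat.cast_sub (by omega)]; simp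
        have h8 : ((k - 1 - j : ℕ) : ℝ) = k - 1 - j := by
          rw [Nat.cast_sub (by omega), Nat.cast_sub (by omega)]; simp
        simp only [sg, co, h6, if_false, h7, h8]
        refine ⟨by linarith, by linarith, by linarith⟩
    · have h9 : (k : ℝ) ≤ i + j := by exact_mod_cast (not_lt.1 hij)
      have hxi : x = i := by linarith
      have hyj : y = j := by linarith
      have hkk : (k : ℝ) = i + j := by linarith
      have hkn : k = i + j := by exact_mod_cast hkk
      rcases Nat.eq_zero_or_pos i with h0 | h0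
      · refine up i (j - 1) (by omega) hi1 ?_ ?_
        · rw [Nat.cast_sub (by omega)]; push_cast; linarith
        · rw [Nat.cast_sub (by omega)]; push_cast; linarith
      · refine up (i - 1) j (by omega) ?_ hj1 ?_
        · rw [Nat.cast_sub (by omega)]; push_cast; linarith
        · rw [Nat.cast_sub (by omega)]; push_cast; linarith

theorem disj (k : ℕ) (a b : Fin k × Fin k) (hab : a ≠ b) {p : ℝ × ℝ}
    (h1 : p ∈ interior (S (sg k a.1 a.2) (co k a.1 a.2) 1))
    (h2 : p ∈ interior (S (sg k b.1 b.2) (co k b.1 b.2) 1)) : False := by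
  obtain ⟨⟨i, hi⟩, ⟨j, hj⟩⟩ := a
  obtain ⟨⟨i', hi'⟩, ⟨j', hj'⟩⟩ := b
  obtain ⟨a1, a2, a3⟩ := interior_S (sg_or _ _ _) _ _ h1
  obtain ⟨b1, b2, b3⟩ := interior_S (sg_or _ _ _) _ _ h2
  unfold sg co at a1 a2 a3 b1 b2 b3
  simp only at a1 a2 a3 b1 b2 b3
  have hne : ¬ (i = i' ∧ j = j') := by
    rintro ⟨rfl, rfl⟩
    exact hab rfl
  split_ifs at a1 a2 a3 with hA
  · split_ifs at b1 b2 b3 with hB
    · simp only [one_mul] at a1 a2 a3 b1 b2 b3
      apply hne
      constructor
      · have e1 : (i : ℝ) < i' + 1 := by linarith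
        have e2 : (i' : ℝ) < i + 1 := by linarith
        have e1' : i < i' + 1 := by exact_mod_cast e1
        have e2' : i' < i + 1 := by exact_mod_cast e2
        omega
      · have e1 : (j : ℝ) < j' + 1 := by linarith
        have e2 : (j' : ℝ) < j + 1 := by linarith
        have e1' : j < j' + 1 := by exact_mod_cast e1
        have e2' : j' < j + 1 := by exact_mod_cast e2
        omega
    · simp only [one_mul] at a1 a2 a3
      have e1 : (i : ℝ) + i' < k := by linarith
      have e2 : (k : ℝ) < i + i' + 2 := by linarith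
      have e3 : (j : ℝ) + j' < k := by linarith
      have e4 : (k : ℝ) < j + j' + 2 := by linarith
      have e5 : (k : ℝ) + k < i + j + i' + j' + 2 := by linarith
      have e1' : i + i' < k := by exact_mod_cast e1
      have e2' : k < i + i' + 2 := by exact_mod_cast e2
      have e3' : j + j' < k := by exact_mod_cast e3
      have e4' : k < j + j' + 2 := by exact_mod_cast e4
      have e5' : k + k < i + j + i' + j' + 2 := by exact_mod_cast e5
      omega
  · split_ifs at b1 b2 b3 with hB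
    · simp only [one_mul] at b1 b2 b3
      have e1 : (i : ℝ) + i' < k := by linarith
      have e2 : (k : ℝ) < i + i' + 2 := by linarith
      have e3 : (j : ℝ) + j' < k := by linarith
      have e4 : (k : ℝ) < j + j' + 2 := by linarith
      have e5 : (k : ℝ) + k < i + j + i' + j' + 2 := by linarith
      have e1' : i + i' < k := by exact_mod_cast e1
      have e2' : k < i + i' + 2 := by exact_mod_cast e2
      have e3' : j + j' < k := by exact_mod_cast e3
      have e4' : k < j + j' + 2 := by exact_mod_cast e4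
      have e5' : k + k < i + j + i' + j' + 2 := by exact_mod_cast e5
      omega
    · apply hne
      constructor
      · have e1 : (i : ℝ) < i' + 1 := by linarith
        have e2 : (i' : ℝ) < i + 1 := by linarith
        have e1' : i < i' + 1 := by exact_mod_cast e1
        have e2' : i' < i + 1 := by exact_mod_cast e2
        omega
      · have e1 : (j : ℝ) < j' + 1 := by linarith
        have e2 : (j' : ℝ) < j + 1 := by linarith
        have e1' : j < j' + 1 := by exact_mod_cast e1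
        have e2' : j' < j + 1 := by exact_mod_cast e2
        omega

theorem t_KSQ : Q16.SQ.S_KSQ := by
  intro T hT k hk
  have hk' : (0 : ℝ) < k := by exact_mod_cast hk
  obtain ⟨Φ, hΦ⟩ := coord T hT k hk
  let Q : Fin k × Fin k → Fin 3 → E2 := fun ij l =>
    (sg k ij.1 ij.2 / k : ℝ) • (T l - T 0) + Φ (co k ij.1 ij.2)
  let eq : Fin (k ^ 2) ≃ Fin k × Fin k := (finCongr (sq k)).trans finProdFinEquiv.symm
  have hee : ∀ ij : Fin k × Fin k, |sg k ij.1 ij.2| = 1 := fun ij => by
    rcases sg_or k ij.1 ij.2 with h | h <;> rw [h] <;> simp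
  have hQ : ∀ ij : Fin k × Fin k, TriSet (Q ij) = Φ '' S (sg k ij.1 ij.2) (co k ij.1 ij.2) 1 := by
    intro ij
    apply tri hΦ (sg_or _ _ _) one_pos
    · simp [Q]
    · simp only [Q, hΦ]
      module
    · simp only [Q, hΦ]
      module
  have hTT : TriSet T = Φ '' S 1 (0, 0) k := by
    apply tri hΦ (Or.inl rfl) hk'
    · simp [hΦ]
    · simp only [hΦ, one_mul, zero_add, zero_mul, zero_smul, add_zero, smul_smul,
        mul_one_div_cancel hk'.ne', one_smul]
      abel
    · simp only [hΦ, one_mul, zero_add, zero_mul, zero_smul, smul_smul,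
        mul_one_div_cancel hk'.ne', one_smul]
      abel
  refine ⟨fun i => Q (eq i), ?_, ?_, ?_, ?_⟩
  · intro i
    rw [affineIndependent_iff_linearIndependent_vsub ℝ _ 0]
    have h1 := (affineIndependent_iff_linearIndependent_vsub ℝ T 0).1 hT
    have hne : (sg k (eq i).1 (eq i).2 / k : ℝ) ≠ 0 := by
      have : sg k (eq i).1 (eq i).2 ≠ 0 := by
        rcases sg_or k (eq i).1 (eq i).2 with h | h <;> rw [h] <;> norm_num
      exact div_ne_zero this hk'.ne'
    have h2 := h1.units_smul (fun _ => Units.mk0 _ hne)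
    have h3 : (fun l : {x : Fin 3 // x ≠ 0} => (Q (eq i) l -ᵥ Q (eq i) 0 : E2)) =
        (fun _ : {x : Fin 3 // x ≠ 0} => Units.mk0 _ hne) • fun l : {x : Fin 3 // x ≠ 0} => (T l -ᵥ T 0 : E2) := by
      funext l
      simp [Q, vsub_eq_sub, Units.smul_def]
    rw [h3]
    exact h2
  · intro i a b
    simp only [Q]
    rw [dist_add_right, dist_eq_norm, ← smul_sub, sub_sub_sub_cancel_right, norm_smul, dist_eq_norm,
      Real.norm_eq_abs, abs_div, hee, Nat.abs_cast]
    ring
  · rw [hTT, ← cover k hk, Set.image_iUnion, ← eq.surjective.iUnion_comp]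
    exact Set.iUnion_congr fun i => hQ _
  · intro i j hij
    rw [hQ, hQ, ← Φ.image_interior, ← Φ.image_interior]
    rw [Set.disjoint_image_iff Φ.injective, Set.disjoint_left]
    intro p h1 h2
    exact disj k _ _ (fun h => hij (eq.injective h)) h1 h2

end Pool.Agent.Q150.SQK
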