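import Pool.Agent.Q16.SQ.Stm

/-!
# Project SQ (helper16), job MATJ: the conjugate eigenvector argument for a non-square `N`

Adapted from `Pool/Agent/Helper549/Tri/MatJ.lean`.
-/

set_option autoImplicit false
noncomputable section
open scoped BigOperators

namespace Pool.Agent.Q150.SQM

theorem conj_set (N : ℕ) (hN : ¬ IsSquare N) (M : Fin 3 → Fin 3 → ℕ) (v : Fin 3 → ℝ) (hv : ∀ k, 0 < v k)
    (h : ∀ k, ∑ l, (M k l : ℝ) * v l = Real.sqrt N * v k) :
    ∃ (J : Finset (Fin 3)) (e : Fin 3 → Bool), J.Nonempty ∧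
      ∀ k ∈ J, ∀ l, 0 < M k l → l ∈ J ∧ e l ≠ e k := by
  set s : ℝ := Real.sqrt N with hs
  have hs2 : s * s = N := Real.mul_self_sqrt (Nat.cast_nonneg N)
  have hirr : Irrational s := irrational_sqrt_natCast_iff.mpr hN
  set A : Matrix (Fin 3) (Fin 3) ℝ := Matrix.of fun k l => (M k l : ℝ) with hA
  have hdet : (A - s • (1 : Matrix (Fin 3) (Fin 3) ℝ)).det = 0 := by
    apply Matrix.exists_mulVec_eq_zero_iff.mp
    refine ⟨v, ?_, ?_⟩
    · intro h0
      have := hv 0
      rw [h0] at this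
      simp at this
    · ext k
      have hk := h k
      rw [Matrix.sub_mulVec, Matrix.smul_mulVec, Matrix.one_mulVec]
      simp only [Pi.sub_apply, Pi.smul_apply, smul_eq_mul, Pi.zero_apply]
      have : A.mulVec v k = ∑ l, (M k l : ℝ) * v l := by
        simp [Matrix.mulVec, dotProduct, hA]
      rw [this, hk]
      ring
  have hdet' : (A + s • (1 : Matrix (Fin 3) (Fin 3) ℝ)).det = 0 := by
    rw [Matrix.det_fin_three] at hdet ⊢
    simp only [Matrix.sub_apply, Matrix.add_apply, Matrix.smul_apply, Matrix.one_apply, hA, smul_eq_mul, Matrix.of_apply] at hdet ⊢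
    have n12 : ((1 : Fin 3) = 2) = False := by simp
    have n21 : ((2 : Fin 3) = 1) = False := by simp
    have n20 : ((2 : Fin 3) = 0) = False := by simp
    have n02 : ((0 : Fin 3) = 2) = False := by simp
    have n10 : ((1 : Fin 3) = 0) = False := by simp
    have n01 : ((0 : Fin 3) = 1) = False := by simp
    simp only [n12, n21, n20, n02, n10, n01, if_false, if_true, mul_zero, mul_one, sub_zero, add_zero] at hdet ⊢
    -- integers
    set a : ℤ := (M 0 0 : ℤ) + M 1 1 + M 2 2 with ha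
    set b : ℤ := (M 0 0 : ℤ) * M 1 1 + (M 0 0 : ℤ) * M 2 2 + (M 1 1 : ℤ) * M 2 2
      - (M 0 1 : ℤ) * M 1 0 - (M 0 2 : ℤ) * M 2 0 - (M 1 2 : ℤ) * M 2 1 with hb
    set c : ℤ := (M 0 0 : ℤ) * M 1 1 * M 2 2 - (M 0 0 : ℤ) * M 1 2 * M 2 1 - (M 0 1 : ℤ) * M 1 0 * M 2 2
      + (M 0 1 : ℤ) * M 1 2 * M 2 0 + (M 0 2 : ℤ) * M 1 0 * M 2 1 - (M 0 2 : ℤ) * M 1 1 * M 2 0 with hc
    have e1 : ((-(N : ℤ) - b : ℤ) : ℝ) * s + (((N : ℤ) * a + c : ℤ) : ℝ) = 0 := by
      rw [ha, hb, hc]
      push_cast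
      linear_combination hdet + (-(M 0 0 : ℝ) - M 1 1 - M 2 2 + s) * hs2
    have e2 : (-(N : ℤ) - b : ℤ) = 0 := by
      by_contra hne
      have h1 : s = ((-((N : ℤ) * a + c : ℤ) : ℚ) / ((-(N : ℤ) - b : ℤ) : ℚ) : ℚ) := by
        have hne' : ((-(N : ℤ) - b : ℤ) : ℝ) ≠ 0 := by exact_mod_cast hne
        push_cast at e1 hne' ⊢
        field_simp
        linarith
      exact hirr ⟨_, h1.symm⟩
    have e3 : ((N : ℤ) * a + c : ℤ) = 0 := by
      rw [e2] at e1
      have : (((N : ℤ) * a + c : ℤ) : ℝ) = 0 := by simpa using e1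
      exact_mod_cast this
    have e4 : -((-(N : ℤ) - b : ℤ) : ℝ) * s + (((N : ℤ) * a + c : ℤ) : ℝ) = 0 := by
      rw [e2, e3]; simp
    rw [ha, hb, hc] at e4
    push_cast at e4
    linear_combination e4 + ((M 0 0 : ℝ) + M 1 1 + M 2 2 + s) * hs2
  obtain ⟨w, hw0, hw⟩ := Matrix.exists_mulVec_eq_zero_iff.mpr hdet'
  have hw' : ∀ k, ∑ l, (M k l : ℝ) * w l = - s * w k := by
    intro k
    have := congrFun hw k
    rw [Matrix.add_mulVec, Matrix.smul_mulVec, Matrix.one_mulVec] at this
    simp only [Pi.add_apply, Pi.smul_apply, smul_eq_mul, Pi.zero_apply] at this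
    have h2 : A.mulVec w k = ∑ l, (M k l : ℝ) * w l := by
      simp [Matrix.mulVec, dotProduct, hA]
    rw [h2] at this
    linarith
  obtain ⟨k0, hk0⟩ := Finite.exists_max (fun k => |w k| / v k)
  set r : ℝ := |w k0| / v k0 with hr
  have hle : ∀ k, |w k| ≤ r * v k := by
    intro k
    have := hk0 k
    rwa [div_le_iff₀ (hv k)] at this
  have hrpos : 0 < r := by
    obtain ⟨k, hk⟩ : ∃ k, w k ≠ 0 := by
      by_contra hcon
      push Not at hcon
      exact hw0 (funext hcon)
    have h1 := hle k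
    have h2 : 0 < |w k| := abs_pos.mpr hk
    have h3 : 0 < r * v k := lt_of_lt_of_le h2 h1
    exact pos_of_mul_pos_left h3 (hv k).le
  refine ⟨Finset.univ.filter (fun k => |w k| = r * v k), fun k => decide (0 < w k), ⟨k0, ?_⟩, ?_⟩
  · simp only [Finset.mem_filter, Finset.mem_univ, true_and]
    rw [hr]
    field_simp [(hv k0).ne']
  · intro k hk l hl
    simp only [Finset.mem_filter, Finset.mem_univ, true_and] at hk ⊢
    have hkp : 0 < r * v k := mul_pos hrpos (hv k)
    have hlp : 0 < r * v l := mul_pos hrpos (hv l)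
    have hMl : (0 : ℝ) < M k l := by exact_mod_cast hl
    rcases lt_or_ge 0 (w k) with hpos | hneg
    · have hwk : w k = r * v k := by rwa [abs_of_pos hpos] at hk
      have hsum : ∑ l, (M k l : ℝ) * (w l + r * v l) = 0 := by
        have : ∑ l, (M k l : ℝ) * (w l + r * v l) = ∑ l, (M k l : ℝ) * w l + r * ∑ l, (M k l : ℝ) * v l := by
          rw [Finset.mul_sum, ← Finset.sum_add_distrib]
          exact Finset.sum_congr rfl (fun l _ => by ring)
        rw [this, hw' k, h k, hwk]
        ring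
      have hz := (Finset.sum_eq_zero_iff_of_nonneg (fun i _ => mul_nonneg (Nat.cast_nonneg _) (by
        have := neg_abs_le (w i); have := hle i; linarith))).mp hsum l (Finset.mem_univ l)
      have hz2 : w l + r * v l = 0 := by
        rcases mul_eq_zero.mp hz with h1 | h1
        · exact absurd h1 hMl.ne'
        · exact h1
      have hwl : w l < 0 := by linarith
      refine ⟨?_, ?_⟩
      · rw [abs_of_neg hwl]; linarith
      · simp [hpos, not_lt.mpr hwl.le]
    · have hwk : w k = - (r * v k) := by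
        rw [abs_of_nonpos hneg] at hk; linarith
      have hsum : ∑ l, (M k l : ℝ) * (r * v l - w l) = 0 := by
        have : ∑ l, (M k l : ℝ) * (r * v l - w l) = r * ∑ l, (M k l : ℝ) * v l - ∑ l, (M k l : ℝ) * w l := by
          rw [Finset.mul_sum, ← Finset.sum_sub_distrib]
          exact Finset.sum_congr rfl (fun l _ => by ring)
        rw [this, hw' k, h k, hwk]
        ring
      have hz := (Finset.sum_eq_zero_iff_of_nonneg (fun i _ => mul_nonneg (Nat.cast_nonneg _) (by
        have := le_abs_self (w i); have := hle i; linarith))).mp hsum l (Finset.mem_univ l)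
      have hz2 : r * v l - w l = 0 := by
        rcases mul_eq_zero.mp hz with h1 | h1
        · exact absurd h1 hMl.ne'
        · exact h1
      have hwl : 0 < w l := by linarith
      refine ⟨?_, ?_⟩
      · rw [abs_of_pos hwl]; linarith
      · simp [hwl, not_lt.mpr hneg]

theorem row_pos (N : ℕ) (hN : ¬ IsSquare N) (M : Fin 3 → Fin 3 → ℕ) (v : Fin 3 → ℝ) (hv : ∀ k, 0 < v k)
    (h : ∀ k, ∑ l, (M k l : ℝ) * v l = Real.sqrt N * v k) (k : Fin 3) : ∃ l, 0 < M k l := by
  by_contra hcon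
  push Not at hcon
  have h0 : ∀ l, M k l = 0 := fun l => Nat.le_zero.mp (hcon l)
  have h1 := h k
  simp only [h0, Nat.cast_zero, zero_mul, Finset.sum_const_zero] at h1
  have hN0 : (0 : ℝ) < N := by
    rcases Nat.eq_zero_or_pos N with h | h
    · exact absurd (h ▸ ⟨0, rfl⟩) hN
    · exact_mod_cast h
  have h2 : 0 < Real.sqrt N * v k := mul_pos (Real.sqrt_pos.mpr hN0) (hv k)
  linarith

theorem t_MATJ : Q16.SQ.S_MATJ := by
  intro N hN M v hv h
  constructor
  · intro hgood
    obtain ⟨J, e, ⟨k, hk⟩, hJ⟩ := conj_set N hN M v hv h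
    obtain ⟨l, hl⟩ := row_pos N hN M v hv h k
    obtain ⟨hlJ, hel⟩ := hJ k hk l hl
    have hkl : k ≠ l := fun hh => hel (by rw [hh])
    obtain ⟨m, hml, hm⟩ := hgood l k hkl
    obtain ⟨hmJ, hem⟩ := hJ k hk m hm
    have hmk : m ≠ k := fun hh => hem (by rw [hh])
    obtain ⟨p, hpk, hp⟩ := hgood k m hmk
    obtain ⟨hpJ, hep⟩ := hJ m hmJ p hp
    have hp3 : p = l ∨ p = m := by
      clear hJ hel hem hep hlJ hmJ hpJ hk hl hm hp hgood h hv
      revert k l m p
      decide
    rcases hp3 with rfl | rfl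
    · revert hel hem hep
      cases e k <;> cases e p <;> cases e m <;> simp
    · exact hep rfl
  · intro hgood
    obtain ⟨J, e, ⟨k0, hk0⟩, hJ⟩ := conj_set N hN M v hv h
    obtain ⟨k, l, hk, hl2, hl⟩ : ∃ k l, k ∈ J ∧ l ≠ 2 ∧ 0 < M k l := by
      obtain ⟨l, hl⟩ := row_pos N hN M v hv h k0
      by_cases hl2 : l = 2
      · subst hl2
        obtain ⟨h2J, -⟩ := hJ k0 hk0 2 hl
        obtain ⟨l2, hl2⟩ := row_pos N hN M v hv h 2
        obtain ⟨-, hel⟩ := hJ 2 h2J l2 hl2
        exact ⟨2, l2, h2J, fun hh => hel (by rw [hh]), hl2⟩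
      · exact ⟨k0, l, hk0, hl2, hl⟩
    obtain ⟨hlJ, hel⟩ := hJ k hk l hl
    have hkl : k ≠ l := fun hh => hel (by rw [hh])
    obtain ⟨m, hml, hm⟩ := hgood l k hl2 hkl
    obtain ⟨hmJ, hem⟩ := hJ k hk m hm
    have hmk : m ≠ k := fun hh => hem (by rw [hh])
    by_cases hk2 : k = 2
    · subst hk2
      have hJall : ∀ i, i ∈ J ∧ (i ≠ 2 → e i ≠ e 2) := by
        intro i
        have hi : i = l ∨ i = m ∨ i = 2 := by
          clear hJ hel hem hlJ hmJ hk hl hm hgood h hv
          revert l m i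
          decide
        rcases hi with rfl | rfl | rfl
        · exact ⟨hlJ, fun _ => hel⟩
        · exact ⟨hmJ, fun _ => hem⟩
        · exact ⟨hk, fun hh => absurd rfl hh⟩
      intro i j hi hj
      by_contra hne
      have h1 := (hJ i (hJall i).1 j (Nat.pos_of_ne_zero hne)).2
      have h2 := (hJall i).2 hi
      have h3 := (hJall j).2 hj
      revert h1 h2 h3
      cases e i <;> cases e j <;> cases e 2 <;> simp
    · exfalso
      obtain ⟨p, hpk, hp⟩ := hgood k m hk2 hmk
      obtain ⟨hpJ, hep⟩ := hJ m hmJ p hp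
      have hp3 : p = l ∨ p = m := by
        clear hJ hel hem hep hlJ hmJ hpJ hk hl hm hp hgood h hv hk2 hl2
        revert k l m p
        decide
      rcases hp3 with rfl | rfl
      · revert hel hem hep
        cases e k <;> cases e p <;> cases e m <;> simp
      · exact hep rfl

end Pool.Agent.Q150.SQM
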