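import Pool.Agent.Q16.SQ.Stm

/-!
# Project SQ (helper16), job RCUT: right triangles with legs in the ratio `p : q`
-/

set_option autoImplicit false
noncomputable section

open Pool.Agent.Helper549.Tri
open scoped RealInnerProductSpace

namespace Pool.Agent.Q150.SQR

abbrev E2 := EuclideanSpace ℝ (Fin 2)

theorem t_RCUT (h1 : Q16.SQ.S_ISOM) (h2 : Q16.SQ.S_SPLIT) (h3 : Q16.SQ.S_KSQ) : Q16.SQ.S_RCUT := by
  intro T hT hang p q hp hq hpq
  have hp' : (0 : ℝ) < p := by exact_mod_cast hp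
  have hq' : (0 : ℝ) < q := by exact_mod_cast hq
  set N : ℝ := (p : ℝ) ^ 2 + (q : ℝ) ^ 2 with hN
  have hNpos : 0 < N := by positivity
  set s : ℝ := Real.sqrt N with hs
  have hspos : 0 < s := Real.sqrt_pos.mpr hNpos
  have hs2 : s ^ 2 = N := Real.sq_sqrt hNpos.le
  set t : ℝ := (p : ℝ) ^ 2 / N with ht
  have ht0 : 0 < t := by positivity
  have ht1 : 1 - t = (q : ℝ) ^ 2 / N := by
    rw [ht, eq_div_iff hNpos.ne', sub_mul, div_mul_cancel₀ _ hNpos.ne', hN]; ring
  have ht1' : 0 < 1 - t := by rw [ht1]; positivity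
  set M : E2 := AffineMap.lineMap (T 1) (T 2) t with hM
  set lam : ℝ := dist (T 0) (T 1) / p with hlam
  have ha : dist (T 0) (T 1) = p * lam := by rw [hlam]; field_simp
  have hb : dist (T 0) (T 2) = q * lam := by
    have : (p : ℝ) * dist (T 0) (T 2) = p * (q * lam) := by
      rw [← hpq, ha]; ring
    exact mul_left_cancel₀ hp'.ne' this
  have hlam0 : 0 ≤ lam := by rw [hlam]; positivity
  -- orthogonality
  have hin : ⟪T 1 - T 0, T 2 - T 0⟫ = 0 := by
    have := hang
    unfold angle EuclideanGeometry.angle at this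
    exact (InnerProductGeometry.inner_eq_zero_iff_angle_eq_pi_div_two _ _).mpr this
  have hx : ‖T 1 - T 0‖ = p * lam := by rw [← ha, dist_comm, dist_eq_norm]
  have hy : ‖T 2 - T 0‖ = q * lam := by rw [← hb, dist_comm, dist_eq_norm]
  have hc : dist (T 1) (T 2) = lam * s := by
    have h4 : dist (T 1) (T 2) ^ 2 = (lam * s) ^ 2 := by
      have h5 : T 1 - T 2 = (T 1 - T 0) - (T 2 - T 0) := by abel
      rw [dist_eq_norm, h5, @norm_sub_sq_real, hin, hx, hy, mul_pow lam s, hs2, hN]
      ring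
    exact (sq_eq_sq₀ dist_nonneg (by positivity)).1 h4
  have hd1 : dist (T 1) M = p ^ 2 * lam / s := by
    rw [hM, dist_left_lineMap, hc, Real.norm_eq_abs, abs_of_pos ht0, ht, ← hs2]
    field_simp
  have hd2 : dist (T 2) M = q ^ 2 * lam / s := by
    rw [hM, dist_comm, dist_lineMap_right, hc, Real.norm_eq_abs, abs_of_pos ht1', ht1, ← hs2]
    field_simp
  have hd0 : dist (T 0) M = p * q * lam / s := by
    have h4 : dist (T 0) M ^ 2 = (p * q * lam / s) ^ 2 := by
      have h5 : M - T 0 = (1 - t) • (T 1 - T 0) + t • (T 2 - T 0) := by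
        rw [hM, AffineMap.lineMap_apply_module]
        module
      rw [dist_comm, dist_eq_norm, h5, @norm_add_sq_real, norm_smul, norm_smul, inner_smul_left,
        inner_smul_right, hin, hx, hy, Real.norm_eq_abs, Real.norm_eq_abs, abs_of_pos ht1',
        abs_of_pos ht0, ht1, ht, div_pow, hs2]
      field_simp
      rw [hN]
      ring
    exact (sq_eq_sq₀ dist_nonneg (by positivity)).1 h4
  obtain ⟨hA, hB, hAB, hdis⟩ := h2 T hT t ht0 (by linarith)
  rw [← hM] at hA hB hAB hdis
  obtain ⟨PA, PA1, PA2, PA3, PA4⟩ := h3 _ hA p hp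
  obtain ⟨PB, PB1, PB2, PB3, PB4⟩ := h3 _ hB q hq
  let σ : Equiv.Perm (Fin 3) := Equiv.swap 0 1
  let X : Fin (p ^ 2) ⊕ Fin (q ^ 2) → Fin 3 → E2 := Sum.elim PA (fun i => PB i ∘ σ)
  have hTri : ∀ i, TriSet (PB i ∘ σ) = TriSet (PB i) := by
    intro i
    unfold TriSet
    rw [σ.surjective.range_comp]
  have key : ∀ a b : Fin 3, dist ((![T 0, T 1, M] : Fin 3 → E2) a) ((![T 0, T 1, M] : Fin 3 → E2) b) / p =
      dist ((![T 0, T 2, M] : Fin 3 → E2) (σ a)) ((![T 0, T 2, M] : Fin 3 → E2) (σ b)) / q := by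
    have σ0 : σ 0 = 1 := by decide
    have σ1 : σ 1 = 0 := by decide
    have σ2 : σ 2 = 2 := by decide
    have k01 : dist (T 0) (T 1) / p = dist (T 2) (T 0) / q := by
      rw [dist_comm (T 2), ha, hb]; field_simp
    have k02 : dist (T 0) M / p = dist (T 2) M / q := by
      rw [hd0, hd2]; field_simp
    have k12 : dist (T 1) M / p = dist (T 0) M / q := by
      rw [hd0, hd1]; field_simp
    have cases3 : ∀ x : Fin 3, x = 0 ∨ x = 1 ∨ x = 2 := by decide
    intro a b
    rcases cases3 a with rfl | rfl | rfl <;> rcases cases3 b with rfl | rfl | rfl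
    · simp [σ0]
    · rw [σ0, σ1]; simpa using k01
    · rw [σ0, σ2]; simpa using k02
    · rw [σ0, σ1]; rw [dist_comm]; simp only [Matrix.cons_val_zero, Matrix.cons_val_one]; rw [k01, dist_comm]
    · simp
    · rw [σ1, σ2]; simpa using k12
    · rw [σ0, σ2]; simp only [Matrix.cons_val_zero, Matrix.cons_val_one, Matrix.cons_val]
      rw [dist_comm, k02, dist_comm]
    · rw [σ1, σ2]; simp only [Matrix.cons_val_zero, Matrix.cons_val_one, Matrix.cons_val]
      rw [dist_comm, k12, dist_comm]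
    · simp
  have hXind : ∀ i, AffineIndependent ℝ (X i) := by
    rintro (i | i)
    · exact PA1 i
    · exact (PB1 i).comp_embedding σ.toEmbedding
  have hXd : ∀ i a b, dist (X i a) (X i b) =
      dist ((![T 0, T 1, M] : Fin 3 → E2) a) ((![T 0, T 1, M] : Fin 3 → E2) b) / p := by
    rintro (i | i) a b
    · exact PA2 i a b
    · rw [key]; exact PB2 i (σ a) (σ b)
  have hsubA : ∀ i, TriSet (PA i) ⊆ TriSet ![T 0, T 1, M] := fun i =>
    (Set.subset_iUnion (fun i => TriSet (PA i)) i).trans PA3.subset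
  have hsubB : ∀ i, TriSet (PB i) ⊆ TriSet ![T 0, T 2, M] := fun i =>
    (Set.subset_iUnion (fun i => TriSet (PB i)) i).trans PB3.subset
  have hXdis : ∀ i j, i ≠ j → Disjoint (interior (TriSet (X i))) (interior (TriSet (X j))) := by
    rintro (i | i) (j | j) hij
    · exact PA4 i j (fun h => hij (h ▸ rfl))
    · simp only [X, Sum.elim_inl, Sum.elim_inr, hTri]
      exact hdis.mono (interior_mono (hsubA i)) (interior_mono (hsubB j))
    · simp only [X, Sum.elim_inl, Sum.elim_inr, hTri]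
      exact (hdis.mono (interior_mono (hsubA j)) (interior_mono (hsubB i))).symm
    · simp only [X, Sum.elim_inr, hTri]
      exact PB4 i j (fun h => hij (h ▸ rfl))
  have hXU : (⋃ i, TriSet (X i)) = TriSet T := by
    rw [← hAB, ← PA3, ← PB3]
    ext x
    simp only [Set.mem_iUnion, Sum.exists, Set.mem_union]
    constructor
    · rintro (⟨i, hi⟩ | ⟨i, hi⟩)
      · exact Or.inl ⟨i, hi⟩
      · exact Or.inr ⟨i, by rw [← hTri i]; exact hi⟩
    · rintro (⟨i, hi⟩ | ⟨i, hi⟩)
      · exact Or.inl ⟨i, hi⟩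
      · exact Or.inr ⟨i, by
          have : TriSet (X (Sum.inr i)) = TriSet (PB i) := hTri i
          rw [this]; exact hi⟩
  let e : Fin (p ^ 2 + q ^ 2) ≃ Fin (p ^ 2) ⊕ Fin (q ^ 2) := finSumFinEquiv.symm
  refine ⟨fun i => X (e i), fun i => hXind _, fun i j => ?_, ?_, fun i j hij => ?_⟩
  · exact h1 _ _ (hXind _) (fun a b => by rw [hXd, hXd])
  · rw [← hXU]
    exact e.surjective.iUnion_comp (fun i => TriSet (X i))
  · exact hXdis _ _ (fun h => hij (e.injective h))

end Pool.Agent.Q150.SQR
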