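import Pool.Agent.Q150.UG_GD3

set_option autoImplicit false

/-!
# Project UG (MP_821da1_nt), jobs GD1 and GD4

First differences and one point, from the bounded case by rescaling.
-/

namespace Pool.Agent.Q150.UG

open Finset Pool.Agent.Q256.UI Pool.Agent.Q124.UI
open Pool.Agent.Q256.UG (Bg S_GD1 S_GD2 S_GD3 S_GD4)

theorem gd1 : S_GD1 := by
  intro d A hd hA
  obtain ⟨C, hC, h⟩ := dd1 d A hd hA
  refine ⟨C, hC, ?_⟩
  intro K T W a hK hT hB hW x y u v hx hx2 hy hy2 hu hv hQ1 hQ2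
  have hK0 : 0 < K := by linarith
  have hK2 : 0 < K ^ 2 := by positivity
  have hT0 : 0 < T := by nlinarith
  have hle : ∀ {p q : ℝ}, p ≤ q → p / K ^ 2 ≤ q / K ^ 2 := fun hpq =>
    div_le_div_of_nonneg_right hpq hK2.le
  have h2 : ∀ {p : ℝ}, p ≤ 2 * T → p / K ^ 2 ≤ 2 * (T / K ^ 2) := fun hp => by
    rw [← mul_div_assoc]; exact hle hp
  have h3 := h 1 (T / K ^ 2) (W / K ^ (2 * (d - 1) + 1)) (ra d K a) le_rfl
    (by rw [mul_one, le_div_iff₀ hK2]; exact hT) (Bd_ra (by omega) hA hK hB)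
    (by positivity) (x / K ^ 2) (y / K ^ 2) (u / K) (v / K)
    (hle hx) (h2 hx2) (hle hy) (h2 hy2) (abs_ra hK hu) (abs_ra hK hv)
    (Q_ra' hK hQ1) (Q_ra' hK hQ2)
  rw [abs_sub_ra hK, ← sub_div, abs_div, abs_of_pos hK0, div_le_iff₀ hK0] at h3
  refine h3.trans (le_of_eq ?_)
  rw [div_pow T (K ^ 2) (d - 1), ← pow_mul, pow_succ K (2 * (d - 1))]
  have hκ : 0 < K ^ (2 * (d - 1)) := pow_pos hK0 _
  have hτ : 0 < T ^ (d - 1) := pow_pos hT0 _
  generalize K ^ (2 * (d - 1)) = κ at hκ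
  generalize T ^ (d - 1) = τ at hτ
  generalize |x - y| = p
  field_simp

end Pool.Agent.Q150.UG
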