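import Pool.Agent.Q150.UG.Dd

set_option autoImplicit false

/-!
# Project UG (MP_821da1_nt), job GD2

Second differences, from the bounded case by rescaling.
-/

namespace Pool.Agent.Q150.UG

open Finset Pool.Agent.Q256.UI Pool.Agent.Q124.UI
open Pool.Agent.Q256.UG (Bg S_GD1 S_GD2 S_GD3)

/-- The rescaled coefficients. -/
noncomputable def ra (d : ℕ) (K : ℝ) (a : ℕ → ℕ → ℝ) (k j : ℕ) : ℝ :=
  a k j * K ^ (2 * (k - j) + j) / K ^ (2 * (d - 1) + 1)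

theorem Q_ra (d : ℕ) (K : ℝ) (a : ℕ → ℕ → ℝ) (x u : ℝ) :
    Q d (ra d K a) x u = Q d a (K ^ 2 * x) (K * u) / K ^ (2 * (d - 1) + 1) := by
  unfold Q ra
  rw [Finset.sum_div]
  refine Finset.sum_congr rfl fun k _ => ?_
  rw [Finset.sum_div]
  refine Finset.sum_congr rfl fun j _ => ?_
  rw [mul_pow, mul_pow, ← pow_mul, pow_add]
  ring

theorem Q_ra' {d : ℕ} {K : ℝ} (hK : 1 ≤ K) {a : ℕ → ℕ → ℝ} {x u W : ℝ} (h : |Q d a x u| ≤ W) :
    |Q d (ra d K a) (x / K ^ 2) (u / K)| ≤ W / K ^ (2 * (d - 1) + 1) := by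
  have hK0 : 0 < K := by linarith
  have e1 : K ^ 2 * (x / K ^ 2) = x := by field_simp
  have e2 : K * (u / K) = u := by field_simp
  rw [Q_ra, e1, e2, abs_div, abs_of_pos (pow_pos hK0 _)]
  exact div_le_div_of_nonneg_right h (pow_pos hK0 _).le

theorem Bd_ra {d : ℕ} (hd : 1 ≤ d) {A K : ℝ} (hA : 1 ≤ A) (hK : 1 ≤ K) {a : ℕ → ℕ → ℝ}
    (h : Bg d A K a) : Bd d A 1 (ra d K a) := by
  have hK0 : 0 < K := by linarith
  have key : ∀ k j, k ≤ d → j ≤ k → 2 * (k - j) + j + 1 ≤ 2 * (d - 1) + 1 → |ra d K a k j| ≤ A := by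
    intro k j hk hj hkj
    unfold ra
    rw [abs_div, abs_mul, abs_of_pos (pow_pos hK0 _), abs_of_pos (pow_pos hK0 _),
      div_le_iff₀ (pow_pos hK0 _)]
    calc |a k j| * K ^ (2 * (k - j) + j) ≤ (A * K) * K ^ (2 * (k - j) + j) :=
          mul_le_mul_of_nonneg_right (h.all k j hk hj) (pow_pos hK0 _).le
      _ = A * K ^ (2 * (k - j) + j + 1) := by rw [pow_succ]; ring
      _ ≤ A * K ^ (2 * (d - 1) + 1) :=
          mul_le_mul_of_nonneg_left (pow_le_pow_right₀ hK hkj) (by linarith)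
  have h1 : |ra d K a d 1| = 1 := by
    unfold ra
    rw [mul_div_assoc, div_self (pow_pos hK0 _).ne', mul_one, h.one]
  refine ⟨?_, ?_, ?_, ?_⟩
  · unfold ra; rw [h.zero]; simp
  · rw [h1]; linarith
  · intro j hj
    rcases Nat.lt_or_ge j 2 with hj2 | hj2
    · interval_cases j
      · unfold ra; rw [h.zero]; simp; linarith
      · rw [h1]; exact hA
    · exact key d j le_rfl hj (by omega)
  · intro k j hk hj
    rw [mul_one]
    exact key k j hk.le hj (by omega)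

/-- The bound for the values after rescaling. -/
theorem W_ra {d : ℕ} {A K T W : ℝ} (hd : 3 ≤ d) (hK : 1 ≤ K) (hT : 0 < T)
    (hW2 : W ≤ A * K * T ^ (d - 3)) :
    W / K ^ (2 * (d - 1) + 1) / (T / K ^ 2) ^ (d - 1) ≤ A / T ^ 2 := by
  have hK0 : 0 < K := by linarith
  have h1 := W_le hd hT hW2
  rw [div_pow, ← pow_mul, pow_succ]
  have hκ : 0 < K ^ (2 * (d - 1)) := pow_pos hK0 _
  have hτ : 0 < T ^ (d - 1) := pow_pos hT _
  generalize K ^ (2 * (d - 1)) = κ at hκ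
  generalize T ^ (d - 1) = τ at hτ h1
  have e : W / (κ * K) / (τ / κ) = W / τ / K := by field_simp
  rw [e, div_le_iff₀ hK0]
  refine h1.trans (le_of_eq ?_)
  ring

theorem gap_ra {A K T t : ℝ} (hA : 1 ≤ A) (hK : 1 ≤ K) (hT : 0 < T) (ht : 1 ≤ t) :
    A / T ^ 2 ≤ A * 1 ^ 2 / (T / K ^ 2) ^ 2 * (t / K ^ 2) := by
  have hK0 : 0 < K := by linarith
  have e : A * 1 ^ 2 / (T / K ^ 2) ^ 2 * (t / K ^ 2) = A / T ^ 2 * (K ^ 2 * t) := by
    field_simp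
  rw [e]
  have h1 : 1 ≤ K ^ 2 * t := by nlinarith
  have h2 : 0 ≤ A / T ^ 2 := by positivity
  nlinarith

theorem abs_sub_ra {K x y : ℝ} (hK : 1 ≤ K) :
    |x / K ^ 2 - y / K ^ 2| = |x - y| / K ^ 2 := by
  have hK0 : 0 < K := by linarith
  rw [← sub_div, abs_div, abs_of_pos (pow_pos hK0 2)]

theorem abs_ra {A K u : ℝ} (hK : 1 ≤ K) (hu : |u| ≤ A * K) : |u / K| ≤ A * 1 := by
  have hK0 : 0 < K := by linarith
  rw [abs_div, abs_of_pos hK0, div_le_iff₀ hK0, mul_one]; exact hu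

/-- JOB GD2. -/
theorem gd2 : S_GD1 → S_GD2 := by
  intro _ d A hd hA
  obtain ⟨C, hC, h⟩ := dd2g dd1 d A hd hA
  refine ⟨C, hC, ?_⟩
  intro K T W a hK hT hB hW hW2 x y z u v w hx hx2 hy hy2 hz hz2 hxy hyz hzx hu hv hw hQ1 hQ2 hQ3
  have hK0 : 0 < K := by linarith
  have hK2 : 0 < K ^ 2 := by positivity
  have hT0 : 0 < T := by nlinarith
  have hw1 := W_ra (by omega : 3 ≤ d) hK hT0 hW2
  have hle : ∀ {p q : ℝ}, p ≤ q → p / K ^ 2 ≤ q / K ^ 2 := fun hpq =>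
    div_le_div_of_nonneg_right hpq hK2.le
  have h2 : ∀ {p : ℝ}, p ≤ 2 * T → p / K ^ 2 ≤ 2 * (T / K ^ 2) := fun hp => by
    rw [← mul_div_assoc]; exact hle hp
  have hpos : ∀ {p q : ℝ}, 1 ≤ |p - q| → 0 < |p / K ^ 2 - q / K ^ 2| := fun hp => by
    rw [abs_sub_ra hK]; positivity
  have hgap : ∀ {p q : ℝ}, 1 ≤ |p - q| → W / K ^ (2 * (d - 1) + 1) / (T / K ^ 2) ^ (d - 1) ≤
      A * 1 ^ 2 / (T / K ^ 2) ^ 2 * |p / K ^ 2 - q / K ^ 2| := fun hp => by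
    rw [abs_sub_ra hK]; exact hw1.trans (gap_ra hA hK hT0 hp)
  have h3 := h 1 (T / K ^ 2) (W / K ^ (2 * (d - 1) + 1)) (ra d K a) le_rfl
    (by rw [mul_one, le_div_iff₀ hK2]; exact hT) (Bd_ra (by omega) hA hK hB)
    (by positivity) (x / K ^ 2) (y / K ^ 2) (z / K ^ 2) (u / K) (v / K) (w / K)
    (hle hx) (h2 hx2) (hle hy) (h2 hy2) (hle hz) (h2 hz2) (hpos hxy) (hpos hyz) (hpos hzx)
    (hgap hxy) (hgap hyz) (hgap hzx) (abs_ra hK hu) (abs_ra hK hv) (abs_ra hK hw)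
    (Q_ra' hK hQ1) (Q_ra' hK hQ2) (Q_ra' hK hQ3)
  rw [abs_sub_ra hK, abs_sub_ra hK, abs_sub_ra hK] at h3
  have e1 : u / K * (y / K ^ 2 - z / K ^ 2) + v / K * (z / K ^ 2 - x / K ^ 2) +
      w / K * (x / K ^ 2 - y / K ^ 2) = (u * (y - z) + v * (z - x) + w * (x - y)) / K ^ 3 := by
    field_simp
  rw [e1, abs_div, abs_of_pos (by positivity : 0 < K ^ 3), div_le_iff₀ (by positivity)] at h3
  refine h3.trans (le_of_eq ?_)
  rw [div_pow T (K ^ 2) (d - 1), ← pow_mul, pow_succ K (2 * (d - 1))]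
  have hκ : 0 < K ^ (2 * (d - 1)) := pow_pos hK0 _
  have hτ : 0 < T ^ (d - 1) := pow_pos hT0 _
  generalize K ^ (2 * (d - 1)) = κ at hκ
  generalize T ^ (d - 1) = τ at hτ
  generalize |x - y| = p
  generalize |y - z| = q
  generalize |z - x| = r
  field_simp

end Pool.Agent.Q150.UG
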