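import Pool.Agent.Q150.UG_GD2

set_option autoImplicit false

/-!
# Project UG (MP_821da1_nt), job GD3

Three collinear points, from the bounded case by rescaling.
-/

namespace Pool.Agent.Q150.UG

open Finset Pool.Agent.Q256.UI Pool.Agent.Q124.UI
open Pool.Agent.Q256.UG (Bg S_GD1 S_GD2 S_GD3)

theorem ra_eq {d : ℕ} {K : ℝ} (hK : 0 < K) (a : ℕ → ℕ → ℝ) {k j e : ℕ}
    (h : 2 * (k - j) + j + e = 2 * (d - 1) + 1) : ra d K a k j = a k j / K ^ e := by
  unfold ra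
  rw [← h, pow_add K (2 * (k - j) + j) e]
  field_simp

theorem rho_ra {d : ℕ} (hd : 3 ≤ d) {K : ℝ} (hK : 0 < K) (a : ℕ → ℕ → ℝ) :
    rho d (ra d K a) = rho d a / K ^ 3 := by
  unfold rho kap
  rw [ra_eq hK a (k := d) (j := 2) (e := 1) (by omega),
    ra_eq hK a (k := d - 1) (j := 1) (e := 2) (by omega),
    ra_eq hK a (k := d - 2) (j := 0) (e := 3) (by omega),
    ra_eq hK a (k := d - 1) (j := 0) (e := 1) (by omega),
    ra_eq hK a (k := d) (j := 1) (e := 0) (by omega)]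
  rw [pow_zero, div_one, pow_one]
  have hK' : K ≠ 0 := hK.ne'
  generalize a d 1 = s
  generalize a (d - 1) 0 = t
  have e : -(t / K) / s = (-t / s) / K := by ring
  rw [e]
  generalize -t / s = q
  field_simp

/-- JOB GD3. -/
theorem gd3 : S_GD1 → S_GD3 := by
  intro _ d A hd hA
  obtain ⟨C, hC, h⟩ := dd3g dd1 d A hd hA
  refine ⟨C, hC, ?_⟩
  intro K T W b a hK hT hB hW hW2 hb x y z u v w hx hx2 hy hy2 hz hz2 hxy hyz hzx hu hv hw
    hQ1 hQ2 hQ3 hdet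
  have hK0 : 0 < K := by linarith
  have hb0 : 0 < b := by linarith
  have hK2 : 0 < K ^ 2 := by positivity
  have hT0 : 0 < T := by nlinarith
  have hw1 := W_ra (by omega : 3 ≤ d) hK hT0 hW2
  have hle : ∀ {p q : ℝ}, p ≤ q → p / K ^ 2 ≤ q / K ^ 2 := fun hpq =>
    div_le_div_of_nonneg_right hpq hK2.le
  have h2 : ∀ {p : ℝ}, p ≤ 2 * T → p / K ^ 2 ≤ 2 * (T / K ^ 2) := fun hp => by
    rw [← mul_div_assoc]; exact hle hp
  have hbb : ∀ {p q : ℝ}, b ≤ |p - q| → b / K ^ 2 ≤ |p / K ^ 2 - q / K ^ 2| := fun hp => by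
    rw [abs_sub_ra hK]; exact hle hp
  have hW3 : W / K ^ (2 * (d - 1) + 1) ≤ A * 1 * (T / K ^ 2) ^ (d - 3) := by
    rw [div_pow, ← pow_mul, mul_one, div_le_iff₀ (by positivity)]
    have e : A * (T ^ (d - 3) / K ^ (2 * (d - 3))) * K ^ (2 * (d - 1) + 1) =
        A * T ^ (d - 3) * K ^ 5 := by
      have e1 : 2 * (d - 1) + 1 = 2 * (d - 3) + 5 := by omega
      rw [e1, pow_add]
      field_simp
    rw [e]
    calc W ≤ A * K * T ^ (d - 3) := hW2
      _ = A * T ^ (d - 3) * K ^ 1 := by ring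
      _ ≤ A * T ^ (d - 3) * K ^ 5 :=
        mul_le_mul_of_nonneg_left (pow_le_pow_right₀ hK (by norm_num)) (by positivity)
  have hdet' : u / K * (y / K ^ 2 - z / K ^ 2) + v / K * (z / K ^ 2 - x / K ^ 2) +
      w / K * (x / K ^ 2 - y / K ^ 2) = 0 := by
    have e1 : u / K * (y / K ^ 2 - z / K ^ 2) + v / K * (z / K ^ 2 - x / K ^ 2) +
      w / K * (x / K ^ 2 - y / K ^ 2) = (u * (y - z) + v * (z - x) + w * (x - y)) / K ^ 3 := by
      field_simp
    rw [e1, hdet, zero_div]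
  have h3 := h 1 (T / K ^ 2) (W / K ^ (2 * (d - 1) + 1)) (b / K ^ 2) (ra d K a) le_rfl
    (by rw [mul_one, le_div_iff₀ hK2]; exact hT) (Bd_ra (by omega) hA hK hB)
    (by positivity) hW3 (by positivity) (hw1.trans (gap_ra hA hK hT0 hb))
    (x / K ^ 2) (y / K ^ 2) (z / K ^ 2) (u / K) (v / K) (w / K)
    (hle hx) (h2 hx2) (hle hy) (h2 hy2) (hle hz) (h2 hz2) (hbb hxy) (hbb hyz) (hbb hzx)
    (abs_ra hK hu) (abs_ra hK hv) (abs_ra hK hw)
    (Q_ra' hK hQ1) (Q_ra' hK hQ2) (Q_ra' hK hQ3) hdet'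
  rw [rho_ra (by omega : 3 ≤ d) hK0, abs_div, abs_of_pos (by positivity : 0 < K ^ 3),
    div_le_iff₀ (by positivity)] at h3
  refine h3.trans (le_of_eq ?_)
  rw [div_pow T (K ^ 2) (d - 1), ← pow_mul, pow_succ K (2 * (d - 1))]
  have hκ : 0 < K ^ (2 * (d - 1)) := pow_pos hK0 _
  have hτ : 0 < T ^ (d - 1) := pow_pos hT0 _
  generalize K ^ (2 * (d - 1)) = κ at hκ
  generalize T ^ (d - 1) = τ at hτ
  field_simp

end Pool.Agent.Q150.UG
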