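import Pool.Agent.Q150.VisDefs

namespace Q150.Vis

open MeasureTheory

lemma vol_box (s t : Set ℝ) :
    volume {v : E2 | v 0 ∈ s ∧ v 1 ∈ t} = volume s * volume t := by
  have hmp := PiLp.volume_preserving_ofLp (Fin 2)
  have h1 : {v : E2 | v 0 ∈ s ∧ v 1 ∈ t} =
      (@WithLp.ofLp 2 (Fin 2 → ℝ)) ⁻¹' (Set.univ.pi ![s, t]) := by
    ext v
    simp [Set.mem_pi, Fin.forall_fin_two]
  have hme : MeasurableEmbedding (@WithLp.ofLp 2 (Fin 2 → ℝ)) :=
    (MeasurableEquiv.toLp 2 (Fin 2 → ℝ)).symm.measurableEmbedding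
  rw [h1, hmp.measure_preimage_emb hme, volume_pi_pi]
  simp [Fin.prod_univ_two]

lemma cont0 : Continuous (fun v : E2 => v 0) := by fun_prop
lemma cont1 : Continuous (fun v : E2 => v 1) := by fun_prop

lemma isClosed_rect (x₀ x₁ y₀ y₁ : ℝ) : IsClosed (rect x₀ x₁ y₀ y₁) :=
  (isClosed_Icc.preimage cont0).inter (isClosed_Icc.preimage cont1)

lemma isOpen_box (x₀ x₁ y₀ y₁ : ℝ) :
    IsOpen {v : E2 | v 0 ∈ Set.Ioo x₀ x₁ ∧ v 1 ∈ Set.Ioo y₀ y₁} :=
  (isOpen_Ioo.preimage cont0).inter (isOpen_Ioo.preimage cont1)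

lemma isCompact_rect (x₀ x₁ y₀ y₁ : ℝ) : IsCompact (rect x₀ x₁ y₀ y₁) := by
  have h1 : rect x₀ x₁ y₀ y₁ =
      (@WithLp.toLp 2 (Fin 2 → ℝ)) '' (Set.univ.pi ![Set.Icc x₀ x₁, Set.Icc y₀ y₁]) := by
    ext v
    constructor
    · intro hv
      refine ⟨v.ofLp, ?_, rfl⟩
      simpa [Set.mem_pi, Fin.forall_fin_two, rect] using hv
    · rintro ⟨w, hw, rfl⟩
      simpa [Set.mem_pi, Fin.forall_fin_two, rect] using hw
  rw [h1]
  apply IsCompact.image
  · apply isCompact_univ_pi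
    intro i
    fin_cases i
    · exact isCompact_Icc
    · exact isCompact_Icc
  · exact PiLp.continuous_toLp 2 _

lemma frontier_rect (x₀ x₁ y₀ y₁ : ℝ) :
    frontier (rect x₀ x₁ y₀ y₁) =
      rect x₀ x₁ y₀ y₁ \ {v : E2 | v 0 ∈ Set.Ioo x₀ x₁ ∧ v 1 ∈ Set.Ioo y₀ y₁} := by
  rw [(isClosed_rect _ _ _ _).frontier_eq]
  congr 1
  apply Set.Subset.antisymm
  · intro v hv
    -- interior of the preimages
    have h0 : v ∈ interior ((fun v : E2 => v 0) ⁻¹' Set.Icc x₀ x₁) :=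
      interior_mono (fun w hw => hw.1) hv
    have h1 : v ∈ interior ((fun v : E2 => v 1) ⁻¹' Set.Icc y₀ y₁) :=
      interior_mono (fun w hw => hw.2) hv
    have hop : ∀ i : Fin 2, IsOpenMap (fun v : E2 => v i) := by
      intro i
      exact (isOpenMap_eval i).comp
        (PiLp.homeomorph 2 (fun _ : Fin 2 => ℝ)).isOpenMap
    rw [← (hop 0).preimage_interior_eq_interior_preimage cont0, interior_Icc] at h0
    rw [← (hop 1).preimage_interior_eq_interior_preimage cont1, interior_Icc] at h1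
    exact ⟨h0, h1⟩
  · apply interior_maximal _ (isOpen_box _ _ _ _)
    intro v hv
    exact ⟨Set.Ioo_subset_Icc_self hv.1, Set.Ioo_subset_Icc_self hv.2⟩

lemma seg_deriv (a w : E2) (t : ℝ) : HasDerivAt (fun t : ℝ => a + t • w) w t := by
  have h := ((hasDerivAt_id t).smul_const w).const_add a
  simpa using h

lemma smooth_rect {x₀ x₁ y₀ y₁ : ℝ} (hx : x₀ < x₁) (hy : y₀ < y₁) :
    HasPiecewiseSmoothBoundary (rect x₀ x₁ y₀ y₁) := by
  let a : Fin 4 → E2 := ![!₂[x₀, y₀], !₂[x₀, y₁], !₂[x₀, y₀], !₂[x₁, y₀]]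
  let w : Fin 4 → E2 := ![!₂[x₁ - x₀, 0], !₂[x₁ - x₀, 0], !₂[0, y₁ - y₀], !₂[0, y₁ - y₀]]
  have hw : ∀ i, w i ≠ 0 := by
    intro i hi
    have h0 : (w i) 0 = 0 := by rw [hi]; rfl
    have h1 : (w i) 1 = 0 := by rw [hi]; rfl
    fin_cases i <;> simp [w] at h0 h1 <;> linarith
  refine ⟨4, fun i t => a i + t • w i, ?_, ?_⟩
  · intro i
    refine ⟨by fun_prop, ?_, ?_⟩
    · intro s _ t _ hst
      have h1 : s • w i = t • w i := add_left_cancel hst
      have h2 : (s - t) • w i = 0 := by rw [sub_smul, h1, sub_self]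
      rcases smul_eq_zero.1 h2 with h | h
      · linarith
      · exact absurd h (hw i)
    · intro t _
      rw [(seg_deriv (a i) (w i) t).deriv]
      exact hw i
  · rw [frontier_rect]
    ext u
    rw [Set.mem_iUnion]
    constructor
    · rintro ⟨⟨⟨h1, h2⟩, h3, h4⟩, hn⟩
      simp only [Set.mem_ofPred_eq, Set.mem_Ioo, not_and, not_lt] at hn
      have hxx : 0 < x₁ - x₀ := by linarith
      have hyy : 0 < y₁ - y₀ := by linarith
      have key0 : ∀ (j : Fin 4), (a j) 0 + ((u 0 - x₀) / (x₁ - x₀)) * (w j) 0 = u 0 →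
          (a j) 1 + ((u 0 - x₀) / (x₁ - x₀)) * (w j) 1 = u 1 →
          ∃ i, u ∈ (fun t : ℝ => a i + t • w i) '' Set.Icc 0 1 := by
        intro j e0 e1
        refine ⟨j, (u 0 - x₀) / (x₁ - x₀), ⟨?_, ?_⟩, ?_⟩
        · exact div_nonneg (by linarith) hxx.le
        · rw [div_le_one hxx]; linarith
        · ext i
          fin_cases i
          · exact e0
          · exact e1
      have key1 : ∀ (j : Fin 4), (a j) 0 + ((u 1 - y₀) / (y₁ - y₀)) * (w j) 0 = u 0 →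
          (a j) 1 + ((u 1 - y₀) / (y₁ - y₀)) * (w j) 1 = u 1 →
          ∃ i, u ∈ (fun t : ℝ => a i + t • w i) '' Set.Icc 0 1 := by
        intro j e0 e1
        refine ⟨j, (u 1 - y₀) / (y₁ - y₀), ⟨?_, ?_⟩, ?_⟩
        · exact div_nonneg (by linarith) hyy.le
        · rw [div_le_one hyy]; linarith
        · ext i
          fin_cases i
          · exact e0
          · exact e1
      have c0 : (u 0 - x₀) / (x₁ - x₀) * (x₁ - x₀) = u 0 - x₀ := div_mul_cancel₀ _ hxx.ne'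
      have c1 : (u 1 - y₀) / (y₁ - y₀) * (y₁ - y₀) = u 1 - y₀ := div_mul_cancel₀ _ hyy.ne'
      by_cases e1 : u 1 = y₀
      · apply key0 0 <;> simp [a, w, c0, e1]
      · by_cases e2 : u 1 = y₁
        · apply key0 1 <;> simp [a, w, c0, e2]
        · by_cases e3 : u 0 = x₀
          · apply key1 2 <;> simp [a, w, c1, e3]
          · by_cases e4 : u 0 = x₁
            · apply key1 3 <;> simp [a, w, c1, e4]
            · exfalso
              have l1 : x₀ < u 0 := lt_of_le_of_ne h1 (Ne.symm e3)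
              have l2 : u 0 < x₁ := lt_of_le_of_ne h2 e4
              have l3 : y₀ < u 1 := lt_of_le_of_ne h3 (Ne.symm e1)
              have l4 : u 1 < y₁ := lt_of_le_of_ne h4 e2
              have := hn ⟨l1, l2⟩ l3
              linarith
    · rintro ⟨i, t, ⟨ht0, ht1⟩, rfl⟩
      refine ⟨⟨⟨?_, ?_⟩, ?_, ?_⟩, ?_⟩
      all_goals fin_cases i <;> simp [a, w] <;> nlinarith

/-- coordinates of points of a segment -/
lemma seg_mem {v u z : E2} (h : z ∈ segment ℝ v u) : ∃ t ∈ Set.Icc (0 : ℝ) 1,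
    z 0 = v 0 + t * (u 0 - v 0) ∧ z 1 = v 1 + t * (u 1 - v 1) := by
  rw [segment_eq_image'] at h
  obtain ⟨t, ht, rfl⟩ := h
  exact ⟨t, ht, rfl, rfl⟩

lemma mem_seg (v u : E2) {t : ℝ} (ht : t ∈ Set.Icc (0 : ℝ) 1) :
    v + t • (u - v) ∈ segment ℝ v u := by
  rw [segment_eq_image']
  exact ⟨t, ht, rfl⟩

/-- length of vertical and horizontal segments -/
lemma len_vert (a b c : ℝ) (hbc : b ≤ c) :
    μH[1] {u : E2 | u 0 = a ∧ u 1 ∈ Set.Icc b c} ≤ ENNReal.ofReal (c - b) := by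
  have hiso : Isometry (fun t : ℝ => (!₂[a, t] : E2)) := by
    apply Isometry.of_dist_eq
    intro s t
    rw [EuclideanSpace.dist_eq, Fin.sum_univ_two]
    simp [Real.dist_eq, Real.sqrt_sq_eq_abs]
  have h1 : {u : E2 | u 0 = a ∧ u 1 ∈ Set.Icc b c} ⊆
      (fun t : ℝ => (!₂[a, t] : E2)) '' Set.Icc b c := by
    rintro u ⟨h0, h1⟩
    refine ⟨u 1, h1, ?_⟩
    ext i
    fin_cases i
    · exact h0.symm
    · rfl
  refine (measure_mono h1).trans ?_
  rw [hiso.hausdorffMeasure_image (Or.inl zero_le_one), hausdorffMeasure_real, Real.volume_Icc]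

lemma len_horiz (a b c : ℝ) (hbc : b ≤ c) :
    μH[1] {u : E2 | u 1 = a ∧ u 0 ∈ Set.Icc b c} ≤ ENNReal.ofReal (c - b) := by
  have hiso : Isometry (fun t : ℝ => (!₂[t, a] : E2)) := by
    apply Isometry.of_dist_eq
    intro s t
    rw [EuclideanSpace.dist_eq, Fin.sum_univ_two]
    simp [Real.dist_eq, Real.sqrt_sq_eq_abs]
  have h1 : {u : E2 | u 1 = a ∧ u 0 ∈ Set.Icc b c} ⊆
      (fun t : ℝ => (!₂[t, a] : E2)) '' Set.Icc b c := by
    rintro u ⟨h0, h1⟩
    refine ⟨u 0, h1, ?_⟩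
    ext i
    fin_cases i
    · rfl
    · exact h0.symm
  refine (measure_mono h1).trans ?_
  rw [hiso.hausdorffMeasure_image (Or.inl zero_le_one), hausdorffMeasure_real, Real.volume_Icc]

end Q150.Vis
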