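import Pool.Agent.Q150.VisA

namespace Q150.Vis

open MeasureTheory

/-- The parameters of the construction. -/
structure Par where
  d : ℝ
  e : ℝ
  η : ℝ
  p : ℝ
  I : ℕ
  J : ℕ
  hη : 0 < η
  hηp : η < p
  hp1 : p ≤ 1
  hd : 0 < d
  he : 1 ≤ e
  hde : 2 * d ≤ e
  hJ : 1 ≤ J
  hI : (I : ℝ) * p = J * (η + 2 * e + d)
  hA : 4 * d ≤ (p - η) * e ^ 2
  hlat : 4 * (p - η) * (η + 2 * e + d) ≤ d

namespace Par

variable (P : Par)

/-- period in the vertical direction -/
def H : ℝ := P.η + 2 * P.e + P.d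
/-- side of the structured square -/
def Λ : ℝ := P.J * P.H + P.η

lemma e_pos : 0 < P.e := by have := P.he; linarith
lemma p_pos : 0 < P.p := P.hη.trans P.hηp
lemma H_pos : 0 < P.H := by
  have := P.hη; have := P.hd; have := P.e_pos
  unfold H; linarith
lemma one_le_H : 1 ≤ P.H := by
  have := P.hη; have := P.hd; have := P.he
  unfold H; linarith
lemma H_le_Λ : P.H ≤ P.Λ := by
  unfold Λ
  have h1 : (1 : ℝ) ≤ P.J := by exact_mod_cast P.hJ
  have := P.hη
  nlinarith [P.H_pos]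
lemma hIH : (P.I : ℝ) * P.p = P.J * P.H := P.hI

/-- the walls -/
def wall (j : ℕ) : Set E2 := rect 0 P.Λ (j * P.H) (j * P.H + P.η)
/-- the teeth -/
def tooth (i j : ℕ) : Set E2 :=
  rect (i * P.p) (i * P.p + P.η) (j * P.H + (P.η + P.e)) (j * P.H + (P.η + P.e + P.d))

/-- union of the obstacles -/
def Bs : Set E2 :=
  (⋃ j ∈ Finset.range (P.J + 1), P.wall j) ∪
    ⋃ i ∈ Finset.range (P.I + 1), ⋃ j ∈ Finset.range P.J, P.tooth i j

/-- the rectangle -/
def Rs : Set E2 := rect (-1) (P.Λ + 1) (-1) (P.Λ + 1)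

lemma mem_Bs {v : E2} : v ∈ P.Bs ↔ (∃ j, j ≤ P.J ∧ v ∈ P.wall j) ∨
    ∃ i j, i ≤ P.I ∧ j < P.J ∧ v ∈ P.tooth i j := by
  simp only [Bs, Set.mem_union, Set.mem_iUnion, Finset.mem_range, Nat.lt_succ_iff, exists_prop]
  constructor
  · rintro (h | ⟨i, hi, j, hj, h⟩)
    · exact Or.inl h
    · exact Or.inr ⟨i, j, hi, hj, h⟩
  · rintro (h | ⟨i, j, hi, hj, h⟩)
    · exact Or.inl h
    · exact Or.inr ⟨i, hi, j, hj, h⟩

lemma mulH_le {a b : ℕ} (h : a ≤ b) : (a : ℝ) * P.H ≤ b * P.H := by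
  have : (a : ℝ) ≤ b := by exact_mod_cast h
  exact mul_le_mul_of_nonneg_right this P.H_pos.le

lemma mulH_succ_le {a b : ℕ} (h : a < b) : (a : ℝ) * P.H + P.H ≤ b * P.H := by
  have : (a : ℝ) + 1 ≤ b := by exact_mod_cast h
  nlinarith [P.H_pos]

lemma mulp_succ_le {a b : ℕ} (h : a < b) : (a : ℝ) * P.p + P.p ≤ b * P.p := by
  have : (a : ℝ) + 1 ≤ b := by exact_mod_cast h
  nlinarith [P.p_pos]

lemma mulp_le {a b : ℕ} (h : a ≤ b) : (a : ℝ) * P.p ≤ b * P.p := by
  have : (a : ℝ) ≤ b := by exact_mod_cast h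
  exact mul_le_mul_of_nonneg_right this P.p_pos.le

lemma η_lt_H : P.η < P.H := by
  have := P.e_pos; have := P.hd
  unfold H; linarith

/-- Obstacle points lie in the structured square. -/
lemma Bs_sub {v : E2} (h : v ∈ P.Bs) : 0 ≤ v 0 ∧ v 0 ≤ P.Λ ∧ 0 ≤ v 1 ∧ v 1 ≤ P.Λ := by
  have hη := P.hη
  have hH := P.H_pos
  rw [mem_Bs] at h
  rcases h with ⟨j, hj, ⟨h0, h1⟩, h2, h3⟩ | ⟨i, j, hi, hj, ⟨h0, h1⟩, h2, h3⟩
  · have := P.mulH_le hj
    have h5 : (0 : ℝ) ≤ j * P.H := by positivity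
    refine ⟨h0, h1, by linarith, ?_⟩
    unfold Λ; linarith
  · have h4 := P.mulH_succ_le hj
    have h5 : (0 : ℝ) ≤ j * P.H := by positivity
    have h6 := P.mulp_le hi
    have h7 : (0 : ℝ) ≤ i * P.p := by have := P.p_pos; positivity
    rw [P.hIH] at h6
    have := P.e_pos; have := P.hd
    have hHd : P.H = P.η + 2 * P.e + P.d := rfl
    unfold Λ
    refine ⟨by linarith, by linarith, by linarith, by linarith⟩

/-- local description of the obstacles inside the `j`-th row -/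
lemma mem_row {v : E2} {j : ℕ} (h1 : j * P.H ≤ v 1) (h2 : v 1 < j * P.H + P.H) (h : v ∈ P.Bs) :
    v 1 ≤ j * P.H + P.η ∨
    (∃ i, i ≤ P.I ∧ v ∈ P.tooth i j) := by
  rw [mem_Bs] at h
  have hη := P.hη
  have hd := P.hd
  have he := P.e_pos
  have hHd : P.H = P.η + 2 * P.e + P.d := rfl
  rcases h with ⟨k, hk, ⟨_, _⟩, h5, h6⟩ | ⟨i, k, hi, hk, ht⟩
  · left
    rcases lt_trichotomy k j with h | h | h
    · have := P.mulH_succ_le h
      linarith
    · subst h; exact h6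
    · have := P.mulH_succ_le h
      linarith
  · right
    obtain ⟨⟨a1, a2⟩, a3, a4⟩ := ht
    rcases lt_trichotomy k j with h | h | h
    · have := P.mulH_succ_le h
      linarith
    · subst h; exact ⟨i, hi, ⟨a1, a2⟩, a3, a4⟩
    · have := P.mulH_succ_le h
      linarith

/-- the strip below the teeth is free -/
lemma free_low {v : E2} {j : ℕ} (h1 : j * P.H + P.η < v 1)
    (h2 : v 1 < j * P.H + (P.η + P.e)) : v ∉ P.Bs := by
  intro h
  have hη := P.hη
  have hd := P.hd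
  have he := P.e_pos
  have hHd : P.H = P.η + 2 * P.e + P.d := rfl
  rcases P.mem_row (j := j) (by linarith) (by linarith) h with h | ⟨i, _, _, h3, _⟩
  · linarith
  · linarith

/-- the strip above the teeth is free -/
lemma free_up {v : E2} {j : ℕ} (h1 : j * P.H + (P.η + P.e + P.d) < v 1)
    (h2 : v 1 < j * P.H + P.H) : v ∉ P.Bs := by
  intro h
  have hη := P.hη
  have hd := P.hd
  have he := P.e_pos
  have hHd : P.H = P.η + 2 * P.e + P.d := rfl
  rcases P.mem_row (j := j) (by linarith) (by linarith) h with h | ⟨i, _, _, _, h3⟩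
  · linarith
  · linarith

/-- the slots are free -/
lemma free_slot {v : E2} {i j : ℕ} (h1 : j * P.H + P.η < v 1) (h2 : v 1 < j * P.H + P.H)
    (h3 : i * P.p + P.η < v 0) (h4 : v 0 < i * P.p + P.p) : v ∉ P.Bs := by
  intro h
  have hη := P.hη
  rcases P.mem_row (j := j) (by linarith) (by linarith) h with h | ⟨k, _, ⟨a1, a2⟩, _, _⟩
  · linarith
  · rcases lt_trichotomy k i with h | h | h
    · have := P.mulp_succ_le h
      have := P.hηp
      linarith
    · subst h; linarith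
    · have := P.mulp_succ_le h
      linarith

end Par

end Q150.Vis
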