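import Pool.Agent.Q150.VisB

namespace Q150.Vis

open MeasureTheory

lemma mix_lt {x y a t : ℝ} (h0 : 0 ≤ t) (h1 : t ≤ 1) (hx : x < a) (hy : y < a) :
    x + t * (y - x) < a := by
  rcases eq_or_lt_of_le h0 with h | h
  · rw [← h]; linarith
  · nlinarith

lemma lt_mix {x y a t : ℝ} (h0 : 0 ≤ t) (h1 : t ≤ 1) (hx : a < x) (hy : a < y) :
    a < x + t * (y - x) := by
  rcases eq_or_lt_of_le h0 with h | h
  · rw [← h]; linarith
  · nlinarith

lemma mix_le {x y a t : ℝ} (h0 : 0 ≤ t) (h1 : t ≤ 1) (hx : x ≤ a) (hy : y ≤ a) :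
    x + t * (y - x) ≤ a := by nlinarith

lemma le_mix {x y a t : ℝ} (h0 : 0 ≤ t) (h1 : t ≤ 1) (hx : a ≤ x) (hy : a ≤ y) :
    a ≤ x + t * (y - x) := by nlinarith

namespace Par

variable (P : Par)

def Fs : Set E2 := P.Rs \ P.Bs

def vis (v : E2) : Set E2 := {w | segment ℝ v w ⊆ P.Fs}

lemma vol_ge (v : E2) (a0 a1 b0 b1 : ℝ)
    (h : ∀ w : E2, a0 < w 0 → w 0 < a1 → b0 < w 1 → w 1 < b1 → w ∈ P.vis v)
    (ha : 0 ≤ a1 - a0) (harea : 1 ≤ (a1 - a0) * (b1 - b0)) :
    1 ≤ volume (P.vis v) := by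
  have h1 : {w : E2 | w 0 ∈ Set.Ioo a0 a1 ∧ w 1 ∈ Set.Ioo b0 b1} ⊆ P.vis v :=
    fun w hw => h w hw.1.1 hw.1.2 hw.2.1 hw.2.2
  refine le_trans ?_ (measure_mono h1)
  rw [vol_box, Real.volume_Ioo, Real.volume_Ioo, ← ENNReal.ofReal_mul ha]
  rw [← ENNReal.ofReal_one]
  exact ENNReal.ofReal_le_ofReal harea

lemma mem_Rs {v : E2} : v ∈ P.Rs ↔ (-1 ≤ v 0 ∧ v 0 ≤ P.Λ + 1) ∧ -1 ≤ v 1 ∧ v 1 ≤ P.Λ + 1 :=
  Iff.rfl

/-- reduce membership in the visible region -/
lemma mem_vis {v w : E2} (hv : v ∈ P.Fs) (hw : w ∈ P.Rs)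
    (h : ∀ t : ℝ, 0 < t → t ≤ 1 → ∀ z : E2, z 0 = v 0 + t * (w 0 - v 0) →
      z 1 = v 1 + t * (w 1 - v 1) → z ∉ P.Bs) : w ∈ P.vis v := by
  intro z hz
  obtain ⟨t, ⟨ht0, ht1⟩, h0, h1⟩ := seg_mem hz
  have hvR := hv.1
  rw [mem_Rs] at hvR hw
  refine ⟨?_, ?_⟩
  · rw [mem_Rs, h0, h1]
    exact ⟨⟨le_mix ht0 ht1 hvR.1.1 hw.1.1, mix_le ht0 ht1 hvR.1.2 hw.1.2⟩,
      le_mix ht0 ht1 hvR.2.1 hw.2.1, mix_le ht0 ht1 hvR.2.2 hw.2.2⟩
  · rcases eq_or_lt_of_le ht0 with ht | ht
    · have : z = v := by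
        ext i
        fin_cases i
        · show z 0 = v 0
          rw [h0, ← ht]; ring
        · show z 1 = v 1
          rw [h1, ← ht]; ring
      rw [this]; exact hv.2
    · exact h t ht ht1 z h0 h1

lemma Λ_pos : 0 < P.Λ := lt_of_lt_of_le P.H_pos P.H_le_Λ

lemma vis_frame {v : E2} (hv : v ∈ P.Fs) (h : v 0 < 0 ∨ P.Λ < v 0 ∨ v 1 < 0 ∨ P.Λ < v 1) :
    1 ≤ volume (P.vis v) := by
  have hL := P.Λ_pos
  rcases h with h | h | h | h
  · apply P.vol_ge v (-1) 0 (-1) (P.Λ + 1) _ (by norm_num) (by linarith)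
    intro w h1 h2 h3 h4
    apply P.mem_vis hv ⟨⟨h1.le, by linarith⟩, h3.le, h4.le⟩
    intro t ht0 ht1 z hz0 hz1 hzB
    have := (P.Bs_sub hzB).1
    have := mix_lt ht0.le ht1 h h2
    linarith
  · apply P.vol_ge v P.Λ (P.Λ + 1) (-1) (P.Λ + 1) _ (by linarith) (by linarith)
    intro w h1 h2 h3 h4
    apply P.mem_vis hv ⟨⟨by linarith, h2.le⟩, h3.le, h4.le⟩
    intro t ht0 ht1 z hz0 hz1 hzB
    have := (P.Bs_sub hzB).2.1
    have := lt_mix ht0.le ht1 h h1
    linarith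
  · apply P.vol_ge v (-1) (P.Λ + 1) (-1) 0 _ (by linarith) (by linarith)
    intro w h1 h2 h3 h4
    apply P.mem_vis hv ⟨⟨h1.le, h2.le⟩, h3.le, by linarith⟩
    intro t ht0 ht1 z hz0 hz1 hzB
    have := (P.Bs_sub hzB).2.2.1
    have := mix_lt ht0.le ht1 h h4
    linarith
  · apply P.vol_ge v (-1) (P.Λ + 1) P.Λ (P.Λ + 1) _ (by linarith) (by linarith)
    intro w h1 h2 h3 h4
    apply P.mem_vis hv ⟨⟨h1.le, h2.le⟩, by linarith, h4.le⟩
    intro t ht0 ht1 z hz0 hz1 hzB
    have := (P.Bs_sub hzB).2.2.2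
    have := lt_mix ht0.le ht1 h h3
    linarith

lemma row_le_Λ {j : ℕ} (hj : j < P.J) : j * P.H + P.H ≤ P.Λ := by
  have := P.mulH_succ_le hj
  have := P.hη
  unfold Λ; linarith

lemma vis_low {v : E2} (hv : v ∈ P.Fs) {j : ℕ} (hj : j < P.J) (h1 : j * P.H + P.η < v 1)
    (h2 : v 1 ≤ j * P.H + (P.η + P.e)) : 1 ≤ volume (P.vis v) := by
  have hL := P.H_le_Λ
  have hH := P.one_le_H
  have he := P.he
  have hη := P.hη
  have hd := P.hd
  have hHd : P.H = P.η + 2 * P.e + P.d := rfl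
  have hrow := P.row_le_Λ hj
  have h5 : (0 : ℝ) ≤ j * P.H := by have := P.H_pos; positivity
  apply P.vol_ge v 0 P.Λ (j * P.H + P.η) (j * P.H + (P.η + P.e)) _ (by linarith) (by nlinarith)
  intro w a1 a2 a3 a4
  apply P.mem_vis hv ⟨⟨by linarith, by linarith⟩, by linarith, by linarith⟩
  intro t ht0 ht1 z hz0 hz1
  apply P.free_low (j := j)
  · rw [hz1]; exact lt_mix ht0.le ht1 h1 a3
  · rw [hz1]; nlinarith

lemma vis_up {v : E2} (hv : v ∈ P.Fs) {j : ℕ} (hj : j < P.J)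
    (h1 : j * P.H + (P.η + P.e + P.d) ≤ v 1) (h2 : v 1 < j * P.H + P.H) :
    1 ≤ volume (P.vis v) := by
  have hL := P.H_le_Λ
  have hH := P.one_le_H
  have he := P.he
  have hη := P.hη
  have hd := P.hd
  have hHd : P.H = P.η + 2 * P.e + P.d := rfl
  have hrow := P.row_le_Λ hj
  have h5 : (0 : ℝ) ≤ j * P.H := by have := P.H_pos; positivity
  apply P.vol_ge v 0 P.Λ (j * P.H + (P.η + P.e + P.d)) (j * P.H + P.H) _ (by linarith)
    (by nlinarith)
  intro w a1 a2 a3 a4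
  apply P.mem_vis hv ⟨⟨by linarith, by linarith⟩, by linarith, by linarith⟩
  intro t ht0 ht1 z hz0 hz1
  apply P.free_up (j := j)
  · rw [hz1]; nlinarith
  · rw [hz1]; exact mix_lt ht0.le ht1 h2 a4

lemma vis_slot {v : E2} (hv : v ∈ P.Fs) {i j : ℕ} (hi : i < P.I) (hj : j < P.J)
    (h1 : j * P.H + (P.η + P.e) < v 1) (h2 : v 1 < j * P.H + (P.η + P.e + P.d))
    (h3 : i * P.p + P.η < v 0) (h4 : v 0 < i * P.p + P.p) :
    1 ≤ volume (P.vis v) := by
  have hL := P.H_le_Λ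
  have hH := P.one_le_H
  have he := P.he
  have hη := P.hη
  have hd := P.hd
  have hde := P.hde
  have hHd : P.H = P.η + 2 * P.e + P.d := rfl
  have hrow := P.row_le_Λ hj
  have h5 : (0 : ℝ) ≤ j * P.H := by have := P.H_pos; positivity
  -- the cone
  set α : ℝ := (v 0 - (i * P.p + P.η)) / P.d with hα
  set β : ℝ := (i * P.p + P.p - v 0) / P.d with hβ
  have hα0 : 0 < α := div_pos (by linarith) hd
  have hβ0 : 0 < β := div_pos (by linarith) hd
  have hαd : α * P.d = v 0 - (i * P.p + P.η) := div_mul_cancel₀ _ hd.ne'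
  have hβd : β * P.d = i * P.p + P.p - v 0 := div_mul_cancel₀ _ hd.ne'
  set D : ℝ := j * P.H + P.H - v 1 with hD
  have hDe : P.e < D := by rw [hD]; linarith
  have hDH : D ≤ P.H := by rw [hD]; linarith
  have hsum : (α + β) * P.d = P.p - P.η := by linarith
  have hI1 : (i : ℝ) * P.p + P.p ≤ P.I * P.p := P.mulp_succ_le hi
  have hI2 : (P.I : ℝ) * P.p ≤ P.Λ := by
    rw [P.hIH]; unfold Λ; linarith
  have hip : (0 : ℝ) ≤ i * P.p := by have := P.p_pos; positivity
  have hlat : (α + β) * D ≤ 1 := by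
    have h6 := P.hlat
    rw [← hHd] at h6
    have h7 : (α + β) * D ≤ (α + β) * P.H := mul_le_mul_of_nonneg_left hDH (by linarith)
    have h8 : (α + β) * P.H * P.d ≤ 1 * P.d := by
      have : (α + β) * P.H * P.d = (P.p - P.η) * P.H := by rw [← hsum]; ring
      rw [this]
      have h9 : 0 ≤ (P.p - P.η) * P.H := by
        have := P.hηp
        exact mul_nonneg (by linarith) P.H_pos.le
      linarith
    have h9 := le_of_mul_le_mul_right h8 hd
    linarith
  have hD0 : 0 < D := by linarith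
  have hαD0 : 0 < α * D := mul_pos hα0 hD0
  have hβD0 : 0 < β * D := mul_pos hβ0 hD0
  have hαD : α * D ≤ 1 := by
    have : (α + β) * D = α * D + β * D := by ring
    linarith
  have hβD : β * D ≤ 1 := by
    have : (α + β) * D = α * D + β * D := by ring
    linarith
  have hα2 : α * (D / 2) = α * D / 2 := by ring
  have hβ2 : β * (D / 2) = β * D / 2 := by ring
  apply P.vol_ge v (v 0 - α * (D / 2)) (v 0 + β * (D / 2)) (v 1 + D / 2) (v 1 + D) _
    (by rw [hα2, hβ2]; linarith)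
  · have hA := P.hA
    have h6 : (v 0 + β * (D / 2) - (v 0 - α * (D / 2))) * (v 1 + D - (v 1 + D / 2)) =
        (α + β) * D ^ 2 / 4 := by ring
    rw [h6]
    have h7 : P.e ^ 2 ≤ D ^ 2 := pow_le_pow_left₀ (by linarith) hDe.le 2
    have h8 : 4 * P.d ≤ (α + β) * D ^ 2 * P.d := by
      calc 4 * P.d ≤ (P.p - P.η) * P.e ^ 2 := hA
        _ ≤ (P.p - P.η) * D ^ 2 := by
          apply mul_le_mul_of_nonneg_left h7
          have := P.hηp; linarith
        _ = (α + β) * D ^ 2 * P.d := by rw [← hsum]; ring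
    have h9 := le_of_mul_le_mul_right h8 hd
    linarith
  · intro w a1 a2 a3 a4
    apply P.mem_vis hv
    · refine ⟨⟨by linarith, by linarith⟩, by linarith, ?_⟩
      rw [hD] at a4; linarith
    · intro t ht0 ht1 z hz0 hz1
      have hT : D / 2 < w 1 - v 1 := by linarith
      have hT2 : w 1 - v 1 < D := by linarith
      -- horizontal offset bounds
      have b1 : - (α * (w 1 - v 1)) < w 0 - v 0 := by
        have := mul_lt_mul_of_pos_left hT hα0
        linarith
      have b2 : w 0 - v 0 < β * (w 1 - v 1) := by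
        have := mul_lt_mul_of_pos_left hT hβ0
        linarith
      have hz1' : z 1 - v 1 = t * (w 1 - v 1) := by rw [hz1]; ring
      have hz0' : z 0 - v 0 = t * (w 0 - v 0) := by rw [hz0]; ring
      have c1 : - (α * (z 1 - v 1)) < z 0 - v 0 := by
        rw [hz1', hz0']
        have h7 := mul_lt_mul_of_pos_left b1 ht0
        have h8 : -(α * (t * (w 1 - v 1))) = t * (-(α * (w 1 - v 1))) := by ring
        rw [h8]; exact h7
      have c2 : z 0 - v 0 < β * (z 1 - v 1) := by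
        rw [hz1', hz0']
        have h7 := mul_lt_mul_of_pos_left b2 ht0
        have h8 : β * (t * (w 1 - v 1)) = t * (β * (w 1 - v 1)) := by ring
        rw [h8]; exact h7
      have c3 : 0 < z 1 - v 1 := by rw [hz1']; exact mul_pos ht0 (by linarith)
      have c4 : z 1 - v 1 < D := by
        rw [hz1']
        have : t * (w 1 - v 1) ≤ w 1 - v 1 := mul_le_of_le_one_left (by linarith) ht1
        linarith
      rcases le_or_gt (z 1) (j * P.H + (P.η + P.e + P.d)) with h | h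
      · -- inside the slot
        apply P.free_slot (i := i) (j := j)
        · linarith
        · rw [hD] at c4; linarith
        · have : z 1 - v 1 < P.d := by linarith
          have := mul_lt_mul_of_pos_left this hα0
          linarith
        · have : z 1 - v 1 < P.d := by linarith
          have := mul_lt_mul_of_pos_left this hβ0
          linarith
      · apply P.free_up (j := j) h
        rw [hD] at c4; linarith

/-- every free point sees area at least one -/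
lemma vis_all {v : E2} (hv : v ∈ P.Fs) : 1 ≤ volume (P.vis v) := by
  by_cases h : v 0 < 0 ∨ P.Λ < v 0 ∨ v 1 < 0 ∨ P.Λ < v 1
  · exact P.vis_frame hv h
  push Not at h
  obtain ⟨h1, h2, h3, h4⟩ := h
  have hη := P.hη
  have hHp := P.H_pos
  have hpp := P.p_pos
  -- the row
  set j : ℕ := ⌊v 1 / P.H⌋₊ with hj
  have hj1 : (j : ℝ) * P.H ≤ v 1 := by
    have := Nat.floor_le (div_nonneg h3 hHp.le)
    rw [← hj, le_div_iff₀ hHp] at this
    exact this
  have hj2 : v 1 < j * P.H + P.H := by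
    have := Nat.lt_floor_add_one (v 1 / P.H)
    rw [← hj, div_lt_iff₀ hHp] at this
    linarith
  have hjJ : j ≤ P.J := by
    by_contra hc
    push Not at hc
    have := P.mulH_succ_le hc
    have := P.η_lt_H
    unfold Λ at h4
    linarith
  have hjη : j * P.H + P.η < v 1 := by
    by_contra hc
    push Not at hc
    apply hv.2
    rw [mem_Bs]
    exact Or.inl ⟨j, hjJ, ⟨h1, h2⟩, hj1, hc⟩
  have hjJ' : j < P.J := by
    rcases lt_or_eq_of_le hjJ with h | h
    · exact h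
    · exfalso
      rw [h] at hjη
      unfold Λ at h4
      linarith
  rcases le_or_gt (v 1) (j * P.H + (P.η + P.e)) with h5 | h5
  · exact P.vis_low hv hjJ' hjη h5
  rcases le_or_gt (j * P.H + (P.η + P.e + P.d)) (v 1) with h6 | h6
  · exact P.vis_up hv hjJ' h6 hj2
  -- the slot
  set i : ℕ := ⌊v 0 / P.p⌋₊ with hi
  have hi1 : (i : ℝ) * P.p ≤ v 0 := by
    have := Nat.floor_le (div_nonneg h1 hpp.le)
    rw [← hi, le_div_iff₀ hpp] at this
    exact this
  have hi2 : v 0 < i * P.p + P.p := by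
    have := Nat.lt_floor_add_one (v 0 / P.p)
    rw [← hi, div_lt_iff₀ hpp] at this
    linarith
  have hΛI : P.Λ = P.I * P.p + P.η := by rw [P.hIH]; rfl
  have hiI : i ≤ P.I := by
    by_contra hc
    push Not at hc
    have := P.mulp_succ_le hc
    have := P.hηp
    linarith
  have hiη : i * P.p + P.η < v 0 := by
    by_contra hc
    push Not at hc
    apply hv.2
    rw [mem_Bs]
    exact Or.inr ⟨i, j, hiI, hjJ', ⟨hi1, hc⟩, h5.le, h6.le⟩
  have hiI' : i < P.I := by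
    rcases lt_or_eq_of_le hiI with h | h
    · exact h
    · exfalso
      rw [h] at hiη
      linarith
  exact P.vis_slot hv hiI' hjJ' h5 h6 hiη hi2

end Par

end Q150.Vis
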