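import Pool.Agent.Q150.VisC

namespace Q150.Vis

open MeasureTheory Filter Topology

namespace Par

variable (P : Par)

def Wp : Set E2 := frontier P.Bs ∪ frontier P.Rs

def visB (v : E2) : Set E2 :=
  {u | u ∈ P.Wp ∧ ∀ w ∈ segment ℝ v u, w ≠ u → w ∈ P.Wp → w = v}

lemma not_mem_Wp {z : E2} (a0 a1 b0 b1 : ℝ) (h0 : a0 < z 0) (h1 : z 0 < a1) (h2 : b0 < z 1)
    (h3 : z 1 < b1) (hfree : ∀ w : E2, a0 < w 0 → w 0 < a1 → b0 < w 1 → w 1 < b1 → w ∉ P.Bs)
    (hR : ∀ w : E2, a0 < w 0 → w 0 < a1 → b0 < w 1 → w 1 < b1 → w ∈ P.Rs) : z ∉ P.Wp := by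
  have hopen : IsOpen {v : E2 | v 0 ∈ Set.Ioo a0 a1 ∧ v 1 ∈ Set.Ioo b0 b1} := isOpen_box _ _ _ _
  have hz : z ∈ {v : E2 | v 0 ∈ Set.Ioo a0 a1 ∧ v 1 ∈ Set.Ioo b0 b1} := ⟨⟨h0, h1⟩, h2, h3⟩
  rintro (h | h)
  · have h4 : z ∈ closure P.Bs := h.1
    rw [mem_closure_iff] at h4
    obtain ⟨w, hw, hwB⟩ := h4 _ hopen hz
    exact hfree w hw.1.1 hw.1.2 hw.2.1 hw.2.2 hwB
  · apply h.2
    rw [mem_interior]
    exact ⟨_, fun w hw => hR w hw.1.1 hw.1.2 hw.2.1 hw.2.2, hopen, hz⟩

lemma mem_front {z w : E2} {δ : ℝ} (hδ : 0 < δ) (hz : z ∈ P.Bs)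
    (h : ∀ t : ℝ, 0 < t → t < δ → z + t • w ∉ P.Bs) : z ∈ P.Wp := by
  left
  refine ⟨subset_closure hz, fun hint => ?_⟩
  have hcont : Continuous (fun t : ℝ => z + t • w) := by fun_prop
  have h1 : ∀ᶠ t in 𝓝 (0 : ℝ), z + t • w ∈ interior P.Bs := by
    apply hcont.continuousAt.eventually_mem
    apply isOpen_interior.mem_nhds
    simpa using hint
  have h2 : ∀ᶠ t in 𝓝[>] (0 : ℝ), z + t • w ∈ interior P.Bs := h1.filter_mono nhdsWithin_le_nhds
  have h3 : ∀ᶠ t in 𝓝[>] (0 : ℝ), t ∈ Set.Ioo 0 δ := Ioo_mem_nhdsGT hδ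
  obtain ⟨t, ht1, ht2⟩ := (h2.and h3).exists
  exact h t ht2.1 ht2.2 (interior_subset ht1)

lemma side_right {z : E2} {i j : ℕ} (hi : i < P.I) (hj : j < P.J) (h0 : z 0 = i * P.p + P.η)
    (h1 : j * P.H + (P.η + P.e) ≤ z 1) (h2 : z 1 ≤ j * P.H + (P.η + P.e + P.d)) : z ∈ P.Wp := by
  have hη := P.hη
  have hηp := P.hηp
  have he := P.e_pos
  have hd := P.hd
  have hHd : P.H = P.η + 2 * P.e + P.d := rfl
  apply P.mem_front (w := !₂[1, 0]) (δ := P.p - P.η) (by linarith)
  · rw [mem_Bs]
    exact Or.inr ⟨i, j, hi.le, hj, ⟨by linarith, by linarith⟩, h1, h2⟩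
  · intro t ht0 ht1
    have e0 : (z + t • (!₂[1, 0] : E2)) 0 = z 0 + t := by simp
    have e1 : (z + t • (!₂[1, 0] : E2)) 1 = z 1 := by simp
    apply P.free_slot (i := i) (j := j)
    · rw [e1]; linarith
    · rw [e1]; linarith
    · rw [e0]; linarith
    · rw [e0]; linarith

lemma side_left {z : E2} {i j : ℕ} (hi : i < P.I) (hj : j < P.J) (h0 : z 0 = i * P.p + P.p)
    (h1 : j * P.H + (P.η + P.e) ≤ z 1) (h2 : z 1 ≤ j * P.H + (P.η + P.e + P.d)) : z ∈ P.Wp := by
  have hη := P.hη
  have hηp := P.hηp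
  have he := P.e_pos
  have hd := P.hd
  have hHd : P.H = P.η + 2 * P.e + P.d := rfl
  apply P.mem_front (w := !₂[-1, 0]) (δ := P.p - P.η) (by linarith)
  · rw [mem_Bs]
    refine Or.inr ⟨i + 1, j, hi, hj, ⟨?_, ?_⟩, h1, h2⟩
    · push_cast; linarith
    · push_cast; linarith
  · intro t ht0 ht1
    have e0 : (z + t • (!₂[-1, 0] : E2)) 0 = z 0 - t := by simp; ring
    have e1 : (z + t • (!₂[-1, 0] : E2)) 1 = z 1 := by simp
    apply P.free_slot (i := i) (j := j)
    · rw [e1]; linarith
    · rw [e1]; linarith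
    · rw [e0]; linarith
    · rw [e0]; linarith

lemma side_ceil {z : E2} {j : ℕ} (hj : j < P.J) (h0 : 0 ≤ z 0) (h1 : z 0 ≤ P.Λ)
    (h2 : z 1 = j * P.H + P.H) : z ∈ P.Wp := by
  have hη := P.hη
  have he := P.e_pos
  have hd := P.hd
  have hHd : P.H = P.η + 2 * P.e + P.d := rfl
  apply P.mem_front (w := !₂[0, -1]) (δ := P.e) he
  · rw [mem_Bs]
    refine Or.inl ⟨j + 1, hj, ⟨h0, h1⟩, ?_, ?_⟩
    · push_cast; linarith
    · push_cast; linarith
  · intro t ht0 ht1
    have e1 : (z + t • (!₂[0, -1] : E2)) 1 = z 1 - t := by simp; ring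
    apply P.free_up (j := j)
    · rw [e1]; linarith
    · rw [e1]; linarith

lemma side_floor {z : E2} {j : ℕ} (hj : j < P.J) (h0 : 0 ≤ z 0) (h1 : z 0 ≤ P.Λ)
    (h2 : z 1 = j * P.H + P.η) : z ∈ P.Wp := by
  have hη := P.hη
  have he := P.e_pos
  have hd := P.hd
  have hHd : P.H = P.η + 2 * P.e + P.d := rfl
  apply P.mem_front (w := !₂[0, 1]) (δ := P.e) he
  · rw [mem_Bs]
    refine Or.inl ⟨j, hj.le, ⟨h0, h1⟩, ?_, ?_⟩
    · linarith
    · linarith
  · intro t ht0 ht1
    have e1 : (z + t • (!₂[0, 1] : E2)) 1 = z 1 + t := by simp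
    apply P.free_low (j := j)
    · rw [e1]; linarith
    · rw [e1]; linarith

/-- a point deep in a slot -/
structure Deep (v : E2) (i j : ℕ) : Prop where
  hi : i < P.I
  hj : j < P.J
  h1 : 1 ≤ v 0
  h2 : v 0 ≤ P.Λ - 1
  h3 : i * P.p + P.η < v 0
  h4 : v 0 < i * P.p + P.p
  h5 : j * P.H + (P.η + P.e + P.d / 4) ≤ v 1
  h6 : v 1 ≤ j * P.H + (P.η + P.e + 3 * P.d / 4)

variable {P}

lemma Deep.sub {v : E2} {i j : ℕ} (hv : P.Deep v i j) : P.visB v ⊆
    {u : E2 | u 0 = i * P.p + P.η ∧
      u 1 ∈ Set.Icc (j * P.H + (P.η + P.e)) (j * P.H + (P.η + P.e + P.d))} ∪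
    {u : E2 | u 0 = i * P.p + P.p ∧
      u 1 ∈ Set.Icc (j * P.H + (P.η + P.e)) (j * P.H + (P.η + P.e + P.d))} ∪
    {u : E2 | u 1 = j * P.H + P.H ∧ u 0 ∈ Set.Icc
      (v 0 - (v 0 - (i * P.p + P.η)) *
        ((j * P.H + P.H - v 1) / (j * P.H + (P.η + P.e + P.d) - v 1)))
      (v 0 + (i * P.p + P.p - v 0) *
        ((j * P.H + P.H - v 1) / (j * P.H + (P.η + P.e + P.d) - v 1)))} ∪
    {u : E2 | u 1 = j * P.H + P.η ∧ u 0 ∈ Set.Icc
      (v 0 - (v 0 - (i * P.p + P.η)) *
        ((v 1 - (j * P.H + P.η)) / (v 1 - (j * P.H + (P.η + P.e)))))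
      (v 0 + (i * P.p + P.p - v 0) *
        ((v 1 - (j * P.H + P.η)) / (v 1 - (j * P.H + (P.η + P.e)))))} := by
  obtain ⟨hi, hj, h1, h2, h3, h4, h5, h6⟩ := hv
  have hη := P.hη
  have hηp := P.hηp
  have he := P.he
  have hd := P.hd
  have hHd : P.H = P.η + 2 * P.e + P.d := rfl
  have hlatP := P.hlat
  rw [← hHd] at hlatP
  have hHp := P.H_pos
  have hrow := P.row_le_Λ hj
  have hjH : (0 : ℝ) ≤ j * P.H := by positivity
  set left : ℝ := i * P.p + P.η with hleft
  set right : ℝ := i * P.p + P.p with hright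
  set top : ℝ := j * P.H + (P.η + P.e + P.d) with htop
  set bot : ℝ := j * P.H + (P.η + P.e) with hbot
  set ceil : ℝ := j * P.H + P.H with hceil
  set floor : ℝ := j * P.H + P.η with hfloor
  rintro u ⟨huW, hvis⟩
  have ha : 0 < v 0 - left := by linarith
  have hb : 0 < right - v 0 := by linarith
  have hab : (v 0 - left) + (right - v 0) = P.p - P.η := by rw [hleft, hright]; ring
  -- a generic point of the segment
  have pt : ∀ t : ℝ, 0 ≤ t → t ≤ 1 → ∃ w ∈ segment ℝ v u, w 0 = v 0 + t * (u 0 - v 0) ∧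
      w 1 = v 1 + t * (u 1 - v 1) := fun t ht0 ht1 => ⟨_, mem_seg v u ⟨ht0, ht1⟩, rfl, rfl⟩
  have claimL : ∀ w ∈ segment ℝ v u, w 0 = left → bot ≤ w 1 → w 1 ≤ top → w = u := by
    intro w hw e0 e1 e2
    by_contra hne
    have := hvis w hw hne (P.side_right hi hj e0 e1 e2)
    rw [this] at e0; linarith
  have claimR : ∀ w ∈ segment ℝ v u, w 0 = right → bot ≤ w 1 → w 1 ≤ top → w = u := by
    intro w hw e0 e1 e2
    by_contra hne
    have := hvis w hw hne (P.side_left hi hj e0 e1 e2)
    rw [this] at e0; linarith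
  have claimC : ∀ w ∈ segment ℝ v u, w 1 = ceil → 0 ≤ w 0 → w 0 ≤ P.Λ → w = u := by
    intro w hw e0 e1 e2
    by_contra hne
    have := hvis w hw hne (P.side_ceil hj e1 e2 e0)
    rw [this] at e0; linarith
  have claimF : ∀ w ∈ segment ℝ v u, w 1 = floor → 0 ≤ w 0 → w 0 ≤ P.Λ → w = u := by
    intro w hw e0 e1 e2
    by_contra hne
    have := hvis w hw hne (P.side_floor hj e1 e2 e0)
    rw [this] at e0; linarith
  -- lateral bound
  have hlat2 : ∀ K Y : ℝ, 0 ≤ K → K ≤ P.H → P.d / 4 ≤ Y → (P.p - P.η) * (K / Y) ≤ 1 := by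
    intro K Y hK0 hK hY
    have hYp : 0 < Y := by linarith
    rw [mul_div_assoc', div_le_one hYp]
    have h7 : (P.p - P.η) * K ≤ (P.p - P.η) * P.H := mul_le_mul_of_nonneg_left hK (by linarith)
    have h8 : 4 * (P.p - P.η) * P.H = 4 * ((P.p - P.η) * P.H) := by ring
    linarith
  rcases lt_or_ge top (u 1) with htopu | htopu
  · -- above the slot
    left; right
    have hY : P.d / 4 ≤ top - v 1 := by rw [htop]; linarith
    have hYp : 0 < top - v 1 := by linarith
    have hT : 0 < u 1 - v 1 := by linarith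
    have hLU : -(v 0 - left) * ((u 1 - v 1) / (top - v 1)) < u 0 - v 0 := by
      by_contra hc
      push Not at hc
      have hUneg : u 0 - v 0 < 0 := by
        have : 0 < (v 0 - left) * ((u 1 - v 1) / (top - v 1)) := by positivity
        linarith
      have hU' : 0 < v 0 - u 0 := by linarith
      have hc2 : (v 0 - left) * (u 1 - v 1) ≤ (v 0 - u 0) * (top - v 1) := by
        have h7 : (v 0 - left) * ((u 1 - v 1) / (top - v 1)) ≤ v 0 - u 0 := by linarith
        rw [mul_div_assoc', div_le_iff₀ hYp] at h7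
        exact h7
      have ht1 : (v 0 - left) / (v 0 - u 0) ≤ 1 := by
        rw [div_le_one hU']
        nlinarith
      obtain ⟨w, hw, w0, w1⟩ := pt ((v 0 - left) / (v 0 - u 0)) (by positivity) ht1
      have e0 : w 0 = left := by
        rw [w0]
        have : (v 0 - left) / (v 0 - u 0) * (u 0 - v 0) = -(v 0 - left) := by
          field_simp; ring
        rw [this]; ring
      have e1 : (v 0 - left) / (v 0 - u 0) * (u 1 - v 1) ≤ top - v 1 := by
        rw [div_mul_eq_mul_div, div_le_iff₀ hU']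
        linarith
      have e2 : 0 ≤ (v 0 - left) / (v 0 - u 0) * (u 1 - v 1) := by positivity
      have := claimL w hw e0 (by rw [w1]; linarith) (by rw [w1]; linarith)
      rw [← this, w1] at htopu
      linarith
    have hRU : u 0 - v 0 < (right - v 0) * ((u 1 - v 1) / (top - v 1)) := by
      by_contra hc
      push Not at hc
      have hUpos : 0 < u 0 - v 0 := by
        have : 0 < (right - v 0) * ((u 1 - v 1) / (top - v 1)) := by positivity
        linarith
      have hc2 : (right - v 0) * (u 1 - v 1) ≤ (u 0 - v 0) * (top - v 1) := by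
        rw [mul_div_assoc', div_le_iff₀ hYp] at hc
        exact hc
      have ht1 : (right - v 0) / (u 0 - v 0) ≤ 1 := by
        rw [div_le_one hUpos]
        nlinarith
      obtain ⟨w, hw, w0, w1⟩ := pt ((right - v 0) / (u 0 - v 0)) (by positivity) ht1
      have e0 : w 0 = right := by
        rw [w0, div_mul_cancel₀ _ hUpos.ne']; ring
      have e1 : (right - v 0) / (u 0 - v 0) * (u 1 - v 1) ≤ top - v 1 := by
        rw [div_mul_eq_mul_div, div_le_iff₀ hUpos]
        linarith
      have e2 : 0 ≤ (right - v 0) / (u 0 - v 0) * (u 1 - v 1) := by positivity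
      have := claimR w hw e0 (by rw [w1]; linarith) (by rw [w1]; linarith)
      rw [← this, w1] at htopu
      linarith
    rcases lt_or_ge (u 1) ceil with hcu | hcu
    · -- free region
      exfalso
      have hq : (P.p - P.η) * ((u 1 - v 1) / (top - v 1)) ≤ 1 :=
        hlat2 _ _ hT.le (by rw [hceil] at hcu; linarith) hY
      have hq0 : 0 < (u 1 - v 1) / (top - v 1) := by positivity
      have hq1 : (v 0 - left) * ((u 1 - v 1) / (top - v 1)) ≤ 1 := by
        refine le_trans (mul_le_mul_of_nonneg_right ?_ hq0.le) hq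
        linarith
      have hq2 : (right - v 0) * ((u 1 - v 1) / (top - v 1)) ≤ 1 := by
        refine le_trans (mul_le_mul_of_nonneg_right ?_ hq0.le) hq
        linarith
      refine P.not_mem_Wp (-1) (P.Λ + 1) top ceil (by linarith) (by linarith) htopu hcu ?_ ?_ huW
      · intro w _ _ a3 a4
        exact P.free_up (j := j) a3 a4
      · intro w a1 a2 a3 a4
        exact ⟨⟨a1.le, a2.le⟩, by linarith, by linarith⟩
    · -- hits the ceiling
      have hDp : 0 < ceil - v 1 := by rw [hceil]; linarith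
      have ht1 : (ceil - v 1) / (u 1 - v 1) ≤ 1 := by rw [div_le_one hT]; linarith
      have ht0 : 0 < (ceil - v 1) / (u 1 - v 1) := by positivity
      obtain ⟨w, hw, w0, w1⟩ := pt ((ceil - v 1) / (u 1 - v 1)) ht0.le ht1
      have e1 : w 1 = ceil := by rw [w1, div_mul_cancel₀ _ hT.ne']; ring
      have k1 : (ceil - v 1) / (u 1 - v 1) * ((u 1 - v 1) / (top - v 1)) =
          (ceil - v 1) / (top - v 1) := by field_simp
      have b1 : -(v 0 - left) * ((ceil - v 1) / (top - v 1)) <
          (ceil - v 1) / (u 1 - v 1) * (u 0 - v 0) := by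
        have := mul_lt_mul_of_pos_left hLU ht0
        have h7 : (ceil - v 1) / (u 1 - v 1) * (-(v 0 - left) * ((u 1 - v 1) / (top - v 1))) =
            -(v 0 - left) * ((ceil - v 1) / (u 1 - v 1) * ((u 1 - v 1) / (top - v 1))) := by ring
        rw [h7, k1] at this
        exact this
      have b2 : (ceil - v 1) / (u 1 - v 1) * (u 0 - v 0) <
          (right - v 0) * ((ceil - v 1) / (top - v 1)) := by
        have := mul_lt_mul_of_pos_left hRU ht0
        have h7 : (ceil - v 1) / (u 1 - v 1) * ((right - v 0) * ((u 1 - v 1) / (top - v 1))) =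
            (right - v 0) * ((ceil - v 1) / (u 1 - v 1) * ((u 1 - v 1) / (top - v 1))) := by ring
        rw [h7, k1] at this
        exact this
      have hq : (P.p - P.η) * ((ceil - v 1) / (top - v 1)) ≤ 1 :=
        hlat2 _ _ hDp.le (by rw [hceil]; linarith) hY
      have hq0 : 0 < (ceil - v 1) / (top - v 1) := by positivity
      have hq1 : (v 0 - left) * ((ceil - v 1) / (top - v 1)) ≤ 1 := by
        refine le_trans (mul_le_mul_of_nonneg_right ?_ hq0.le) hq
        linarith
      have hq2 : (right - v 0) * ((ceil - v 1) / (top - v 1)) ≤ 1 := by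
        refine le_trans (mul_le_mul_of_nonneg_right ?_ hq0.le) hq
        linarith
      have := claimC w hw e1 (by rw [w0]; linarith) (by rw [w0]; linarith)
      rw [← this]
      refine ⟨e1, ?_, ?_⟩
      · rw [w0]; linarith
      · rw [w0]; linarith
  rcases lt_or_ge (u 1) bot with hbotu | hbotu
  · -- below the slot
    right
    have hY : P.d / 4 ≤ v 1 - bot := by rw [hbot]; linarith
    have hYp : 0 < v 1 - bot := by linarith
    have hT : 0 < v 1 - u 1 := by linarith
    have hLU : -(v 0 - left) * ((v 1 - u 1) / (v 1 - bot)) < u 0 - v 0 := by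
      by_contra hc
      push Not at hc
      have hUneg : u 0 - v 0 < 0 := by
        have : 0 < (v 0 - left) * ((v 1 - u 1) / (v 1 - bot)) := by positivity
        linarith
      have hU' : 0 < v 0 - u 0 := by linarith
      have hc2 : (v 0 - left) * (v 1 - u 1) ≤ (v 0 - u 0) * (v 1 - bot) := by
        have h7 : (v 0 - left) * ((v 1 - u 1) / (v 1 - bot)) ≤ v 0 - u 0 := by linarith
        rw [mul_div_assoc', div_le_iff₀ hYp] at h7
        exact h7
      have ht1 : (v 0 - left) / (v 0 - u 0) ≤ 1 := by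
        rw [div_le_one hU']
        nlinarith
      obtain ⟨w, hw, w0, w1⟩ := pt ((v 0 - left) / (v 0 - u 0)) (by positivity) ht1
      have e0 : w 0 = left := by
        rw [w0]
        have : (v 0 - left) / (v 0 - u 0) * (u 0 - v 0) = -(v 0 - left) := by
          field_simp; ring
        rw [this]; ring
      have e1 : (v 0 - left) / (v 0 - u 0) * (v 1 - u 1) ≤ v 1 - bot := by
        rw [div_mul_eq_mul_div, div_le_iff₀ hU']
        linarith
      have e2 : 0 ≤ (v 0 - left) / (v 0 - u 0) * (v 1 - u 1) := by positivity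
      have e3 : (v 0 - left) / (v 0 - u 0) * (u 1 - v 1) =
          -((v 0 - left) / (v 0 - u 0) * (v 1 - u 1)) := by ring
      have := claimL w hw e0 (by rw [w1, e3]; linarith) (by rw [w1, e3]; linarith)
      rw [← this, w1, e3] at hbotu
      linarith
    have hRU : u 0 - v 0 < (right - v 0) * ((v 1 - u 1) / (v 1 - bot)) := by
      by_contra hc
      push Not at hc
      have hUpos : 0 < u 0 - v 0 := by
        have : 0 < (right - v 0) * ((v 1 - u 1) / (v 1 - bot)) := by positivity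
        linarith
      have hc2 : (right - v 0) * (v 1 - u 1) ≤ (u 0 - v 0) * (v 1 - bot) := by
        rw [mul_div_assoc', div_le_iff₀ hYp] at hc
        exact hc
      have ht1 : (right - v 0) / (u 0 - v 0) ≤ 1 := by
        rw [div_le_one hUpos]
        nlinarith
      obtain ⟨w, hw, w0, w1⟩ := pt ((right - v 0) / (u 0 - v 0)) (by positivity) ht1
      have e0 : w 0 = right := by
        rw [w0, div_mul_cancel₀ _ hUpos.ne']; ring
      have e1 : (right - v 0) / (u 0 - v 0) * (v 1 - u 1) ≤ v 1 - bot := by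
        rw [div_mul_eq_mul_div, div_le_iff₀ hUpos]
        linarith
      have e2 : 0 ≤ (right - v 0) / (u 0 - v 0) * (v 1 - u 1) := by positivity
      have e3 : (right - v 0) / (u 0 - v 0) * (u 1 - v 1) =
          -((right - v 0) / (u 0 - v 0) * (v 1 - u 1)) := by ring
      have := claimR w hw e0 (by rw [w1, e3]; linarith) (by rw [w1, e3]; linarith)
      rw [← this, w1, e3] at hbotu
      linarith
    rcases lt_or_ge floor (u 1) with hcu | hcu
    · -- free region
      exfalso
      have hq : (P.p - P.η) * ((v 1 - u 1) / (v 1 - bot)) ≤ 1 :=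
        hlat2 _ _ hT.le (by rw [hfloor] at hcu; linarith) hY
      have hq0 : 0 < (v 1 - u 1) / (v 1 - bot) := by positivity
      have hq1 : (v 0 - left) * ((v 1 - u 1) / (v 1 - bot)) ≤ 1 := by
        refine le_trans (mul_le_mul_of_nonneg_right ?_ hq0.le) hq
        linarith
      have hq2 : (right - v 0) * ((v 1 - u 1) / (v 1 - bot)) ≤ 1 := by
        refine le_trans (mul_le_mul_of_nonneg_right ?_ hq0.le) hq
        linarith
      refine P.not_mem_Wp (-1) (P.Λ + 1) floor bot (by linarith) (by linarith) hcu hbotu ?_ ?_ huW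
      · intro w _ _ a3 a4
        exact P.free_low (j := j) a3 a4
      · intro w a1 a2 a3 a4
        exact ⟨⟨a1.le, a2.le⟩, by linarith, by linarith⟩
    · -- hits the floor
      have hDp : 0 < v 1 - floor := by rw [hfloor]; linarith
      have ht1 : (v 1 - floor) / (v 1 - u 1) ≤ 1 := by rw [div_le_one hT]; linarith
      have ht0 : 0 < (v 1 - floor) / (v 1 - u 1) := by positivity
      obtain ⟨w, hw, w0, w1⟩ := pt ((v 1 - floor) / (v 1 - u 1)) ht0.le ht1
      have e1 : w 1 = floor := by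
        have h7 : (v 1 - floor) / (v 1 - u 1) * (u 1 - v 1) = -(v 1 - floor) := by
          field_simp; ring
        rw [w1, h7]; ring
      have k1 : (v 1 - floor) / (v 1 - u 1) * ((v 1 - u 1) / (v 1 - bot)) =
          (v 1 - floor) / (v 1 - bot) := by field_simp
      have b1 : -(v 0 - left) * ((v 1 - floor) / (v 1 - bot)) <
          (v 1 - floor) / (v 1 - u 1) * (u 0 - v 0) := by
        have := mul_lt_mul_of_pos_left hLU ht0
        have h7 : (v 1 - floor) / (v 1 - u 1) * (-(v 0 - left) * ((v 1 - u 1) / (v 1 - bot))) =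
            -(v 0 - left) * ((v 1 - floor) / (v 1 - u 1) * ((v 1 - u 1) / (v 1 - bot))) := by ring
        rw [h7, k1] at this
        exact this
      have b2 : (v 1 - floor) / (v 1 - u 1) * (u 0 - v 0) <
          (right - v 0) * ((v 1 - floor) / (v 1 - bot)) := by
        have := mul_lt_mul_of_pos_left hRU ht0
        have h7 : (v 1 - floor) / (v 1 - u 1) * ((right - v 0) * ((v 1 - u 1) / (v 1 - bot))) =
            (right - v 0) * ((v 1 - floor) / (v 1 - u 1) * ((v 1 - u 1) / (v 1 - bot))) := by ring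
        rw [h7, k1] at this
        exact this
      have hq : (P.p - P.η) * ((v 1 - floor) / (v 1 - bot)) ≤ 1 :=
        hlat2 _ _ hDp.le (by rw [hfloor]; linarith) hY
      have hq0 : 0 < (v 1 - floor) / (v 1 - bot) := by positivity
      have hq1 : (v 0 - left) * ((v 1 - floor) / (v 1 - bot)) ≤ 1 := by
        refine le_trans (mul_le_mul_of_nonneg_right ?_ hq0.le) hq
        linarith
      have hq2 : (right - v 0) * ((v 1 - floor) / (v 1 - bot)) ≤ 1 := by
        refine le_trans (mul_le_mul_of_nonneg_right ?_ hq0.le) hq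
        linarith
      have := claimF w hw e1 (by rw [w0]; linarith) (by rw [w0]; linarith)
      rw [← this]
      refine ⟨e1, ?_, ?_⟩
      · rw [w0]; linarith
      · rw [w0]; linarith
  -- within the height of the slot
  left; left
  rcases le_or_gt (u 0) left with hl | hl
  · left
    have hU' : 0 < v 0 - u 0 := by linarith
    have ht1 : (v 0 - left) / (v 0 - u 0) ≤ 1 := by rw [div_le_one hU']; linarith
    have ht0 : 0 ≤ (v 0 - left) / (v 0 - u 0) := by positivity
    obtain ⟨w, hw, w0, w1⟩ := pt ((v 0 - left) / (v 0 - u 0)) ht0 ht1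
    have e0 : w 0 = left := by
      rw [w0]
      have : (v 0 - left) / (v 0 - u 0) * (u 0 - v 0) = -(v 0 - left) := by
        field_simp; ring
      rw [this]; ring
    have e1 : bot ≤ w 1 := by rw [w1]; exact le_mix ht0 ht1 (by linarith) hbotu
    have e2 : w 1 ≤ top := by rw [w1]; exact mix_le ht0 ht1 (by linarith) htopu
    have := claimL w hw e0 e1 e2
    rw [← this]
    exact ⟨e0, e1, e2⟩
  · right
    rcases le_or_gt right (u 0) with hr | hr
    · have hU' : 0 < u 0 - v 0 := by linarith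
      have ht1 : (right - v 0) / (u 0 - v 0) ≤ 1 := by rw [div_le_one hU']; linarith
      have ht0 : 0 ≤ (right - v 0) / (u 0 - v 0) := by positivity
      obtain ⟨w, hw, w0, w1⟩ := pt ((right - v 0) / (u 0 - v 0)) ht0 ht1
      have e0 : w 0 = right := by rw [w0, div_mul_cancel₀ _ hU'.ne']; ring
      have e1 : bot ≤ w 1 := by rw [w1]; exact le_mix ht0 ht1 (by linarith) hbotu
      have e2 : w 1 ≤ top := by rw [w1]; exact mix_le ht0 ht1 (by linarith) htopu
      have := claimR w hw e0 e1 e2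
      rw [← this]
      exact ⟨e0, e1, e2⟩
    · exfalso
      have hI1 : (i : ℝ) * P.p + P.p ≤ P.I * P.p := P.mulp_succ_le hi
      have hI2 : (P.I : ℝ) * P.p ≤ P.Λ := by
        rw [P.hIH]; unfold Λ; linarith
      have hip : (0 : ℝ) ≤ i * P.p := by have := P.p_pos; positivity
      refine P.not_mem_Wp left right floor ceil hl hr (by linarith) (by linarith) ?_ ?_ huW
      · intro w a1 a2 a3 a4
        exact P.free_slot (i := i) (j := j) a3 a4 a1 a2
      · intro w a1 a2 a3 a4
        exact ⟨⟨by linarith, by linarith⟩, by linarith, by linarith⟩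

end Par

end Q150.Vis
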