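import Mathlib

/-!
# Planar epsilon-visible spaces: definitions
-/

namespace Q150.Vis

open MeasureTheory

/-- The Euclidean plane. -/
abbrev E2 : Type := EuclideanSpace ℝ (Fin 2)

/-- The closed rectangle `[x₀, x₁] × [y₀, y₁]`. -/
def rect (x₀ x₁ y₀ y₁ : ℝ) : Set E2 := {v | v 0 ∈ Set.Icc x₀ x₁ ∧ v 1 ∈ Set.Icc y₀ y₁}

/-- The boundary of `K` is a finite union of (simple, regular) arcs of class `C²`. -/
def HasPiecewiseSmoothBoundary (K : Set E2) : Prop :=
  ∃ (k : ℕ) (γ : Fin k → ℝ → E2),
    (∀ i, ContDiff ℝ 2 (γ i) ∧ Set.InjOn (γ i) (Set.Icc 0 1) ∧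
      ∀ t ∈ Set.Icc (0 : ℝ) 1, deriv (γ i) t ≠ 0) ∧
    frontier K = ⋃ i, γ i '' Set.Icc 0 1

/-- A space: a closed rectangle containing finitely many pairwise disjoint compact obstacles with
piecewise smooth boundaries. -/
structure Space where
  /-- left side -/
  x₀ : ℝ
  /-- right side -/
  x₁ : ℝ
  /-- lower side -/
  y₀ : ℝ
  /-- upper side -/
  y₁ : ℝ
  hx : x₀ < x₁
  hy : y₀ < y₁
  /-- the number of obstacles -/
  n : ℕ
  /-- the obstacles -/
  K : Fin n → Set E2
  compact : ∀ i, IsCompact (K i)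
  smooth : ∀ i, HasPiecewiseSmoothBoundary (K i)
  inside : ∀ i, K i ⊆ rect x₀ x₁ y₀ y₁
  disjoint : ∀ i j, i ≠ j → Disjoint (K i) (K j)

namespace Space

variable (S : Space)

/-- The rectangle. -/
def R : Set E2 := rect S.x₀ S.x₁ S.y₀ S.y₁

/-- The union of the obstacles. -/
def B : Set E2 := ⋃ i, S.K i

/-- The free space. -/
def F : Set E2 := S.R \ S.B

/-- The part of the plane visible from `v`. -/
def visible (v : E2) : Set E2 := {w | segment ℝ v w ⊆ S.F}

/-- `ε`-visible: from every point of the free space one sees at least the fraction `ε` of the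
area of the free space. -/
def IsVisible (ε : ℝ) : Prop :=
  ∀ v ∈ S.F, ENNReal.ofReal (ε * (volume S.F).toReal) ≤ volume (S.visible v)

/-- The boundaries of the obstacles and the sides of the rectangle. -/
def W : Set E2 := frontier S.B ∪ frontier S.R

/-- The visible boundary: the points `u` of `W` such that the half-open segment `[v, u)` contains
no point of `W` other than possibly `v`. -/
def visibleBoundary (v : E2) : Set E2 :=
  {u | u ∈ S.W ∧ ∀ w ∈ segment ℝ v u, w ≠ u → w ∈ S.W → w = v}

/-- The points of the free space whose visible boundary has length (one-dimensional Hausdorff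
measure) smaller than `c √(ε μ(F))`. -/
def exceptional (c ε : ℝ) : Set E2 :=
  {v | v ∈ S.F ∧
    μH[1] (S.visibleBoundary v) < ENNReal.ofReal (c * Real.sqrt (ε * (volume S.F).toReal))}

/-- The ratio of the shorter side of the rectangle to the longer one is at least `lam`. -/
def AspectRatioAtLeast (lam : ℝ) : Prop :=
  lam * max (S.x₁ - S.x₀) (S.y₁ - S.y₀) ≤ min (S.x₁ - S.x₀) (S.y₁ - S.y₀)

end Space

end Q150.Vis
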