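import Pool.Agent.Q150.VisD

namespace Q150.Vis

open MeasureTheory Filter Topology

namespace Par

variable {P : Par}

lemma Deep.len {v : E2} {i j : ℕ} (hv : P.Deep v i j) :
    μH[1] (P.visB v) ≤ ENNReal.ofReal (2 * P.d + 4 * (P.p - P.η) * P.H / P.d) := by
  have hsub := hv.sub
  obtain ⟨hi, hj, h1, h2, h3, h4, h5, h6⟩ := hv
  have hη := P.hη
  have hηp := P.hηp
  have he := P.he
  have hd := P.hd
  have hHd : P.H = P.η + 2 * P.e + P.d := rfl
  set left : ℝ := i * P.p + P.η with hleft
  set right : ℝ := i * P.p + P.p with hright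
  set top : ℝ := j * P.H + (P.η + P.e + P.d) with htop
  set bot : ℝ := j * P.H + (P.η + P.e) with hbot
  set ceil : ℝ := j * P.H + P.H with hceil
  set floor : ℝ := j * P.H + P.η with hfloor
  have hY1 : P.d / 4 ≤ top - v 1 := by rw [htop]; linarith
  have hY2 : P.d / 4 ≤ v 1 - bot := by rw [hbot]; linarith
  have hK1 : 0 ≤ (ceil - v 1) / (top - v 1) := div_nonneg (by rw [hceil]; linarith) (by linarith)
  have hK2 : 0 ≤ (v 1 - floor) / (v 1 - bot) :=
    div_nonneg (by rw [hfloor]; linarith) (by linarith)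
  have hb0 : 0 < P.p - P.η := by linarith
  have l1 : μH[1] {u : E2 | u 0 = left ∧ u 1 ∈ Set.Icc bot top} ≤ ENNReal.ofReal P.d := by
    have := len_vert left bot top (by linarith)
    have e : top - bot = P.d := by rw [htop, hbot]; ring
    rwa [e] at this
  have l2 : μH[1] {u : E2 | u 0 = right ∧ u 1 ∈ Set.Icc bot top} ≤ ENNReal.ofReal P.d := by
    have := len_vert right bot top (by linarith)
    have e : top - bot = P.d := by rw [htop, hbot]; ring
    rwa [e] at this
  have l3 : μH[1] {u : E2 | u 1 = ceil ∧ u 0 ∈ Set.Icc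
      (v 0 - (v 0 - left) * ((ceil - v 1) / (top - v 1)))
      (v 0 + (right - v 0) * ((ceil - v 1) / (top - v 1)))} ≤
      ENNReal.ofReal ((P.p - P.η) * ((ceil - v 1) / (top - v 1))) := by
    have := len_horiz ceil (v 0 - (v 0 - left) * ((ceil - v 1) / (top - v 1)))
      (v 0 + (right - v 0) * ((ceil - v 1) / (top - v 1))) (by nlinarith)
    have e : v 0 + (right - v 0) * ((ceil - v 1) / (top - v 1)) -
        (v 0 - (v 0 - left) * ((ceil - v 1) / (top - v 1))) =
        (P.p - P.η) * ((ceil - v 1) / (top - v 1)) := by rw [hright, hleft]; ring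
    rwa [e] at this
  have l4 : μH[1] {u : E2 | u 1 = floor ∧ u 0 ∈ Set.Icc
      (v 0 - (v 0 - left) * ((v 1 - floor) / (v 1 - bot)))
      (v 0 + (right - v 0) * ((v 1 - floor) / (v 1 - bot)))} ≤
      ENNReal.ofReal ((P.p - P.η) * ((v 1 - floor) / (v 1 - bot))) := by
    have := len_horiz floor (v 0 - (v 0 - left) * ((v 1 - floor) / (v 1 - bot)))
      (v 0 + (right - v 0) * ((v 1 - floor) / (v 1 - bot))) (by nlinarith)
    have e : v 0 + (right - v 0) * ((v 1 - floor) / (v 1 - bot)) -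
        (v 0 - (v 0 - left) * ((v 1 - floor) / (v 1 - bot))) =
        (P.p - P.η) * ((v 1 - floor) / (v 1 - bot)) := by rw [hright, hleft]; ring
    rwa [e] at this
  refine (measure_mono hsub).trans ?_
  refine (measure_union_le _ _).trans ?_
  refine (add_le_add ((measure_union_le _ _).trans
    (add_le_add ((measure_union_le _ _).trans (add_le_add l1 l2)) l3)) l4).trans ?_
  rw [← ENNReal.ofReal_add hd.le hd.le, ← ENNReal.ofReal_add (by linarith) (by positivity),
    ← ENNReal.ofReal_add (by positivity) (by positivity)]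
  apply ENNReal.ofReal_le_ofReal
  have k1 : (ceil - v 1) / (top - v 1) ≤ 4 * (ceil - v 1) / P.d := by
    rw [div_le_div_iff₀ (by linarith) hd]
    have : 0 ≤ ceil - v 1 := by rw [hceil]; linarith
    nlinarith
  have k2 : (v 1 - floor) / (v 1 - bot) ≤ 4 * (v 1 - floor) / P.d := by
    rw [div_le_div_iff₀ (by linarith) hd]
    have : 0 ≤ v 1 - floor := by rw [hfloor]; linarith
    nlinarith
  have k3 : (ceil - v 1) / (top - v 1) + (v 1 - floor) / (v 1 - bot) ≤ 4 * P.H / P.d := by
    have : 4 * (ceil - v 1) / P.d + 4 * (v 1 - floor) / P.d = 4 * (ceil - floor) / P.d := by ring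
    have h7 : 4 * (ceil - floor) / P.d ≤ 4 * P.H / P.d := by
      apply div_le_div_of_nonneg_right _ hd.le
      rw [hceil, hfloor]; linarith
    linarith
  have k4 : (P.p - P.η) * ((ceil - v 1) / (top - v 1)) +
      (P.p - P.η) * ((v 1 - floor) / (v 1 - bot)) ≤ 4 * (P.p - P.η) * P.H / P.d := by
    rw [← mul_add]
    have := mul_le_mul_of_nonneg_left k3 hb0.le
    have e : (P.p - P.η) * (4 * P.H / P.d) = 4 * (P.p - P.η) * P.H / P.d := by ring
    linarith
  linarith

variable (P)

/-- the deep points of a slot -/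
def slotBox (i j : ℕ) : Set E2 :=
  {v | v 0 ∈ Set.Ioo (i * P.p + P.η) (i * P.p + P.p) ∧
    v 1 ∈ Set.Ioo (j * P.H + (P.η + P.e + P.d / 4)) (j * P.H + (P.η + P.e + 3 * P.d / 4))}

lemma slotBox_vol (i j : ℕ) : volume (P.slotBox i j) =
    ENNReal.ofReal ((P.p - P.η) * (P.d / 2)) := by
  have hηp := P.hηp
  have hd := P.hd
  rw [slotBox, vol_box, Real.volume_Ioo, Real.volume_Ioo, ← ENNReal.ofReal_mul (by linarith)]
  congr 1
  ring

lemma slotBox_disj {x y : ℕ × ℕ} (h : x ≠ y) :
    Disjoint (P.slotBox x.1 x.2) (P.slotBox y.1 y.2) := by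
  have hη := P.hη
  have hd := P.hd
  have he := P.e_pos
  have hHd : P.H = P.η + 2 * P.e + P.d := rfl
  rw [Set.disjoint_left]
  rintro v ⟨⟨a1, a2⟩, a3, a4⟩ ⟨⟨b1, b2⟩, b3, b4⟩
  apply h
  have e1 : x.1 = y.1 := by
    rcases lt_trichotomy x.1 y.1 with h | h | h
    · have := P.mulp_succ_le h; linarith
    · exact h
    · have := P.mulp_succ_le h; linarith
  have e2 : x.2 = y.2 := by
    rcases lt_trichotomy x.2 y.2 with h | h | h
    · have := P.mulH_succ_le h; linarith
    · exact h
    · have := P.mulH_succ_le h; linarith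
  exact Prod.ext e1 e2

lemma slotBox_meas (i j : ℕ) : MeasurableSet (P.slotBox i j) :=
  (isOpen_box _ _ _ _).measurableSet

/-- the deep points have large measure -/
lemma deep_vol (a b : ℕ) (ha : 1 ≤ a * P.p) (hb : b * P.p + 1 ≤ P.I * P.p)
    (E : Set E2) (hE : ∀ v i j, P.Deep v i j → v ∈ E) :
    ENNReal.ofReal (((b - a : ℕ) : ℝ) * P.J * ((P.p - P.η) * (P.d / 2))) ≤ volume E := by
  have hη := P.hη
  have hηp := P.hηp
  have hd := P.hd
  have hpp := P.p_pos
  have hsub : (⋃ x ∈ Finset.Ico a b ×ˢ Finset.range P.J, P.slotBox x.1 x.2) ⊆ E := by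
    intro v hv
    simp only [Set.mem_iUnion, Finset.mem_product, Finset.mem_Ico, Finset.mem_range,
      exists_prop] at hv
    obtain ⟨⟨i, j⟩, ⟨⟨hi1, hi2⟩, hj⟩, ⟨a1, a2⟩, a3, a4⟩ := hv
    simp only at hi1 hi2 hj a1 a2 a3 a4
    have h1 := P.mulp_le hi1
    have h2 := P.mulp_succ_le hi2
    have hiI : i < P.I := by
      by_contra hc
      push Not at hc
      have := P.mulp_le hc
      linarith
    have hΛ : P.Λ = P.I * P.p + P.η := by rw [P.hIH]; rfl
    apply hE v i j
    exact ⟨hiI, hj, by linarith, by linarith, a1, a2, a3.le, a4.le⟩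
  refine le_trans (le_of_eq ?_) (measure_mono hsub)
  rw [measure_biUnion_finset (fun x _ y _ h => P.slotBox_disj h)
    (fun x _ => P.slotBox_meas x.1 x.2)]
  simp only [slotBox_vol]
  rw [Finset.sum_const, Finset.card_product, Nat.card_Ico, Finset.card_range, nsmul_eq_mul,
    ENNReal.ofReal_mul (by positivity)]
  congr 1
  rw [← Nat.cast_mul, ENNReal.ofReal_natCast]

/-- area of the obstacles -/
lemma vol_Bs : volume P.Bs ≤ ENNReal.ofReal
    (((P.J : ℝ) + 1) * (P.Λ * P.η) + ((P.I : ℝ) + 1) * P.J * (P.η * P.d)) := by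
  have hη := P.hη
  have hd := P.hd
  have hΛ := P.Λ_pos
  have h1 : volume (⋃ j ∈ Finset.range (P.J + 1), P.wall j) ≤
      ENNReal.ofReal (((P.J : ℝ) + 1) * (P.Λ * P.η)) := by
    refine (measure_biUnion_finset_le _ _).trans ?_
    have h2 : ∀ j ∈ Finset.range (P.J + 1), volume (P.wall j) = ENNReal.ofReal (P.Λ * P.η) := by
      intro j _
      rw [wall, rect, vol_box, Real.volume_Icc, Real.volume_Icc,
        ← ENNReal.ofReal_mul (by linarith)]
      congr 1; ring
    rw [Finset.sum_congr rfl h2, Finset.sum_const, Finset.card_range, nsmul_eq_mul,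
      ← ENNReal.ofReal_natCast, ← ENNReal.ofReal_mul (Nat.cast_nonneg _)]
    push_cast
    exact le_rfl
  have h3 : volume (⋃ i ∈ Finset.range (P.I + 1), ⋃ j ∈ Finset.range P.J, P.tooth i j) ≤
      ENNReal.ofReal (((P.I : ℝ) + 1) * P.J * (P.η * P.d)) := by
    refine (measure_biUnion_finset_le _ _).trans ?_
    have h4 : ∀ i ∈ Finset.range (P.I + 1), volume (⋃ j ∈ Finset.range P.J, P.tooth i j) ≤
        ENNReal.ofReal (P.J * (P.η * P.d)) := by
      intro i _
      refine (measure_biUnion_finset_le _ _).trans ?_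
      have h5 : ∀ j ∈ Finset.range P.J, volume (P.tooth i j) = ENNReal.ofReal (P.η * P.d) := by
        intro j _
        rw [tooth, rect, vol_box, Real.volume_Icc, Real.volume_Icc,
          ← ENNReal.ofReal_mul (by linarith)]
        congr 1; ring
      rw [Finset.sum_congr rfl h5, Finset.sum_const, Finset.card_range, nsmul_eq_mul,
        ← ENNReal.ofReal_natCast, ← ENNReal.ofReal_mul (Nat.cast_nonneg _)]
    refine (Finset.sum_le_sum h4).trans ?_
    rw [Finset.sum_const, Finset.card_range, nsmul_eq_mul, mul_assoc,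
      ← ENNReal.ofReal_natCast, ← ENNReal.ofReal_mul (Nat.cast_nonneg _)]
    push_cast
    exact le_rfl
  rw [ENNReal.ofReal_add (by positivity) (by positivity)]
  exact (measure_union_le _ _).trans (add_le_add h1 h3)

lemma vol_Rs : volume P.Rs = ENNReal.ofReal ((P.Λ + 2) ^ 2) := by
  have hΛ := P.Λ_pos
  rw [Rs, rect, vol_box, Real.volume_Icc, ← ENNReal.ofReal_mul (by linarith)]
  congr 1; ring

lemma Fs_ge : (P.Λ + 2) ^ 2 -
    (((P.J : ℝ) + 1) * (P.Λ * P.η) + ((P.I : ℝ) + 1) * P.J * (P.η * P.d)) ≤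
    (volume P.Fs).toReal := by
  have hη := P.hη
  have hd := P.hd
  have hΛ := P.Λ_pos
  have h1 : volume P.Rs ≤ volume P.Fs + volume P.Bs := by
    refine le_trans (measure_mono ?_) (measure_union_le _ _)
    intro v hv
    by_cases h : v ∈ P.Bs
    · exact Or.inr h
    · exact Or.inl ⟨hv, h⟩
  have h2 : volume P.Fs ≠ ⊤ := by
    have : volume P.Fs ≤ volume P.Rs := measure_mono Set.sdiff_subset
    rw [vol_Rs] at this
    exact ne_top_of_le_ne_top ENNReal.ofReal_ne_top this
  have h3 := h1.trans (add_le_add le_rfl P.vol_Bs)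
  rw [vol_Rs] at h3
  have h4 := ENNReal.toReal_mono (ENNReal.add_ne_top.2 ⟨h2, ENNReal.ofReal_ne_top⟩) h3
  rw [ENNReal.toReal_add h2 ENNReal.ofReal_ne_top, ENNReal.toReal_ofReal (by positivity),
    ENNReal.toReal_ofReal (by positivity)] at h4
  linarith

lemma Fs_le : (volume P.Fs).toReal ≤ (P.Λ + 2) ^ 2 := by
  have : volume P.Fs ≤ volume P.Rs := measure_mono Set.sdiff_subset
  rw [vol_Rs] at this
  have h4 := ENNReal.toReal_mono ENNReal.ofReal_ne_top this
  rwa [ENNReal.toReal_ofReal (by positivity)] at h4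

/-! ### The space -/

/-- index type of the obstacles -/
abbrev Ix : Type := Fin (P.J + 1) ⊕ (Fin (P.I + 1) × Fin P.J)

/-- the obstacles -/
def obs : P.Ix → Set E2
  | Sum.inl j => P.wall j
  | Sum.inr (i, j) => P.tooth i j

lemma obs_union : (⋃ x, P.obs x) = P.Bs := by
  ext v
  rw [mem_Bs, Set.mem_iUnion]
  constructor
  · rintro ⟨j | ⟨i, j⟩, h⟩
    · exact Or.inl ⟨j, by omega, h⟩
    · exact Or.inr ⟨i, j, by omega, j.2, h⟩
  · rintro (⟨j, hj, h⟩ | ⟨i, j, hi, hj, h⟩)
    · exact ⟨Sum.inl ⟨j, by omega⟩, h⟩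
    · exact ⟨Sum.inr (⟨i, by omega⟩, ⟨j, hj⟩), h⟩

lemma obs_disj {x y : P.Ix} (h : x ≠ y) : Disjoint (P.obs x) (P.obs y) := by
  have hη := P.hη
  have hηp := P.hηp
  have hd := P.hd
  have he := P.e_pos
  have hHd : P.H = P.η + 2 * P.e + P.d := rfl
  have hηH := P.η_lt_H
  rw [Set.disjoint_left]
  intro v hx hy
  rcases x with j | ⟨i, j⟩ <;> rcases y with j' | ⟨i', j'⟩
  · obtain ⟨⟨a1, a2⟩, a3, a4⟩ := hx
    obtain ⟨⟨b1, b2⟩, b3, b4⟩ := hy
    apply h
    congr 1
    apply Fin.ext
    rcases lt_trichotomy (j : ℕ) j' with h | h | h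
    · have := P.mulH_succ_le h; linarith
    · exact h
    · have := P.mulH_succ_le h; linarith
  · obtain ⟨⟨a1, a2⟩, a3, a4⟩ := hx
    obtain ⟨⟨b1, b2⟩, b3, b4⟩ := hy
    rcases lt_trichotomy (j : ℕ) j' with h | h | h
    · have := P.mulH_succ_le h; linarith
    · rw [h] at a3 a4; linarith
    · have := P.mulH_succ_le h; linarith
  · obtain ⟨⟨a1, a2⟩, a3, a4⟩ := hx
    obtain ⟨⟨b1, b2⟩, b3, b4⟩ := hy
    rcases lt_trichotomy (j : ℕ) j' with h | h | h
    · have := P.mulH_succ_le h; linarith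
    · rw [h] at a3 a4; linarith
    · have := P.mulH_succ_le h; linarith
  · obtain ⟨⟨a1, a2⟩, a3, a4⟩ := hx
    obtain ⟨⟨b1, b2⟩, b3, b4⟩ := hy
    apply h
    have e1 : i = i' := by
      apply Fin.ext
      rcases lt_trichotomy (i : ℕ) i' with h | h | h
      · have := P.mulp_succ_le h; linarith
      · exact h
      · have := P.mulp_succ_le h; linarith
    have e2 : j = j' := by
      apply Fin.ext
      rcases lt_trichotomy (j : ℕ) j' with h | h | h
      · have := P.mulH_succ_le h; linarith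
      · exact h
      · have := P.mulH_succ_le h; linarith
    rw [e1, e2]

lemma obs_sub (x : P.Ix) : P.obs x ⊆ P.Rs := by
  intro v hv
  have h : v ∈ P.Bs := by rw [← obs_union]; exact Set.mem_iUnion.2 ⟨x, hv⟩
  have := P.Bs_sub h
  exact ⟨⟨by linarith [this.1], by linarith [this.2.1]⟩, by linarith [this.2.2.1],
    by linarith [this.2.2.2]⟩

/-- the space -/
noncomputable def space : Space where
  x₀ := -1
  x₁ := P.Λ + 1
  y₀ := -1
  y₁ := P.Λ + 1
  hx := by have := P.Λ_pos; linarith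
  hy := by have := P.Λ_pos; linarith
  n := Fintype.card P.Ix
  K := fun k => P.obs ((Fintype.equivFin P.Ix).symm k)
  compact := by
    intro k
    rcases (Fintype.equivFin P.Ix).symm k with j | ⟨i, j⟩ <;> exact isCompact_rect _ _ _ _
  smooth := by
    intro k
    have hη := P.hη
    have hd := P.hd
    rcases (Fintype.equivFin P.Ix).symm k with j | ⟨i, j⟩
    · exact smooth_rect P.Λ_pos (by linarith)
    · exact smooth_rect (by linarith) (by linarith)
  inside := fun k => P.obs_sub _
  disjoint := by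
    intro k l hkl
    apply P.obs_disj
    intro h
    exact hkl ((Fintype.equivFin P.Ix).symm.injective h)

lemma space_B : P.space.B = P.Bs := by
  rw [← obs_union]
  show (⋃ k, P.obs ((Fintype.equivFin P.Ix).symm k)) = _
  exact (Fintype.equivFin P.Ix).symm.surjective.iUnion_comp P.obs

lemma space_R : P.space.R = P.Rs := rfl

lemma space_F : P.space.F = P.Fs := by
  rw [Space.F, space_B, space_R]; rfl

lemma space_visible (v : E2) : P.space.visible v = P.vis v := by
  rw [Space.visible, space_F]; rfl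

lemma space_visB (v : E2) : P.space.visibleBoundary v = P.visB v := by
  have h : P.space.W = P.Wp := by rw [Space.W, space_B, space_R]; rfl
  rw [Space.visibleBoundary, h]; rfl

end Par

end Q150.Vis
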