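import Pool.Agent.Q150.VisE

namespace Q150.Vis

open MeasureTheory Filter Topology

lemma build (n m J : ℕ) (hn : 1 ≤ n) (hm : 1 ≤ m) (hJ : 1 ≤ J) :
    ∃ P : Par, P.d = 1 / (8 * n) ∧ P.p = 1 / (65536 * (n : ℝ) ^ 3) ∧ P.η = P.p / (m + 1) ∧
      P.H = 1024 * n ∧ P.J = J ∧ P.I = J * (1024 * n) * (65536 * n ^ 3) := by
  have hn' : (1 : ℝ) ≤ n := by exact_mod_cast hn
  have hm' : (1 : ℝ) ≤ m := by exact_mod_cast hm
  have hn0 : (0 : ℝ) < n := by linarith
  have hp0 : (0 : ℝ) < 1 / (65536 * (n : ℝ) ^ 3) := by positivity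
  have hn3 : (1 : ℝ) ≤ (n : ℝ) ^ 3 := one_le_pow₀ hn'
  have hp1 : 1 / (65536 * (n : ℝ) ^ 3) ≤ 1 / 65536 := by
    apply one_div_le_one_div_of_le (by norm_num)
    linarith
  have hd0 : (0 : ℝ) < 1 / (8 * n) := by positivity
  have hd1 : 1 / (8 * (n : ℝ)) ≤ 1 / 8 := by
    apply one_div_le_one_div_of_le (by norm_num)
    linarith
  set p : ℝ := 1 / (65536 * (n : ℝ) ^ 3) with hp
  set d : ℝ := 1 / (8 * n) with hd
  have hη0 : 0 < p / (m + 1) := by positivity
  have hη2 : p / (m + 1) ≤ p / 2 := by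
    apply div_le_div_of_nonneg_left hp0.le (by norm_num)
    linarith
  set η : ℝ := p / (m + 1) with hη
  set e : ℝ := (1024 * n - η - d) / 2 with he
  have hH : η + 2 * e + d = 1024 * n := by rw [he]; ring
  have hpn : p * (n : ℝ) ^ 3 * 65536 = 1 := by
    rw [hp]; field_simp
  have hdn : d * n * 8 = 1 := by
    rw [hd]; field_simp
  have he1 : 256 * (n : ℝ) ≤ e := by rw [he]; linarith
  have he2 : 1 ≤ e := by linarith
  have hbp : p / 2 ≤ p - η := by linarith
  refine ⟨⟨d, e, η, p, J * (1024 * n) * (65536 * n ^ 3), J, hη0, by linarith, by linarith, hd0,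
    he2, by linarith, hJ, ?_, ?_, ?_⟩, rfl, rfl, rfl, hH, rfl, rfl⟩
  · rw [hH]
    push_cast
    have : (J : ℝ) * (1024 * n) * (65536 * (n : ℝ) ^ 3) * p =
        J * (1024 * n) * (p * (n : ℝ) ^ 3 * 65536) := by ring
    rw [this, hpn, mul_one]
  · have h1 : (256 * (n : ℝ)) ^ 2 ≤ e ^ 2 := pow_le_pow_left₀ (by positivity) he1 2
    have h2 : p / 2 * (256 * (n : ℝ)) ^ 2 ≤ (p - η) * e ^ 2 :=
      mul_le_mul hbp h1 (by positivity) (by linarith)
    have h3 : p / 2 * (256 * (n : ℝ)) ^ 2 = 1 / (2 * n) := by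
      rw [hp]; field_simp; norm_num
    have h4 : 4 * d = 1 / (2 * n) := by
      rw [hd]; field_simp; norm_num
    linarith
  · rw [hH]
    have h1 : 4 * (p - η) * (1024 * n) ≤ 4 * p * (1024 * n) := by
      apply mul_le_mul_of_nonneg_right _ (by positivity)
      linarith
    have h2 : 4 * p * (1024 * n) = 1 / (16 * (n : ℝ) ^ 2) := by
      rw [hp]; field_simp; norm_num
    have h3 : 1 / (16 * (n : ℝ) ^ 2) ≤ 1 / (8 * n) := by
      apply one_div_le_one_div_of_le (by positivity)
      nlinarith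
    linarith

theorem main (lam rho c C : ℝ) (hlam1 : lam < 1) (hrho1 : rho < 1)
    (hc : 0 < c) (hC : 0 < C) :
    ∃ (S : Space) (ε : ℝ), 0 < ε ∧ ε ≤ 1 ∧ S.AspectRatioAtLeast lam ∧
      rho * (volume S.R).toReal ≤ (volume S.F).toReal ∧ S.IsVisible ε ∧
      ENNReal.ofReal (C * Real.sqrt ε * (volume S.F).toReal) < volume (S.exceptional c ε) := by
  obtain ⟨n, hn⟩ := exists_nat_gt (1 / c)
  obtain ⟨m, hm⟩ := exists_nat_gt (2 / (1 - rho))
  have hr : 0 < 1 - rho := by linarith
  have hc' : 0 < 1 / c := by positivity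
  have hn0 : (0 : ℝ) < n := by linarith
  have hn1 : 1 ≤ n := by exact_mod_cast Nat.one_le_iff_ne_zero.2 (by rintro rfl; simp at hn0)
  have hn1' : (1 : ℝ) ≤ n := by exact_mod_cast hn1
  have hm0 : (0 : ℝ) < m := lt_trans (by positivity) hm
  have hm1 : 1 ≤ m := by exact_mod_cast Nat.one_le_iff_ne_zero.2 (by rintro rfl; simp at hm0)
  obtain ⟨J, hJ⟩ := exists_nat_gt (max 1 (C * (32864 * (n : ℝ) ^ 2)))
  have hJ1 : (1 : ℝ) < J := lt_of_le_of_lt (le_max_left _ _) hJ
  have hJC : C * (32864 * (n : ℝ) ^ 2) < J := lt_of_le_of_lt (le_max_right _ _) hJ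
  have hJ1' : 1 ≤ J := by exact_mod_cast hJ1.le
  obtain ⟨P, hd, hp, hη, hH, hPJ, hPI⟩ := build n m J hn1 hm1 hJ1'
  have hηpos := P.hη
  have hηp := P.hηp
  have hdpos := P.hd
  have hppos := P.p_pos
  have hΛpos := P.Λ_pos
  have hp1 := P.hp1
  have hHpos := P.H_pos
  have hΛdef : P.Λ = J * P.H + P.η := by rw [Par.Λ, hPJ]
  have hΛI : P.Λ = P.I * P.p + P.η := by rw [P.hIH]; rfl
  have hJH : (J : ℝ) ≤ P.Λ := by
    rw [hΛdef]
    have := P.one_le_H
    nlinarith
  have hpη : P.p / 2 ≤ P.p - P.η := by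
    have h1 : P.η ≤ P.p / 2 := by
      rw [hη]
      apply div_le_div_of_nonneg_left hppos.le (by norm_num)
      have : (1 : ℝ) ≤ m := by exact_mod_cast hm1
      linarith
    linarith
  -- the area of the free space
  have hF := P.Fs_ge
  have hFle := P.Fs_le
  set A : ℝ := (volume P.Fs).toReal with hA
  have hmη : P.η * (m + 1) = P.p := by
    rw [hη]; field_simp
  have hrho2 : rho * (P.Λ + 2) ^ 2 ≤ A := by
    have h1 : (((P.J : ℝ) + 1) * (P.Λ * P.η) + ((P.I : ℝ) + 1) * P.J * (P.η * P.d)) * (m + 1) ≤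
        2 * (P.Λ + 2) ^ 2 := by
      have e1 : (((P.J : ℝ) + 1) * (P.Λ * P.η) + ((P.I : ℝ) + 1) * P.J * (P.η * P.d)) * (m + 1) =
          ((P.J : ℝ) + 1) * P.Λ * (P.η * (m + 1)) +
          ((P.I : ℝ) + 1) * (P.η * (m + 1)) * (P.J * P.d) := by ring
      rw [e1, hmη, hPJ]
      have h2 : ((J : ℝ) + 1) * P.Λ * P.p ≤ (P.Λ + 2) ^ 2 := by
        have : ((J : ℝ) + 1) * P.Λ * P.p ≤ ((J : ℝ) + 1) * P.Λ * 1 :=
          mul_le_mul_of_nonneg_left hp1 (by positivity)
        nlinarith
      have h3 : ((P.I : ℝ) + 1) * P.p * (J * P.d) ≤ (P.Λ + 2) ^ 2 := by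
        have h4 : ((P.I : ℝ) + 1) * P.p ≤ P.Λ + 1 := by
          have : ((P.I : ℝ) + 1) * P.p = P.I * P.p + P.p := by ring
          linarith
        have h5 : P.d ≤ 1 := by
          rw [hd, div_le_one (by positivity)]; linarith
        have h6 : (J : ℝ) * P.d ≤ P.Λ := by nlinarith
        have h7 : ((P.I : ℝ) + 1) * P.p * (J * P.d) ≤ (P.Λ + 1) * P.Λ :=
          mul_le_mul h4 h6 (by positivity) (by linarith)
        nlinarith
      linarith
    have hm2 : 2 ≤ (1 - rho) * (m + 1) := by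
      rw [div_lt_iff₀ hr] at hm
      nlinarith
    have h2 : ((P.J : ℝ) + 1) * (P.Λ * P.η) + ((P.I : ℝ) + 1) * P.J * (P.η * P.d) ≤
        (1 - rho) * (P.Λ + 2) ^ 2 := by
      have hmm : (0 : ℝ) < m + 1 := by linarith
      apply le_of_mul_le_mul_right _ hmm
      calc _ ≤ 2 * (P.Λ + 2) ^ 2 := h1
        _ ≤ (1 - rho) * (m + 1) * (P.Λ + 2) ^ 2 :=
            mul_le_mul_of_nonneg_right hm2 (by positivity)
        _ = _ := by ring
    linarith
  have hFne : volume P.Fs ≠ ⊤ := by
    have : volume P.Fs ≤ volume P.Rs := measure_mono Set.sdiff_subset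
    rw [Par.vol_Rs] at this
    exact ne_top_of_le_ne_top ENNReal.ofReal_ne_top this
  have hA1 : 1 ≤ A := by
    -- a free point sees area at least one
    have hv : (!₂[-1, -1] : E2) ∈ P.Fs := by
      refine ⟨⟨⟨by simp, ?_⟩, by simp, ?_⟩, ?_⟩
      · simp; linarith
      · simp; linarith
      · intro h
        have := (P.Bs_sub h).1
        simp at this
        linarith
    have h1 := P.vis_all hv
    have h2 : volume (P.vis !₂[-1, -1]) ≤ volume P.Fs := by
      apply measure_mono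
      intro w hw
      exact hw (right_mem_segment ℝ _ _)
    have h3 := ENNReal.toReal_mono hFne (h1.trans h2)
    simpa using h3
  have hApos : 0 < A := by linarith
  refine ⟨P.space, 1 / A, by positivity, ?_, ?_, ?_, ?_, ?_⟩
  · rw [div_le_one hApos]; exact hA1
  · show lam * max (P.Λ + 1 - -1) (P.Λ + 1 - -1) ≤ min (P.Λ + 1 - -1) (P.Λ + 1 - -1)
    rw [max_self, min_self]
    nlinarith
  · rw [P.space_R, P.space_F, P.vol_Rs, ENNReal.toReal_ofReal (by positivity)]
    exact hrho2
  · intro v hv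
    rw [P.space_F] at hv ⊢
    rw [P.space_visible]
    rw [← hA, one_div, inv_mul_cancel₀ hApos.ne', ENNReal.ofReal_one]
    exact P.vis_all hv
  · rw [P.space_F, ← hA]
    -- the exceptional set contains the deep points
    have hlen : 2 * P.d + 4 * (P.p - P.η) * P.H / P.d < c := by
      have h1 : 4 * (P.p - P.η) * P.H / P.d ≤ 4 * P.p * P.H / P.d := by
        apply div_le_div_of_nonneg_right _ hdpos.le
        apply mul_le_mul_of_nonneg_right _ hHpos.le
        linarith
      have h2 : 4 * P.p * P.H / P.d = 1 / (2 * n) := by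
        rw [hp, hH, hd]; field_simp; norm_num
      have h3 : 2 * P.d = 1 / (4 * n) := by rw [hd]; field_simp; norm_num
      have h4 : 1 / (4 * (n : ℝ)) + 1 / (2 * n) < 1 / n := by
        have : 1 / (4 * (n : ℝ)) + 1 / (2 * n) = (3 / 4) * (1 / n) := by field_simp; norm_num
        rw [this]
        have : 0 < 1 / (n : ℝ) := by positivity
        linarith
      have h5 : 1 / (n : ℝ) < c := by
        rw [div_lt_iff₀ hn0]
        rw [div_lt_iff₀ hc] at hn
        linarith
      linarith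
    have hE : ∀ v i j, P.Deep v i j → v ∈ P.space.exceptional c (1 / A) := by
      intro v i j hv
      refine ⟨?_, ?_⟩
      · rw [P.space_F]
        have h5 := hv.h5
        have h6 := hv.h6
        have hHd : P.H = P.η + 2 * P.e + P.d := rfl
        have he := P.e_pos
        have hjH : (0 : ℝ) ≤ j * P.H := by positivity
        have hrow := P.row_le_Λ hv.hj
        refine ⟨⟨⟨by linarith [hv.h1], by linarith [hv.h2]⟩, by linarith, by linarith⟩, ?_⟩
        exact P.free_slot (i := i) (j := j) (by linarith) (by linarith) hv.h3 hv.h4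
      · rw [P.space_visB, P.space_F, ← hA]
        have h1 : c * Real.sqrt (1 / A * A) = c := by
          rw [one_div, inv_mul_cancel₀ hApos.ne', Real.sqrt_one, mul_one]
        rw [h1]
        refine lt_of_le_of_lt hv.len ?_
        exact (ENNReal.ofReal_lt_ofReal_iff hc).2 hlen
    -- number of slots
    set N : ℕ := 65536 * n ^ 3 with hN
    have hNp : (N : ℝ) * P.p = 1 := by
      rw [hN, hp]; push_cast; field_simp
    have hNpos : 0 < N := by positivity
    have hIN : 2 * N + N * J ≤ P.I := by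
      rw [hPI]
      have h1 : 2 + J ≤ J * (1024 * n) := by nlinarith
      calc 2 * N + N * J = (2 + J) * N := by ring
        _ ≤ J * (1024 * n) * N := Nat.mul_le_mul_right _ h1
    have hvol := P.deep_vol N (P.I - N) hNp.ge (by
      rw [Nat.cast_sub (by omega)]
      rw [sub_mul, hNp]; linarith) _ hE
    refine lt_of_lt_of_le ?_ hvol
    have hcount : (N : ℝ) * J ≤ ((P.I - N - N : ℕ) : ℝ) := by
      exact_mod_cast (by omega : N * J ≤ P.I - N - N)
    have hRHSpos : 0 < ((P.I - N - N : ℕ) : ℝ) * P.J * ((P.p - P.η) * (P.d / 2)) := by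
      have h1 : (0 : ℝ) < N * J := by
        have : (0 : ℝ) < N := by exact_mod_cast hNpos
        positivity
      have h2 : (0 : ℝ) < ((P.I - N - N : ℕ) : ℝ) := by linarith
      have h3 : (0 : ℝ) < P.J := by rw [hPJ]; linarith
      have h4 : 0 < P.p - P.η := by linarith
      positivity
    rw [ENNReal.ofReal_lt_ofReal_iff hRHSpos]
    -- lower bound for the right hand side
    have h1 : (J : ℝ) ^ 2 / (32 * n) ≤ ((P.I - N - N : ℕ) : ℝ) * P.J *
        ((P.p - P.η) * (P.d / 2)) := by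
      have e1 : (J : ℝ) ^ 2 / (32 * n) = (N * J) * J * (P.p / 2 * (P.d / 2)) := by
        have : (N * J : ℝ) * J * (P.p / 2 * (P.d / 2)) = (N * P.p) * J ^ 2 * P.d / 4 := by ring
        rw [this, hNp, hd]
        field_simp
        norm_num
      rw [e1, hPJ]
      apply mul_le_mul
      · exact mul_le_mul_of_nonneg_right hcount (by positivity)
      · exact mul_le_mul_of_nonneg_right hpη (by linarith)
      · positivity
      · positivity
    -- upper bound for the left hand side
    have h2 : C * Real.sqrt (1 / A) * A ≤ C * (P.Λ + 2) := by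
      have e1 : Real.sqrt (1 / A) * A = Real.sqrt A := by
        rw [Real.sqrt_div zero_le_one, Real.sqrt_one, one_div_mul_eq_div, Real.div_sqrt]
      rw [mul_assoc, e1]
      apply mul_le_mul_of_nonneg_left _ hC.le
      rw [Real.sqrt_le_left (by linarith)]
      exact hFle
    have h3 : P.Λ + 2 ≤ 1027 * n * J := by
      rw [hΛdef, hH]
      nlinarith
    have h4 : C * (P.Λ + 2) < (J : ℝ) ^ 2 / (32 * n) := by
      rw [lt_div_iff₀ (by positivity)]
      calc C * (P.Λ + 2) * (32 * n) ≤ C * (1027 * n * J) * (32 * n) := by gcongr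
        _ = C * (32864 * (n : ℝ) ^ 2) * J := by ring
        _ < J * J := by
          apply mul_lt_mul_of_pos_right hJC (by linarith)
        _ = (J : ℝ) ^ 2 := by ring
    linarith

end Q150.Vis
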